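import Pool.Agent.HMW.Targets

set_option autoImplicit false
set_option linter.unusedSectionVars false

/-!
# CLS: the class group exists
-/

open Polynomial

noncomputable section

namespace Pool.Agent.HMW

namespace CLS_

variable (K : Type) {E : Type} [Field K] [CharZero K] [Field E] [CharZero E]
    [IsAlgClosed E] [Algebra K E] [Algebra.IsAlgebraic K E] (g : ℕ) (f : E[X])

/-- the rational effective divisors -/
def MM : AddSubmonoid (Multiset (E × E)) where
  carrier := {S | MK K f S}
  add_mem' h h' := MK.add h h'
  zero_mem' := MK_zero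

variable {K g f}

theorem io_io (S : Multiset (E × E)) : (S.map io).map io = S := by
  rw [Multiset.map_map]
  have : (io ∘ io : E × E → E × E) = id := by
    funext P
    simp [io]
  rw [this, Multiset.map_id]

theorem symm' {S T : Multiset (E × E)} (h : Prin K f (S + T.map io)) :
    Prin K f (T + S.map io) := by
  have h1 := h.io
  rw [Multiset.map_add, io_io, add_comm] at h1
  exact h1

theorem trans' (hf : Cv g f) (hK : KP K f) {S T U : Multiset (E × E)} (hT : MK K f T)
    (h : Prin K f (S + T.map io)) (h' : Prin K f (T + U.map io)) :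
    Prin K f (S + U.map io) := by
  refine Prin.cancel hf (T := T) ?_ hT
  have h1 := Prin.add hf hK h h'
  have h2 : S + U.map io + (T + T.map io) = S + T.map io + (T + U.map io) := by
    abel
  rw [h2]
  exact h1

theorem add' (hf : Cv g f) (hK : KP K f) {S T U V : Multiset (E × E)}
    (h : Prin K f (S + T.map io)) (h' : Prin K f (U + V.map io)) :
    Prin K f ((S + U) + (T + V).map io) := by
  have h1 := Prin.add hf hK h h'
  have h2 : (S + U) + (T + V).map io = S + T.map io + (U + V.map io) := by
    rw [Multiset.map_add]
    abel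
  rw [h2]
  exact h1

/-- linear equivalence -/
def con (hf : Cv g f) (hK : KP K f) : AddCon (MM K f) where
  r S T := Prin K f ((S : Multiset (E × E)) + (T : Multiset (E × E)).map io)
  iseqv := ⟨fun S => Prin_NS hf S.2, fun h => symm' h, fun {_ T _} h h' => trans' hf hK T.2 h h'⟩
  add' := fun h h' => add' hf hK h h'

theorem con_iff (hf : Cv g f) (hK : KP K f) (S T : MM K f) :
    ((S : (con hf hK).Quotient) = T) ↔
      Prin K f ((S : Multiset (E × E)) + (T : Multiset (E × E)).map io) :=
  AddCon.eq _

theorem exists_neg (hf : Cv g f) (hK : KP K f) (x : (con hf hK).Quotient) :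
    ∃ y : (con hf hK).Quotient, y + x = 0 := by
  induction x using AddCon.induction_on with
  | H S =>
    let S' : MM K f := ⟨(S : Multiset (E × E)).map io, MK.io S.2⟩
    refine ⟨(S' : (con hf hK).Quotient), ?_⟩
    rw [← AddCon.coe_add, ← AddCon.coe_zero, con_iff]
    show Prin K f ((S : Multiset (E × E)).map io + (S : Multiset (E × E)) +
      (0 : Multiset (E × E)).map io)
    rw [Multiset.map_zero, add_zero, add_comm]
    exact Prin_NS hf S.2

end CLS_

open CLS_ in
theorem p_CLS : T_CLS := by
  classical
  intro K E _ _ _ _ _ _ _ g f hf hK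
  choose neg hneg using exists_neg (K := K) hf hK
  let instN : Neg (con hf hK).Quotient := ⟨neg⟩
  let inst : AddCommGroup (con hf hK).Quotient :=
    { (inferInstance : AddCommMonoid (con hf hK).Quotient) with
      neg := neg
      zsmul := @zsmulRec _ _ _ instN nsmulRec
      neg_add_cancel := hneg }
  refine ⟨(con hf hK).Quotient, inst,
    fun S => if h : MK K f S then (((⟨S, h⟩ : MM K f) : (con hf hK).Quotient)) else 0, ?_⟩
  refine ⟨fun S T hS hT => ?_, fun S hS => ?_, fun c => ?_⟩
  · simp only [hS, hT, hS.add hT, dif_pos]
    exact AddCon.coe_add (⟨S, hS⟩ : MM K f) (⟨T, hT⟩ : MM K f)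
  · simp only [hS, dif_pos]
    have h1 := con_iff hf hK (⟨S, hS⟩ : MM K f) 0
    rw [AddCon.coe_zero] at h1
    refine h1.trans ?_
    show Prin K f (S + (0 : Multiset (E × E)).map io) ↔ _
    rw [Multiset.map_zero, add_zero]
  · induction c using AddCon.induction_on with
    | H S =>
      refine ⟨S, S.2, ?_⟩
      have h2 : MK K f (S : Multiset (E × E)) := S.2
      simp only [h2, dif_pos]

end Pool.Agent.HMW
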