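import Pool.Agent.HMW.Targets

set_option autoImplicit false
set_option linter.unusedVariables false

/-!
# HMW: CXF, consequences of the standing assumptions
-/

open Polynomial Height Height.AdmissibleAbsValues NumberField IsDedekindDomain
open scoped Classical WithZero

noncomputable section

namespace Pool.Agent.HMW

namespace CXF_

/-- algebraic integers have absolute value at most `1` at the nonarchimedean places -/
theorem int_le_one {K : Type} [Field K] [NumberField K] {v : AbsoluteValue K ℝ}
    (hv : v ∈ nonarchAbsVal (K := K)) (x : 𝓞 K) : v (x : K) ≤ 1 := by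
  obtain ⟨p, hp⟩ := hv
  rw [← hp]
  exact FinitePlace.norm_le_one K p x

/-- products of polynomials with coefficients at most `1` -/
theorem PB_mul {E : Type} [Field E] {w : AbsoluteValue E ℝ}
    (hw : ∀ x y, w (x + y) ≤ max (w x) (w y)) {p q : E[X]} (hp : PB w p 1) (hq : PB w q 1) :
    PB w (p * q) 1 := by
  intro n
  rw [coeff_mul]
  have hsum : ∀ (s : Finset (ℕ × ℕ)), w (∑ x ∈ s, p.coeff x.1 * q.coeff x.2) ≤ 1 := by
    intro s
    induction s using Finset.induction_on with
    | empty => simp
    | insert a s ha ih =>
      rw [Finset.sum_insert ha]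
      refine (hw _ _).trans (max_le ?_ ih)
      rw [map_mul]
      exact mul_le_one₀ (hp _) (w.nonneg _) (hq _)
  exact hsum _

theorem PB_lin {E : Type} [Field E] {w : AbsoluteValue E ℝ} {a : E} (ha : w a ≤ 1) :
    PB w (X - C a) 1 := by
  intro n
  rcases n with _ | _ | n
  · simp only [coeff_sub, coeff_X_zero, coeff_C_zero, zero_sub, AbsoluteValue.map_neg]
    exact ha
  · simp
  · simp [coeff_X]

end CXF_

open CXF_ in
/-- consequences of the standing assumptions -/
theorem p_CXF : T_CXF := by
  intro K E _ _ _ _ _ _ _ g θ f ext h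
  refine ⟨⟨?_, ?_, ?_, h.pos⟩, ?_, ?_⟩
  · rw [h.eq]
    exact monic_prod_of_monic _ _ fun i _ => monic_X_sub_C _
  · rw [h.eq, natDegree_prod_of_monic _ _ fun i _ => monic_X_sub_C _]
    simp
  · rw [h.eq, separable_prod_X_sub_C_iff]
    intro i j hij
    have h1 : (θ i : K) = (θ j : K) := (algebraMap K E).injective hij
    exact h.inj (RingOfIntegers.ext h1)
  · refine ⟨∏ i, (X - C (θ i : K)), ?_⟩
    rw [h.eq, Polynomial.map_prod]
    exact Finset.prod_congr rfl fun i _ => by simp
  · intro v hv
    have hw := h.ext.na v hv
    have h1 : ∀ s : Finset (Fin (2 * g + 1)),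
        PB (ext v) (∏ i ∈ s, (X - C (algebraMap K E (θ i : K)))) 1 := by
      intro s
      induction s using Finset.induction_on with
      | empty =>
        intro n
        rw [Finset.prod_empty, coeff_one]
        split_ifs <;> simp
      | insert a s ha ih =>
        rw [Finset.prod_insert ha]
        refine PB_mul hw (PB_lin ?_) ih
        rw [h.ext.ex v (Or.inr hv)]
        exact int_le_one hv (θ a)
    rw [h.eq]
    exact h1 _

end Pool.Agent.HMW
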