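import Pool.Agent.HMW.Targets

set_option autoImplicit false

/-!
# DDB: the divided difference is near the derivative
-/

open Polynomial

noncomputable section

namespace Pool.Agent.HMW

namespace DDB_

variable {E : Type} [Field E] {v : AbsoluteValue E ℝ} {Λ : ℝ}

/-- A sum of `n` terms. -/
theorem sum_le (h1 : 1 ≤ Λ) (h2 : ∀ x y, v (x + y) ≤ Λ * max (v x) (v y)) (n : ℕ)
    (a : ℕ → E) (B : ℝ) (hB : 0 ≤ B) (ha : ∀ i < n, v (a i) ≤ B) :
    v (∑ i ∈ Finset.range n, a i) ≤ Λ ^ n * B := by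
  have h0 : 0 ≤ Λ := by linarith
  induction n with
  | zero =>
    rw [Finset.range_zero, Finset.sum_empty, map_zero, pow_zero, one_mul]
    exact hB
  | succ n ih =>
    rw [Finset.sum_range_succ]
    have ih' := ih fun i hi => ha i (by omega)
    have hp : 1 ≤ Λ ^ n := one_le_pow₀ h1
    have hn : v (a n) ≤ Λ ^ n * B :=
      (ha n (by omega)).trans (le_mul_of_one_le_left hB hp)
    refine (h2 _ _).trans ?_
    rw [pow_succ', mul_assoc]
    exact mul_le_mul_of_nonneg_left (max_le ih' hn) h0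

/-- difference of powers -/
theorem pow_sub_le (h1 : 1 ≤ Λ) (h2 : ∀ x y, v (x + y) ≤ Λ * max (v x) (v y)) {x y : E}
    (hx : v x ≤ Λ) (hy : v y ≤ Λ) (j : ℕ) : v (y ^ j - x ^ j) ≤ Λ ^ (2 * j) * v (x - y) := by
  have h0 : 0 ≤ Λ := by linarith
  have hs : v (∑ i ∈ Finset.range j, y ^ i * x ^ (j - 1 - i)) ≤ Λ ^ j * Λ ^ j := by
    refine sum_le h1 h2 j _ _ (by positivity) fun i hi => ?_
    rw [map_mul, map_pow, map_pow]
    calc v y ^ i * v x ^ (j - 1 - i) ≤ Λ ^ i * Λ ^ (j - 1 - i) :=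
          mul_le_mul (pow_le_pow_left₀ (apply_nonneg v y) hy i)
            (pow_le_pow_left₀ (apply_nonneg v x) hx _) (pow_nonneg (apply_nonneg v x) _)
            (by positivity)
      _ = Λ ^ (i + (j - 1 - i)) := by rw [pow_add]
      _ ≤ Λ ^ j := pow_le_pow_right₀ h1 (by omega)
  rw [← Commute.geom_sum₂_mul (Commute.all y x) j, map_mul, map_sub_rev v y x]
  refine mul_le_mul_of_nonneg_right (hs.trans (le_of_eq ?_)) (apply_nonneg v _)
  rw [← pow_add]
  ring_nf

end DDB_

open DDB_ in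
theorem p_DDB : T_DDB := by
  intro m
  refine ⟨4 * m + 2, ?_⟩
  intro E _ v Λ h1 h2 p x y hm hp hx hy
  have h0 : 0 ≤ Λ := by linarith
  have hd : 0 ≤ v (x - y) := apply_nonneg v _
  have hDD : DD p x y = ∑ k ∈ Finset.range (m + 1),
      p.coeff k * ∑ i ∈ Finset.range k, x ^ i * y ^ (k - 1 - i) := by
    unfold DD
    rw [Polynomial.sum_over_range' p _ (m + 1) (by omega)]
    intro n
    rw [zero_mul]
  have hder : (derivative p).eval x = ∑ k ∈ Finset.range (m + 1),
      p.coeff k * k * x ^ (k - 1) := by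
    rw [Polynomial.derivative_eval, Polynomial.sum_over_range' p _ (m + 1) (by omega)]
    intro n
    rw [zero_mul, zero_mul]
  have hdiff : DD p x y - (derivative p).eval x = ∑ k ∈ Finset.range (m + 1),
      p.coeff k * ∑ i ∈ Finset.range k, x ^ i * (y ^ (k - 1 - i) - x ^ (k - 1 - i)) := by
    rw [hDD, hder, ← Finset.sum_sub_distrib]
    refine Finset.sum_congr rfl fun k _ => ?_
    rw [mul_assoc, ← mul_sub]
    congr 1
    have hk : (k : E) * x ^ (k - 1) = ∑ i ∈ Finset.range k, x ^ (k - 1) := by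
      rw [Finset.sum_const, Finset.card_range, nsmul_eq_mul]
    rw [hk, ← Finset.sum_sub_distrib]
    refine Finset.sum_congr rfl fun i hi => ?_
    rw [Finset.mem_range] at hi
    rw [mul_sub, ← pow_add]
    congr 3
    omega
  rw [hdiff]
  have hterm : ∀ k < m + 1, v (p.coeff k * ∑ i ∈ Finset.range k,
      x ^ i * (y ^ (k - 1 - i) - x ^ (k - 1 - i))) ≤ Λ ^ (3 * m + 1) * v (x - y) := by
    intro k hk
    have hs : v (∑ i ∈ Finset.range k, x ^ i * (y ^ (k - 1 - i) - x ^ (k - 1 - i))) ≤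
        Λ ^ k * (Λ ^ (2 * k) * v (x - y)) := by
      refine sum_le h1 h2 k _ _ (by positivity) fun i hi => ?_
      rw [map_mul, map_pow]
      calc v x ^ i * v (y ^ (k - 1 - i) - x ^ (k - 1 - i))
          ≤ Λ ^ i * (Λ ^ (2 * (k - 1 - i)) * v (x - y)) :=
            mul_le_mul (pow_le_pow_left₀ (apply_nonneg v x) hx i)
              (pow_sub_le h1 h2 hx hy _) (apply_nonneg v _) (by positivity)
        _ = Λ ^ (i + 2 * (k - 1 - i)) * v (x - y) := by rw [pow_add]; ring
        _ ≤ Λ ^ (2 * k) * v (x - y) :=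
            mul_le_mul_of_nonneg_right (pow_le_pow_right₀ h1 (by omega)) hd
    rw [map_mul]
    calc v (p.coeff k) * v (∑ i ∈ Finset.range k, x ^ i * (y ^ (k - 1 - i) - x ^ (k - 1 - i)))
        ≤ Λ * (Λ ^ k * (Λ ^ (2 * k) * v (x - y))) :=
          mul_le_mul (hp k) hs (apply_nonneg v _) h0
      _ = Λ ^ (1 + k + 2 * k) * v (x - y) := by rw [pow_add, pow_add, pow_one]; ring
      _ ≤ Λ ^ (3 * m + 1) * v (x - y) :=
          mul_le_mul_of_nonneg_right (pow_le_pow_right₀ h1 (by omega)) hd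
  refine (sum_le h1 h2 (m + 1) _ _ (by positivity) hterm).trans (le_of_eq ?_)
  rw [← mul_assoc, ← pow_add]
  congr 2
  ring

end Pool.Agent.HMW
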