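import Pool.Agent.HMW.Targets

set_option autoImplicit false

/-!
# MP_c076ed_nt: HMW, DDI: identities of the divided differences
-/

open Polynomial
open scoped Classical

noncomputable section

namespace Pool.Agent.HMW

namespace DDI_

variable {E : Type} [Field E]

lemma geo (m : ℕ) (x y : E) :
    (x - y) * ∑ i ∈ Finset.range m, x ^ i * y ^ (m - 1 - i) = x ^ m - y ^ m := by
  rw [mul_comm]
  exact (Commute.all x y).geom_sum₂_mul m

lemma refl (m : ℕ) (x y : E) :
    ∑ i ∈ Finset.range m, x ^ (m - 1 - i) * y ^ i =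
      ∑ i ∈ Finset.range m, x ^ i * y ^ (m - 1 - i) := by
  rw [← Finset.sum_range_reflect]
  refine Finset.sum_congr rfl fun i hi => ?_
  rw [Finset.mem_range] at hi
  have h1 : m - 1 - (m - 1 - i) = i := by omega
  rw [h1]

lemma inv_sum (m : ℕ) (x y : E) (hx : x ≠ 0) (hy : y ≠ 0) :
    (∑ i ∈ Finset.range m, x⁻¹ ^ i * y⁻¹ ^ (m - 1 - i)) * (x * y) ^ (m - 1) =
      ∑ i ∈ Finset.range m, x ^ i * y ^ (m - 1 - i) := by
  rw [← refl, Finset.sum_mul]
  refine Finset.sum_congr rfl fun i hi => ?_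
  rw [Finset.mem_range] at hi
  obtain ⟨j, hj⟩ : ∃ j, m - 1 = i + j := ⟨m - 1 - i, by omega⟩
  have h1 : m - 1 - i = j := by omega
  rw [h1, hj, inv_pow, inv_pow, mul_pow, pow_add, pow_add]
  field_simp

lemma DT_eq (g : ℕ) (p : E[X]) (x y : E) :
    DT g p x y = - p.sum fun k c => c * (x * y) ^ k *
      ∑ i ∈ Finset.range (2 * g + 2 - k), x ^ i * y ^ (2 * g + 2 - k - 1 - i) := by
  unfold DT Polynomial.sum
  rw [neg_inj]
  refine Finset.sum_congr rfl fun k _ => ?_
  beta_reduce
  congr 1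
  refine Finset.sum_congr rfl fun i _ => ?_
  congr 2
  omega

end DDI_

open DDI_ in
theorem p_DDI : T_DDI := by
  intro E _
  refine ⟨?_, ?_, ?_⟩
  · intro p x y
    rw [eval_eq_sum, eval_eq_sum]
    unfold DD Polynomial.sum
    rw [Finset.mul_sum, ← Finset.sum_sub_distrib]
    refine Finset.sum_congr rfl fun k _ => ?_
    rw [mul_left_comm, geo, mul_sub]
  · intro g p x y hp
    rw [DT_eq, eval_eq_sum, eval_eq_sum]
    unfold Polynomial.sum
    rw [mul_neg, Finset.mul_sum, Finset.sum_mul, Finset.sum_mul, ← Finset.sum_sub_distrib,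
      ← Finset.sum_neg_distrib]
    refine Finset.sum_congr rfl fun k hk => ?_
    have hk' : k ≤ 2 * g + 1 := (le_natDegree_of_mem_supp k hk).trans hp
    obtain ⟨m, hm⟩ : ∃ m, 2 * g + 2 = k + m := ⟨2 * g + 2 - k, by omega⟩
    have h1 : 2 * g + 2 - k = m := by omega
    rw [mul_left_comm, h1, geo, hm, mul_pow, pow_add, pow_add]
    ring
  · intro g p x y hp hx hy
    have hd : DD (X * p.reverse) x⁻¹ y⁻¹ = ∑ k ∈ Finset.range (2 * g + 2),
        p.coeff k * ∑ i ∈ Finset.range (2 * g + 2 - k),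
          x⁻¹ ^ i * y⁻¹ ^ (2 * g + 2 - k - 1 - i) := by
      unfold DD
      rw [sum_over_range' _ _ (2 * g + 3)]
      · rw [Finset.sum_range_succ', coeff_X_mul_zero, zero_mul, add_zero,
          ← Finset.sum_range_reflect]
        refine Finset.sum_congr rfl fun k hk => ?_
        rw [Finset.mem_range] at hk
        have h1 : 2 * g + 2 - 1 - k + 1 = 2 * g + 2 - k := by omega
        rw [coeff_X_mul, coeff_reverse, hp, revAt_le (by omega), h1]
        congr 2
        omega
      · refine (natDegree_mul_le).trans_lt ?_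
        have h1 := natDegree_X_le (R := E)
        have h2 := reverse_natDegree_le p
        omega
      · intro n
        rw [zero_mul]
    have ht : DT g p x y = - ∑ k ∈ Finset.range (2 * g + 2), p.coeff k * (x * y) ^ k *
        ∑ i ∈ Finset.range (2 * g + 2 - k), x ^ i * y ^ (2 * g + 2 - k - 1 - i) := by
      rw [DT_eq, sum_over_range' _ _ (2 * g + 2)]
      · omega
      · intro n
        rw [zero_mul, zero_mul]
    rw [hd, ht, neg_neg, Finset.sum_mul]
    refine Finset.sum_congr rfl fun k hk => ?_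
    rw [Finset.mem_range] at hk
    rw [← inv_sum _ x y hx hy]
    obtain ⟨m, hm⟩ : ∃ m, 2 * g + 1 = k + m := ⟨2 * g + 1 - k, by omega⟩
    have h1 : 2 * g + 2 - k - 1 = m := by omega
    rw [h1, hm, pow_add]
    ring

end Pool.Agent.HMW
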