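import Pool.Agent.HMW.Targets

/-!
# Descent gives finite generation
-/

set_option autoImplicit false

open scoped Pointwise

namespace Pool.Agent.HMW

namespace DESC_

variable {G : Type} [AddCommGroup G] {B : G → G → ℝ}

lemma zero_left (hadd : ∀ a b c, B (a + b) c = B a c + B b c) (c : G) : B 0 c = 0 := by
  have := hadd 0 0 c
  rw [add_zero] at this
  linarith

lemma neg_left (hadd : ∀ a b c, B (a + b) c = B a c + B b c) (a c : G) : B (-a) c = -B a c := by
  have := hadd a (-a) c
  rw [add_neg_cancel, zero_left hadd] at this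
  linarith

lemma nsmul_left (hadd : ∀ a b c, B (a + b) c = B a c + B b c) (n : ℕ) (a c : G) :
    B (n • a) c = n * B a c := by
  induction n with
  | zero => simp [zero_left hadd]
  | succ n ih =>
    rw [succ_nsmul, hadd, ih]
    push_cast
    ring

lemma add_right (hadd : ∀ a b c, B (a + b) c = B a c + B b c) (hs : ∀ a b, B a b = B b a)
    (a b c : G) : B a (b + c) = B a b + B a c := by
  rw [hs a, hadd, hs b, hs c]

lemma neg_right (hadd : ∀ a b c, B (a + b) c = B a c + B b c) (hs : ∀ a b, B a b = B b a)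
    (a b : G) : B a (-b) = -B a b := by
  rw [hs a, neg_left hadd, hs b]

lemma nsmul_self (hadd : ∀ a b c, B (a + b) c = B a c + B b c) (hs : ∀ a b, B a b = B b a)
    (n : ℕ) (a : G) : B (n • a) (n • a) = (n : ℝ) ^ 2 * B a a := by
  rw [nsmul_left hadd, hs a, nsmul_left hadd]
  ring

end DESC_

open DESC_ in
theorem p_DESC : T_DESC := by
  intro G _ B hadd hs hfin hA
  have hnn : ∀ c, 0 ≤ B c c := by
    intro c
    by_contra hneg
    push Not at hneg
    have hmem : ∀ n : ℕ, n • c ∈ {c : G | B c c ≤ 0} := by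
      intro n
      show B (n • c) (n • c) ≤ 0
      rw [nsmul_self hadd hs]
      nlinarith [sq_nonneg (n : ℝ)]
    have hinj : Function.Injective (fun n : ℕ => n • c) := by
      intro m n hmn
      have h1 : B (m • c) (m • c) = B (n • c) (n • c) := by
        have : m • c = n • c := hmn
        rw [this]
      rw [nsmul_self hadd hs, nsmul_self hadd hs] at h1
      have h2 : (m : ℝ) ^ 2 = (n : ℝ) ^ 2 := mul_right_cancel₀ hneg.ne h1
      have h3 : m ^ 2 = n ^ 2 := by exact_mod_cast h2
      exact Nat.pow_left_injective (n := 2) (by norm_num) h3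
    exact Set.infinite_of_injective_forall_mem hinj hmem (hfin 0)
  refine ⟨hnn, ?_⟩
  obtain ⟨A, hA⟩ := hA
  let f : G →+ G := nsmulAddMonoidHom 2
  have hf : ∀ U : AddSubgroup G, U.map f ≤ U := by
    rintro U _ ⟨x, hx, rfl⟩
    exact U.nsmul_mem hx 2
  have : Northcott (fun c : G => B c c) := ⟨fun x => hfin x⟩
  obtain ⟨M, hM⟩ : ∃ M : ℝ, ∀ g ∈ A, B g g ≤ M := by
    refine ⟨∑ g ∈ A, B g g, fun g hg => ?_⟩
    exact Finset.single_le_sum (f := fun g => B g g) (fun g _ => hnn g) hg
  refine AddGroup.fg_of_descent (f := f) hf (s := (A : Set G)) (h := fun c => B c c)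
    (a := 2) (b := 4) (c := max (2 * M) 0) (by norm_num) (by norm_num) A.finite_toSet ?_ ?_ ?_
  · refine Set.eq_univ_of_forall fun c => ?_
    obtain ⟨a, ha, b, hb⟩ := hA c
    refine Set.mem_add.2 ⟨a, ha, b + b, ⟨b, ?_⟩, hb.symm⟩
    show 2 • b = b + b
    exact two_nsmul b
  · intro g hg x
    have h1 : 0 ≤ B ((g + x) + g) ((g + x) + g) := hnn _
    have h2 : B x x = B (g + x) (g + x) - 2 * B (g + x) g + B g g := by
      simp only [hadd, add_right hadd hs, hs x g]
      ring
    have h3 : B ((g + x) + g) ((g + x) + g) =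
        B (g + x) (g + x) + 2 * B (g + x) g + B g g := by
      simp only [hadd, add_right hadd hs, hs x g]
      ring
    have h4 := hM g hg
    have h5 := le_max_left (2 * M) 0
    show B x x ≤ 2 * B (g + x) (g + x) + max (2 * M) 0
    linarith
  · intro x
    have h1 : B (2 • x) (2 • x) = 4 * B x x := by
      rw [nsmul_self hadd hs]
      norm_num
    have h2 := le_max_right (2 * M) 0
    show 4 * B x x - max (2 * M) 0 ≤ B (2 • x) (2 • x)
    linarith

end Pool.Agent.HMW
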