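import Pool.Agent.HMW.Targets

set_option autoImplicit false

/-!
# MP_c076ed_nt, DVN: coefficients of an exact quotient by `X - a`
-/

open Polynomial
open scoped Classical

noncomputable section

namespace Pool.Agent.HMW

namespace DVN_

variable {E : Type} [Field E] (v : AbsoluteValue E ℝ) {Λ : ℝ}

theorem coeff_succ (a : E) (q : E[X]) (i : ℕ) :
    ((X - C a) * q).coeff (i + 1) = q.coeff i - a * q.coeff (i + 1) := by
  rw [sub_mul, coeff_sub, coeff_X_mul, coeff_C_mul]

theorem coeff_zero' (a : E) (q : E[X]) : ((X - C a) * q).coeff 0 = -(a * q.coeff 0) := by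
  rw [sub_mul, coeff_sub, coeff_X_mul_zero, coeff_C_mul, zero_sub]

/-- from the top -/
theorem top (h1 : 1 ≤ Λ) (h2 : ∀ x y, v (x + y) ≤ Λ * max (v x) (v y)) {a : E} {q : E[X]}
    {M : ℝ} (hM : 0 ≤ M) (ha : v a ≤ 1) (hp : PB v ((X - C a) * q) M) (k : ℕ) :
    ∀ i, q.natDegree < i + k → v (q.coeff i) ≤ Λ ^ k * M := by
  induction k with
  | zero =>
    intro i hi
    rw [coeff_eq_zero_of_natDegree_lt (by simpa using hi), v.map_zero]
    simpa using hM
  | succ k ih =>
    intro i hi
    have e : q.coeff i = ((X - C a) * q).coeff (i + 1) + a * q.coeff (i + 1) := by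
      rw [coeff_succ]
      ring
    have h3 := ih (i + 1) (by omega)
    have hk : (1 : ℝ) ≤ Λ ^ k := one_le_pow₀ h1
    rw [e]
    refine (h2 _ _).trans ?_
    rw [pow_succ', mul_assoc]
    refine mul_le_mul_of_nonneg_left (max_le ?_ ?_) (zero_le_one.trans h1)
    · refine (hp _).trans ?_
      nlinarith
    · rw [v.map_mul]
      have := v.nonneg (q.coeff (i + 1))
      nlinarith

/-- from below -/
theorem bot (h1 : 1 ≤ Λ) (h2 : ∀ x y, v (x + y) ≤ Λ * max (v x) (v y)) {a : E} {q : E[X]}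
    {M : ℝ} (hM : 0 ≤ M) (ha : 1 ≤ v a) (hp : PB v ((X - C a) * q) M) (i : ℕ) :
    v a * v (q.coeff i) ≤ Λ ^ i * M := by
  induction i with
  | zero =>
    have h3 := hp 0
    rw [coeff_zero', v.map_neg, v.map_mul] at h3
    simpa using h3
  | succ i ih =>
    have e : a * q.coeff (i + 1) = q.coeff i + -((X - C a) * q).coeff (i + 1) := by
      rw [coeff_succ]
      ring
    have hk : (1 : ℝ) ≤ Λ ^ i := one_le_pow₀ h1
    rw [← v.map_mul, e]
    refine (h2 _ _).trans ?_
    rw [pow_succ', mul_assoc]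
    refine mul_le_mul_of_nonneg_left (max_le ?_ ?_) (zero_le_one.trans h1)
    · have := v.nonneg (q.coeff i)
      nlinarith
    · rw [v.map_neg]
      refine (hp _).trans ?_
      nlinarith

end DVN_

theorem p_DVN : T_DVN := by
  intro m
  refine ⟨m + 1, fun E _ v Λ h1 h2 a q M hq hp => ?_⟩
  have hM : 0 ≤ M := (v.nonneg _).trans (hp 0)
  intro i
  by_cases ha : v a ≤ 1
  · rw [max_eq_left ha, div_one]
    exact DVN_.top v h1 h2 hM ha hp (m + 1) i (by omega)
  · have ha' : 1 < v a := not_le.1 ha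
    rw [max_eq_right ha'.le, le_div_iff₀ (by linarith)]
    by_cases hi : i ≤ m
    · have h3 := DVN_.bot v h1 h2 hM ha'.le hp i
      have h4 : Λ ^ i ≤ Λ ^ (m + 1) := pow_le_pow_right₀ h1 (by omega)
      have h5 : Λ ^ i * M ≤ Λ ^ (m + 1) * M := mul_le_mul_of_nonneg_right h4 hM
      linarith
    · rw [coeff_eq_zero_of_natDegree_lt (by omega), v.map_zero, zero_mul]
      exact mul_nonneg (pow_nonneg (zero_le_one.trans h1) _) hM

end Pool.Agent.HMW
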