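import Pool.Agent.HMW.Targets

set_option autoImplicit false
set_option linter.unusedSectionVars false

/-!
# Values of polynomials
-/

open Polynomial Height Height.AdmissibleAbsValues NumberField IsDedekindDomain
open scoped Classical

noncomputable section

namespace Pool.Agent.HMW

namespace EVB_

/-- the value of a sum of `k + 1` terms -/
theorem sum_le {E : Type} [Field E] (v : AbsoluteValue E ℝ) (Λ : ℝ) (h1 : 1 ≤ Λ)
    (hadd : ∀ x y, v (x + y) ≤ Λ * max (v x) (v y)) (a : ℕ → E) (B : ℝ) (hB : 0 ≤ B) (k : ℕ)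
    (ha : ∀ i ≤ k, v (a i) ≤ B) : v (∑ i ∈ Finset.range (k + 1), a i) ≤ Λ ^ k * B := by
  induction k with
  | zero => simpa using ha 0 le_rfl
  | succ k ih =>
    rw [Finset.sum_range_succ]
    refine (hadd _ _).trans ?_
    have h2 := ih (fun i hi => ha i (by omega))
    have h3 := ha (k + 1) le_rfl
    have h4 : B ≤ Λ ^ k * B := le_mul_of_one_le_left hB (one_le_pow₀ h1)
    rw [pow_succ', mul_assoc]
    exact mul_le_mul_of_nonneg_left (max_le h2 (h3.trans h4)) (by linarith)

end EVB_

open EVB_

theorem p_EVB : T_EVB := by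
  intro m
  refine ⟨m, ?_⟩
  intro E _ v Λ h1 hadd p M x hp hM
  have hM0 : 0 ≤ M := (v.nonneg _).trans (hM 0)
  have hX : (1 : ℝ) ≤ max 1 (v x) := le_max_left _ _
  rw [eval_eq_sum_range]
  have h2 := sum_le v Λ h1 hadd (fun i => p.coeff i * x ^ i) (M * max 1 (v x) ^ p.natDegree)
    (by positivity) p.natDegree (by
      intro i hi
      rw [map_mul, map_pow]
      apply mul_le_mul (hM i) _ (by positivity) hM0
      exact (pow_le_pow_left₀ (v.nonneg _) (le_max_right _ _) i).trans
        (pow_le_pow_right₀ hX hi))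
  refine h2.trans ?_
  rw [mul_assoc]
  apply mul_le_mul_of_nonneg_right _ (by positivity)
  exact pow_le_pow_right₀ h1 hp

end Pool.Agent.HMW
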