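import Pool.Agent.HMW.Targets

set_option autoImplicit false
set_option linter.unusedVariables false

/-!
# MP_c076ed_nt, EVN: norms of `t - θ_i` have even valuation
-/

open Polynomial Height Height.AdmissibleAbsValues NumberField IsDedekindDomain
open scoped Classical WithZero

noncomputable section

namespace Pool.Agent.HMW

namespace EVN_

open UniqueFactorizationMonoid

/-! ### (a) valuations of `t - θ_i` -/

/-- differences which are units at `w` -/
theorem even_val (L : Type) [Field L] [NumberField L] (g : ℕ) (w : HeightOneSpectrum (𝓞 L))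
    (θ : Fin (2 * g + 1) → 𝓞 L) (t y : L) (hy : y ≠ 0)
    (he : y ^ 2 = ∏ i, (t - (θ i : L))) (i : Fin (2 * g + 1))
    (hw : ∀ j, j ≠ i → θ i - θ j ∉ w.asIdeal) :
    (2 : ℤ) ∣ WithZero.log (w.valuation L (t - (θ i : L))) := by
  have hv : (w.valuation L y) ^ 2 = ∏ j, w.valuation L (t - (θ j : L)) := by
    rw [← map_pow, he, map_prod]
  have hy0 : w.valuation L y ≠ 0 := (Valuation.ne_zero_iff _).2 hy
  have hθ : ∀ j, w.valuation L (θ j : L) ≤ 1 := fun j => w.valuation_le_one (θ j)
  by_cases ht : 1 < w.valuation L t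
  · -- pole
    have h1 : ∀ j, w.valuation L (t - (θ j : L)) = w.valuation L t := by
      intro j
      exact Valuation.map_sub_eq_of_lt_left _ (lt_of_le_of_lt (hθ j) ht)
    rw [h1]
    have h2 : (w.valuation L y) ^ 2 = (w.valuation L t) ^ (2 * g + 1) := by
      rw [hv, Finset.prod_congr rfl fun j _ => h1 j]
      simp
    have h3 := congrArg WithZero.log h2
    rw [WithZero.log_pow, WithZero.log_pow, nsmul_eq_mul, nsmul_eq_mul] at h3
    push_cast at h3
    exact ⟨WithZero.log (w.valuation L y) - g * WithZero.log (w.valuation L t), by linarith⟩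
  · have ht1 : w.valuation L t ≤ 1 := not_lt.1 ht
    have h1 : w.valuation L (t - (θ i : L)) ≤ 1 :=
      (Valuation.map_sub _ _ _).trans (max_le ht1 (hθ i))
    rcases h1.lt_or_eq with h2 | h2
    · have h3 : ∀ j, j ≠ i → w.valuation L (t - (θ j : L)) = 1 := by
        intro j hj
        have h4 : w.valuation L ((θ i : L) - (θ j : L)) = 1 := by
          have h5 : (θ i : L) - (θ j : L) = algebraMap (𝓞 L) L (θ i - θ j) := by simp
          rw [h5]
          exact w.valuation_eq_one_iff_notMem.2 (hw j hj)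
        have h6 : t - (θ j : L) = (t - (θ i : L)) + ((θ i : L) - (θ j : L)) := by ring
        rw [h6, Valuation.map_add_eq_of_lt_right _ (by rw [h4]; exact h2), h4]
      have h7 : (w.valuation L y) ^ 2 = w.valuation L (t - (θ i : L)) := by
        rw [hv, Finset.prod_eq_single i (fun j _ hj => h3 j hj)
          (fun h => absurd (Finset.mem_univ i) h)]
      rw [← h7, WithZero.log_pow, nsmul_eq_mul]
      exact ⟨_, rfl⟩
    · rw [h2, WithZero.log_one]
      exact dvd_zero 2

/-! ### (b) norms of ideals -/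

variable {K L : Type} [Field K] [NumberField K] [Field L] [NumberField L] [Algebra K L]

/-- multiplicity -/
def nv (v : Ideal (𝓞 K)) (I : Ideal (𝓞 K)) : ℕ := (normalizedFactors I).count v

theorem nv_mul (v : Ideal (𝓞 K)) {I J : Ideal (𝓞 K)} (hI : I ≠ 0) (hJ : J ≠ 0) :
    nv v (I * J) = nv v I + nv v J := by
  unfold nv
  rw [normalizedFactors_mul hI hJ, Multiset.count_add]

theorem nv_pow (v : Ideal (𝓞 K)) (I : Ideal (𝓞 K)) (n : ℕ) : nv v (I ^ n) = n * nv v I := by
  unfold nv
  rw [normalizedFactors_pow, Multiset.count_nsmul]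

theorem nv_prod {ι : Type} (v : Ideal (𝓞 K)) (s : Finset ι) (f : ι → Ideal (𝓞 K))
    (hf : ∀ i ∈ s, f i ≠ 0) : nv v (∏ i ∈ s, f i) = ∑ i ∈ s, nv v (f i) := by
  induction s using Finset.induction_on with
  | empty =>
    rw [Finset.prod_empty, Finset.sum_empty]
    unfold nv
    rw [normalizedFactors_one]
    simp
  | insert a s ha ih =>
    rw [Finset.prod_insert ha, Finset.sum_insert ha, nv_mul v (hf a (Finset.mem_insert_self a s))
      (Finset.prod_ne_zero_iff.2 fun i hi => hf i (Finset.mem_insert_of_mem hi)),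
      ih fun i hi => hf i (Finset.mem_insert_of_mem hi)]

/-- the norm of a prime which is not above `v` is prime to `v` -/
theorem nv_relNorm (v : HeightOneSpectrum (𝓞 K)) (P : Ideal (𝓞 L)) (hP : P.IsPrime)
    (hP0 : P ≠ ⊥) (h : P.comap (algebraMap (𝓞 K) (𝓞 L)) ≠ v.asIdeal) :
    nv v.asIdeal (Ideal.relNorm (𝓞 K) P) = 0 := by
  have hpr : (P.comap (algebraMap (𝓞 K) (𝓞 L))).IsPrime := Ideal.comap_isPrime _ P
  have hlo : P.LiesOver (P.comap (algebraMap (𝓞 K) (𝓞 L))) := ⟨rfl⟩
  obtain ⟨s, hs⟩ := Ideal.exists_relNorm_eq_pow_of_isPrime (R := 𝓞 K) P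
    (P.comap (algebraMap (𝓞 K) (𝓞 L)))
  by_contra hne
  have h1 : v.asIdeal ∈ normalizedFactors (Ideal.relNorm (𝓞 K) P) :=
    Multiset.count_ne_zero.1 hne
  have h2 : v.asIdeal ∣ Ideal.relNorm (𝓞 K) P := dvd_of_mem_normalizedFactors h1
  rw [hs] at h2
  have h3 : v.asIdeal ∣ P.comap (algebraMap (𝓞 K) (𝓞 L)) := v.prime.dvd_of_dvd_pow h2
  have h4 : P.comap (algebraMap (𝓞 K) (𝓞 L)) ≤ v.asIdeal := Ideal.dvd_iff_le.1 h3
  have h5 : P.comap (algebraMap (𝓞 K) (𝓞 L)) ≠ ⊥ := 
    Ideal.IsIntegral.comap_ne_bot (𝓞 K) hP0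
  have h6 : (P.comap (algebraMap (𝓞 K) (𝓞 L))).IsMaximal := hpr.isMaximal h5
  exact h (h6.eq_of_le v.isPrime.ne_top h4)

/-- parity of the norm of an ideal -/
theorem even_relNorm (v : HeightOneSpectrum (𝓞 K)) (J : Ideal (𝓞 L)) (hJ : J ≠ 0)
    (h : ∀ P ∈ normalizedFactors J, P.comap (algebraMap (𝓞 K) (𝓞 L)) = v.asIdeal →
      2 ∣ (normalizedFactors J).count P) : 2 ∣ nv v.asIdeal (Ideal.relNorm (𝓞 K) J) := by
  have h1 : J = ∏ P ∈ (normalizedFactors J).toFinset, P ^ (normalizedFactors J).count P := by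
    conv_lhs => rw [← Ideal.prod_normalizedFactors_eq_self hJ]
    exact Finset.prod_multiset_count _
  have hpr : ∀ P ∈ (normalizedFactors J).toFinset, Prime P := fun P hP =>
    prime_of_normalized_factor P (Multiset.mem_toFinset.1 hP)
  have h2 : nv v.asIdeal (Ideal.relNorm (𝓞 K) J) = ∑ P ∈ (normalizedFactors J).toFinset,
      (normalizedFactors J).count P * nv v.asIdeal (Ideal.relNorm (𝓞 K) P) := by
    conv_lhs => rw [h1]
    rw [map_prod, nv_prod]
    · refine Finset.sum_congr rfl fun P _ => ?_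
      rw [map_pow, nv_pow]
    · intro P hP
      rw [map_pow]
      refine pow_ne_zero _ fun h3 => ?_
      exact (hpr P hP).ne_zero (Ideal.relNorm_eq_bot_iff.1 h3)
  rw [h2]
  refine Finset.dvd_sum fun P hP => ?_
  by_cases hc : P.comap (algebraMap (𝓞 K) (𝓞 L)) = v.asIdeal
  · exact (h P (Multiset.mem_toFinset.1 hP) hc).mul_right _
  · rw [nv_relNorm v P (Ideal.isPrime_of_prime (hpr P hP)) (hpr P hP).ne_zero hc, mul_zero]
    exact dvd_zero 2

/-- valuations of integers -/
theorem log_val (v : HeightOneSpectrum (𝓞 K)) (x : 𝓞 K) (hx : x ≠ 0) :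
    WithZero.log (v.valuation K (x : K)) = -(nv v.asIdeal (Ideal.span {x}) : ℤ) := by
  rw [v.valuation_of_algebraMap, v.intValuation_if_neg hx, WithZero.log_exp]
  unfold nv
  rw [Ideal.count_associates_factors_eq]
  · exact fun h => hx (Ideal.span_singleton_eq_bot.1 h)
  · exact v.isPrime
  · exact v.ne_bot

end EVN_

open EVN_ UniqueFactorizationMonoid

theorem p_EVN : T_EVN := by
  intro K L _ _ _ _ _ g θ t y hy he i v hv
  set θ' : Fin (2 * g + 1) → 𝓞 L := fun j => algebraMap (𝓞 K) (𝓞 L) (θ j) with hθ'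
  have hco : ∀ j, (θ' j : L) = algebraMap K L (θ j : K) := fun j =>
    (IsScalarTower.algebraMap_apply (𝓞 K) (𝓞 L) L (θ j)).symm.trans
      (IsScalarTower.algebraMap_apply (𝓞 K) K L (θ j))
  have he' : y ^ 2 = ∏ j, (t - (θ' j : L)) := by
    rw [he]
    exact Finset.prod_congr rfl fun j _ => by rw [hco]
  set x : L := t - algebraMap K L (θ i : K) with hx
  have hx' : x = t - (θ' i : L) := by rw [hco]
  have hx0 : x ≠ 0 := by
    have h1 : ∏ j, (t - (θ' j : L)) ≠ 0 := by
      rw [← he']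
      exact pow_ne_zero 2 hy
    rw [hx']
    exact Finset.prod_ne_zero_iff.1 h1 i (Finset.mem_univ i)
  obtain ⟨a, b, hb, hab⟩ := IsFractionRing.div_surjective (A := 𝓞 L) x
  have hb0 : (b : L) ≠ 0 := by
    have := nonZeroDivisors.ne_zero hb
    exact fun h => this (by exact_mod_cast h)
  have hcx : ((a * b : 𝓞 L) : L) = x * (b : L) ^ 2 := by
    rw [← hab]
    have h1 : ((a * b : 𝓞 L) : L) = (a : L) * (b : L) := by simp
    rw [h1]
    field_simp
  have hc0 : a * b ≠ 0 := by
    intro h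
    rw [h] at hcx
    have h1 : x * (b : L) ^ 2 = 0 := by rw [← hcx]; simp
    exact mul_ne_zero hx0 (pow_ne_zero 2 hb0) h1
  -- the norm
  have hN : v.valuation K (Algebra.norm K ((a * b : 𝓞 L) : L)) =
      v.valuation K (Algebra.norm K x) * v.valuation K (Algebra.norm K (b : L)) ^ 2 := by
    rw [hcx, map_mul, map_pow, map_mul, map_pow]
  have hlog : WithZero.log (v.valuation K (Algebra.norm K ((a * b : 𝓞 L) : L))) =
      WithZero.log (v.valuation K (Algebra.norm K x)) +
        2 * WithZero.log (v.valuation K (Algebra.norm K (b : L))) := by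
    rw [hN, WithZero.log_mul, WithZero.log_pow, nsmul_eq_mul]
    · push_cast
      rfl
    · exact (Valuation.ne_zero_iff _).2 (Algebra.norm_ne_zero_iff.2 hx0)
    · exact pow_ne_zero 2 ((Valuation.ne_zero_iff _).2 (Algebra.norm_ne_zero_iff.2 hb0))
  have hnorm : Algebra.norm K ((a * b : 𝓞 L) : L) =
      ((Algebra.intNorm (𝓞 K) (𝓞 L) (a * b) : 𝓞 K) : K) :=
    (Algebra.algebraMap_intNorm (A := 𝓞 K) (K := K) (L := L) (B := 𝓞 L) (a * b)).symm
  have hn0 : Algebra.intNorm (𝓞 K) (𝓞 L) (a * b) ≠ 0 := Algebra.intNorm_ne_zero.2 hc0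
  have heven : 2 ∣ nv v.asIdeal (Ideal.relNorm (𝓞 K) (Ideal.span {a * b})) := by
    refine even_relNorm v _ (fun h => hc0 (Ideal.span_singleton_eq_bot.1 h)) fun P hP hPv => ?_
    have hPp : Prime P := prime_of_normalized_factor P hP
    let w : HeightOneSpectrum (𝓞 L) := ⟨P, Ideal.isPrime_of_prime hPp, hPp.ne_zero⟩
    have h1 := even_val L g w θ' t y hy he' i (fun j hj hmem => by
      have h2 : θ' i - θ' j = algebraMap (𝓞 K) (𝓞 L) (θ i - θ j) := by
        rw [map_sub]
      rw [h2] at hmem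
      have h3 : θ i - θ j ∈ v.asIdeal := by
        rw [← hPv]
        exact hmem
      have h4 : θ i - θ j ∣ ∏ i, ∏ j ∈ Finset.univ.erase i, (θ i - θ j) :=
        (Finset.dvd_prod_of_mem (fun j => θ i - θ j)
          (Finset.mem_erase.2 ⟨hj, Finset.mem_univ j⟩)).trans
          (Finset.dvd_prod_of_mem (fun i => ∏ j ∈ Finset.univ.erase i, (θ i - θ j))
            (Finset.mem_univ i))
      exact hv (Ideal.mem_of_dvd _ h4 h3))
    rw [← hx'] at h1
    have h5 := log_val w (a * b) hc0
    rw [hcx, map_mul, map_pow, WithZero.log_mul, WithZero.log_pow, nsmul_eq_mul] at h5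
    · have h6 : (2 : ℤ) ∣ (nv w.asIdeal (Ideal.span {a * b}) : ℤ) := by
        have h7 : (nv w.asIdeal (Ideal.span {a * b}) : ℤ) =
            -(WithZero.log (w.valuation L x) +
              ((2 : ℕ) : ℤ) * WithZero.log (w.valuation L (b : L))) := by
          rw [h5]
          ring
        rw [h7]
        refine (dvd_add h1 ?_).neg_right
        exact Dvd.intro _ rfl
      exact_mod_cast h6
    · exact (Valuation.ne_zero_iff _).2 hx0
    · exact pow_ne_zero 2 ((Valuation.ne_zero_iff _).2 hb0)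
  have h8 := log_val v _ hn0
  rw [← hnorm, hlog, ← Ideal.relNorm_singleton] at h8
  have h9 : WithZero.log (v.valuation K (Algebra.norm K x)) =
      -((nv v.asIdeal (Ideal.relNorm (𝓞 K) (Ideal.span {a * b})) : ℤ) +
        2 * WithZero.log (v.valuation K (Algebra.norm K (b : L)))) := by
    linarith
  rw [h9]
  refine (dvd_add (by exact_mod_cast heven) (Dvd.intro _ rfl)).neg_right

end Pool.Agent.HMW
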