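import Pool.Agent.HMW.Targets
import Pool.Agent.UMR.EXT

set_option autoImplicit false

open Polynomial Height Height.AdmissibleAbsValues NumberField
open scoped Classical

noncomputable section

namespace Pool.Agent.HMW

namespace EXT_

/-- extension of an archimedean place -/
theorem arch (K E : Type) [Field K] [NumberField K] [Field E] [Algebra K E]
    [Algebra.IsAlgebraic K E] (v : AbsoluteValue K ℝ) (hv : v ∈ archAbsVal (K := K)) :
    ∃ V : AbsoluteValue E ℝ, (∃ φ : E →+* ℂ, ∀ x, V x = ‖φ x‖) ∧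
      ∀ x : K, V (algebraMap K E x) = v x := by
  obtain ⟨φ₀, hφ₀⟩ : IsInfinitePlace v := mem_multisetInfinitePlace.mp hv
  let alg : Algebra K ℂ := φ₀.toAlgebra
  let φ : E →ₐ[K] ℂ := IsAlgClosed.lift
  refine ⟨place (φ : E →+* ℂ), ⟨(φ : E →+* ℂ), fun x => place_apply _ x⟩, fun x => ?_⟩
  rw [place_apply, ← hφ₀, place_apply]
  congr 1
  exact φ.commutes x

/-- no place is archimedean and nonarchimedean -/
theorem not_both (K : Type) [Field K] [NumberField K] (v : AbsoluteValue K ℝ)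
    (hv : v ∈ archAbsVal (K := K)) (hv' : v ∈ nonarchAbsVal (K := K)) : False := by
  obtain ⟨φ₀, hφ₀⟩ : IsInfinitePlace v := mem_multisetInfinitePlace.mp hv
  have h1 : v (1 + 1) ≤ max (v 1) (v 1) := AdmissibleAbsValues.isNonarchimedean v hv' 1 1
  rw [map_one, max_self, ← hφ₀, place_apply] at h1
  have h2 : φ₀ (1 + 1) = 2 := by
    rw [map_add, map_one]
    norm_num
  rw [h2] at h1
  norm_num at h1

end EXT_

theorem p_EXT : T_EXT := by
  intro K E _ _ _ _ _ _
  have hna : ∀ v : AbsoluteValue K ℝ, v ∈ nonarchAbsVal (K := K) →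
      ∃ V : AbsoluteValue E ℝ, (∀ x y, V (x + y) ≤ max (V x) (V y)) ∧
        ∀ z, V (algebraMap K E z) = v z :=
    fun v hv => Pool.Agent.UMR.p_EXT K E v (AdmissibleAbsValues.isNonarchimedean v hv)
  have htr : ∀ v : AbsoluteValue K ℝ, ∃ V : AbsoluteValue E ℝ,
      (v ∈ archAbsVal (K := K) → (∃ φ : E →+* ℂ, ∀ x, V x = ‖φ x‖) ∧
        ∀ x : K, V (algebraMap K E x) = v x) ∧
      (v ∈ nonarchAbsVal (K := K) → (∀ x y, V (x + y) ≤ max (V x) (V y)) ∧
        ∀ z, V (algebraMap K E z) = v z) := by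
    intro v
    by_cases h1 : v ∈ archAbsVal (K := K)
    · obtain ⟨V, hV⟩ := EXT_.arch K E v h1
      exact ⟨V, fun _ => hV, fun h2 => (EXT_.not_both K v h1 h2).elim⟩
    · by_cases h2 : v ∈ nonarchAbsVal (K := K)
      · obtain ⟨V, hV⟩ := hna v h2
        exact ⟨V, fun h => absurd h h1, fun _ => hV⟩
      · exact ⟨AbsoluteValue.trivial, fun h => absurd h h1, fun h => absurd h h2⟩
  choose ext hext using htr
  refine ⟨ext, ⟨?_, ?_, ?_⟩⟩
  · intro v hv x
    rcases hv with h | h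
    · exact ((hext v).1 h).2 x
    · exact ((hext v).2 h).2 x
  · exact fun v hv => ((hext v).2 hv).1
  · exact fun v hv => ((hext v).1 hv).1

end Pool.Agent.HMW
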