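import Pool.Agent.HMW.Targets

set_option autoImplicit false

/-!
# HMW-FIN: finitely many classes of bounded height
-/

open Polynomial Height Height.AdmissibleAbsValues NumberField
open scoped Classical

noncomputable section

namespace Pool.Agent.HMW

theorem p_FIN : T_POS → T_NOR → T_FIN := by
  intro hP hN K E _ _ _ _ _ _ _ g θ f ext hcx G _ cls B hB x
  obtain ⟨C, W, hW, hS⟩ := hP K E g θ f ext hcx G cls B hB
  have h1 := hN K E g θ f ext hcx g (x + C)
  refine ((h1.prod hW).image fun p : Multiset (E × E) × G => cls p.1 + p.2).subset ?_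
  intro c hc
  obtain ⟨S, h2, h3, h4, h5⟩ := hS c
  have hc' : B c c ≤ x := hc
  refine ⟨(S, c - cls S), ⟨⟨h2, h3, by linarith⟩, h4⟩, ?_⟩
  show cls S + (c - cls S) = c
  abel

end Pool.Agent.HMW
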