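import Pool.Agent.HMW.Targets

set_option autoImplicit false
set_option linter.unusedSectionVars false

/-!
# FSP: finite supports for the local symbols
-/

open Polynomial Height Height.AdmissibleAbsValues NumberField
open scoped Classical

noncomputable section

namespace Pool.Agent.HMW

namespace FSP_

variable {K E : Type} [Field K] [NumberField K] [Field E]
  {ext : AbsoluteValue K ℝ → AbsoluteValue E ℝ}

theorem le_one_fin (h : ∀ x : E, x ≠ 0 → {v : nonarchAbsVal (K := K) | ext v x ≠ 1}.Finite)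
    (x : E) : {v : nonarchAbsVal (K := K) | ¬ ext v x ≤ 1}.Finite := by
  by_cases hx : x = 0
  · refine Set.finite_empty.subset ?_
    intro v hv
    apply hv
    change ext v x ≤ 1
    rw [hx, (ext v).map_zero]
    exact zero_le_one
  · refine (h x hx).subset ?_
    intro v hv hv'
    exact hv (le_of_eq hv')

theorem nm_one {v : AbsoluteValue E ℝ} {P : E × E} (h : v P.1 ≤ 1) : nm v P = 1 := by
  unfold nm
  exact max_eq_left h

theorem fs_le (h : ∀ x : E, x ≠ 0 → {v : nonarchAbsVal (K := K) | ext v x ≠ 1}.Finite)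
    (g : ℕ) {P Q : E × E} (hPQ : P ≠ Q) : FS K (fun v => le (ext v) g P Q) := by
  have h1 := le_one_fin h P.1
  have h2 := le_one_fin h Q.1
  have h3 := le_one_fin h (P.1 - Q.1)
  have h4 := le_one_fin h (P.2 - Q.2)
  have h5 := le_one_fin h (P.2 * Q.1 ^ (g + 1) - Q.2 * P.1 ^ (g + 1))
  have h6 : {v : nonarchAbsVal (K := K) | P.1 - Q.1 ≠ 0 ∧ ext v (P.1 - Q.1) ≠ 1}.Finite := by
    by_cases h0 : P.1 - Q.1 = 0
    · exact Set.finite_empty.subset fun v hv => hv.1 h0
    · exact (h _ h0).subset fun v hv => hv.2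
  have h7 : {v : nonarchAbsVal (K := K) | P.2 - Q.2 ≠ 0 ∧ ext v (P.2 - Q.2) ≠ 1}.Finite := by
    by_cases h0 : P.2 - Q.2 = 0
    · exact Set.finite_empty.subset fun v hv => hv.1 h0
    · exact (h _ h0).subset fun v hv => hv.2
  refine ((((((h1.union h2).union h3).union h4).union h5).union h6).union h7).subset ?_
  intro v hv
  by_contra hcon
  simp only [Set.mem_union, Set.mem_ofPred_eq, not_or, not_not, not_and] at hcon
  obtain ⟨⟨⟨⟨⟨⟨a1, a2⟩, a3⟩, a4⟩, a5⟩, a6⟩, a7⟩ := hcon
  apply hv
  have hd : dd (ext v) g P Q = 1 := by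
    unfold dd
    rw [nm_one a1, nm_one a2]
    simp only [mul_one, one_pow, div_one]
    refine le_antisymm (max_le a3 (max_le a4 a5)) ?_
    by_cases h0 : P.1 - Q.1 = 0
    · have h8 : P.2 - Q.2 ≠ 0 := fun h8 => hPQ (Prod.ext (sub_eq_zero.1 h0) (sub_eq_zero.1 h8))
      rw [a7 h8]
      exact le_max_of_le_right (le_max_left _ _)
    · rw [a6 h0]
      exact le_max_left _ _
  change le (ext v) g P Q = 0
  unfold le
  rw [hd, nm_one a1, nm_one a2]
  simp

end FSP_

theorem p_FSP : T_FSX → T_FSP := by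
  intro hFSX K E _ _ _ _ _ _ ext hext
  have h := hFSX K E ext hext
  refine ⟨fun P => ?_, fun g P Q hPQ => FSP_.fs_le h g hPQ, fun g S T hST => ?_⟩
  · refine (FSP_.le_one_fin h P.1).subset ?_
    intro v hv hv'
    apply hv
    change Real.log (nm (ext v) P) = 0
    rw [FSP_.nm_one hv', Real.log_one]
  · refine FS_multiset_sum S (fun P v => (T.map fun Q => le (ext v) g P Q).sum) ?_
    intro P hP
    refine FS_multiset_sum T (fun Q v => le (ext v) g P Q) ?_
    intro Q hQ
    refine FSP_.fs_le h g ?_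
    rintro rfl
    exact hST P hP hQ

end Pool.Agent.HMW
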