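import Pool.Agent.HMW.Targets

set_option autoImplicit false

/-!
# HMW-FSX: finiteness of supports
-/

open Polynomial Height Height.AdmissibleAbsValues NumberField
open scoped Classical

noncomputable section

namespace Pool.Agent.HMW

namespace FSX_

variable {E : Type} [Field E]

lemma sum_lt {v : AbsoluteValue E ℝ} (hv : ∀ x y, v (x + y) ≤ max (v x) (v y)) {c : ℝ}
    (hc : 0 < c) {ι : Type} (s : Finset ι) (f : ι → E) (h : ∀ i ∈ s, v (f i) < c) :
    v (∑ i ∈ s, f i) < c := by
  induction s using Finset.induction_on with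
  | empty => simpa using hc
  | insert a s ha ih =>
    rw [Finset.sum_insert ha]
    refine lt_of_le_of_lt (hv _ _) (max_lt ?_ ?_)
    · exact h a (Finset.mem_insert_self a s)
    · exact ih fun i hi => h i (Finset.mem_insert_of_mem hi)

lemma eq_one {v : AbsoluteValue E ℝ} (hv : ∀ x y, v (x + y) ≤ max (v x) (v y)) {x : E} (n : ℕ)
    (a : ℕ → E) (h0 : ∑ i ∈ Finset.range (n + 1), a i * x ^ i = 0) (ha : ∀ i, v (a i) ≤ 1)
    (hb : v (a 0) = 1) (hn : v (a n) = 1) : v x = 1 := by
  rcases lt_trichotomy (v x) 1 with h | h | h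
  · exfalso
    rw [Finset.sum_range_succ', pow_zero, mul_one] at h0
    have h1 : v (∑ i ∈ Finset.range n, a (i + 1) * x ^ (i + 1)) < 1 := by
      refine sum_lt hv one_pos _ _ fun i _ => ?_
      rw [map_mul, map_pow]
      have h2 : v x ^ (i + 1) < 1 := pow_lt_one₀ (v.nonneg x) h (by omega)
      have h3 : 0 ≤ v x ^ (i + 1) := pow_nonneg (v.nonneg x) _
      nlinarith [ha (i + 1), v.nonneg (a (i + 1))]
    have h2 : a 0 = -∑ i ∈ Finset.range n, a (i + 1) * x ^ (i + 1) := by
      rw [eq_neg_iff_add_eq_zero, add_comm]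
      exact h0
    rw [h2, v.map_neg] at hb
    linarith
  · exact h
  · exfalso
    rw [Finset.sum_range_succ] at h0
    have h1 : v (∑ i ∈ Finset.range n, a i * x ^ i) < v x ^ n := by
      refine sum_lt hv (by positivity) _ _ fun i hi => ?_
      rw [map_mul, map_pow]
      have h2 : v x ^ i < v x ^ n := pow_lt_pow_right₀ h (Finset.mem_range.1 hi)
      have h3 : 0 ≤ v x ^ i := pow_nonneg (v.nonneg x) _
      nlinarith [ha i, v.nonneg (a i)]
    have h2 : ∑ i ∈ Finset.range n, a i * x ^ i = -(a n * x ^ n) :=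
      eq_neg_iff_add_eq_zero.2 h0
    rw [h2, v.map_neg, map_mul, map_pow, hn, one_mul] at h1
    exact lt_irrefl _ h1

end FSX_

open FSX_

theorem p_FSX : T_FSX := by
  intro K E _ _ _ _ _ _ ext hext x hx
  have hint : IsIntegral K x := Algebra.IsIntegral.isIntegral x
  set p : K[X] := minpoly K x with hp
  have hfin : (⋃ i ∈ p.support, {v : nonarchAbsVal (K := K) | v.val (p.coeff i) ≠ 1}).Finite := by
    refine p.support.finite_toSet.biUnion fun i hi => ?_
    exact hasFiniteMulSupport (mem_support_iff.1 hi)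
  refine hfin.subset fun v hv => ?_
  by_contra hcon
  apply hv
  have hcoef : ∀ i ∈ p.support, v.val (p.coeff i) = 1 := by
    intro i hi
    by_contra h
    exact hcon (Set.mem_biUnion hi h)
  have hPl : Pl K v.val := Or.inr v.2
  have hE : ∀ i ∈ p.support, ext v.val (algebraMap K E (p.coeff i)) = 1 := fun i hi => by
    rw [hext.ex _ hPl, hcoef i hi]
  refine eq_one (hext.na v.val v.2) p.natDegree (fun i => algebraMap K E (p.coeff i)) ?_ ?_ ?_ ?_
  · have h1 : aeval x p = 0 := minpoly.aeval K x
    rw [aeval_eq_sum_range] at h1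
    simpa [Algebra.smul_def] using h1
  · intro i
    by_cases hi : i ∈ p.support
    · exact (hE i hi).le
    · rw [notMem_support_iff.1 hi]
      simp
  · exact hE 0 (mem_support_iff.2 (minpoly.coeff_zero_ne_zero hint hx))
  · refine hE _ (natDegree_mem_support_of_nonzero (minpoly.ne_zero hint))

end Pool.Agent.HMW
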