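import Pool.Agent.HMW.Targets

set_option autoImplicit false
set_option linter.unusedVariables false

/-!
# HMW: Mumford's gap principle
-/

open Polynomial Height Height.AdmissibleAbsValues NumberField IsDedekindDomain
open scoped Classical WithZero

noncomputable section

namespace Pool.Agent.HMW

namespace GAP_

/-- the elementary inequality behind the gap principle -/
theorem ineq {C C₀ T g h h' b b' c : ℝ} (hC : 0 ≤ C) (hg : 2 ≤ g)
    (hT : 10 * (C + |C₀| + 1) ≤ T) (h1 : T ≤ h) (h2 : h ≤ 3 / 2 * T + C₀) (h1' : T ≤ h')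
    (h2' : h' ≤ 3 / 2 * T + C₀) (hb : g * h - C ≤ b) (hb' : g * h' - C ≤ b')
    (hc : c ≤ (h + h') / 2 + C) : 0 < b ∧ c ≤ 0.8 * √(b * b') := by
  have hC₀ := le_abs_self C₀
  have hC₀' := abs_nonneg C₀
  have hT0 : 0 ≤ T := by linarith
  have hh : 0 ≤ h := hT0.trans h1
  have hh' : 0 ≤ h' := hT0.trans h1'
  set u : ℝ := 2 * h - C with hu
  set u' : ℝ := 2 * h' - C with hu'
  set U : ℝ := 2 * T - C with hU
  have hU0 : 0 < U := by rw [hU]; linarith
  have hUu : U ≤ u := by rw [hU, hu]; linarith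
  have hUu' : U ≤ u' := by rw [hU, hu']; linarith
  have hu0 : 0 < u := hU0.trans_le hUu
  have hu0' : 0 < u' := hU0.trans_le hUu'
  have h3 : u ≤ 1.6 * U := by
    rw [hu, hU]
    norm_num
    linarith
  have h3' : u' ≤ 1.6 * U := by
    rw [hu', hU]
    norm_num
    linarith
  have h4 : 0 ≤ 1.6 * u' - u := by linarith
  have h4' : 0 ≤ 1.6 * u - u' := by linarith
  have h5 : (u + u') ^ 2 ≤ 4.225 * (u * u') := by
    nlinarith [mul_nonneg h4 h4']
  have hub : u ≤ b := by
    have : 2 * h ≤ g * h := mul_le_mul_of_nonneg_right hg hh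
    linarith
  have hub' : u' ≤ b' := by
    have : 2 * h' ≤ g * h' := mul_le_mul_of_nonneg_right hg hh'
    linarith
  refine ⟨hu0.trans_le hub, ?_⟩
  have h6 : U ≤ √(u * u') := by
    rw [Real.le_sqrt' hU0, sq]
    exact mul_le_mul hUu hUu' hU0.le hu0.le
  have h7 : (u + u') / 2.06 ≤ √(u * u') := by
    rw [Real.le_sqrt' (by positivity), div_pow, div_le_iff₀ (by norm_num)]
    have : 0 ≤ u * u' := by positivity
    norm_num
    norm_num at h5
    linarith
  have h8 : √(u * u') ≤ √(b * b') :=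
    Real.sqrt_le_sqrt (mul_le_mul hub hub' hu0'.le (hu0.le.trans hub))
  have h9 : c ≤ (u + u') / 4 + 3 / 2 * C := by
    rw [hu, hu']
    linarith
  have h10 : 3 / 2 * C ≤ 0.2 * U := by
    rw [hU]
    norm_num
    linarith
  have h11 : u + u' ≤ 2.06 * √(u * u') := by
    rw [div_le_iff₀ (by norm_num)] at h7
    linarith
  norm_num at h10 h11 ⊢
  linarith

/-- the image of a point with coordinates in `K` -/
def pt {K E : Type} [Field K] [Field E] [Algebra K E] (P : K × K) : E × E :=
  (algebraMap K E P.1, algebraMap K E P.2)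

theorem pt_inj {K E : Type} [Field K] [Field E] [Algebra K E] {P Q : K × K}
    (h : (pt P : E × E) = pt Q) : P = Q := by
  have h1 : algebraMap K E P.1 = algebraMap K E Q.1 := congrArg Prod.fst h
  have h2 : algebraMap K E P.2 = algebraMap K E Q.2 := congrArg Prod.snd h
  exact Prod.ext ((algebraMap K E).injective h1) ((algebraMap K E).injective h2)

/-- finiteness of the set of points of bounded height -/
theorem fin_pts (K : Type) [Field K] [NumberField K] (F : K → K) (x : ℝ) :
    {P : K × K | P.2 ^ 2 = F P.1 ∧ logHeight₁ P.1 ≤ x}.Finite := by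
  have h1 : {t : K | logHeight₁ t ≤ x}.Finite := NumberField.finite_setOfPred_logHeight₁_le K x
  have h2 : ∀ a : K, {y : K | y ^ 2 = a}.Finite := by
    intro a
    by_cases h : ∃ y₀ : K, y₀ ^ 2 = a
    · obtain ⟨y₀, rfl⟩ := h
      apply (Set.toFinite {y₀, -y₀}).subset
      intro y hy
      rcases sq_eq_sq_iff_eq_or_eq_neg.1 hy with h3 | h3
      · left; exact h3
      · right; exact h3
    · apply Set.finite_empty.subset
      intro y hy
      exact (h ⟨y, hy⟩).elim
  have h3 := h1.biUnion (t := fun t => ({t} : Set K) ×ˢ {y : K | y ^ 2 = F t})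
    (fun t _ => (Set.finite_singleton t).prod (h2 (F t)))
  apply h3.subset
  intro P hP
  exact Set.mem_biUnion (x := P.1) hP.2 ⟨rfl, hP.1⟩

end GAP_

open GAP_ in
/-- Mumford's gap principle -/
theorem p_GAP : T_EXT → T_CXF → T_CLS → T_FRM → T_FIN → T_WMW → T_DESC → T_SPH → T_PRU →
    T_SELF → T_HK → T_GAP := by
  intro hEXT hCXF hCLS hFRM hFIN hWMW hDESC hSPH hPRU hSELF hHK K _ _ g hg θ hθ C₀
  obtain ⟨ext, hext⟩ := hEXT K (AlgebraicClosure K)
  set f : (AlgebraicClosure K)[X] := ∏ i, (X - C (algebraMap K (AlgebraicClosure K) (θ i : K)))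
    with hf
  have hCx : Cx K (AlgebraicClosure K) g θ f ext := ⟨by omega, hθ, rfl, hext⟩
  obtain ⟨hCv, hKP, -⟩ := hCXF K (AlgebraicClosure K) g θ f ext hCx
  obtain ⟨G, iG, cls, hcls⟩ := hCLS K (AlgebraicClosure K) g f hCv hKP
  obtain ⟨B, hB⟩ := hFRM K (AlgebraicClosure K) g θ f ext hCx G cls hcls
  have hfin := hFIN K (AlgebraicClosure K) g θ f ext hCx G cls B hB
  have hA := hWMW K (AlgebraicClosure K) g θ f ext hCx G cls hcls
  obtain ⟨hB0, hFG⟩ := hDESC G B hB.add hB.symm hfin hA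
  obtain ⟨N₀, hN₀⟩ := hSPH G B hB.add hB.symm hB0 hFG 0.8 (by norm_num)
  obtain ⟨C₁, hC₁⟩ := hSELF K (AlgebraicClosure K) g θ f ext hCx 1
  obtain ⟨C₂, hC₂⟩ := hPRU K (AlgebraicClosure K) g θ f ext hCx
  obtain ⟨C₃, hC₃⟩ := hB.near 1
  obtain ⟨hHt, hHp⟩ := hHK K (AlgebraicClosure K) ext hext
  -- rational points
  have hOn : ∀ P : K × K, P.2 ^ 2 = ∏ i, (P.1 - (θ i : K)) →
      On f (pt P : AlgebraicClosure K × AlgebraicClosure K) := by
    intro P hP
    show (algebraMap K (AlgebraicClosure K) P.2) ^ 2 = f.eval (algebraMap K _ P.1)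
    rw [← map_pow, hP, map_prod, hf, eval_prod]
    exact Finset.prod_congr rfl fun i _ => by simp
  have hMK : ∀ P : K × K, P.2 ^ 2 = ∏ i, (P.1 - (θ i : K)) →
      MK K f {(pt P : AlgebraicClosure K × AlgebraicClosure K)} := by
    intro P hP
    refine ⟨fun Q hQ => ?_, fun σ => ?_⟩
    · rw [Multiset.mem_singleton] at hQ
      rw [hQ]
      exact hOn P hP
    · rw [Multiset.map_singleton]
      congr 1
      show (σ _, σ _) = _
      simp only [pt, AlgEquiv.commutes]
  -- negatives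
  have hneg : ∀ a b : G, B a (-b) = -B a b := by
    intro a b
    have h1 := hB.add b (-b) a
    have h0 := hB.add 0 0 a
    rw [add_neg_cancel] at h1
    rw [add_zero] at h0
    rw [hB.symm a (-b), hB.symm a b]
    linarith
  set Cm : ℝ := |C₁| + |C₂| + |C₃| with hCm
  have hCm0 : 0 ≤ Cm := by positivity
  have hlow : ∀ P : K × K, P.2 ^ 2 = ∏ i, (P.1 - (θ i : K)) → P.2 ≠ 0 →
      (g : ℝ) * logHeight₁ P.1 - Cm ≤ B (cls {pt P}) (cls {pt P}) := by
    intro P hP hP0
    have hy : algebraMap K (AlgebraicClosure K) P.2 ≠ 0 := by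
      intro h
      exact hP0 ((algebraMap K (AlgebraicClosure K)).injective (by rw [h, map_zero]))
    have hio : (pt P : AlgebraicClosure K × AlgebraicClosure K) ≠ io (pt P) := by
      intro h
      have h1 : algebraMap K (AlgebraicClosure K) P.2 = -algebraMap K (AlgebraicClosure K) P.2 :=
        congrArg Prod.snd h
      exact hy (self_eq_neg.1 h1)
    have h1 := hC₁ {pt P} (hMK P hP) (by simp) (fun Q hQ => by
      rw [Multiset.mem_singleton] at hQ
      rw [hQ, Multiset.mem_singleton]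
      exact hio.symm)
    have h2 := (hC₃ {pt P} (({pt P} : Multiset _).map io) (hMK P hP) (hMK P hP).io (by simp)
      (by simp)).2 (fun Q hQ => by
        rw [Multiset.mem_singleton] at hQ
        rw [hQ, Multiset.map_singleton, Multiset.mem_singleton]
        exact hio)
    rw [hcls.map_io hCv (hMK P hP), hneg] at h2
    have h3 : HH ext {(pt P : AlgebraicClosure K × AlgebraicClosure K)} = logHeight₁ P.1 :=
      hHt P.1 _
    rw [h3, Multiset.card_singleton] at h1
    have e1 := le_abs_self C₁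
    have e3 := le_abs_self C₃
    have e2 := abs_nonneg C₂
    push_cast at h1
    rw [hCm]
    linarith
  have hupp : ∀ P Q : K × K, P.2 ^ 2 = ∏ i, (P.1 - (θ i : K)) →
      Q.2 ^ 2 = ∏ i, (Q.1 - (θ i : K)) → P ≠ Q →
      B (cls {pt P}) (cls {pt Q}) ≤ (logHeight₁ P.1 + logHeight₁ Q.1) / 2 + Cm := by
    intro P Q hP hQ hPQ
    have hne : (pt P : AlgebraicClosure K × AlgebraicClosure K) ≠ pt Q := fun h => hPQ (pt_inj h)
    have h1 := hC₂ (pt P) (pt Q) (hOn P hP) (hOn Q hQ) hne
    have h2 := (hC₃ {pt P} {pt Q} (hMK P hP) (hMK Q hQ) (by simp) (by simp)).2 (fun R hR => by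
      rw [Multiset.mem_singleton] at hR ⊢
      rw [hR]
      exact hne)
    have h3 : HH ext {(pt P : AlgebraicClosure K × AlgebraicClosure K)} = logHeight₁ P.1 :=
      hHt P.1 _
    have h4 : HH ext {(pt Q : AlgebraicClosure K × AlgebraicClosure K)} = logHeight₁ Q.1 :=
      hHt Q.1 _
    rw [h3, h4] at h1
    have e2 := le_abs_self C₂
    have e3 := le_abs_self C₃
    have e1 := abs_nonneg C₁
    rw [hCm]
    linarith
  -- small heights
  set T₁ : ℝ := 10 * (Cm + |C₀| + 1) with hT₁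
  have hZ := fin_pts K (fun t => ∏ i, (t - (θ i : K))) (3 / 2 * T₁ + C₀)
  refine ⟨N₀ + (2 * g + 1) + hZ.toFinset.card, fun T s hs => ?_⟩
  by_cases hT : T < T₁
  · have hsub : s ⊆ hZ.toFinset := by
      intro P hP
      rw [Set.Finite.mem_toFinset]
      obtain ⟨h1, -, h3⟩ := hs P hP
      exact ⟨h1, h3.trans (by linarith)⟩
    exact (Finset.card_le_card hsub).trans (by omega)
  · rw [not_lt] at hT
    have hg2 : (2 : ℝ) ≤ (g : ℝ) := by exact_mod_cast hg
    set s₁ := s.filter fun P => P.2 ≠ 0 with hs₁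
    set s₂ := s.filter fun P => ¬ P.2 ≠ 0 with hs₂
    have hcard : s₁.card + s₂.card = s.card := Finset.card_filter_add_card_filter_not _
    have hpair : ∀ P ∈ s₁, ∀ Q ∈ s₁, P ≠ Q → 0 < B (cls {pt P}) (cls {pt P}) ∧
        B (cls {pt P}) (cls {pt Q}) ≤
          0.8 * √(B (cls {pt P}) (cls {pt P}) * B (cls {pt Q}) (cls {pt Q})) := by
      intro P hP Q hQ hPQ
      rw [hs₁, Finset.mem_filter] at hP hQ
      obtain ⟨p1, p2, p3⟩ := hs P hP.1
      obtain ⟨q1, q2, q3⟩ := hs Q hQ.1
      exact ineq hCm0 hg2 hT p2 p3 q2 q3 (hlow P p1 hP.2) (hlow Q q1 hQ.2)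
        (hupp P Q p1 q1 hPQ)
    have hpos : ∀ P ∈ s₁, 0 < B (cls {pt P}) (cls {pt P}) := by
      intro P hP
      rw [hs₁, Finset.mem_filter] at hP
      obtain ⟨p1, p2, p3⟩ := hs P hP.1
      exact (ineq (c := 0) hCm0 hg2 hT p2 p3 p2 p3 (hlow P p1 hP.2) (hlow P p1 hP.2)
        (by
          have := zero_le_logHeight₁ P.1
          linarith)).1
    have hinj : Set.InjOn (fun P : K × K => cls {(pt P : AlgebraicClosure K × _)}) s₁ := by
      intro P hP Q hQ hPQ
      by_contra hne
      obtain ⟨h1, h2⟩ := hpair P hP Q hQ hne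
      have hPQ' : cls {(pt P : AlgebraicClosure K × AlgebraicClosure K)} = cls {pt Q} := hPQ
      rw [← hPQ', Real.sqrt_mul_self h1.le] at h2
      norm_num at h2
      linarith
    have h1 : (s₁.image fun P : K × K => cls {(pt P : AlgebraicClosure K × _)}).card ≤ N₀ := by
      apply hN₀
      · intro c hc
        obtain ⟨P, hP, rfl⟩ := Finset.mem_image.1 hc
        exact hpos P hP
      · intro c hc c' hc' hcc
        obtain ⟨P, hP, rfl⟩ := Finset.mem_image.1 hc
        obtain ⟨Q, hQ, rfl⟩ := Finset.mem_image.1 hc'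
        exact (hpair P hP Q hQ (fun h => hcc (by rw [h]))).2
    rw [Finset.card_image_of_injOn hinj] at h1
    have h2 : s₂.card ≤ 2 * g + 1 := by
      have hsub : s₂ ⊆ Finset.univ.image fun i : Fin (2 * g + 1) => ((θ i : K), (0 : K)) := by
        intro P hP
        rw [hs₂, Finset.mem_filter, not_not] at hP
        obtain ⟨p1, -, -⟩ := hs P hP.1
        rw [hP.2, zero_pow two_ne_zero] at p1
        obtain ⟨i, -, hi⟩ := Finset.prod_eq_zero_iff.1 p1.symm
        rw [Finset.mem_image]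
        exact ⟨i, Finset.mem_univ i, Prod.ext (sub_eq_zero.1 hi).symm hP.2.symm⟩
      refine (Finset.card_le_card hsub).trans (Finset.card_image_le.trans ?_)
      rw [Finset.card_univ, Fintype.card_fin]
    omega

end Pool.Agent.HMW
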