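import Pool.Agent.HMW.Targets

set_option autoImplicit false

/-!
# GD: Galois descent for subspaces of `E^ι`
-/

open Polynomial
open scoped Classical

noncomputable section

namespace Pool.Agent.HMW

namespace GD_

variable {E ι : Type} [Field E] [Fintype ι]

/-- the support -/
def sp (x : ι → E) : Finset ι := Finset.univ.filter fun i => x i ≠ 0

lemma mem_sp {x : ι → E} {i : ι} : i ∈ sp x ↔ x i ≠ 0 := by simp [sp]

lemma card_lt {x z : ι → E} {i : ι} (h : ∀ j, x j = 0 → z j = 0) (hi : x i ≠ 0) (hz : z i = 0) :
    (sp z).card < (sp x).card := by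
  refine Finset.card_lt_card ⟨fun j hj => ?_, fun hs => ?_⟩
  · rw [mem_sp] at hj ⊢
    exact fun h0 => hj (h j h0)
  · exact mem_sp.1 (hs (mem_sp.2 hi)) hz

end GD_

open GD_

theorem p_GD : T_GD := by
  intro K E _ _ _ _ _ _ _ ι _ V hV
  set W : Submodule E (ι → E) :=
    Submodule.span E {y | y ∈ V ∧ ∀ i, y i ∈ Set.range (algebraMap K E)} with hW
  have key : ∀ n : ℕ, ∀ x ∈ V, (sp x).card ≤ n → x ∈ W := by
    intro n
    induction n with
    | zero =>
      intro x _ hx
      have h0 : x = 0 := by
        funext i
        by_contra hi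
        have : i ∈ sp x := mem_sp.2 hi
        rw [Nat.le_zero, Finset.card_eq_zero] at hx
        rw [hx] at this
        exact absurd this (Finset.notMem_empty i)
      rw [h0]
      exact W.zero_mem
    | succ n ih =>
      intro x hx hcard
      by_cases hx0 : x = 0
      · rw [hx0]
        exact W.zero_mem
      -- a vector with minimal support
      have hex : ∃ m : ℕ, ∃ y ∈ V, y ≠ 0 ∧ (∀ j, x j = 0 → y j = 0) ∧ (sp y).card = m :=
        ⟨_, x, hx, hx0, fun _ h => h, rfl⟩
      obtain ⟨y, hy, hy0, hyx, hym⟩ := Nat.find_spec hex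
      have hmin : ∀ z ∈ V, (∀ j, x j = 0 → z j = 0) → (sp z).card < (sp y).card → z = 0 := by
        intro z hz hzx hlt
        by_contra hz0
        rw [hym] at hlt
        exact Nat.find_min hex hlt ⟨z, hz, hz0, hzx, rfl⟩
      obtain ⟨i, hi⟩ : ∃ i, y i ≠ 0 := by
        by_contra hcon
        push Not at hcon
        exact hy0 (funext hcon)
      set u : ι → E := (y i)⁻¹ • y with hu
      have huV : u ∈ V := V.smul_mem _ hy
      have hui : u i = 1 := by
        rw [hu, Pi.smul_apply, smul_eq_mul, inv_mul_cancel₀ hi]
      have huy : ∀ j, y j = 0 → u j = 0 := by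
        intro j hj
        rw [hu, Pi.smul_apply, hj, smul_zero]
      have hfix : ∀ (σ : E ≃ₐ[K] E) (j : ι), σ (u j) = u j := by
        intro σ j
        have hz : (fun i => σ (u i)) - u ∈ V := V.sub_mem (hV σ u huV) huV
        have h0 : (fun i => σ (u i)) - u = 0 := by
          refine hmin _ hz ?_ ?_
          · intro j hj
            rw [Pi.sub_apply, huy j (hyx j hj), map_zero, sub_zero]
          · refine card_lt (i := i) ?_ hi ?_
            · intro j hj
              rw [Pi.sub_apply, huy j hj, map_zero, sub_zero]
            · rw [Pi.sub_apply, hui, map_one, sub_self]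
        have := congrFun h0 j
        rw [Pi.sub_apply, Pi.zero_apply, sub_eq_zero] at this
        exact this
      have huW : u ∈ W := Submodule.subset_span ⟨huV, fun j => mem_range_of_fixed (K := K) (u j)
        fun σ => hfix σ j⟩
      have hxi : x i ≠ 0 := fun h => hi (hyx i h)
      have h1 : x - x i • u ∈ W := by
        refine ih _ (V.sub_mem hx (V.smul_mem _ huV)) ?_
        have h2 : (sp (x - x i • u)).card < (sp x).card := by
          refine card_lt (i := i) ?_ hxi ?_
          · intro j hj
            rw [Pi.sub_apply, Pi.smul_apply, hj, huy j (hyx j hj), smul_zero, sub_zero]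
          · rw [Pi.sub_apply, Pi.smul_apply, hui, smul_eq_mul, mul_one, sub_self]
        omega
      have h3 := W.add_mem h1 (W.smul_mem (x i) huW)
      rwa [sub_add_cancel] at h3
  exact fun x hx => key _ x hx le_rfl

end Pool.Agent.HMW
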