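import Pool.Agent.HMW.Targets

set_option autoImplicit false

/-!
# GEN: a function vanishing exactly to the prescribed order at one more point
-/

open Polynomial

noncomputable section

namespace Pool.Agent.HMW

namespace GEN_

variable {E : Type} [Field E] [CharZero E] {g : ℕ} {f : E[X]}

lemma one_point (hf : Cv g f) {P Q : E × E} (hP : On f P) (hQ : On f Q) :
    ∃ G : RR f, G ∈ mP f P ∧ G ∉ mP f Q * mP f P ∧ (nr G).natDegree ≤ 2 * g + 1 := by
  have hP' : OnM f ({P} : Multiset (E × E)) := by
    intro R hR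
    rw [Multiset.mem_singleton] at hR
    rwa [hR]
  by_contra hcon
  push Not at hcon
  have hg := hf.pos
  have h1 : (⟨X - C P.1, 0⟩ : RR f) ∈ mP f Q * mP f P := by
    by_contra h
    have h2 := hcon _ (Ideal.subset_span (by simp)) h
    rw [nr_C, natDegree_pow, natDegree_X_sub_C] at h2
    omega
  have h2 : (⟨-C P.2, 1⟩ : RR f) ∈ mP f Q * mP f P := by
    by_contra h
    have h2 := hcon _ (Ideal.subset_span (by simp)) h
    have h3 : nr (⟨-C P.2, 1⟩ : RR f) = C (P.2 ^ 2) - f := by simp [nr]
    rw [h3, natDegree_sub_eq_right_of_natDegree_lt (by rw [natDegree_C, hf.deg]; omega),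
      hf.deg] at h2
    omega
  have h3 : mP f P ≤ mP f Q * mP f P := by
    conv_lhs => unfold mP
    rw [Ideal.span_le]
    intro F hF
    rcases hF with rfl | rfl
    · exact h1
    · exact h2
  have h4 : (⊤ : Ideal (RR f)) * IS f {P} = mP f Q * IS f {P} := by
    rw [← mP_eq_IS, Ideal.top_mul]
    exact le_antisymm h3 Ideal.mul_le_right
  exact (mP_isMaximal hQ).ne_top (IS_cancel hf hP' h4).symm

end GEN_

open GEN_ in
theorem p_GEN : T_GEN := by
  intro E _ _ g f hf S Q hS hQ
  have := isDomain hf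
  have hprime := (mP_isMaximal hQ).isPrime
  induction S using Multiset.induction_on with
  | empty =>
    refine ⟨1, by simp, ?_, ?_⟩
    · rw [IS_cons, IS_zero, Ideal.mul_top, ← Ideal.ne_top_iff_one]
      exact (mP_isMaximal hQ).ne_top
    · refine ⟨?_, Or.inl ?_⟩
      · rw [QuadraticAlgebra.re_one]
        simp
      · exact QuadraticAlgebra.im_one
  | cons P S ih =>
    have hP : On f P := hS P (Multiset.mem_cons_self P S)
    have hS' : OnM f S := hS.of_le (Multiset.le_cons_self S P)
    obtain ⟨F', hF', hF'Q, hF'W⟩ := ih hS'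
    obtain ⟨G, hG, hGQ, hGn⟩ := one_point hf hP hQ
    have hP' : OnM f ({P} : Multiset (E × E)) := by
      intro R hR
      rw [Multiset.mem_singleton] at hR
      rwa [hR]
    have hG0 : G ≠ 0 := by
      rintro rfl
      exact hGQ (Ideal.zero_mem _)
    have hF'0 : F' ≠ 0 := by
      rintro rfl
      exact hF'Q (Ideal.zero_mem _)
    refine ⟨G * F', ?_, ?_, ?_⟩
    · rw [IS_cons]
      exact Ideal.mul_mem_mul hG hF'
    · intro hmem
      obtain ⟨J', hJ'⟩ := IS_dvd hf hS' _ ((Ideal.span_singleton_le_iff_mem _).2 hF')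
      rw [mP_eq_IS] at hG
      obtain ⟨J, hJ⟩ := IS_dvd hf hP' _ ((Ideal.span_singleton_le_iff_mem _).2 hG)
      rw [← mP_eq_IS] at hJ
      have h1 : (J * J') * IS f (P ::ₘ S) ≤ mP f Q * IS f (P ::ₘ S) := by
        have h2 : (J * J') * IS f (P ::ₘ S) = Ideal.span {G * F'} := by
          rw [← Ideal.span_singleton_mul_span_singleton, hJ, hJ', IS_cons]
          ring
        rw [h2, Ideal.span_singleton_le_iff_mem, ← IS_cons]
        exact hmem
      have h3 : (J * J' ⊔ mP f Q) * IS f (P ::ₘ S) = mP f Q * IS f (P ::ₘ S) := by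
        rw [Ideal.sup_mul]
        exact sup_eq_right.2 h1
      have h4 : J * J' ≤ mP f Q := sup_eq_right.1 (IS_cancel hf hS h3)
      rcases hprime.mul_le.1 h4 with h5 | h5
      · apply hGQ
        rw [← Ideal.span_singleton_le_iff_mem, hJ]
        exact Ideal.mul_mono_left h5
      · apply hF'Q
        rw [← Ideal.span_singleton_le_iff_mem, hJ', IS_cons]
        exact Ideal.mul_mono_left h5
    · rw [WD_iff hf (mul_ne_zero hG0 hF'0), nr_mul,
        natDegree_mul (nr_ne_zero hf hG0) (nr_ne_zero hf hF'0), Multiset.card_cons]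
      have h6 := (WD_iff hf hF'0 _).1 hF'W
      nlinarith

end Pool.Agent.HMW
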