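import Pool.Agent.HMW.Targets

set_option autoImplicit false

/-!
# HMW-HK: height of a rational point
-/

open Polynomial Height Height.AdmissibleAbsValues
open scoped Classical

noncomputable section

namespace Pool.Agent.HMW

theorem p_HK : T_HK := by
  intro K E _ _ _ _ _ _ ext hext
  constructor
  · intro t y
    have h1 : ∀ v, Pl K v → (({(algebraMap K E t, y)} : Multiset (E × E)).map
        fun P => Real.log (nm (ext v) P)).sum = Real.posLog (v t) := by
      intro v hv
      rw [Multiset.map_singleton, Multiset.sum_singleton, nm, hext.ex v hv,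
        Real.posLog_eq_log_max_one (v.nonneg t)]
    unfold HH
    rw [Vs_congr h1, logHeight₁_eq]
    rfl
  · intro S
    unfold HH Vs
    have h1 : ∀ v : AbsoluteValue K ℝ, 0 ≤ (S.map fun P => Real.log (nm (ext v) P)).sum := by
      intro v
      refine Multiset.sum_nonneg fun x hx => ?_
      obtain ⟨P, -, rfl⟩ := Multiset.mem_map.1 hx
      exact Real.log_nonneg (one_le_nm _ _)
    refine add_nonneg (Multiset.sum_nonneg fun x hx => ?_) (finsum_nonneg fun v => h1 _)
    obtain ⟨v, -, rfl⟩ := Multiset.mem_map.1 hx
    exact h1 v

end Pool.Agent.HMW
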