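import Pool.Agent.HMW.Targets

set_option autoImplicit false
set_option linter.unusedVariables false

/-!
# MP_c076ed_nt, job KEY: one of the quantities is large on the whole curve
-/

open Polynomial

noncomputable section

namespace Pool.Agent.HMW

namespace KEY_

variable {E : Type} [Field E]

/-- the value at infinity of the other chart -/
theorem eval_rev (f : E[X]) (n : ℕ) (hf : f.natDegree = n) (x : E) (hx : x ≠ 0) :
    (X * f.reverse).eval x⁻¹ * x ^ (n + 1) = f.eval x := by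
  have hinv : Invertible x := invertibleOfNonzero hx
  have h := eval₂_reverse_mul_pow (RingHom.id E) x f
  rw [invOf_eq_inv, hf] at h
  rw [eval_mul, eval_X]
  have h2 : eval x⁻¹ f.reverse * x ^ n = f.eval x := h
  rw [← h2, pow_succ]
  have h3 : x⁻¹ * x = 1 := inv_mul_cancel₀ hx
  linear_combination (eval x⁻¹ f.reverse * x ^ n) * h3

theorem rev_deg (f : E[X]) (n : ℕ) (hf : f.natDegree = n) : (X * f.reverse).natDegree ≤ n + 1 := by
  refine natDegree_mul_le.trans ?_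
  rw [natDegree_X]
  have := reverse_natDegree_le f
  omega

theorem rev_PB (v : AbsoluteValue E ℝ) (f : E[X]) (M : ℝ) (hM : 0 ≤ M) (h : PB v f M) :
    PB v (X * f.reverse) M := by
  intro i
  rcases i with _ | i
  · rw [coeff_X_mul_zero, map_zero]
    exact hM
  · rw [coeff_X_mul, coeff_reverse]
    exact h _

end KEY_

theorem p_KEY : T_KEYC → T_DDI → T_KEY := by
  intro hK hD g N
  obtain ⟨e₀, he₀⟩ := hK (2 * g + 2) N
  refine ⟨e₀ + 2 * (2 * g + 1) + 1, ?_⟩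
  intro E _ v f Λ hf hT P Q hP hQ
  obtain ⟨-, -, hD3⟩ := hD E
  have hΛ : 1 ≤ Λ := hT.one
  have hΛ0 : 0 < Λ := by linarith
  have hΛp : ∀ k : ℕ, 1 ≤ Λ ^ k := fun k => one_le_pow₀ hΛ
  set M : ℝ := nm v P * nm v Q with hM
  have hnP : 1 ≤ nm v P := le_max_left _ _
  have hnQ : 1 ≤ nm v Q := le_max_left _ _
  have hM1 : 1 ≤ M := one_le_mul_of_one_le_of_one_le hnP hnQ
  have hM0 : 0 < M := by linarith
  set μ : ℝ := max (dd v g P Q)
    (max (max (v (P.2 + Q.2) / M ^ (g + 1))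
        (v (P.2 * Q.1 ^ (g + 1) + Q.2 * P.1 ^ (g + 1)) / M ^ (g + 1)))
      (max (v (DD f P.1 Q.1) / M ^ (2 * g + 1))
        (v (DT g f P.1 Q.1) / M ^ (2 * g + 1)))) with hμ
  have hA1 : v (P.1 - Q.1) / M ≤ μ := by
    refine le_trans ?_ (le_max_left _ _)
    unfold dd
    exact le_max_left _ _
  have hA2 : v (P.2 - Q.2) / M ^ (g + 1) ≤ μ := by
    refine le_trans ?_ (le_max_left _ _)
    unfold dd
    exact le_max_of_le_right (le_max_left _ _)
  have hA3 : v (P.2 * Q.1 ^ (g + 1) - Q.2 * P.1 ^ (g + 1)) / M ^ (g + 1) ≤ μ := by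
    refine le_trans ?_ (le_max_left _ _)
    unfold dd
    exact le_max_of_le_right (le_max_right _ _)
  have hB2 : v (P.2 + Q.2) / M ^ (g + 1) ≤ μ :=
    le_max_of_le_right (le_max_of_le_left (le_max_left _ _))
  have hB3 : v (P.2 * Q.1 ^ (g + 1) + Q.2 * P.1 ^ (g + 1)) / M ^ (g + 1) ≤ μ :=
    le_max_of_le_right (le_max_of_le_left (le_max_right _ _))
  have hC1 : v (DD f P.1 Q.1) / M ^ (2 * g + 1) ≤ μ :=
    le_max_of_le_right (le_max_of_le_right (le_max_left _ _))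
  have hC2 : v (DT g f P.1 Q.1) / M ^ (2 * g + 1) ≤ μ :=
    le_max_of_le_right (le_max_of_le_right (le_max_right _ _))
  have hμ0 : 0 ≤ μ := le_trans (div_nonneg (v.nonneg _) hM0.le) hA1
  -- it is enough to have a smaller exponent
  have fin : ∀ k : ℕ, k ≤ e₀ + 2 * (2 * g + 1) + 1 → 1 ≤ Λ ^ k * μ →
      1 ≤ Λ ^ (e₀ + 2 * (2 * g + 1) + 1) * μ := fun k hk h =>
    h.trans (mul_le_mul_of_nonneg_right (pow_le_pow_right₀ hΛ hk) hμ0)
  -- one point is far away and the other one is not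
  have far : ∀ p q : E, v p ≤ 1 → Λ < v q → v q ≤ Λ * v (p - q) := by
    intro p q hp hq
    have h1 := hT.add (q - p) p
    rw [sub_add_cancel] at h1
    rcases le_total (v (q - p)) (v p) with h2 | h2
    · exfalso
      rw [max_eq_right h2] at h1
      have h3 : Λ * v p ≤ Λ * 1 := mul_le_mul_of_nonneg_left hp hΛ0.le
      linarith
    · rw [max_eq_left h2, v.map_sub] at h1
      exact h1
  by_cases h1 : v P.1 ≤ Λ ∧ v Q.1 ≤ Λ
  · -- the affine chart
    obtain ⟨hPl, hQl⟩ := h1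
    obtain ⟨a, b, hab, haB, hbB, haN, hbN⟩ := hT.bez
    have hkey := he₀ E v Λ hΛ hT.add hT.two f a b (by have := hf.deg; omega) haN hbN hT.cf haB hbB
      hab P.1 Q.1 P.2 Q.2 hPl hQl hP hQ
    have hML : M ≤ Λ ^ 2 := by
      have h2 : nm v P ≤ Λ := max_le hΛ hPl
      have h3 : nm v Q ≤ Λ := max_le hΛ hQl
      calc M ≤ Λ * Λ := mul_le_mul h2 h3 (by linarith) hΛ0.le
        _ = Λ ^ 2 := by ring
    have gen : ∀ (j : ℕ) (y : E), j ≤ 2 * g + 1 → v y / M ^ j ≤ μ →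
        v y ≤ Λ ^ (2 * (2 * g + 1)) * μ := by
      intro j y hj hy
      have h2 : M ^ j ≤ Λ ^ (2 * (2 * g + 1)) := by
        calc M ^ j ≤ (Λ ^ 2) ^ j := pow_le_pow_left₀ hM0.le hML j
          _ = Λ ^ (2 * j) := by rw [← pow_mul]
          _ ≤ Λ ^ (2 * (2 * g + 1)) := pow_le_pow_right₀ hΛ (by omega)
      have h3 : 0 < M ^ j := by positivity
      rw [div_le_iff₀ h3] at hy
      calc v y ≤ μ * M ^ j := hy
        _ ≤ μ * Λ ^ (2 * (2 * g + 1)) := mul_le_mul_of_nonneg_left h2 hμ0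
        _ = _ := by ring
    have h4 : max (v (P.1 - Q.1)) (max (v (P.2 - Q.2)) (max (v (P.2 + Q.2))
        (v (DD f P.1 Q.1)))) ≤ Λ ^ (2 * (2 * g + 1)) * μ := by
      refine max_le (gen 1 _ (by omega) (by rw [pow_one]; exact hA1))
        (max_le (gen (g + 1) _ (by omega) hA2) (max_le (gen (g + 1) _ (by omega) hB2)
          (gen (2 * g + 1) _ le_rfl hC1)))
    refine fin (e₀ + 2 * (2 * g + 1)) (by omega) ?_
    rw [pow_add, mul_assoc]
    exact hkey.trans (mul_le_mul_of_nonneg_left h4 (by positivity))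
  by_cases h2 : v P.1 ≤ 1
  · have hQ2 : Λ < v Q.1 := by
      by_contra hcon
      exact h1 ⟨h2.trans hΛ, not_lt.1 hcon⟩
    have h3 := far P.1 Q.1 h2 hQ2
    have hMe : M = v Q.1 := by
      have h4 : nm v P = 1 := max_eq_left h2
      have h5 : nm v Q = v Q.1 := max_eq_right (by linarith)
      rw [hM, h4, h5, one_mul]
    refine fin 1 (by omega) ?_
    rw [pow_one]
    have h6 : M ≤ Λ * v (P.1 - Q.1) := by
      rw [hMe]
      exact h3
    rw [div_le_iff₀ hM0] at hA1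
    have h7 : M ≤ Λ * (μ * M) := h6.trans (mul_le_mul_of_nonneg_left hA1 hΛ0.le)
    by_contra hcon
    push Not at hcon
    have h8 : Λ * μ * M < 1 * M := mul_lt_mul_of_pos_right hcon hM0
    linarith
  by_cases h3 : v Q.1 ≤ 1
  · have hP2 : Λ < v P.1 := by
      by_contra hcon
      exact h1 ⟨not_lt.1 hcon, h3.trans hΛ⟩
    have h4 := far Q.1 P.1 h3 hP2
    have hMe : M = v P.1 := by
      have h5 : nm v Q = 1 := max_eq_left h3
      have h6 : nm v P = v P.1 := max_eq_right (by linarith)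
      rw [hM, h5, h6, mul_one]
    refine fin 1 (by omega) ?_
    rw [pow_one]
    have h6 : M ≤ Λ * v (P.1 - Q.1) := by
      rw [hMe, v.map_sub P.1 Q.1]
      exact h4
    rw [div_le_iff₀ hM0] at hA1
    have h7 : M ≤ Λ * (μ * M) := h6.trans (mul_le_mul_of_nonneg_left hA1 hΛ0.le)
    by_contra hcon
    push Not at hcon
    have h8 : Λ * μ * M < 1 * M := mul_lt_mul_of_pos_right hcon hM0
    linarith
  -- the chart at infinity
  push Not at h2 h3
  have hP0 : P.1 ≠ 0 := by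
    intro h
    rw [h, map_zero] at h2
    linarith
  have hQ0 : Q.1 ≠ 0 := by
    intro h
    rw [h, map_zero] at h3
    linarith
  have hMe : M = v P.1 * v Q.1 := by
    have h4 : nm v P = v P.1 := max_eq_right h2.le
    have h5 : nm v Q = v Q.1 := max_eq_right h3.le
    rw [hM, h4, h5]
  obtain ⟨a, b, hab, haB, hbB, haN, hbN⟩ := hT.bez'
  have hinv : ∀ t : E, 1 < v t → v t⁻¹ ≤ Λ := by
    intro t ht
    rw [map_inv₀]
    have : (v t)⁻¹ ≤ 1 := inv_le_one_of_one_le₀ ht.le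
    linarith
  have hz : ∀ R : E × E, On f R → R.1 ≠ 0 →
      (R.2 / R.1 ^ (g + 1)) ^ 2 = (X * f.reverse).eval R.1⁻¹ := by
    intro R hR hR0
    have h4 := KEY_.eval_rev f (2 * g + 1) hf.deg R.1 hR0
    have h5 : R.2 ^ 2 = f.eval R.1 := hR
    rw [div_pow, h5, ← h4]
    have h6 : R.1 ^ (2 * g + 1 + 1) = (R.1 ^ (g + 1)) ^ 2 := by
      rw [← pow_mul]
      congr 1
      ring
    rw [h6, mul_div_assoc, div_self (by positivity), mul_one]
  have hkey := he₀ E v Λ hΛ hT.add hT.two (X * f.reverse) a b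
    (KEY_.rev_deg f (2 * g + 1) hf.deg) haN hbN (KEY_.rev_PB v f Λ hΛ0.le hT.cf) haB hbB hab
    P.1⁻¹ Q.1⁻¹ (P.2 / P.1 ^ (g + 1)) (Q.2 / Q.1 ^ (g + 1)) (hinv _ h2) (hinv _ h3)
    (hz P hP hP0) (hz Q hQ hQ0)
  have e1 : v (P.1⁻¹ - Q.1⁻¹) = v (P.1 - Q.1) / M := by
    rw [hMe, ← map_mul, ← map_div₀, v.map_sub P.1⁻¹]
    congr 1
    field_simp
  have e2 : v (P.2 / P.1 ^ (g + 1) - Q.2 / Q.1 ^ (g + 1)) =
      v (P.2 * Q.1 ^ (g + 1) - Q.2 * P.1 ^ (g + 1)) / M ^ (g + 1) := by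
    rw [hMe, ← map_mul, ← map_pow, ← map_div₀]
    congr 1
    rw [mul_pow]
    field_simp
  have e3 : v (P.2 / P.1 ^ (g + 1) + Q.2 / Q.1 ^ (g + 1)) =
      v (P.2 * Q.1 ^ (g + 1) + Q.2 * P.1 ^ (g + 1)) / M ^ (g + 1) := by
    rw [hMe, ← map_mul, ← map_pow, ← map_div₀]
    congr 1
    rw [mul_pow]
    field_simp
  have e4 : v (DD (X * f.reverse) P.1⁻¹ Q.1⁻¹) = v (DT g f P.1 Q.1) / M ^ (2 * g + 1) := by
    have h4 := hD3 g f P.1 Q.1 hf.deg hP0 hQ0
    have h5 := congrArg v h4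
    rw [map_mul, v.map_neg, map_pow, map_mul, ← hMe] at h5
    rw [eq_div_iff (by positivity)]
    exact h5
  rw [e1, e2, e3, e4] at hkey
  refine fin e₀ (by omega) (hkey.trans (mul_le_mul_of_nonneg_left ?_ (by positivity)))
  exact max_le hA1 (max_le hA3 (max_le hB3 hC2))

end Pool.Agent.HMW
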