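import Pool.Agent.HMW.Targets

set_option autoImplicit false

/-!
# HMW-KEYC: in a chart, one of the four quantities is large
-/

open Polynomial

noncomputable section

namespace Pool.Agent.HMW

theorem p_KEYC (h1 : T_DDB) (h2 : T_EVB) : T_KEYC := by
  intro m N
  obtain ⟨e₁, he₁⟩ := h1 m
  obtain ⟨e₂, he₂⟩ := h2 N
  refine ⟨1 + (e₂ + 1 + N) + (4 + (e₁ + 1)), ?_⟩
  intro E _ v Λ hΛ hadd h2Λ h a b hh ha hb hPh hPa hPb hid w w' z z' hw hw' hz hz'
  set μ : ℝ := max (v (w - w')) (max (v (z - z')) (max (v (z + z')) (v (DD h w w')))) with hμ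
  have hΛ0 : 0 < Λ := lt_of_lt_of_le one_pos hΛ
  have hμ0 : 0 ≤ μ := (v.nonneg (w - w')).trans (le_max_left _ _)
  have m1 : v (w - w') ≤ μ := le_max_left _ _
  have m2 : v (z - z') ≤ μ := (le_max_left _ _).trans (le_max_right _ _)
  have m3 : v (z + z') ≤ μ :=
    ((le_max_left _ _).trans (le_max_right _ _)).trans (le_max_right _ _)
  have m4 : v (DD h w w') ≤ μ :=
    ((le_max_right _ _).trans (le_max_right _ _)).trans (le_max_right _ _)
  have hpow : ∀ i : ℕ, 1 ≤ Λ ^ i := fun i => one_le_pow₀ hΛ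
  have hpow0 : ∀ i : ℕ, 0 < Λ ^ i := fun i => pow_pos hΛ0 i
  rcases le_or_gt 1 μ with hge | hlt
  · calc (1 : ℝ) = 1 * 1 := by ring
      _ ≤ Λ ^ (1 + (e₂ + 1 + N) + (4 + (e₁ + 1))) * μ :=
        mul_le_mul (hpow _) hge zero_le_one (hpow0 _).le
  -- z is small
  have hz1 : v z ≤ Λ ^ 2 * μ := by
    have e1 : v (2 * z) ≤ Λ * μ := by
      have : (2 : E) * z = (z - z') + (z + z') := by ring
      rw [this]
      exact (hadd _ _).trans (mul_le_mul_of_nonneg_left (max_le m2 m3) hΛ0.le)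
    rw [map_mul] at e1
    have e2 : 1 * v z ≤ Λ * v 2 * v z := mul_le_mul_of_nonneg_right h2Λ (v.nonneg z)
    have e3 : Λ * (v 2 * v z) ≤ Λ * (Λ * μ) := mul_le_mul_of_nonneg_left e1 hΛ0.le
    calc v z = 1 * v z := (one_mul _).symm
      _ ≤ Λ * v 2 * v z := e2
      _ = Λ * (v 2 * v z) := by ring
      _ ≤ Λ * (Λ * μ) := e3
      _ = Λ ^ 2 * μ := by ring
  have hh1 : v (h.eval w) ≤ Λ ^ 4 * μ := by
    rw [← hz, map_pow]
    have e1 : v z ^ 2 ≤ (Λ ^ 2 * μ) ^ 2 := pow_le_pow_left₀ (v.nonneg z) hz1 2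
    have e2 : (Λ ^ 2 * μ) ^ 2 = Λ ^ 4 * (μ * μ) := by ring
    have e3 : μ * μ ≤ μ * 1 := mul_le_mul_of_nonneg_left hlt.le hμ0
    rw [e2] at e1
    exact e1.trans (mul_le_mul_of_nonneg_left (by linarith) (hpow0 4).le)
  have hd1 : v ((derivative h).eval w) ≤ Λ ^ (e₁ + 1) * μ := by
    have e1 := he₁ E v Λ hΛ hadd h w w' hh hPh hw hw'
    have e2 : (derivative h).eval w = DD h w w' + -(DD h w w' - (derivative h).eval w) := by ring
    rw [e2]
    refine (hadd _ _).trans ?_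
    rw [v.map_neg, pow_succ, mul_comm (Λ ^ e₁) Λ, mul_assoc]
    refine mul_le_mul_of_nonneg_left (max_le ?_ ?_) hΛ0.le
    · exact m4.trans (by
        have := mul_le_mul_of_nonneg_right (hpow e₁) hμ0
        linarith)
    · exact e1.trans (mul_le_mul_of_nonneg_left m1 (hpow0 e₁).le)
  have hev : ∀ p : E[X], p.natDegree ≤ N → PB v p Λ → v (p.eval w) ≤ Λ ^ (e₂ + 1 + N) := by
    intro p hp hPp
    refine (he₂ E v Λ hΛ hadd p Λ w hp hPp).trans ?_
    have e1 : max 1 (v w) ^ p.natDegree ≤ Λ ^ N := by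
      have e3 : max 1 (v w) ≤ Λ := max_le hΛ hw
      exact (pow_le_pow_left₀ (zero_le_one.trans (le_max_left _ _)) e3 _).trans
        (pow_le_pow_right₀ hΛ hp)
    calc Λ ^ e₂ * Λ * max 1 (v w) ^ p.natDegree ≤ Λ ^ e₂ * Λ * Λ ^ N :=
          mul_le_mul_of_nonneg_left e1 (by positivity)
      _ = Λ ^ (e₂ + 1 + N) := by rw [pow_add, pow_succ]
  have hone : (1 : E) = a.eval w * h.eval w + b.eval w * (derivative h).eval w := by
    rw [← eval_mul, ← eval_mul, ← eval_add, hid, eval_one]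
  have hfin : v (a.eval w * h.eval w + b.eval w * (derivative h).eval w) ≤
      Λ ^ (1 + (e₂ + 1 + N) + (4 + (e₁ + 1))) * μ := by
    refine (hadd _ _).trans ?_
    have e0 : Λ ^ (1 + (e₂ + 1 + N) + (4 + (e₁ + 1))) * μ =
        Λ * (Λ ^ (e₂ + 1 + N) * (Λ ^ (4 + (e₁ + 1)) * μ)) := by
      rw [pow_add Λ (1 + (e₂ + 1 + N)), pow_add Λ 1, pow_one]; ring
    rw [e0]
    refine mul_le_mul_of_nonneg_left (max_le ?_ ?_) hΛ0.le
    · rw [map_mul]
      refine mul_le_mul (hev a ha hPa) (hh1.trans ?_) (v.nonneg _) (hpow0 _).le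
      exact mul_le_mul_of_nonneg_right (pow_le_pow_right₀ hΛ (by omega)) hμ0
    · rw [map_mul]
      refine mul_le_mul (hev b hb hPb) (hd1.trans ?_) (v.nonneg _) (hpow0 _).le
      exact mul_le_mul_of_nonneg_right (pow_le_pow_right₀ hΛ (by omega)) hμ0
  rw [← hone, map_one] at hfin
  exact hfin

end Pool.Agent.HMW
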