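import Pool.Agent.HMW.Targets

set_option autoImplicit false

/-!
# KR1: a rational function of small pole order vanishing on a rational divisor
-/

open Polynomial
open scoped Classical

noncomputable section

namespace Pool.Agent.HMW

namespace KR1_

variable {E : Type} [Field E]

/-- the polynomial with given coefficients -/
def pol (m : ℕ) : (Fin m → E) →ₗ[E] E[X] where
  toFun x := ∑ i : Fin m, C (x i) * X ^ (i : ℕ)
  map_add' x y := by
    simp only [Pi.add_apply, C_add, add_mul, Finset.sum_add_distrib]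
  map_smul' c x := by
    simp only [Pi.smul_apply, smul_eq_mul, C_mul, RingHom.id_apply, Finset.smul_sum, smul_eq_C_mul,
      mul_assoc]

theorem pol_apply (m : ℕ) (x : Fin m → E) : pol m x = ∑ i : Fin m, C (x i) * X ^ (i : ℕ) := rfl

theorem pol_coeff (m : ℕ) (x : Fin m → E) (i : Fin m) : (pol m x).coeff (i : ℕ) = x i := by
  rw [pol_apply, finsetSum_coeff]
  simp only [coeff_C_mul, coeff_X_pow]
  rw [Finset.sum_eq_single i]
  · simp
  · intro j _ hj
    rw [if_neg (fun h => hj (Fin.ext h.symm)), mul_zero]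
  · intro h
    exact absurd (Finset.mem_univ i) h

theorem pol_degree (m : ℕ) (x : Fin m → E) : (pol m x).degree < m := by
  rw [pol_apply, degree_lt_iff_coeff_zero]
  intro k hk
  rw [finsetSum_coeff]
  refine Finset.sum_eq_zero fun i _ => ?_
  rw [coeff_C_mul, coeff_X_pow, if_neg, mul_zero]
  have := i.2
  omega

theorem pol_map (m : ℕ) (x : Fin m → E) (σ : E →+* E) :
    (pol m x).map σ = pol m (fun i => σ (x i)) := by
  rw [pol_apply, pol_apply, Polynomial.map_sum]
  refine Finset.sum_congr rfl fun i _ => ?_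
  simp

/-- the function with given coefficients -/
def fn (f : E[X]) (a b : ℕ) : (Fin a ⊕ Fin b → E) →ₗ[E] RR f where
  toFun x := ⟨pol a (fun i => x (Sum.inl i)), pol b (fun i => x (Sum.inr i))⟩
  map_add' x y := by
    ext1
    · exact (pol a).map_add _ _
    · exact (pol b).map_add _ _
  map_smul' c x := by
    ext1
    · exact (pol a).map_smul c _
    · exact (pol b).map_smul c _

theorem fn_re (f : E[X]) (a b : ℕ) (x : Fin a ⊕ Fin b → E) :
    (fn f a b x).re = pol a (fun i => x (Sum.inl i)) := rfl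

theorem fn_im (f : E[X]) (a b : ℕ) (x : Fin a ⊕ Fin b → E) :
    (fn f a b x).im = pol b (fun i => x (Sum.inr i)) := rfl

theorem fn_eq_zero (f : E[X]) (a b : ℕ) (x : Fin a ⊕ Fin b → E) (h : fn f a b x = 0) : x = 0 := by
  have h1 := congrArg QuadraticAlgebra.re h
  have h2 := congrArg QuadraticAlgebra.im h
  rw [fn_re] at h1
  rw [fn_im] at h2
  funext i
  rcases i with i | i
  · have := pol_coeff a (fun i => x (Sum.inl i)) i
    rw [h1] at this
    simpa using this.symm
  · have := pol_coeff b (fun i => x (Sum.inr i)) i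
    rw [h2] at this
    simpa using this.symm

theorem fn_WD (f : E[X]) (g D : ℕ) (hD : 2 * g ≤ D)
    (x : Fin (D / 2 + 1) ⊕ Fin ((D + 1 - 2 * g) / 2) → E) :
    WD g (fn f (D / 2 + 1) ((D + 1 - 2 * g) / 2) x) D := by
  constructor
  · rw [fn_re]
    have h1 := pol_degree (D / 2 + 1) (fun i => x (Sum.inl i))
    by_cases h0 : pol (D / 2 + 1) (fun i => x (Sum.inl i)) = 0
    · rw [h0, natDegree_zero]
      omega
    · rw [← natDegree_lt_iff_degree_lt h0] at h1
      omega
  · rw [fn_im]
    by_cases h0 : pol ((D + 1 - 2 * g) / 2) (fun i => x (Sum.inr i)) = 0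
    · exact Or.inl h0
    · right
      have h1 := pol_degree ((D + 1 - 2 * g) / 2) (fun i => x (Sum.inr i))
      rw [← natDegree_lt_iff_degree_lt h0] at h1
      omega

end KR1_

open KR1_

theorem p_KR1 : T_PSI → T_GD → T_KR1 := by
  intro hPSI hGD K E _ _ _ _ _ _ _ g f hf hK S D hS hc hD
  obtain ⟨Ψ, hΨ⟩ := hPSI E g f hf S hS.1
  set a := D / 2 + 1 with ha
  set b := (D + 1 - 2 * g) / 2 with hb
  -- the subspace
  let V : Submodule E (Fin a ⊕ Fin b → E) :=
    { carrier := {x | fn f a b x ∈ IS f S}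
      add_mem' := by
        intro x y hx hy
        change fn f a b (x + y) ∈ IS f S
        rw [map_add]
        exact Ideal.add_mem _ hx hy
      zero_mem' := by
        change fn f a b 0 ∈ IS f S
        rw [map_zero]
        exact Ideal.zero_mem _
      smul_mem' := by
        intro c x hx
        change fn f a b (c • x) ∈ IS f S
        rw [map_smul, Algebra.smul_def]
        exact Ideal.mul_mem_left _ _ hx }
  have hV : ∀ x, x ∈ V ↔ fn f a b x ∈ IS f S := fun x => Iff.rfl
  -- a nonzero element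
  have hker : LinearMap.ker (Ψ ∘ₗ fn f a b) ≠ ⊥ := by
    apply LinearMap.ker_ne_bot_of_finrank_lt
    rw [Module.finrank_fintype_fun_eq_card, Module.finrank_fintype_fun_eq_card,
      Fintype.card_sum, Fintype.card_fin, Fintype.card_fin, Fintype.card_fin]
    omega
  obtain ⟨x, hx, hx0⟩ := (Submodule.ne_bot_iff _).1 hker
  have hxV : x ∈ V := by
    rw [hV]
    exact hΨ _ hx
  -- Galois stability
  have hgal : ∀ (σ : E ≃ₐ[K] E), ∀ x ∈ V, (fun i => σ (x i)) ∈ V := by
    intro σ x hx
    rw [hV] at *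
    have h1 := sg_mem_IS hK σ hx
    rw [hS.2 σ] at h1
    have h2 : sg σ (fn f a b x) = fn f a b (fun i => σ (x i)) := by
      ext1
      · exact pol_map a _ (σ : E →+* E)
      · exact pol_map b _ (σ : E →+* E)
    rwa [h2] at h1
  have hspan := hGD K E _ V hgal x hxV
  obtain ⟨y, ⟨hyV, hyK⟩, hy0⟩ : ∃ y ∈ {y | y ∈ V ∧ ∀ i, y i ∈ Set.range (algebraMap K E)},
      y ≠ 0 := by
    by_contra hcon
    push Not at hcon
    apply hx0
    have h1 : Submodule.span E {y | y ∈ V ∧ ∀ i, y i ∈ Set.range (algebraMap K E)} ≤ ⊥ := by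
      rw [Submodule.span_le]
      intro y hy
      exact hcon y hy
    exact (Submodule.mem_bot E).1 (h1 hspan)
  have hrat : ∀ (m : ℕ) (z : Fin m → E), (∀ i, z i ∈ Set.range (algebraMap K E)) →
      KP K (pol m z) := by
    intro m z hz
    rw [KP_iff]
    intro σ
    rw [pol_map]
    congr 1
    funext i
    obtain ⟨k, hk⟩ := hz i
    rw [← hk]
    simp
  refine ⟨fn f a b y, ?_, ⟨?_, ?_⟩, (hV y).1 hyV, fn_WD f g D hD y⟩
  · intro h
    exact hy0 (fn_eq_zero f a b y h)
  · rw [fn_re]
    exact hrat a _ fun i => hyK _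
  · rw [fn_im]
    exact hrat b _ fun i => hyK _

end Pool.Agent.HMW
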