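import Pool.Agent.HMW.Targets

set_option autoImplicit false

/-!
# Rational functions vanishing on a divisor and not vanishing at further points
-/

open Polynomial
open scoped Classical

noncomputable section

namespace Pool.Agent.HMW

namespace KR2_

/-- the polynomial with coefficients `a` -/
def pol {R : Type} [Semiring R] {n : ℕ} (a : Fin n → R) : R[X] :=
  ∑ i : Fin n, monomial (i : ℕ) (a i)

theorem pol_coeff {R : Type} [Semiring R] {n : ℕ} (a : Fin n → R) (j : ℕ) :
    (pol a).coeff j = if h : j < n then a ⟨j, h⟩ else 0 := by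
  unfold pol
  rw [finsetSum_coeff]
  simp only [coeff_monomial]
  split_ifs with h
  · rw [Finset.sum_eq_single (⟨j, h⟩ : Fin n)]
    · simp
    · intro b _ hb
      rw [if_neg]
      intro h1
      exact hb (Fin.ext h1)
    · intro h1
      exact absurd (Finset.mem_univ _) h1
  · refine Finset.sum_eq_zero fun b _ => if_neg ?_
    intro h1
    exact h (h1 ▸ b.2)

theorem pol_add {R : Type} [Semiring R] {n : ℕ} (a b : Fin n → R) :
    pol (fun i => a i + b i) = pol a + pol b := by
  ext j
  rw [coeff_add, pol_coeff, pol_coeff, pol_coeff]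
  split_ifs <;> simp

theorem pol_zero {R : Type} [Semiring R] {n : ℕ} : pol (fun _ : Fin n => (0 : R)) = 0 := by
  ext j
  rw [pol_coeff]
  split_ifs <;> simp

theorem pol_smul {R : Type} [Semiring R] {n : ℕ} (c : R) (a : Fin n → R) :
    pol (fun i => c * a i) = C c * pol a := by
  ext j
  rw [coeff_C_mul, pol_coeff, pol_coeff]
  split_ifs <;> simp

theorem pol_map {R R' : Type} [Semiring R] [Semiring R'] (φ : R →+* R') {n : ℕ}
    (a : Fin n → R) : (pol a).map φ = pol (fun i => φ (a i)) := by
  ext j
  rw [coeff_map, pol_coeff, pol_coeff]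
  split_ifs <;> simp

theorem pol_surj {R : Type} [Semiring R] {n : ℕ} {p : R[X]} (h : p.natDegree < n) :
    pol (fun i : Fin n => p.coeff i) = p := by
  ext j
  rw [pol_coeff]
  split_ifs with h1
  · rfl
  · exact (coeff_eq_zero_of_natDegree_lt (by omega)).symm

theorem pol_deg {R : Type} [Semiring R] {n : ℕ} (a : Fin (n + 1) → R) :
    (pol a).natDegree ≤ n := by
  rw [natDegree_le_iff_coeff_eq_zero]
  intro N hN
  rw [pol_coeff, dif_neg]
  omega

theorem pol_inj {R : Type} [Semiring R] {n : ℕ} {a : Fin n → R} (h : pol a = 0) (i : Fin n) :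
    a i = 0 := by
  have h1 := pol_coeff a i
  rw [h, coeff_zero, dif_pos i.2] at h1
  exact h1.symm

/-- index set -/
abbrev Ix (g D : ℕ) : Type := Fin (D / 2 + 1) ⊕ Fin ((D + 1 - 2 * g) / 2)

variable {E : Type} [Field E] {f : E[X]} {g D : ℕ}

/-- the function with coordinates `x` -/
def FF (f : E[X]) (x : Ix g D → E) : RR f :=
  ⟨pol fun i => x (Sum.inl i), pol fun j => x (Sum.inr j)⟩

theorem FF_add (x y : Ix g D → E) : FF f (x + y) = FF f x + FF f y := by
  ext1
  · exact pol_add _ _
  · exact pol_add _ _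

theorem FF_zero : FF f (0 : Ix g D → E) = 0 := by
  ext1
  · exact pol_zero
  · exact pol_zero

theorem FF_smul (c : E) (x : Ix g D → E) : FF f (c • x) = (⟨C c, 0⟩ : RR f) * FF f x := by
  ext1
  · rw [re_mul']
    simp only [zero_mul, mul_zero, add_zero]
    exact pol_smul _ _
  · rw [im_mul']
    simp only [zero_mul, add_zero]
    exact pol_smul _ _

theorem FF_WD (x : Ix g D → E) : WD g (FF f x) D := by
  refine ⟨?_, ?_⟩
  · have h1 : (pol fun i => x (Sum.inl i)).natDegree ≤ D / 2 := pol_deg _
    change 2 * (pol fun i => x (Sum.inl i)).natDegree ≤ D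
    omega
  · rcases Nat.eq_zero_or_pos ((D + 1 - 2 * g) / 2) with h0 | h0
    · left
      change (pol fun j => x (Sum.inr j)) = 0
      ext j
      rw [pol_coeff, dif_neg (by omega), coeff_zero]
    · right
      change 2 * (pol fun j => x (Sum.inr j)).natDegree + (2 * g + 1) ≤ D
      have h1 : (pol fun j : Fin ((D + 1 - 2 * g) / 2) => x (Sum.inr j)).natDegree
          ≤ (D + 1 - 2 * g) / 2 - 1 := by
        rw [natDegree_le_iff_coeff_eq_zero]
        intro N hN
        rw [pol_coeff, dif_neg]
        omega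
      omega

theorem FF_surj {G : RR f} (h : WD g G D) : ∃ x : Ix g D → E, FF f x = G := by
  refine ⟨Sum.elim (fun i => G.re.coeff i) (fun j => G.im.coeff j), ?_⟩
  ext1
  · have h1 : G.re.natDegree < D / 2 + 1 := by
      have := h.1
      omega
    exact pol_surj h1
  · change pol (fun j : Fin ((D + 1 - 2 * g) / 2) => G.im.coeff j) = G.im
    rcases h.2 with h0 | h0
    · rw [h0]
      simp only [coeff_zero]
      exact pol_zero
    · exact pol_surj (by omega)

theorem FF_inj {x : Ix g D → E} (h : FF f x = 0) : x = 0 := by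
  have h1 : pol (fun i => x (Sum.inl i)) = 0 := congrArg QuadraticAlgebra.re h
  have h2 : pol (fun j => x (Sum.inr j)) = 0 := congrArg QuadraticAlgebra.im h
  funext i
  rcases i with i | j
  · exact pol_inj h1 i
  · exact pol_inj h2 j

/-- the vectors whose function lies in the ideal -/
def VV (f : E[X]) (g D : ℕ) (J : Ideal (RR f)) : Submodule E (Ix g D → E) where
  carrier := {x | FF f x ∈ J}
  add_mem' := by
    intro x y hx hy
    change FF f (x + y) ∈ J
    rw [FF_add]
    exact J.add_mem hx hy
  zero_mem' := by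
    change FF f (0 : Ix g D → E) ∈ J
    rw [FF_zero]
    exact J.zero_mem
  smul_mem' := by
    intro c x hx
    change FF f (c • x) ∈ J
    rw [FF_smul]
    exact J.mul_mem_left _ hx

theorem mem_VV {J : Ideal (RR f)} {x : Ix g D → E} : x ∈ VV f g D J ↔ FF f x ∈ J := Iff.rfl

variable {K : Type} [Field K] [Algebra K E]

/-- extension of scalars -/
def al (x : Ix g D → K) : Ix g D → E := fun i => algebraMap K E (x i)

/-- the vectors over `K` -/
def VK (K : Type) [Field K] [Algebra K E] (f : E[X]) (g D : ℕ) (J : Ideal (RR f)) :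
    Submodule K (Ix g D → K) where
  carrier := {x | al x ∈ VV f g D J}
  add_mem' := by
    intro x y hx hy
    have h1 : (al (x + y) : Ix g D → E) = al x + al y := by
      funext i
      simp [al]
    change al (x + y) ∈ VV f g D J
    rw [h1]
    exact (VV f g D J).add_mem hx hy
  zero_mem' := by
    have h1 : (al (0 : Ix g D → K) : Ix g D → E) = 0 := by
      funext i
      simp [al]
    change al (0 : Ix g D → K) ∈ VV f g D J
    rw [h1]
    exact (VV f g D J).zero_mem
  smul_mem' := by
    intro c x hx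
    have h1 : (al (c • x) : Ix g D → E) = algebraMap K E c • al x := by
      funext i
      simp [al]
    change al (c • x) ∈ VV f g D J
    rw [h1]
    exact (VV f g D J).smul_mem _ hx

theorem FF_sg (σ : E ≃ₐ[K] E) (x : Ix g D → E) : sg σ (FF f x) = FF f (fun i => σ (x i)) := by
  ext1
  · exact pol_map _ _
  · exact pol_map _ _

theorem FF_Kr (x : Ix g D → K) : Kr K (FF f (al x)) := by
  refine ⟨⟨pol fun i => x (Sum.inl i), ?_⟩, ⟨pol fun j => x (Sum.inr j), ?_⟩⟩
  · rw [pol_map]
    rfl
  · rw [pol_map]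
    rfl

end KR2_

open KR2_ in
theorem p_KR2 : T_GD → T_GEN → T_KR2 := by
  intro hGD hGEN K E _ _ _ _ _ _ _ g f hf hK S T hS
  set D : ℕ := (2 * g + 1) * Multiset.card S with hD
  have hstab : ∀ σ : E ≃ₐ[K] E, ∀ x ∈ VV f g D (IS f S),
      (fun i => σ (x i)) ∈ VV f g D (IS f S) := by
    intro σ x hx
    rw [mem_VV] at hx ⊢
    have h1 := sg_mem_IS hK σ hx
    rwa [hS.2 σ, FF_sg] at h1
  have hdesc := hGD K E (Ix g D) (VV f g D (IS f S)) hstab
  -- rational vectors are enough
  have hspan : ∀ J : Ideal (RR f), (∀ y ∈ VK K f g D (IS f S), y ∈ VK K f g D J) →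
      VV f g D (IS f S) ≤ VV f g D J := by
    intro J hJ x hx
    refine Submodule.span_le.2 ?_ (hdesc x hx)
    rintro y ⟨hy, hr⟩
    choose z hz using hr
    have h1 : al z = y := funext hz
    have h2 : z ∈ VK K f g D (IS f S) := by
      change al z ∈ VV f g D (IS f S)
      rw [h1]
      exact hy
    have h3 := hJ z h2
    change al z ∈ VV f g D J at h3
    rw [h1] at h3
    exact h3
  -- a nonzero vector
  have hNS : ∃ x ∈ VV f g D (IS f S), x ≠ 0 := by
    have h1 : WD g (⟨NS S, 0⟩ : RR f) D := by
      refine ⟨?_, Or.inl rfl⟩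
      change 2 * (NS S).natDegree ≤ D
      rw [NS_natDegree, hD]
      exact Nat.mul_le_mul_right _ (by have := hf.pos; omega)
    obtain ⟨x, hx⟩ := FF_surj h1
    refine ⟨x, ?_, ?_⟩
    · rw [mem_VV, hx]
      exact IS_le_of_le (Multiset.le_add_right S _) (isDiv_NS hf hS.1).mem
    · rintro rfl
      rw [FF_zero] at hx
      exact NS_ne_zero' S hx.symm
  let sub : E × E → Submodule K (VK K f g D (IS f S)) := fun Q =>
    (VK K f g D (IS f (Q ::ₘ S))).comap (VK K f g D (IS f S)).subtype
  let s : Finset (Submodule K (VK K f g D (IS f S))) :=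
    insert ⊥ ((T.filter fun Q => On f Q).image sub)
  have htop : ⊤ ∉ s := by
    intro h
    rcases Finset.mem_insert.1 h with h1 | h1
    · -- the space of rational vectors is zero
      obtain ⟨x, hx, hx0⟩ := hNS
      have h2 := hspan ⊥ (fun y hy => by
        have h3 : (⟨y, hy⟩ : VK K f g D (IS f S)) ∈ (⊤ : Submodule K (VK K f g D (IS f S))) :=
          Submodule.mem_top
        rw [h1, Submodule.mem_bot] at h3
        have h4 : y = 0 := congrArg Subtype.val h3
        rw [h4]
        exact Submodule.zero_mem _) hx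
      rw [mem_VV, Ideal.mem_bot] at h2
      exact hx0 (FF_inj h2)
    · obtain ⟨Q, hQ, hQs⟩ := Finset.mem_image.1 h1
      have hQon : On f Q := (Finset.mem_filter.1 hQ).2
      obtain ⟨G, hG1, hG2, hG3⟩ := hGEN E g f hf S Q hS.1 hQon
      obtain ⟨x, hx⟩ := FF_surj hG3
      have h2 := hspan (IS f (Q ::ₘ S)) (fun y hy => by
        have h3 : (⟨y, hy⟩ : VK K f g D (IS f S)) ∈ (⊤ : Submodule K (VK K f g D (IS f S))) :=
          Submodule.mem_top
        rw [← hQs] at h3
        exact h3) (show x ∈ VV f g D (IS f S) by rw [mem_VV, hx]; exact hG1)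
      rw [mem_VV, hx] at h2
      exact hG2 h2
  have hne := Subspace.biUnion_ne_univ_of_top_notMem (k := K) (s := s) htop
  obtain ⟨y, hy⟩ := (Set.ne_univ_iff_exists_notMem _).1 hne
  simp only [Set.mem_iUnion, not_exists] at hy
  refine ⟨FF f (al y.1), ?_, FF_Kr _, ?_, FF_WD _, ?_⟩
  · intro h0
    have h1 := FF_inj h0
    refine hy ⊥ (Finset.mem_insert_self _ _) ?_
    have h2 : y = 0 := by
      apply Subtype.ext
      funext i
      have h3 := congrFun h1 i
      have h4 : algebraMap K E (y.1 i) = 0 := h3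
      exact (map_eq_zero (algebraMap K E)).1 h4
    rw [h2]
    exact Submodule.zero_mem _
  · exact y.2
  · intro Q hQ hQon hmem
    refine hy (sub Q) (Finset.mem_insert_of_mem (Finset.mem_image_of_mem _
      (Finset.mem_filter.2 ⟨hQ, hQon⟩))) ?_
    exact hmem

end Pool.Agent.HMW
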