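import Pool.Agent.HMW.Targets

set_option autoImplicit false

open Polynomial NumberField
open scoped Classical

noncomputable section

namespace Pool.Agent.HMW

namespace LEG_

variable {E : Type} [Field E]

/-- the polynomial with the given coefficients -/
def pol (k : ℕ) : (Fin k → E) →ₗ[E] E[X] :=
  ∑ j : Fin k, (monomial (j : ℕ)).comp (LinearMap.proj j)

theorem pol_apply (k : ℕ) (x : Fin k → E) : pol k x = ∑ j : Fin k, monomial (j : ℕ) (x j) := by
  simp [pol, LinearMap.sum_apply]

theorem pol_coeff (k : ℕ) (x : Fin k → E) (j : Fin k) : (pol k x).coeff j = x j := by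
  rw [pol_apply, finsetSum_coeff]
  rw [Finset.sum_eq_single j]
  · simp
  · intro i _ hij
    rw [coeff_monomial, if_neg]
    exact fun h => hij (Fin.ext h)
  · intro h
    exact absurd (Finset.mem_univ j) h

theorem pol_eq_zero (k : ℕ) (x : Fin k → E) (h : pol k x = 0) : x = 0 := by
  funext j
  rw [← pol_coeff k x j, h]
  simp

theorem pol_natDegree (k : ℕ) (hk : 1 ≤ k) (x : Fin k → E) : (pol k x).natDegree ≤ k - 1 := by
  rw [pol_apply]
  refine natDegree_sum_le_of_forall_le _ _ fun j _ => ?_
  refine (natDegree_monomial_le _).trans ?_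
  have := j.2
  omega

theorem pol_map (k : ℕ) (σ : E →+* E) (x : Fin k → E) :
    (pol k x).map σ = pol k (fun j => σ (x j)) := by
  rw [pol_apply, pol_apply, Polynomial.map_sum]
  simp

/-- the function with the given coefficients -/
def FL (f : E[X]) (a b c : ℕ) : (Fin a ⊕ Fin b ⊕ Fin c → E) →ₗ[E] RR f where
  toFun x := ⟨pol a (fun j => x (Sum.inl j)), pol b (fun j => x (Sum.inr (Sum.inl j)))⟩
  map_add' x y := by
    ext1
    · rw [QuadraticAlgebra.re_add]
      exact map_add (pol a) (fun j => x (Sum.inl j)) (fun j => y (Sum.inl j))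
    · rw [QuadraticAlgebra.im_add]
      exact map_add (pol b) (fun j => x (Sum.inr (Sum.inl j))) (fun j => y (Sum.inr (Sum.inl j)))
  map_smul' r x := by
    ext1
    · rw [QuadraticAlgebra.re_smul]
      exact map_smul (pol a) r (fun j => x (Sum.inl j))
    · rw [QuadraticAlgebra.im_smul]
      exact map_smul (pol b) r (fun j => x (Sum.inr (Sum.inl j)))

/-- the conditions at the roots -/
def LT {n : ℕ} (θ s : Fin n → E) (a b c : ℕ) :
    (Fin a ⊕ Fin b ⊕ Fin c → E) →ₗ[E] (Fin n → E) where
  toFun x i := (pol a (fun j => x (Sum.inl j))).eval (θ i) -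
    s i * (pol c (fun j => x (Sum.inr (Sum.inr j)))).eval (θ i)
  map_add' x y := by
    funext i
    have h1 : pol a (fun j => (x + y) (Sum.inl j)) =
        pol a (fun j => x (Sum.inl j)) + pol a (fun j => y (Sum.inl j)) :=
      map_add (pol a) (fun j => x (Sum.inl j)) (fun j => y (Sum.inl j))
    have h2 : pol c (fun j => (x + y) (Sum.inr (Sum.inr j))) =
        pol c (fun j => x (Sum.inr (Sum.inr j))) + pol c (fun j => y (Sum.inr (Sum.inr j))) :=
      map_add (pol c) (fun j => x (Sum.inr (Sum.inr j))) (fun j => y (Sum.inr (Sum.inr j)))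
    rw [h1, h2]
    simp only [eval_add, Pi.add_apply]
    ring
  map_smul' r x := by
    funext i
    have h1 : pol a (fun j => (r • x) (Sum.inl j)) = r • pol a (fun j => x (Sum.inl j)) :=
      map_smul (pol a) r (fun j => x (Sum.inl j))
    have h2 : pol c (fun j => (r • x) (Sum.inr (Sum.inr j))) =
        r • pol c (fun j => x (Sum.inr (Sum.inr j))) :=
      map_smul (pol c) r (fun j => x (Sum.inr (Sum.inr j)))
    rw [h1, h2]
    simp only [eval_smul, Pi.smul_apply, smul_eq_mul, RingHom.id_apply]
    ring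

/-- coprimality of `NS S` and `f` -/
theorem coprime {f : E[X]} (S : Multiset (E × E)) (h : OnM f S) (h0 : ∀ P ∈ S, P.2 ≠ 0) :
    IsCoprime (NS S) f := by
  induction S using Multiset.induction_on with
  | empty => simp [NS, isCoprime_one_left]
  | cons P S ih =>
    rw [NS_cons]
    refine IsCoprime.mul_left ?_ (ih (h.of_le (Multiset.le_cons_self S P))
      (fun Q hQ => h0 Q (Multiset.mem_cons_of_mem hQ)))
    have hP : On f P := h P (Multiset.mem_cons_self P S)
    have hP0 := h0 P (Multiset.mem_cons_self P S)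
    rw [(irreducible_X_sub_C P.1).coprime_iff_not_dvd, dvd_iff_isRoot, IsRoot.def]
    unfold On at hP
    rw [← hP]
    exact pow_ne_zero 2 hP0

/-- the value of `NS S` -/
theorem NS_eval (S : Multiset (E × E)) (t : E) :
    (NS S).eval t = (-1) ^ (Multiset.card S) * (S.map fun P => P.1 - t).prod := by
  induction S using Multiset.induction_on with
  | empty => simp [NS]
  | cons P S ih =>
    rw [NS_cons, eval_mul, ih, Multiset.map_cons, Multiset.prod_cons, Multiset.card_cons, pow_succ]
    simp only [eval_sub, eval_X, eval_C]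
    ring

end LEG_

open LEG_ in
theorem p_LEG : T_CXF → T_PSI → T_GD → T_LEG := by
  intro hCXF hPSI hGD K E _ _ _ _ _ _ _ g θ f ext hCx S s hMK hS0 hs
  obtain ⟨hf, hKf, _⟩ := hCXF K E g θ f ext hCx
  set m := Multiset.card S with hm
  set a := (m + (2 * g + 1) + 1) / 2 with ha
  set b := (m + 1) / 2 with hb
  set c := g + 1 with hc
  set θ' : Fin (2 * g + 1) → E := fun i => algebraMap K E (θ i : K) with hθ'
  set s' : Fin (2 * g + 1) → E := fun i => algebraMap K E (s i) with hs'
  obtain ⟨Ψ, hΨ⟩ := hPSI E g f hf S hMK.1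
  let V : Submodule E (Fin a ⊕ Fin b ⊕ Fin c → E) :=
    (((IS f S).restrictScalars E).comap (FL f a b c)) ⊓ LinearMap.ker (LT θ' s' a b c)
  -- a nonzero element
  have hV : ∃ x ∈ V, x ≠ 0 := by
    let L : (Fin a ⊕ Fin b ⊕ Fin c → E) →ₗ[E] (Fin m → E) × (Fin (2 * g + 1) → E) :=
      (Ψ.comp (FL f a b c)).prod (LT θ' s' a b c)
    have h1 : LinearMap.ker L ≠ ⊥ := by
      apply LinearMap.ker_ne_bot_of_finrank_lt
      rw [Module.finrank_prod, Module.finrank_fintype_fun_eq_card,
        Module.finrank_fintype_fun_eq_card, Module.finrank_fintype_fun_eq_card]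
      simp only [Fintype.card_fin, Fintype.card_sum]
      omega
    obtain ⟨x, hx, hx0⟩ := Submodule.exists_mem_ne_zero_of_ne_bot h1
    refine ⟨x, ?_, hx0⟩
    rw [LinearMap.mem_ker, LinearMap.prod_apply, Prod.mk_eq_zero] at hx
    exact ⟨hΨ _ hx.1, hx.2⟩
  -- Galois stability
  have hstab : ∀ (σ : E ≃ₐ[K] E), ∀ x ∈ V, (fun i => σ (x i)) ∈ V := by
    intro σ x hx
    have h1 : FL f a b c (fun i => σ (x i)) = sg σ (FL f a b c x) := by
      ext1
      · show pol a (fun j => σ (x (Sum.inl j))) = _
        exact (pol_map a (σ : E →+* E) (fun j => x (Sum.inl j))).symm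
      · show pol b (fun j => σ (x (Sum.inr (Sum.inl j)))) = _
        exact (pol_map b (σ : E →+* E) (fun j => x (Sum.inr (Sum.inl j)))).symm
    refine ⟨?_, ?_⟩
    · show FL f a b c (fun i => σ (x i)) ∈ IS f S
      rw [h1]
      have h2 := sg_mem_IS hKf σ hx.1
      rwa [hMK.2 σ] at h2
    · show LT θ' s' a b c (fun i => σ (x i)) = 0
      funext i
      have h3 : (LT θ' s' a b c x) i = 0 := congrFun hx.2 i
      have h4 : ∀ (k : ℕ) (z : Fin k → E),
          (pol k (fun j => σ (z j))).eval (θ' i) = σ ((pol k z).eval (θ' i)) := by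
        intro k z
        have h5 : σ (θ' i) = θ' i := σ.commutes _
        have h6 : (pol k (fun j => σ (z j))) = (pol k z).map (σ : E →+* E) :=
          (pol_map k (σ : E →+* E) z).symm
        conv_lhs => rw [h6, ← h5]
        exact Polynomial.eval_map_apply (σ : E →+* E) (θ' i)
      have h7 : σ (s' i) = s' i := σ.commutes _
      show (pol a (fun j => σ (x (Sum.inl j)))).eval (θ' i) -
        s' i * (pol c (fun j => σ (x (Sum.inr (Sum.inr j))))).eval (θ' i) = 0
      rw [h4 a (fun j => x (Sum.inl j)), h4 c (fun j => x (Sum.inr (Sum.inr j)))]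
      have h8 : (pol a (fun j => x (Sum.inl j))).eval (θ' i) -
        s' i * (pol c (fun j => x (Sum.inr (Sum.inr j)))).eval (θ' i) = 0 := h3
      have h9 := congrArg σ h8
      rw [map_sub, map_mul, h7, map_zero] at h9
      exact h9
  -- a rational solution
  obtain ⟨y, hyV, hyK, hy0⟩ : ∃ y, y ∈ V ∧ (∀ i, y i ∈ Set.range (algebraMap K E)) ∧ y ≠ 0 := by
    by_contra hcon
    push Not at hcon
    obtain ⟨x, hx, hx0⟩ := hV
    have h1 := hGD K E _ V hstab x hx
    have h2 : {y | y ∈ V ∧ ∀ i, y i ∈ Set.range (algebraMap K E)} ⊆ ({0} : Set _) := by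
      intro y hy
      exact hcon y hy.1 hy.2
    have h3 := Submodule.span_mono h2 h1
    rw [Submodule.span_singleton_eq_bot.2 rfl, Submodule.mem_bot] at h3
    exact hx0 h3
  set F : RR f := FL f a b c y with hF
  set Z : E[X] := pol c (fun j => y (Sum.inr (Sum.inr j))) with hZ
  have hFre : F.re = pol a (fun j => y (Sum.inl j)) := rfl
  have hFim : F.im = pol b (fun j => y (Sum.inr (Sum.inl j))) := rfl
  have hKP : ∀ (k : ℕ) (z : Fin k → E), (∀ j, z j ∈ Set.range (algebraMap K E)) →
      KP K (pol k z) := by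
    intro k z hz
    choose w hw using hz
    refine ⟨∑ j : Fin k, monomial (j : ℕ) (w j), ?_⟩
    rw [pol_apply, Polynomial.map_sum]
    refine Finset.sum_congr rfl fun j _ => ?_
    rw [Polynomial.map_monomial, hw]
  have hFIS : F ∈ IS f S := hyV.1
  have hroot : ∀ i, F.re.eval (θ' i) = s' i * Z.eval (θ' i) := by
    intro i
    have h3 : (LT θ' s' a b c y) i = 0 := congrFun hyV.2 i
    exact sub_eq_zero.1 h3
  have hfθ : ∀ i, f.eval (θ' i) = 0 := by
    intro i
    rw [hCx.eq, eval_prod]
    apply Finset.prod_eq_zero (Finset.mem_univ i)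
    simp [hθ']
  -- the main polynomial vanishes
  have hQ : nr F - C ((-1) ^ m) * NS S * Z ^ 2 = 0 := by
    have hu : NS S ∣ nr F - C ((-1) ^ m) * NS S * Z ^ 2 := by
      refine dvd_sub (NS_dvd_nr hf hMK.1 hFIS) ?_
      exact Dvd.intro (C ((-1) ^ m) * Z ^ 2) (by ring)
    have hfd : f ∣ nr F - C ((-1) ^ m) * NS S * Z ^ 2 := by
      conv_lhs => rw [hCx.eq]
      refine Fintype.prod_dvd_of_coprime ?_ ?_
      · intro i j hij
        refine isCoprime_X_sub_C_of_isUnit_sub ?_
        rw [isUnit_iff_ne_zero, sub_ne_zero]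
        intro h
        apply hij
        apply hCx.inj
        have h1 := (algebraMap K E).injective h
        exact_mod_cast h1
      · intro i
        rw [dvd_iff_isRoot, IsRoot.def]
        have e1 : (nr F).eval (θ' i) = (s' i * Z.eval (θ' i)) ^ 2 := by
          unfold nr
          rw [eval_sub, eval_mul, hfθ i, eval_pow, hroot i]
          ring
        have e2 : (NS S).eval (θ' i) = (-1) ^ m * s' i ^ 2 := by
          rw [NS_eval, ← hs i, map_pow]
        show (nr F - C ((-1) ^ m) * NS S * Z ^ 2).eval (θ' i) = 0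
        rw [eval_sub, e1, eval_mul, eval_mul, e2, eval_C, eval_pow]
        have e3 : ((-1 : E) ^ m) * ((-1) ^ m) = 1 := by
          rw [← mul_pow]
          simp
        linear_combination (-(s' i ^ 2 * Z.eval (θ' i) ^ 2)) * e3
    have huf : NS S * f ∣ nr F - C ((-1) ^ m) * NS S * Z ^ 2 :=
      (coprime S hMK.1 hS0).mul_dvd hu hfd
    refine Polynomial.eq_zero_of_dvd_of_natDegree_lt huf ?_
    rw [natDegree_mul (NS_monic S).ne_zero hf.monic.ne_zero, NS_natDegree, hf.deg]
    have hd1 : (F.re ^ 2).natDegree < m + (2 * g + 1) := by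
      have h1 := pol_natDegree a (by omega) (fun j => y (Sum.inl j))
      rw [← hFre] at h1
      refine lt_of_le_of_lt natDegree_pow_le ?_
      omega
    have hd2 : (f * F.im ^ 2).natDegree < m + (2 * g + 1) := by
      rcases Nat.eq_zero_or_pos b with hb0 | hb0
      · have h1 : F.im = 0 := by
          rw [hFim]
          have : IsEmpty (Fin b) := by rw [hb0]; infer_instance
          rw [pol_apply]
          exact Finset.sum_of_isEmpty _
        rw [h1]
        simp
      · have h1 := pol_natDegree b hb0 (fun j => y (Sum.inr (Sum.inl j)))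
        rw [← hFim] at h1
        refine lt_of_le_of_lt natDegree_mul_le ?_
        have h2 : (F.im ^ 2).natDegree ≤ 2 * F.im.natDegree := natDegree_pow_le
        rw [hf.deg]
        omega
    have hd3 : (C ((-1) ^ m) * NS S * Z ^ 2).natDegree < m + (2 * g + 1) := by
      have h1 := pol_natDegree c (by omega) (fun j => y (Sum.inr (Sum.inr j)))
      rw [← hZ] at h1
      have h2 : (Z ^ 2).natDegree ≤ 2 * Z.natDegree := natDegree_pow_le
      have h3 : (C ((-1 : E) ^ m) * NS S).natDegree ≤ m := by
        refine (natDegree_C_mul_le _ _).trans ?_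
        rw [NS_natDegree]
      refine lt_of_le_of_lt natDegree_mul_le ?_
      omega
    refine lt_of_le_of_lt (natDegree_sub_le _ _) (max_lt ?_ hd3)
    unfold nr
    exact lt_of_le_of_lt (natDegree_sub_le _ _) (max_lt hd1 hd2)
  refine ⟨F, Z, ?_, ⟨?_, ?_⟩, hFIS, sub_eq_zero.1 hQ⟩
  · intro hF0
    apply hy0
    have h1 : NS S * Z ^ 2 = 0 := by
      rw [hF0] at hQ
      have h2 : nr (0 : RR f) = 0 := by simp [nr]
      rw [h2, zero_sub, neg_eq_zero, mul_assoc] at hQ
      rcases mul_eq_zero.1 hQ with h3 | h3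
      · exfalso
        rw [C_eq_zero] at h3
        exact pow_ne_zero m (by norm_num : (-1 : E) ≠ 0) h3
      · exact h3
    have hZ0 : Z = 0 := by
      rcases mul_eq_zero.1 h1 with h3 | h3
      · exact absurd h3 (NS_monic S).ne_zero
      · exact pow_eq_zero_iff (two_ne_zero) |>.1 h3
    have h4 := pol_eq_zero a _ (hFre.symm.trans (by rw [hF0]; rfl))
    have h5 := pol_eq_zero b _ (hFim.symm.trans (by rw [hF0]; rfl))
    have h6 := pol_eq_zero c _ hZ0
    funext i
    rcases i with j | j | j
    · exact congrFun h4 j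
    · exact congrFun h5 j
    · exact congrFun h6 j
  · rw [hFre]
    exact hKP a _ fun j => hyK _
  · rw [hFim]
    exact hKP b _ fun j => hyK _

end Pool.Agent.HMW
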