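import Pool.Agent.HMW.Targets

set_option autoImplicit false
set_option linter.unusedSectionVars false

/-!
# HMW, target LOC: the local estimate for the divisor of a function
-/

open Polynomial Height Height.AdmissibleAbsValues NumberField IsDedekindDomain
open scoped Classical WithZero

noncomputable section

namespace Pool.Agent.HMW

namespace LOC_

variable {E : Type} [Field E] {g : ℕ} {f : E[X]}

/-- the norm of a function with divisor `S` -/
lemma nr_eq [CharZero E] (hf : Cv g f) {F : RR f} {S : Multiset (E × E)} (h : IsDiv f F S) :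
    nr F = C (nr F).leadingCoeff * NS S := by
  obtain ⟨q, hq⟩ := NS_dvd_nr hf h.on h.mem
  have hn : nr F ≠ 0 := nr_ne_zero hf h.ne
  have hq0 : q ≠ 0 := by
    rintro rfl
    exact hn (by rw [hq, mul_zero])
  have hdeg : (nr F).natDegree = (NS S).natDegree + q.natDegree := by
    conv_lhs => rw [hq]
    exact natDegree_mul (NS_monic S).ne_zero hq0
  rw [h.deg, NS_natDegree] at hdeg
  have hq1 : q.natDegree = 0 := by omega
  obtain ⟨c, hc⟩ : ∃ c, q = C c := ⟨q.coeff 0, eq_C_of_natDegree_eq_zero hq1⟩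
  have hl : (nr F).leadingCoeff = c := by
    rw [hq, leadingCoeff_mul, (NS_monic S).leadingCoeff, one_mul, hc, leadingCoeff_C]
  rw [hl, ← hc, mul_comm]
  exact hq

/-- image of a function under an embedding of fields -/
def mp (φ : E →+* ℂ) (F : RR f) : RR (f.map φ) := ⟨F.re.map φ, F.im.map φ⟩

lemma nr_mp (φ : E →+* ℂ) (F : RR f) : nr (mp φ F) = (nr F).map φ := by
  simp only [nr, mp, Polynomial.map_sub, Polynomial.map_pow, Polynomial.map_mul]

lemma WD_mp (φ : E →+* ℂ) {F : RR f} {D : ℕ} (h : WD g F D) : WD g (mp φ F) D := by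
  refine ⟨?_, ?_⟩
  · show 2 * (F.re.map φ).natDegree ≤ D
    rw [natDegree_map]
    exact h.1
  · rcases h.2 with h0 | h1
    · left
      show F.im.map φ = 0
      rw [h0, Polynomial.map_zero]
    · right
      show 2 * (F.im.map φ).natDegree + (2 * g + 1) ≤ D
      rw [natDegree_map]
      exact h1

lemma Cv_map (φ : E →+* ℂ) (h : Cv g f) : Cv g (f.map φ) where
  monic := h.monic.map φ
  deg := by rw [natDegree_map, h.deg]
  sep := h.sep.map
  pos := h.pos

/-- the constants of the bounds of a function by its norm -/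
lemma exA (hN4N : T_N4N) (hN4A : T_N4A) {K : Type} [Field K] [NumberField K] [Algebra K E]
    {ext : AbsoluteValue K ℝ → AbsoluteValue E ℝ} (hext : Ext K ext) (hcv : Cv g f)
    (hna : ∀ v ∈ nonarchAbsVal (K := K), PB (ext v) f 1) (k : ℕ) :
    ∃ A : AbsoluteValue K ℝ → ℝ, (∀ v, 1 ≤ A v) ∧ (∀ v ∈ nonarchAbsVal (K := K), A v = 1) ∧
      ∀ v, Pl K v → ∀ (F : RR f) (M : ℝ), WD g F k → 0 ≤ M → PB (ext v) (nr F) (M ^ 2) →
        PB (ext v) F.re (A v * M) ∧ PB (ext v) F.im (A v * M) := by
  have h : ∀ v : AbsoluteValue K ℝ, ∃ a : ℝ, 1 ≤ a ∧ (v ∈ nonarchAbsVal (K := K) → a = 1) ∧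
      (Pl K v → ∀ (F : RR f) (M : ℝ), WD g F k → 0 ≤ M → PB (ext v) (nr F) (M ^ 2) →
        PB (ext v) F.re (a * M) ∧ PB (ext v) F.im (a * M)) := by
    intro v
    by_cases hv : v ∈ nonarchAbsVal (K := K)
    · refine ⟨1, le_rfl, fun _ => rfl, fun _ F M _ hM hn => ?_⟩
      rw [one_mul]
      exact hN4N E (ext v) (hext.na v hv) g f hcv (hna v hv) F M hM hn
    · by_cases hv' : v ∈ archAbsVal (K := K)
      · obtain ⟨φ, hφ⟩ := hext.ar v hv'
        obtain ⟨C0, hC0, hC⟩ := hN4A g k (f.map φ) (Cv_map φ hcv)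
        refine ⟨C0, hC0, fun h => absurd h hv, fun _ F M hW hM hn => ?_⟩
        have h1 := hC (mp φ F) M (WD_mp φ hW) hM (fun i => by
          rw [nr_mp, coeff_map, ← hφ]
          exact hn i)
        refine ⟨fun i => ?_, fun i => ?_⟩
        · have h2 := (h1 i).1
          have h3 : (mp φ F).re.coeff i = φ (F.re.coeff i) := coeff_map φ i
          rw [h3, ← hφ] at h2
          exact h2
        · have h2 := (h1 i).2
          have h3 : (mp φ F).im.coeff i = φ (F.im.coeff i) := coeff_map φ i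
          rw [h3, ← hφ] at h2
          exact h2
      · refine ⟨1, le_rfl, fun _ => rfl, fun h => ?_⟩
        rcases h with h | h
        · exact absurd h hv'
        · exact absurd h hv
  choose A h1 h2 h3 using h
  exact ⟨A, h1, h2, h3⟩

lemma log_prod (S : Multiset (E × E)) (φ : E × E → ℝ) (h : ∀ P ∈ S, 0 < φ P) :
    0 < (S.map φ).prod ∧ Real.log (S.map φ).prod = (S.map fun P => Real.log (φ P)).sum := by
  induction S using Multiset.induction_on with
  | empty => simp
  | cons P S ih =>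
    obtain ⟨h1, h2⟩ := ih fun Q hQ => h Q (Multiset.mem_cons_of_mem hQ)
    have h3 := h P (Multiset.mem_cons_self P S)
    rw [Multiset.map_cons, Multiset.prod_cons, Multiset.map_cons, Multiset.sum_cons]
    exact ⟨mul_pos h3 h1, by rw [Real.log_mul h3.ne' h1.ne', h2]⟩

lemma sum_le (w : AbsoluteValue E ℝ) (g : ℕ) (S : Multiset (E × E)) (Q : E × E) :
    (S.map fun P => le w g P Q).sum = (S.map fun P => Real.log (dd w g P Q)).sum +
      ((S.map fun P => Real.log (nm w P)).sum + Multiset.card S * Real.log (nm w Q)) / 2 := by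
  induction S using Multiset.induction_on with
  | empty => simp
  | cons P S ih =>
    rw [Multiset.map_cons, Multiset.sum_cons, Multiset.map_cons, Multiset.sum_cons,
      Multiset.map_cons, Multiset.sum_cons, Multiset.card_cons, ih]
    unfold le
    push_cast
    ring

lemma eval_NS (w : AbsoluteValue E ℝ) (S : Multiset (E × E)) (x : E) :
    w ((NS S).eval x) = (S.map fun P => w (x - P.1)).prod := by
  induction S using Multiset.induction_on with
  | empty => simp
  | cons P S ih =>
    rw [NS_cons, eval_mul, w.map_mul, ih, Multiset.map_cons, Multiset.prod_cons, eval_sub, eval_X,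
      eval_C]

lemma sum_const_add (S : Multiset (E × E)) (a : ℝ) (φ : E × E → ℝ) :
    (S.map fun P => a + φ P).sum = Multiset.card S * a + (S.map φ).sum := by
  induction S using Multiset.induction_on with
  | empty => simp
  | cons P S ih =>
    rw [Multiset.map_cons, Multiset.sum_cons, Multiset.map_cons, Multiset.sum_cons,
      Multiset.card_cons, ih]
    push_cast
    ring

lemma msum_add (S : Multiset (E × E)) (φ ψ : E × E → ℝ) :
    (S.map fun P => φ P + ψ P).sum = (S.map φ).sum + (S.map ψ).sum :=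
  Multiset.sum_map_add

lemma nm_io (w : AbsoluteValue E ℝ) (Q : E × E) : nm w (io Q) = nm w Q := rfl

end LOC_

open LOC_

theorem p_LOC (hCXF : T_CXF) (hTAME : T_TAME) (hLU : T_LU) (hL2 : T_L2) (hN4N : T_N4N)
    (hN4A : T_N4A) (hNSB : T_NSB) : T_LOC := by
  intro K E _ _ _ _ _ _ _ g θ f ext hcx k
  obtain ⟨hcv, -, hna⟩ := hCXF K E g θ f ext hcx
  obtain ⟨N, Λ, hΛFS, hT⟩ := hTAME K E g θ f ext hcx
  obtain ⟨eU, hU⟩ := hLU g N k k
  obtain ⟨e2, h2⟩ := hL2 g
  obtain ⟨eN, hN⟩ := hNSB k
  obtain ⟨A, hA1, hAna, hAp⟩ := exA hN4N hN4A hcx.ext hcv hna k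
  refine ⟨fun v => ((eU + eN + k * e2 : ℕ) : ℝ) * |Real.log (Λ v)| + |Real.log (A v)|, ?_, ?_, ?_⟩
  · refine FS.add (FS.const_mul _ ?_) ?_
    · refine hΛFS.subset fun v hv => ?_
      rw [Function.mem_support] at hv ⊢
      intro h
      apply hv
      show |Real.log (Λ v)| = 0
      have h' : Real.log (Λ v) = 0 := h
      rw [h', abs_zero]
    · have : (Function.support fun v : nonarchAbsVal (K := K) => |Real.log (A v)|) = ∅ := by
        rw [Function.support_eq_empty_iff]
        funext v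
        show |Real.log (A v)| = 0
        rw [hAna v v.2, Real.log_one, abs_zero]
      unfold FS
      rw [this]
      exact Set.finite_empty
  · intro v
    positivity
  intro v hv F S hFS hk
  set w := ext v with hw
  have hT' := hT v hv
  have hL1 : 1 ≤ Λ v := hT'.one
  have hLpos : 0 < Λ v := lt_of_lt_of_le one_pos hL1
  have hlogL : 0 ≤ Real.log (Λ v) := Real.log_nonneg hL1
  have hApos : 0 < A v := lt_of_lt_of_le one_pos (hA1 v)
  have hlogA : 0 ≤ Real.log (A v) := Real.log_nonneg (hA1 v)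
  set lc := (nr F).leadingCoeff with hlc
  have hlc0 : lc ≠ 0 := leadingCoeff_ne_zero.2 (nr_ne_zero hcv hFS.ne)
  have hwlc : 0 < w lc := w.pos hlc0
  have hnr : nr F = C lc * NS S := nr_eq hcv hFS
  obtain ⟨hPr, hPrlog⟩ := log_prod S (fun P => nm w P) (fun P _ => nm_pos w P)
  have hNSb : PB w (NS S) (Λ v ^ eN * (S.map fun P => nm w P).prod) :=
    hN E w (Λ v) hL1 hT'.add S hk
  have hMn : 0 < w lc * (Λ v ^ eN * (S.map fun P => nm w P).prod) := by positivity
  set M : ℝ := √(w lc * (Λ v ^ eN * (S.map fun P => nm w P).prod)) with hM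
  have hM0 : 0 < M := Real.sqrt_pos.2 hMn
  have hM2 : M ^ 2 = w lc * (Λ v ^ eN * (S.map fun P => nm w P).prod) := Real.sq_sqrt hMn.le
  have hlogM : Real.log M = (Real.log (w lc) + (eN * Real.log (Λ v) +
      (S.map fun P => Real.log (nm w P)).sum)) / 2 := by
    rw [hM, Real.log_sqrt hMn.le, Real.log_mul hwlc.ne' (by positivity),
      Real.log_mul (by positivity) hPr.ne', Real.log_pow, hPrlog]
  have hnrb : PB w (nr F) (M ^ 2) := by
    intro i
    rw [hnr, coeff_C_mul, w.map_mul, hM2]
    exact mul_le_mul_of_nonneg_left (hNSb i) (w.nonneg _)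
  have hWD : WD g F k := (WD_iff hcv hFS.ne k).2 (by rw [hFS.deg, hk])
  obtain ⟨hre, him⟩ := hAp v hv F M hWD hM0.le hnrb
  -- the upper bound
  have up : ∀ Q : E × E, On f Q → Q ∉ S → Real.log (w (ev F Q)) ≤ Real.log (w lc) / 2 +
      (S.map fun P => le w g P Q).sum + ((eU + eN) * Real.log (Λ v) + Real.log (A v)) := by
    intro Q hQ hQS
    have hev : ev F Q ≠ 0 := fun h => hQS (hFS.mem_of_ev hcv hQ h)
    have hX : 0 < w (ev F Q) := w.pos hev
    have hup := hU E w f (Λ v) hcv hT' S hk hFS.on F hFS.mem hWD (A v * M) hre him Q hQ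
    obtain ⟨hD, hDlog⟩ := log_prod S (fun P => dd w g P Q)
      (fun P hP => dd_pos w g (fun h => hQS (h ▸ hP)))
    have hnQ : 0 < nm w Q := nm_pos w Q
    have hsq : 0 < √(nm w Q) := Real.sqrt_pos.2 hnQ
    have h1 := Real.log_le_log hX hup
    rw [Real.log_mul (by positivity) hD.ne', Real.log_mul (by positivity) (by positivity),
      Real.log_mul (by positivity) (by positivity), Real.log_mul hApos.ne' hM0.ne', Real.log_pow,
      Real.log_pow, Real.log_sqrt hnQ.le, hDlog, hlogM] at h1
    rw [sum_le, hk]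
    have h3 : (0 : ℝ) ≤ eN * Real.log (Λ v) := by positivity
    linarith
  have hcabs : ((eU + eN + k * e2 : ℕ) : ℝ) * |Real.log (Λ v)| + |Real.log (A v)| =
      (eU + eN) * Real.log (Λ v) + Real.log (A v) + k * (e2 * Real.log (Λ v)) := by
    rw [abs_of_nonneg hlogL, abs_of_nonneg hlogA]
    push_cast
    ring
  have hk2 : (0 : ℝ) ≤ k * (e2 * Real.log (Λ v)) := by positivity
  intro Q hQ
  show (Q ∉ S → Real.log (w (ev F Q)) ≤ Real.log (w lc) / 2 +
      (S.map fun P => le w g P Q).sum +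
        (((eU + eN + k * e2 : ℕ) : ℝ) * |Real.log (Λ v)| + |Real.log (A v)|)) ∧
    ((∀ P ∈ S, P.1 ≠ Q.1) → Real.log (w lc) / 2 +
      (S.map fun P => le w g P Q).sum -
        (((eU + eN + k * e2 : ℕ) : ℝ) * |Real.log (Λ v)| + |Real.log (A v)|) ≤
        Real.log (w (ev F Q)))
  rw [hcabs]
  refine ⟨fun hQS => ?_, fun hne => ?_⟩
  · have h3 := up Q hQ hQS
    linarith
  · have hQS : Q ∉ S := fun h => hne Q h rfl
    have hioS : io Q ∉ S := fun h => hne (io Q) h rfl
    have h3 := up (io Q) hQ.io hioS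
    have hev : ev F Q ≠ 0 := fun h => hQS (hFS.mem_of_ev hcv hQ h)
    have hev' : ev F (io Q) ≠ 0 := fun h => hioS (hFS.mem_of_ev hcv hQ.io h)
    have h4 : w (ev F Q) * w (ev F (io Q)) = w lc * (S.map fun P => w (Q.1 - P.1)).prod := by
      rw [← w.map_mul, ev_mul_ev_io F hQ, hnr, eval_mul, eval_C, w.map_mul, eval_NS]
    obtain ⟨hD, hDlog⟩ := log_prod S (fun P => w (Q.1 - P.1))
      (fun P hP => w.pos (sub_ne_zero.2 (hne P hP).symm))
    have h5 : Real.log (w (ev F Q)) + Real.log (w (ev F (io Q))) =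
        Real.log (w lc) + (S.map fun P => Real.log (w (Q.1 - P.1))).sum := by
      rw [← Real.log_mul (w.pos hev).ne' (w.pos hev').ne', h4, Real.log_mul hwlc.ne' hD.ne', hDlog]
    have h6 : ∀ P ∈ S, le w g P Q + le w g P (io Q) ≤
        e2 * Real.log (Λ v) + Real.log (w (Q.1 - P.1)) := by
      intro P hP
      have h7 := (h2 E w f (Λ v) hcv hL1 hT'.add hT'.cf P Q (hFS.on P hP) hQ).2
      have hd1 : 0 < dd w g P Q := dd_pos w g (fun h => hQS (h ▸ hP))
      have hd2 : 0 < dd w g P (io Q) := dd_pos w g (fun h => hioS (h ▸ hP))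
      have hP0 : 0 < w (P.1 - Q.1) := w.pos (sub_ne_zero.2 (hne P hP))
      have hnP := nm_pos w P
      have hnQ := nm_pos w Q
      have h8 := Real.log_le_log (mul_pos hd1 hd2) h7
      rw [Real.log_mul hd1.ne' hd2.ne', Real.log_mul (by positivity) (by positivity),
        Real.log_pow, Real.log_div hP0.ne' (by positivity), Real.log_mul hnP.ne' hnQ.ne'] at h8
      have h9 : w (Q.1 - P.1) = w (P.1 - Q.1) := w.map_sub _ _
      rw [h9]
      unfold le
      rw [nm_io]
      linarith
    have h7 : (S.map fun P => le w g P Q + le w g P (io Q)).sum ≤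
        (S.map fun P => e2 * Real.log (Λ v) + Real.log (w (Q.1 - P.1))).sum :=
      Multiset.sum_map_le_sum_map _ _ h6
    rw [msum_add, sum_const_add, hk] at h7
    linarith

end Pool.Agent.HMW
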