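import Pool.Agent.HMW.Targets

set_option autoImplicit false

/-!
# LU: upper bound for the values of a function vanishing on a divisor
-/

open Polynomial

noncomputable section

namespace Pool.Agent.HMW

namespace LU_

variable {E : Type} [Field E] {f : E[X]} {g : ℕ}

/-! ### elementary bounds -/

theorem sum_bd (v : AbsoluteValue E ℝ) {Λ : ℝ} (h1 : 1 ≤ Λ)
    (ha : ∀ x y, v (x + y) ≤ Λ * max (v x) (v y)) (n : ℕ) (x : ℕ → E) {B : ℝ} (hB : 0 ≤ B)
    (h : ∀ i < n, v (x i) ≤ B) : v (∑ i ∈ Finset.range n, x i) ≤ Λ ^ n * B := by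
  induction n with
  | zero => simpa using hB
  | succ n ih =>
    rw [Finset.sum_range_succ]
    refine (ha _ _).trans ?_
    rw [pow_succ', mul_assoc]
    apply mul_le_mul_of_nonneg_left _ (by linarith)
    apply max_le
    · exact ih fun i hi => h i (by omega)
    · have h2 : (1 : ℝ) ≤ Λ ^ n := one_le_pow₀ h1
      have h3 := h n (by omega)
      nlinarith

theorem pb_nonneg {v : AbsoluteValue E ℝ} {p : E[X]} {M : ℝ} (h : PB v p M) : 0 ≤ M :=
  (v.nonneg _).trans (h 0)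

theorem pb_mono {v : AbsoluteValue E ℝ} {p : E[X]} {M M' : ℝ} (h : PB v p M) (h' : M ≤ M') :
    PB v p M' := fun i => (h i).trans h'

theorem pb_add {v : AbsoluteValue E ℝ} {Λ : ℝ} (h1 : 1 ≤ Λ)
    (ha : ∀ x y, v (x + y) ≤ Λ * max (v x) (v y)) {p q : E[X]} {M : ℝ}
    (hp : PB v p M) (hq : PB v q M) : PB v (p + q) (Λ * M) := by
  intro i
  rw [coeff_add]
  refine (ha _ _).trans ?_
  exact mul_le_mul_of_nonneg_left (max_le (hp i) (hq i)) (by linarith)

theorem pb_C {v : AbsoluteValue E ℝ} {p : E[X]} {M : ℝ} (hp : PB v p M) (c : E) :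
    PB v (C c * p) (v c * M) := by
  intro i
  rw [coeff_C_mul, map_mul]
  exact mul_le_mul_of_nonneg_left (hp i) (v.nonneg _)

theorem pb_X {v : AbsoluteValue E ℝ} {p : E[X]} {M : ℝ} (hp : PB v p M) (n : ℕ) :
    PB v (X ^ n * p) M := by
  intro i
  rw [coeff_X_pow_mul']
  split_ifs
  · exact hp _
  · rw [map_zero]; exact pb_nonneg hp

theorem pb_mul {v : AbsoluteValue E ℝ} {Λ : ℝ} (h1 : 1 ≤ Λ)
    (ha : ∀ x y, v (x + y) ≤ Λ * max (v x) (v y)) {p q : E[X]} {M : ℝ} {n : ℕ}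
    (hd : p.natDegree < n) (hp : PB v p Λ) (hq : PB v q M) : PB v (p * q) (Λ ^ (n + 1) * M) := by
  intro i
  have hM := pb_nonneg hq
  have e : p * q = ∑ j ∈ Finset.range n, (C (p.coeff j) * (X ^ j * q)) := by
    conv_lhs => rw [as_sum_range' p n hd, Finset.sum_mul]
    apply Finset.sum_congr rfl
    intro j _
    rw [← C_mul_X_pow_eq_monomial, mul_assoc]
  rw [e, finsetSum_coeff, pow_succ, mul_assoc]
  apply sum_bd v h1 ha n _ (by positivity)
  intro j _
  rw [coeff_C_mul, map_mul]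
  exact mul_le_mul (hp j) (pb_X hq j i) (v.nonneg _) (by linarith)

/-- size of the second coordinate -/
theorem y_bd (hEV : T_EVB) (g : ℕ) : ∃ e : ℕ, ∀ (E : Type) [Field E] (v : AbsoluteValue E ℝ)
    (f : E[X]) (Λ : ℝ), Cv g f → 1 ≤ Λ → (∀ x y, v (x + y) ≤ Λ * max (v x) (v y)) →
    PB v f Λ → ∀ P : E × E, On f P →
    v P.2 ≤ Λ ^ e * Real.sqrt (nm v P) ^ (2 * g + 1) ∧ v P.2 ≤ Λ ^ e * nm v P ^ (g + 1) := by
  obtain ⟨e, he⟩ := hEV (2 * g + 1)
  refine ⟨e + 1, fun E _ v f Λ hf h1 ha hc P hP => ?_⟩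
  have hn1 := one_le_nm v P
  have hs : Real.sqrt (nm v P) ^ 2 = nm v P := Real.sq_sqrt (by linarith)
  have hs1 : 1 ≤ Real.sqrt (nm v P) := by
    rw [Real.one_le_sqrt]; exact hn1
  have h2 : v P.2 ≤ Λ ^ (e + 1) * Real.sqrt (nm v P) ^ (2 * g + 1) := by
    have h3 := he E v Λ h1 ha f Λ P.1 hf.deg.le hc
    rw [← (show P.2 ^ 2 = f.eval P.1 from hP), map_pow, hf.deg] at h3
    have h4 : v P.2 ^ 2 ≤ (Λ ^ (e + 1) * Real.sqrt (nm v P) ^ (2 * g + 1)) ^ 2 := by
      refine h3.trans ?_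
      rw [mul_pow, ← pow_mul (Real.sqrt (nm v P)), mul_comm (2 * g + 1) 2,
        pow_mul (Real.sqrt (nm v P)) 2, hs, ← pow_succ]
      have h5 : Λ ^ (e + 1) ≤ (Λ ^ (e + 1)) ^ 2 := by
        have : (1 : ℝ) ≤ Λ ^ (e + 1) := one_le_pow₀ h1
        nlinarith
      exact mul_le_mul_of_nonneg_right h5 (by positivity)
    exact le_of_sq_le_sq h4 (by positivity)
  refine ⟨h2, h2.trans ?_⟩
  apply mul_le_mul_of_nonneg_left _ (by positivity)
  calc Real.sqrt (nm v P) ^ (2 * g + 1) ≤ Real.sqrt (nm v P) ^ (2 * (g + 1)) :=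
        pow_le_pow_right₀ hs1 (by omega)
    _ = nm v P ^ (g + 1) := by rw [pow_mul, hs]

/-- the case of the empty divisor -/
theorem base (hEV : T_EVB) (g D : ℕ) : ∃ e : ℕ, ∀ (E : Type) [Field E] (v : AbsoluteValue E ℝ)
    (f : E[X]) (Λ : ℝ), Cv g f → 1 ≤ Λ → (∀ x y, v (x + y) ≤ Λ * max (v x) (v y)) →
    PB v f Λ → ∀ F : RR f, WD g F D → ∀ M : ℝ, PB v F.re M → PB v F.im M →
    ∀ Q : E × E, On f Q → v (ev F Q) ≤ Λ ^ e * M * Real.sqrt (nm v Q) ^ D := by
  obtain ⟨e, he⟩ := hEV D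
  obtain ⟨e', he'⟩ := y_bd hEV g
  refine ⟨e + e' + 1, fun E _ v f Λ hf h1 ha hc F hD M hre him Q hQ => ?_⟩
  have hM := pb_nonneg hre
  have hn1 := one_le_nm v Q
  have hs : Real.sqrt (nm v Q) ^ 2 = nm v Q := Real.sq_sqrt (by linarith)
  have hs1 : 1 ≤ Real.sqrt (nm v Q) := by
    rw [Real.one_le_sqrt]; exact hn1
  have hy := (he' E v f Λ hf h1 ha hc Q hQ).1
  set s := Real.sqrt (nm v Q) with hsdef
  have hΛe : (1 : ℝ) ≤ Λ ^ e := one_le_pow₀ h1
  have hΛe' : (1 : ℝ) ≤ Λ ^ e' := one_le_pow₀ h1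
  have hre2 : v (F.re.eval Q.1) ≤ Λ ^ (e + e') * M * s ^ D := by
    have h3 := he E v Λ h1 ha F.re M Q.1 (by have := hD.1; omega) hre
    refine h3.trans ?_
    have h4 : max 1 (v Q.1) ^ F.re.natDegree ≤ s ^ D := by
      calc max 1 (v Q.1) ^ F.re.natDegree = s ^ (2 * F.re.natDegree) := by
            rw [pow_mul, hs]; rfl
        _ ≤ s ^ D := pow_le_pow_right₀ hs1 hD.1
    have h5 : Λ ^ e * M ≤ Λ ^ (e + e') * M := by
      apply mul_le_mul_of_nonneg_right _ hM
      exact pow_le_pow_right₀ h1 (by omega)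
    exact mul_le_mul h5 h4 (by positivity) (by positivity)
  have him2 : v (F.im.eval Q.1 * Q.2) ≤ Λ ^ (e + e') * M * s ^ D := by
    rcases hD.2 with h0 | h0
    · rw [h0, eval_zero, zero_mul, map_zero]
      positivity
    · have h3 := he E v Λ h1 ha F.im M Q.1 (by omega) him
      rw [map_mul]
      have h4 : max 1 (v Q.1) ^ F.im.natDegree = s ^ (2 * F.im.natDegree) := by
        rw [pow_mul, hs]; rfl
      rw [h4] at h3
      calc v (F.im.eval Q.1) * v Q.2
          ≤ (Λ ^ e * M * s ^ (2 * F.im.natDegree)) * (Λ ^ e' * s ^ (2 * g + 1)) :=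
            mul_le_mul h3 hy (v.nonneg _) (by positivity)
        _ = Λ ^ (e + e') * M * s ^ (2 * F.im.natDegree + (2 * g + 1)) := by
            rw [pow_add, pow_add]; ring
        _ ≤ Λ ^ (e + e') * M * s ^ D := by
            apply mul_le_mul_of_nonneg_left _ (by positivity)
            exact pow_le_pow_right₀ hs1 h0
  unfold ev
  calc v (F.re.eval Q.1 + F.im.eval Q.1 * Q.2)
      ≤ Λ * max (v (F.re.eval Q.1)) (v (F.im.eval Q.1 * Q.2)) := ha _ _
    _ ≤ Λ * (Λ ^ (e + e') * M * s ^ D) :=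
        mul_le_mul_of_nonneg_left (max_le hre2 him2) (by linarith)
    _ = Λ ^ (e + e' + 1) * M * s ^ D := by rw [pow_succ]; ring

/-! ### the polynomials behind `DD` and `DT` -/

theorem dd_poly [CharZero E] (hDDI : T_DDI) (p : E[X]) (y : E) :
    ∃ r : E[X], (X - C y) * r = p - C (p.eval y) ∧ ∀ x, r.eval x = DD p x y := by
  refine ⟨p.sum fun k c => C c * ∑ i ∈ Finset.range k, X ^ i * C y ^ (k - 1 - i), ?_, ?_⟩
  · apply Polynomial.funext
    intro x
    have h := (hDDI E).1 p x y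
    rw [← (by simp [Polynomial.sum_def, eval_finsetSum, DD] :
      (p.sum fun k c => C c * ∑ i ∈ Finset.range k, X ^ i * C y ^ (k - 1 - i)).eval x =
        DD p x y)] at h
    simpa using h
  · intro x
    simp [Polynomial.sum_def, eval_finsetSum, DD]

theorem dt_poly [CharZero E] (hDDI : T_DDI) (g : ℕ) (p : E[X]) (hp : p.natDegree ≤ 2 * g + 1)
    (y : E) : ∃ r : E[X], (X - C y) * r = p * C (y ^ (2 * g + 2)) -
      C (p.eval y) * X ^ (2 * g + 2) ∧ ∀ x, r.eval x = DT g p x y := by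
  have hev : ∀ x, (- p.sum fun k c => C c * (X * C y) ^ k *
      ∑ i ∈ Finset.range (2 * g + 2 - k), X ^ i * C y ^ (2 * g + 1 - k - i)).eval x =
        DT g p x y := by
    intro x
    simp only [Polynomial.sum_def, eval_neg, eval_finsetSum, eval_mul, eval_C, eval_pow, eval_X,
      DT]
  refine ⟨_, ?_, hev⟩
  apply Polynomial.funext
  intro x
  have h := (hDDI E).2.1 g p x y hp
  rw [eval_mul, hev]
  simpa using h

/-! ### removing one point of the divisor -/

theorem step (hDVN : T_DVN) (hEV : T_EVB) (g D : ℕ) : ∃ e : ℕ, ∀ (E : Type) [Field E]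
    [CharZero E] (v : AbsoluteValue E ℝ) (f : E[X]) (Λ : ℝ), Cv g f → 1 ≤ Λ →
    (∀ x y, v (x + y) ≤ Λ * max (v x) (v y)) → PB v f Λ →
    ∀ (P : E × E) (S : Multiset (E × E)), On f P → ∀ F ∈ IS f (P ::ₘ S),
    F ≠ 0 → WD g F D → ∀ M : ℝ, PB v F.re M → PB v F.im M → ∀ j ≤ g + 1,
    ∃ G ∈ IS f S, (⟨X - C P.1, 0⟩ : RR f) * G = ⟨C P.2 * X ^ j, C (P.1 ^ j)⟩ * F ∧
      WD g G (D + 2 * g) ∧ PB v G.re (Λ ^ e * M * nm v P ^ g) ∧
      PB v G.im (Λ ^ e * M * nm v P ^ g) := by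
  obtain ⟨e, he⟩ := hDVN (D + 2 * g)
  obtain ⟨e', he'⟩ := y_bd hEV g
  refine ⟨e + (1 + (e' + (2 * g + 3))), fun E _ _ v f Λ hf h1 ha hc P S hP F hF hF0 hD M hre him
    j hj => ?_⟩
  have hdom := isDomain hf
  have hM := pb_nonneg hre
  have hn1 := one_le_nm v P
  have hy := (he' E v f Λ hf h1 ha hc P hP).2
  set H : RR f := ⟨C P.2 * X ^ j, C (P.1 ^ j)⟩ with hH
  have hHm : H ∈ mP f (io P) := by
    rw [mem_mP_iff hP.io]
    simp only [ev, hH, io_fst, io_snd, eval_mul, eval_C, eval_pow, eval_X]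
    ring
  have hmem : H * F ∈ Ideal.span {(⟨X - C P.1, 0⟩ : RR f)} * IS f S := by
    rw [← mP_mul_mP_io hf hP]
    have h2 : H * F ∈ mP f (io P) * IS f (P ::ₘ S) := Ideal.mul_mem_mul hHm hF
    rw [IS_cons] at h2
    rwa [mul_comm (mP f P), mul_assoc]
  obtain ⟨G, hG, hGe⟩ := Ideal.mem_span_singleton_mul.1 hmem
  -- degree
  have hWD : WD g G (D + 2 * g) := by
    by_cases hG0 : G = 0
    · subst hG0
      exact ⟨by simp, Or.inl (by simp)⟩
    · rw [WD_iff hf hG0]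
      have hFd := (WD_iff hf hF0 D).1 hD
      have hn := congrArg nr hGe
      rw [nr_mul, nr_mul, nr_C] at hn
      have hGn := nr_ne_zero hf hG0
      have hX : (X - C P.1 : E[X]) ≠ 0 := X_sub_C_ne_zero _
      have hne : (X - C P.1) ^ 2 * nr G ≠ 0 := mul_ne_zero (pow_ne_zero 2 hX) hGn
      have hHn : nr H ≠ 0 := by
        intro h0
        rw [hn, h0, zero_mul] at hne
        exact hne rfl
      have hd := congrArg natDegree hn
      rw [natDegree_mul (pow_ne_zero 2 hX) hGn, natDegree_mul hHn (nr_ne_zero hf hF0),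
        natDegree_pow, natDegree_X_sub_C] at hd
      have hHd : (nr H).natDegree ≤ 2 * g + 2 := by
        simp only [nr, hH]
        refine (natDegree_sub_le _ _).trans (max_le ?_ ?_)
        · rw [natDegree_pow]
          have := (natDegree_C_mul_le P.2 (X ^ j : E[X]))
          rw [natDegree_X_pow] at this
          omega
        · rw [← C_pow]
          refine (natDegree_mul_C_le _ _).trans ?_
          rw [hf.deg]
          omega
      omega
  -- coefficients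
  have hpj : v (P.1 ^ j) ≤ nm v P ^ (g + 1) := by
    rw [map_pow]
    calc v P.1 ^ j ≤ nm v P ^ j := pow_le_pow_left₀ (v.nonneg _) (le_max_right _ _) j
      _ ≤ nm v P ^ (g + 1) := pow_le_pow_right₀ hn1 hj
  set B : ℝ := Λ ^ (e' + (2 * g + 3)) * (nm v P ^ (g + 1) * M) with hB
  have hB0 : 0 ≤ B := by positivity
  have hb1 : ∀ A : E[X], PB v A M → PB v (C P.2 * X ^ j * A) B := by
    intro A hA
    rw [mul_assoc]
    apply pb_mono (pb_C (pb_X hA j) P.2)
    calc v P.2 * M ≤ (Λ ^ e' * nm v P ^ (g + 1)) * M := mul_le_mul_of_nonneg_right hy hM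
      _ = Λ ^ e' * (nm v P ^ (g + 1) * M) := by ring
      _ ≤ B := by
          apply mul_le_mul_of_nonneg_right _ (by positivity)
          exact pow_le_pow_right₀ h1 (by omega)
  have hb2 : ∀ A : E[X], PB v A M → PB v (C (P.1 ^ j) * A) (nm v P ^ (g + 1) * M) := by
    intro A hA
    exact pb_mono (pb_C hA _) (mul_le_mul_of_nonneg_right hpj hM)
  have hre' := congrArg QuadraticAlgebra.re hGe
  have him' := congrArg QuadraticAlgebra.im hGe
  rw [re_mul', re_mul'] at hre'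
  rw [im_mul', im_mul'] at him'
  simp only [hH, zero_mul, mul_zero, add_zero] at hre' him'
  have hPre : PB v ((X - C P.1) * G.re) (Λ * B) := by
    rw [hre']
    apply pb_add h1 ha (hb1 _ hre)
    apply pb_mono (pb_mul h1 ha (n := 2 * g + 2) (by rw [hf.deg]; omega) hc (hb2 _ him))
    apply mul_le_mul_of_nonneg_right _ (by positivity)
    exact pow_le_pow_right₀ h1 (by omega)
  have hPim : PB v ((X - C P.1) * G.im) (Λ * B) := by
    rw [him']
    apply pb_add h1 ha (hb1 _ him)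
    apply pb_mono (hb2 _ hre)
    have h2 : (1 : ℝ) ≤ Λ ^ (e' + (2 * g + 3)) := one_le_pow₀ h1
    have h3 : 0 ≤ nm v P ^ (g + 1) * M := by positivity
    rw [hB]
    nlinarith
  have hfin : Λ ^ e * (Λ * B) / max 1 (v P.1) =
      Λ ^ (e + (1 + (e' + (2 * g + 3)))) * M * nm v P ^ g := by
    have hnm : max 1 (v P.1) = nm v P := rfl
    rw [hnm, hB, div_eq_iff (by positivity), pow_add Λ e, pow_add Λ 1, pow_succ (nm v P) g]
    ring
  refine ⟨G, hG, hGe, hWD, ?_, ?_⟩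
  · have := he E v Λ h1 ha P.1 G.re (Λ * B) (by have := hWD.1; omega) hPre
    rwa [hfin] at this
  · have hdi : G.im.natDegree ≤ D + 2 * g := by
      rcases hWD.2 with h0 | h0
      · rw [h0]; simp
      · omega
    have := he E v Λ h1 ha P.1 G.im (Λ * B) hdi hPim
    rwa [hfin] at this

/-! ### the two ways to use the functions `G` -/

theorem combA {L N δ B V W h τ : ℝ} (g : ℕ) (hL : 0 ≤ L) (hN : 0 < N) (hV : 0 ≤ V)
    (hW0 : 0 ≤ W) (hδ : 0 ≤ δ) (e1 : V * h = τ * W) (hτ : τ ≤ N * δ) (hW : W ≤ B * N ^ g)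
    (hk : N ^ (g + 1) ≤ L * h) : V ≤ L * δ * B := by
  have h1 : V * N ^ (g + 1) ≤ (L * δ * B) * N ^ (g + 1) := by
    calc V * N ^ (g + 1) ≤ V * (L * h) := mul_le_mul_of_nonneg_left hk hV
      _ = L * (τ * W) := by rw [← e1]; ring
      _ ≤ L * ((N * δ) * (B * N ^ g)) := by
          apply mul_le_mul_of_nonneg_left _ hL
          exact mul_le_mul hτ hW hW0 (by positivity)
      _ = (L * δ * B) * N ^ (g + 1) := by ring
  exact le_of_mul_le_mul_right h1 (by positivity)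

theorem combB {L N δ B V W h' r : ℝ} (g : ℕ) (hL : 0 ≤ L) (hN : 0 < N) (hV : 0 ≤ V)
    (hh0 : 0 ≤ h') (hB : 0 ≤ B) (e3 : W * h' = V * r) (hh : h' ≤ N ^ (g + 1) * δ)
    (hW : W ≤ B * N ^ g) (hk : N ^ (2 * g + 1) ≤ L * r) : V ≤ L * δ * B := by
  have h1 : V * N ^ (2 * g + 1) ≤ (L * δ * B) * N ^ (2 * g + 1) := by
    calc V * N ^ (2 * g + 1) ≤ V * (L * r) := mul_le_mul_of_nonneg_left hk hV
      _ = L * (W * h') := by rw [e3]; ring
      _ ≤ L * ((B * N ^ g) * (N ^ (g + 1) * δ)) := by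
          apply mul_le_mul_of_nonneg_left _ hL
          exact mul_le_mul hW hh hh0 (by positivity)
      _ = (L * δ * B) * N ^ (2 * g + 1) := by ring
  exact le_of_mul_le_mul_right h1 (by positivity)

/-- the identities at `Q` -/
theorem idents (hf : Cv g f) {P Q : E × E} (hQ : On f Q)
    {F G : RR f} (j : ℕ) (r : E[X])
    (hr : (X - C P.1) * r = f * C (P.1 ^ j) ^ 2 - (C P.2 * X ^ j) ^ 2)
    (hG : (⟨X - C P.1, 0⟩ : RR f) * G = ⟨C P.2 * X ^ j, C (P.1 ^ j)⟩ * F) :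
    ev F Q * (P.2 * Q.1 ^ j + P.1 ^ j * Q.2) = (Q.1 - P.1) * ev G Q ∧
      ev G Q * (P.1 ^ j * Q.2 - P.2 * Q.1 ^ j) = ev F Q * r.eval Q.1 := by
  have hdom := isDomain hf
  constructor
  · have h1 := congrArg (fun Z : RR f => ev Z Q) hG
    simp only [ev_mul _ _ hQ] at h1
    simp only [ev, eval_sub, eval_X, eval_C, eval_zero, zero_mul, add_zero, eval_mul,
      eval_pow] at h1 ⊢
    linear_combination -h1
  · have h1 : G * ⟨-(C P.2 * X ^ j), C (P.1 ^ j)⟩ = F * ⟨r, 0⟩ := by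
      have hX : (⟨X - C P.1, 0⟩ : RR f) ≠ 0 := by
        intro h
        exact X_sub_C_ne_zero P.1 (congrArg QuadraticAlgebra.re h)
      apply mul_left_cancel₀ hX
      have h2 : (⟨C P.2 * X ^ j, C (P.1 ^ j)⟩ : RR f) * ⟨-(C P.2 * X ^ j), C (P.1 ^ j)⟩ =
          ⟨X - C P.1, 0⟩ * ⟨r, 0⟩ := by
        ext1
        · rw [re_mul', re_mul']
          simp only [mul_zero, add_zero]
          rw [hr]
          ring
        · rw [im_mul', im_mul']
          simp only [mul_zero, zero_mul, add_zero]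
          ring
      calc (⟨X - C P.1, 0⟩ : RR f) * (G * ⟨-(C P.2 * X ^ j), C (P.1 ^ j)⟩)
          = ((⟨X - C P.1, 0⟩ : RR f) * G) * ⟨-(C P.2 * X ^ j), C (P.1 ^ j)⟩ := by ring
        _ = F * ((⟨C P.2 * X ^ j, C (P.1 ^ j)⟩ : RR f) * ⟨-(C P.2 * X ^ j), C (P.1 ^ j)⟩) := by
            rw [hG]; ring
        _ = (⟨X - C P.1, 0⟩ : RR f) * (F * ⟨r, 0⟩) := by rw [h2]; ring
    have h3 := congrArg (fun Z : RR f => ev Z Q) h1
    simp only [ev_mul _ _ hQ] at h3
    simp only [ev, eval_zero, zero_mul, add_zero, eval_mul, eval_neg, eval_C,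
      eval_pow, eval_X] at h3 ⊢
    linear_combination h3

theorem dd_bounds (v : AbsoluteValue E ℝ) (g : ℕ) (P Q : E × E) :
    v (Q.1 - P.1) ≤ (nm v Q * nm v P) * dd v g P Q ∧
    v (Q.2 - P.2) ≤ (nm v Q * nm v P) ^ (g + 1) * dd v g P Q ∧
    v (P.1 ^ (g + 1) * Q.2 - P.2 * Q.1 ^ (g + 1)) ≤
      (nm v Q * nm v P) ^ (g + 1) * dd v g P Q := by
  have hN : 0 < nm v Q * nm v P := mul_pos (nm_pos v Q) (nm_pos v P)
  rw [dd_comm v g P Q]
  refine ⟨?_, ?_, ?_⟩
  · rw [← div_le_iff₀' hN]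
    exact le_max_left _ _
  · rw [← div_le_iff₀' (by positivity)]
    exact le_max_of_le_right (le_max_left _ _)
  · rw [← div_le_iff₀' (by positivity), mul_comm (P.1 ^ (g + 1))]
    exact le_max_of_le_right (le_max_right _ _)

end LU_

open LU_ in
/-- LU: upper bound for the values of a function vanishing on `S`. -/
theorem p_LU : T_DVN → T_EVB → T_DDI → T_KEY → T_LU := by
  intro hDVN hEV hDDI hKEY g N k
  induction k with
  | zero =>
    intro D
    obtain ⟨e, he⟩ := base hEV g D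
    refine ⟨e, fun E _ _ v f Λ hf hT S hS hSo F hF hD M hre him Q hQ => ?_⟩
    rw [Multiset.card_eq_zero.1 hS]
    simpa using he E v f Λ hf hT.one hT.add hT.cf F hD M hre him Q hQ
  | succ k ih =>
    intro D
    obtain ⟨eI, hI⟩ := ih D
    obtain ⟨eG, hG⟩ := ih (D + 2 * g)
    obtain ⟨eS, hS⟩ := step hDVN hEV g D
    obtain ⟨eK, hK⟩ := hKEY g N
    refine ⟨eK + (eI + (eG + eS)), fun E _ _ v f Λ hf hT S₀ hcard hSo F hF hD M hre him Q hQ => ?_⟩
    obtain ⟨P, S, rfl⟩ : ∃ P S, S₀ = P ::ₘ S := by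
      obtain ⟨P, hP⟩ := Multiset.card_pos_iff_exists_mem.1 (by rw [hcard]; omega)
      obtain ⟨S, hS⟩ := Multiset.exists_cons_of_mem hP
      exact ⟨P, S, hS⟩
    have hcS : Multiset.card S = k := by
      rw [Multiset.card_cons] at hcard
      omega
    have hP : On f P := hSo P (Multiset.mem_cons_self P S)
    have hSo' : OnM f S := hSo.of_le (Multiset.le_cons_self S P)
    have h1 := hT.one
    have hM := pb_nonneg hre
    rw [Multiset.map_cons, Multiset.prod_cons]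
    set π : ℝ := (S.map fun P => dd v g P Q).prod with hπ
    have hπ0 : 0 ≤ π := by
      rw [hπ]
      apply Multiset.prod_nonneg
      intro a ha
      obtain ⟨R, _, rfl⟩ := Multiset.mem_map.1 ha
      exact dd_nonneg v g R Q
    have hδ0 : 0 ≤ dd v g P Q := dd_nonneg v g P Q
    have hqn := one_le_nm v Q
    have hpn := one_le_nm v P
    have hs : Real.sqrt (nm v Q) ^ 2 = nm v Q := Real.sq_sqrt (by linarith)
    have hs0 : 0 ≤ Real.sqrt (nm v Q) := Real.sqrt_nonneg _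
    by_cases hF0 : F = 0
    · subst hF0
      have : ev (0 : RR f) Q = 0 := by simp [ev]
      rw [this, map_zero]
      positivity
    -- the common bound
    set s := Real.sqrt (nm v Q) with hsdef
    set B : ℝ := Λ ^ (eI + (eG + eS)) * (M * s ^ D * π) with hB
    have hB0 : 0 ≤ B := by positivity
    have hgoal : Λ ^ (eK + (eI + (eG + eS))) * M * s ^ D * (dd v g P Q * π) =
        Λ ^ eK * dd v g P Q * B := by
      rw [hB, pow_add Λ eK]; ring
    rw [hgoal]
    have hL : 0 ≤ Λ ^ eK := by positivity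
    -- values of the functions `G`
    have hval : ∀ j ≤ g + 1, ∃ G : RR f,
        (⟨X - C P.1, 0⟩ : RR f) * G = ⟨C P.2 * X ^ j, C (P.1 ^ j)⟩ * F ∧
          v (ev G Q) ≤ B * (nm v Q * nm v P) ^ g := by
      intro j hj
      obtain ⟨G, hGm, hGe, hGW, hGr, hGi⟩ := hS E v f Λ hf h1 hT.add hT.cf P S hP F hF hF0 hD M
        hre him j hj
      refine ⟨G, hGe, ?_⟩
      refine (hG E v f Λ hf hT S hcS hSo' G hGm hGW _ hGr hGi Q hQ).trans ?_
      calc Λ ^ eG * (Λ ^ eS * M * nm v P ^ g) * s ^ (D + 2 * g) * π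
          = Λ ^ (eG + eS) * (M * s ^ D * π) * (nm v Q * nm v P) ^ g := by
            rw [pow_add s D, pow_mul s 2 g, hs, mul_pow, pow_add Λ eG]; ring
        _ ≤ B * (nm v Q * nm v P) ^ g := by
            apply mul_le_mul_of_nonneg_right _ (by positivity)
            apply mul_le_mul_of_nonneg_right _ (by positivity)
            exact pow_le_pow_right₀ h1 (by omega)
    obtain ⟨b1, b2, b3⟩ := dd_bounds v g P Q
    set Nn : ℝ := nm v Q * nm v P with hNn
    have hN : 0 < Nn := mul_pos (nm_pos v Q) (nm_pos v P)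
    have hyP : f.eval P.1 = P.2 ^ 2 := hP.symm
    -- the functions for `j = 0` and `j = g + 1`
    obtain ⟨G0, hG0e, hG0v⟩ := hval 0 (by omega)
    obtain ⟨G1, hG1e, hG1v⟩ := hval (g + 1) le_rfl
    obtain ⟨r0, hr0, hr0e⟩ := dd_poly hDDI f P.1
    obtain ⟨r1, hr1, hr1e⟩ := dt_poly hDDI g f hf.deg.le P.1
    obtain ⟨i1, i3⟩ := idents hf hQ 0 r0 (by
      rw [hr0, hyP]; simp) hG0e
    obtain ⟨i2, i4⟩ := idents hf hQ (g + 1) r1 (by
      rw [hr1, hyP]
      simp only [C_pow]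
      ring) hG1e
    rw [hr0e] at i3
    rw [hr1e] at i4
    simp only [pow_zero, mul_one, one_mul] at i1 i3
    have j1 : v (ev F Q) * v (Q.2 + P.2) = v (Q.1 - P.1) * v (ev G0 Q) := by
      rw [← map_mul, ← map_mul, ← i1, add_comm Q.2]
    have j2 : v (ev F Q) * v (Q.2 * P.1 ^ (g + 1) + P.2 * Q.1 ^ (g + 1)) =
        v (Q.1 - P.1) * v (ev G1 Q) := by
      rw [← map_mul, ← map_mul, ← i2]
      congr 2
      ring
    have j3 : v (ev G0 Q) * v (Q.2 - P.2) = v (ev F Q) * v (DD f Q.1 P.1) := by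
      rw [← map_mul, ← map_mul, ← i3]
    have j4 : v (ev G1 Q) * v (P.1 ^ (g + 1) * Q.2 - P.2 * Q.1 ^ (g + 1)) =
        v (ev F Q) * v (DT g f Q.1 P.1) := by
      rw [← map_mul, ← map_mul, ← i4]
    have hkey := hK E v f Λ hf hT Q P hQ hP
    rw [← hNn, dd_comm v g Q P] at hkey
    have hcases : ∀ a b : ℝ, 1 ≤ Λ ^ eK * max a b → 1 ≤ Λ ^ eK * a ∨ 1 ≤ Λ ^ eK * b := by
      intro a b h
      rcases max_choice a b with h2 | h2
      · left; rwa [h2] at h
      · right; rwa [h2] at h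
    have hdiv : ∀ (a : ℝ) (n : ℕ), 1 ≤ Λ ^ eK * (a / Nn ^ n) → Nn ^ n ≤ Λ ^ eK * a := by
      intro a n h
      rw [← mul_div_assoc, le_div_iff₀ (by positivity), one_mul] at h
      exact h
    rcases hcases _ _ hkey with h | h
    · -- the distance is large
      have h2 := hI E v f Λ hf hT S hcS hSo' F
        (IS_le_of_le (Multiset.le_cons_self S P) hF) hD M hre him Q hQ
      rw [← hsdef, ← hπ] at h2
      have h3 : Λ ^ eI * M * s ^ D * π ≤ B := by
        rw [hB]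
        have : Λ ^ eI ≤ Λ ^ (eI + (eG + eS)) := pow_le_pow_right₀ h1 (by omega)
        calc Λ ^ eI * M * s ^ D * π = Λ ^ eI * (M * s ^ D * π) := by ring
          _ ≤ _ := mul_le_mul_of_nonneg_right this (by positivity)
      calc v (ev F Q) ≤ B := h2.trans h3
        _ = 1 * B := (one_mul B).symm
        _ ≤ Λ ^ eK * dd v g P Q * B := mul_le_mul_of_nonneg_right h hB0
    · rcases hcases _ _ h with h | h
      · rcases hcases _ _ h with h | h
        · exact combA g hL hN (v.nonneg _) (v.nonneg _) hδ0 j1 b1 hG0v (hdiv _ _ h)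
        · exact combA g hL hN (v.nonneg _) (v.nonneg _) hδ0 j2 b1 hG1v (hdiv _ _ h)
      · rcases hcases _ _ h with h | h
        · exact combB g hL hN (v.nonneg _) (v.nonneg _) hB0 j3 b2 hG0v (hdiv _ _ h)
        · exact combB g hL hN (v.nonneg _) (v.nonneg _) hB0 j4 b3 hG1v (hdiv _ _ h)

end Pool.Agent.HMW
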