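import Pool.Agent.HMW.Targets

set_option autoImplicit false
set_option linter.unusedVariables false
set_option linter.unusedSectionVars false

/-!
# MP_c076ed_nt, MOV: moving lemma
-/

open Polynomial

noncomputable section

namespace Pool.Agent.HMW

/-- MOV: moving lemma. -/
theorem p_MOV : T_KR2 → T_MOV := by
  intro hKR2 K E _ _ _ _ _ _ _ g f hf hK S T hS
  obtain ⟨F, hF0, hFK, hFS, hWD, hT⟩ := hKR2 K E g f hf hK S T hS
  obtain ⟨S', hd⟩ := exists_isDiv hf hS.1 hFS hF0
  have hMK : MK K f (S + S') := hd.MK hf hK hFK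
  refine ⟨S', ?_, ⟨F, hFK, hd⟩, ?_, ?_⟩
  · rw [add_comm] at hMK
    exact hMK.of_add hS
  · have h1 := (WD_iff hf hF0 _).1 hWD
    rw [hd.deg, Multiset.card_add] at h1
    have h2 : (2 * g + 1) * Multiset.card S = 2 * g * Multiset.card S + Multiset.card S := by ring
    omega
  · intro Q hQ hQS
    apply hT Q hQ (hd.on Q (Multiset.mem_add.2 (Or.inr hQS)))
    obtain ⟨U, rfl⟩ := Multiset.exists_cons_of_mem hQS
    have h3 : Q ::ₘ S ≤ S + Q ::ₘ U := by
      rw [Multiset.add_cons, Multiset.cons_le_cons_iff]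
      exact Multiset.le_add_right S U
    exact IS_le_of_le h3 hd.mem

end Pool.Agent.HMW
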