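import Pool.Agent.HMW.Targets

set_option autoImplicit false

/-!
# N4A: a function is bounded by its norm (complex case)

The space of pairs of polynomials of bounded degree is finite dimensional; the map to the
coefficients of the norm is continuous, homogeneous of degree two and has no zero on the unit
sphere, so it is bounded below there.
-/

open Polynomial

noncomputable section

namespace Pool.Agent.HMW.N4A_

/-- the polynomial with the given coefficients -/
def pol {n : ℕ} (a : Fin n → ℂ) : ℂ[X] := ∑ i, C (a i) * X ^ (i : ℕ)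

theorem coeff_pol {n : ℕ} (a : Fin n → ℂ) (k : ℕ) :
    (pol a).coeff k = if h : k < n then a ⟨k, h⟩ else 0 := by
  unfold pol
  simp only [finset_sum_coeff, coeff_C_mul, coeff_X_pow]
  split_ifs with h
  · rw [Finset.sum_eq_single (⟨k, h⟩ : Fin n)]
    · simp
    · intro b _ hb
      have : k ≠ (b : ℕ) := fun e => hb (Fin.ext e.symm)
      simp [this]
    · simp
  · apply Finset.sum_eq_zero
    intro b _
    have : k ≠ (b : ℕ) := fun e => h (e ▸ b.2)
    simp [this]

theorem pol_smul {n : ℕ} (c : ℂ) (a : Fin n → ℂ) : pol (c • a) = C c * pol a := by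
  ext k
  rw [coeff_C_mul, coeff_pol, coeff_pol]
  split_ifs <;> simp

theorem pol_coeff {n : ℕ} (p : ℂ[X]) (h : p.natDegree < n) :
    pol (fun i : Fin n => p.coeff i) = p := by
  ext k
  rw [coeff_pol]
  split_ifs with hk
  · rfl
  · rw [coeff_eq_zero_of_natDegree_lt (by omega)]

theorem natDegree_pol {n : ℕ} (a : Fin n → ℂ) : (pol a).natDegree ≤ n := by
  rw [natDegree_le_iff_coeff_eq_zero]
  intro k hk
  rw [coeff_pol, dif_neg (by omega)]

/-- all coefficients depend continuously on the parameter -/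
def CC {V : Type} [TopologicalSpace V] (p : V → ℂ[X]) : Prop :=
  ∀ k, Continuous fun x => (p x).coeff k

theorem CC.mul {V : Type} [TopologicalSpace V] {p q : V → ℂ[X]} (hp : CC p) (hq : CC q) :
    CC fun x => p x * q x := by
  intro k
  simp only [coeff_mul]
  exact continuous_finset_sum _ fun i _ => (hp i.1).mul (hq i.2)

theorem CC.sub {V : Type} [TopologicalSpace V] {p q : V → ℂ[X]} (hp : CC p) (hq : CC q) :
    CC fun x => p x - q x := by
  intro k
  simp only [coeff_sub]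
  exact (hp k).sub (hq k)

theorem CC.const {V : Type} [TopologicalSpace V] (p : ℂ[X]) : CC fun _ : V => p :=
  fun _ => continuous_const

theorem CC.pol {V : Type} [TopologicalSpace V] {n : ℕ} {a : V → Fin n → ℂ} (ha : Continuous a) :
    CC fun x => pol (a x) := by
  intro k
  simp only [coeff_pol]
  split_ifs with h
  · exact (continuous_apply _).comp ha
  · exact continuous_const

/-- the norm form -/
def NF (f : ℂ[X]) {n : ℕ} (x : (Fin n → ℂ) × (Fin n → ℂ)) : ℂ[X] :=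
  pol x.1 * pol x.1 - f * (pol x.2 * pol x.2)

theorem NF_CC (f : ℂ[X]) {n : ℕ} : CC fun x : (Fin n → ℂ) × (Fin n → ℂ) => NF f x :=
  ((CC.pol continuous_fst).mul (CC.pol continuous_fst)).sub
    ((CC.const f).mul ((CC.pol continuous_snd).mul (CC.pol continuous_snd)))

theorem NF_smul (f : ℂ[X]) {n : ℕ} (c : ℂ) (x : (Fin n → ℂ) × (Fin n → ℂ)) :
    NF f (c • x) = C (c ^ 2) * NF f x := by
  simp only [NF, Prod.smul_fst, Prod.smul_snd, pol_smul, C_pow]
  ring

/-- the function with the given coefficients -/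
def fn (f : ℂ[X]) {n : ℕ} (x : (Fin n → ℂ) × (Fin n → ℂ)) : RR f := ⟨pol x.1, pol x.2⟩

theorem nr_fn (f : ℂ[X]) {n : ℕ} (x : (Fin n → ℂ) × (Fin n → ℂ)) : nr (fn f x) = NF f x := by
  simp only [nr, fn, NF]
  ring

theorem NF_ne_zero {g : ℕ} {f : ℂ[X]} (hf : Cv g f) {n : ℕ} {x : (Fin n → ℂ) × (Fin n → ℂ)}
    (hx : x ≠ 0) : NF f x ≠ 0 := by
  rw [← nr_fn]
  apply nr_ne_zero hf
  intro h
  apply hx
  have h1 : pol x.1 = 0 := by
    have := congrArg QuadraticAlgebra.re h
    simpa [fn] using this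
  have h2 : pol x.2 = 0 := by
    have := congrArg QuadraticAlgebra.im h
    simpa [fn] using this
  have h3 : ∀ {a : Fin n → ℂ}, pol a = 0 → a = 0 := by
    intro a ha
    funext i
    have := congrArg (fun p => p.coeff (i : ℕ)) ha
    simp only [coeff_pol, i.2, dite_true, coeff_zero] at this
    simpa using this
  exact Prod.ext (h3 h1) (h3 h2)

theorem natDegree_NF (f : ℂ[X]) {n : ℕ} (x : (Fin n → ℂ) × (Fin n → ℂ)) :
    (NF f x).natDegree < f.natDegree + 2 * n + 1 := by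
  have h1 := natDegree_pol x.1
  have h2 := natDegree_pol x.2
  have h3 : (pol x.1 * pol x.1).natDegree ≤ n + n := natDegree_mul_le.trans (by omega)
  have h4 : (f * (pol x.2 * pol x.2)).natDegree ≤ f.natDegree + (n + n) :=
    natDegree_mul_le.trans (by
      have : (pol x.2 * pol x.2).natDegree ≤ n + n := natDegree_mul_le.trans (by omega)
      omega)
  have h5 := natDegree_sub_le (pol x.1 * pol x.1) (f * (pol x.2 * pol x.2))
  have h6 : (NF f x).natDegree ≤ max (pol x.1 * pol x.1).natDegree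
      (f * (pol x.2 * pol x.2)).natDegree := h5
  have h7 : max (pol x.1 * pol x.1).natDegree (f * (pol x.2 * pol x.2)).natDegree
      ≤ f.natDegree + (n + n) := max_le (by omega) h4
  omega

theorem main (g n : ℕ) (f : ℂ[X]) (hf : Cv g f) : ∃ C : ℝ, 1 ≤ C ∧
    ∀ (x : (Fin (n + 1) → ℂ) × (Fin (n + 1) → ℂ)) (M : ℝ), 0 ≤ M →
      (∀ i, ‖(NF f x).coeff i‖ ≤ M ^ 2) → ‖x‖ ≤ C * M := by
  set m := f.natDegree + 2 * (n + 1) + 1
  let Φ : (Fin (n + 1) → ℂ) × (Fin (n + 1) → ℂ) → (Fin m → ℂ) := fun x k => (NF f x).coeff k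
  have hΦ : Continuous Φ := continuous_pi fun k => NF_CC f k
  have hΦ0 : ∀ x, x ≠ 0 → Φ x ≠ 0 := by
    intro x hx h
    apply NF_ne_zero hf hx
    ext k
    by_cases hk : k < m
    · have := congrFun h ⟨k, hk⟩
      simpa [Φ] using this
    · rw [coeff_eq_zero_of_natDegree_lt, coeff_zero]
      have := natDegree_NF f x
      omega
  have hne : (Metric.sphere (0 : (Fin (n + 1) → ℂ) × (Fin (n + 1) → ℂ)) 1).Nonempty := by
    refine ⟨(fun _ => 1, 0), ?_⟩
    rw [mem_sphere_zero_iff_norm]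
    simp [Prod.norm_def]
  obtain ⟨x0, hx0, hmin⟩ := (isCompact_sphere (0 : (Fin (n + 1) → ℂ) × (Fin (n + 1) → ℂ)) 1).exists_isMinOn
    hne (hΦ.norm.continuousOn)
  have hx0' : ‖x0‖ = 1 := mem_sphere_zero_iff_norm.1 hx0
  have hδ : 0 < ‖Φ x0‖ := by
    apply norm_pos_iff.2
    apply hΦ0
    intro h
    rw [h, norm_zero] at hx0'
    exact zero_ne_one hx0'
  refine ⟨max 1 (1 / Real.sqrt ‖Φ x0‖), le_max_left _ _, ?_⟩
  intro x M hM hx
  by_cases hxz : x = 0
  · rw [hxz, norm_zero]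
    positivity
  have hr : 0 < ‖x‖ := norm_pos_iff.2 hxz
  set y := ((‖x‖⁻¹ : ℝ) : ℂ) • x with hy
  have hyn : ‖y‖ = 1 := by
    rw [hy, norm_smul, Complex.norm_real, Real.norm_of_nonneg (by positivity),
      inv_mul_cancel₀ hr.ne']
  have hmin' : ‖Φ x0‖ ≤ ‖Φ y‖ := hmin (mem_sphere_zero_iff_norm.2 hyn)
  have hΦy : Φ y = ((‖x‖⁻¹ : ℝ) : ℂ) ^ 2 • Φ x := by
    funext k
    simp only [Φ, hy, NF_smul, coeff_C_mul, Pi.smul_apply, smul_eq_mul]
  have hΦx : ‖Φ x‖ ≤ M ^ 2 := by
    rw [pi_norm_le_iff_of_nonneg (by positivity)]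
    intro k
    exact hx k
  have h1 : ‖Φ x0‖ ≤ ‖x‖⁻¹ ^ 2 * M ^ 2 := by
    refine hmin'.trans ?_
    rw [hΦy, norm_smul, norm_pow, Complex.norm_real, Real.norm_of_nonneg (by positivity)]
    exact mul_le_mul_of_nonneg_left hΦx (by positivity)
  have h2 : ‖Φ x0‖ * ‖x‖ ^ 2 ≤ M ^ 2 := by
    have := mul_le_mul_of_nonneg_right h1 (by positivity : (0:ℝ) ≤ ‖x‖ ^ 2)
    have e : ‖x‖⁻¹ ^ 2 * M ^ 2 * ‖x‖ ^ 2 = M ^ 2 := by
      field_simp
    rwa [e] at this
  have h3 : Real.sqrt ‖Φ x0‖ * ‖x‖ ≤ M := by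
    apply le_of_sq_le_sq _ hM
    rw [mul_pow, Real.sq_sqrt hδ.le]
    exact h2
  have h4 : 0 < Real.sqrt ‖Φ x0‖ := Real.sqrt_pos.2 hδ
  calc ‖x‖ ≤ 1 / Real.sqrt ‖Φ x0‖ * M := by
        rw [one_div, ← div_eq_inv_mul, le_div_iff₀ h4]
        linarith
    _ ≤ _ := mul_le_mul_of_nonneg_right (le_max_right _ _) hM

end Pool.Agent.HMW.N4A_

namespace Pool.Agent.HMW

open N4A_ in
theorem p_N4A : T_N4A := by
  intro g D f hf
  obtain ⟨K, hK1, hK⟩ := N4A_.main g D f hf
  refine ⟨K, hK1, ?_⟩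
  intro F M hW hM hF i
  have hre : F.re.natDegree < D + 1 := by
    have := hW.1
    omega
  have him : F.im.natDegree < D + 1 := by
    rcases hW.2 with h | h
    · rw [h, natDegree_zero]
      omega
    · omega
  set x : (Fin (D + 1) → ℂ) × (Fin (D + 1) → ℂ) :=
    (fun j => F.re.coeff j, fun j => F.im.coeff j) with hx
  have hp1 : pol x.1 = F.re := pol_coeff F.re hre
  have hp2 : pol x.2 = F.im := pol_coeff F.im him
  have hN : NF f x = nr F := by
    rw [NF, hp1, hp2, nr]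
    ring
  have hb := hK x M hM (by rw [hN]; exact hF)
  have hKM : 0 ≤ K * M := mul_nonneg (by linarith) hM
  constructor
  · by_cases hi : i < D + 1
    · calc ‖F.re.coeff i‖ = ‖x.1 ⟨i, hi⟩‖ := rfl
        _ ≤ ‖x.1‖ := norm_le_pi_norm _ _
        _ ≤ ‖x‖ := norm_fst_le x
        _ ≤ K * M := hb
    · rw [coeff_eq_zero_of_natDegree_lt (by omega), norm_zero]
      exact hKM
  · by_cases hi : i < D + 1
    · calc ‖F.im.coeff i‖ = ‖x.2 ⟨i, hi⟩‖ := rfl
        _ ≤ ‖x.2‖ := norm_le_pi_norm _ _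
        _ ≤ ‖x‖ := norm_snd_le x
        _ ≤ K * M := hb
    · rw [coeff_eq_zero_of_natDegree_lt (by omega), norm_zero]
      exact hKM

end Pool.Agent.HMW
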