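import Pool.Agent.HMW.Targets

set_option autoImplicit false

/-!
# N4N: a function is bounded by its norm (nonarchimedean case)
-/

open Polynomial
open scoped Classical

noncomputable section

namespace Pool.Agent.HMW

namespace N4N_

variable {E : Type} [Field E] {v : AbsoluteValue E ℝ}

/-- `a` is the largest value of a coefficient of `p`, and `i` is the largest index at which it is
attained -/
def Dom (v : AbsoluteValue E ℝ) (p : E[X]) (i : ℕ) (a : ℝ) : Prop :=
  v (p.coeff i) = a ∧ (∀ n, v (p.coeff n) ≤ a) ∧ ∀ n, i < n → v (p.coeff n) < a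

theorem sum_le (hv : ∀ x y, v (x + y) ≤ max (v x) (v y)) {ι : Type} (s : Finset ι) (u : ι → E)
    {c : ℝ} (hc : 0 ≤ c) (h : ∀ k ∈ s, v (u k) ≤ c) : v (∑ k ∈ s, u k) ≤ c := by
  refine Finset.sum_induction u (fun x => v x ≤ c)
    (fun a b ha hb => (hv a b).trans (max_le ha hb)) ?_ h
  simpa using hc

theorem sum_lt (hv : ∀ x y, v (x + y) ≤ max (v x) (v y)) {ι : Type} (s : Finset ι) (u : ι → E)
    {c : ℝ} (hc : 0 < c) (h : ∀ k ∈ s, v (u k) < c) : v (∑ k ∈ s, u k) < c := by
  refine Finset.sum_induction u (fun x => v x < c)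
    (fun a b ha hb => (hv a b).trans_lt (max_lt ha hb)) ?_ h
  simpa using hc

theorem v_add (hv : ∀ x y, v (x + y) ≤ max (v x) (v y)) {x y : E} (h : v y < v x) :
    v (x + y) = v x := by
  apply le_antisymm
  · exact (hv x y).trans (max_le le_rfl h.le)
  · have h1 : v x ≤ max (v (x + y)) (v (-y)) := by
      have := hv (x + y) (-y)
      rwa [add_neg_cancel_right] at this
    rw [v.map_neg] at h1
    rcases le_max_iff.mp h1 with h2 | h2
    · exact h2
    · exact absurd h2 (not_le.mpr h)

theorem exists_dom (v : AbsoluteValue E ℝ) {p : E[X]} (hp : p ≠ 0) :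
    ∃ i a, 0 < a ∧ Dom v p i a := by
  obtain ⟨k, hk, hmax⟩ := Finset.exists_max_image p.support (fun n => v (p.coeff n))
    (support_nonempty.mpr hp)
  have ha : 0 < v (p.coeff k) := v.pos (mem_support_iff.mp hk)
  obtain ⟨i, hi, himax⟩ := Finset.exists_max_image
    (p.support.filter fun n => v (p.coeff n) = v (p.coeff k)) id ⟨k, by simp [mem_support_iff.mp hk]⟩
  have hi' := Finset.mem_filter.mp hi
  have hle : ∀ n, v (p.coeff n) ≤ v (p.coeff k) := by
    intro n
    by_cases hn : n ∈ p.support
    · exact hmax n hn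
    · rw [notMem_support_iff.mp hn, v.map_zero]
      exact ha.le
  refine ⟨i, v (p.coeff k), ha, hi'.2, hle, fun n hn => lt_of_le_of_ne (hle n) fun hne => ?_⟩
  have hns : n ∈ p.support := by
    rw [mem_support_iff]
    intro h0
    rw [h0, v.map_zero] at hne
    exact ha.ne hne
  have := himax n (Finset.mem_filter.mpr ⟨hns, hne⟩)
  simp only [id] at this
  omega

theorem Dom.mul (hv : ∀ x y, v (x + y) ≤ max (v x) (v y)) {p q : E[X]} {i j : ℕ} {a b : ℝ}
    (ha : 0 < a) (hb : 0 < b) (hp : Dom v p i a) (hq : Dom v q j b) :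
    Dom v (p * q) (i + j) (a * b) := by
  have hab : 0 < a * b := mul_pos ha hb
  have hle : ∀ k l, v (p.coeff k * q.coeff l) ≤ a * b := fun k l => by
    rw [v.map_mul]
    exact mul_le_mul (hp.2.1 k) (hq.2.1 l) (v.nonneg _) ha.le
  have hlt : ∀ k l, (i < k ∨ j < l) → v (p.coeff k * q.coeff l) < a * b := fun k l h => by
    rw [v.map_mul]
    rcases h with h | h
    · exact lt_of_le_of_lt (mul_le_mul_of_nonneg_left (hq.2.1 l) (v.nonneg _))
        (mul_lt_mul_of_pos_right (hp.2.2 k h) hb)
    · exact lt_of_le_of_lt (mul_le_mul_of_nonneg_right (hp.2.1 k) (v.nonneg _))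
        (mul_lt_mul_of_pos_left (hq.2.2 l h) ha)
  refine ⟨?_, fun n => ?_, fun n hn => ?_⟩
  · rw [coeff_mul, ← Finset.add_sum_erase (Finset.HasAntidiagonal.antidiagonal (i + j))
      (fun x => p.coeff x.1 * q.coeff x.2) (a := (i, j)) (by simp)]
    have h1 : v (p.coeff i * q.coeff j) = a * b := by rw [v.map_mul, hp.1, hq.1]
    have h2 : v (∑ x ∈ (Finset.HasAntidiagonal.antidiagonal (i + j)).erase (i, j),
        p.coeff x.1 * q.coeff x.2) < a * b := by
      refine sum_lt hv _ _ hab fun x hx => hlt _ _ ?_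
      rw [Finset.mem_erase, Finset.HasAntidiagonal.mem_antidiagonal] at hx
      by_contra hc
      push Not at hc
      apply hx.1
      ext <;> simp only <;> omega
    rw [v_add hv (by rw [h1]; exact h2), h1]
  · rw [coeff_mul]
    exact sum_le hv _ _ hab.le fun x _ => hle _ _
  · rw [coeff_mul]
    refine sum_lt hv _ _ hab fun x hx => hlt _ _ ?_
    rw [Finset.HasAntidiagonal.mem_antidiagonal] at hx
    omega

theorem dom_f {f : E[X]} {g : ℕ} (hf : Cv g f) (h1 : PB v f 1) : Dom v f (2 * g + 1) 1 := by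
  refine ⟨?_, h1, fun n hn => ?_⟩
  · rw [← hf.deg, coeff_natDegree, hf.monic.leadingCoeff, v.map_one]
  · rw [coeff_eq_zero_of_natDegree_lt (by rw [hf.deg]; exact hn), v.map_zero]
    exact one_pos

/-- If the largest coefficients do not cancel then both are bounded. -/
theorem key (hv : ∀ x y, v (x + y) ≤ max (v x) (v y)) {p q : E[X]} {i j : ℕ} {a b : ℝ}
    (hp : Dom v p i a) (hq : Dom v q j b) (hij : i ≠ j) {N : ℝ} (h : PB v (p - q) N) :
    a ≤ N ∧ b ≤ N := by
  have hneg : ∀ n, (p - q).coeff n = p.coeff n + -q.coeff n := fun n => by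
    rw [coeff_sub, sub_eq_add_neg]
  have hneg' : ∀ n, (p - q).coeff n = -(q.coeff n + -p.coeff n) := fun n => by
    rw [coeff_sub]; ring
  have caseA : v (q.coeff i) < a → a ≤ N := by
    intro h1
    have h2 := h i
    rw [hneg, v_add hv (by rw [v.map_neg, hp.1]; exact h1), hp.1] at h2
    exact h2
  have caseB : v (p.coeff j) < b → b ≤ N := by
    intro h1
    have h2 := h j
    rw [hneg', v.map_neg, v_add hv (by rw [v.map_neg, hq.1]; exact h1), hq.1] at h2
    exact h2
  rcases lt_trichotomy a b with hab | hab | hab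
  · have := caseB ((hp.2.1 j).trans_lt hab)
    exact ⟨hab.le.trans this, this⟩
  · subst hab
    rcases lt_or_gt_of_ne hij with h1 | h1
    · have := caseB (hp.2.2 j h1)
      exact ⟨this, this⟩
    · have := caseA (hq.2.2 i h1)
      exact ⟨this, this⟩
  · have := caseA ((hq.2.1 i).trans_lt hab)
    exact ⟨this, hab.le.trans this⟩

theorem PB_of_dom {p : E[X]} {i : ℕ} {a M : ℝ} (hp : Dom v p i a) (h : a ≤ M) : PB v p M :=
  fun n => (hp.2.1 n).trans h

theorem PB_zero {M : ℝ} (hM : 0 ≤ M) : PB v (0 : E[X]) M := fun n => by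
  simpa using hM

end N4N_

open N4N_

theorem p_N4N : T_N4N := by
  intro E _ v hv g f hf hf1 F M hM hF
  have hdf := dom_f hf hf1
  by_cases hA : F.re = 0
  · by_cases hB : F.im = 0
    · rw [hA, hB]
      exact ⟨PB_zero hM, PB_zero hM⟩
    · obtain ⟨j, b, hb, hq⟩ := exists_dom v hB
      have h2 := hdf.mul hv one_pos (mul_pos hb hb) (hq.mul hv hb hb hq)
      have h3 := hF (2 * g + 1 + (j + j))
      have h4 : nr F = -(f * (F.im * F.im)) := by
        rw [nr, hA]; ring
      rw [h4, coeff_neg, v.map_neg, h2.1] at h3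
      have h5 : b ≤ M := by
        by_contra hc
        push Not at hc
        nlinarith
      rw [hA]
      exact ⟨PB_zero hM, PB_of_dom hq h5⟩
  · obtain ⟨i, a, ha, hp⟩ := exists_dom v hA
    have h1 := hp.mul hv ha ha hp
    by_cases hB : F.im = 0
    · have h3 := hF (i + i)
      have h4 : nr F = F.re * F.re := by
        rw [nr, hB]; ring
      rw [h4, h1.1] at h3
      have h5 : a ≤ M := by
        by_contra hc
        push Not at hc
        nlinarith
      rw [hB]
      exact ⟨PB_of_dom hp h5, PB_zero hM⟩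
    · obtain ⟨j, b, hb, hq⟩ := exists_dom v hB
      have h2 := hdf.mul hv one_pos (mul_pos hb hb) (hq.mul hv hb hb hq)
      have h4 : nr F = F.re * F.re - f * (F.im * F.im) := by
        rw [nr]; ring
      rw [h4] at hF
      obtain ⟨h5, h6⟩ := key hv h1 h2 (by omega) hF
      have h7 : a ≤ M := by
        by_contra hc
        push Not at hc
        nlinarith
      have h8 : b ≤ M := by
        by_contra hc
        push Not at hc
        nlinarith
      exact ⟨PB_of_dom hp h7, PB_of_dom hq h8⟩

end Pool.Agent.HMW
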