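import Pool.Agent.HMW.Targets

set_option autoImplicit false
set_option linter.unusedSectionVars false

/-!
# NOR: Northcott for divisors
-/

open Polynomial Height Height.AdmissibleAbsValues NumberField
open scoped Classical

noncomputable section

namespace Pool.Agent.HMW

namespace NOR_

variable {K E : Type} [Field K] [NumberField K] [Field E] [CharZero E]
  [IsAlgClosed E] [Algebra K E] [Algebra.IsAlgebraic K E] {g N : ℕ} {f : E[X]}
  {ext : AbsoluteValue K ℝ → AbsoluteValue E ℝ}

theorem one_le_prod (v : AbsoluteValue E ℝ) (S : Multiset (E × E)) :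
    1 ≤ (S.map fun P => nm v P).prod := by
  induction S using Multiset.induction_on with
  | empty => simp
  | cons P S ih =>
    rw [Multiset.map_cons, Multiset.prod_cons]
    exact one_le_mul_of_one_le_of_one_le (one_le_nm v P) ih

theorem log_prod (v : AbsoluteValue E ℝ) (S : Multiset (E × E)) :
    Real.log (S.map fun P => nm v P).prod = (S.map fun P => Real.log (nm v P)).sum := by
  rw [Real.log_multiset_prod, Multiset.map_map]
  · rfl
  · intro a ha
    obtain ⟨P, _, rfl⟩ := Multiset.mem_map.1 ha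
    exact (nm_pos v P).ne'

/-- the height of a coefficient -/
theorem coeff_height {Λ : AbsoluteValue K ℝ → ℝ}
    (hFS : FS K (fun v => Real.log (Λ v))) (hT : ∀ v, Pl K v → Tm (ext v) g f N (Λ v))
    (hfsp : ∀ P : E × E, FS K (fun v => Real.log (nm (ext v) P)))
    (hk1 : ∀ (t : K) (y : E), HH ext {(algebraMap K E t, y)} = logHeight₁ t)
    {e : ℕ} {S : Multiset (E × E)}
    (hS : ∀ (v : AbsoluteValue E ℝ) (L : ℝ), 1 ≤ L → (∀ x y, v (x + y) ≤ L * max (v x) (v y)) →
      PB v (NS S) (L ^ e * (S.map fun P => nm v P).prod))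
    {a : K} {i : ℕ} (ha : algebraMap K E a = (NS S).coeff i) :
    logHeight₁ a ≤ e * Vs K (fun v => Real.log (Λ v)) + HH ext S := by
  have hFS1 : FS K (fun v => (e : ℝ) * Real.log (Λ v)) := hFS.const_mul _
  have hFS2 : FS K (fun v => (S.map fun P => Real.log (nm (ext v) P)).sum) :=
    FS_multiset_sum S (fun P v => Real.log (nm (ext v) P)) (fun P _ => hfsp P)
  have h1 : (e : ℝ) * Vs K (fun v => Real.log (Λ v)) + HH ext S =
      Vs K (fun v => (e : ℝ) * Real.log (Λ v) + (S.map fun P => Real.log (nm (ext v) P)).sum) := by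
    rw [Vs_add hFS1 hFS2, Vs_const_mul _ hFS]
    rfl
  rw [h1, ← hk1 a 0]
  unfold HH
  simp only [Multiset.map_singleton, Multiset.sum_singleton]
  refine Vs_mono (hfsp _) (hFS1.add hFS2) fun v hv => ?_
  have ht := hT v hv
  have hL : 1 ≤ Λ v ^ e := one_le_pow₀ ht.one
  have hP := one_le_prod (ext v) S
  have hb := hS (ext v) (Λ v) ht.one ht.add i
  rw [← ha] at hb
  have h2 : nm (ext v) (algebraMap K E a, 0) ≤ Λ v ^ e * (S.map fun P => nm (ext v) P).prod := by
    unfold nm at hb ⊢
    exact max_le (one_le_mul_of_one_le_of_one_le hL hP) hb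
  have h3 := Real.log_le_log (nm_pos _ _) h2
  rw [Real.log_mul (by positivity) (by positivity), Real.log_pow, log_prod] at h3
  exact h3

theorem finite_sq (c : E) : {y : E | y ^ 2 = c}.Finite := by
  by_cases h : ∃ y₀ : E, y₀ ^ 2 = c
  · obtain ⟨y₀, hy₀⟩ := h
    refine (Set.toFinite ({y₀, -y₀} : Set E)).subset ?_
    intro y hy
    have hy' : y ^ 2 = c := hy
    rw [← hy₀] at hy'
    rcases sq_eq_sq_iff_eq_or_eq_neg.1 hy' with h | h
    · exact Or.inl h
    · exact Or.inr h
  · refine Set.finite_empty.subset ?_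
    intro y hy
    exact h ⟨y, hy⟩

theorem finite_points {R : Set E} (hR : R.Finite) : {P : E × E | P.1 ∈ R ∧ On f P}.Finite := by
  refine (hR.biUnion fun t _ => (finite_sq (f.eval t)).image fun y => (t, y)).subset ?_
  rintro ⟨t, y⟩ ⟨h1, h2⟩
  simp only [Set.mem_iUnion]
  exact ⟨t, h1, y, h2, rfl⟩

theorem finite_multisets {T : Set (E × E)} (hT : T.Finite) (k : ℕ) :
    {S : Multiset (E × E) | Multiset.card S ≤ k ∧ ∀ P ∈ S, P ∈ T}.Finite := by
  refine (Multiset.powerset (k • hT.toFinset.val)).toFinset.finite_toSet.subset ?_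
  rintro S ⟨h1, h2⟩
  simp only [Finset.mem_coe, Multiset.mem_toFinset, Multiset.mem_powerset]
  rw [Multiset.le_iff_count]
  intro P
  rw [Multiset.count_nsmul]
  by_cases hP : P ∈ S
  · have h3 : P ∈ hT.toFinset.val := by
      rw [Finset.mem_val]
      exact hT.mem_toFinset.2 (h2 P hP)
    have h4 : Multiset.count P hT.toFinset.val = 1 :=
      Multiset.count_eq_one_of_mem hT.toFinset.nodup h3
    rw [h4, mul_one]
    exact (Multiset.count_le_card P S).trans h1
  · rw [Multiset.count_eq_zero_of_notMem hP]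
    exact Nat.zero_le _

end NOR_

theorem p_NOR : T_CXF → T_TAME → T_NSB → T_FSP → T_HK → T_NOR := by
  intro hCXF hTAME hNSB hFSP hHK K E _ _ _ _ _ _ _ g θ f ext hC k x
  obtain ⟨N, Λ, hFS, hT⟩ := hTAME K E g θ f ext hC
  have hfsp := (hFSP K E ext hC.ext).1
  have hk1 := (hHK K E ext hC.ext).1
  choose e he using hNSB
  have hN := NumberField.finite_setOfPred_logHeight₁_le K
  set A : Set K := ⋃ j ∈ Finset.range (k + 1),
    {t : K | logHeight₁ t ≤ (e j : ℝ) * Vs K (fun v => Real.log (Λ v)) + x} with hA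
  have hAf : A.Finite := Set.Finite.biUnion (Finset.finite_toSet _) fun j _ => hN _
  have hroots := Polynomial.bUnion_roots_finite (algebraMap K E) k hAf
  refine (NOR_.finite_multisets (NOR_.finite_points (f := f) hroots) k).subset ?_
  rintro S ⟨hS, hSk, hSx⟩
  refine ⟨hSk, fun P hP => ⟨?_, hS.1 P hP⟩⟩
  obtain ⟨q, hq⟩ := hS.NS
  have hinj : Function.Injective (algebraMap K E) := (algebraMap K E).injective
  have hdeg : q.natDegree = Multiset.card S := by
    rw [← NS_natDegree S, hq, Polynomial.natDegree_map]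
  simp only [Set.mem_iUnion]
  refine ⟨q, ⟨hdeg.le.trans hSk, fun i => ?_⟩, ?_⟩
  · rw [hA]
    simp only [Set.mem_iUnion]
    refine ⟨Multiset.card S, Finset.mem_range.2 (by omega), ?_⟩
    have h1 : algebraMap K E (q.coeff i) = (NS S).coeff i := by
      rw [hq, coeff_map]
    have h2 := NOR_.coeff_height (e := e (Multiset.card S)) hFS hT hfsp hk1
      (fun v L hL1 hL2 => he (Multiset.card S) E v L hL1 hL2 S rfl) h1
    exact h2.trans (by linarith)
  · rw [← hq]
    simp only [Finset.mem_coe, Multiset.mem_toFinset]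
    rw [mem_roots (NS_monic S).ne_zero, IsRoot.def]
    obtain ⟨S', rfl⟩ := Multiset.exists_cons_of_mem hP
    rw [NS_cons]
    simp

end Pool.Agent.HMW
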