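import Pool.Agent.HMW.Targets

set_option autoImplicit false

/-!
# NSB: coefficients of `∏ (X - t_P)`
-/

open Polynomial
open scoped Classical

noncomputable section

namespace Pool.Agent.HMW

namespace NSB_

theorem step {E : Type} [Field E] (v : AbsoluteValue E ℝ) {Λ : ℝ} (h1 : 1 ≤ Λ)
    (h2 : ∀ x y, v (x + y) ≤ Λ * max (v x) (v y)) (t : E) {p : E[X]} {M : ℝ} (hp : PB v p M) :
    PB v ((X - C t) * p) (Λ * (max 1 (v t) * M)) := by
  have hM : 0 ≤ M := (v.nonneg _).trans (hp 0)
  have hm : (1 : ℝ) ≤ max 1 (v t) := le_max_left _ _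
  have hB : 0 ≤ max 1 (v t) * M := mul_nonneg (zero_le_one.trans hm) hM
  have ht : ∀ i, v (-(t * p.coeff i)) ≤ max 1 (v t) * M := fun i => by
    rw [v.map_neg, v.map_mul]
    exact mul_le_mul (le_max_right _ _) (hp i) (v.nonneg _) (zero_le_one.trans hm)
  intro i
  cases i with
  | zero =>
    rw [sub_mul, coeff_sub, coeff_X_mul_zero, coeff_C_mul, zero_sub]
    calc v (-(t * p.coeff 0)) ≤ max 1 (v t) * M := ht 0
      _ = 1 * (max 1 (v t) * M) := (one_mul _).symm
      _ ≤ Λ * (max 1 (v t) * M) := mul_le_mul_of_nonneg_right h1 hB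
  | succ i =>
    rw [sub_mul, coeff_sub, coeff_X_mul, coeff_C_mul, sub_eq_add_neg]
    refine (h2 _ _).trans (mul_le_mul_of_nonneg_left (max_le ?_ (ht _))
      (zero_le_one.trans h1))
    calc v (p.coeff i) ≤ M := hp i
      _ = 1 * M := (one_mul _).symm
      _ ≤ max 1 (v t) * M := mul_le_mul_of_nonneg_right hm hM

theorem main {E : Type} [Field E] (v : AbsoluteValue E ℝ) {Λ : ℝ} (h1 : 1 ≤ Λ)
    (h2 : ∀ x y, v (x + y) ≤ Λ * max (v x) (v y)) (S : Multiset (E × E)) :
    PB v (NS S) (Λ ^ Multiset.card S * (S.map fun P => nm v P).prod) := by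
  induction S using Multiset.induction_on with
  | empty =>
    intro i
    rw [NS_zero, Multiset.card_zero, pow_zero, Multiset.map_zero, Multiset.prod_zero, one_mul,
      coeff_one]
    split_ifs
    · rw [v.map_one]
    · rw [v.map_zero]
      exact zero_le_one
  | cons P S ih =>
    have h := step v h1 h2 P.1 ih
    rw [NS_cons, Multiset.card_cons, Multiset.map_cons, Multiset.prod_cons]
    have e : Λ ^ (Multiset.card S + 1) * (nm v P * (S.map fun P => nm v P).prod) =
        Λ * (max 1 (v P.1) * (Λ ^ Multiset.card S * (S.map fun P => nm v P).prod)) := by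
      unfold nm
      ring
    rw [e]
    exact h

end NSB_

theorem p_NSB : T_NSB := by
  intro k
  refine ⟨k, fun E _ v Λ h1 h2 S hS => ?_⟩
  have h := NSB_.main v h1 h2 S
  rw [hS] at h
  exact h

end Pool.Agent.HMW
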