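import Pool.Agent.HMW.Targets

/-!
# Lower bound for the quadratic form
-/

set_option autoImplicit false
set_option linter.unusedVariables false
set_option linter.unusedSectionVars false

open Polynomial Height Height.AdmissibleAbsValues NumberField IsDedekindDomain
open scoped Classical

noncomputable section

namespace Pool.Agent.HMW

namespace POS_

variable {E : Type} [Field E]

lemma io_io (P : E × E) : io (io P) = P := by
  simp [io]

lemma io_mem_map {S : Multiset (E × E)} {P : E × E} (h : P ∈ S.map io) : io P ∈ S := by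
  obtain ⟨Q, hQ, rfl⟩ := Multiset.mem_map.1 h
  rwa [io_io]

variable {K : Type} [Field K] [CharZero K] [CharZero E] [IsAlgClosed E] [Algebra K E]
  [Algebra.IsAlgebraic K E] {f : E[X]}

/-- a Galois stable part of a rational divisor is rational -/
lemma MK_filter {S : Multiset (E × E)} (h : MK K f S) (p : E × E → Prop) [DecidablePred p]
    (hp : ∀ (σ : E ≃ₐ[K] E) (P : E × E), p (act σ P) ↔ p P) : MK K f (S.filter p) := by
  refine MK_of_count ?_ ?_
  · intro P hP
    exact h.1 P (Multiset.mem_of_mem_filter hP)
  · intro σ P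
    rw [Multiset.count_filter, Multiset.count_filter, h.count]
    simp only [hp]

end POS_

open POS_ in
theorem p_POS (h1 : T_CXF) (h2 : T_RED) (h3 : T_VERT) (h4 : T_SELF) (h5 : T_FSP) (h6 : T_HK) :
    T_POS := by
  intro K E _ _ _ _ _ _ _ g θ f ext hx G _ cls B hB
  obtain ⟨hf, hK, -⟩ := h1 K E g θ f ext hx
  have hC := hB.isCls
  obtain ⟨C1, hC1⟩ := hB.near g
  obtain ⟨C2, hC2⟩ := h4 K E g θ f ext hx g
  obtain ⟨-, hH⟩ := h6 K E ext hx.ext
  have hB0 : ∀ c, B 0 c = 0 := by
    intro c
    have := hB.add 0 0 c
    rw [add_zero] at this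
    linarith
  have hBneg : ∀ a c, B (-a) c = -B a c := by
    intro a c
    have := hB.add a (-a) c
    rw [add_neg_cancel, hB0] at this
    linarith
  have hBr : ∀ a b c, B a (b + c) = B a b + B a c := by
    intro a b c
    rw [hB.symm a, hB.add, hB.symm b, hB.symm c]
  -- the finite set of points with `y = 0`
  set M : Multiset (E × E) :=
    (Finset.univ.image fun i : Fin (2 * g + 1) => ((algebraMap K E (θ i : K), 0) : E × E)).val
    with hM
  refine ⟨C1 + C2, (((Multiset.powerset M).toFinset.image cls : Finset G) : Set G),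
    Finset.finite_toSet _, fun c => ?_⟩
  obtain ⟨S', hS', hcS'⟩ := hC.surj (-c)
  obtain ⟨S0, hS0, hP0, hcard⟩ := h2 K E g f hf hK S' hS'
  have hc0 : cls S0 = c := by
    have h : cls S0 = -cls S' := by
      rw [hC.eq_neg_iff hS0 hS', add_comm]
      exact hP0
    rw [h, hcS', neg_neg]
  obtain ⟨S1, V, hS1, hV, hS01, hPV, hcount⟩ := h3 K E g f hf hK S0 hS0
  have hc1 : cls S1 = c := by
    have h := hC.add S1 V hS1 hV
    rw [← hS01, hc0, (hC.zero V hV).2 hPV, add_zero] at h
    exact h.symm
  set S : Multiset (E × E) := S1.filter fun P => ¬ (P.2 = 0) with hSdef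
  set R : Multiset (E × E) := S1.filter fun P => (P.2 = 0) with hRdef
  have hS : MK K f S := MK_filter hS1 _ fun σ P => by simp [act]
  have hR : MK K f R := MK_filter hS1 _ fun σ P => by simp [act]
  have hRS : R + S = S1 := Multiset.filter_add_not _ _
  have hRM : R ∈ Multiset.powerset M := by
    rw [Multiset.mem_powerset, Multiset.le_iff_count]
    intro P
    by_cases hP : P ∈ R
    · have hP2 : P.2 = 0 := (Multiset.mem_filter.1 hP).2
      have e1 : R.count P ≤ 1 := by
        rw [hRdef, Multiset.count_filter, if_pos hP2, hcount, if_pos hP2]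
        exact Nat.le_of_lt_succ (Nat.mod_lt _ (by norm_num))
      have e2 : P ∈ M := by
        have e3 : On f P := hR.1 P hP
        unfold On at e3
        rw [hP2, hx.eq, eval_prod] at e3
        have e4 : ∏ i, eval P.1 (X - C (algebraMap K E (θ i : K))) = 0 := by
          rw [← e3]
          ring
        obtain ⟨i, -, hi⟩ := Finset.prod_eq_zero_iff.1 e4
        rw [eval_sub, eval_X, eval_C, sub_eq_zero] at hi
        rw [hM, Finset.mem_val, Finset.mem_image]
        exact ⟨i, Finset.mem_univ _, Prod.ext hi.symm hP2.symm⟩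
      exact e1.trans (Multiset.one_le_count_iff_mem.2 e2)
    · rw [Multiset.count_eq_zero_of_notMem hP]
      exact Nat.zero_le _
  have hcardS : Multiset.card S ≤ g := by
    have e1 : Multiset.card S ≤ Multiset.card S1 := Multiset.card_le_card (Multiset.filter_le _ _)
    have e2 : Multiset.card S1 ≤ Multiset.card S0 := by
      rw [hS01]
      exact Multiset.card_le_card (Multiset.le_add_right _ _)
    omega
  have hcRS : c = cls R + cls S := by
    rw [← hc1, ← hRS, hC.add R S hR hS]
  refine ⟨S, hS, hcardS, ?_, ?_⟩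
  · have e1 : c - cls S = cls R := by
      rw [hcRS]
      abel
    rw [e1]
    exact Finset.mem_coe.2 (Finset.mem_image_of_mem _ (Multiset.mem_toFinset.2 hRM))
  · -- `2 [R] = 0`
    have hRio : R.map io = R := by
      have e1 : ∀ P ∈ R, io P = P := by
        intro P hP
        have hP2 : P.2 = 0 := (Multiset.mem_filter.1 hP).2
        unfold io
        rw [hP2, neg_zero]
        exact Prod.ext rfl hP2.symm
      rw [Multiset.map_congr rfl e1, Multiset.map_id']
    have hR2 : cls R + cls R = 0 := by
      have e1 := hC.map_io hf hR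
      rw [hRio] at e1
      nth_rewrite 2 [e1]
      exact add_neg_cancel _
    have hBR : ∀ x, B (cls R) x = 0 := by
      intro x
      have e1 := hB.add (cls R) (cls R) x
      rw [hR2, hB0] at e1
      linarith
    have hBcc : B c c = B (cls S) (cls S) := by
      rw [hcRS, hB.add, hBr, hBr, hBR, hBR, hB.symm (cls S) (cls R), hBR]
      ring
    have hio : ∀ P ∈ S, io P ∉ S := by
      intro P hP hPio
      have hP2 : P.2 ≠ 0 := (Multiset.mem_filter.1 hP).2
      have hP1 : 0 < S1.count P := Multiset.count_pos.2 (Multiset.mem_filter.1 hP).1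
      have hP3 : 0 < S1.count (io P) := Multiset.count_pos.2 (Multiset.mem_filter.1 hPio).1
      have hP4 : (io P).2 ≠ 0 := (Multiset.mem_filter.1 hPio).2
      rw [hcount, if_neg hP2] at hP1
      rw [hcount, if_neg hP4, io_io] at hP3
      omega
    have hDj : Dj S (S.map io) := fun P hP hP' => hio P hP (io_mem_map hP')
    have e1 := (hC1 S (S.map io) hS hS.io hcardS (by rwa [Multiset.card_map])).2 hDj
    have e2 := hC2 S hS hcardS hio
    have e3 := hH S
    have e4 : B (cls S) (cls (S.map io)) = -B (cls S) (cls S) := by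
      rw [hC.map_io hf hS, hB.symm, hBneg]
    rw [e4] at e1
    have e5 : ((Multiset.card S : ℝ) - 1 - g) * HH ext S ≤ -HH ext S := by
      have e6 : (Multiset.card S : ℝ) ≤ g := by exact_mod_cast hcardS
      nlinarith
    rw [hBcc]
    linarith

end Pool.Agent.HMW
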