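import Pool.Agent.HMW.Targets

set_option autoImplicit false

/-!
# HMW-PR: the pairing of a principal divisor with any divisor is bounded
-/

open Polynomial NumberField Height Height.AdmissibleAbsValues
open IsDedekindDomain
open scoped Classical

noncomputable section

namespace Pool.Agent.HMW

namespace PR_

theorem sum_le {ι : Type} (s : Multiset ι) (a b : ι → ℝ) (h : ∀ i ∈ s, a i ≤ b i) :
    (s.map a).sum ≤ (s.map b).sum := Multiset.sum_map_le_sum_map _ _ h

theorem sum_const {ι : Type} (s : Multiset ι) (x : ℝ) :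
    (s.map fun _ => x).sum = Multiset.card s * x := by
  rw [Multiset.map_const', Multiset.sum_replicate, nsmul_eq_mul]

theorem log_prod {E : Type} [Field E] (v : AbsoluteValue E ℝ) (T : Multiset (E × E))
    (e : E × E → E) (h : ∀ Q ∈ T, e Q ≠ 0) :
    Real.log (v (T.map e).prod) = (T.map fun Q => Real.log (v (e Q))).sum := by
  induction T using Multiset.induction_on with
  | empty => simp
  | cons Q T ih =>
    have h1 : ∀ P ∈ T, e P ≠ 0 := fun P hP => h P (Multiset.mem_cons_of_mem hP)
    have h2 : (T.map e).prod ≠ 0 := by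
      rw [ne_eq, Multiset.prod_eq_zero_iff, Multiset.mem_map]
      rintro ⟨P, hP, h0⟩
      exact h1 P hP h0
    rw [Multiset.map_cons, Multiset.prod_cons, Multiset.map_cons, Multiset.sum_cons, map_mul,
      Real.log_mul (v.ne_zero (h Q (Multiset.mem_cons_self Q T))) (v.ne_zero h2), ih h1]

end PR_

theorem p_PR (h1 : T_CXF) (h2 : T_LOC) (h3 : T_FSP) : T_PR := by
  intro K E _ _ _ _ _ _ _ g θ f ext hx k
  obtain ⟨hCv, hKP, -⟩ := h1 K E g θ f ext hx
  have hdom := isDomain hCv
  choose c hcF hc0 hc using h2 K E g θ f ext hx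
  obtain ⟨-, -, hls⟩ := h3 K E ext hx.ext
  have hVc : ∀ j, 0 ≤ Vs K (c j) := fun j => Vs_nonneg (hcF j) fun v _ => hc0 j v
  refine ⟨∑ j ∈ Finset.range (k + 1), k * Vs K (c j), fun S T hS hT hSk hTk => ?_⟩
  obtain ⟨F, hF, hd⟩ := hS
  set j := Multiset.card S with hj
  have hC : (Multiset.card T : ℝ) * Vs K (c j) ≤
      ∑ j ∈ Finset.range (k + 1), k * Vs K (c j) := by
    have e1 : (k : ℝ) * Vs K (c j) ≤ ∑ j ∈ Finset.range (k + 1), k * Vs K (c j) :=
      Finset.single_le_sum (f := fun j => (k : ℝ) * Vs K (c j))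
        (fun i _ => mul_nonneg (Nat.cast_nonneg k) (hVc i)) (Finset.mem_range.2 (by omega))
    exact (mul_le_mul_of_nonneg_right (by exact_mod_cast hTk) (hVc j)).trans e1
  -- the leading coefficient
  have hnr0 : nr F ≠ 0 := nr_ne_zero hCv hd.ne
  obtain ⟨q, hq⟩ := hF.nr hKP
  have hinj : Function.Injective (algebraMap K E) := (algebraMap K E).injective
  have hl : (nr F).leadingCoeff = algebraMap K E q.leadingCoeff := by
    rw [hq, leadingCoeff_map]
  have hl0 : q.leadingCoeff ≠ 0 := by
    rw [ne_eq, leadingCoeff_eq_zero]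
    rintro rfl
    exact hnr0 (by rw [hq, Polynomial.map_zero])
  obtain ⟨l1, l2⟩ := Vs_log (K := K) hl0
  -- the common part
  have key : Dj S T → ∃ x : K, x ≠ 0 ∧ ∀ v, Pl K v →
      Real.log (v x) = (T.map fun Q => Real.log (ext v (ev F Q))).sum := by
    intro hD
    have hne : ∀ Q ∈ T, ev F Q ≠ 0 := by
      intro Q hQ h0
      exact hD Q (hd.mem_of_ev hCv (hT.1 Q hQ) h0) hQ
    have hfix : (T.map (ev F)).prod ∈ Set.range (algebraMap K E) := by
      refine mem_range_of_fixed _ fun σ => ?_
      rw [map_multiset_prod, Multiset.map_map]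
      have e1 : T.map ((σ : E → E) ∘ ev F) = (T.map (act σ)).map (ev F) := by
        rw [Multiset.map_map]
        refine Multiset.map_congr rfl fun Q _ => ?_
        exact (ev_act hF σ Q).symm
      rw [e1, hT.2 σ]
    obtain ⟨x, hxe⟩ := hfix
    have hx0 : x ≠ 0 := by
      rintro rfl
      rw [map_zero] at hxe
      have := Multiset.prod_eq_zero_iff.1 hxe.symm
      obtain ⟨P, hP, h0⟩ := Multiset.mem_map.1 this
      exact hne P hP h0
    refine ⟨x, hx0, fun v hv => ?_⟩
    rw [← PR_.log_prod (ext v) T (ev F) hne, ← hxe, hx.ext.ex v hv]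
  have hsum : ∀ v : AbsoluteValue K ℝ, (T.map fun Q => (S.map fun P => le (ext v) g P Q).sum).sum =
      lsum (ext v) g S T := by
    intro v
    unfold lsum
    rw [Multiset.sum_map_sum_map]
  have hadd : ∀ v : AbsoluteValue K ℝ, ∀ s : ℝ,
      (T.map fun Q => Real.log (ext v (nr F).leadingCoeff) / 2 +
        (S.map fun P => le (ext v) g P Q).sum + s).sum =
      (Multiset.card T : ℝ) / 2 * Real.log (ext v (nr F).leadingCoeff) +
        lsum (ext v) g S T + Multiset.card T * s := by
    intro v s
    rw [Multiset.sum_map_add, Multiset.sum_map_add, hsum, PR_.sum_const, PR_.sum_const]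
    ring
  constructor
  · intro hD
    obtain ⟨x, hx0, hxv⟩ := key hD
    obtain ⟨x1, x2⟩ := Vs_log (K := K) hx0
    have hFS := hls g S T hD
    have hR : FS K (fun v => (Multiset.card T : ℝ) / 2 * Real.log (v q.leadingCoeff) +
        lsum (ext v) g S T + Multiset.card T * c j v) :=
      ((l1.const_mul _).add hFS).add ((hcF j).const_mul _)
    have hle := Vs_mono x1 hR fun v hv => by
      rw [hxv v hv]
      refine (PR_.sum_le T _ _ fun Q hQ => (hc j v hv F S hd hj.symm Q (hT.1 Q hQ)).1
        (hD.symm Q hQ)).trans (le_of_eq ?_)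
      rw [hadd v (c j v), hl, hx.ext.ex v hv]
    rw [x2, Vs_add ((l1.const_mul _).add hFS) ((hcF j).const_mul _),
      Vs_add (l1.const_mul _) hFS, Vs_const_mul _ l1, l2, mul_zero, zero_add,
      Vs_const_mul _ (hcF j)] at hle
    have : Vs K (fun v => lsum (ext v) g S T) = pr ext g S T := rfl
    rw [this] at hle
    linarith
  · intro hTj
    have hD := hTj.dj
    obtain ⟨x, hx0, hxv⟩ := key hD
    obtain ⟨x1, x2⟩ := Vs_log (K := K) hx0
    have hFS := hls g S T hD
    have hR : FS K (fun v => (Multiset.card T : ℝ) / 2 * Real.log (v q.leadingCoeff) +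
        lsum (ext v) g S T + Multiset.card T * -c j v) :=
      ((l1.const_mul _).add hFS).add ((hcF j).neg.const_mul _)
    have hle := Vs_mono hR x1 fun v hv => by
      rw [hxv v hv]
      refine (le_of_eq ?_).trans (PR_.sum_le T (fun Q => Real.log (ext v (nr F).leadingCoeff) / 2 +
        (S.map fun P => le (ext v) g P Q).sum + -c j v) _ fun Q hQ => ?_)
      · rw [hadd v (-c j v), hl, hx.ext.ex v hv]
      · have := (hc j v hv F S hd hj.symm Q (hT.1 Q hQ)).2 (fun P hP => hTj P hP Q hQ)
        linarith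
    rw [x2, Vs_add ((l1.const_mul _).add hFS) ((hcF j).neg.const_mul _),
      Vs_add (l1.const_mul _) hFS, Vs_const_mul _ l1, l2, mul_zero, zero_add,
      Vs_const_mul _ (hcF j).neg, Vs_neg (hcF j)] at hle
    have : Vs K (fun v => lsum (ext v) g S T) = pr ext g S T := rfl
    rw [this] at hle
    linarith

end Pool.Agent.HMW
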