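import Pool.Agent.HMW.Targets

set_option autoImplicit false
set_option linter.unusedVariables false
set_option linter.unusedSectionVars false

/-!
# PRU: upper bound for the pairing of two points
-/

open Polynomial Height Height.AdmissibleAbsValues NumberField IsDedekindDomain
open scoped Classical WithZero

noncomputable section

namespace Pool.Agent.HMW

theorem p_PRU : T_PUP → T_FSP → T_PRU := by
  intro hPUP hFSP K E _ _ _ _ _ _ _ g θ f ext hC
  obtain ⟨c, hcF, hc0, hc⟩ := hPUP K E g θ f ext hC
  obtain ⟨hF1, hF2, hF3⟩ := hFSP K E ext hC.ext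
  refine ⟨Vs K c, ?_⟩
  intro P Q hP hQ hne
  have hDj : Dj ({P} : Multiset (E × E)) {Q} := by
    intro R hR hR'
    rw [Multiset.mem_singleton] at hR hR'
    exact hne (hR.symm.trans hR')
  have e1 : HH ext {P} = Vs K (fun v => Real.log (nm (ext v) P)) := by
    unfold HH
    simp only [Multiset.map_singleton, Multiset.sum_singleton]
  have e2 : HH ext {Q} = Vs K (fun v => Real.log (nm (ext v) Q)) := by
    unfold HH
    simp only [Multiset.map_singleton, Multiset.sum_singleton]
  have hloc : ∀ v, Pl K v → lsum (ext v) g {P} {Q} ≤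
      (1 / 2 * Real.log (nm (ext v) P) + 1 / 2 * Real.log (nm (ext v) Q)) + c v := by
    intro v hv
    have h1 := hc v hv P Q hP hQ hne
    simp only [lsum, Multiset.map_singleton, Multiset.sum_singleton]
    linarith
  have hmain := Vs_mono (hF3 g {P} {Q} hDj)
    ((((hF1 P).const_mul (1 / 2)).add ((hF1 Q).const_mul (1 / 2))).add hcF) hloc
  rw [Vs_add (((hF1 P).const_mul (1 / 2)).add ((hF1 Q).const_mul (1 / 2))) hcF,
    Vs_add ((hF1 P).const_mul (1 / 2)) ((hF1 Q).const_mul (1 / 2)),
    Vs_const_mul _ (hF1 P), Vs_const_mul _ (hF1 Q), ← e1, ← e2] at hmain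
  unfold pr
  linarith

end Pool.Agent.HMW
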