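import Pool.Agent.HMW.Targets

set_option autoImplicit false

/-!
# Mordell-Weil for hyperelliptic Jacobians: a divisor of degree `m` imposes `m` linear conditions
-/

open Polynomial

noncomputable section

namespace Pool.Agent.HMW

namespace PSI_

theorem aux (h : T_PHI) (E : Type) [Field E] [CharZero E] (g : ℕ) (f : E[X]) (hf : Cv g f)
    (S : Multiset (E × E)) : OnM f S → ∀ n : ℕ, Multiset.card S = n →
    ∃ Ψ : RR f →ₗ[E] (Fin n → E), ∀ G, Ψ G = 0 → G ∈ IS f S := by
  induction S using Multiset.induction_on with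
  | empty =>
    intro _ n _
    exact ⟨0, fun G _ => by rw [IS_zero]; trivial⟩
  | cons P S ih =>
    intro hS n hn
    obtain ⟨m, rfl⟩ : ∃ m, n = m + 1 := ⟨Multiset.card S, by rw [← hn, Multiset.card_cons]⟩
    have hS' : OnM f S := hS.of_le (Multiset.le_cons_self S P)
    obtain ⟨Ψ, hΨ⟩ := ih hS' m (by rw [Multiset.card_cons] at hn; omega)
    obtain ⟨φ, hφ⟩ := h E g f hf S P hS' (hS P (Multiset.mem_cons_self P S))
    refine ⟨LinearMap.pi (Fin.cons φ fun i => (LinearMap.proj i).comp Ψ), fun G hG => ?_⟩
    have h0 : φ G = 0 := by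
      have := congrFun hG 0
      simpa using this
    have h1 : Ψ G = 0 := by
      funext i
      have := congrFun hG i.succ
      simpa using this
    exact hφ G (hΨ G h1) h0

end PSI_

theorem p_PSI : T_PHI → T_PSI := by
  intro h E _ _ g f hf S hS
  exact PSI_.aux h E g f hf S hS _ rfl

end Pool.Agent.HMW
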