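import Pool.Agent.HMW.Targets

set_option autoImplicit false

/-!
# HMW-PUP: upper bound for the local symbol
-/

open Polynomial Height Height.AdmissibleAbsValues NumberField IsDedekindDomain
open scoped Classical WithZero

noncomputable section

namespace Pool.Agent.HMW

theorem p_PUP : T_CXF → T_TAME → T_L2 → T_PUP := by
  intro hCXF hTAME hL2 K E _ _ _ _ _ _ _ g θ f ext hCx
  obtain ⟨hCv, -, -⟩ := hCXF K E g θ f ext hCx
  obtain ⟨N, Λ, hΛ, hTm⟩ := hTAME K E g θ f ext hCx
  obtain ⟨e, he⟩ := hL2 g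
  refine ⟨fun v => (e : ℝ) * |Real.log (Λ v)|, ?_, fun v => by positivity, ?_⟩
  · refine hΛ.subset fun v hv => ?_
    rw [Function.mem_support] at hv ⊢
    intro h0
    apply hv
    have h1 : Real.log (Λ v) = 0 := h0
    show (e : ℝ) * |Real.log (Λ v)| = 0
    rw [h1]
    simp
  · intro v hv P Q hP hQ hPQ
    have ht := hTm v hv
    obtain ⟨h1, -⟩ := he E (ext v) f (Λ v) hCv ht.one ht.add ht.cf P Q hP hQ
    have h2 := Real.log_le_log (dd_pos (ext v) g hPQ) h1
    rw [Real.log_pow] at h2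
    have h3 : (e : ℝ) * Real.log (Λ v) ≤ (e : ℝ) * |Real.log (Λ v)| :=
      mul_le_mul_of_nonneg_left (le_abs_self _) (Nat.cast_nonneg e)
    unfold le
    linarith

end Pool.Agent.HMW
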