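import Pool.Agent.HMW.Targets

/-!
# A quasi-bilinear function is near a bilinear one
-/

set_option autoImplicit false

open Filter Topology

namespace Pool.Agent.HMW

namespace QB_

variable {G : Type} [AddCommGroup G]

/-- a bounded additive function vanishes -/
lemma add_bdd {ψ : G → ℝ} {M : ℝ} (hadd : ∀ a b, ψ (a + b) = ψ a + ψ b)
    (hM : ∀ a, |ψ a| ≤ M) (a : G) : ψ a = 0 := by
  have h0 : ψ 0 = 0 := by
    have := hadd 0 0
    rw [add_zero] at this
    linarith
  have hn : ∀ n : ℕ, ψ (n • a) = n * ψ a := by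
    intro n
    induction n with
    | zero => simp [h0]
    | succ n ih =>
      rw [succ_nsmul, hadd, ih]
      push_cast
      ring
  by_contra hne
  have hpos : 0 < |ψ a| := abs_pos.2 hne
  obtain ⟨n, hn'⟩ := exists_nat_gt (M / |ψ a|)
  rw [div_lt_iff₀ hpos] at hn'
  have h1 := hM (n • a)
  rw [hn, abs_mul, Nat.abs_cast] at h1
  linarith

/-- a quasi-additive function is near an additive one -/
lemma quasi {φ : G → ℝ} {C : ℝ} (hφ : ∀ a b, |φ (a + b) - φ a - φ b| ≤ C) :
    ∃ ψ : G → ℝ, (∀ a b, ψ (a + b) = ψ a + ψ b) ∧ ∀ a, |φ a - ψ a| ≤ C := by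
  set u : G → ℕ → ℝ := fun a k => φ (2 ^ k • a) / 2 ^ k with hu
  have hd : ∀ a k, dist (u a k) (u a (k + 1)) ≤ C / 2 / 2 ^ k := by
    intro a k
    rw [Real.dist_eq]
    have h1 : (2 ^ (k + 1) • a : G) = 2 ^ k • a + 2 ^ k • a := by
      rw [pow_succ, mul_nsmul, two_nsmul]
    have h2 := hφ (2 ^ k • a) (2 ^ k • a)
    rw [← h1] at h2
    have h3 : u a k - u a (k + 1) =
        -(φ (2 ^ (k + 1) • a) - φ (2 ^ k • a) - φ (2 ^ k • a)) / (2 * 2 ^ k) := by
      simp only [hu]
      rw [pow_succ]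
      field_simp
      ring
    rw [h3, abs_div, abs_neg, abs_of_pos (show (0 : ℝ) < 2 * 2 ^ k by positivity), div_div]
    exact div_le_div_of_nonneg_right h2 (by positivity)
  have hc : ∀ a, ∃ l, Tendsto (u a) atTop (𝓝 l) := fun a =>
    cauchySeq_tendsto_of_complete (cauchySeq_of_le_geometric_two (hd a))
  choose ψ hψ using hc
  refine ⟨ψ, fun a b => ?_, fun a => ?_⟩
  · have h1 : Tendsto (fun k => u (a + b) k - u a k - u b k) atTop
        (𝓝 (ψ (a + b) - ψ a - ψ b)) := ((hψ _).sub (hψ _)).sub (hψ _)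
    have h2 : Tendsto (fun k => u (a + b) k - u a k - u b k) atTop (𝓝 0) := by
      have h3 : Tendsto (fun k : ℕ => C * (1 / 2 : ℝ) ^ k) atTop (𝓝 0) := by
        have := (tendsto_pow_atTop_nhds_zero_of_lt_one (r := (1 / 2 : ℝ)) (by norm_num)
          (by norm_num)).const_mul C
        simpa using this
      refine squeeze_zero_norm (fun k => ?_) h3
      rw [Real.norm_eq_abs]
      have h4 := hφ (2 ^ k • a) (2 ^ k • b)
      rw [← nsmul_add] at h4
      have h5 : u (a + b) k - u a k - u b k =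
          (φ (2 ^ k • (a + b)) - φ (2 ^ k • a) - φ (2 ^ k • b)) * (1 / 2) ^ k := by
        simp only [hu]
        rw [div_pow, one_pow]
        ring
      rw [h5, abs_mul, abs_of_pos (show (0 : ℝ) < (1 / 2) ^ k by positivity)]
      exact mul_le_mul_of_nonneg_right h4 (by positivity)
    have h6 := tendsto_nhds_unique h1 h2
    linarith
  · have h1 := dist_le_of_le_geometric_two_of_tendsto₀ (hd a) (hψ a)
    rw [Real.dist_eq] at h1
    simpa [hu] using h1

end QB_

open QB_ in
theorem p_QB : T_QB := by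
  intro G _ q C hq hs
  have h1 : ∀ c, ∃ ψ : G → ℝ, (∀ a b, ψ (a + b) = ψ a + ψ b) ∧ ∀ a, |q a c - ψ a| ≤ C :=
    fun c => quasi (φ := fun a => q a c) fun a b => hq a b c
  choose ψ hψ hψC using h1
  -- additivity in the second variable
  have h2 : ∀ a b b', ψ (b + b') a - ψ b a - ψ b' a = 0 := by
    intro a b b'
    refine add_bdd (ψ := fun a => ψ (b + b') a - ψ b a - ψ b' a) (M := 7 * C) ?_ ?_ a
    · intro a a'
      simp only [hψ]
      ring
    · intro a
      have e1 := abs_le.1 (hψC (b + b') a)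
      have e2 := abs_le.1 (hψC b a)
      have e3 := abs_le.1 (hψC b' a)
      have e4 := abs_le.1 (hs a (b + b'))
      have e5 := abs_le.1 (hs a b)
      have e6 := abs_le.1 (hs a b')
      have e7 := abs_le.1 (hq b b' a)
      rw [abs_le]
      constructor <;> linarith [e1.1, e1.2, e2.1, e2.2, e3.1, e3.2, e4.1, e4.2, e5.1, e5.2, e6.1,
        e6.2, e7.1, e7.2]
  have h3 : ∀ a b, ψ b a - ψ a b = 0 := by
    intro a b
    refine add_bdd (ψ := fun a => ψ b a - ψ a b) (M := 3 * C) ?_ ?_ a
    · intro a a'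
      have := h2 b a a'
      simp only [hψ]
      linarith
    · intro a
      have e1 := abs_le.1 (hψC b a)
      have e2 := abs_le.1 (hψC a b)
      have e3 := abs_le.1 (hs a b)
      rw [abs_le]
      constructor <;> linarith [e1.1, e1.2, e2.1, e2.2, e3.1, e3.2]
  refine ⟨fun a c => ψ c a, fun a b c => hψ c a b, fun a b => ?_, C, fun a b => hψC b a⟩
  have := h3 a b
  linarith

end Pool.Agent.HMW
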