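import Pool.Agent.HMW.Targets

set_option autoImplicit false

/-!
# Reduction of rational divisors to degree at most `g`
-/

open Polynomial

namespace Pool.Agent.HMW

theorem p_RED : T_KR1 → T_RED := by
  intro hKR K E _ _ _ _ _ _ _ g f hf hK S hS
  rcases le_or_gt (Multiset.card S) g with hc | hc
  · exact ⟨S.map io, hS.io, Prin_NS hf hS, by rwa [Multiset.card_map]⟩
  · obtain ⟨F, hF0, hFK, hFS, hFD⟩ := hKR K E g f hf hK S (Multiset.card S + g) hS le_rfl
      (by omega)
    obtain ⟨T, hT⟩ := exists_isDiv hf hS.1 hFS hF0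
    have hMK : MK K f (S + T) := hT.MK hf hK hFK
    refine ⟨T, ?_, ⟨F, hFK, hT⟩, ?_⟩
    · rw [add_comm] at hMK
      exact hMK.of_add hS
    · have h1 := (WD_iff hf hF0 _).1 hFD
      rw [hT.deg, Multiset.card_add] at h1
      omega

end Pool.Agent.HMW
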