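import Pool.Agent.HMW.Targets

/-!
# SEL: generalised Selmer groups are finite
-/

set_option autoImplicit false

open Polynomial NumberField IsDedekindDomain

namespace Pool.Agent.HMW

namespace SEL_

variable {K : Type} [Field K] [NumberField K]

theorem val_exists (P : Ideal (𝓞 K)) (hP : Prime P) (I : Ideal (𝓞 K)) (hI : I ≠ 0) :
    ∃ (n : ℕ) (I' : Ideal (𝓞 K)), ¬ P ∣ I' ∧ I = P ^ n * I' :=
  WfDvdMonoid.max_power_factor hI hP.irreducible

/-- decomposition of an ideal as a product of an ideal free of `m`-th powers and an `m`-th power -/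
theorem decomp (m : ℕ) (hm : 0 < m) (I : Ideal (𝓞 K)) (hI : I ≠ 0) :
    ∃ A B : Ideal (𝓞 K), I = A * B ^ m ∧ ∀ P : Ideal (𝓞 K), Prime P → ¬ P ^ m ∣ A := by
  induction I using WfDvdMonoid.induction_on_irreducible with
  | zero => exact absurd rfl hI
  | unit u hu =>
    refine ⟨u, 1, by rw [one_pow, mul_one], fun P hP h => ?_⟩
    exact hP.not_isUnit (isUnit_of_dvd_unit ((dvd_pow_self P hm.ne').trans h) hu)
  | mul z p hz hp ih =>
    obtain ⟨A, B, h1, h2⟩ := ih hz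
    have hpp : Prime p := hp.prime
    by_cases hex : ∃ P : Ideal (𝓞 K), Prime P ∧ P ^ m ∣ p * A
    · obtain ⟨P, hP, A', hA'⟩ := hex
      have hPp : P = p := by
        by_contra hne
        have h3 : ¬ P ∣ p := fun h => hne (associated_iff_eq.1 (hP.associated_of_dvd hpp h))
        exact h2 P hP (hP.pow_dvd_of_dvd_mul_left m h3 ⟨A', hA'⟩)
      subst hPp
      obtain ⟨m', rfl⟩ : ∃ m', m = m' + 1 := ⟨m - 1, by omega⟩
      have h4 : A = P ^ m' * A' := by
        refine mul_left_cancel₀ hP.ne_zero ?_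
        rw [hA']
        ring
      refine ⟨A', P * B, ?_, fun Q hQ h => h2 Q hQ ?_⟩
      · rw [h1, ← mul_assoc, hA']
        ring
      · rw [h4]
        exact h.trans (dvd_mul_left _ _)
    · push Not at hex
      refine ⟨p * A, B, ?_, hex⟩
      rw [h1]
      ring

theorem dvd_of (m : ℕ) (A M : Ideal (𝓞 K)) (hA0 : A ≠ 0) (hM0 : M ≠ 0)
    (h1 : ∀ P : Ideal (𝓞 K), Prime P → ¬ P ^ m ∣ A)
    (h2 : ∀ P : Ideal (𝓞 K), Prime P → P ∣ A → P ∣ M) : A ∣ M ^ m := by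
  classical
  rw [UniqueFactorizationMonoid.dvd_iff_normalizedFactors_le_normalizedFactors hA0
    (pow_ne_zero m hM0), Multiset.le_iff_count]
  intro P
  by_cases hP : P ∈ UniqueFactorizationMonoid.normalizedFactors A
  · have hPp : Prime P := UniqueFactorizationMonoid.prime_of_normalized_factor P hP
    have hPA : P ∣ A := UniqueFactorizationMonoid.dvd_of_mem_normalizedFactors hP
    have h3 := UniqueFactorizationMonoid.emultiplicity_eq_count_normalizedFactors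
      hPp.irreducible hA0
    have h4 := UniqueFactorizationMonoid.emultiplicity_eq_count_normalizedFactors
      hPp.irreducible (pow_ne_zero m hM0)
    rw [normalize_eq] at h3 h4
    have h5 : emultiplicity P A < m := by
      rw [← not_le, ← pow_dvd_iff_le_emultiplicity]
      exact h1 P hPp
    have h6 : (m : ℕ∞) ≤ emultiplicity P (M ^ m) := by
      rw [← pow_dvd_iff_le_emultiplicity]
      exact pow_dvd_pow_of_dvd (h2 P hPp hPA) m
    have h7 := h5.le.trans h6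
    rw [h3, h4] at h7
    exact_mod_cast h7
  · rw [Multiset.count_eq_zero_of_notMem hP]
    exact Nat.zero_le _

theorem units_fin (K : Type) [Field K] [NumberField K] (m : ℕ) (hm : 0 < m) :
    ∃ U : Finset (𝓞 K)ˣ, ∀ u : (𝓞 K)ˣ, ∃ v ∈ U, ∃ w : (𝓞 K)ˣ, u = v * w ^ m := by
  classical
  set S : Subgroup (𝓞 K)ˣ := (powMonoidHom m : (𝓞 K)ˣ →* (𝓞 K)ˣ).range with hS
  have hfg : Group.FG (𝓞 K)ˣ := Group.fg_iff_monoid_fg.mpr inferInstance
  have hfg2 : Group.FG ((𝓞 K)ˣ ⧸ S) := inferInstance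
  have htor : IsMulTorsion ((𝓞 K)ˣ ⧸ S) := by
    intro x
    obtain ⟨g, rfl⟩ := QuotientGroup.mk_surjective x
    rw [isOfFinOrder_iff_pow_eq_one]
    refine ⟨m, hm, ?_⟩
    rw [← QuotientGroup.mk_pow, QuotientGroup.eq_one_iff]
    exact ⟨g, rfl⟩
  have hfin : Finite ((𝓞 K)ˣ ⧸ S) := CommGroup.finite_of_fg_isMulTorsion _ htor
  have hfin2 : Fintype ((𝓞 K)ˣ ⧸ S) := Fintype.ofFinite _
  refine ⟨Finset.univ.image (fun x : (𝓞 K)ˣ ⧸ S => x.out), ?_⟩
  intro u
  refine ⟨((u : (𝓞 K)ˣ ⧸ S)).out, Finset.mem_image_of_mem _ (Finset.mem_univ _), ?_⟩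
  have h1 : (((u : (𝓞 K)ˣ ⧸ S)).out : (𝓞 K)ˣ ⧸ S) = (u : (𝓞 K)ˣ ⧸ S) := Quotient.out_eq' _
  rw [QuotientGroup.eq] at h1
  obtain ⟨w, hw⟩ := h1
  refine ⟨w, ?_⟩
  have h2 : w ^ m = (((u : (𝓞 K)ˣ ⧸ S)).out)⁻¹ * u := hw
  rw [h2]
  group

theorem class_fin (K : Type) [Field K] [NumberField K] :
    ∃ S : Set (Ideal (𝓞 K)), S.Finite ∧ ∀ I : Ideal (𝓞 K), I ≠ ⊥ → ∃ J ∈ S, J ≠ ⊥ ∧
      ∃ α : 𝓞 K, I * J = Ideal.span {α} := by
  have hs : ∀ c : ClassGroup (𝓞 K), ∃ J : nonZeroDivisors (Ideal (𝓞 K)),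
      ClassGroup.mk0 J = c⁻¹ := fun c => ClassGroup.mk0_surjective _
  choose J hJ using hs
  refine ⟨Set.range (fun c => (J c : Ideal (𝓞 K))), Set.finite_range _, ?_⟩
  intro I hI
  have hI' : I ∈ nonZeroDivisors (Ideal (𝓞 K)) := mem_nonZeroDivisors_of_ne_zero hI
  obtain ⟨I0, hI0⟩ : ∃ I0 : nonZeroDivisors (Ideal (𝓞 K)), (I0 : Ideal (𝓞 K)) = I :=
    ⟨⟨I, hI'⟩, rfl⟩
  refine ⟨J (ClassGroup.mk0 I0), ⟨_, rfl⟩, nonZeroDivisors.coe_ne_zero _, ?_⟩
  have h1 : ClassGroup.mk0 (I0 * J (ClassGroup.mk0 I0)) = 1 := by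
    rw [map_mul, hJ, mul_inv_cancel]
  have h2 : ((I0 * J (ClassGroup.mk0 I0) : nonZeroDivisors (Ideal (𝓞 K))) :
      Ideal (𝓞 K)).IsPrincipal :=
    (ClassGroup.mk0_eq_one_iff (I0 * J (ClassGroup.mk0 I0)).2).mp h1
  obtain ⟨α, hα⟩ := h2
  refine ⟨α, ?_⟩
  rw [← hI0]
  exact hα

/-- The primes dividing the part free of `m`-th powers of `(ω)`, `ω = x b ^ m`, contain `N`. -/
theorem parity (m : ℕ) (N : 𝓞 K) (x : K) (hx : x ≠ 0)
    (hN : ∀ v : HeightOneSpectrum (𝓞 K), N ∉ v.asIdeal →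
      (m : ℤ) ∣ WithZero.log (v.valuation K x))
    (b ω : 𝓞 K) (hb : b ≠ 0) (hω0 : ω ≠ 0) (hω : x * (b : K) ^ m = ω) (A B : Ideal (𝓞 K))
    (hA : ∀ P : Ideal (𝓞 K), Prime P → ¬ P ^ m ∣ A)
    (hAB : Ideal.span {ω} = A * B ^ m) (P : Ideal (𝓞 K)) (hP : Prime P) (hPA : P ∣ A) :
    P ∣ Ideal.span {N} := by
  rw [Ideal.dvd_span_singleton]
  by_contra hNP
  have hspω : Ideal.span {ω} ≠ (0 : Ideal (𝓞 K)) := by
    rw [Ideal.zero_eq_bot, Ne, Ideal.span_singleton_eq_bot]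
    exact hω0
  have hA0 : A ≠ 0 := fun h => hspω (by rw [hAB, h, zero_mul])
  have hm0 : m ≠ 0 := by
    rintro rfl
    exact hA P hP (by rw [pow_zero]; exact one_dvd _)
  have hB0 : B ≠ 0 := fun h => hspω (by rw [hAB, h, zero_pow hm0, mul_zero])
  obtain ⟨i, A', hA', hAi⟩ := val_exists P hP A hA0
  obtain ⟨j, B', hB', hBj⟩ := val_exists P hP B hB0
  have hi0 : i ≠ 0 := by
    rintro rfl
    rw [pow_zero, one_mul] at hAi
    exact hA' (hAi ▸ hPA)
  have him : i < m := by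
    by_contra h
    push Not at h
    refine hA P hP ?_
    rw [hAi]
    exact (pow_dvd_pow P h).trans (dvd_mul_right _ _)
  have hωP : Ideal.span {ω} = P ^ (i + j * m) * (A' * B' ^ m) := by
    rw [hAB, hAi, hBj]
    ring
  have hnd : ¬ P ∣ A' * B' ^ m := by
    intro h
    rcases hP.dvd_or_dvd h with h | h
    · exact hA' h
    · exact hB' (hP.dvd_of_dvd_pow h)
  have hmul : multiplicity P (Ideal.span {ω}) = i + j * m := by
    refine multiplicity_eq_of_dvd_of_not_dvd (by rw [hωP]; exact dvd_mul_right _ _) fun h => ?_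
    rw [hωP, pow_succ] at h
    exact hnd ((mul_dvd_mul_iff_left (pow_ne_zero _ hP.ne_zero)).mp h)
  set v : HeightOneSpectrum (𝓞 K) := ⟨P, Ideal.isPrime_of_prime hP, hP.ne_zero⟩ with hv
  obtain ⟨t, ht⟩ := hN v hNP
  have h1 : v.valuation K (ω : K) = WithZero.exp (-((i + j * m : ℕ) : ℤ)) := by
    have h2 := v.valuation_of_algebraMap (K := K) ω
    rw [v.intValuation_eq_exp_neg_multiplicity hω0] at h2
    rw [← hmul]
    exact h2
  have hbK : (b : K) ≠ 0 := by simpa using hb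
  have h3 : WithZero.log (v.valuation K x) + m * WithZero.log (v.valuation K (b : K)) =
      -((i + j * m : ℕ) : ℤ) := by
    have h4 : v.valuation K x ≠ 0 := (Valuation.ne_zero_iff _).2 hx
    have h5 : v.valuation K (b : K) ≠ 0 := (Valuation.ne_zero_iff _).2 hbK
    have h6 := congrArg (fun y => WithZero.log (v.valuation K y)) hω
    simp only [map_mul, map_pow] at h6
    rw [h1, WithZero.log_exp, WithZero.log_mul h4 (pow_ne_zero m h5), WithZero.log_pow,
      nsmul_eq_mul] at h6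
    exact h6
  rw [ht] at h3
  have h7 : (m : ℤ) ∣ i := by
    refine ⟨-(t + WithZero.log (v.valuation K (b : K)) + j), ?_⟩
    push_cast at h3
    linear_combination h3
  have h8 := Nat.le_of_dvd (Nat.pos_of_ne_zero hi0) (Int.natCast_dvd_natCast.1 h7)
  omega

/-- The relation between a generator and a pair of ideals. -/
def Rel (m : ℕ) (A J : Ideal (𝓞 K)) (θ : K) : Prop :=
  θ ≠ 0 ∧ ∃ ω α : 𝓞 K, ω ≠ 0 ∧ α ≠ 0 ∧ θ * (α : K) ^ m = ω ∧
    Ideal.span {ω} * J ^ m = A * Ideal.span {α} ^ m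

theorem rel_unit (m : ℕ) (A J : Ideal (𝓞 K)) (hJ : J ≠ ⊥) (θ θ' : K) (h : Rel m A J θ)
    (h' : Rel m A J θ') : ∃ u : (𝓞 K)ˣ, θ = ((u : 𝓞 K) : K) * θ' := by
  obtain ⟨h0, ω, α, hω, hα, h1, h2⟩ := h
  obtain ⟨h0', ω', α', hω', hα', h1', h2'⟩ := h'
  have h3 : Ideal.span {ω * α' ^ m} * J ^ m = Ideal.span {ω' * α ^ m} * J ^ m := by
    have e1 : Ideal.span {ω * α' ^ m} = Ideal.span {ω} * Ideal.span {α'} ^ m := by
      rw [Ideal.span_singleton_pow, Ideal.span_singleton_mul_span_singleton]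
    have e2 : Ideal.span {ω' * α ^ m} = Ideal.span {ω'} * Ideal.span {α} ^ m := by
      rw [Ideal.span_singleton_pow, Ideal.span_singleton_mul_span_singleton]
    rw [e1, e2]
    calc Ideal.span {ω} * Ideal.span {α'} ^ m * J ^ m
        = (Ideal.span {ω} * J ^ m) * Ideal.span {α'} ^ m := by ring
      _ = (Ideal.span {ω'} * J ^ m) * Ideal.span {α} ^ m := by rw [h2, h2']; ring
      _ = Ideal.span {ω'} * Ideal.span {α} ^ m * J ^ m := by ring
  have h4 : Ideal.span {ω * α' ^ m} = Ideal.span {ω' * α ^ m} :=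
    mul_right_cancel₀ (pow_ne_zero m hJ) h3
  rw [Ideal.span_singleton_eq_span_singleton] at h4
  obtain ⟨u, hu⟩ := h4.symm
  refine ⟨u, ?_⟩
  have hα1 : (α : K) ≠ 0 := by simpa using hα
  have hα1' : (α' : K) ≠ 0 := by simpa using hα'
  have h5 : ((ω' * α ^ m * u : 𝓞 K) : K) = ((ω * α' ^ m : 𝓞 K) : K) := congrArg _ hu
  have h6 : (ω' : K) * (α : K) ^ m * ((u : 𝓞 K) : K) = (ω : K) * (α' : K) ^ m := by
    simpa using h5
  rw [← h1, ← h1'] at h6
  have h7 : (α : K) ^ m * (α' : K) ^ m ≠ 0 := mul_ne_zero (pow_ne_zero m hα1) (pow_ne_zero m hα1')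
  apply mul_right_cancel₀ h7
  linear_combination -h6

end SEL_

open SEL_ in
/-- SEL: elements whose valuations outside `N` are divisible by `m` lie in finitely many classes
modulo `m`-th powers. -/
theorem p_SEL : T_SEL := by
  intro K _ _ m N hm hN
  classical
  obtain ⟨U, hU⟩ := units_fin K m hm
  obtain ⟨S, hSfin, hS⟩ := class_fin K
  have hT : {A : Ideal (𝓞 K) | Ideal.absNorm A ≤
      Ideal.absNorm (Ideal.span {N} ^ m)}.Finite := Ideal.finite_setOfPred_absNorm_le _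
  set g : Ideal (𝓞 K) × Ideal (𝓞 K) → K := fun p =>
    if h : ∃ θ, Rel m p.1 p.2 θ then h.choose else 1 with hg
  have hg1 : ∀ (A J : Ideal (𝓞 K)) (θ : K), Rel m A J θ → Rel m A J (g (A, J)) := by
    intro A J θ h
    have h' : ∃ θ, Rel m A J θ := ⟨θ, h⟩
    have e : g (A, J) = h'.choose := dif_pos h'
    rw [e]
    exact h'.choose_spec
  have hg0 : ∀ p, g p ≠ 0 := by
    intro p
    by_cases h : ∃ θ, Rel m p.1 p.2 θ
    · have e : g p = h.choose := dif_pos h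
      rw [e]
      exact h.choose_spec.1
    · have e : g p = 1 := dif_neg h
      rw [e]
      exact one_ne_zero
  refine ⟨(U ×ˢ (hT.toFinset ×ˢ hSfin.toFinset)).image
    (fun x => ((x.1 : 𝓞 K) : K) * g x.2), ?_, ?_⟩
  · intro h hh
    obtain ⟨x, -, rfl⟩ := Finset.mem_image.mp hh
    refine mul_ne_zero ?_ (hg0 _)
    simp
  · intro η hη hηN
    obtain ⟨a, b, hb, hab⟩ := IsFractionRing.div_surjective (A := 𝓞 K) η
    have hb0 : b ≠ 0 := nonZeroDivisors.ne_zero hb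
    have hbK : (b : K) ≠ 0 := by simpa using hb0
    have haK : (a : K) ≠ 0 := by
      intro h
      apply hη
      rw [← hab]
      change (a : K) / (b : K) = 0
      rw [h, zero_div]
    have hab' : η = (a : K) / (b : K) := hab.symm
    obtain ⟨m', rfl⟩ : ∃ m', m = m' + 1 := ⟨m - 1, by omega⟩
    have hωK : η * (b : K) ^ (m' + 1) = ((a * b ^ m' : 𝓞 K) : K) := by
      have h9 : ((a * b ^ m' : 𝓞 K) : K) = (a : K) * (b : K) ^ m' := by simp
      rw [hab', h9]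
      field_simp
      ring
    have hω0 : a * b ^ m' ≠ 0 := by
      refine mul_ne_zero ?_ (pow_ne_zero _ hb0)
      rintro rfl
      exact haK (by simp)
    have hsp : Ideal.span {a * b ^ m'} ≠ (0 : Ideal (𝓞 K)) := by
      rw [Ideal.zero_eq_bot, Ne, Ideal.span_singleton_eq_bot]
      exact hω0
    obtain ⟨A, B, hAB, hA⟩ := decomp (m' + 1) hm _ hsp
    have hA0 : A ≠ 0 := fun h => hsp (by rw [hAB, h, zero_mul])
    have hN0 : Ideal.span {N} ≠ (0 : Ideal (𝓞 K)) := by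
      rw [Ideal.zero_eq_bot, Ne, Ideal.span_singleton_eq_bot]
      exact hN
    have hdvd : A ∣ Ideal.span {N} ^ (m' + 1) :=
      dvd_of (m' + 1) A _ hA0 hN0 hA (fun P hP hAP =>
        parity (m' + 1) N η hη hηN b (a * b ^ m') hb0 hω0 hωK A B hA hAB P hP hAP)
    have hAT : A ∈ hT.toFinset := by
      rw [Set.Finite.mem_toFinset]
      refine Nat.le_of_dvd (Nat.pos_of_ne_zero ?_) (map_dvd Ideal.absNorm hdvd)
      rw [Ne, Ideal.absNorm_eq_zero_iff]
      exact pow_ne_zero _ hN0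
    have hB0 : B ≠ ⊥ := by
      rintro rfl
      apply hsp
      rw [hAB, ← Ideal.zero_eq_bot, zero_pow (by omega), mul_zero]
    obtain ⟨J, hJS, hJ0, α, hα⟩ := hS B hB0
    have hα0 : α ≠ 0 := by
      rintro rfl
      rw [Ideal.span_singleton_eq_bot.mpr rfl] at hα
      exact (mul_ne_zero hB0 hJ0) hα
    have hαK : (α : K) ≠ 0 := by simpa using hα0
    have hrel : Rel (m' + 1) A J (((a * b ^ m' : 𝓞 K) : K) / (α : K) ^ (m' + 1)) := by
      refine ⟨div_ne_zero (by simpa using hω0) (pow_ne_zero _ hαK), a * b ^ m', α, hω0, hα0,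
        ?_, ?_⟩
      · field_simp
      · rw [hAB, ← hα]
        ring
    obtain ⟨u, hu⟩ := rel_unit (m' + 1) A J hJ0 _ _ hrel (hg1 A J _ hrel)
    obtain ⟨v, hv, w, hw⟩ := hU u
    have hwK : ((w : 𝓞 K) : K) ≠ 0 := by
      simp
    refine ⟨((v : 𝓞 K) : K) * g (A, J), ?_, ((w : 𝓞 K) : K) * (α : K) / (b : K), ?_, ?_⟩
    · refine Finset.mem_image.mpr ⟨(v, (A, J)), ?_, rfl⟩
      rw [Finset.mem_product, Finset.mem_product]
      exact ⟨hv, hAT, hSfin.mem_toFinset.mpr hJS⟩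
    · exact div_ne_zero (mul_ne_zero hwK hαK) hbK
    · have h6 : ((u : 𝓞 K) : K) = ((v : 𝓞 K) : K) * ((w : 𝓞 K) : K) ^ (m' + 1) := by
        rw [hw]
        simp
      rw [h6] at hu
      have h7 : ((a * b ^ m' : 𝓞 K) : K) =
          ((v : 𝓞 K) : K) * ((w : 𝓞 K) : K) ^ (m' + 1) * g (A, J) * (α : K) ^ (m' + 1) := by
        rw [← hu]
        field_simp
      have h8 : η = ((a * b ^ m' : 𝓞 K) : K) / (b : K) ^ (m' + 1) := by
        rw [← hωK]
        field_simp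
      rw [h8, h7, div_pow, mul_pow]
      ring

end Pool.Agent.HMW
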