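import Pool.Agent.HMW.Targets

set_option autoImplicit false
set_option linter.unusedVariables false
set_option linter.unusedSectionVars false

/-!
# SELF: upper bound for the pairing of a divisor with its conjugate
-/

open Polynomial Height Height.AdmissibleAbsValues NumberField IsDedekindDomain
open scoped Classical WithZero

noncomputable section

namespace Pool.Agent.HMW

namespace SELF_

variable {E : Type} [Field E]

theorem nm_io (v : AbsoluteValue E ℝ) (P : E × E) : nm v (io P) = nm v P := rfl

theorem dd_io (v : AbsoluteValue E ℝ) (g : ℕ) (P : E × E) :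
    dd v g P (io P) = v (2 * P.2) / nm v P ^ (g + 1) := by
  have hn : 0 < nm v P := nm_pos v P
  have h1 : v (P.2 - (io P).2) = v (2 * P.2) := by
    congr 1
    simp only [io]
    ring
  have h2 : v (P.2 * (io P).1 ^ (g + 1) - (io P).2 * P.1 ^ (g + 1)) =
      v (2 * P.2) * v P.1 ^ (g + 1) := by
    rw [← map_pow, ← map_mul]
    congr 1
    simp only [io]
    ring
  have h3 : v (P.1 - (io P).1) = 0 := by
    simp [io]
  unfold dd
  rw [h1, h2, h3, nm_io, zero_div]
  have h4 : 0 ≤ v (2 * P.2) := v.nonneg _
  have hp : 0 < (nm v P * nm v P) ^ (g + 1) := by positivity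
  have h5 : max (v (2 * P.2) / (nm v P * nm v P) ^ (g + 1))
      (v (2 * P.2) * v P.1 ^ (g + 1) / (nm v P * nm v P) ^ (g + 1)) =
      v (2 * P.2) / nm v P ^ (g + 1) := by
    rw [max_div_div_right hp.le]
    have h6 : max (v (2 * P.2)) (v (2 * P.2) * v P.1 ^ (g + 1)) =
        v (2 * P.2) * nm v P ^ (g + 1) := by
      have h7 : nm v P ^ (g + 1) = max 1 (v P.1 ^ (g + 1)) := by
        unfold nm
        rcases le_total 1 (v P.1) with h | h
        · rw [max_eq_right h, max_eq_right (one_le_pow₀ h)]
        · rw [max_eq_left h, max_eq_left (pow_le_one₀ (v.nonneg _) h), one_pow]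
      rw [h7, mul_max_of_nonneg _ _ h4, mul_one]
    rw [h6, mul_pow]
    have : nm v P ^ (g + 1) ≠ 0 := by positivity
    field_simp
  rw [h5]
  apply max_eq_right
  positivity

theorem le_io [CharZero E] (v : AbsoluteValue E ℝ) (g : ℕ) (P : E × E) (h : P.2 ≠ 0) :
    le v g P (io P) = Real.log (v (2 * P.2)) - g * Real.log (nm v P) := by
  have hn : 0 < nm v P := nm_pos v P
  have h1 : v (2 * P.2) ≠ 0 := v.ne_zero (mul_ne_zero two_ne_zero h)
  unfold le
  rw [dd_io, nm_io, Real.log_div h1 (by positivity), Real.log_pow]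
  push_cast
  ring

theorem local_bound (v : AbsoluteValue E ℝ) (g : ℕ) (c : ℝ) (S : Multiset (E × E))
    (h : ∀ P ∈ S, ∀ Q ∈ S, le v g P (io Q) ≤
      (Real.log (nm v P) + Real.log (nm v Q)) / 2 + c) :
    lsum v g S (S.map io) ≤ (S.map fun P => le v g P (io P)).sum +
      ((Multiset.card S : ℝ) - 1) * (S.map fun P => Real.log (nm v P)).sum +
      (Multiset.card S : ℝ) * ((Multiset.card S : ℝ) - 1) * c := by
  induction S using Multiset.induction_on with
  | empty => simp [lsum]
  | cons P S ih =>
    have ih' := ih (fun P' hP' Q' hQ' => h P' (Multiset.mem_cons_of_mem hP') Q'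
      (Multiset.mem_cons_of_mem hQ'))
    have hP : P ∈ P ::ₘ S := Multiset.mem_cons_self P S
    have e : lsum v g (P ::ₘ S) ((P ::ₘ S).map io) = le v g P (io P) +
        (S.map fun Q => le v g P (io Q)).sum + ((S.map fun Q => le v g Q (io P)).sum +
          lsum v g S (S.map io)) := by
      simp only [lsum, Multiset.map_cons, Multiset.sum_cons, Multiset.map_map,
        Function.comp_apply, Multiset.sum_map_add]
    have b1 : (S.map fun Q => le v g P (io Q)).sum ≤
        (S.map fun Q => (Real.log (nm v P) + Real.log (nm v Q)) / 2 + c).sum :=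
      Multiset.sum_map_le_sum_map _ _ (fun Q hQ => h P hP Q (Multiset.mem_cons_of_mem hQ))
    have b2 : (S.map fun Q => le v g Q (io P)).sum ≤
        (S.map fun Q => (Real.log (nm v P) + Real.log (nm v Q)) / 2 + c).sum := by
      apply Multiset.sum_map_le_sum_map
      intro Q hQ
      have := h Q (Multiset.mem_cons_of_mem hQ) P hP
      rwa [add_comm (Real.log (nm v Q))] at this
    have e2 : (S.map fun Q => (Real.log (nm v P) + Real.log (nm v Q)) / 2 + c).sum =
        (Multiset.card S : ℝ) * (Real.log (nm v P) / 2 + c) +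
          (S.map fun Q => Real.log (nm v Q)).sum / 2 := by
      have e3 : (fun Q : E × E => (Real.log (nm v P) + Real.log (nm v Q)) / 2 + c) =
          fun Q => (Real.log (nm v P) / 2 + c) + Real.log (nm v Q) / 2 := by
        funext Q
        ring
      rw [e3, Multiset.sum_map_add, Multiset.map_const', Multiset.sum_replicate, nsmul_eq_mul,
        Multiset.sum_map_div]
    rw [e2] at b1 b2
    rw [e]
    simp only [Multiset.map_cons, Multiset.sum_cons, Multiset.card_cons]
    push_cast
    nlinarith [b1, b2, ih']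

theorem log_prod (v : AbsoluteValue E ℝ) (S : Multiset (E × E)) (a : E × E → E)
    (h : ∀ P ∈ S, a P ≠ 0) :
    (S.map fun P => Real.log (v (a P))).sum = Real.log (v (S.map a).prod) := by
  induction S using Multiset.induction_on with
  | empty => simp
  | cons P S ih =>
    have ih' := ih (fun Q hQ => h Q (Multiset.mem_cons_of_mem hQ))
    have h1 : a P ≠ 0 := h P (Multiset.mem_cons_self P S)
    have h2 : (S.map a).prod ≠ 0 := by
      apply Multiset.prod_ne_zero
      intro h0
      obtain ⟨Q, hQ, hQ0⟩ := Multiset.mem_map.1 h0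
      exact h Q (Multiset.mem_cons_of_mem hQ) hQ0
    rw [Multiset.map_cons, Multiset.sum_cons, ih', Multiset.map_cons, Multiset.prod_cons, map_mul,
      Real.log_mul (v.ne_zero h1) (v.ne_zero h2)]

end SELF_

open SELF_ in
theorem p_SELF : T_CXF → T_PUP → T_FSP → T_SELF := by
  intro _ hPUP hFSP K E _ _ _ _ _ _ _ g θ f ext hC k
  obtain ⟨c, hcF, hc0, hc⟩ := hPUP K E g θ f ext hC
  obtain ⟨hF1, hF2, hF3⟩ := hFSP K E ext hC.ext
  have hVc : 0 ≤ Vs K c := Vs_nonneg hcF (fun v _ => hc0 v)
  refine ⟨(k : ℝ) * k * Vs K c, ?_⟩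
  intro S hS hk hio
  have hy : ∀ P ∈ S, P.2 ≠ 0 := by
    intro P hP h0
    apply hio P hP
    have : io P = P := by
      apply Prod.ext
      · rfl
      · simp [io, h0]
    rwa [this]
  have hne : ∀ P ∈ S, ∀ Q ∈ S, P ≠ io Q := by
    intro P hP Q hQ h
    exact hio Q hQ (h ▸ hP)
  have hDj : Dj S (S.map io) := by
    intro P hP h
    obtain ⟨Q, hQ, hQP⟩ := Multiset.mem_map.1 h
    exact hne P hP Q hQ hQP.symm
  -- the product of `2 y`
  obtain ⟨z, hz⟩ : (S.map fun P => 2 * P.2).prod ∈ Set.range (algebraMap K E) := by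
    apply mem_range_of_fixed
    intro σ
    rw [map_multiset_prod, Multiset.map_map]
    conv_rhs => rw [← hS.2 σ]
    rw [Multiset.map_map]
    congr 1
    apply Multiset.map_congr rfl
    intro P _
    simp only [Function.comp_apply, act, map_mul, map_ofNat]
  have hz0 : z ≠ 0 := by
    rintro rfl
    rw [map_zero] at hz
    have := Multiset.prod_eq_zero_iff.1 hz.symm
    obtain ⟨P, hP, hP0⟩ := Multiset.mem_map.1 this
    exact mul_ne_zero two_ne_zero (hy P hP) hP0
  obtain ⟨hzF, hzV⟩ := Vs_log (K := K) hz0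
  have hHF : FS K (fun v => (S.map fun P => Real.log (nm (ext v) P)).sum) :=
    FS_multiset_sum S _ (fun P _ => hF1 P)
  have hloc : ∀ v, Pl K v → lsum (ext v) g S (S.map io) ≤
      (Real.log (v z) + ((Multiset.card S : ℝ) - 1 - g) *
        (S.map fun P => Real.log (nm (ext v) P)).sum) + (k : ℝ) * k * c v := by
    intro v hv
    have h1 := local_bound (ext v) g (c v) S (by
      intro P hP Q hQ
      have := hc v hv P (io Q) (hS.1 P hP) (hS.1 Q hQ).io (hne P hP Q hQ)
      rwa [nm_io] at this)
    have h2 : (S.map fun P => le (ext v) g P (io P)).sum =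
        Real.log (v z) - g * (S.map fun P => Real.log (nm (ext v) P)).sum := by
      have h3 : S.map (fun P => le (ext v) g P (io P)) =
          S.map (fun P => Real.log (ext v (2 * P.2)) + (-(g : ℝ)) * Real.log (nm (ext v) P)) := by
        apply Multiset.map_congr rfl
        intro P hP
        rw [le_io (ext v) g P (hy P hP)]
        ring
      rw [h3, Multiset.sum_map_add, log_prod (ext v) S (fun P => 2 * P.2)
        (fun P hP => mul_ne_zero two_ne_zero (hy P hP)), ← hz, hC.ext.ex v hv]
      rw [Multiset.sum_map_mul_left]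
      ring
    have h4 : (Multiset.card S : ℝ) * ((Multiset.card S : ℝ) - 1) * c v ≤ (k : ℝ) * k * c v := by
      apply mul_le_mul_of_nonneg_right _ (hc0 v)
      have h5 : (Multiset.card S : ℝ) ≤ k := by exact_mod_cast hk
      have h6 : (0 : ℝ) ≤ Multiset.card S := by positivity
      nlinarith
    rw [h2] at h1
    linarith
  have hmain := Vs_mono (hF3 g S (S.map io) hDj)
    ((hzF.add (hHF.const_mul ((Multiset.card S : ℝ) - 1 - g))).add (hcF.const_mul ((k : ℝ) * k)))
    hloc
  rw [Vs_add (hzF.add (hHF.const_mul _)) (hcF.const_mul _),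
    Vs_add hzF (hHF.const_mul _), Vs_const_mul _ hHF, Vs_const_mul _ hcF, hzV, zero_add] at hmain
  exact hmain

end Pool.Agent.HMW
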