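import Pool.Agent.HMW.Targets

/-!
# Vectors with large angles in a finitely generated group with a form
-/

set_option autoImplicit false

open Matrix
open scoped MatrixOrder

namespace Pool.Agent.HMW

namespace SPH_

variable {G : Type} [AddCommGroup G] {B : G → G → ℝ}

lemma zero_left (hadd : ∀ a b c, B (a + b) c = B a c + B b c) (c : G) : B 0 c = 0 := by
  have := hadd 0 0 c
  rw [add_zero] at this
  linarith

lemma sum_left (hadd : ∀ a b c, B (a + b) c = B a c + B b c) {ι : Type} (s : Finset ι)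
    (g : ι → G) (c : G) : B (∑ i ∈ s, g i) c = ∑ i ∈ s, B (g i) c := by
  classical
  induction s using Finset.induction_on with
  | empty => simp [zero_left hadd]
  | insert i s hi ih => rw [Finset.sum_insert hi, Finset.sum_insert hi, hadd, ih]

lemma zsmul_left (hadd : ∀ a b c, B (a + b) c = B a c + B b c) (z : ℤ) (a c : G) :
    B (z • a) c = z * B a c := by
  let φ : G →+ ℝ :=
    { toFun := fun a => B a c, map_zero' := zero_left hadd c, map_add' := fun a b => hadd a b c }
  have := φ.map_zsmul z a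
  change B (z • a) c = z • B a c at this
  rw [this, zsmul_eq_mul]

/-- the form in coordinates -/
lemma coords (hadd : ∀ a b c, B (a + b) c = B a c + B b c) (hs : ∀ a b, B a b = B b a) {n : ℕ}
    (f : (Fin n → ℤ) →ₗ[ℤ] G) (v w : Fin n → ℤ) :
    B (f v) (f w) = (fun i => (v i : ℝ)) ⬝ᵥ
      ((Matrix.of fun i j => B (f (Pi.single i 1)) (f (Pi.single j 1))) *ᵥ
        fun i => (w i : ℝ)) := by
  have hf : ∀ v : Fin n → ℤ, f v = ∑ i, v i • f (Pi.single i 1) := by
    intro v
    conv_lhs => rw [pi_eq_sum_univ' v]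
    rw [map_sum]
    refine Finset.sum_congr rfl fun i _ => ?_
    rw [map_smul]
  have h1 : ∀ (v : Fin n → ℤ) (c : G), B (f v) c = ∑ i, (v i : ℝ) * B (f (Pi.single i 1)) c := by
    intro v c
    conv_lhs => rw [hf v]
    rw [sum_left hadd]
    exact Finset.sum_congr rfl fun i _ => zsmul_left hadd _ _ _
  rw [h1]
  simp only [dotProduct, mulVec, Matrix.of_apply]
  refine Finset.sum_congr rfl fun i _ => ?_
  rw [hs, h1]
  congr 1
  refine Finset.sum_congr rfl fun j _ => ?_
  rw [hs, mul_comm]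

/-- a real symmetric matrix which is nonnegative on integral vectors is positive semidefinite -/
lemma psd {n : ℕ} {A : Matrix (Fin n) (Fin n) ℝ} (hA : A.IsHermitian)
    (h : ∀ v : Fin n → ℤ, 0 ≤ (fun i => (v i : ℝ)) ⬝ᵥ (A *ᵥ fun i => (v i : ℝ))) :
    A.PosSemidef := by
  rw [posSemidef_iff_dotProduct_mulVec]
  refine ⟨hA, fun x => ?_⟩
  rw [star_trivial]
  have hcont : Continuous (fun x : Fin n → ℝ => x ⬝ᵥ (A *ᵥ x)) := by
    simp only [dotProduct, mulVec]
    fun_prop
  have hd : DenseRange (Pi.map fun _ : Fin n => ((↑) : ℚ → ℝ)) :=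
    DenseRange.piMap fun _ => Rat.denseRange_cast
  refine hd.induction_on (p := fun x => 0 ≤ x ⬝ᵥ (A *ᵥ x)) x
    (isClosed_le continuous_const hcont) fun v => ?_
  -- common denominator
  set D : ℕ := ∏ i, (v i).den with hD
  have hDpos : 0 < D := Finset.prod_pos fun i _ => (v i).den_pos
  have hDr : (0 : ℝ) < D := by exact_mod_cast hDpos
  have hint : ∀ i, ∃ z : ℤ, (z : ℝ) = D * (v i : ℝ) := by
    intro i
    obtain ⟨e, he⟩ := Finset.dvd_prod_of_mem (fun i => (v i).den) (Finset.mem_univ i)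
    refine ⟨e * (v i).num, ?_⟩
    have h1 : ((v i : ℚ) : ℝ) = (v i).num / (v i).den := by
      exact_mod_cast (Rat.num_div_den (v i)).symm
    have h2 : ((v i).den : ℝ) ≠ 0 := by exact_mod_cast (v i).den_ne_zero
    have h3 : (D : ℝ) = (v i).den * e := by
      rw [hD, he]
      push_cast
      ring
    rw [h3, h1]
    push_cast
    field_simp
  choose z hz using hint
  have h1 := h z
  have h2 : (fun i => (z i : ℝ)) = (D : ℝ) • (Pi.map fun _ : Fin n => ((↑) : ℚ → ℝ)) v := by
    funext i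
    rw [hz]
    rfl
  rw [h2, mulVec_smul, smul_dotProduct, dotProduct_smul, smul_eq_mul, smul_eq_mul] at h1
  have h3 : 0 ≤ (D : ℝ) * ((D : ℝ) * ((Pi.map fun _ : Fin n => ((↑) : ℚ → ℝ)) v ⬝ᵥ
    (A *ᵥ (Pi.map fun _ : Fin n => ((↑) : ℚ → ℝ)) v))) := h1
  exact nonneg_of_mul_nonneg_right (nonneg_of_mul_nonneg_right h3 hDr) hDr

end SPH_

open SPH_ in
theorem p_SPH : T_SPH := by
  classical
  intro G _ B hadd hs hnn hfg ρ hρ
  have : Module.Finite ℤ G := Module.Finite.iff_addGroup_fg.2 hfg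
  obtain ⟨n, f, hf⟩ := Module.Finite.exists_fin' ℤ G
  set A : Matrix (Fin n) (Fin n) ℝ :=
    Matrix.of fun i j => B (f (Pi.single i 1)) (f (Pi.single j 1)) with hAdef
  have hA : A.IsHermitian := by
    ext i j
    simp only [hAdef, conjTranspose_apply, Matrix.of_apply, star_trivial]
    exact hs _ _
  have hpsd : A.PosSemidef := by
    refine psd hA fun v => ?_
    rw [← coords hadd hs f v v]
    exact hnn _
  obtain ⟨y, hy⟩ := CStarAlgebra.nonneg_iff_eq_star_mul_self.mp hpsd.nonneg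
  have hAy : A = yᵀ * y := by
    rw [hy, star_eq_conjTranspose, conjTranspose_eq_transpose_of_trivial]
  -- the embedding
  have hB : ∀ v w : Fin n → ℤ, B (f v) (f w) =
      (y *ᵥ fun i => (v i : ℝ)) ⬝ᵥ (y *ᵥ fun i => (w i : ℝ)) := by
    intro v w
    rw [coords hadd hs f v w, ← hAdef, hAy, ← mulVec_mulVec, dotProduct_mulVec,
      vecMul_transpose]
  choose V hV using hf
  -- unit vectors
  set U : G → Fin n → ℝ := fun c => (√(B c c))⁻¹ • (y *ᵥ fun i => (V c i : ℝ)) with hU
  have hUU : ∀ c c', U c ⬝ᵥ U c' = (√(B c c))⁻¹ * ((√(B c' c'))⁻¹ * B c c') := by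
    intro c c'
    simp only [hU]
    rw [smul_dotProduct, dotProduct_smul, ← hB, hV, hV, smul_eq_mul, smul_eq_mul]
  have hU1 : ∀ c, 0 < B c c → U c ⬝ᵥ U c = 1 := by
    intro c hc
    rw [hUU]
    have h1 : √(B c c) * √(B c c) = B c c := Real.mul_self_sqrt hc.le
    have h2 : 0 < √(B c c) := Real.sqrt_pos.2 hc
    field_simp
    rw [sq]
    exact h1.symm
  have hδ : 0 < √((2 - 2 * ρ) / (n + 1)) := Real.sqrt_pos.2 (by
    apply div_pos
    · linarith
    · positivity)
  set δ : ℝ := √((2 - 2 * ρ) / (n + 1)) with hδdef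
  have hδ2 : (n : ℝ) * δ ^ 2 < 2 - 2 * ρ := by
    rw [hδdef, Real.sq_sqrt (div_nonneg (by linarith) (by positivity)), mul_div_assoc',
      div_lt_iff₀ (by positivity)]
    nlinarith
  obtain ⟨t, -, htf, htc⟩ := (isCompact_closedBall (0 : Fin n → ℝ) 1).finite_cover_balls
    (half_pos hδ)
  refine ⟨htf.toFinset.card, fun s hpos hang => ?_⟩
  have hmem : ∀ c ∈ s, ∃ x ∈ t, U c ∈ Metric.ball x (δ / 2) := by
    intro c hc
    have h1 : U c ∈ Metric.closedBall (0 : Fin n → ℝ) 1 := by
      rw [mem_closedBall_zero_iff, pi_norm_le_iff_of_nonneg zero_le_one]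
      intro i
      have h2 := hU1 c (hpos c hc)
      have h3 : U c i * U c i ≤ U c ⬝ᵥ U c :=
        Finset.single_le_sum (f := fun i => U c i * U c i) (fun i _ => mul_self_nonneg _)
          (Finset.mem_univ i)
      rw [h2] at h3
      rw [Real.norm_eq_abs]
      exact abs_le_one_iff_mul_self_le_one.2 h3
    have h4 := htc h1
    simp only [Set.mem_iUnion, exists_prop] at h4
    exact h4
  choose! x hxt hxb using hmem
  refine Finset.card_le_card_of_injOn x (fun c hc => htf.mem_toFinset.2 (hxt c hc)) ?_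
  intro c hc c' hc' hxx
  have hc : c ∈ s := hc
  have hc' : c' ∈ s := hc'
  by_contra hne
  have h1 := hxb c hc
  have h2 := hxb c' hc'
  rw [← hxx] at h2
  have h3 : dist (U c) (U c') < δ := by
    have := dist_triangle_right (U c) (U c') (x c)
    rw [Metric.mem_ball] at h1 h2
    linarith
  have h4 : ∑ i, (U c i - U c' i) ^ 2 ≤ n * δ ^ 2 := by
    have h5 : ∀ i ∈ (Finset.univ : Finset (Fin n)), (U c i - U c' i) ^ 2 ≤ δ ^ 2 := by
      intro i _
      have h6 : dist (U c i) (U c' i) ≤ dist (U c) (U c') := dist_le_pi_dist _ _ i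
      rw [Real.dist_eq] at h6
      rw [← sq_abs]
      exact pow_le_pow_left₀ (abs_nonneg _) (h6.trans h3.le) 2
    have := Finset.sum_le_card_nsmul _ _ _ h5
    simpa using this
  have h5 : ∑ i, (U c i - U c' i) ^ 2 = 2 - 2 * (U c ⬝ᵥ U c') := by
    have e1 : ∑ i, (U c i - U c' i) ^ 2 = U c ⬝ᵥ U c - 2 * (U c ⬝ᵥ U c') + U c' ⬝ᵥ U c' := by
      simp only [dotProduct, Finset.mul_sum]
      rw [← Finset.sum_sub_distrib, ← Finset.sum_add_distrib]
      refine Finset.sum_congr rfl fun i _ => ?_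
      ring
    rw [e1, hU1 c (hpos c hc), hU1 c' (hpos c' hc')]
    ring
  have h6 : U c ⬝ᵥ U c' ≤ ρ := by
    have h7 := hang c hc c' hc' hne
    rw [Real.sqrt_mul (hnn c)] at h7
    have h8 : 0 < √(B c c) := Real.sqrt_pos.2 (hpos c hc)
    have h9 : 0 < √(B c' c') := Real.sqrt_pos.2 (hpos c' hc')
    rw [hUU]
    have h10 : (√(B c c))⁻¹ * ((√(B c' c'))⁻¹ * B c c') = B c c' / (√(B c c) * √(B c' c')) := by
      field_simp
    rw [h10, div_le_iff₀ (by positivity)]
    exact h7
  linarith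

end Pool.Agent.HMW
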