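import Pool.Agent.HMW.Targets

set_option autoImplicit false

/-!
# TAME: tameness constants
-/

open Polynomial Height Height.AdmissibleAbsValues NumberField
open scoped Classical

noncomputable section

namespace Pool.Agent.HMW

namespace TAME_

section alg

variable {K : Type} [Field K]

theorem cop_lin {a b : K} (h : a ≠ b) :
    IsCoprime (1 - C a * X : K[X]) (1 - C b * X) := by
  refine ⟨C (b * (b - a)⁻¹), C (-a * (b - a)⁻¹), ?_⟩
  have h1 : b - a ≠ 0 := sub_ne_zero.2 h.symm
  have h2 : C (b * (b - a)⁻¹) * (1 - C a * X : K[X]) + C (-a * (b - a)⁻¹) * (1 - C b * X) =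
      C ((b - a) * (b - a)⁻¹) := by
    simp only [map_mul, map_neg, map_sub]
    ring
  rw [h2, mul_inv_cancel₀ h1, C_1]

theorem sep_lin (a : K) : (1 - C a * X : K[X]).Separable := by
  refine ⟨1, -X, ?_⟩
  simp

theorem rev_lin (a : K) : (X - C a : K[X]).reverse = 1 - C a * X := by
  have hX : (X : K[X]).reverse = 1 := by
    rw [← mul_one (X : K[X]), reverse_X_mul, ← C_1, reverse_C]
  rw [sub_eq_add_neg, ← C_neg, reverse_add_C, hX, natDegree_X, pow_one, C_neg]
  ring

theorem rev_prod {ι : Type} (s : Finset ι) (θ : ι → K) :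
    (∏ i ∈ s, (X - C (θ i))).reverse = ∏ i ∈ s, (1 - C (θ i) * X : K[X]) := by
  induction s using Finset.induction_on with
  | empty => simpa using reverse_C (1 : K)
  | insert i s hi ih =>
    rw [Finset.prod_insert hi, Finset.prod_insert hi, reverse_mul_of_domain, ih, rev_lin]

theorem sep_rev {ι : Type} [Fintype ι] (θ : ι → K) (h : Function.Injective θ) :
    (X * (∏ i, (X - C (θ i))).reverse : K[X]).Separable := by
  rw [rev_prod]
  refine Separable.mul separable_X (separable_prod ?_ fun i => sep_lin _) ?_
  · intro i j hij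
    exact cop_lin fun h2 => hij (h h2)
  · refine IsCoprime.prod_right fun i _ => ⟨C (θ i), 1, ?_⟩
    ring

end alg

theorem reverse_map' {K E : Type} [Field K] [Field E] (φ : K →+* E) (p : K[X]) :
    (p.map φ).reverse = p.reverse.map φ := by
  unfold reverse
  rw [natDegree_map_eq_of_injective φ.injective, reflect_map]

section mx

variable {K : Type} [Field K]

/-- the largest value on a finite set containing `1` -/
def mx (B : Finset K) (v : AbsoluteValue K ℝ) : ℝ :=
  (insert 1 B).sup' (Finset.insert_nonempty 1 B) fun x => v x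

theorem one_le_mx (B : Finset K) (v : AbsoluteValue K ℝ) : 1 ≤ mx B v := by
  unfold mx
  have h := Finset.le_sup' (fun x => v x) (Finset.mem_insert_self 1 B)
  simpa using h

theorem le_mx {B : Finset K} {x : K} (hx : x ∈ B) (v : AbsoluteValue K ℝ) : v x ≤ mx B v :=
  Finset.le_sup' (fun x => v x) (Finset.mem_insert_of_mem hx)

theorem coeff_le {B : Finset K} {p : K[X]} (hp : p.coeffs ⊆ B) (v : AbsoluteValue K ℝ) (i : ℕ) :
    v (p.coeff i) ≤ mx B v := by
  by_cases h : p.coeff i = 0
  · rw [h, map_zero]
    linarith [one_le_mx B v]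
  · exact le_mx (hp (Polynomial.coeff_mem_coeffs h)) v

theorem fs_mx [NumberField K] (B : Finset K) : FS K (fun v => Real.log (mx B v)) := by
  have h1 : (⋃ x ∈ B.filter (fun x => x ≠ 0),
      (Function.support fun v : nonarchAbsVal (K := K) => Real.log (v.val x))).Finite := by
    refine (B.filter (fun x => x ≠ 0)).finite_toSet.biUnion fun x hx => ?_
    exact (Vs_log (Finset.mem_filter.1 hx).2).1
  refine h1.subset ?_
  intro v hv
  rw [Function.mem_support] at hv
  by_contra hcon
  simp only [Set.mem_iUnion, not_exists, Function.mem_support, not_not, Finset.mem_filter,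
    and_imp] at hcon
  apply hv
  have h2 : mx B v.val = 1 := by
    apply le_antisymm _ (one_le_mx B v.val)
    unfold mx
    refine Finset.sup'_le _ _ fun x hx => ?_
    rcases Finset.mem_insert.1 hx with rfl | hx
    · simp
    · by_cases h0 : x = 0
      · rw [h0, map_zero]
        exact zero_le_one
      · have h3 := hcon x hx h0
        have h4 : 0 < v.val x := v.val.pos h0
        rw [Real.log_eq_zero] at h3
        rcases h3 with h3 | h3 | h3
        · linarith
        · exact h3.le
        · linarith
  show Real.log (mx B v.val) = 0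
  rw [h2, Real.log_one]

end mx

end TAME_

open TAME_ in
theorem p_TAME : T_TAME := by
  intro K E _ _ _ _ _ _ _ g θ f ext hC
  set φ : K →+* E := algebraMap K E with hφ
  set q : K[X] := ∏ i, (X - C (θ i : K)) with hq
  have hinj : Function.Injective fun i => (θ i : K) := by
    intro i j hij
    exact hC.inj (RingOfIntegers.coe_injective hij)
  have hf : f = q.map φ := by
    rw [hC.eq, hq, Polynomial.map_prod]
    refine Finset.prod_congr rfl fun i _ => ?_
    simp [hφ]
  have hsep : q.Separable := separable_prod_X_sub_C_iff.2 hinj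
  have hsep2 : (X * q.reverse).Separable := sep_rev _ hinj
  obtain ⟨a, b, hab⟩ := hsep
  obtain ⟨a', b', hab'⟩ := hsep2
  set B : Finset K := q.coeffs ∪ a.coeffs ∪ b.coeffs ∪ a'.coeffs ∪ b'.coeffs ∪ {2⁻¹} with hB
  have hqB : q.coeffs ⊆ B := by
    intro x hx
    simp only [hB, Finset.mem_union]
    tauto
  have haB : a.coeffs ⊆ B := by
    intro x hx
    simp only [hB, Finset.mem_union]
    tauto
  have hbB : b.coeffs ⊆ B := by
    intro x hx
    simp only [hB, Finset.mem_union]
    tauto
  have haB' : a'.coeffs ⊆ B := by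
    intro x hx
    simp only [hB, Finset.mem_union]
    tauto
  have hbB' : b'.coeffs ⊆ B := by
    intro x hx
    simp only [hB, Finset.mem_union]
    tauto
  have h2B : (2⁻¹ : K) ∈ B := by
    simp [hB]
  set Λ : AbsoluteValue K ℝ → ℝ := fun v =>
    if v ∈ nonarchAbsVal (K := K) then mx B v else 2 * mx B v with hΛ
  have hΛle : ∀ v, mx B v ≤ Λ v := by
    intro v
    simp only [hΛ]
    split_ifs
    · exact le_rfl
    · linarith [one_le_mx B v]
  set N : ℕ := max (max a.natDegree b.natDegree) (max a'.natDegree b'.natDegree) with hN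
  refine ⟨N, Λ, ?_, ?_⟩
  · refine (fs_mx B).subset ?_
    intro v hv
    rw [Function.mem_support] at hv ⊢
    simp only [hΛ] at hv
    rwa [if_pos v.2] at hv
  · intro v hv
    have hex := hC.ext.ex v hv
    have hpb : ∀ p : K[X], p.coeffs ⊆ B → PB (ext v) (p.map φ) (Λ v) := by
      intro p hp i
      rw [coeff_map, hφ, hex]
      exact (coeff_le hp v i).trans (hΛle v)
    have hd : ∀ p : K[X], p.natDegree ≤ N → (p.map φ).natDegree ≤ N := fun p hp =>
      natDegree_map_le.trans hp
    refine ⟨(one_le_mx B v).trans (hΛle v), ?_, ?_, ?_, ?_, ?_⟩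
    · intro x y
      have h0 : 0 ≤ max (ext v x) (ext v y) := le_max_of_le_left ((ext v).nonneg x)
      by_cases hna : v ∈ nonarchAbsVal (K := K)
      · refine (hC.ext.na v hna x y).trans ?_
        have h1 : 1 ≤ Λ v := (one_le_mx B v).trans (hΛle v)
        nlinarith
      · have h1 : 2 ≤ Λ v := by
          simp only [hΛ]
          rw [if_neg hna]
          linarith [one_le_mx B v]
        refine ((ext v).add_le x y).trans ?_
        have h2 := le_max_left (ext v x) (ext v y)
        have h3 := le_max_right (ext v x) (ext v y)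
        nlinarith
    · have h1 : v 2⁻¹ ≤ Λ v := (le_mx h2B v).trans (hΛle v)
      have h2 : ext v 2 = v 2 := by
        have := hex 2
        rwa [map_ofNat] at this
      rw [h2]
      have h3 : 0 < v 2 := v.pos two_ne_zero
      have h4 : v 2⁻¹ * v 2 = 1 := by
        rw [← map_mul, inv_mul_cancel₀ two_ne_zero, map_one]
      nlinarith
    · rw [hf]
      exact hpb q hqB
    · refine ⟨a.map φ, b.map φ, ?_, hpb a haB, hpb b hbB, hd a ?_, hd b ?_⟩
      · rw [hf, derivative_map, ← Polynomial.map_mul, ← Polynomial.map_mul,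
          ← Polynomial.map_add, hab, Polynomial.map_one]
      · exact (le_max_left _ _).trans (le_max_left _ _)
      · exact (le_max_right _ _).trans (le_max_left _ _)
    · refine ⟨a'.map φ, b'.map φ, ?_, hpb a' haB', hpb b' hbB', hd a' ?_, hd b' ?_⟩
      · have h1 : (X * f.reverse : E[X]) = (X * q.reverse).map φ := by
          rw [hf, reverse_map', Polynomial.map_mul, Polynomial.map_X]
        rw [h1, derivative_map, ← Polynomial.map_mul, ← Polynomial.map_mul,
          ← Polynomial.map_add, hab', Polynomial.map_one]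
      · exact (le_max_left _ _).trans (le_max_right _ _)
      · exact (le_max_right _ _).trans (le_max_right _ _)

end Pool.Agent.HMW
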