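import Pool.Agent.HMW.Targets

set_option autoImplicit false
set_option linter.unusedVariables false

/-!
# Mordell-Weil for hyperelliptic Jacobians: splitting off the part from the `t`-line
-/

open Polynomial
open scoped Classical

noncomputable section

namespace Pool.Agent.HMW

namespace VERT_

variable {E : Type} [Field E]

omit [Field E] in
/-- a multiset with given multiplicities -/
theorem exists_count (S : Finset (E × E)) (c : E × E → ℕ) (hc : ∀ P, P ∉ S → c P = 0) :
    ∃ V : Multiset (E × E), ∀ P, V.count P = c P := by
  refine ⟨∑ P ∈ S, Multiset.replicate (c P) P, fun P => ?_⟩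
  rw [Multiset.count_sum']
  simp only [Multiset.count_replicate]
  by_cases hP : P ∈ S
  · rw [Finset.sum_eq_single P]
    · simp
    · intro Q _ hQ
      simp [hQ]
    · intro h
      exact absurd hP h
  · rw [hc P hP]
    refine Finset.sum_eq_zero fun Q hQ => ?_
    rw [if_neg]
    rintro rfl
    exact hP hQ

theorem io_eq_iff [CharZero E] (P : E × E) : io P = P ↔ P.2 = 0 := by
  constructor
  · intro h
    have h1 : -P.2 = P.2 := congrArg Prod.snd h
    exact neg_eq_self.1 h1
  · intro h
    exact Prod.ext rfl (by rw [io_snd, h, neg_zero])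

theorem exists_half [CharZero E] (n : ℕ) : ∀ V : Multiset (E × E), Multiset.card V = n →
    (∀ P, V.count (io P) = V.count P) → (∀ P, P.2 = 0 → Even (V.count P)) →
    ∃ U : Multiset (E × E), V = U + U.map io := by
  induction n using Nat.strong_induction_on with
  | _ n ih =>
    intro V hV h1 h2
    rcases V.empty_or_exists_mem with h0 | ⟨P, hP⟩
    · exact ⟨0, by simp [h0]⟩
    have hc : 1 ≤ V.count P := Multiset.one_le_count_iff_mem.2 hP
    have hle : P ::ₘ io P ::ₘ 0 ≤ V := by
      rw [Multiset.le_iff_count]
      intro Q
      rw [Multiset.count_cons, Multiset.count_cons, Multiset.count_zero, zero_add]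
      by_cases h3 : Q = P
      · subst h3
        by_cases h4 : io Q = Q
        · have h5 := h2 Q ((io_eq_iff Q).1 h4)
          obtain ⟨k, hk⟩ := h5
          rw [if_pos h4.symm, if_pos rfl]
          omega
        · rw [if_neg (fun h => h4 h.symm), if_pos rfl]
          exact hc
      · by_cases h4 : Q = io P
        · rw [if_pos h4, if_neg h3, h4, h1]
          exact hc
        · rw [if_neg h4, if_neg h3]
          exact Nat.zero_le _
    obtain ⟨V', hV'⟩ := Multiset.le_iff_exists_add.1 hle
    have hcard : Multiset.card V' < n := by
      rw [← hV, hV', Multiset.card_add]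
      simp
    have hcount : ∀ Q, V.count Q = (P ::ₘ io P ::ₘ 0 : Multiset (E × E)).count Q + V'.count Q :=
      fun Q => by rw [hV', Multiset.count_add]
    have hpair : ∀ Q, (P ::ₘ io P ::ₘ 0 : Multiset (E × E)).count (io Q) =
        (P ::ₘ io P ::ₘ 0 : Multiset (E × E)).count Q := by
      intro Q
      rw [Multiset.count_cons, Multiset.count_cons, Multiset.count_cons, Multiset.count_cons,
        Multiset.count_zero, Multiset.count_zero]
      have e1 : (io Q = P) ↔ (Q = io P) := by
        constructor
        · rintro rfl; simp
        · rintro rfl; simp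
      have e2 : (io Q = io P) ↔ (Q = P) := by
        constructor
        · intro h
          have := congrArg io h
          simpa using this
        · rintro rfl; rfl
      simp only [e1, e2]
      omega
    obtain ⟨U, hU⟩ := ih _ hcard V' rfl (fun Q => by
      have a1 := hcount Q
      have a2 := hcount (io Q)
      rw [hpair, h1 Q] at a2
      omega) (fun Q hQ => by
      have a1 := hcount Q
      have a2 := h2 Q hQ
      have a3 : Even ((P ::ₘ io P ::ₘ 0 : Multiset (E × E)).count Q) := by
        rw [Multiset.count_cons, Multiset.count_cons, Multiset.count_zero, zero_add]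
        have h4 : Q = io P ↔ Q = P := by
          have h5 : io Q = Q := (io_eq_iff Q).2 hQ
          constructor
          · intro h
            have := congrArg io h
            rw [h5, io_io] at this
            exact this
          · rintro rfl
            exact h5.symm
        simp only [h4]
        exact ⟨_, rfl⟩
      rw [a1] at a2
      exact (Nat.even_add.1 a2).1 a3)
    refine ⟨P ::ₘ U, ?_⟩
    rw [hV', hU, Multiset.map_cons, Multiset.cons_add, Multiset.cons_add, Multiset.cons_add,
      Multiset.zero_add, Multiset.add_cons]

end VERT_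

open VERT_

theorem p_VERT : T_VERT := by
  intro K E _ _ _ _ _ _ _ g f hf hK S hS
  obtain ⟨V, hV⟩ := exists_count S.toFinset
    (fun P => if P.2 = 0 then 2 * (S.count P / 2) else min (S.count P) (S.count (io P)))
    (fun P hP => by
      have : S.count P = 0 := Multiset.count_eq_zero.2 fun h => hP (Multiset.mem_toFinset.2 h)
      simp [this])
  have hle : V ≤ S := by
    rw [Multiset.le_iff_count]
    intro P
    rw [hV]
    split_ifs
    · omega
    · exact min_le_left _ _
  have hadd : S - V + V = S := tsub_add_cancel_of_le hle
  have hon : OnM f V := hS.1.of_le hle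
  have hVM : MK K f V := by
    refine MK_of_count hon fun σ P => ?_
    rw [hV, hV]
    have e1 : (act σ P).2 = 0 ↔ P.2 = 0 := by
      show σ P.2 = 0 ↔ P.2 = 0
      exact map_eq_zero σ
    simp only [e1, ← act_io, hS.count]
  obtain ⟨U, hU⟩ := exists_half _ V rfl (fun P => by
    rw [hV, hV]
    have e1 : (io P).2 = 0 ↔ P.2 = 0 := by simp
    by_cases h : P.2 = 0
    · have h2 : io P = P := (io_eq_iff P).2 h
      rw [h2, if_pos h, if_pos h]
    · rw [if_neg (fun h' => h (e1.1 h')), if_neg h, io_io, min_comm]) (fun P hP => by
    rw [hV, if_pos hP]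
    exact even_two_mul _)
  refine ⟨S - V, V, MK.of_add (by rw [hadd]; exact hS) hVM, hVM, hadd.symm, ?_, ?_⟩
  · refine ⟨⟨NS U, 0⟩, ⟨?_, KP_zero⟩, ?_⟩
    · refine KP_of_sq (NS_monic U) ?_
      have h1 := hVM.NS
      rw [hU, NS_add, NS_map_io, ← sq] at h1
      exact h1
    · have h1 : OnM f U := hon.of_le (by rw [hU]; exact Multiset.le_add_right _ _)
      have h2 := isDiv_NS hf h1
      rwa [← hU] at h2
  · intro P
    rw [Multiset.count_sub, hV]
    split_ifs
    · omega
    · omega

end Pool.Agent.HMW
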