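import Pool.Agent.HMW.Targets

set_option autoImplicit false
set_option linter.unusedVariables false
set_option linter.unusedSectionVars false

/-!
# MP_c076ed_nt, W1: the descent map has even valuations
-/

open Polynomial Height Height.AdmissibleAbsValues NumberField IsDedekindDomain
open scoped Classical WithZero

noncomputable section

namespace Pool.Agent.HMW.W1_

variable {K E : Type} [Field K] [CharZero K] [Field E] [CharZero E]
  [IsAlgClosed E] [Algebra K E] [Algebra.IsAlgebraic K E]

/-- the residue field of the point `P` -/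
abbrev LL (K : Type) {E : Type} [Field K] [Field E] [Algebra K E] (P : E × E) :
    IntermediateField K E := IntermediateField.adjoin K {P.1, P.2}

/-- first coordinate -/
def tt (K : Type) {E : Type} [Field K] [Field E] [Algebra K E] (P : E × E) : LL K P :=
  ⟨P.1, IntermediateField.subset_adjoin K _ (by simp)⟩

/-- second coordinate -/
def yy (K : Type) {E : Type} [Field K] [Field E] [Algebra K E] (P : E × E) : LL K P :=
  ⟨P.2, IntermediateField.subset_adjoin K _ (by simp)⟩

instance fin_LL (P : E × E) : FiniteDimensional K (LL K P) := by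
  apply IntermediateField.finiteDimensional_adjoin
  intro x _
  exact (Algebra.IsAlgebraic.isAlgebraic (R := K) x).isIntegral

/-- the conjugate of `P` under the embedding `φ` -/
def cg (P : E × E) (φ : LL K P →ₐ[K] E) : E × E := (φ (tt K P), φ (yy K P))

theorem cg_inj (P : E × E) : Function.Injective (cg (K := K) P) := by
  intro φ ψ h
  have h1 : φ (tt K P) = ψ (tt K P) := congrArg Prod.fst h
  have h2 : φ (yy K P) = ψ (yy K P) := congrArg Prod.snd h
  apply IntermediateField.algHom_ext_of_eq_adjoin K (S := LL K P) (s := {P.1, P.2}) rfl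
  intro x hx
  rcases hx with hx | hx
  · subst hx; exact h1
  · have hx' : x = P.2 := hx
    subst hx'; exact h2

/-- the Galois orbit of `P` -/
def Ob (K : Type) {E : Type} [Field K] [CharZero K] [Field E] [CharZero E]
    [IsAlgClosed E] [Algebra K E] [Algebra.IsAlgebraic K E] (P : E × E) : Multiset (E × E) :=
  (Finset.univ : Finset (LL K P →ₐ[K] E)).val.map (cg P)

theorem Ob_nodup (P : E × E) : (Ob K P).Nodup :=
  Multiset.Nodup.map (cg_inj P) Finset.univ.nodup

theorem mem_Ob (P Q : E × E) : Q ∈ Ob K P ↔ ∃ σ : E ≃ₐ[K] E, Q = act σ P := by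
  have : Normal K E := by
    have : IsAlgClosure K E := ⟨inferInstance, inferInstance⟩
    infer_instance
  constructor
  · intro h
    obtain ⟨φ, _, rfl⟩ := Multiset.mem_map.1 h
    let σ : E →ₐ[K] E := φ.liftNormal E
    refine ⟨AlgEquiv.ofBijective σ (AlgHom.normal_bijective K E E σ), ?_⟩
    have h1 : ∀ x : LL K P, σ (x : E) = φ x := fun x => φ.liftNormal_commutes E x
    simp only [cg, act, AlgEquiv.coe_ofBijective]
    rw [← h1, ← h1]
    rfl
  · rintro ⟨σ, rfl⟩
    refine Multiset.mem_map.2 ⟨(σ : E →ₐ[K] E).comp (LL K P).val, Finset.mem_univ _, ?_⟩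
    rfl

theorem self_mem_Ob (P : E × E) : P ∈ Ob K P := (mem_Ob P P).2 ⟨AlgEquiv.refl, rfl⟩

theorem Ob_le {f : E[X]} {S : Multiset (E × E)} (hS : MK K f S) {P : E × E} (hP : P ∈ S) :
    Ob K P ≤ S := by
  rw [Multiset.le_iff_subset (Ob_nodup P)]
  intro Q hQ
  obtain ⟨σ, rfl⟩ := (mem_Ob P Q).1 hQ
  rw [← Multiset.count_pos, hS.count, Multiset.count_pos]
  exact hP

theorem Ob_MK {f : E[X]} {P : E × E} (hO : OnM f (Ob K P)) : MK K f (Ob K P) := by
  refine ⟨hO, fun σ => ?_⟩
  apply Multiset.eq_of_le_of_card_le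
  · rw [Multiset.le_iff_subset ((Ob_nodup P).map (act_injective σ))]
    intro Q hQ
    obtain ⟨R, hR, rfl⟩ := Multiset.mem_map.1 hQ
    obtain ⟨τ, rfl⟩ := (mem_Ob P R).1 hR
    exact (mem_Ob P _).2 ⟨τ.trans σ, rfl⟩
  · rw [Multiset.card_map]

theorem Ob_prod (P : E × E) (a : K) :
    ((Ob K P).map fun Q => Q.1 - algebraMap K E a).prod =
      algebraMap K E (Algebra.norm K (tt K P - algebraMap K (LL K P) a)) := by
  rw [Algebra.norm_eq_prod_embeddings K E]
  unfold Ob
  rw [Multiset.map_map]
  change (∏ φ : LL K P →ₐ[K] E, _) = _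
  apply Finset.prod_congr rfl
  intro φ _
  simp [cg]

end W1_

/-- W1: the descent map has even valuations. -/
theorem p_W1 : T_CXF → T_EVN → T_W1 := by
  intro hCXF hEVN K E _ _ _ _ _ _ _ g θ f ext hC i S hS hS0
  induction hn : Multiset.card S using Nat.strong_induction_on generalizing S with
  | _ n ih =>
    rcases Multiset.empty_or_exists_mem S with rfl | ⟨P, hP⟩
    · refine ⟨1, one_ne_zero, by simp, fun v _ => ?_⟩
      simp
    · have hle := W1_.Ob_le hS hP
      have hO : MK K f (W1_.Ob K P) := W1_.Ob_MK (hS.1.of_le hle)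
      have hS' : MK K f (S - W1_.Ob K P) := by
        apply MK.of_add (T := W1_.Ob K P) _ hO
        rw [tsub_add_cancel_of_le hle]
        exact hS
      have hpos : 0 < Multiset.card (W1_.Ob K P) :=
        Multiset.card_pos_iff_exists_mem.2 ⟨P, W1_.self_mem_Ob P⟩
      have hcard := Multiset.card_le_card hle
      obtain ⟨x, hx0, hx, hxv⟩ := ih (Multiset.card (S - W1_.Ob K P))
        (by rw [Multiset.card_sub hle]; omega) (S - W1_.Ob K P) hS'
        (fun Q hQ => hS0 Q (Multiset.mem_of_le (Multiset.sub_le_self _ _) hQ)) rfl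
      have : NumberField (W1_.LL K P) := NumberField.of_module_finite K (W1_.LL K P)
      have hy0 : W1_.yy K P ≠ 0 := by
        intro h
        apply hS0 P hP
        exact congrArg Subtype.val h
      have hy2 : (W1_.yy K P) ^ 2 =
          ∏ i, (W1_.tt K P - algebraMap K (W1_.LL K P) (θ i : K)) := by
        apply (algebraMap (W1_.LL K P) E).injective
        rw [map_pow, map_prod]
        have h1 : P.2 ^ 2 = f.eval P.1 := hS.1 P hP
        rw [hC.eq, eval_prod] at h1
        simp only [eval_sub, eval_X, eval_C] at h1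
        exact h1
      have hev := hEVN K (W1_.LL K P) g θ (W1_.tt K P) (W1_.yy K P) hy0 hy2 i
      have hne : W1_.tt K P - algebraMap K (W1_.LL K P) (θ i : K) ≠ 0 := by
        intro h
        apply hy0
        rw [← sq_eq_zero_iff, hy2]
        exact Finset.prod_eq_zero (Finset.mem_univ i) h
      have hN : Algebra.norm K (W1_.tt K P - algebraMap K (W1_.LL K P) (θ i : K)) ≠ 0 := by
        rw [Algebra.norm_ne_zero_iff]
        exact hne
      refine ⟨x * Algebra.norm K (W1_.tt K P - algebraMap K (W1_.LL K P) (θ i : K)),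
        mul_ne_zero hx0 hN, ?_, ?_⟩
      · rw [map_mul, hx, ← W1_.Ob_prod, ← Multiset.prod_add, ← Multiset.map_add,
          tsub_add_cancel_of_le hle]
      · intro v hv
        rw [map_mul, WithZero.log_mul]
        · exact dvd_add (hxv v hv) (hev v hv)
        · exact (Valuation.ne_zero_iff _).2 hx0
        · exact (Valuation.ne_zero_iff _).2 hN

end Pool.Agent.HMW
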