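import Pool.Agent.HMW.Targets

set_option autoImplicit false

/-!
# W2: the kernel of the descent map is `2 J(K)`
-/

open Polynomial
open scoped Classical

noncomputable section

namespace Pool.Agent.HMW

namespace W2_

lemma rootMult {E : Type} [Field E] (S : Multiset (E × E)) (a : E) :
    (NS S).rootMultiplicity a = S.countP fun Q => Q.1 = a := by
  induction S using Multiset.induction_on with
  | empty => simp
  | cons Q S ih =>
    rw [NS_cons, rootMultiplicity_mul (mul_ne_zero (X_sub_C_ne_zero _) (NS_monic S).ne_zero), ih,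
      rootMultiplicity_X_sub_C, Multiset.countP_cons, add_comm]
    congr 1
    by_cases h : Q.1 = a
    · simp [h]
    · simp [h, Ne.symm h]

lemma io_ne {E : Type} [Field E] [CharZero E] {P : E × E} (h : P.2 ≠ 0) : io P ≠ P := by
  intro h1
  have h2 : -P.2 = P.2 := congrArg Prod.snd h1
  exact h (self_eq_neg.1 h2.symm)

lemma countP_eq {E : Type} [Field E] [CharZero E] {f : E[X]} {S : Multiset (E × E)}
    (hS : OnM f S) {P : E × E} (hP : On f P) : (S.countP fun Q => Q.1 = P.1) =
      if P.2 = 0 then S.count P else S.count P + S.count (io P) := by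
  induction S using Multiset.induction_on with
  | empty => simp
  | cons Q S ih =>
    have hQ : On f Q := hS Q (Multiset.mem_cons_self Q S)
    have ih' := ih fun R hR => hS R (Multiset.mem_cons_of_mem hR)
    rw [Multiset.countP_cons, ih']
    by_cases h1 : Q.1 = P.1
    · rw [if_pos h1]
      have h2 : Q.2 ^ 2 = P.2 ^ 2 := by
        unfold On at hQ hP
        rw [hQ, hP, h1]
      by_cases h5 : P.2 = 0
      · rw [if_pos h5, if_pos h5]
        have h4 : Q = P := by
          refine Prod.ext h1 ?_
          rw [h5, zero_pow two_ne_zero] at h2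
          rw [h5]
          exact pow_eq_zero_iff two_ne_zero |>.1 h2
        rw [h4, Multiset.count_cons_self]
      · rw [if_neg h5, if_neg h5]
        have h6 := io_ne h5
        rcases sq_eq_sq_iff_eq_or_eq_neg.1 h2 with h3 | h3
        · have h4 : Q = P := Prod.ext h1 h3
          rw [h4, Multiset.count_cons_self, Multiset.count_cons_of_ne h6]
          ring
        · have h4 : Q = io P := Prod.ext h1 h3
          rw [h4, Multiset.count_cons_self, Multiset.count_cons_of_ne h6.symm]
          ring
    · have h2 : Q ≠ P := fun h => h1 (by rw [h])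
      have h3 : Q ≠ io P := fun h => h1 (by rw [h]; rfl)
      rw [if_neg h1, Multiset.count_cons_of_ne h2.symm, Multiset.count_cons_of_ne h3.symm, add_zero]

lemma half {α : Type} [DecidableEq α] (S : Multiset α) (h : ∀ a, Even (S.count a)) :
    ∃ T : Multiset α, S = T + T := by
  induction hn : Multiset.card S using Nat.strong_induction_on generalizing S with
  | _ n ih =>
    rcases Multiset.empty_or_exists_mem S with h0 | ⟨a, ha⟩
    · exact ⟨0, by simp [h0]⟩
    · obtain ⟨S', rfl⟩ := Multiset.exists_cons_of_mem ha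
      have h1 := h a
      rw [Multiset.count_cons_self] at h1
      have h2 : a ∈ S' := by
        rw [← Multiset.count_pos]
        rcases Nat.eq_zero_or_pos (S'.count a) with h3 | h3
        · rw [h3] at h1
          exact absurd h1 (by decide)
        · exact h3
      obtain ⟨S'', rfl⟩ := Multiset.exists_cons_of_mem h2
      obtain ⟨T, hT⟩ := ih (Multiset.card S'') (by rw [← hn]; simp) S'' (fun b => by
        have h3 := h b
        by_cases hb : b = a
        · rw [hb] at h3 ⊢
          rw [Multiset.count_cons_self, Multiset.count_cons_self] at h3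
          rcases h3 with ⟨r, hr⟩
          exact ⟨r - 1, by omega⟩
        · rwa [Multiset.count_cons_of_ne hb, Multiset.count_cons_of_ne hb] at h3) rfl
      refine ⟨a ::ₘ T, ?_⟩
      rw [hT, Multiset.cons_add, Multiset.add_cons]

end W2_

open W2_ in
theorem p_W2 : T_CXF → T_LEG → T_VERT → T_W2 := by
  intro hCXF hLEG hVERT K E _ _ _ _ _ _ _ g θ f ext hc S s hS hS0 hs
  obtain ⟨hf, hK, -⟩ := hCXF K E g θ f ext hc
  obtain ⟨F, Z, hF0, hFK, hFS, hnr⟩ := hLEG K E g θ f ext hc S s hS hS0 hs
  obtain ⟨T₀, hT₀⟩ := exists_isDiv hf hS.1 hFS hF0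
  have hMK : MK K f (S + T₀) := hT₀.MK hf hK hFK
  have hMK₀ : MK K f T₀ := by
    rw [add_comm] at hMK
    exact hMK.of_add hS
  have hn0 : nr F ≠ 0 := nr_ne_zero hf hF0
  -- the norm of the rest is a constant times a square
  obtain ⟨q, hq⟩ := NS_dvd_nr hf hT₀.on hT₀.mem
  have hq0 : q ≠ 0 := by
    rintro rfl
    rw [mul_zero] at hq
    exact hn0 hq
  have hqd : q.natDegree = 0 := by
    have h1 := congrArg natDegree hq
    rw [natDegree_mul (NS_monic _).ne_zero hq0, hT₀.deg, NS_natDegree] at h1
    omega
  obtain ⟨a, ha⟩ := natDegree_eq_zero.1 hqd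
  have ha0 : a ≠ 0 := by
    rintro rfl
    rw [map_zero] at ha
    exact hq0 ha.symm
  have hsq : NS T₀ * C a = C ((-1) ^ (Multiset.card S)) * Z ^ 2 := by
    have h1 : NS S * (NS T₀ * C a) = NS S * (C ((-1) ^ (Multiset.card S)) * Z ^ 2) := by
      rw [← mul_assoc, ← NS_add, ha, ← hq, hnr]
      ring
    exact mul_left_cancel₀ (NS_monic S).ne_zero h1
  have hZ0 : Z ≠ 0 := by
    rintro rfl
    rw [zero_pow two_ne_zero, mul_zero] at hsq
    exact (mul_ne_zero (NS_monic T₀).ne_zero (C_ne_zero.2 ha0)) hsq
  have heven : ∀ b : E, Even (T₀.countP fun Q => Q.1 = b) := by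
    intro b
    rw [← rootMult]
    have h1 := congrArg (rootMultiplicity b) hsq
    rw [rootMultiplicity_mul (mul_ne_zero (NS_monic T₀).ne_zero (C_ne_zero.2 ha0)),
      rootMultiplicity_mul (mul_ne_zero (C_ne_zero.2 (pow_ne_zero _ (neg_ne_zero.2 one_ne_zero)))
        (pow_ne_zero 2 hZ0)), rootMultiplicity_C, rootMultiplicity_C, add_zero, zero_add, pow_two,
      rootMultiplicity_mul (mul_ne_zero hZ0 hZ0)] at h1
    exact ⟨_, h1⟩
  obtain ⟨T₁, V, hT₁, hV, hTV, hPV, hcnt⟩ := hVERT K E g f hf hK T₀ hMK₀
  have hev : ∀ P, Even (T₁.count P) := by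
    intro P
    by_cases hP : On f P
    · have h1 := heven P.1
      rw [countP_eq hMK₀.1 hP] at h1
      rw [hcnt]
      by_cases h2 : P.2 = 0
      · rw [if_pos h2] at h1 ⊢
        rw [Nat.even_iff.1 h1]
        exact Even.zero
      · rw [if_neg h2] at h1 ⊢
        rcases h1 with ⟨r, hr⟩
        rw [Nat.even_iff]
        omega
    · rw [Multiset.count_eq_zero_of_notMem]
      · exact Even.zero
      · exact fun h => hP (hT₁.1 P h)
  obtain ⟨T, rfl⟩ := half T₁ hev
  refine ⟨T, ?_, ?_⟩
  · refine MK_of_count (hT₁.1.of_le (Multiset.le_add_right T T)) fun σ P => ?_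
    have h1 := hT₁.count σ P
    rw [Multiset.count_add, Multiset.count_add] at h1
    omega
  · have h1 : Prin K f (S + T₀) := ⟨F, hFK, hT₀⟩
    have h2 := h1.add hf hK hPV.io
    rw [hTV] at h2
    have h3 : S + (T + T + V) + V.map io = S + (T + T) + (V + V.map io) := by abel
    rw [h3] at h2
    exact h2.cancel hf hV

end Pool.Agent.HMW
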