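import Pool.Agent.HMW.Targets

set_option autoImplicit false
set_option linter.unusedVariables false

/-! WD: the pairing depends only on the class, up to a constant. -/

open Polynomial Height Height.AdmissibleAbsValues NumberField IsDedekindDomain
open scoped Classical WithZero

noncomputable section

namespace Pool.Agent.HMW

namespace WD_

theorem pr_add {K E : Type} [Field K] [NumberField K] [Field E]
    (ext : AbsoluteValue K ℝ → AbsoluteValue E ℝ) (g : ℕ) (S S' T : Multiset (E × E))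
    (h : FS K (fun v => lsum (ext v) g S T)) (h' : FS K (fun v => lsum (ext v) g S' T)) :
    pr ext g (S + S') T = pr ext g S T + pr ext g S' T := by
  unfold pr
  rw [← Vs_add h h']
  simp only [lsum_add_left]

/-- no point over the `t`-coordinates of `T` -/
theorem tj_of {E : Type} [Field E] {f : E[X]} {S T : Multiset (E × E)} (hS : OnM f S)
    (hT : OnM f T) (h : ∀ Q ∈ (T + T.map io).toFinset, Q ∉ S) : Tj S T := by
  intro P hP Q hQ h1
  have h2 : P.2 ^ 2 = f.eval P.1 := hS P hP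
  have h3 : Q.2 ^ 2 = f.eval Q.1 := hT Q hQ
  have h4 : P.2 ^ 2 = Q.2 ^ 2 := by rw [h2, h3, h1]
  rcases sq_eq_sq_iff_eq_or_eq_neg.1 h4 with h5 | h5
  · have h6 : P = Q := Prod.ext h1 h5
    subst h6
    exact h P (Multiset.mem_toFinset.2 (Multiset.mem_add.2 (Or.inl hQ))) hP
  · have h6 : P = io Q := Prod.ext h1 h5
    subst h6
    exact h (io Q) (Multiset.mem_toFinset.2 (Multiset.mem_add.2
      (Or.inr (Multiset.mem_map.2 ⟨Q, hQ, rfl⟩)))) hP

end WD_

theorem p_WD (hCXF : T_CXF) (hMOV : T_MOV) (hPR : T_PR) (hFSP : T_FSP) : T_WD := by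
  intro K E _ _ _ _ _ _ _ g θ f ext hCx k
  obtain ⟨hf, hK, -⟩ := hCXF K E g θ f ext hCx
  obtain ⟨-, -, hfs⟩ := hFSP K E ext hCx.ext
  obtain ⟨C, hC⟩ := hPR K E g θ f ext hCx (k + 2 * g * k)
  refine ⟨2 * C, fun S₁ S₂ T h1 h2 hT c1 c2 cT hprin t1 t2 => ?_⟩
  obtain ⟨S₃, h3, hp3, c3, hd3⟩ := hMOV K E g f hf hK S₁ (T + T.map io).toFinset h1
  have t3 : Tj S₃ T := WD_.tj_of h3.1 hT.1 hd3
  have hp4 : Prin K f (S₂ + S₃) := by
    have h5 := hprin.io
    rw [Multiset.map_add, Multiset.map_map] at h5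
    have h6 : (S₂.map (io ∘ io) : Multiset (E × E)) = S₂ := by
      simp [Function.comp_def]
    rw [h6] at h5
    have h7 := h5.add hf hK hp3
    have h8 : S₁.map io + S₂ + (S₁ + S₃) = (S₂ + S₃) + (S₁ + S₁.map io) := by abel
    rw [h8] at h7
    exact h7.cancel hf h1
  have c3' : Multiset.card S₃ ≤ 2 * g * k := c3.trans (Nat.mul_le_mul_left _ c1)
  have e1 := hC (S₁ + S₃) T hp3 hT (by rw [Multiset.card_add]; omega) (by omega)
  have e2 := hC (S₂ + S₃) T hp4 hT (by rw [Multiset.card_add]; omega) (by omega)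
  have t13 := t1.add_left t3
  have t23 := t2.add_left t3
  have e3 := e1.1 t13.dj
  have e4 := e1.2 t13
  have e5 := e2.1 t23.dj
  have e6 := e2.2 t23
  rw [WD_.pr_add ext g S₁ S₃ T (hfs g _ _ t1.dj) (hfs g _ _ t3.dj)] at e3 e4
  rw [WD_.pr_add ext g S₂ S₃ T (hfs g _ _ t2.dj) (hfs g _ _ t3.dj)] at e5 e6
  rw [abs_le]
  constructor <;> linarith

end Pool.Agent.HMW
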