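import Pool.Agent.HMW.Targets

set_option autoImplicit false

/-!
# HMW-WMW: the weak Mordell-Weil theorem
-/

open Polynomial NumberField
open IsDedekindDomain
open scoped Classical

noncomputable section

namespace Pool.Agent.HMW

namespace WMW_

/-- the bad integer is not zero -/
theorem disc_ne {K : Type} [Field K] [NumberField K] {n : ℕ} (θ : Fin n → 𝓞 K)
    (hθ : Function.Injective θ) :
    (∏ i, ∏ j ∈ Finset.univ.erase i, (θ i - θ j)) ≠ 0 := by
  refine Finset.prod_ne_zero_iff.2 fun i _ => Finset.prod_ne_zero_iff.2 fun j hj => ?_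
  rw [sub_ne_zero]
  intro h
  exact (Finset.ne_of_mem_erase hj) (hθ h).symm

end WMW_

theorem p_WMW (h1 : T_CXF) (h2 : T_SEL) (h3 : T_W1) (h4 : T_W2) (h5 : T_MOV) : T_WMW := by
  intro K E _ _ _ _ _ _ _ g θ f ext hx G _ cls hcls
  obtain ⟨hCv, hKP, -⟩ := h1 K E g θ f ext hx
  obtain ⟨A0, hA0, hsel⟩ := h2 K 2 (∏ i, ∏ j ∈ Finset.univ.erase i, (θ i - θ j)) two_pos
    (WMW_.disc_ne θ hx.inj)
  -- good representatives
  have hrep : ∀ c : G, ∃ (S : Multiset (E × E)) (a z : Fin (2 * g + 1) → K), MK K f S ∧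
      cls S = c ∧ (∀ P ∈ S, P.2 ≠ 0) ∧ (∀ i, a i ∈ A0) ∧
      ∀ i, algebraMap K E (a i * z i ^ 2) =
        (S.map fun P => P.1 - algebraMap K E (θ i : K)).prod := by
    intro c
    obtain ⟨S0, hS0, hc0⟩ := hcls.surj (-c)
    obtain ⟨S, hS, hpr, -, hav⟩ := h5 K E g f hCv hKP S0
      (Finset.univ.image fun i : Fin (2 * g + 1) => ((algebraMap K E (θ i : K), 0) : E × E)) hS0
    have hc : cls S = c := by
      have := (hcls.eq_neg_iff hS0 hS).2 hpr
      rw [hc0] at this
      exact (neg_injective this).symm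
    have hne : ∀ P ∈ S, P.2 ≠ 0 := by
      intro P hP h0
      have hon := hS.1 P hP
      unfold On at hon
      rw [h0, hx.eq, eval_prod] at hon
      have hz : ∏ i, (X - C (algebraMap K E (θ i : K))).eval P.1 = 0 := by
        rw [← hon]; simp
      obtain ⟨i, -, hi⟩ := Finset.prod_eq_zero_iff.1 hz
      rw [eval_sub, eval_X, eval_C, sub_eq_zero] at hi
      refine hav P (Finset.mem_image.2 ⟨i, Finset.mem_univ _, ?_⟩) hP
      exact Prod.ext hi.symm h0.symm
    have hi : ∀ i, ∃ a ∈ A0, ∃ z : K, algebraMap K E (a * z ^ 2) =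
        (S.map fun P => P.1 - algebraMap K E (θ i : K)).prod := by
      intro i
      obtain ⟨x, hx0, hxe, hxv⟩ := h3 K E g θ f ext hx i S hS hne
      obtain ⟨a, ha, z, -, hz⟩ := hsel x hx0 fun v hv => by
        have := hxv v hv
        exact_mod_cast this
      exact ⟨a, ha, z, by rw [← hz, hxe]⟩
    choose a ha z hz using hi
    exact ⟨S, a, z, hS, hc, hne, ha, hz⟩
  choose S a z hS hc hne ha hz using hrep
  let r : (Fin (2 * g + 1) → K) → G := fun α => if h : ∃ c, a c = α then h.choose else 0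
  refine ⟨(Fintype.piFinset fun _ : Fin (2 * g + 1) => A0).image r, fun c => ?_⟩
  have hex : ∃ c', a c' = a c := ⟨c, rfl⟩
  have hr : r (a c) = hex.choose := dif_pos hex
  have hra : a (r (a c)) = a c := by rw [hr]; exact hex.choose_spec
  refine ⟨r (a c), Finset.mem_image.2 ⟨a c, Fintype.mem_piFinset.2 (ha c), rfl⟩, ?_⟩
  set c' := r (a c) with hc'
  obtain ⟨T, hT, hpr⟩ := h4 K E g θ f ext hx (S c + (S c').map io)
    (fun i => a c i * z c i * z c' i) ((hS c).add (hS c').io) (by
      intro P hP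
      rcases Multiset.mem_add.1 hP with h | h
      · exact hne c P h
      · obtain ⟨Q, hQ, rfl⟩ := Multiset.mem_map.1 h
        rw [io_snd]
        exact neg_ne_zero.2 (hne c' Q hQ)) (by
      intro i
      rw [Multiset.map_add, Multiset.prod_add, Multiset.map_map]
      have e1 : ((S c').map ((fun P : E × E => P.1 - algebraMap K E (θ i : K)) ∘ io)) =
          (S c').map fun P => P.1 - algebraMap K E (θ i : K) := rfl
      rw [e1, ← hz c i, ← hz c' i, ← map_mul, hra]
      congr 1
      ring)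
  refine ⟨-cls T, ?_⟩
  have hSS := (hS c).add (hS c').io
  have e2 := (hcls.zero _ (hSS.add (hT.add hT))).2 hpr
  rw [hcls.add _ _ hSS (hT.add hT), hcls.add _ _ hT hT, hcls.add _ _ (hS c) (hS c').io,
    hcls.map_io hCv (hS c'), hc, hc] at e2
  have e3 : c = c' + (-cls T + -cls T) := by
    have : c = c' + (-cls T + -cls T) + (c + -c' + (cls T + cls T)) := by abel
    rw [e2, add_zero] at this
    exact this
  exact e3

end Pool.Agent.HMW
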