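import Pool.Agent.HMW.PHI
import Pool.Agent.HMW.PSI
import Pool.Agent.HMW.GD
import Pool.Agent.HMW.KR1
import Pool.Agent.HMW.GEN
import Pool.Agent.HMW.KR2
import Pool.Agent.HMW.MOV
import Pool.Agent.HMW.RED
import Pool.Agent.HMW.VERT
import Pool.Agent.HMW.CLS
import Pool.Agent.HMW.DVN
import Pool.Agent.HMW.EVB
import Pool.Agent.HMW.DDI
import Pool.Agent.HMW.DDB
import Pool.Agent.HMW.KEYC
import Pool.Agent.HMW.KEY
import Pool.Agent.HMW.LU
import Pool.Agent.HMW.L2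
import Pool.Agent.HMW.N4N
import Pool.Agent.HMW.N4A
import Pool.Agent.HMW.NSB
import Pool.Agent.HMW.CXF
import Pool.Agent.HMW.TAME
import Pool.Agent.HMW.LOC
import Pool.Agent.HMW.PUP
import Pool.Agent.HMW.EXT
import Pool.Agent.HMW.FSX
import Pool.Agent.HMW.FSP
import Pool.Agent.HMW.PR
import Pool.Agent.HMW.SELF
import Pool.Agent.HMW.PRU
import Pool.Agent.HMW.HK
import Pool.Agent.HMW.NOR
import Pool.Agent.HMW.QB
import Pool.Agent.HMW.WD
import Pool.Agent.HMW.FRM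
import Pool.Agent.HMW.POS
import Pool.Agent.HMW.FIN
import Pool.Agent.HMW.SEL
import Pool.Agent.HMW.EVN
import Pool.Agent.HMW.W1
import Pool.Agent.HMW.LEG
import Pool.Agent.HMW.W2
import Pool.Agent.HMW.WMW
import Pool.Agent.HMW.DESC
import Pool.Agent.HMW.SPH
import Pool.Agent.HMW.GAP

set_option autoImplicit false

/-!
# HMW: assembly of parts A-F (Mordell-Weil and gap principle)
-/

namespace Pool.Agent.HMW

theorem all_PSI : T_PSI := p_PSI p_PHI
theorem all_KR1 : T_KR1 := p_KR1 all_PSI p_GD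
theorem all_KR2 : T_KR2 := p_KR2 p_GD p_GEN
theorem all_MOV : T_MOV := p_MOV all_KR2
theorem all_RED : T_RED := p_RED all_KR1
theorem all_KEYC : T_KEYC := p_KEYC p_DDB p_EVB
theorem all_KEY : T_KEY := p_KEY all_KEYC p_DDI
theorem all_LU : T_LU := p_LU p_DVN p_EVB p_DDI all_KEY
theorem all_LOC : T_LOC := p_LOC p_CXF p_TAME all_LU p_L2 p_N4N p_N4A p_NSB
theorem all_PUP : T_PUP := p_PUP p_CXF p_TAME p_L2
theorem all_FSP : T_FSP := p_FSP p_FSX
theorem all_PR : T_PR := p_PR p_CXF all_LOC all_FSP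
theorem all_SELF : T_SELF := p_SELF p_CXF all_PUP all_FSP
theorem all_PRU : T_PRU := p_PRU all_PUP all_FSP
theorem all_NOR : T_NOR := p_NOR p_CXF p_TAME p_NSB all_FSP p_HK
theorem all_WD : T_WD := p_WD p_CXF all_MOV all_PR all_FSP
theorem all_FRM : T_FRM := p_FRM p_CXF p_QB all_WD all_MOV all_RED all_PR all_FSP
theorem all_POS : T_POS := p_POS p_CXF all_RED p_VERT all_SELF all_FSP p_HK
theorem all_FIN : T_FIN := p_FIN all_POS all_NOR
theorem all_W1 : T_W1 := p_W1 p_CXF p_EVN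
theorem all_LEG : T_LEG := p_LEG p_CXF all_PSI p_GD
theorem all_W2 : T_W2 := p_W2 p_CXF all_LEG p_VERT
theorem all_WMW : T_WMW := p_WMW p_CXF p_SEL all_W1 all_W2 all_MOV
theorem all_GAP : T_GAP := p_GAP p_EXT p_CXF p_CLS all_FRM all_FIN all_WMW p_DESC p_SPH all_PRU
  all_SELF p_HK

end Pool.Agent.HMW
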