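import Pool.Agent.HMW.TargetsG

set_option autoImplicit false

/-!
# MP_c076ed_nt: boundedly many points are admissible with a given `z`
-/

open Height Height.AdmissibleAbsValues NumberField

namespace Pool.Agent.HMW

namespace CNT_

/-- Rational numbers with the same absolute value. -/
theorem two (s : Finset ℚ) (h : ∀ x ∈ s, ∀ y ∈ s, |x| ≤ |y|) : s.card ≤ 2 := by
  classical
  rcases s.eq_empty_or_nonempty with h0 | ⟨a, ha⟩
  · rw [h0]
    simp
  · have h1 : s ⊆ {a, -a} := by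
      intro x hx
      have h2 : |x| = |a| := le_antisymm (h x hx a ha) (h a ha x hx)
      rcases abs_eq_abs.1 h2 with h3 | h3
      · simp [h3]
      · simp [h3]
    exact (Finset.card_le_card h1).trans Finset.card_le_two

/-- A Moebius transformation is injective. -/
theorem moeb {K : Type} [Field K] [CharZero K] (x x' z : ℚ) (κ : K) (hκ : κ ≠ 0) (hz : z ≠ 0)
    (hx : x + z ≠ 0) (hx' : x' + z ≠ 0)
    (h : κ * (((x : K) - z) / ((x : K) + z)) = κ * (((x' : K) - z) / ((x' : K) + z))) :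
    x = x' := by
  have h1 := mul_left_cancel₀ hκ h
  have a1 : (x : K) + z ≠ 0 := by
    have : ((x + z : ℚ) : K) ≠ 0 := by exact_mod_cast hx
    push_cast at this
    exact this
  have a2 : (x' : K) + z ≠ 0 := by
    have : ((x' + z : ℚ) : K) ≠ 0 := by exact_mod_cast hx'
    push_cast at this
    exact this
  have a3 : (z : K) ≠ 0 := by exact_mod_cast hz
  rw [div_eq_div_iff a1 a2] at h1
  have h2 : (2 * (z : K)) * ((x : K) - x') = 0 := by linear_combination h1
  have h3 : (2 * (z : K)) ≠ 0 := mul_ne_zero two_ne_zero a3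
  have h4 : (x : K) - x' = 0 := (mul_eq_zero.1 h2).resolve_left h3
  have h5 : (x : K) = x' := sub_eq_zero.1 h4
  exact_mod_cast h5

theorem pre {d : ℕ} {c x z : ℚ} (h : Adm d c x z) : Pre d c x := by
  rcases h with h | h
  · exact h.2.1
  · exact h.2.1

/-- The arithmetic of the window. -/
theorem win (q n H C1 C2 : ℝ) (hq : 1 ≤ 3 / 2 * q) (hn : 0 ≤ n) (hH : 0 ≤ H) :
    n * (H + C1) + C2 ≤ 3 / 2 * (n * (q * H - C1) - C2) + 5 / 2 * (n * C1 + C2) := by
  have h1 : 0 ≤ (3 / 2 * q - 1) * (n * H) := mul_nonneg (by linarith) (mul_nonneg hn hH)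
  nlinarith [h1]

end CNT_

open CNT_

theorem p_CNT : T_GAP → T_CURV → T_HTX → T_CNT := by
  intro hG hC hX d hd hev
  classical
  obtain ⟨r, hr⟩ := hev
  obtain ⟨g, hg⟩ : ∃ g, d = 2 * g + 2 := ⟨r - 1, by omega⟩
  subst hg
  have hg2 : 2 ≤ g := by omega
  obtain ⟨C1, hC1⟩ := hX (2 * g + 2) (by omega) ⟨r, hr⟩
  obtain ⟨K, i1, i2, m, θ, κ, C2, hθ, hκ, hP⟩ := hC g hg2
  let n : ℝ := 2 / (2 * (g : ℝ) + 1) * (Module.finrank ℚ K : ℝ)
  have hn : 0 ≤ n := by
    have : (0 : ℝ) ≤ g := Nat.cast_nonneg g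
    positivity
  choose N hN using fun i : Fin m => hG K g hg2 (θ i) (hθ i) (5 / 2 * (n * C1 + C2))
  refine ⟨2 + ∑ i, N i, ?_⟩
  intro c z hz s hs
  choose hxz I P hPI hP2 hPh using fun x : s => hP c x z (hs x x.2) hz
  let H : ℝ := logHeight₁ c / ((2 * g + 2 : ℕ) : ℝ)
  have hH : 0 ≤ H := div_nonneg (zero_le_logHeight₁ c) (Nat.cast_nonneg _)
  let q : ℝ := (1 - 1 / ((2 * g + 2 : ℕ) : ℝ)) ^ 2
  have hq : 1 ≤ 3 / 2 * q := by
    have h6 : (6 : ℝ) ≤ ((2 * g + 2 : ℕ) : ℝ) := by exact_mod_cast hd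
    have h7 : 1 / ((2 * g + 2 : ℕ) : ℝ) ≤ 1 / 6 := one_div_le_one_div_of_le (by norm_num) h6
    have h8 : (5 / 6 : ℝ) ≤ 1 - 1 / ((2 * g + 2 : ℕ) : ℝ) := by linarith
    have h9 : (5 / 6 : ℝ) ^ 2 ≤ q := pow_le_pow_left₀ (by norm_num) h8 2
    nlinarith [h9]
  -- the two parts of the set
  let s1 : Finset ℚ := s.filter fun x => ∃ w ∈ s, |w| < |x|
  let s0 : Finset ℚ := s.filter fun x => ¬ ∃ w ∈ s, |w| < |x|
  have hc0 : s0.card ≤ 2 := by
    refine two s0 ?_
    intro x hx y hy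
    have h1 := (Finset.mem_filter.1 hx).2
    have h2 := (Finset.mem_filter.1 hy).1
    by_contra h3
    exact h1 ⟨y, h2, not_le.1 h3⟩
  have hc1 : s1.card ≤ ∑ i, N i := by
    have hk : ∀ i : Fin m, ((Finset.univ : Finset s).filter fun x : s => (x : ℚ) ∈ s1 ∧ I x = i).card
        ≤ N i := by
      intro i
      have hinj : Set.InjOn P ((Finset.univ : Finset s).filter
          fun x : s => (x : ℚ) ∈ s1 ∧ I x = i : Set s) := by
        intro x hx y hy hxy
        have hx' := (Finset.mem_filter.1 hx).2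
        have hy' := (Finset.mem_filter.1 hy).2
        have e1 := hP2 x
        have e2 := hP2 y
        rw [hx'.2] at e1
        rw [hy'.2] at e2
        apply Subtype.ext
        refine moeb (K := K) x y z (κ i) (hκ i) hz (hxz x) (hxz y) ?_
        rw [← e1, ← e2, hxy]
      rw [← Finset.card_image_of_injOn hinj]
      refine hN i (n * (q * H - C1) - C2) _ ?_
      intro Q hQ
      obtain ⟨x, hx, rfl⟩ := Finset.mem_image.1 hQ
      obtain ⟨hx1, hx2⟩ := (Finset.mem_filter.1 hx).2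
      obtain ⟨w, hw, hwx⟩ := (Finset.mem_filter.1 hx1).2
      obtain ⟨hl, hu⟩ := hC1 c x z w (hs x x.2) hz (pre (hs w hw)) hwx
      have h3 := abs_le.1 (hPh x)
      have h4 : 2 / (2 * (g : ℝ) + 1) * ((Module.finrank ℚ K : ℝ) * logHeight₁ ((x : ℚ) / z)) =
          n * logHeight₁ ((x : ℚ) / z) := by ring
      rw [h4] at h3
      have h5 : n * (q * H - C1) ≤ n * logHeight₁ ((x : ℚ) / z) :=
        mul_le_mul_of_nonneg_left hl hn
      have h6 : n * logHeight₁ ((x : ℚ) / z) ≤ n * (H + C1) :=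
        mul_le_mul_of_nonneg_left hu hn
      have h7 := win q n H C1 C2 hq hn hH
      refine ⟨?_, by linarith [h3.1], by linarith [h3.2]⟩
      have h8 := hPI x
      rw [hx2] at h8
      exact h8
    have h9 : s1.card ≤ ((Finset.univ : Finset s).filter fun x : s => (x : ℚ) ∈ s1).card := by
      rw [← Finset.card_image_of_injective _ Subtype.val_injective]
      refine Finset.card_le_card ?_
      intro x hx
      have hxs : x ∈ s := (Finset.mem_filter.1 hx).1
      exact Finset.mem_image.2 ⟨⟨x, hxs⟩, Finset.mem_filter.2 ⟨Finset.mem_univ _, hx⟩, rfl⟩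
    refine h9.trans ?_
    rw [Finset.card_eq_sum_card_fiberwise (f := I) (t := Finset.univ)
      (fun x _ => Finset.mem_coe.2 (Finset.mem_univ _))]
    refine Finset.sum_le_sum fun i _ => ?_
    refine le_trans (le_of_eq ?_) (hk i)
    rw [Finset.filter_filter]
  have hs01 : s1.card + s0.card = s.card := Finset.card_filter_add_card_filter_not _
  omega

end Pool.Agent.HMW
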