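import Pool.Agent.HMW.TargetsG

/-!
# HMW: points on the split curves, with heights (CURV)
-/

set_option autoImplicit false

open Polynomial Height Height.AdmissibleAbsValues NumberField

noncomputable section

namespace Pool.Agent.HMW

namespace CURV_

lemma hadd {K : Type} [Field K] [NumberField K] (x a : K) :
    |logHeight₁ (x + a) - logHeight₁ x| ≤ totalWeight K * Real.log 2 + logHeight₁ a := by
  have h1 := logHeight₁_add_le x a
  have h2 := logHeight₁_sub_le (x + a) a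
  rw [add_sub_cancel_right] at h2
  rw [abs_le]
  constructor <;> linarith

lemma hmul {K : Type} [Field K] [NumberField K] (x a : K) (ha : a ≠ 0) :
    |logHeight₁ (a * x) - logHeight₁ x| ≤ logHeight₁ a := by
  have h1 := logHeight₁_mul_le a x
  have h2 := logHeight₁_mul_le a⁻¹ (a * x)
  rw [inv_mul_cancel_left₀ ha, logHeight₁_inv] at h2
  rw [abs_le]
  constructor <;> linarith

/-- the Moebius map -/
lemma hmoe {K : Type} [Field K] [NumberField K] (s : K) (hs : s + 1 ≠ 0) :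
    |logHeight₁ ((s - 1) / (s + 1)) - logHeight₁ s| ≤
      2 * (totalWeight K * Real.log 2) + 2 * logHeight₁ (1 : K) + logHeight₁ (-2 : K) := by
  have e1 : (s - 1) / (s + 1) = (-2) * (s + 1)⁻¹ + 1 := by
    field_simp
    ring
  have h1 := hadd ((-2) * (s + 1)⁻¹) (1 : K)
  have h2 := hmul (s + 1)⁻¹ (-2 : K) (by norm_num)
  have h3 := hadd s (1 : K)
  rw [logHeight₁_inv] at h2
  rw [e1]
  rw [abs_le] at h1 h2 h3 ⊢
  constructor <;> linarith [h1.1, h1.2, h2.1, h2.2, h3.1, h3.2]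

/-- the heights of the points -/
lemma hpt {K : Type} [Field K] [NumberField K] (n : ℕ) (hn : 1 ≤ n) (t y κ s b : K)
    (hκ : κ ≠ 0) (hs : s + 1 ≠ 0) (hy : y = κ * ((s - 1) / (s + 1))) (h : y ^ 2 = t ^ n + b) :
    |logHeight₁ t - 2 / (n : ℝ) * logHeight₁ s| ≤ totalWeight K * Real.log 2 + logHeight₁ b +
      2 * logHeight₁ κ + 2 * (2 * (totalWeight K * Real.log 2) + 2 * logHeight₁ (1 : K) +
        logHeight₁ (-2 : K)) := by
  have h1 := hadd (t ^ n) b
  rw [← h, logHeight₁_pow, logHeight₁_pow] at h1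
  have h2 := hmul ((s - 1) / (s + 1)) κ hκ
  rw [← hy] at h2
  have h3 := hmoe s hs
  have hn' : (1 : ℝ) ≤ n := by exact_mod_cast hn
  have h4 : |n * logHeight₁ t - 2 * logHeight₁ s| ≤ totalWeight K * Real.log 2 + logHeight₁ b +
      2 * logHeight₁ κ + 2 * (2 * (totalWeight K * Real.log 2) + 2 * logHeight₁ (1 : K) +
        logHeight₁ (-2 : K)) := by
    push_cast at h1
    rw [abs_le] at h1 h2 h3 ⊢
    constructor <;> linarith [h1.1, h1.2, h2.1, h2.2, h3.1, h3.2]
  have h5 : logHeight₁ t - 2 / (n : ℝ) * logHeight₁ s =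
      (n * logHeight₁ t - 2 * logHeight₁ s) / n := by
    field_simp
  rw [h5, abs_div, Nat.abs_cast, div_le_iff₀ (by linarith)]
  refine h4.trans ?_
  exact le_mul_of_one_le_right ((abs_nonneg _).trans h4) hn'

/-- `x + z` is not zero for admissible pairs -/
lemma adm_ne {d : ℕ} (hd : Even d) (c x z : ℚ) (h : Adm d c x z) : x + z ≠ 0 := by
  intro h0
  have hx : x = -z := by linarith
  have hf : fc d c x = fc d c z := by
    unfold fc
    rw [hx, hd.neg_pow]
  rcases h with h | h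
  · exact h.2.2.1 1 (by simpa using hf)
  · apply h.2.2.2.1
    rw [hf, h.1]
    exact Function.mk_mem_periodicPts one_pos (Function.IsFixedPt.isPeriodicPt h.1 1)

end CURV_

/-- points on the split curves, with heights -/
theorem p_CURV (h1 : T_PTA) (h2 : T_FLD) (h3 : T_HQK) : T_CURV := by
  intro g hg
  have hev : Even (2 * g + 2) := ⟨g + 1, by ring⟩
  obtain ⟨L, iL, iNL, ζ, hζ, A, hA, hP⟩ := h1 (2 * g + 2) (by omega) hev
  obtain ⟨K, iK, iNK, iA, hK⟩ := h2 L A g
  choose θ₀ hθ using fun α : {α // α ∈ A} => hK α.1 α.2 (hA _ α.2)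
  obtain ⟨e⟩ : Nonempty ({α // α ∈ A} ≃ Fin A.card) := ⟨A.equivFin⟩
  have hz1 : (1 : L) - ζ ≠ 0 := by
    intro h0
    exact hζ.ne_one (by omega) (by rw [sub_eq_zero] at h0; exact h0.symm)
  have hz2 : (1 : L) + ζ ≠ 0 := by
    intro h0
    have h4 : ζ = -1 := by
      rw [add_comm] at h0
      exact eq_neg_of_add_eq_zero_left h0
    have h5 : ζ ^ 2 = 1 := by
      rw [h4]
      norm_num
    have h6 := hζ.dvd_of_pow_eq_one 2 h5
    have h7 := Nat.le_of_dvd (by norm_num) h6
    omega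
  have hκ : ∀ i : Fin A.card, algebraMap L K ((1 + ζ) / (1 - ζ)) *
      algebraMap L K ((e.symm i).1 : L) ^ g ≠ 0 := by
    intro i
    apply mul_ne_zero
    · rw [_root_.map_ne_zero]
      exact div_ne_zero hz2 hz1
    · apply pow_ne_zero
      rw [_root_.map_ne_zero]
      intro h0
      exact hA _ (e.symm i).2 (by exact_mod_cast h0)
  obtain ⟨B, hB⟩ : ∃ B : Fin A.card → ℝ, B = fun i => totalWeight K * Real.log 2 +
      logHeight₁ (algebraMap L K ((e.symm i).1 : L) ^ (2 * g)) +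
      2 * logHeight₁ (algebraMap L K ((1 + ζ) / (1 - ζ)) *
        algebraMap L K ((e.symm i).1 : L) ^ g) +
      2 * (2 * (totalWeight K * Real.log 2) + 2 * logHeight₁ (1 : K) + logHeight₁ (-2 : K)) :=
    ⟨_, rfl⟩
  have hB0 : ∀ i, 0 ≤ B i := by
    intro i
    rw [hB]
    have g1 : (0 : ℝ) ≤ totalWeight K * Real.log 2 :=
      mul_nonneg (Nat.cast_nonneg _) (Real.log_nonneg (by norm_num))
    have g2 := zero_le_logHeight₁ (algebraMap L K ((e.symm i).1 : L) ^ (2 * g))
    have g3 := zero_le_logHeight₁ (algebraMap L K ((1 + ζ) / (1 - ζ)) *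
        algebraMap L K ((e.symm i).1 : L) ^ g)
    have g4 := zero_le_logHeight₁ (1 : K)
    have g5 := zero_le_logHeight₁ (-2 : K)
    dsimp only
    linarith
  refine ⟨K, iK, iNK, A.card, fun i => θ₀ (e.symm i), fun i =>
    algebraMap L K ((1 + ζ) / (1 - ζ)) * algebraMap L K ((e.symm i).1 : L) ^ g, ∑ i, B i,
    fun i => (hθ _).1, hκ, ?_⟩
  intro c x z hadm hz
  have hxz : x + z ≠ 0 := CURV_.adm_ne hev c x z hadm
  refine ⟨hxz, ?_⟩
  obtain ⟨α, hα, X, hX⟩ := hP c x z hadm hz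
  obtain ⟨i, hi⟩ : ∃ i, e.symm i = ⟨α, hα⟩ := ⟨e ⟨α, hα⟩, e.symm_apply_apply _⟩
  have hi1 : ((e.symm i).1 : L) = (α : L) := by rw [hi]
  have hX' : (algebraMap L K ((1 + ζ) / (1 - ζ)) * (((x : K) - z) / ((x : K) + z))) ^ 2 =
      1 + algebraMap L K (α : L) * algebraMap L K X ^ (2 * g + 1) := by
    have h4 := congrArg (algebraMap L K) hX
    rw [map_pow, map_mul, map_div₀ _ ((x : L) - z), map_sub _ (x : L), map_add _ (x : L),
      map_ratCast, map_ratCast, map_add _ (1 : L) , map_one, map_mul, map_pow] at h4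
    exact h4
  have hxzK : (x : K) + z ≠ 0 := by
    have : ((x + z : ℚ) : K) ≠ 0 := Rat.cast_ne_zero.2 hxz
    rwa [Rat.cast_add] at this
  have hzK : (z : K) ≠ 0 := Rat.cast_ne_zero.2 hz
  have hs : ((x / z : ℚ) : K) + 1 ≠ 0 := by
    rw [Rat.cast_div]
    intro h0
    apply hxzK
    field_simp at h0
    simpa using h0
  have hρ : ((x : K) - z) / ((x : K) + z) =
      (((x / z : ℚ) : K) - 1) / (((x / z : ℚ) : K) + 1) := by
    rw [Rat.cast_div] at hs ⊢
    have e1 : (x : K) / z - 1 = ((x : K) - z) / z := by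
      field_simp
    have e2 : (x : K) / z + 1 = ((x : K) + z) / z := by
      field_simp
    rw [e1, e2, div_div_div_cancel_right₀ hzK]
  have hy : (algebraMap L K ((1 + ζ) / (1 - ζ)) * algebraMap L K ((e.symm i).1 : L) ^ g *
      (((x : K) - z) / ((x : K) + z))) ^ 2 = (algebraMap L K (α : L) * algebraMap L K X) ^
      (2 * g + 1) + algebraMap L K ((e.symm i).1 : L) ^ (2 * g) := by
    rw [hi1]
    have e1 : (algebraMap L K ((1 + ζ) / (1 - ζ)) * algebraMap L K (α : L) ^ g *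
      (((x : K) - z) / ((x : K) + z))) ^ 2 =
      (algebraMap L K ((1 + ζ) / (1 - ζ)) * (((x : K) - z) / ((x : K) + z))) ^ 2 *
        algebraMap L K (α : L) ^ (2 * g) := by ring
    rw [e1, hX']
    ring
  refine ⟨i, (algebraMap L K (α : L) * algebraMap L K X,
    algebraMap L K ((1 + ζ) / (1 - ζ)) * algebraMap L K ((e.symm i).1 : L) ^ g *
      (((x : K) - z) / ((x : K) + z))), ?_, rfl, ?_⟩
  · rw [← (hθ (e.symm i)).2]
    exact hy
  · have h4 := CURV_.hpt (2 * g + 1) (by omega) (algebraMap L K (α : L) * algebraMap L K X)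
      (algebraMap L K ((1 + ζ) / (1 - ζ)) * algebraMap L K ((e.symm i).1 : L) ^ g *
      (((x : K) - z) / ((x : K) + z))) (algebraMap L K ((1 + ζ) / (1 - ζ)) *
        algebraMap L K ((e.symm i).1 : L) ^ g) ((x / z : ℚ) : K)
      (algebraMap L K ((e.symm i).1 : L) ^ (2 * g)) (hκ i) hs (by rw [hρ]) hy
    rw [h3 K (x / z)] at h4
    have e5 : ((2 * g + 1 : ℕ) : ℝ) = 2 * (g : ℝ) + 1 := by push_cast; ring
    rw [e5] at h4
    refine h4.trans ?_
    have h5 : B i ≤ ∑ i, B i := Finset.single_le_sum (fun i _ => hB0 i) (Finset.mem_univ i)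
    refine le_trans (le_of_eq ?_) h5
    rw [hB]

end Pool.Agent.HMW
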