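import Pool.Agent.HMW.TargetsG

set_option autoImplicit false

/-!
# MP_c076ed_nt, DEN: all rational preperiodic points of `x^d + c` have the same denominator
-/

open WithZero

namespace Pool.Agent.HMW

namespace DEN_

lemma val_eq (p : ℕ) [hp : Fact p.Prime] (x : ℚ) (h : p ∣ x.den) :
    Rat.padicValuation p x = exp (x.den.factorization p : ℤ) := by
  have hx : x ≠ 0 := by
    rintro rfl
    simp only [Rat.den_ofNat, Nat.dvd_one] at h
    exact hp.out.ne_one h
  have hnum : padicValInt p x.num = 0 := by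
    apply padicValInt.eq_zero_of_not_dvd
    intro h'
    rw [Int.natCast_dvd] at h'
    exact Nat.not_coprime_of_dvd_of_dvd hp.out.one_lt h' h x.reduced
  have h1 : Rat.padicValuation p x = exp (-padicValRat p x) := by
    change (if x = 0 then (0 : ℤᵐ⁰) else exp (-padicValRat p x)) = _
    rw [if_neg hx]
  rw [h1, padicValRat_def, hnum, Nat.factorization_def _ hp.out]
  simp

lemma fac_eq (hV : T_VAL) (d : ℕ) (c x : ℚ) (hd : 2 ≤ d) (hx : Pre d c x) (p : ℕ)
    (hp : p.Prime) : d * x.den.factorization p = c.den.factorization p := by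
  haveI : Fact p.Prime := ⟨hp⟩
  obtain ⟨h1, h2⟩ := hV ℚ (Rat.padicValuation p) d c x hd hx
  by_cases hc : p ∣ c.den
  · have hc1 : 1 < Rat.padicValuation p c := by
      rw [← not_le, Rat.padicValuation_le_one_iff, not_not]
      exact hc
    have h3 := h2 hc1
    have hxd : p ∣ x.den := by
      by_contra hxd
      have h4 : Rat.padicValuation p x ≤ 1 := Rat.padicValuation_le_one_iff.2 hxd
      have h5 : Rat.padicValuation p x ^ d ≤ 1 := pow_le_one' h4 d
      rw [h3] at h5
      exact absurd hc1 (not_lt.2 h5)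
    rw [val_eq p x hxd, val_eq p c hc, ← exp_nsmul, exp_inj] at h3
    rw [nsmul_eq_mul] at h3
    exact_mod_cast h3
  · have h3 : Rat.padicValuation p x ≤ 1 := h1 (Rat.padicValuation_le_one_iff.2 hc)
    have h4 : ¬ p ∣ x.den := Rat.padicValuation_le_one_iff.1 h3
    rw [Nat.factorization_eq_zero_of_not_dvd hc, Nat.factorization_eq_zero_of_not_dvd h4,
      mul_zero]

lemma den_pow (hV : T_VAL) (d : ℕ) (c x : ℚ) (hd : 2 ≤ d) (hx : Pre d c x) :
    x.den ^ d = c.den := by
  apply Nat.eq_of_factorization_eq (pow_ne_zero _ x.den_nz) c.den_nz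
  intro p
  rw [Nat.factorization_pow]
  by_cases hp : p.Prime
  · simpa using fac_eq hV d c x hd hx p hp
  · simp [Nat.factorization_eq_zero_of_not_prime _ hp]

end DEN_

theorem p_DEN : T_VAL → T_DEN := by
  intro hV d c x₀ hd hx₀
  refine ⟨x₀.den, x₀.den_pos, (DEN_.den_pow hV d c x₀ hd hx₀).symm, fun x hx => ?_⟩
  have h : x.den ^ d = x₀.den ^ d :=
    (DEN_.den_pow hV d c x hd hx).trans (DEN_.den_pow hV d c x₀ hd hx₀).symm
  exact Nat.pow_left_injective (by omega : d ≠ 0) h

end Pool.Agent.HMW
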