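import Pool.Agent.HMW.TargetsG

set_option autoImplicit false
set_option linter.unusedSectionVars false

/-!
# Even `d ≥ 6`, nonintegral `c`
-/

open Polynomial Height Height.AdmissibleAbsValues NumberField IsDedekindDomain
open scoped Classical

noncomputable section

namespace Pool.Agent.HMW

namespace EVEN_

variable {d : ℕ} {c : ℚ}

/-- some iterate of a preperiodic point is periodic -/
theorem exists_per {x : ℚ} (hx : Pre d c x) : ∃ k : ℕ, Per d c ((fc d c)^[k] x) := by
  have hni : ¬ Function.Injective (fun k : ℕ => (fc d c)^[k] x) := fun h =>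
    Set.infinite_range_of_injective h hx
  unfold Function.Injective at hni
  simp only [not_forall] at hni
  obtain ⟨a, b, hab, hne⟩ := hni
  have key : ∀ a b : ℕ, a < b → (fc d c)^[a] x = (fc d c)^[b] x → Per d c ((fc d c)^[a] x) := by
    intro a b hlt h
    refine ⟨b - a, by omega, ?_⟩
    show (fc d c)^[b - a] ((fc d c)^[a] x) = (fc d c)^[a] x
    rw [← Function.iterate_add_apply, Nat.sub_add_cancel hlt.le, h]
  rcases lt_or_gt_of_ne hne with h | h
  · exact ⟨a, key a b h hab⟩
  · exact ⟨b, key b a h hab.symm⟩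

/-- periodic points are preperiodic -/
theorem pre_of_per {z : ℚ} (hz : Per d c z) : Pre d c z := by
  obtain ⟨n, hn, h⟩ := hz
  apply (Set.finite_range (fun k : Fin n => (fc d c)^[(k : ℕ)] z)).subset
  rintro _ ⟨k, rfl⟩
  refine ⟨⟨k % n, Nat.mod_lt _ hn⟩, ?_⟩
  show (fc d c)^[k % n] z = (fc d c)^[k] z
  exact h.iterate_mod_apply k

/-- the image of a periodic point is periodic -/
theorem per_fc {z : ℚ} (hz : Per d c z) : Per d c (fc d c z) := by
  obtain ⟨n, hn, h⟩ := hz
  exact ⟨n, hn, h.map (g := fc d c) (Function.Commute.refl _ : Function.Semiconj _ _ _)⟩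

/-- iterates are injective on periodic points -/
theorem per_inj {z z' : ℚ} (hz : Per d c z) (hz' : Per d c z') (m : ℕ)
    (h : (fc d c)^[m] z = (fc d c)^[m] z') : z = z' := by
  obtain ⟨n, hn, h1⟩ := hz
  obtain ⟨n', hn', h2⟩ := hz'
  set N : ℕ := n * n' * (m + 1) with hN
  have hp : Function.IsPeriodicPt (fc d c) N z := by
    rw [hN, mul_assoc]
    exact h1.mul_const _
  have hp' : Function.IsPeriodicPt (fc d c) N z' := by
    rw [hN, mul_comm n n', mul_assoc]
    exact h2.mul_const _
  have hmN : m ≤ N := by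
    have : 1 ≤ n * n' := Nat.mul_pos hn hn'
    nlinarith
  have e1 : (fc d c)^[N] z = (fc d c)^[N - m] ((fc d c)^[m] z) := by
    rw [← Function.iterate_add_apply, Nat.sub_add_cancel hmN]
  have e2 : (fc d c)^[N] z' = (fc d c)^[N - m] ((fc d c)^[m] z') := by
    rw [← Function.iterate_add_apply, Nat.sub_add_cancel hmN]
  rw [← hp.eq, ← hp'.eq, e1, e2, h]

/-- a point whose image is periodic is periodic or the negative of a periodic point -/
theorem neg_per (hd : d ≠ 0) {x : ℚ} (hx : Per d c (fc d c x))
    (hn : ¬ Per d c x) : Per d c (-x) ∧ fc d c (-x) = fc d c x := by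
  obtain ⟨n, hn0, h⟩ := hx
  set z := (fc d c)^[n - 1] (fc d c x) with hz
  have hzf : fc d c z = fc d c x := by
    rw [hz, ← Function.iterate_succ_apply' (fc d c), Nat.succ_eq_add_one, Nat.sub_add_cancel hn0]
    exact h
  have hzp : Per d c z := by
    refine ⟨n, hn0, ?_⟩
    show (fc d c)^[n] z = z
    rw [hz, ← Function.iterate_add_apply, add_comm, Function.iterate_add_apply]
    exact congrArg _ h
  have h1 : z ^ d = x ^ d := by
    unfold fc at hzf
    linarith
  have h2 : z = x ∨ z = -x := by
    have h3 : |z| = |x| := by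
      have h4 : |z| ^ d = |x| ^ d := by rw [← abs_pow, ← abs_pow, h1]
      exact (pow_left_inj₀ (abs_nonneg _) (abs_nonneg _) hd).1 h4
    exact abs_eq_abs.1 h3
  rcases h2 with h2 | h2
  · exact absurd (h2 ▸ hzp) hn
  · rw [← h2]
    exact ⟨hzp, hzf⟩

end EVEN_

open EVEN_

theorem p_EVEN : T_CNT → T_DEN → T_EVEN := by
  intro hCNT hDEN d hd hev
  obtain ⟨N, hN⟩ := hCNT d hd hev
  refine ⟨4 * N + 2, ?_⟩
  intro c hc s hs
  have hd0 : d ≠ 0 := by omega
  -- preperiodic points are not zero
  have hne : ∀ x, Pre d c x → x ≠ 0 := by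
    intro x hx h0
    obtain ⟨e, he, hce, hall⟩ := hDEN d c x (by omega) hx
    have h1 := hall x hx
    rw [h0] at h1
    have h2 : e = 1 := by rw [← h1]; rfl
    rw [h2, one_pow] at hce
    exact hc hce
  by_cases hper : ∃ z, Per d c z
  swap
  · have hse : s = ∅ := by
      apply Finset.eq_empty_of_forall_notMem
      intro x hx
      obtain ⟨k, hk⟩ := exists_per (hs x hx)
      exact hper ⟨_, hk⟩
    rw [hse]
    simp
  obtain ⟨z, hz⟩ := hper
  have hz0 := hne z (pre_of_per hz)
  by_cases htwo : ∃ z', Per d c z' ∧ z ≠ z'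
  · obtain ⟨z', hz', hzz⟩ := htwo
    have hz'0 := hne z' (pre_of_per hz')
    -- good points
    have hgood : ∀ t : Finset ℚ, (∀ x ∈ t, Pre d c x ∧ (Per d c x ∨ ¬ Per d c (fc d c x))) →
        t.card ≤ 2 * N := by
      intro t ht
      have h1 : ∀ x ∈ t, Adm d c x z ∨ Adm d c x z' := by
        intro x hx
        obtain ⟨hx1, hx2⟩ := ht x hx
        by_cases ha : ∀ k : ℕ, (fc d c)^[k] x ≠ (fc d c)^[k] z
        · exact Or.inl (Or.inl ⟨hz, hx1, ha, hx2⟩)
        · right
          refine Or.inl ⟨hz', hx1, ?_, hx2⟩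
          intro l hl
          simp only [ne_eq, not_forall, not_not] at ha
          obtain ⟨k, hk⟩ := ha
          apply hzz
          apply per_inj hz hz' (k + l)
          calc (fc d c)^[k + l] z = (fc d c)^[l] ((fc d c)^[k] z) := by
                rw [← Function.iterate_add_apply, add_comm l k]
            _ = (fc d c)^[l] ((fc d c)^[k] x) := by rw [hk]
            _ = (fc d c)^[k] ((fc d c)^[l] x) := by
                rw [← Function.iterate_add_apply, ← Function.iterate_add_apply, add_comm l k]
            _ = (fc d c)^[k] ((fc d c)^[l] z') := by rw [hl]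
            _ = (fc d c)^[k + l] z' := by rw [← Function.iterate_add_apply]
      have h2 : t ⊆ t.filter (fun x => Adm d c x z) ∪ t.filter (fun x => Adm d c x z') := by
        intro x hx
        rw [Finset.mem_union, Finset.mem_filter, Finset.mem_filter]
        rcases h1 x hx with h | h
        · exact Or.inl ⟨hx, h⟩
        · exact Or.inr ⟨hx, h⟩
      have h3 := hN c z hz0 (t.filter (fun x => Adm d c x z))
        (fun x hx => (Finset.mem_filter.1 hx).2)
      have h4 := hN c z' hz'0 (t.filter (fun x => Adm d c x z'))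
        (fun x hx => (Finset.mem_filter.1 hx).2)
      have h5 := (Finset.card_le_card h2).trans (Finset.card_union_le _ _)
      omega
    have h1 := hgood (s.filter (fun x => Per d c x ∨ ¬ Per d c (fc d c x)))
      (fun x hx => ⟨hs x (Finset.mem_filter.1 hx).1, (Finset.mem_filter.1 hx).2⟩)
    have h2 : (s.filter (fun x => ¬ (Per d c x ∨ ¬ Per d c (fc d c x)))).card ≤ 2 * N := by
      rw [← Finset.card_image_of_injective _ (neg_injective : Function.Injective
        (fun x : ℚ => -x))]
      apply hgood
      intro y hy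
      obtain ⟨x, hx, rfl⟩ := Finset.mem_image.1 hy
      obtain ⟨-, hx2⟩ := Finset.mem_filter.1 hx
      simp only [not_or, not_not] at hx2
      have h3 := (neg_per hd0 hx2.2 hx2.1).1
      exact ⟨pre_of_per h3, Or.inl h3⟩
    have h3 := Finset.card_filter_add_card_filter_not (s := s)
      (fun x => Per d c x ∨ ¬ Per d c (fc d c x))
    omega
  · have huni : ∀ y, Per d c y → y = z := by
      intro y hy
      by_contra h
      exact htwo ⟨y, hy, fun h' => h h'.symm⟩
    have hfz : fc d c z = z := huni _ (per_fc hz)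
    have h2 : s ⊆ {z, -z} ∪ s.filter (fun x => Adm d c x z) := by
      intro x hx
      rw [Finset.mem_union, Finset.mem_filter, Finset.mem_insert, Finset.mem_singleton]
      by_cases h1 : Per d c x
      · exact Or.inl (Or.inl (huni x h1))
      by_cases h2 : Per d c (fc d c x)
      · left
        right
        have h3 := huni _ (neg_per hd0 h2 h1).1
        rw [← h3, neg_neg]
      · right
        refine ⟨hx, Or.inr ⟨hfz, hs x hx, h1, h2, ?_⟩⟩
        obtain ⟨k, hk⟩ := exists_per (hs x hx)
        exact ⟨k, huni _ hk⟩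
    have h3 := hN c z hz0 (s.filter (fun x => Adm d c x z))
      (fun x hx => (Finset.mem_filter.1 hx).2)
    have h4 := (Finset.card_le_card h2).trans (Finset.card_union_le _ _)
    have h5 : ({z, -z} : Finset ℚ).card ≤ 2 := Finset.card_le_two
    omega

end Pool.Agent.HMW
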