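import Pool.Agent.HMW.TargetsG

set_option autoImplicit false
set_option linter.unusedSectionVars false

/-!
# HMW, target FLD: a field over which the curves split
-/

open Polynomial Height Height.AdmissibleAbsValues NumberField IsDedekindDomain
open scoped Classical WithZero

noncomputable section

namespace Pool.Agent.HMW

namespace FLD_

/-- the polynomial of the curve -/
def qq {L : Type} [Field L] (g : ℕ) (a : L) : L[X] := X ^ (2 * g + 1) - C (-(a ^ (2 * g)))

lemma qq_monic {L : Type} [Field L] (g : ℕ) (a : L) : (qq g a).Monic :=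
  monic_X_pow_sub_C _ (by omega)

lemma qq_natDegree {L : Type} [Field L] (g : ℕ) (a : L) : (qq g a).natDegree = 2 * g + 1 :=
  natDegree_X_pow_sub_C

/-- enumeration of the roots -/
lemma enum {K : Type} [Field K] [CharZero K] (g : ℕ) (a : K) (ha : a ≠ 0) (hi : IsIntegral ℤ a)
    (hs : (qq g a).Splits) :
    ∃ θ : Fin (2 * g + 1) → 𝓞 K, Function.Injective θ ∧ ∀ t : K,
      t ^ (2 * g + 1) + a ^ (2 * g) = ∏ i, (t - (θ i : K)) := by
  have hsep : (qq g a).Separable :=
    separable_X_pow_sub_C _ (by exact_mod_cast Nat.succ_ne_zero (2 * g))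
      (neg_ne_zero.2 (pow_ne_zero _ ha))
  have hnd : (qq g a).roots.Nodup := nodup_roots hsep
  have hcard : (qq g a).roots.card = 2 * g + 1 := by
    rw [← hs.natDegree_eq_card_roots, qq_natDegree]
  have hcard' : (qq g a).roots.toFinset.card = 2 * g + 1 := by
    rw [Multiset.toFinset_card_of_nodup hnd, hcard]
  set e := (qq g a).roots.toFinset.equivFinOfCardEq hcard' with he
  have hint : ∀ x ∈ (qq g a).roots.toFinset, IsIntegral ℤ x := by
    intro x hx
    have h1 : x ∈ (qq g a).roots := Multiset.mem_toFinset.1 hx
    have h2 := (mem_roots'.1 h1).2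
    rw [IsRoot.def, qq, eval_sub, eval_pow, eval_X, eval_C, sub_eq_zero] at h2
    refine IsIntegral.of_pow (n := 2 * g + 1) (by omega) ?_
    rw [h2]
    exact (hi.pow _).neg
  refine ⟨fun i => ⟨(e.symm i : K), hint _ (e.symm i).2⟩, ?_, ?_⟩
  · intro i j hij
    have h1 : ((e.symm i : _) : K) = (e.symm j : K) := congrArg (fun x : 𝓞 K => (x : K)) hij
    exact e.symm.injective (Subtype.ext h1)
  · intro t
    have h1 := hs.eval_eq_prod_roots_of_monic (qq_monic g a) t
    have h2 : (qq g a).eval t = t ^ (2 * g + 1) + a ^ (2 * g) := by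
      rw [qq, eval_sub, eval_pow, eval_X, eval_C]
      ring
    rw [← h2, h1]
    have h3 : ((qq g a).roots.map fun x => t - x).prod =
        ∏ x ∈ (qq g a).roots.toFinset, (t - x) := by
      rw [Finset.prod, Multiset.toFinset_val, hnd.dedup]
    rw [h3, ← Finset.prod_coe_sort]
    exact (Equiv.prod_comp e.symm (fun x : (qq g a).roots.toFinset => t - (x : K))).symm

end FLD_

open FLD_

theorem p_FLD : T_FLD := by
  intro L _ _ A g
  set P : L[X] := ∏ α ∈ A, qq g (α : L) with hP
  have hP0 : P ≠ 0 := Finset.prod_ne_zero_iff.2 fun α _ => (qq_monic g _).ne_zero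
  have hc : CharZero P.SplittingField :=
    charZero_of_injective_algebraMap (algebraMap L P.SplittingField).injective
  have ht : IsScalarTower ℚ L P.SplittingField :=
    IsScalarTower.of_algebraMap_eq fun x => by
      rw [eq_ratCast, eq_ratCast, map_ratCast]
  have hfd : FiniteDimensional L P.SplittingField := inferInstance
  have hfq : FiniteDimensional ℚ P.SplittingField := FiniteDimensional.trans ℚ L P.SplittingField
  have hN : NumberField P.SplittingField := ⟨⟩
  refine ⟨P.SplittingField, inferInstance, hN, inferInstance, fun α hα hα0 => ?_⟩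
  have hmap : (qq g (α : L)).map (algebraMap L P.SplittingField) =
      qq g (algebraMap L P.SplittingField (α : L)) := by
    unfold qq
    rw [Polynomial.map_sub, Polynomial.map_pow, map_X, map_C, map_neg, map_pow]
  refine enum g (algebraMap L P.SplittingField (α : L)) ?_ ?_ ?_
  · intro h
    apply hα0
    have h1 : (α : L) = 0 := (map_eq_zero _).1 h
    exact_mod_cast h1
  · exact (RingOfIntegers.isIntegral_coe α).algebraMap
  · rw [← hmap]
    have h1 : Splits (P.map (algebraMap L P.SplittingField)) := SplittingField.splits P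
    refine h1.of_dvd ?_ ?_
    · exact (Polynomial.map_ne_zero_iff (algebraMap L P.SplittingField).injective).2 hP0
    · exact Polynomial.map_dvd _ (Finset.dvd_prod_of_mem _ hα)

end Pool.Agent.HMW
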