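import Pool.Agent.HMW.TargetsG
import Pool.Agent.UPre.AllA

set_option autoImplicit false

/-!
# HMW: `d = 4` and assembly
-/

namespace Pool.Agent.HMW

open Function

/-- a point with finite orbit is eventually periodic -/
theorem exists_periodic {α : Type} (F : α → α) (x : α)
    (h : (Set.range fun k : ℕ => F^[k] x).Finite) : ∃ k : ℕ, F^[k] x ∈ periodicPts F := by
  have h1 : ¬ Injective (fun k : ℕ => F^[k] x) := fun hinj => Set.infinite_range_of_injective hinj h
  rw [Injective] at h1
  push Not at h1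
  obtain ⟨a, b, hab, hne⟩ := h1
  replace hab : F^[a] x = F^[b] x := hab
  wlog hlt : a < b generalizing a b
  · exact this b a hne.symm hab.symm (lt_of_le_of_ne (not_lt.1 hlt) hne.symm)
  refine ⟨a, b - a, Nat.sub_pos_of_lt hlt, ?_⟩
  change F^[b - a] (F^[a] x) = F^[a] x
  rw [← iterate_add_apply, Nat.sub_add_cancel hlt.le]
  exact hab.symm

theorem p_FOUR : T_FOUR := by
  intro c s hs
  have h := (Pool.Agent.UPre.mainA 3 4 (Or.inl rfl) (by norm_num) (by norm_num) ∅
    (Or.inl (by norm_num)) 1 one_ne_zero (fun p hp h2 _ => by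
      have h4 : ¬ p ∣ 4 := by
        intro hdvd
        have : p ∣ 2 := hp.dvd_of_dvd_pow (n := 2) (by norm_num; exact hdvd)
        exact h2 ((Nat.prime_dvd_prime_iff_eq hp Nat.prime_two).1 this)
      have hv : padicValRat p (1 * ((4 : ℕ) : ℚ)) = 0 := by
        rw [one_mul, padicValRat.of_nat, padicValNat.eq_zero_of_not_dvd h4]
        rfl
      rw [hv]
      exact dvd_zero _) c).2 rfl
  have hsub : (s : Set ℚ) ⊆ {x : ℚ | ∃ k : ℕ, (fun x : ℚ => (1 : ℚ) * x ^ 4 + c)^[k] x ∈
      periodicPts (fun x : ℚ => (1 : ℚ) * x ^ 4 + c)} := by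
    intro x hx
    have h1 := hs x hx
    have h2 : (fun x : ℚ => (1 : ℚ) * x ^ 4 + c) = fc 4 c := by
      funext y
      simp [fc]
    rw [h2]
    exact exists_periodic _ x h1
  have h3 := (Set.encard_le_encard hsub).trans h
  rw [Set.encard_coe_eq_coe_finsetCard] at h3
  exact_mod_cast h3

end Pool.Agent.HMW
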