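import Pool.Agent.HMW.TargetsG

set_option autoImplicit false

/-!
# GCA: the numerators are coprime
-/

open Polynomial NumberField IsDedekindDomain
open scoped WithZero

noncomputable section

namespace Pool.Agent.HMW

namespace GCA_

/-- the orbit in an extension field -/
lemma orbit_cast (L : Type) [Field L] [CharZero L] (d : ℕ) (c x : ℚ) (k : ℕ) :
    (fun y : L => y ^ d + (c : L))^[k] (x : L) = (((fc d c)^[k] x : ℚ) : L) := by
  induction k with
  | zero => rfl
  | succ k ih =>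
    rw [Function.iterate_succ_apply', Function.iterate_succ_apply', ih]
    unfold fc
    push_cast
    rfl

lemma orbit_finite (L : Type) [Field L] [CharZero L] {d : ℕ} {c x : ℚ} (h : Pre d c x) :
    (Set.range fun k : ℕ => (fun y : L => y ^ d + (c : L))^[k] (x : L)).Finite := by
  have h1 := Set.Finite.image (fun q : ℚ => (q : L)) h
  refine h1.subset ?_
  rintro _ ⟨k, rfl⟩
  refine ⟨(fc d c)^[k] x, ⟨k, rfl⟩, ?_⟩
  exact (orbit_cast L d c x k).symm

/-- periodic points are preperiodic -/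
lemma per_pre {d : ℕ} {c x : ℚ} (h : Per d c x) : Pre d c x := by
  obtain ⟨n, hn, hx⟩ := h
  unfold Pre
  refine ((Set.finite_Iio n).image fun k : ℕ => (fc d c)^[k] x).subset ?_
  rintro _ ⟨k, rfl⟩
  refine ⟨k % n, Nat.mod_lt _ hn, ?_⟩
  exact hx.iterate_mod_apply k

/-- the valuation of a rational number whose numerator is divisible by `p` -/
lemma val_lt {L : Type} [Field L] [CharZero L] (w : Valuation L ℤᵐ⁰)
    (hw : ∀ n : ℤ, w (n : L) ≤ 1) {p : ℕ} (hwp : w (p : L) < 1) {x : ℚ}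
    (hx : (p : ℤ) ∣ x.num) : w (x : L) < 1 := by
  obtain ⟨m, hm⟩ := hx
  have hcop : IsCoprime (x.num) (x.den : ℤ) := by
    rw [Int.isCoprime_iff_gcd_eq_one]
    simpa [Int.gcd] using x.reduced
  obtain ⟨a, b, hab⟩ := hcop
  have h1 : w (x.num : L) < 1 := by
    rw [hm]
    push_cast
    rw [map_mul]
    have h2 : w (m : L) ≤ 1 := hw m
    calc w (p : L) * w (m : L) ≤ w (p : L) * 1 := by gcongr
      _ < 1 := by rw [mul_one]; exact hwp
  have h2 : w ((x.den : ℤ) : L) = 1 := by
    refine le_antisymm (hw _) ?_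
    by_contra hlt
    rw [not_le] at hlt
    have h3 : w ((a * x.num + b * (x.den : ℤ) : ℤ) : L) < 1 := by
      push_cast
      refine w.map_add_lt ?_ ?_
      · rw [map_mul]
        calc w (a : L) * w (x.num : L) ≤ 1 * w (x.num : L) := by
              gcongr
              exact hw a
          _ < 1 := by rw [one_mul]; exact h1
      · rw [map_mul]
        have h4 : w ((x.den : L)) < 1 := by exact_mod_cast hlt
        calc w (b : L) * w (x.den : L) ≤ 1 * w (x.den : L) := by
              gcongr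
              exact hw b
          _ < 1 := by rw [one_mul]; exact h4
    rw [hab] at h3
    simp at h3
  have h3 : (x : L) = (x.num : L) / ((x.den : ℤ) : L) := by
    conv_lhs => rw [← Rat.num_div_den x]
    push_cast
    rfl
  rw [h3, map_div₀, h2, div_one]
  exact h1

lemma aux (L : Type) [Field L] [NumberField L] (hPSA : T_PSA) (hVAL : T_VAL) {d : ℕ} {c x z : ℚ}
    (hd : 4 ≤ d) (hev : Even d) (hadm : AdmA d c x z) {ζ : L} (hζ : IsPrimitiveRoot ζ d) {p : ℕ}
    (hp : p.Prime) (hpx : (p : ℤ) ∣ x.num) (hpz : (p : ℤ) ∣ z.num) : False := by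
  have : CharZero L := inferInstance
  -- a prime above `p`
  have hnu : ¬ IsUnit (p : 𝓞 L) := by
    intro hu
    have h1 : IsUnit (Algebra.norm ℤ (p : 𝓞 L)) := hu.map _
    have h2 : Algebra.norm ℤ (algebraMap ℤ (𝓞 L) (p : ℤ)) =
        (p : ℤ) ^ Module.finrank ℤ (𝓞 L) := Algebra.norm_algebraMap (p : ℤ)
    have h3 : algebraMap ℤ (𝓞 L) (p : ℤ) = (p : 𝓞 L) := by simp
    rw [← h3, h2] at h1
    have h4 : Module.finrank ℤ (𝓞 L) ≠ 0 := (Module.finrank_pos).ne'
    rw [isUnit_pow_iff h4, Int.isUnit_iff] at h1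
    have := hp.one_lt
    omega
  obtain ⟨m, hm, hpm⟩ := Ideal.exists_le_maximal (Ideal.span {(p : 𝓞 L)})
    (fun h => hnu (Ideal.span_singleton_eq_top.1 h))
  have hpm' : (p : 𝓞 L) ∈ m := hpm (Ideal.mem_span_singleton_self _)
  have hm0 : m ≠ ⊥ := by
    rintro rfl
    rw [Ideal.mem_bot] at hpm'
    exact hp.ne_zero (by exact_mod_cast hpm')
  let v : HeightOneSpectrum (𝓞 L) := ⟨m, hm.isPrime, hm0⟩
  let w : Valuation L ℤᵐ⁰ := v.valuation L
  have hwint : ∀ n : ℤ, w (n : L) ≤ 1 := by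
    intro n
    have := v.valuation_le_one (K := L) (n : 𝓞 L)
    simpa using this
  have hwp : w (p : L) < 1 := by
    have := (v.valuation_lt_one_iff_mem (K := L) (p : 𝓞 L)).2 hpm'
    simpa using this
  have hwx : w (x : L) < 1 := val_lt w hwint hwp hpx
  have hwz : w (z : L) < 1 := val_lt w hwint hwp hpz
  have hwc : w (c : L) ≤ 1 := by
    by_contra hlt
    rw [not_le] at hlt
    have h1 := (hVAL L w d (c : L) (x : L) (by omega) (orbit_finite L hadm.2.1)).2 hlt
    have h2 : w (x : L) ^ d ≤ 1 := pow_le_one' hwx.le d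
    rw [h1] at h2
    exact absurd hlt (not_lt.2 h2)
  have h1 := hPSA L w d ζ c x z hd hev hζ hwc hadm 1 (fun h => by
    have := Nat.le_of_dvd one_pos h
    omega)
  have hwζ : w ζ ≤ 1 := by
    by_contra hlt
    rw [not_le] at hlt
    have h2 : w ζ ^ d = 1 := by rw [← map_pow, hζ.pow_eq_one, map_one]
    have h3 : 1 < w ζ ^ d := one_lt_pow' hlt (by omega)
    rw [h2] at h3
    exact lt_irrefl _ h3
  have h3 : w ((x : L) - ζ ^ 1 * z) < 1 := by
    refine w.map_sub_lt hwx ?_
    rw [map_mul, pow_one]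
    calc w ζ * w (z : L) ≤ 1 * w (z : L) := by gcongr
      _ < 1 := by rw [one_mul]; exact hwz
  rw [h1] at h3
  exact lt_irrefl _ h3

end GCA_

open GCA_

theorem p_GCA : T_PSA → T_VAL → T_GCA := by
  intro hPSA hVAL d c x z hd hev hadm
  by_contra hcon
  rw [Int.isCoprime_iff_gcd_eq_one] at hcon
  obtain ⟨p, hp, hpg⟩ := Nat.exists_prime_and_dvd hcon
  have hpx : (p : ℤ) ∣ x.num := (Int.natCast_dvd_natCast.2 hpg).trans (Int.gcd_dvd_left ..)
  have hpz : (p : ℤ) ∣ z.num := (Int.natCast_dvd_natCast.2 hpg).trans (Int.gcd_dvd_right ..)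
  have hd0 : d ≠ 0 := by omega
  have : NeZero d := ⟨hd0⟩
  have hcyc : @IsCyclotomicExtension {d} ℚ (CyclotomicField d ℚ) _ _
      (CyclotomicField.algebra d ℚ) := inferInstance
  obtain ⟨ζ, hζ⟩ := hcyc.exists_isPrimitiveRoot (Set.mem_singleton d) hd0
  exact aux (CyclotomicField d ℚ) hPSA hVAL hd hev hadm hζ hp hpx hpz

end Pool.Agent.HMW
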