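import Pool.Agent.HMW.TargetsG

set_option autoImplicit false
set_option linter.unusedVariables false

/-!
# HMW: small common divisor of the numerators (target GCB)
-/

noncomputable section

namespace Pool.Agent.HMW

namespace GCB_

variable {p : ℕ} [hp : Fact p.Prime]

lemma den_val {q : ℚ} (h : (p : ℤ) ∣ q.num) : padicValNat p q.den = 0 := by
  apply padicValNat.eq_zero_of_not_dvd
  intro h2
  have h3 := q.reduced
  have h4 : p ∣ q.num.natAbs := Int.natCast_dvd.1 h
  have h5 : p ∣ Nat.gcd q.num.natAbs q.den := Nat.dvd_gcd h4 h2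
  rw [Nat.Coprime] at h3
  rw [h3] at h5
  exact hp.out.one_lt.ne' (Nat.dvd_one.1 h5)

lemma val_num {q : ℚ} (h : (p : ℤ) ∣ q.num) : padicValRat p q = padicValInt p q.num := by
  rw [padicValRat, den_val h]
  simp

lemma val_two : 0 ≤ padicValRat p (2 : ℚ) ∧ padicValRat p (2 : ℚ) ≤ 1 := by
  have h : padicValRat p (2 : ℚ) = (padicValNat p 2 : ℕ) := by
    have := @padicValRat.of_nat p 2
    simpa using this
  rw [h]
  refine ⟨by positivity, ?_⟩
  have h2 : padicValNat p 2 ≤ 1 := by
    by_cases hp2 : p = 2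
    · subst hp2
      simp
    · have : padicValNat p 2 = 0 := by
        apply padicValNat.eq_zero_of_not_dvd
        intro h3
        exact hp2 ((Nat.prime_dvd_prime_iff_eq hp.out Nat.prime_two).1 h3)
      omega
  exact_mod_cast h2

/-- The backward step. -/
lemma step {d : ℕ} {c z : ℚ} (hd : 4 ≤ d) (hz0 : z ≠ 0) (hc : c = z - z ^ d)
    (hb : 0 < padicValRat p z) {y : ℚ}
    (h1 : fc d c y ≠ 0) (h2 : (d : ℤ) * padicValRat p (fc d c y) ≤ padicValRat p (2 * z)) :
    y ≠ 0 ∧ (d : ℤ) * padicValRat p y ≤ padicValRat p (2 * z) := by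
  have h2z : padicValRat p (2 * z) = padicValRat p 2 + padicValRat p z :=
    padicValRat.mul (by norm_num) hz0
  obtain ⟨t0, t1⟩ := val_two (p := p)
  have hdz : (4 : ℤ) ≤ d := by exact_mod_cast hd
  set b := padicValRat p z with hbdef
  set s := padicValRat p (2 * z) with hs
  -- the valuation of c
  have hzd : padicValRat p (-(z ^ d)) = d * b := by
    rw [padicValRat.neg, padicValRat.pow]
  have hlt : b < d * b := by nlinarith
  have hc0 : c ≠ 0 := by
    intro h0
    rw [h0] at hc
    have : z = z ^ d := by linarith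
    have h3 : b = d * b := by
      have h4 : padicValRat p z = padicValRat p (z ^ d) := by rw [← this]
      rw [padicValRat.pow] at h4
      exact h4
    omega
  have hcv : padicValRat p c = b := by
    have h3 : z + -(z ^ d) ≠ 0 := by
      rw [← sub_eq_add_neg, ← hc]
      exact hc0
    have h4 := padicValRat.add_eq_of_lt (p := p) h3 hz0 (neg_ne_zero.2 (pow_ne_zero d hz0))
      (by rw [hzd]; exact hlt)
    rw [← sub_eq_add_neg, ← hc] at h4
    exact h4
  have hv : padicValRat p (fc d c y) < b := by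
    by_contra h
    push Not at h
    have : (d : ℤ) * b ≤ d * padicValRat p (fc d c y) :=
      mul_le_mul_of_nonneg_left h (by omega)
    nlinarith
  have hyd : y ^ d = fc d c y + -c := by
    simp only [fc]
    ring
  have hne : fc d c y + -c ≠ 0 := by
    intro h
    have : fc d c y = c := by linarith
    rw [this] at hv
    omega
  have h3 := padicValRat.add_eq_of_lt (p := p) hne h1 (neg_ne_zero.2 hc0)
    (by rw [padicValRat.neg, hcv]; exact hv)
  rw [← hyd] at h3
  have hy0 : y ≠ 0 := by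
    intro h
    rw [← hyd, h, zero_pow (by omega)] at hne
    exact hne rfl
  rw [padicValRat.pow] at h3
  refine ⟨hy0, ?_⟩
  rw [h3]
  by_cases h4 : padicValRat p (fc d c y) ≤ 0
  · omega
  · push Not at h4
    nlinarith

/-- All points on the backward orbit. -/
lemma back {d : ℕ} {c z : ℚ} (hd : 4 ≤ d) (hz0 : z ≠ 0) (hc : c = z - z ^ d)
    (hb : 0 < padicValRat p z) (j : ℕ) : ∀ y : ℚ, (fc d c)^[j] y ≠ 0 →
    (d : ℤ) * padicValRat p ((fc d c)^[j] y) ≤ padicValRat p (2 * z) →
    y ≠ 0 ∧ (d : ℤ) * padicValRat p y ≤ padicValRat p (2 * z) := by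
  induction j with
  | zero => exact fun y h1 h2 => ⟨h1, h2⟩
  | succ j ih =>
    intro y h1 h2
    rw [Function.iterate_succ_apply] at h1 h2
    obtain ⟨h3, h4⟩ := ih (fc d c y) h1 h2
    exact step hd hz0 hc hb h3 h4

/-- The orbit passes through a point `u` with `u ^ d = z ^ d - 2 z`. -/
lemma orbit {d : ℕ} {c x z : ℚ} (hd : 4 ≤ d) (h : AdmB d c x z) :
    ∃ j : ℕ, ((fc d c)^[j] x) ^ d = z ^ d - 2 * z := by
  obtain ⟨hz, -, hx, hfx, hk⟩ := h
  classical
  obtain ⟨i, hi, hmin⟩ : ∃ i : ℕ, (fc d c)^[i] x = z ∧ ∀ m < i, (fc d c)^[m] x ≠ z :=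
    ⟨Nat.find hk, Nat.find_spec hk, fun m hm => Nat.find_min hk hm⟩
  have hzp : Per d c z := by
    refine Function.mk_mem_periodicPts (n := 1) one_pos ?_
    rw [Function.IsPeriodicPt, Function.iterate_one]
    exact hz
  have hi0 : i ≠ 0 := by
    rintro rfl
    exact hx (by rw [show x = z from hi]; exact hzp)
  have hi1 : i ≠ 1 := by
    rintro rfl
    exact hfx (by rw [show fc d c x = z from hi]; exact hzp)
  obtain ⟨j, rfl⟩ : ∃ j, i = j + 2 := ⟨i - 2, by omega⟩
  refine ⟨j, ?_⟩
  have h1 : (fc d c)^[j + 1] x ≠ z := hmin (j + 1) (by omega)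
  have h2 : fc d c ((fc d c)^[j + 1] x) = z := by
    rw [← Function.iterate_succ_apply' (fc d c) (j + 1) x]
    exact hi
  have h3 : ((fc d c)^[j + 1] x) ^ d = z ^ d := by
    have h4 := h2.trans hz.symm
    simp only [fc] at h4 ⊢
    linarith
  have h4 : (fc d c)^[j + 1] x = -z := by
    rcases (pow_eq_pow_iff_cases).1 h3 with h5 | h5 | h5
    · omega
    · exact absurd h5 h1
    · exact h5.1
  rw [Function.iterate_succ_apply'] at h4
  have h5 : ((fc d c)^[j] x) ^ d + c = -z := h4
  have h6 : z ^ d + c = z := hz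
  linarith

/-- The estimate at one prime. -/
lemma prime_est {d : ℕ} {c x z : ℚ} (hd : 4 ≤ d) (h : AdmB d c x z) (hz0 : z ≠ 0)
    (hb : 0 < padicValRat p z) :
    x ≠ 0 ∧ (d : ℤ) * padicValRat p x ≤ padicValRat p (2 * z) := by
  obtain ⟨j, hj⟩ := orbit hd h
  have hc : c = z - z ^ d := by
    have h6 : z ^ d + c = z := h.1
    linarith
  have h2z : padicValRat p (2 * z) = padicValRat p 2 + padicValRat p z :=
    padicValRat.mul (by norm_num) hz0
  obtain ⟨t0, t1⟩ := val_two (p := p)
  have hdz : (4 : ℤ) ≤ d := by exact_mod_cast hd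
  have h2z0 : (2 * z : ℚ) ≠ 0 := mul_ne_zero (by norm_num) hz0
  have hzd0 : z ^ d ≠ 0 := pow_ne_zero d hz0
  have hlt : padicValRat p (-(2 * z)) < padicValRat p (z ^ d) := by
    rw [padicValRat.neg, padicValRat.pow, h2z]
    nlinarith
  have hne : -(2 * z) + z ^ d ≠ 0 := by
    intro h0
    have h1 : z ^ d = 2 * z := by linarith
    rw [h1, padicValRat.neg] at hlt
    exact lt_irrefl _ hlt
  have h1 := padicValRat.add_eq_of_lt (p := p) hne (neg_ne_zero.2 h2z0) hzd0 hlt
  rw [padicValRat.neg] at h1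
  have h2 : -(2 * z) + z ^ d = ((fc d c)^[j] x) ^ d := by
    rw [hj]
    ring
  rw [h2] at h1 hne
  have hu0 : (fc d c)^[j] x ≠ 0 := by
    intro h0
    rw [h0, zero_pow (by omega)] at hne
    exact hne rfl
  rw [padicValRat.pow] at h1
  exact back hd hz0 hc hb j x hu0 h1.le

end GCB_

theorem p_GCB : T_GCB := by
  intro d c x z hd _ h hz0
  have hzn : z.num ≠ 0 := Rat.num_ne_zero.2 hz0
  have hg0 : Int.gcd x.num z.num ≠ 0 := by
    intro h0
    exact hzn (Int.gcd_eq_zero_iff.1 h0).2
  have hN0 : (2 * z.num).natAbs ≠ 0 := by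
    rw [Int.natAbs_ne_zero]
    exact mul_ne_zero (by norm_num) hzn
  rw [← Nat.factorization_prime_le_iff_dvd (pow_ne_zero d hg0) hN0]
  intro p hp
  haveI : Fact p.Prime := ⟨hp⟩
  rw [Nat.factorization_pow, Finsupp.smul_apply, smul_eq_mul, Nat.factorization_def _ hp,
    Nat.factorization_def _ hp]
  by_cases hpg : p ∣ Int.gcd x.num z.num
  · have hpx : (p : ℤ) ∣ x.num := (Int.natCast_dvd_natCast.2 hpg).trans (Int.gcd_dvd_left _ _)
    have hpz : (p : ℤ) ∣ z.num := (Int.natCast_dvd_natCast.2 hpg).trans (Int.gcd_dvd_right _ _)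
    have hvz : padicValRat p z = padicValInt p z.num := GCB_.val_num hpz
    have hb : 0 < padicValRat p z := by
      rw [hvz]
      have h1 : 1 ≤ padicValNat p z.num.natAbs :=
        one_le_padicValNat_of_dvd (Int.natAbs_ne_zero.2 hzn) (Int.natCast_dvd.1 hpz)
      have : (1 : ℤ) ≤ padicValInt p z.num := by exact_mod_cast h1
      omega
    obtain ⟨hx0, hest⟩ := GCB_.prime_est hd h hz0 hb
    have hxn : x.num ≠ 0 := Rat.num_ne_zero.2 hx0
    rw [GCB_.val_num hpx, padicValRat.mul (by norm_num) hz0, hvz] at hest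
    have h2 : padicValRat p (2 : ℚ) = (padicValNat p 2 : ℕ) := by
      have := @padicValRat.of_nat p 2
      simpa using this
    rw [h2] at hest
    have h3 : padicValNat p (2 * z.num).natAbs = padicValNat p 2 + padicValNat p z.num.natAbs := by
      rw [Int.natAbs_mul]
      exact padicValNat.mul (by norm_num) (Int.natAbs_ne_zero.2 hzn)
    have h4 : padicValNat p (Int.gcd x.num z.num) ≤ padicValNat p x.num.natAbs := by
      have h5 : Int.gcd x.num z.num ∣ x.num.natAbs := Nat.gcd_dvd_left _ _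
      exact (padicValNat_dvd_iff_le (Int.natAbs_ne_zero.2 hxn)).1
        ((pow_padicValNat_dvd).trans h5)
    have h6 : (d : ℤ) * (padicValNat p x.num.natAbs : ℤ) ≤
        (padicValNat p 2 : ℤ) + padicValNat p z.num.natAbs := hest
    have h7 : d * padicValNat p x.num.natAbs ≤ padicValNat p 2 + padicValNat p z.num.natAbs := by
      exact_mod_cast h6
    rw [h3]
    exact (Nat.mul_le_mul_left d h4).trans h7
  · rw [padicValNat.eq_zero_of_not_dvd hpg]
    simp

end Pool.Agent.HMW
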