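import Pool.Agent.HMW.TargetsG

set_option autoImplicit false

open Polynomial Height Height.AdmissibleAbsValues NumberField IsDedekindDomain
open scoped Classical WithZero

noncomputable section

namespace Pool.Agent.HMW

namespace HQK_

variable {K : Type} [Field K] [NumberField K]

/-- at a finite place the maximum of a coprime pair is one -/
theorem fin_one (v : FinitePlace K) (a b : ℤ) (h : IsCoprime a b) :
    ⨆ i, v (![(a : K), (b : K)] i) = 1 := by
  have hv : IsNonarchimedean (v ·) := FinitePlace.add_le v
  have H (n : ℤ) : v (n : K) ≤ 1 := IsNonarchimedean.apply_intCast_le_one hv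
  have e : (⨆ i, v (![(a : K), (b : K)] i)) = max (v (a : K)) (v (b : K)) := by
    apply le_antisymm
    · apply ciSup_le
      intro i
      fin_cases i <;> simp
    · apply max_le
      · exact Finite.le_ciSup_of_le 0 (by simp)
      · exact Finite.le_ciSup_of_le 1 (by simp)
  rw [e]
  apply le_antisymm (max_le (H a) (H b))
  obtain ⟨u, w, huw⟩ := h
  have h1 : ((u : K) * a + w * b) = 1 := by exact_mod_cast congrArg (Int.cast : ℤ → K) huw
  have h2 : v ((u : K) * a + w * b) ≤ max (v ((u : K) * a)) (v ((w : K) * b)) := hv _ _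
  rw [h1, map_one, map_mul, map_mul] at h2
  refine h2.trans (max_le ?_ ?_)
  · exact (mul_le_of_le_one_left (apply_nonneg v _) (H u)).trans (le_max_left _ _)
  · exact (mul_le_of_le_one_left (apply_nonneg v _) (H w)).trans (le_max_right _ _)

/-- at an infinite place the value of an integer -/
theorem inf_int (v : InfinitePlace K) (a : ℤ) : v (a : K) = |(a : ℝ)| := by
  rw [← InfinitePlace.norm_embedding_eq v, map_intCast]
  simp

theorem mulH (r : ℚ) :
    mulHeight₁ (r : K) = (mulHeight₁ r) ^ (Module.finrank ℚ K) := by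
  have hd : ((r.den : ℤ) : K) ≠ 0 := by exact_mod_cast r.den_nz
  have e1 : (r : K) = (r.num : K) / ((r.den : ℤ) : K) := by
    rw [Int.cast_natCast]
    exact Rat.cast_def r
  have hne : (![(r.num : K), ((r.den : ℤ) : K)] : Fin 2 → K) ≠ 0 := by
    intro h
    apply hd
    have := congrFun h 1
    simpa using this
  rw [e1, mulHeight₁_div_eq_mulHeight, NumberField.mulHeight_eq hne, Rat.mulHeight₁_eq_max]
  have h1 : (∏ᶠ v : FinitePlace K, ⨆ i, v (![(r.num : K), ((r.den : ℤ) : K)] i)) = 1 :=
    finprod_eq_one_of_forall_eq_one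
      (fun v => fin_one v r.num r.den (Rat.isCoprime_num_den r))
  rw [h1, mul_one]
  have h2 : ∀ v : InfinitePlace K, (⨆ i, v (![(r.num : K), ((r.den : ℤ) : K)] i)) =
      ((max r.num.natAbs r.den : ℕ) : ℝ) := by
    intro v
    have e : (⨆ i, v (![(r.num : K), ((r.den : ℤ) : K)] i)) =
        max (v (r.num : K)) (v ((r.den : ℤ) : K)) := by
      apply le_antisymm
      · apply ciSup_le
        intro i
        fin_cases i <;> simp
      · apply max_le
        · exact Finite.le_ciSup_of_le 0 (by simp)
        · exact Finite.le_ciSup_of_le 1 (by simp)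
    rw [e, inf_int, inf_int]
    push_cast
    rw [Nat.cast_natAbs]
    simp
  rw [Finset.prod_congr rfl (fun v _ => by rw [h2 v]), Finset.prod_pow_eq_pow_sum,
    InfinitePlace.sum_mult_eq]

end HQK_

theorem p_HQK : T_HQK := by
  intro K _ _ r
  rw [logHeight₁_eq_log_mulHeight₁, logHeight₁_eq_log_mulHeight₁, HQK_.mulH, Real.log_pow]

end Pool.Agent.HMW
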