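import Pool.Agent.HMW.TargetsG

set_option autoImplicit false

/-!
# MP_c076ed_nt: heights of the ratios of admissible pairs
-/

open Polynomial Height Height.AdmissibleAbsValues NumberField IsDedekindDomain
open scoped Classical WithZero

noncomputable section

namespace Pool.Agent.HMW

namespace HTX_

theorem pre_of_per {d : ℕ} {c z : ℚ} (h : Per d c z) : Pre d c z := by
  obtain ⟨n, hn, hp⟩ := h
  refine Set.Finite.subset ((Set.finite_lt_nat n).image (fun k : ℕ => (fc d c)^[k] z)) ?_
  rintro _ ⟨k, rfl⟩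
  exact ⟨k % n, Nat.mod_lt _ hn, hp.iterate_mod_apply k⟩

theorem adm_pre {d : ℕ} {c x z : ℚ} (h : Adm d c x z) : Pre d c x ∧ Pre d c z := by
  rcases h with h | h
  · exact ⟨h.2.1, pre_of_per h.1⟩
  · refine ⟨h.2.1, pre_of_per ⟨1, one_pos, ?_⟩⟩
    exact h.1

/-- the ratio of two rational numbers with the same denominator, in lowest terms -/
theorem ratio {x z : ℚ} (hden : x.den = z.den) (hz : z ≠ 0) :
    ∃ k : ℤ, x.num = k * (x / z).num ∧ z.num = k * (x / z).den ∧
      k.natAbs = Int.gcd x.num z.num := by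
  have hzn : z.num ≠ 0 := Rat.num_ne_zero.mpr hz
  have hq : x / z = Rat.divInt x.num z.num := by
    rw [Rat.divInt_eq_div]
    have h1 : (x.den : ℚ) ≠ 0 := by exact_mod_cast x.den_nz
    have h2 : x = x.num / x.den := (Rat.num_div_den x).symm
    have h3 : z = z.num / x.den := by rw [hden]; exact (Rat.num_div_den z).symm
    have h4 : (z.num : ℚ) ≠ 0 := by exact_mod_cast hzn
    conv_lhs => rw [h2, h3]
    field_simp
  obtain ⟨k, hk1, hk2⟩ := Rat.num_den_mk hzn hq
  refine ⟨k, hk1, hk2, ?_⟩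
  conv_rhs => rw [hk1, hk2]
  rw [Int.gcd_mul_left]
  have : Int.gcd (x / z).num ((x / z).den : ℤ) = 1 := (x / z).reduced
  rw [this, mul_one]

theorem height_nonneg (q : ℚ) : 0 ≤ logHeight₁ q := by
  rw [Rat.logHeight₁_eq_log_max]
  exact Real.log_natCast_nonneg _

theorem algebra_b {d : ℕ} (hd : 4 ≤ d) {H C0 κ μ A : ℝ} (hA : A ≤ κ + μ)
    (hk : (d : ℝ) * κ ≤ Real.log 2 + κ + μ)
    (hlow : (1 - 1 / (d : ℝ)) * (H / d) - C0 ≤ A) :
    (1 - 1 / (d : ℝ)) ^ 2 * (H / d) - (|C0| + 1) ≤ μ := by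
  have hd0 : (0 : ℝ) < d := by positivity
  have hd4 : (4 : ℝ) ≤ d := by exact_mod_cast hd
  set t : ℝ := 1 / (d : ℝ) with ht
  have ht0 : 0 < t := by positivity
  have ht1 : t ≤ 1 / 4 := one_div_le_one_div_of_le (by norm_num) hd4
  have hdt : (d : ℝ) * t = 1 := by rw [ht]; field_simp
  have h1 : κ ≤ t * (Real.log 2 + κ + μ) := by
    have := mul_le_mul_of_nonneg_left hk ht0.le
    have e : t * ((d : ℝ) * κ) = κ := by
      calc t * ((d : ℝ) * κ) = ((d : ℝ) * t) * κ := by ring
        _ = κ := by rw [hdt, one_mul]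
    rwa [e] at this
  have h2 : (1 - t) * ((1 - t) * (H / d) - C0) ≤ (1 - t) * (κ + μ) :=
    mul_le_mul_of_nonneg_left (hlow.trans hA) (by linarith)
  have hl2 : Real.log 2 ≤ 1 := by
    have := Real.log_two_lt_d9
    linarith
  have hl0 : 0 ≤ Real.log 2 := Real.log_nonneg (by norm_num)
  have h3 : (1 - t) * C0 ≤ |C0| := by
    have h4 := le_abs_self C0
    have h5 := abs_nonneg C0
    nlinarith
  have h6 : t * Real.log 2 ≤ 1 := by nlinarith
  nlinarith

end HTX_

open HTX_ in
theorem p_HTX : T_DEN → T_GCA → T_GCB → T_SIZ → T_HTX := by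
  intro hDEN hGCA hGCB hSIZ d hd heven
  obtain ⟨C0, hC0⟩ := hSIZ d hd
  refine ⟨|C0| + 1, ?_⟩
  intro c x z w hadm hz hw hwx
  obtain ⟨hpx, hpz⟩ := adm_pre hadm
  have hx : x ≠ 0 := by
    rintro rfl
    rw [abs_zero] at hwx
    exact absurd (abs_nonneg w) (not_le.mpr hwx)
  obtain ⟨e, -, -, hden⟩ := hDEN d c x (by omega) hpx
  have hdd : x.den = z.den := (hden x hpx).trans (hden z hpz).symm
  obtain ⟨k, hk1, hk2, hkg⟩ := ratio hdd hz
  set q : ℚ := x / z with hq
  have hxn : x.num ≠ 0 := Rat.num_ne_zero.mpr hx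
  have hzn : z.num ≠ 0 := Rat.num_ne_zero.mpr hz
  have hk0 : k ≠ 0 := by
    rintro rfl
    rw [zero_mul] at hk1
    exact hxn hk1
  have hkabs : (1 : ℝ) ≤ |(k : ℝ)| := by
    have : (1 : ℤ) ≤ |k| := Int.one_le_abs hk0
    exact_mod_cast this
  have hH0 : 0 ≤ logHeight₁ c := height_nonneg c
  obtain ⟨hx1, -⟩ := hC0 c x x hpx hpx
  obtain ⟨hz1, -⟩ := hC0 c z z hpz hpz
  obtain ⟨-, hlow⟩ := hC0 c w x hw hpx
  have hx1 := hx1 hx
  have hz1 := hz1 hz
  have hlow := hlow hwx
  set M : ℕ := max q.num.natAbs q.den with hM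
  have hM1 : 1 ≤ M := le_trans q.den_pos (le_max_right _ _)
  have hM1' : (1 : ℝ) ≤ M := by exact_mod_cast hM1
  have hht : logHeight₁ q = Real.log (M : ℝ) := Rat.logHeight₁_eq_log_max q
  have hxa : |(x.num : ℝ)| = |(k : ℝ)| * |(q.num : ℝ)| := by
    rw [← abs_mul]
    congr 1
    exact_mod_cast hk1
  have hza : |(z.num : ℝ)| = |(k : ℝ)| * (q.den : ℝ) := by
    have : (z.num : ℝ) = (k : ℝ) * (q.den : ℝ) := by exact_mod_cast hk2
    rw [this, abs_mul]
    congr 1
    exact abs_of_nonneg (Nat.cast_nonneg _)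
  have hqn : |(q.num : ℝ)| = ((q.num.natAbs : ℕ) : ℝ) := by
    rw [Nat.cast_natAbs]
    push_cast
    rfl
  have hqM : |(q.num : ℝ)| ≤ M := by
    rw [hqn]
    exact_mod_cast le_max_left _ _
  have hdM : (q.den : ℝ) ≤ M := by exact_mod_cast le_max_right _ _
  have hxpos : 0 < |(x.num : ℝ)| := by
    rw [abs_pos]
    exact_mod_cast hxn
  have hzpos : 0 < |(z.num : ℝ)| := by
    rw [abs_pos]
    exact_mod_cast hzn
  rw [hht]
  constructor
  · rcases hadm with hA | hB
    · -- coprime numerators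
      have hcop := hGCA d c x z hd heven hA
      have hg : Int.gcd x.num z.num = 1 := Int.isCoprime_iff_gcd_eq_one.mp hcop
      have hk1' : |(k : ℝ)| = 1 := by
        have : k.natAbs = 1 := hkg.trans hg
        have h' : |k| = 1 := by rw [Int.abs_eq_natAbs, this]; rfl
        exact_mod_cast h'
      rw [hk1', one_mul] at hxa
      have hle : Real.log |(x.num : ℝ)| ≤ Real.log (M : ℝ) := by
        apply Real.log_le_log hxpos
        rw [hxa]
        exact hqM
      have hd0 : (0 : ℝ) < d := by positivity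
      have hd4 : (4 : ℝ) ≤ d := by exact_mod_cast hd
      have ht : 1 / (d : ℝ) ≤ 1 / 4 := one_div_le_one_div_of_le (by norm_num) hd4
      have ht0 : 0 < 1 / (d : ℝ) := by positivity
      have hHd : 0 ≤ logHeight₁ c / d := div_nonneg hH0 hd0.le
      have h1 : (1 - 1 / (d : ℝ)) ^ 2 * (logHeight₁ c / d)
          ≤ (1 - 1 / (d : ℝ)) * (logHeight₁ c / d) := by
        apply mul_le_mul_of_nonneg_right _ hHd
        nlinarith
      have h2 := le_abs_self C0
      linarith
    · -- small common divisor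
      have hdvd := hGCB d c x z hd heven hB hz
      rw [← hkg] at hdvd
      have hle : k.natAbs ^ d ≤ (2 * z.num).natAbs := by
        apply Nat.le_of_dvd _ hdvd
        rw [Int.natAbs_pos]
        exact mul_ne_zero two_ne_zero hzn
      have hle' : |(k : ℝ)| ^ d ≤ 2 * |(z.num : ℝ)| := by
        have h1 : ((k.natAbs ^ d : ℕ) : ℝ) ≤ (((2 * z.num).natAbs : ℕ) : ℝ) := by
          exact_mod_cast hle
        have h2 : ((k.natAbs : ℕ) : ℝ) = |(k : ℝ)| := by
          rw [Nat.cast_natAbs]; push_cast; rfl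
        have h3 : (((2 * z.num).natAbs : ℕ) : ℝ) = 2 * |(z.num : ℝ)| := by
          rw [Nat.cast_natAbs]
          push_cast
          rw [abs_mul]
          norm_num
        rw [Nat.cast_pow, h2, h3] at h1
        exact h1
      have hkpos : 0 < |(k : ℝ)| := by linarith
      have hMpos : (0 : ℝ) < M := by linarith
      refine algebra_b hd (κ := Real.log |(k : ℝ)|) (A := Real.log |(x.num : ℝ)|) ?_ ?_ hlow
      · rw [← Real.log_mul hkpos.ne' hMpos.ne']
        apply Real.log_le_log hxpos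
        rw [hxa]
        exact mul_le_mul_of_nonneg_left hqM hkpos.le
      · have h1 : Real.log (|(k : ℝ)| ^ d) ≤ Real.log (2 * (|(k : ℝ)| * M)) := by
          apply Real.log_le_log (by positivity)
          refine hle'.trans ?_
          rw [hza]
          have := mul_le_mul_of_nonneg_left hdM hkpos.le
          linarith
        rw [Real.log_pow, Real.log_mul two_ne_zero (by positivity),
          Real.log_mul hkpos.ne' hMpos.ne'] at h1
        linarith
  · have h2 := le_abs_self C0
    rcases max_choice q.num.natAbs q.den with hmx | hmx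
    · have hMe : (M : ℝ) = |(q.num : ℝ)| := by rw [hqn, hM, hmx]
      have : Real.log (M : ℝ) ≤ Real.log |(x.num : ℝ)| := by
        apply Real.log_le_log (by linarith)
        rw [hxa, hMe]
        have := abs_nonneg (q.num : ℝ)
        nlinarith
      linarith
    · have hMe : (M : ℝ) = (q.den : ℝ) := by rw [hM, hmx]
      have : Real.log (M : ℝ) ≤ Real.log |(z.num : ℝ)| := by
        apply Real.log_le_log (by linarith)
        rw [hza, hMe]
        have : (0 : ℝ) ≤ (q.den : ℝ) := Nat.cast_nonneg _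
        nlinarith
      linarith

end Pool.Agent.HMW
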