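import Pool.Agent.HMW.TargetsG

set_option autoImplicit false

/-!
# Odd exponents
-/

open Polynomial

namespace Pool.Agent.HMW

namespace ODD_

lemma fixed {d : ℕ} (hd : Odd d) {c x : ℚ} (hx : Pre d c x) : x ^ d + c = x := by
  have hmono : StrictMono (fc d c) := by
    intro a b hab
    have := hd.strictMono_pow hab
    unfold fc
    linarith
  rcases lt_trichotomy x (fc d c x) with h | h | h
  · exfalso
    have h1 : StrictMono fun k : ℕ => (fc d c)^[k] x :=
      hmono.strictMono_iterate_of_lt_map h
    exact Set.infinite_range_of_injective h1.injective hx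
  · exact h.symm
  · exfalso
    have h1 : StrictAnti fun k : ℕ => (fc d c)^[k] x :=
      hmono.strictAnti_iterate_of_map_lt h
    exact Set.infinite_range_of_injective h1.injective hx

end ODD_

theorem p_ODD : T_ODD := by
  intro d c hd hodd s hs
  set p : ℚ[X] := X ^ d + (-X + C c) with hp
  have hdeg : (-X + C c : ℚ[X]).degree < ((X : ℚ[X]) ^ d).degree := by
    rw [degree_X_pow]
    refine lt_of_le_of_lt (degree_add_le _ _) ?_
    rw [degree_neg, degree_X]
    refine max_lt (by exact_mod_cast (by omega : 1 < d)) ?_
    refine lt_of_le_of_lt degree_C_le ?_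
    exact_mod_cast (by omega : 0 < d)
  have hpd : p.degree = d := by
    rw [hp, degree_add_eq_left_of_degree_lt hdeg, degree_X_pow]
  have hp0 : p ≠ 0 := by
    intro h
    rw [h, degree_zero] at hpd
    exact absurd hpd (by simp)
  have hsub : s ⊆ p.roots.toFinset := by
    intro x hx
    rw [Multiset.mem_toFinset, mem_roots hp0, IsRoot.def, hp]
    have h1 := ODD_.fixed hodd (hs x hx)
    simp only [eval_add, eval_pow, eval_X, eval_neg, eval_C]
    linarith
  calc s.card ≤ p.roots.toFinset.card := Finset.card_le_card hsub
    _ ≤ Multiset.card p.roots := Multiset.toFinset_card_le _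
    _ ≤ p.natDegree := card_roots' p
    _ = d := natDegree_eq_of_degree_eq_some hpd

end Pool.Agent.HMW
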