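import Pool.Agent.HMW.TargetsG

set_option autoImplicit false
set_option linter.unusedVariables false

/-!
# HMW-PS: the power structure
-/

open Polynomial WithZero
open scoped Classical WithZero

noncomputable section

namespace Pool.Agent.HMW

namespace PS_

theorem pre_of_per {d : ℕ} {c z : ℚ} (h : Per d c z) : Pre d c z := by
  have hpos : 0 < Function.minimalPeriod (fc d c) z :=
    Function.minimalPeriod_pos_of_mem_periodicPts h
  refine ((Finset.range (Function.minimalPeriod (fc d c) z)).finite_toSet.image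
    (fun k => (fc d c)^[k] z)).subset ?_
  rintro _ ⟨k, rfl⟩
  refine ⟨k % Function.minimalPeriod (fc d c) z, ?_, ?_⟩
  · simpa using Nat.mod_lt _ hpos
  · exact Function.iterate_mod_minimalPeriod_eq

theorem per_of_fix {d : ℕ} {c z : ℚ} (h : fc d c z = z) : Per d c z :=
  Function.mk_mem_periodicPts one_pos (by
    rw [Function.IsPeriodicPt, Function.iterate_one]; exact h)

theorem pre_left {d : ℕ} {c x z : ℚ} (h : Adm d c x z) : Pre d c x := by
  rcases h with h | h
  · exact h.2.1
  · exact h.2.1

theorem pre_right {d : ℕ} {c x z : ℚ} (h : Adm d c x z) : Pre d c z := by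
  rcases h with h | h
  · exact pre_of_per h.1
  · exact pre_of_per (per_of_fix h.1)

theorem pow_ne {d : ℕ} {c x z : ℚ} (h : Adm d c x z) : x ^ d ≠ z ^ d := by
  intro he
  have hf : fc d c x = fc d c z := by simp [fc, he]
  rcases h with h | h
  · exact h.2.2.1 1 (by simpa using hf)
  · apply h.2.2.2.1
    rw [hf, h.1]
    exact per_of_fix h.1

end PS_

open PS_ in
theorem p_PS : T_PSB → T_PSA → T_PSC → T_PS := by
  intro hPSB hPSA hPSC L _ _ w d ζ c x z hd4 hev hζ hwd hadm hz i j hi hj
  have hne := pow_ne hadm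
  have hfac : ∀ i : ℕ, (x : L) - ζ ^ i * z ≠ 0 := by
    intro i h
    apply hne
    have h1 : (x : L) = ζ ^ i * z := sub_eq_zero.1 h
    have h2 : (x : L) ^ d = (z : L) ^ d := by
      rw [h1, mul_pow, ← pow_mul, mul_comm i d, pow_mul, hζ.pow_eq_one, one_pow, one_mul]
    exact_mod_cast h2
  refine ⟨hfac i, ?_⟩
  rcases lt_or_ge 1 (w (c : L)) with hc | hc
  · have h1 := hPSB L w d ζ c x z hd4 hev hζ hwd hc (pre_left hadm) (pre_right hadm) hne i
    have h2 := hPSB L w d ζ c x z hd4 hev hζ hwd hc (pre_left hadm) (pre_right hadm) hne j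
    have h3 := dvd_sub h1 h2
    rwa [sub_sub_sub_cancel_right] at h3
  · rcases hadm with hA | hB
    · rw [hPSA L w d ζ c x z hd4 hev hζ hc hA i hi, hPSA L w d ζ c x z hd4 hev hζ hc hA j hj,
        sub_self]
      exact dvd_zero _
    · rcases hPSC L w d ζ c x z hd4 hev hζ hwd hc hB hz i j with h | h | h
      · rw [h, sub_self]
        exact dvd_zero _
      · exact absurd h hi
      · exact absurd h hj

end Pool.Agent.HMW
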