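import Pool.Agent.HMW.TargetsG

set_option autoImplicit false

/-!
# PSA: the factors are units at a place where `c` is integral (first kind)
-/

open scoped Classical WithZero

noncomputable section

namespace Pool.Agent.HMW

namespace PSA_

theorem cast_iter (L : Type) [Field L] [CharZero L] (d : ℕ) (c x : ℚ) (k : ℕ) :
    (((fc d c)^[k] x : ℚ) : L) = (fun y : L => y ^ d + (c : L))^[k] (x : L) := by
  induction k with
  | zero => rfl
  | succ k ih =>
    rw [Function.iterate_succ_apply', Function.iterate_succ_apply', ← ih]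
    simp [fc]

theorem pre_iter {d : ℕ} {c x : ℚ} (h : Pre d c x) (k : ℕ) : Pre d c ((fc d c)^[k] x) := by
  refine Set.Finite.subset h ?_
  rintro y ⟨m, rfl⟩
  exact ⟨m + k, by simp [Function.iterate_add_apply]⟩

theorem pre_of_per {d : ℕ} {c x : ℚ} (h : Per d c x) : Pre d c x := by
  obtain ⟨m, hm, hx⟩ := h
  refine ((Finset.range m).finite_toSet.image fun k => (fc d c)^[k] x).subset ?_
  rintro y ⟨k, rfl⟩
  exact ⟨k % m, by simpa using Nat.mod_lt k hm, hx.iterate_mod_apply k⟩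

theorem per_iter {d : ℕ} {c x : ℚ} (h : Per d c x) (k : ℕ) : Per d c ((fc d c)^[k] x) := by
  obtain ⟨m, hm, hx⟩ := h
  exact ⟨m, hm, hx.apply_iterate k⟩

variable {L : Type} [Field L] [CharZero L] {w : Valuation L ℤᵐ⁰}

theorem w_le (hV : T_VAL) {d : ℕ} (hd : 2 ≤ d) {c x : ℚ} (hc : w (c : L) ≤ 1) (h : Pre d c x) :
    w (x : L) ≤ 1 := by
  refine (hV L w d c x hd ?_).1 hc
  refine (h.image fun q : ℚ => (q : L)).subset ?_
  rintro y ⟨k, rfl⟩
  exact ⟨(fc d c)^[k] x, ⟨k, rfl⟩, cast_iter L d c x k⟩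

theorem w_root {d : ℕ} {ζ : L} (hd : d ≠ 0) (hζ : ζ ^ d = 1) : w ζ = 1 := by
  have h1 : w ζ ^ d = 1 := by rw [← map_pow, hζ, map_one]
  rcases lt_trichotomy (w ζ) 1 with h | h | h
  · exact absurd h1 (ne_of_lt (pow_lt_one₀ zero_le h hd))
  · exact h
  · exact absurd h1 (ne_of_gt (one_lt_pow₀ h hd))

theorem w_fac {d : ℕ} {ξ X Z : L} (hd : d ≠ 0) (hξ : ξ ^ d = 1) (hX : w X ≤ 1) (hZ : w Z ≤ 1) :
    w (X - ξ * Z) ≤ 1 := by
  refine (w.map_sub _ _).trans (max_le hX ?_)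
  rw [map_mul, w_root hd hξ, one_mul]; exact hZ

theorem prod_le (s : Finset L) (F : L → L) (h : ∀ ξ ∈ s, w (F ξ) ≤ 1) :
    w (∏ ξ ∈ s, F ξ) ≤ 1 := by
  rw [map_prod]
  exact Finset.prod_le_one' h

theorem step {d : ℕ} {ζ : L} (hd : 0 < d) (hζ : IsPrimitiveRoot ζ d) {X Z : L} (hX : w X ≤ 1)
    (hZ : w Z ≤ 1) {j : ℕ} (hj : ¬ d ∣ j) :
    w (X ^ d - Z ^ d) ≤ w (X - Z) * w (X - ζ ^ j * Z) := by
  have h1 := hζ.pow_sub_pow_eq_prod_sub_mul X Z hd
  have hm1 : (1 : L) ∈ Polynomial.nthRootsFinset d (1 : L) := by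
    rw [Polynomial.mem_nthRootsFinset hd]; simp
  have hmj : ζ ^ j ∈ (Polynomial.nthRootsFinset d (1 : L)).erase 1 := by
    rw [Finset.mem_erase, Polynomial.mem_nthRootsFinset hd]
    refine ⟨fun h => hj ((hζ.pow_eq_one_iff_dvd j).1 h), ?_⟩
    rw [← pow_mul, mul_comm, pow_mul, hζ.pow_eq_one, one_pow]
  rw [h1, ← Finset.mul_prod_erase _ _ hm1, ← Finset.mul_prod_erase _ _ hmj, one_mul, map_mul,
    map_mul]
  refine mul_le_mul_right ?_ _
  refine mul_le_of_le_one_right' ?_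
  refine prod_le _ _ fun ξ hξ => ?_
  have h2 := (Polynomial.mem_nthRootsFinset hd _).1
    (Finset.mem_of_mem_erase (Finset.mem_of_mem_erase hξ))
  exact w_fac hd.ne' h2 hX hZ

theorem step0 {d : ℕ} {ζ : L} (hd : 0 < d) (hζ : IsPrimitiveRoot ζ d) {X Z : L} (hX : w X ≤ 1)
    (hZ : w Z ≤ 1) (j : ℕ) : w (X ^ d - Z ^ d) ≤ w (X - ζ ^ j * Z) := by
  have h1 := hζ.pow_sub_pow_eq_prod_sub_mul X Z hd
  have hmj : ζ ^ j ∈ Polynomial.nthRootsFinset d (1 : L) := by
    rw [Polynomial.mem_nthRootsFinset hd]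
    rw [← pow_mul, mul_comm, pow_mul, hζ.pow_eq_one, one_pow]
  rw [h1, ← Finset.mul_prod_erase _ _ hmj, map_mul]
  refine mul_le_of_le_one_right' ?_
  refine prod_le _ _ fun ξ hξ => ?_
  have h2 := (Polynomial.mem_nthRootsFinset hd _).1 (Finset.mem_of_mem_erase hξ)
  exact w_fac hd.ne' h2 hX hZ

theorem diff_succ (d : ℕ) (c x z : ℚ) (k : ℕ) :
    (((fc d c)^[k + 1] x : ℚ) : L) - (((fc d c)^[k + 1] z : ℚ) : L) =
      (((fc d c)^[k] x : ℚ) : L) ^ d - (((fc d c)^[k] z : ℚ) : L) ^ d := by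
  rw [Function.iterate_succ_apply', Function.iterate_succ_apply']
  simp [fc]

/-- the periodic case -/
theorem periodic (hV : T_VAL) {d : ℕ} (hd : 4 ≤ d) {ζ : L} (hζ : IsPrimitiveRoot ζ d) {c x z : ℚ}
    (hc : w (c : L) ≤ 1) (hx : Per d c x) (hz : Per d c z) (hne : x ≠ z) {j : ℕ}
    (hj : ¬ d ∣ j) : w ((x : L) - ζ ^ j * z) = 1 := by
  have hd0 : 0 < d := by omega
  have hxw : ∀ k, w (((fc d c)^[k] x : ℚ) : L) ≤ 1 := fun k =>
    w_le hV (by omega) hc (pre_iter (pre_of_per hx) k)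
  have hzw : ∀ k, w (((fc d c)^[k] z : ℚ) : L) ≤ 1 := fun k =>
    w_le hV (by omega) hc (pre_iter (pre_of_per hz) k)
  set a : ℕ → ℤᵐ⁰ := fun k => w ((((fc d c)^[k] x : ℚ) : L) - (((fc d c)^[k] z : ℚ) : L)) with ha
  have hdec : ∀ k, a (k + 1) ≤ a k := by
    intro k
    rw [ha]
    simp only []
    rw [diff_succ]
    simpa using step0 hd0 hζ (hxw k) (hzw k) 0
  have hanti : Antitone a := antitone_nat_of_succ_le hdec
  obtain ⟨m, hm, hmx⟩ := hx
  obtain ⟨m', hm', hmz⟩ := hz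
  have hper : a (m * m') = a 0 := by
    rw [ha]
    simp only [Function.iterate_zero, id]
    have h1 : (fc d c)^[m * m'] x = x := hmx.mul_const m'
    have h2 : (fc d c)^[m * m'] z = z := hmz.const_mul m
    rw [h1, h2]
  have h10 : a 1 = a 0 := by
    refine le_antisymm (hdec 0) ?_
    rw [← hper]
    exact hanti (Nat.succ_le_of_lt (Nat.mul_pos hm hm'))
  have ha0 : a 0 ≠ 0 := by
    rw [ha]
    simp only [Function.iterate_zero, id]
    rw [Valuation.ne_zero_iff, sub_ne_zero]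
    exact_mod_cast hne
  have h2 : a 1 ≤ a 0 * w ((x : L) - ζ ^ j * z) := by
    rw [ha]
    simp only []
    rw [diff_succ]
    exact step hd0 hζ (hxw 0) (hzw 0) hj
  have h3 : w ((x : L) - ζ ^ j * z) ≤ 1 := by
    refine w_fac hd0.ne' ?_ (hxw 0) (hzw 0)
    rw [← pow_mul, mul_comm, pow_mul, hζ.pow_eq_one, one_pow]
  refine le_antisymm h3 ?_
  rw [h10] at h2
  by_contra hlt
  push Not at hlt
  have h4 : a 0 * w ((x : L) - ζ ^ j * z) < a 0 * 1 :=
    mul_lt_mul_of_pos_left hlt (zero_lt_iff.2 ha0)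
  rw [mul_one] at h4
  exact absurd h2 (not_le.2 h4)

end PSA_

open PSA_ in
/-- PSA: the factors are units at a place where `c` is integral (first kind). -/
theorem p_PSA (hV : T_VAL) : T_PSA := by
  intro L _ _ w d ζ c x z hd hev hζ hc hadm j hj
  obtain ⟨hz, hx, hne, hcase⟩ := hadm
  have hd0 : 0 < d := by omega
  by_cases hxp : Per d c x
  · exact periodic hV hd hζ hc hxp hz (hne 0) hj
  have hfx : ¬ Per d c (fc d c x) := hcase.resolve_left hxp
  have hxw : ∀ k, w (((fc d c)^[k] x : ℚ) : L) ≤ 1 := fun k =>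
    w_le hV (by omega) hc (pre_iter hx k)
  have hzw : ∀ k, w (((fc d c)^[k] z : ℚ) : L) ≤ 1 := fun k =>
    w_le hV (by omega) hc (pre_iter (pre_of_per hz) k)
  -- some iterate is periodic
  have hex : ∃ i, Per d c ((fc d c)^[i] x) := by
    by_contra hno
    push Not at hno
    have hinj : Function.Injective fun k : ℕ => (fc d c)^[k] x := by
      intro k l hkl
      by_contra hkl'
      rcases lt_or_gt_of_ne hkl' with h | h
      · refine hno k ⟨l - k, by omega, ?_⟩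
        change (fc d c)^[l - k] ((fc d c)^[k] x) = _
        rw [← Function.iterate_add_apply, show l - k + k = l by omega]
        exact hkl.symm
      · refine hno l ⟨k - l, by omega, ?_⟩
        change (fc d c)^[k - l] ((fc d c)^[l] x) = _
        rw [← Function.iterate_add_apply, show k - l + l = k by omega]
        exact hkl
    exact Set.infinite_range_of_injective hinj hx
  obtain ⟨i, hi, hmin⟩ : ∃ i, Per d c ((fc d c)^[i] x) ∧
      ∀ k < i, ¬ Per d c ((fc d c)^[k] x) := ⟨Nat.find hex, Nat.find_spec hex, fun k hk =>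
        Nat.find_min hex hk⟩
  have hi2 : 2 ≤ i := by
    by_contra hlt
    have : i = 0 ∨ i = 1 := by omega
    rcases this with rfl | rfl
    · exact hxp hi
    · exact hfx hi
  obtain ⟨i', rfl⟩ : ∃ i', i = i' + 1 := ⟨i - 1, by omega⟩
  set u := (fc d c)^[i'] x with hu
  have hup : ¬ Per d c u := hmin i' (by omega)
  have hfu : Per d c (fc d c u) := by
    rw [hu]; rw [Function.iterate_succ_apply'] at hi; exact hi
  -- the periodic preimage
  obtain ⟨z', hz', hfz'⟩ : ∃ z', Per d c z' ∧ fc d c z' = fc d c u := by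
    obtain ⟨m, hm, hmu⟩ := hfu
    refine ⟨(fc d c)^[m - 1] (fc d c u), per_iter ⟨m, hm, hmu⟩ _, ?_⟩
    have h1 := Function.iterate_succ_apply' (fc d c) (m - 1) (fc d c u)
    rw [← h1, show (m - 1).succ = m by omega]
    exact hmu
  have huz : u = -z' := by
    have h1 : z' ^ d = u ^ d := by simpa [fc] using hfz'
    have h2 : |z'| = |u| := by
      have h3 : |z'| ^ d = |u| ^ d := by rw [← abs_pow, ← abs_pow, h1]
      exact (pow_left_inj₀ (abs_nonneg _) (abs_nonneg _) hd0.ne').1 h3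
    rcases abs_eq_abs.1 h2 with h3 | h3
    · exact absurd (h3 ▸ hz') hup
    · rw [h3, neg_neg]
  set y := (fc d c)^[i'] z with hy
  have hyp : Per d c y := per_iter hz i'
  have hzy : z' ≠ y := by
    intro h
    apply hne (i' + 1)
    rw [Function.iterate_succ_apply', Function.iterate_succ_apply', ← hu, ← hy, ← hfz', h]
  obtain ⟨e, he⟩ := hev
  have hroot : ζ ^ e = -1 := by
    have h1 : ζ ^ e ≠ 1 := hζ.pow_ne_one_of_pos_of_lt (by omega) (by omega)
    have h2 : (ζ ^ e) ^ 2 = 1 := by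
      rw [← pow_mul, show e * 2 = d by omega, hζ.pow_eq_one]
    rcases (show ζ ^ e = 1 ∨ ζ ^ e = -1 by
      have h3 : (ζ ^ e - 1) * (ζ ^ e + 1) = 0 := by linear_combination h2
      rcases mul_eq_zero.1 h3 with h4 | h4
      · exact Or.inl (sub_eq_zero.1 h4)
      · exact Or.inr (eq_neg_of_add_eq_zero_left h4)) with h3 | h3
    · exact absurd h3 h1
    · exact h3
  have h1 : w ((z' : L) - ζ ^ e * y) = 1 := by
    refine periodic hV hd hζ hc hz' hyp hzy (j := e) ?_
    intro hdvd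
    have := Nat.le_of_dvd (by omega) hdvd
    omega
  rw [hroot] at h1
  have h2 : w (((fc d c)^[i'] x : ℚ) - ((fc d c)^[i'] z : ℚ) : L) = 1 := by
    rw [← hu, ← hy, huz, ← h1, ← Valuation.map_neg]
    congr 1
    push_cast
    ring
  set a : ℕ → ℤᵐ⁰ := fun k => w ((((fc d c)^[k] x : ℚ) : L) - (((fc d c)^[k] z : ℚ) : L)) with ha
  have hdec : ∀ k, a (k + 1) ≤ a k := by
    intro k
    rw [ha]
    simp only []
    rw [diff_succ]
    simpa using step0 hd0 hζ (hxw k) (hzw k) 0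
  have hanti : Antitone a := antitone_nat_of_succ_le hdec
  have h3 : 1 ≤ a 1 := by
    rw [← h2]
    exact hanti (by omega : 1 ≤ i')
  have h4 : a 1 ≤ w ((x : L) - ζ ^ j * z) := by
    rw [ha]
    simp only []
    rw [diff_succ]
    exact step0 hd0 hζ (hxw 0) (hzw 0) j
  refine le_antisymm ?_ (h3.trans h4)
  refine w_fac hd0.ne' ?_ (hxw 0) (hzw 0)
  rw [← pow_mul, mul_comm, pow_mul, hζ.pow_eq_one, one_pow]

end Pool.Agent.HMW
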