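import Pool.Agent.HMW.TargetsG

set_option autoImplicit false
set_option linter.unusedVariables false

/-!
# HMW-PSB: the power structure at a place where `c` is large
-/

open Polynomial WithZero
open scoped Classical WithZero

noncomputable section

namespace Pool.Agent.HMW

namespace PSB_

variable {L : Type} [Field L]

theorem pow_inj {a b : ℤᵐ⁰} {n : ℕ} (hn : n ≠ 0) (h : a ^ n = b ^ n) : a = b := by
  rcases lt_trichotomy a b with h1 | h1 | h1
  · exact absurd h (ne_of_lt (pow_lt_pow_left₀ h1 zero_le hn))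
  · exact h1
  · exact absurd h.symm (ne_of_lt (pow_lt_pow_left₀ h1 zero_le hn))

/-- the orbit in `L` is the image of the orbit in `ℚ` -/
theorem cast_iter [CharZero L] (d : ℕ) (c x : ℚ) (k : ℕ) :
    (fun y : L => y ^ d + (c : L))^[k] (x : L) = (((fc d c)^[k] x : ℚ) : L) := by
  induction k with
  | zero => simp
  | succ k ih =>
    rw [Function.iterate_succ_apply', Function.iterate_succ_apply', ih]
    simp [fc]

theorem cast_fin [CharZero L] {d : ℕ} {c x : ℚ} (h : Pre d c x) :
    (Set.range fun k : ℕ => (fun y : L => y ^ d + (c : L))^[k] (x : L)).Finite := by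
  have h2 : (Set.range fun k : ℕ => (fun y : L => y ^ d + (c : L))^[k] (x : L)) =
      (fun q : ℚ => (q : L)) '' (Set.range fun k : ℕ => (fc d c)^[k] x) := by
    ext z
    constructor
    · rintro ⟨k, rfl⟩
      exact ⟨_, ⟨k, rfl⟩, (cast_iter d c x k).symm⟩
    · rintro ⟨_, ⟨k, rfl⟩, rfl⟩
      exact ⟨k, cast_iter d c x k⟩
  rw [h2]
  exact h.image _

theorem pre_fc {d : ℕ} {c x : ℚ} (h : Pre d c x) : Pre d c (fc d c x) := by
  refine h.subset ?_
  rintro _ ⟨k, rfl⟩
  exact ⟨k + 1, by simp [Function.iterate_succ_apply]⟩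

/-- `w (1 - ζ^j) = 1` -/
theorem w_one_sub (w : Valuation L ℤᵐ⁰) {d : ℕ} {ζ : L} (hd : 0 < d) (hζ : IsPrimitiveRoot ζ d)
    (hwd : w (d : L) = 1) (j : ℕ) (hj : ¬ d ∣ j) : w (1 - ζ ^ j) = 1 := by
  obtain ⟨n, rfl⟩ : ∃ n, d = n + 1 := ⟨d - 1, by omega⟩
  have hwζ : w ζ = 1 := by
    have h1 : w ζ ^ (n + 1) = 1 := by rw [← map_pow, hζ.pow_eq_one, map_one]
    exact pow_inj (by omega) (h1.trans (one_pow _).symm)
  have hle : ∀ k : ℕ, w (1 - ζ ^ k) ≤ 1 := by
    intro k
    refine (w.map_sub _ _).trans ?_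
    simp [hwζ]
  have hprod := hζ.prod_one_sub_pow_eq_order
  have h2 : ∏ k ∈ Finset.range n, w (1 - ζ ^ (k + 1)) = 1 := by
    rw [← map_prod, hprod]
    have : ((n + 1 : ℕ) : L) = (n : L) + 1 := by push_cast; ring
    rw [← this, hwd]
  have h3 : ∀ k ∈ Finset.range n, w (1 - ζ ^ (k + 1)) = 1 := by
    intro k hk
    refine le_antisymm (hle _) ?_
    by_contra hlt
    push Not at hlt
    have h4 : ∏ k ∈ Finset.range n, w (1 - ζ ^ (k + 1)) < 1 := by
      rw [← Finset.mul_prod_erase _ _ hk]
      have h5 : ∏ x ∈ (Finset.range n).erase k, w (1 - ζ ^ (x + 1)) ≤ 1 :=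
        Finset.prod_le_one' fun i _ => hle _
      calc w (1 - ζ ^ (k + 1)) * ∏ x ∈ (Finset.range n).erase k, w (1 - ζ ^ (x + 1))
          ≤ w (1 - ζ ^ (k + 1)) * 1 := mul_le_mul_right h5 _
        _ < 1 := by rwa [mul_one]
    exact absurd h2 (ne_of_lt h4)
  have hm : ζ ^ j = ζ ^ (j % (n + 1)) := (hζ.eq_orderOf ▸ (pow_mod_orderOf ζ j).symm)
  have hpos : 0 < j % (n + 1) := Nat.pos_of_ne_zero fun h => hj (Nat.dvd_of_mod_eq_zero h)
  have hlt : j % (n + 1) < n + 1 := Nat.mod_lt _ (by omega)
  rw [hm]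
  have := h3 (j % (n + 1) - 1) (Finset.mem_range.2 (by omega))
  rwa [Nat.sub_add_cancel hpos] at this

theorem prod_eq {d : ℕ} {ζ : L} (hd : 0 < d) (hζ : IsPrimitiveRoot ζ d) (x y : L) :
    x ^ d - y ^ d = ∏ i ∈ Finset.range d, (x - ζ ^ i * y) := by
  have h := X_pow_sub_C_eq_prod hζ hd (rfl : y ^ d = y ^ d)
  have h2 := congrArg (Polynomial.eval x) h
  simpa [eval_prod] using h2

/-- if one factor is small then all others have the valuation of `x` and `y` -/
theorem w_prod (w : Valuation L ℤᵐ⁰) {d : ℕ} {ζ : L} (hd : 0 < d) (hζ : IsPrimitiveRoot ζ d)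
    (hwd : w (d : L) = 1) (x y : L) (V : ℤᵐ⁰) (hx : w x = V) (hy : w y = V) (j : ℕ)
    (hlt : w (x - ζ ^ j * y) < V) :
    w (x ^ d - y ^ d) = w (x - ζ ^ j * y) * V ^ (d - 1) := by
  have hwζ : w ζ = 1 := by
    have h1 : w ζ ^ d = 1 := by rw [← map_pow, hζ.pow_eq_one, map_one]
    exact pow_inj (by omega) (h1.trans (one_pow _).symm)
  have hm : ζ ^ j = ζ ^ (j % d) := (hζ.eq_orderOf ▸ (pow_mod_orderOf ζ j).symm)
  have hjd : j % d < d := Nat.mod_lt _ hd
  rw [hm] at hlt ⊢
  set m := j % d with hmdef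
  have hother : ∀ i ∈ (Finset.range d).erase m, w (x - ζ ^ i * y) = V := by
    intro i hi
    rw [Finset.mem_erase, Finset.mem_range] at hi
    have h1 : x - ζ ^ i * y = (x - ζ ^ m * y) + (ζ ^ m - ζ ^ i) * y := by ring
    have h2 : w (ζ ^ m - ζ ^ i) = 1 := by
      rcases lt_or_gt_of_ne hi.1 with h | h
      · have h3 : ζ ^ m - ζ ^ i = - (ζ ^ i * (1 - ζ ^ (m - i))) := by
          have : ζ ^ m = ζ ^ i * ζ ^ (m - i) := by rw [← pow_add]; congr 1; omega
          rw [this]; ring
        rw [h3, Valuation.map_neg, map_mul, map_pow, hwζ, one_pow, one_mul]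
        exact w_one_sub w hd hζ hwd _ (fun hdvd => by
          have := Nat.le_of_dvd (by omega) hdvd
          omega)
      · have h3 : ζ ^ m - ζ ^ i = ζ ^ m * (1 - ζ ^ (i - m)) := by
          have : ζ ^ i = ζ ^ m * ζ ^ (i - m) := by rw [← pow_add]; congr 1; omega
          rw [this]; ring
        rw [h3, map_mul, map_pow, hwζ, one_pow, one_mul]
        exact w_one_sub w hd hζ hwd _ (fun hdvd => by
          have := Nat.le_of_dvd (by omega) hdvd
          omega)
    rw [h1, Valuation.map_add_eq_of_lt_right]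
    · rw [map_mul, h2, one_mul, hy]
    · rw [map_mul, h2, one_mul, hy]; exact hlt
  rw [prod_eq hd hζ, map_prod, ← Finset.mul_prod_erase _ _ (Finset.mem_range.2 hjd),
    Finset.prod_congr rfl hother, Finset.prod_const, Finset.card_erase_of_mem
    (Finset.mem_range.2 hjd), Finset.card_range]

theorem w_le (w : Valuation L ℤᵐ⁰) {d : ℕ} {ζ : L} (hd : 0 < d) (hζ : IsPrimitiveRoot ζ d)
    (x y : L) (V : ℤᵐ⁰) (hx : w x = V) (hy : w y = V) (j : ℕ) : w (x - ζ ^ j * y) ≤ V := by
  have hwζ : w ζ = 1 := by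
    have h1 : w ζ ^ d = 1 := by rw [← map_pow, hζ.pow_eq_one, map_one]
    exact pow_inj (by omega) (h1.trans (one_pow _).symm)
  refine (w.map_sub _ _).trans ?_
  simp [hwζ, hx, hy]

end PSB_

open PSB_ in
theorem p_PSB : T_VAL → T_PSB := by
  intro hVAL L _ _ w d ζ c x y hd4 hev hζ hwd hc hx hy hxy j
  have hd : 0 < d := by omega
  -- the common valuation
  have hval : ∀ u : ℚ, Pre d c u → w (u : L) ^ d = w (c : L) := fun u hu =>
    (hVAL L w d (c : L) (u : L) (by omega) (cast_fin hu)).2 hc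
  have hV0 : w (x : L) ≠ 0 := by
    intro h0
    have := hval x hx
    rw [h0, zero_pow (by omega)] at this
    rw [← this] at hc
    exact absurd hc (by simp)
  have hVeq : ∀ u : ℚ, Pre d c u → w (u : L) = w (x : L) := by
    intro u hu
    have h1 : w (u : L) ^ d = w (x : L) ^ d := (hval u hu).trans (hval x hx).symm
    exact pow_inj (by omega) h1
  have hlogV : 1 ≤ log (w (x : L)) := by
    have h1 : 1 < w (x : L) := by
      by_contra hle
      push Not at hle
      have := hval x hx
      have h2 : w (x : L) ^ d ≤ 1 := pow_le_one' hle d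
      rw [this] at h2
      exact absurd hc (not_lt.2 h2)
    have h2 : log (1 : ℤᵐ⁰) < log (w (x : L)) := (log_lt_log one_ne_zero hV0).2 h1
    rw [log_one] at h2
    omega
  have hfc : ∀ u v : ℚ, (((fc d c u : ℚ) : L) - ((fc d c v : ℚ) : L)) = (u : L) ^ d - (v : L) ^ d := by
    intro u v
    simp only [fc]
    push_cast
    ring
  -- the claim
  have claim : ∀ n : ℕ, ∀ u v : ℚ, Pre d c u → Pre d c v → u ≠ v →
      log (w (x : L)) - log (w ((u : L) - v)) = n →
      ((d : ℤ) - 1) ∣ log (w (x : L)) - log (w ((u : L) - v)) := by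
    intro n
    induction n using Nat.strong_induction_on with
    | _ n ih =>
      intro u v hu hv huv hn
      have hne : (u : L) - v ≠ 0 := sub_ne_zero.2 (fun h => huv (by exact_mod_cast h))
      have hw0 : w ((u : L) - v) ≠ 0 := (Valuation.ne_zero_iff w).2 hne
      have hle : w ((u : L) - v) ≤ w (x : L) := by
        have := w_le w hd hζ (u : L) v (w (x : L)) (hVeq u hu) (hVeq v hv) 0
        simpa using this
      rcases hle.lt_or_eq with hlt | heq
      · have hpr := w_prod w hd hζ hwd (u : L) v (w (x : L)) (hVeq u hu) (hVeq v hv) 0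
          (by simpa using hlt)
        rw [pow_zero, one_mul, ← hfc] at hpr
        have hne2 : fc d c u ≠ fc d c v := by
          intro h
          rw [h, sub_self, map_zero] at hpr
          exact (mul_ne_zero hw0 (pow_ne_zero _ hV0)) hpr.symm
        have hlog : log (w (((fc d c u : ℚ) : L) - ((fc d c v : ℚ) : L))) =
            log (w ((u : L) - v)) + ((d : ℤ) - 1) * log (w (x : L)) := by
          rw [hpr, log_mul hw0 (pow_ne_zero _ hV0), log_pow]
          have : ((d - 1 : ℕ) : ℤ) = (d : ℤ) - 1 := by push_cast [Nat.cast_sub (by omega : 1 ≤ d)]; rfl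
          rw [nsmul_eq_mul, this]
        have hr0 : 0 ≤ log (w (x : L)) - log (w (((fc d c u : ℚ) : L) - ((fc d c v : ℚ) : L))) := by
          have hle2 : w (((fc d c u : ℚ) : L) - ((fc d c v : ℚ) : L)) ≤ w (x : L) := by
            have := w_le w hd hζ ((fc d c u : ℚ) : L) ((fc d c v : ℚ) : L) (w (x : L))
              (hVeq _ (pre_fc hu)) (hVeq _ (pre_fc hv)) 0
            simpa using this
          have hw1 : w (((fc d c u : ℚ) : L) - ((fc d c v : ℚ) : L)) ≠ 0 := by
            rw [hpr]; exact mul_ne_zero hw0 (pow_ne_zero _ hV0)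
          have := (log_le_log hw1 hV0).2 hle2
          omega
        have hsmall : log (w (x : L)) - log (w (((fc d c u : ℚ) : L) - ((fc d c v : ℚ) : L)))
            < n := by
          rw [hlog, ← hn]
          have : 0 < ((d : ℤ) - 1) * log (w (x : L)) := by
            apply mul_pos
            · have : (4 : ℤ) ≤ d := by exact_mod_cast hd4
              omega
            · omega
          linarith
        have h3 := ih (log (w (x : L)) - log (w (((fc d c u : ℚ) : L) -
          ((fc d c v : ℚ) : L)))).toNat (by omega) _ _ (pre_fc hu) (pre_fc hv) hne2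
          (by rw [Int.toNat_of_nonneg hr0])
        rw [hlog] at h3
        have h4 : log (w (x : L)) - log (w ((u : L) - v)) =
            (log (w (x : L)) - (log (w ((u : L) - v)) + ((d : ℤ) - 1) * log (w (x : L)))) +
            ((d : ℤ) - 1) * log (w (x : L)) := by ring
        rw [h4]
        exact dvd_add h3 (dvd_mul_right _ _)
      · rw [heq, sub_self]
        exact dvd_zero _
  have claim' : ∀ u v : ℚ, Pre d c u → Pre d c v → u ≠ v →
      ((d : ℤ) - 1) ∣ log (w (x : L)) - log (w ((u : L) - v)) := by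
    intro u v hu hv huv
    have hne : (u : L) - v ≠ 0 := sub_ne_zero.2 (fun h => huv (by exact_mod_cast h))
    have hw0 : w ((u : L) - v) ≠ 0 := (Valuation.ne_zero_iff w).2 hne
    have hle : w ((u : L) - v) ≤ w (x : L) := by
      have := w_le w hd hζ (u : L) v (w (x : L)) (hVeq u hu) (hVeq v hv) 0
      simpa using this
    have h1 := (log_le_log hw0 hV0).2 hle
    exact claim (log (w (x : L)) - log (w ((u : L) - v))).toNat u v hu hv huv
      (by rw [Int.toNat_of_nonneg (by omega)])
  have hle := w_le w hd hζ (x : L) y (w (x : L)) rfl (hVeq y hy) j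
  rcases hle.lt_or_eq with hlt | heq
  · have hpr := w_prod w hd hζ hwd (x : L) y (w (x : L)) rfl (hVeq y hy) j hlt
    have hne : fc d c x ≠ fc d c y := by
      intro h
      apply hxy
      have : x ^ d + c = y ^ d + c := h
      linarith
    have hne0 : w ((x : L) ^ d - (y : L) ^ d) ≠ 0 := by
      rw [← hfc]
      exact (Valuation.ne_zero_iff w).2 (sub_ne_zero.2 (fun h => hne (by exact_mod_cast h)))
    have hw0 : w ((x : L) - ζ ^ j * y) ≠ 0 := by
      intro h
      rw [hpr, h, zero_mul] at hne0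
      exact hne0 rfl
    have h3 := claim' _ _ (pre_fc hx) (pre_fc hy) hne
    rw [hfc, hpr, log_mul hw0 (pow_ne_zero _ hV0), log_pow] at h3
    have hcast : ((d - 1 : ℕ) : ℤ) = (d : ℤ) - 1 := by
      push_cast [Nat.cast_sub (by omega : 1 ≤ d)]; rfl
    rw [nsmul_eq_mul, hcast] at h3
    have h4 : log (w ((x : L) - ζ ^ j * y)) - log (w (x : L)) =
        -((log (w (x : L)) - (log (w ((x : L) - ζ ^ j * y)) + ((d : ℤ) - 1) * log (w (x : L))))
          + ((d : ℤ) - 1) * log (w (x : L))) := by ring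
    rw [h4]
    exact (dvd_add h3 (dvd_mul_right _ _)).neg_right
  · rw [heq, sub_self]
    exact dvd_zero _

end Pool.Agent.HMW
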