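import Pool.Agent.HMW.TargetsG

set_option autoImplicit false

/-!
# MP_c076ed_nt: PSC, the factors have equal valuations at a place where `c` is integral
(second kind)
-/

open scoped WithZero

namespace Pool.Agent.HMW

namespace PSC_

lemma cast_fc {L : Type} [Field L] [CharZero L] (d : ℕ) (c y : ℚ) :
    ((fc d c y : ℚ) : L) = (y : L) ^ d + (c : L) := by
  rw [fc]
  push_cast
  ring

lemma cast_iter {L : Type} [Field L] [CharZero L] (d : ℕ) (c y : ℚ) (k : ℕ) :
    (fun u : L => u ^ d + (c : L))^[k] (y : L) = (((fc d c)^[k] y : ℚ) : L) := by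
  induction k with
  | zero => rfl
  | succ k ih =>
    rw [Function.iterate_succ_apply', Function.iterate_succ_apply', ih, cast_fc]

/-- The valuations of the points of a finite orbit. -/
lemma val_le_one (hV : T_VAL) {L : Type} [Field L] [CharZero L] (w : Valuation L ℤᵐ⁰) (d : ℕ)
    (c x : ℚ) (hd : 2 ≤ d) (hx : Pre d c x) (hc : w (c : L) ≤ 1) (n : ℕ) :
    w (((fc d c)^[n] x : ℚ) : L) ≤ 1 := by
  refine (hV L w d (c : L) _ hd ?_).1 hc
  refine (hx.image (fun y : ℚ => (y : L))).subset ?_
  rintro _ ⟨k, rfl⟩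
  refine ⟨(fc d c)^[k] ((fc d c)^[n] x), ⟨k + n, ?_⟩, ?_⟩
  · change (fc d c)^[k + n] x = _
    rw [Function.iterate_add_apply]
  · exact (cast_iter d c _ k).symm

/-- The difference of the values is divisible by every factor. -/
lemma pow_sub_le {L : Type} [Field L] (w : Valuation L ℤᵐ⁰) (d : ℕ) (a b : L) (ha : w a ≤ 1)
    (hb : w b ≤ 1) : w (a ^ d - b ^ d) ≤ w (a - b) := by
  rw [← geom_sum₂_mul, map_mul]
  refine mul_le_of_le_one_left' ?_
  refine w.map_sum_le fun i _ => ?_
  rw [map_mul, map_pow, map_pow]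
  exact mul_le_one' (pow_le_one' ha _) (pow_le_one' hb _)

lemma nat_le_one {L : Type} [Field L] (w : Valuation L ℤᵐ⁰) (n : ℕ) : w (n : L) ≤ 1 := by
  induction n with
  | zero => simp
  | succ n ih =>
    push_cast
    exact (w.map_add _ _).trans (max_le ih (by simp))

lemma two_eq {L : Type} [Field L] (w : Valuation L ℤᵐ⁰) (d : ℕ) (hd : Even d)
    (h : w (d : L) = 1) : w (2 : L) = 1 := by
  obtain ⟨m, rfl⟩ := hd
  have h1 : ((m + m : ℕ) : L) = 2 * (m : L) := by
    push_cast
    ring
  rw [h1, map_mul] at h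
  have h2 : w (2 : L) ≤ 1 := by simpa using nat_le_one w 2
  refine le_antisymm h2 ?_
  calc (1 : ℤᵐ⁰) = w 2 * w (m : L) := h.symm
    _ ≤ w 2 * 1 := mul_le_mul_right (nat_le_one w m) _
    _ = w 2 := mul_one _

/-- Powers of small elements. -/
lemma pow_lt_self (a : ℤᵐ⁰) (d : ℕ) (hd : 2 ≤ d) (h0 : a ≠ 0) (h1 : a < 1) : a ^ d < a := by
  have ha : 0 < a := zero_lt_iff.2 h0
  calc a ^ d = a ^ (d - 1) * a := by
        rw [← pow_succ]
        congr 1
        omega
    _ < 1 * a := by
        refine mul_lt_mul_of_pos_right ?_ ha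
        exact pow_lt_one₀ zero_le h1 (by omega)
    _ = a := one_mul a

end PSC_

open PSC_

theorem p_PSC (hV : T_VAL) : T_PSC := by
  intro L _ _ w d ζ c x z hd hev hζ hwd hwc hB hz
  obtain ⟨hfz, hpre, hx0, hx1, hk⟩ := hB
  have hd0 : d ≠ 0 := by omega
  have hw2 : w (2 : L) = 1 := two_eq w d hev hwd
  have hwζ : w ζ = 1 := by
    have h : w ζ ^ d = 1 := by rw [← map_pow, hζ.pow_eq_one, map_one]
    exact (pow_eq_one_iff_of_nonneg zero_le hd0).1 h
  have hval := val_le_one hV w d c x (by omega) hpre hwc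
  have hper : Per d c z := ⟨1, one_pos, hfz⟩
  classical
  obtain ⟨i, hi, hmin⟩ : ∃ i, (fc d c)^[i] x = z ∧ ∀ m < i, (fc d c)^[m] x ≠ z :=
    ⟨Nat.find hk, Nat.find_spec hk, fun m hm => Nat.find_min hk hm⟩
  have hi0 : i ≠ 0 := by
    rintro rfl
    exact hx0 (by rw [show x = z from hi]; exact hper)
  have hi1 : i ≠ 1 := by
    rintro rfl
    exact hx1 (by rw [show fc d c x = z from hi]; exact hper)
  obtain ⟨n, rfl⟩ : ∃ n, i = n + 2 := ⟨i - 2, by omega⟩
  have hneg : (fc d c)^[n + 1] x = -z := by
    have h1 : (fc d c)^[n + 1] x ≠ z := hmin (n + 1) (by omega)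
    have h2 : ((fc d c)^[n + 1] x) ^ d = z ^ d := by
      have h3 : fc d c ((fc d c)^[n + 1] x) = fc d c z := by
        rw [← Function.iterate_succ_apply' (fc d c) (n + 1) x, hfz]
        exact hi
      simpa [fc] using h3
    have h4 : |(fc d c)^[n + 1] x| = |z| := by
      refine (pow_left_inj₀ (abs_nonneg _) (abs_nonneg _) hd0).1 ?_
      rw [← abs_pow, ← abs_pow, h2]
    rcases abs_eq_abs.1 h4 with h | h
    · exact absurd h h1
    · exact h
  have hwz : w (z : L) ≤ 1 := by
    have := hval (n + 2)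
    rwa [hi] at this
  have hzL : (z : L) ≠ 0 := by exact_mod_cast hz
  have hwz0 : w (z : L) ≠ 0 := (Valuation.ne_zero_iff w).2 hzL
  have hζz : ∀ j : ℕ, w (ζ ^ j * (z : L)) = w (z : L) := fun j => by
    rw [map_mul, map_pow, hwζ, one_pow, one_mul]
  have hcz : (c : L) = z - (z : L) ^ d := by
    have h1 : z ^ d + c = z := hfz
    have h2 : (z : L) ^ d + c = z := by exact_mod_cast h1
    linear_combination h2
  intro i' j'
  left
  rcases hwz.lt_or_eq with hlt | heq
  · -- the valuation of `z` is smaller than one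
    have hpow : w ((z : L) ^ d) < w (z : L) := by
      rw [map_pow]
      exact pow_lt_self _ d (by omega) hwz0 hlt
    have hwcz : w (c : L) = w (z : L) := by
      rw [hcz]
      exact Valuation.map_sub_eq_of_lt_left w hpow
    have hback : ∀ y : ℚ, w (z : L) < w ((fc d c y : ℚ) : L) → w (z : L) < w (y : L) := by
      intro y hy
      by_contra hcon
      have h1 : w (y : L) ≤ w (z : L) := not_lt.1 hcon
      rw [cast_fc] at hy
      refine absurd hy (not_lt.2 ((w.map_add _ _).trans (max_le ?_ hwcz.le)))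
      rw [map_pow]
      calc w (y : L) ^ d ≤ w (z : L) ^ d := pow_le_pow_left' h1 d
        _ = w ((z : L) ^ d) := (map_pow _ _ _).symm
        _ ≤ w (z : L) := hpow.le
    have hu : w (z : L) < w (((fc d c)^[n] x : ℚ) : L) := by
      have h1 : (((fc d c)^[n] x : ℚ) : L) ^ d = z ^ d - 2 * z := by
        have h2 : (((fc d c)^[n + 1] x : ℚ) : L) = (((fc d c)^[n] x : ℚ) : L) ^ d + c := by
          rw [Function.iterate_succ_apply', cast_fc]
        rw [hneg] at h2
        push_cast at h2
        rw [hcz] at h2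
        linear_combination -h2
      have h3 : w (((fc d c)^[n] x : ℚ) : L) ^ d = w (z : L) := by
        rw [← map_pow, h1]
        have h4 : w (2 * (z : L)) = w (z : L) := by rw [map_mul, hw2, one_mul]
        rw [Valuation.map_sub_eq_of_lt_right w (by rw [h4]; exact hpow), h4]
      by_contra hcon
      have h5 : w (((fc d c)^[n] x : ℚ) : L) ≤ w (z : L) := not_lt.1 hcon
      have h6 : w (((fc d c)^[n] x : ℚ) : L) ^ d ≤ w (z : L) ^ d := pow_le_pow_left' h5 d
      rw [h3, ← map_pow] at h6
      exact absurd hpow (not_lt.2 h6)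
    have hall : ∀ m : ℕ, m ≤ n → w (z : L) < w (((fc d c)^[n - m] x : ℚ) : L) := by
      intro m
      induction m with
      | zero => intro _; exact hu
      | succ m ih =>
        intro hm
        have h1 := ih (by omega)
        refine hback _ ?_
        rw [← Function.iterate_succ_apply' (fc d c) (n - (m + 1)) x]
        have h2 : (n - (m + 1)).succ = n - m := by omega
        rw [h2]
        exact h1
    have hxz : w (z : L) < w (x : L) := by
      have := hall n le_rfl
      simpa using this
    have hfin : ∀ j : ℕ, w ((x : L) - ζ ^ j * z) = w (x : L) := fun j =>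
      Valuation.map_sub_eq_of_lt_left w (by rw [hζz]; exact hxz)
    rw [hfin, hfin]
  · -- the valuation of `z` is one
    have hfac : ∀ (k j : ℕ), w ((((fc d c)^[k + 1] x : ℚ) : L) - z) ≤
        w ((((fc d c)^[k] x : ℚ) : L) - ζ ^ j * z) := by
      intro k j
      have h1 : (((fc d c)^[k + 1] x : ℚ) : L) - z =
          (((fc d c)^[k] x : ℚ) : L) ^ d - (ζ ^ j * z) ^ d := by
        rw [Function.iterate_succ_apply', cast_fc, mul_pow, ← pow_mul, mul_comm j d, pow_mul,
          hζ.pow_eq_one, one_pow, one_mul, hcz]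
        ring
      rw [h1]
      exact pow_sub_le w d _ _ (hval k) (by rw [hζz]; exact hwz)
    have hone : ∀ m : ℕ, m ≤ n → 1 ≤ w ((((fc d c)^[n + 1 - m] x : ℚ) : L) - z) := by
      intro m
      induction m with
      | zero =>
        intro _
        rw [Nat.sub_zero, hneg]
        have h1 : ((-z : ℚ) : L) - z = -(2 * z) := by
          push_cast
          ring
        rw [h1, Valuation.map_neg, map_mul, hw2, heq, one_mul]
      | succ m ih =>
        intro hm
        refine (ih (by omega)).trans ?_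
        have h1 := hfac (n + 1 - (m + 1)) 0
        have h2 : n + 1 - (m + 1) + 1 = n + 1 - m := by omega
        rw [h2, pow_zero, one_mul] at h1
        exact h1
    have h1 : 1 ≤ w ((((fc d c)^[0 + 1] x : ℚ) : L) - z) := by
      have := hone n le_rfl
      have h2 : n + 1 - n = 0 + 1 := by omega
      rwa [h2] at this
    have hfin : ∀ j : ℕ, w ((x : L) - ζ ^ j * z) = 1 := by
      intro j
      refine le_antisymm ?_ (h1.trans (hfac 0 j))
      refine (w.map_sub _ _).trans (max_le ?_ (by rw [hζz]; exact hwz))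
      exact hval 0
    rw [hfin, hfin]

end Pool.Agent.HMW
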