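import Pool.Agent.HMW.TargetsG

set_option autoImplicit false
set_option linter.unusedVariables false

/-!
# PTA: admissible pairs give points on finitely many curves
-/

open Polynomial Height Height.AdmissibleAbsValues NumberField IsDedekindDomain
open scoped Classical WithZero

noncomputable section

namespace Pool.Agent.HMW

namespace PTA_

section Val

variable {L : Type} [Field L] (w : Valuation L ℤᵐ⁰)

theorem root_val {ζ : L} {d : ℕ} (hd : d ≠ 0) (hζ : IsPrimitiveRoot ζ d) : w ζ = 1 := by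
  have h1 : w ζ ^ d = 1 := by rw [← map_pow, hζ.pow_eq_one, map_one]
  exact (pow_eq_one_iff.mp h1).resolve_right hd

theorem nat_le (n : ℕ) : w (n : L) ≤ 1 := by
  induction n with
  | zero => simp
  | succ n ih =>
    push_cast
    exact (w.map_add _ _).trans (max_le ih (by rw [map_one]))

theorem eq_one_of_mul {a b : ℤᵐ⁰} (ha : a ≤ 1) (hb : b ≤ 1) (h : a * b = 1) : a = 1 := by
  refine le_antisymm ha ?_
  calc (1 : ℤᵐ⁰) = a * b := h.symm
    _ ≤ a * 1 := mul_le_mul' le_rfl hb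
    _ = a := mul_one a

theorem two_val {d : ℕ} (hd : Even d) (hw : w (d : L) = 1) : w (2 : L) = 1 := by
  obtain ⟨k, hk⟩ := hd
  have h1 : (d : L) = (2 : ℕ) * (k : ℕ) := by
    rw [hk]; push_cast; ring
  rw [h1, map_mul] at hw
  have h2 := eq_one_of_mul (nat_le w 2) (nat_le w k) hw
  simpa using h2

theorem one_sub_val {ζ : L} {d : ℕ} (hd : 2 ≤ d) (hζ : IsPrimitiveRoot ζ d)
    (hw : w (d : L) = 1) : w (1 - ζ) = 1 := by
  obtain ⟨n, rfl⟩ : ∃ n, d = n + 1 := ⟨d - 1, by omega⟩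
  have hp := hζ.prod_one_sub_pow_eq_order
  have hz := root_val w (by omega) hζ
  have hle : ∀ k : ℕ, w (1 - ζ ^ (k + 1)) ≤ 1 := by
    intro k
    refine (w.map_sub _ _).trans (max_le (by rw [map_one]) ?_)
    rw [map_pow, hz, one_pow]
  have h0 : (0 : ℕ) ∈ Finset.range n := Finset.mem_range.mpr (by omega)
  rw [← Finset.mul_prod_erase _ _ h0] at hp
  have h1 : w (1 - ζ ^ (0 + 1)) * w (∏ k ∈ (Finset.range n).erase 0, (1 - ζ ^ (k + 1))) = 1 := by
    rw [← map_mul, hp]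
    rw [← hw]
    push_cast
    rfl
  have h2 : w (∏ k ∈ (Finset.range n).erase 0, (1 - ζ ^ (k + 1))) ≤ 1 := by
    rw [map_prod]
    exact Finset.prod_le_one' fun k _ => hle k
  have h3 := eq_one_of_mul (hle 0) h2 h1
  simpa using h3

end Val

theorem pow_half {L : Type} [Field L] {ζ : L} {d : ℕ} (hd : 6 ≤ d) (he : Even d)
    (hζ : IsPrimitiveRoot ζ d) : ζ ^ (d / 2) = -1 := by
  obtain ⟨k, hk⟩ := he
  have h1 : (ζ ^ (d / 2)) ^ 2 = 1 := by
    rw [← pow_mul, show d / 2 * 2 = d by omega, hζ.pow_eq_one]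
  have h2 : (ζ ^ (d / 2) - 1) * (ζ ^ (d / 2) + 1) = 0 := by
    calc (ζ ^ (d / 2) - 1) * (ζ ^ (d / 2) + 1) = (ζ ^ (d / 2)) ^ 2 - 1 := by ring
      _ = 0 := by rw [h1, sub_self]
  rcases mul_eq_zero.mp h2 with h | h
  · exact absurd (sub_eq_zero.mp h) (hζ.pow_ne_one_of_pos_of_lt (by omega) (by omega))
  · exact eq_neg_of_add_eq_zero_left h

/-- the element whose valuations are divisible by `d - 1` -/
theorem log_dvd (hPS : T_PS) {L : Type} [Field L] [CharZero L] (w : Valuation L ℤᵐ⁰) {d : ℕ}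
    {ζ : L} {c x z : ℚ} (hd : 6 ≤ d) (he : Even d) (hζ : IsPrimitiveRoot ζ d)
    (hw : w (d : L) = 1) (hA : Adm d c x z) (hz : z ≠ 0) :
    ((d : ℤ) - 1) ∣ WithZero.log (w (4 * ζ * ((x : L) - ζ * z) * ((x : L) - ζ ^ (d - 1) * z) /
      ((1 - ζ) ^ 2 * ((x : L) + z) ^ 2))) := by
  have nd : ∀ j : ℕ, 0 < j → j < d → ¬ d ∣ j := fun j h1 h2 h3 =>
    absurd (Nat.le_of_dvd h1 h3) (by omega)
  have hh : (x : L) - ζ ^ (d / 2) * z = x + z := by rw [pow_half hd he hζ]; ring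
  have P1 := hPS L w d ζ c x z (by omega) he hζ hw hA hz 1 (d / 2) (nd _ (by omega) (by omega))
    (nd _ (by omega) (by omega))
  have P2 := hPS L w d ζ c x z (by omega) he hζ hw hA hz (d - 1) (d / 2)
    (nd _ (by omega) (by omega)) (nd _ (by omega) (by omega))
  have P3 := hPS L w d ζ c x z (by omega) he hζ hw hA hz (d / 2) 1
    (nd _ (by omega) (by omega)) (nd _ (by omega) (by omega))
  rw [hh] at P1 P2 P3
  rw [pow_one] at P1
  have e1 : w ((x : L) - ζ * z) ≠ 0 := (w.ne_zero_iff).mpr P1.1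
  have e2 : w ((x : L) - ζ ^ (d - 1) * z) ≠ 0 := (w.ne_zero_iff).mpr P2.1
  have e3 : w ((x : L) + z) ≠ 0 := (w.ne_zero_iff).mpr P3.1
  have h4 : w (4 : L) = 1 := by
    rw [show (4 : L) = 2 * 2 by norm_num, map_mul, two_val w he hw, mul_one]
  have hv : w (4 * ζ * ((x : L) - ζ * z) * ((x : L) - ζ ^ (d - 1) * z) /
      ((1 - ζ) ^ 2 * ((x : L) + z) ^ 2)) =
      w ((x : L) - ζ * z) * w ((x : L) - ζ ^ (d - 1) * z) / (w ((x : L) + z) * w ((x : L) + z)) := by
    rw [map_div₀, map_mul, map_mul, map_mul, map_mul, map_pow, map_pow, h4,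
      root_val w (by omega) hζ, one_sub_val w (by omega) hζ hw, one_pow, one_mul, one_mul, one_mul,
      sq]
  rw [hv, WithZero.log_div (mul_ne_zero e1 e2) (mul_ne_zero e3 e3), WithZero.log_mul e1 e2,
    WithZero.log_mul e3 e3]
  have : WithZero.log (w ((x : L) - ζ * z)) + WithZero.log (w ((x : L) - ζ ^ (d - 1) * z)) -
      (WithZero.log (w ((x : L) + z)) + WithZero.log (w ((x : L) + z))) =
      (WithZero.log (w ((x : L) - ζ * z)) - WithZero.log (w ((x : L) + z))) +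
      (WithZero.log (w ((x : L) - ζ ^ (d - 1) * z)) - WithZero.log (w ((x : L) + z))) := by ring
  rw [this]
  exact dvd_add P1.2 P2.2

/-- nonvanishing -/
theorem ne_zero (hPS : T_PS) {L : Type} [Field L] [CharZero L] {d : ℕ}
    {ζ : L} {c x z : ℚ} (hd : 6 ≤ d) (he : Even d) (hζ : IsPrimitiveRoot ζ d)
    (hA : Adm d c x z) (hz : z ≠ 0) :
    (x : L) - ζ * z ≠ 0 ∧ (x : L) - ζ ^ (d - 1) * z ≠ 0 ∧ (x : L) + z ≠ 0 := by
  have nd : ∀ j : ℕ, 0 < j → j < d → ¬ d ∣ j := fun j h1 h2 h3 =>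
    absurd (Nat.le_of_dvd h1 h3) (by omega)
  have hd0 : (d : L) ≠ 0 := by
    have : d ≠ 0 := by omega
    exact_mod_cast this
  have hw : (1 : Valuation L ℤᵐ⁰) (d : L) = 1 := Valuation.one_apply_of_ne_zero hd0
  have hh : (x : L) - ζ ^ (d / 2) * z = x + z := by rw [pow_half hd he hζ]; ring
  have P1 := hPS L 1 d ζ c x z (by omega) he hζ hw hA hz 1 1 (nd _ (by omega) (by omega))
    (nd _ (by omega) (by omega))
  have P2 := hPS L 1 d ζ c x z (by omega) he hζ hw hA hz (d - 1) 1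
    (nd _ (by omega) (by omega)) (nd _ (by omega) (by omega))
  have P3 := hPS L 1 d ζ c x z (by omega) he hζ hw hA hz (d / 2) 1
    (nd _ (by omega) (by omega)) (nd _ (by omega) (by omega))
  rw [hh] at P3
  rw [pow_one] at P1
  exact ⟨P1.1, P2.1, P3.1⟩

/-- make an element integral -/
theorem integral {L : Type} [Field L] [NumberField L] (m : ℕ) (hm : 0 < m) (a : L) :
    ∃ (p : 𝓞 L) (n : L), n ≠ 0 ∧ (p : L) = a * n ^ m := by
  obtain ⟨p, q, hq, h⟩ := IsFractionRing.div_surjective (A := 𝓞 L) a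
  have hq0 : (q : L) ≠ 0 := by
    have := nonZeroDivisors.ne_zero hq
    exact_mod_cast this
  refine ⟨p * q ^ (m - 1), (q : L), hq0, ?_⟩
  rw [← h]
  have h1 : ((p * q ^ (m - 1) : 𝓞 L) : L) = (p : L) * (q : L) ^ (m - 1) := by
    simp
  rw [h1]
  obtain ⟨k, rfl⟩ : ∃ k, m = k + 1 := ⟨m - 1, by omega⟩
  show (p : L) * (q : L) ^ k = (p : L) / (q : L) * (q : L) ^ (k + 1)
  rw [pow_succ]
  field_simp

theorem main (hPS : T_PS) (hSEL : T_SEL) {d : ℕ} (hd : 6 ≤ d) (he : Even d) (L : Type)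
    [Field L] [NumberField L] (ζ : L) (hζ : IsPrimitiveRoot ζ d) :
    ∃ A : Finset (𝓞 L), (∀ α ∈ A, α ≠ 0) ∧ ∀ c x z : ℚ, Adm d c x z → z ≠ 0 → ∃ α ∈ A, ∃ X : L,
    ((1 + ζ) / (1 - ζ) * (((x : L) - z) / ((x : L) + z))) ^ 2 = 1 + (α : L) * X ^ (d - 1) := by
  have hN : ((d : ℕ) : 𝓞 L) ≠ 0 := by
    have : d ≠ 0 := by omega
    exact_mod_cast this
  obtain ⟨A', hA'0, hA'⟩ := hSEL L (d - 1) (d : 𝓞 L) (by omega) hN
  choose p n hn hp using fun a : L => integral (d - 1) (by omega) a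
  refine ⟨A'.image p, ?_, ?_⟩
  · intro α hα
    obtain ⟨a, ha, rfl⟩ := Finset.mem_image.mp hα
    intro h0
    have h1 := hp a
    rw [h0] at h1
    have h2 : a * n a ^ (d - 1) ≠ 0 := mul_ne_zero (hA'0 a ha) (pow_ne_zero _ (hn a))
    apply h2
    rw [← h1]
    simp
  · intro c x z hA hz
    obtain ⟨n1, n2, n3⟩ := ne_zero hPS hd he hζ hA hz
    have h1ζ : (1 - ζ) ≠ 0 := sub_ne_zero.mpr (hζ.ne_one (by omega)).symm
    have hζ0 : ζ ≠ 0 := hζ.ne_zero (by omega)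
    have h4 : (4 : L) ≠ 0 := by norm_num
    obtain ⟨u, hu⟩ : ∃ u : L, u = 4 * ζ * ((x : L) - ζ * z) * ((x : L) - ζ ^ (d - 1) * z) /
      ((1 - ζ) ^ 2 * ((x : L) + z) ^ 2) := ⟨_, rfl⟩
    have hu0 : u ≠ 0 := by
      rw [hu]
      exact div_ne_zero (mul_ne_zero (mul_ne_zero (mul_ne_zero h4 hζ0) n1) n2)
        (mul_ne_zero (pow_ne_zero _ h1ζ) (pow_ne_zero _ n3))
    obtain ⟨a, ha, X, hX0, hX⟩ := hA' u hu0 fun v hv => by
      have hw : v.valuation L (d : L) = 1 := by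
        have h5 : v.valuation L (algebraMap (𝓞 L) L (d : 𝓞 L)) ≤ 1 := v.valuation_le_one _
        have h6 : ¬ v.valuation L (algebraMap (𝓞 L) L (d : 𝓞 L)) < 1 := fun h =>
          hv ((v.valuation_lt_one_iff_mem _).mp h)
        have h7 : algebraMap (𝓞 L) L (d : 𝓞 L) = (d : L) := map_natCast _ _
        rw [h7] at h5 h6
        exact le_antisymm h5 (not_lt.mp h6)
      have h := log_dvd hPS (v.valuation L) hd he hζ hw hA hz
      rw [← hu] at h
      rw [Nat.cast_sub (by omega : 1 ≤ d)]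
      exact_mod_cast h
    refine ⟨p a, Finset.mem_image_of_mem p ha, X / n a, ?_⟩
    have h8 : (p a : L) * (X / n a) ^ (d - 1) = u := by
      rw [hp a, hX, div_pow]
      have := pow_ne_zero (d - 1) (hn a)
      rw [mul_assoc, mul_div_assoc', mul_comm (n a ^ (d - 1)), mul_div_assoc, div_self this,
        mul_one]
    rw [h8, hu]
    have h9 : ζ * ζ ^ (d - 1) = 1 := by
      rw [← pow_succ', show d - 1 + 1 = d by omega, hζ.pow_eq_one]
    have h10 : ζ * ((x : L) - ζ ^ (d - 1) * z) = ζ * x - z := by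
      calc ζ * ((x : L) - ζ ^ (d - 1) * z) = ζ * x - (ζ * ζ ^ (d - 1)) * z := by ring
        _ = _ := by rw [h9, one_mul]
    have h11 : 4 * ζ * ((x : L) - ζ * z) * ((x : L) - ζ ^ (d - 1) * z) =
        4 * ((x : L) - ζ * z) * (ζ * x - z) := by
      calc 4 * ζ * ((x : L) - ζ * z) * ((x : L) - ζ ^ (d - 1) * z) =
          4 * ((x : L) - ζ * z) * (ζ * ((x : L) - ζ ^ (d - 1) * z)) := by ring
        _ = _ := by rw [h10]
    rw [h11, div_mul_div_comm, div_pow]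
    have h12 : ((1 - ζ) * ((x : L) + z)) ^ 2 ≠ 0 := pow_ne_zero _ (mul_ne_zero h1ζ n3)
    have h13 : (1 - ζ) ^ 2 * ((x : L) + z) ^ 2 = ((1 - ζ) * ((x : L) + z)) ^ 2 := by ring
    have key : ∀ A B : L, B ≠ 0 → (1 + A / B) * B = B + A := fun A B hB => by field_simp
    rw [h13, div_eq_iff h12, key _ _ h12]
    ring

end PTA_

open PTA_ in
theorem p_PTA : T_PS → T_SEL → T_PTA := by
  intro hPS hSEL d hd he
  haveI : NeZero d := ⟨by omega⟩
  haveI : NeZero ((d : ℕ) : ℚ) := ⟨by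
    have : d ≠ 0 := by omega
    exact_mod_cast this⟩
  haveI : IsCyclotomicExtension {d} ℚ (CyclotomicField d ℚ) :=
    CyclotomicField.isCyclotomicExtension d ℚ
  have hζ := IsCyclotomicExtension.zeta_spec d ℚ (CyclotomicField d ℚ)
  exact ⟨CyclotomicField d ℚ, inferInstance, inferInstance,
    IsCyclotomicExtension.zeta d ℚ (CyclotomicField d ℚ), hζ,
    main hPS hSEL hd he (CyclotomicField d ℚ) _ hζ⟩

end Pool.Agent.HMW
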