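import Pool.Agent.HMW.TargetsG

set_option autoImplicit false

/-!
# SIZ: sizes of the numerators of preperiodic points
-/

open Polynomial Height
open scoped Classical

noncomputable section

namespace Pool.Agent.HMW

namespace SIZ_

theorem pre_fc {d : ℕ} {c x : ℚ} (h : Pre d c x) : Pre d c (fc d c x) := by
  refine Set.Finite.subset h ?_
  rintro _ ⟨k, rfl⟩
  exact ⟨k + 1, Function.iterate_succ_apply _ _ _⟩

theorem step {d : ℕ} (hd : 4 ≤ d) {c q : ℚ} (h : 2 ^ d * max |c| 1 < |q| ^ d) :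
    |q| < |fc d c q| ∧ 2 ^ d * max |c| 1 < |fc d c q| ^ d := by
  have hm1 : (1 : ℚ) ≤ max |c| 1 := le_max_right _ _
  have hmc : |c| ≤ max |c| 1 := le_max_left _ _
  have h16 : (16 : ℚ) ≤ 2 ^ d := by
    calc (16 : ℚ) = 2 ^ 4 := by norm_num
      _ ≤ 2 ^ d := pow_le_pow_right₀ (by norm_num) hd
  have hq2 : (2 : ℚ) < |q| := by
    refine lt_of_pow_lt_pow_left₀ d (abs_nonneg q) (lt_of_le_of_lt ?_ h)
    nlinarith
  have h1 : |q| ^ d - |c| ≤ |fc d c q| := by
    unfold fc
    have := abs_sub_abs_le_abs_sub (q ^ d) (-c)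
    rw [abs_pow, abs_neg, sub_neg_eq_add] at this
    exact this
  have h2 : 16 * max |c| 1 ≤ |q| ^ d := by nlinarith
  have h3 : 8 * |q| ≤ |q| ^ d := by
    obtain ⟨n, rfl⟩ : ∃ n, d = n + 4 := ⟨d - 4, by omega⟩
    have h4 : (8 : ℚ) ≤ |q| ^ (n + 3) := by
      calc (8 : ℚ) = 2 ^ 3 := by norm_num
        _ ≤ 2 ^ (n + 3) := pow_le_pow_right₀ (by norm_num) (by omega)
        _ ≤ |q| ^ (n + 3) := pow_le_pow_left₀ (by norm_num) hq2.le _
    calc 8 * |q| ≤ |q| ^ (n + 3) * |q| := mul_le_mul_of_nonneg_right h4 (abs_nonneg q)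
      _ = |q| ^ (n + 4) := (pow_succ _ _).symm
  have h5 : |q| < |fc d c q| := by linarith
  exact ⟨h5, h.trans (pow_lt_pow_left₀ h5 (abs_nonneg q) (by omega))⟩

theorem bound {d : ℕ} (hd : 4 ≤ d) {c x : ℚ} (hx : Pre d c x) :
    |x| ^ d ≤ 2 ^ d * max |c| 1 := by
  by_contra hcon
  push Not at hcon
  have key : ∀ k : ℕ, 2 ^ d * max |c| 1 < |(fc d c)^[k] x| ^ d := by
    intro k
    induction k with
    | zero => exact hcon
    | succ k ih =>
      rw [Function.iterate_succ_apply']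
      exact (step hd ih).2
  have hmono : StrictMono fun k : ℕ => |(fc d c)^[k] x| := by
    refine strictMono_nat_of_lt_succ fun k => ?_
    have h1 := (step hd (key k)).1
    have h2 : (fc d c)^[k + 1] x = fc d c ((fc d c)^[k] x) := Function.iterate_succ_apply' _ _ _
    show |(fc d c)^[k] x| < |(fc d c)^[k + 1] x|
    rw [h2]
    exact h1
  have hinj : Function.Injective fun k : ℕ => (fc d c)^[k] x := fun i j hij =>
    hmono.injective (congrArg abs hij)
  exact Set.infinite_range_of_injective hinj hx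

theorem factA {d e : ℕ} (hd : 4 ≤ d) {c x y : ℚ} (he : 0 < e)
    (hden : ∀ z, Pre d c z → z.den = e) (hx : Pre d c x) (hy : Pre d c y) (hxy : |x| < |y|) :
    1 ≤ 2 * (e : ℚ) * |y| ^ d := by
  have hd0 : d ≠ 0 := by omega
  have hpow : |x| ^ d < |y| ^ d := pow_lt_pow_left₀ hxy (abs_nonneg x) hd0
  have e1 := hden _ (pre_fc hx)
  have e2 := hden _ (pre_fc hy)
  have he0 : (e : ℚ) ≠ 0 := by exact_mod_cast he.ne'
  have n1 : (e : ℚ) * fc d c x = ((fc d c x).num : ℚ) := by
    rw [← e1, mul_comm]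
    exact Rat.mul_den_eq_num _
  have n2 : (e : ℚ) * fc d c y = ((fc d c y).num : ℚ) := by
    rw [← e2, mul_comm]
    exact Rat.mul_den_eq_num _
  have hdiff : fc d c y - fc d c x = y ^ d - x ^ d := by
    unfold fc
    ring
  have hne : y ^ d - x ^ d ≠ 0 := by
    intro h0
    have h1 : y ^ d = x ^ d := sub_eq_zero.1 h0
    have h2 : |y| ^ d = |x| ^ d := by rw [← abs_pow, ← abs_pow, h1]
    exact absurd h2 hpow.ne'
  have hint : (e : ℚ) * (y ^ d - x ^ d) = (((fc d c y).num - (fc d c x).num : ℤ) : ℚ) := by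
    rw [← hdiff, mul_sub, n1, n2, Int.cast_sub]
  have hz : (fc d c y).num - (fc d c x).num ≠ 0 := by
    intro h0
    rw [h0, Int.cast_zero] at hint
    exact (mul_ne_zero he0 hne) hint
  have h3 : (1 : ℚ) ≤ |(((fc d c y).num - (fc d c x).num : ℤ) : ℚ)| := by
    rw [← Int.cast_abs]
    exact_mod_cast Int.one_le_abs hz
  rw [← hint, abs_mul, Nat.abs_cast] at h3
  have h4 : |y ^ d - x ^ d| ≤ 2 * |y| ^ d := by
    have := abs_sub (y ^ d) (x ^ d)
    rw [abs_pow, abs_pow] at this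
    linarith
  have he' : (0 : ℚ) ≤ e := by exact_mod_cast he.le
  calc (1 : ℚ) ≤ e * |y ^ d - x ^ d| := h3
    _ ≤ e * (2 * |y| ^ d) := mul_le_mul_of_nonneg_left h4 he'
    _ = 2 * e * |y| ^ d := by ring

theorem factB {d : ℕ} (hd : 4 ≤ d) {c y : ℚ} (hy : Pre d c y) (hc : 2 ^ d < |c|) :
    |c| ≤ 2 * |y| ^ d := by
  have hd0 : d ≠ 0 := by omega
  have hb := bound hd (pre_fc hy)
  have h1c : (1 : ℚ) ≤ |c| := by
    have : (1 : ℚ) ≤ 2 ^ d := one_le_pow₀ (by norm_num)
    linarith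
  rw [max_eq_left h1c] at hb
  have hf : |fc d c y| ≤ |c| / 2 := by
    by_contra hcon
    push Not at hcon
    have h2 : (|c| / 2) ^ d < |fc d c y| ^ d :=
      pow_lt_pow_left₀ hcon (by positivity) hd0
    have h3 : (|c| / 2) ^ d < 2 ^ d * |c| := lt_of_lt_of_le h2 hb
    rw [div_pow, div_lt_iff₀ (by positivity)] at h3
    obtain ⟨n, rfl⟩ : ∃ n, d = n + 4 := ⟨d - 4, by omega⟩
    have h4 : ((2 : ℚ) ^ (n + 4)) ^ (n + 3) ≤ |c| ^ (n + 3) :=
      pow_le_pow_left₀ (by positivity) hc.le _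
    have h5 : (2 : ℚ) ^ (n + 4) * 2 ^ (n + 4) ≤ (2 ^ (n + 4)) ^ (n + 3) := by
      rw [← pow_two]
      exact pow_le_pow_right₀ (one_le_pow₀ (by norm_num)) (by omega)
    have h6 : |c| ^ (n + 4) = |c| ^ (n + 3) * |c| := pow_succ _ _
    rw [h6] at h3
    have h7 : (2 : ℚ) ^ (n + 4) * 2 ^ (n + 4) * |c| ≤ |c| ^ (n + 3) * |c| :=
      mul_le_mul_of_nonneg_right (h5.trans h4) (abs_nonneg c)
    have h8 : (2 : ℚ) ^ (n + 4) * |c| * 2 ^ (n + 4) = 2 ^ (n + 4) * 2 ^ (n + 4) * |c| := by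
      ring
    rw [h8] at h3
    exact absurd h7 (not_le.2 h3)
  have h9 : |c| ≤ |fc d c y| + |y| ^ d := by
    have h10 : c = fc d c y - y ^ d := by
      unfold fc
      ring
    have h11 := abs_sub (fc d c y) (y ^ d)
    rw [← h10, abs_pow] at h11
    exact h11
  linarith

/-- the height of `c` -/
theorem height {d e : ℕ} {c : ℚ} (he : 0 < e) (hc : c.den = e ^ d) :
    logHeight₁ c = d * Real.log e + Real.log (max |(c : ℝ)| 1) := by
  have he' : (0 : ℝ) < e := by exact_mod_cast he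
  have h1 : (c.num : ℝ) = (e : ℝ) ^ d * (c : ℝ) := by
    have := Rat.mul_den_eq_num c
    rw [hc] at this
    have h2 : ((c * ((e ^ d : ℕ) : ℚ) : ℚ) : ℝ) = ((c.num : ℚ) : ℝ) := by rw [this]
    push_cast at h2
    rw [← h2, mul_comm]
  have h2 : ((max c.num.natAbs c.den : ℕ) : ℝ) = (e : ℝ) ^ d * max |(c : ℝ)| 1 := by
    rw [Nat.cast_max, hc, mul_max_of_nonneg _ _ (by positivity), mul_one, Nat.cast_pow]
    have h3 : ((c.num.natAbs : ℕ) : ℝ) = |(c.num : ℝ)| := by
      rw [Nat.cast_natAbs, Int.cast_abs]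
    rw [h3, h1, abs_mul, abs_of_pos (show (0 : ℝ) < (e : ℝ) ^ d by positivity)]
  rw [Rat.logHeight₁_eq_log_max, h2, Real.log_mul (by positivity), Real.log_pow]
  have : (0 : ℝ) < max |(c : ℝ)| 1 := lt_of_lt_of_le one_pos (le_max_right _ _)
  exact this.ne'

theorem lognum {e : ℕ} {x : ℚ} (he : 0 < e) (hx : x.den = e) (h0 : x ≠ 0) :
    Real.log |(x.num : ℝ)| = Real.log e + Real.log |(x : ℝ)| := by
  have he' : (0 : ℝ) < e := by exact_mod_cast he
  have h1 : (x.num : ℝ) = (e : ℝ) * (x : ℝ) := by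
    have := Rat.mul_den_eq_num x
    rw [hx] at this
    have h2 : ((x * (e : ℚ) : ℚ) : ℝ) = ((x.num : ℚ) : ℝ) := by rw [this]
    push_cast at h2
    rw [← h2, mul_comm]
  have hx0 : |(x : ℝ)| ≠ 0 := abs_ne_zero.2 (by exact_mod_cast h0)
  rw [h1, abs_mul, abs_of_pos he', Real.log_mul he'.ne' hx0]

end SIZ_

open SIZ_ in
theorem p_SIZ (hDEN : T_DEN) : T_SIZ := by
  intro d hd
  have hd0 : d ≠ 0 := by omega
  have hdr : (4 : ℝ) ≤ d := by exact_mod_cast hd
  have hdp : (0 : ℝ) < d := by linarith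
  have hl2 : 0 ≤ Real.log 2 := Real.log_nonneg (by norm_num)
  refine ⟨2 * Real.log 2, fun c x y hx hy => ?_⟩
  obtain ⟨e, he, hc, hden⟩ := hDEN d c x (by omega) hx
  have hh := height he hc
  have he1 : (1 : ℝ) ≤ e := by exact_mod_cast he
  have hle : 0 ≤ Real.log e := Real.log_nonneg he1
  have hm1 : (1 : ℝ) ≤ max |(c : ℝ)| 1 := le_max_right _ _
  have hm0 : (0 : ℝ) < max |(c : ℝ)| 1 := by linarith
  have hlm : 0 ≤ Real.log (max |(c : ℝ)| 1) := Real.log_nonneg hm1
  have hhd : logHeight₁ c / d = Real.log e + Real.log (max |(c : ℝ)| 1) / d := by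
    rw [hh]
    field_simp
  constructor
  · intro hx0
    have hb := bound hd hx
    have hb' : |(x : ℝ)| ^ d ≤ 2 ^ d * max |(c : ℝ)| 1 := by exact_mod_cast hb
    have hxp : 0 < |(x : ℝ)| := abs_pos.2 (by exact_mod_cast hx0)
    have h1 := Real.log_le_log (by positivity) hb'
    rw [Real.log_mul (by positivity) hm0.ne', Real.log_pow, Real.log_pow] at h1
    have h2 : Real.log |(x : ℝ)| ≤ Real.log 2 + Real.log (max |(c : ℝ)| 1) / d := by
      rw [← mul_le_mul_iff_right₀ hdp, mul_add, mul_div_cancel₀ _ hdp.ne']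
      exact h1
    rw [lognum he (hden x hx) hx0, hhd]
    linarith
  · intro hxy
    have hy0 : y ≠ 0 := by
      rintro rfl
      rw [abs_zero] at hxy
      exact absurd hxy (not_lt.2 (abs_nonneg x))
    have hyp : 0 < |(y : ℝ)| := abs_pos.2 (by exact_mod_cast hy0)
    rw [lognum he (hden y hy) hy0]
    have hinv : 0 ≤ 1 / (d : ℝ) := by positivity
    have hinv1 : 1 / (d : ℝ) ≤ 1 := by
      rw [div_le_one hdp]
      linarith
    by_cases hcs : |c| ≤ 2 ^ d
    · have hA := factA hd he hden hx hy hxy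
      have hA' : (1 : ℝ) ≤ 2 * (e : ℝ) * |(y : ℝ)| ^ d := by exact_mod_cast hA
      have h1 := Real.log_le_log one_pos hA'
      rw [Real.log_one, Real.log_mul (by positivity) (by positivity),
        Real.log_mul (by norm_num) (by positivity), Real.log_pow] at h1
      have hcs' : max |(c : ℝ)| 1 ≤ 2 ^ d := by
        refine max_le (by exact_mod_cast hcs) (one_le_pow₀ (by norm_num))
      have h2 := Real.log_le_log hm0 hcs'
      rw [Real.log_pow] at h2
      have h3 : logHeight₁ c / d ≤ Real.log e + Real.log 2 := by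
        rw [hhd]
        have : Real.log (max |(c : ℝ)| 1) / d ≤ Real.log 2 := by
          rw [div_le_iff₀ hdp, mul_comm]
          exact h2
        linarith
      have h4 : -(1 / (d : ℝ) * (Real.log 2 + Real.log e)) ≤ Real.log |(y : ℝ)| := by
        rw [← mul_le_mul_iff_right₀ hdp]
        have : (d : ℝ) * -(1 / (d : ℝ) * (Real.log 2 + Real.log e)) =
            -(Real.log 2 + Real.log e) := by
          field_simp
        rw [this]
        linarith
      have h5 : (1 - 1 / (d : ℝ)) * (logHeight₁ c / d) ≤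
          (1 - 1 / (d : ℝ)) * (Real.log e + Real.log 2) :=
        mul_le_mul_of_nonneg_left h3 (by linarith)
      nlinarith
    · push Not at hcs
      have hB := factB hd hy hcs
      have hB' : |(c : ℝ)| ≤ 2 * |(y : ℝ)| ^ d := by exact_mod_cast hB
      have h1c : (1 : ℝ) ≤ |(c : ℝ)| := by
        have h6 : (1 : ℚ) ≤ |c| := by
          have : (1 : ℚ) ≤ 2 ^ d := one_le_pow₀ (by norm_num)
          linarith
        exact_mod_cast h6
      rw [max_eq_left h1c] at hhd hlm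
      have h1 := Real.log_le_log (by linarith) hB'
      rw [Real.log_mul (by norm_num) (by positivity), Real.log_pow] at h1
      have h2 : (Real.log |(c : ℝ)| - Real.log 2) / d ≤ Real.log |(y : ℝ)| := by
        rw [div_le_iff₀ hdp]
        linarith
      have h3 : Real.log 2 / d ≤ Real.log 2 := div_le_self hl2 (by linarith)
      rw [sub_div] at h2
      have h4 : 0 ≤ Real.log |(c : ℝ)| / d := by positivity
      have h5 : 0 ≤ 1 / (d : ℝ) * (Real.log e + Real.log |(c : ℝ)| / d) := by positivity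
      rw [hhd]
      nlinarith

end Pool.Agent.HMW
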