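import Pool.Agent.HMW.TargetsG

set_option autoImplicit false

/-!
# HMW: assembly
-/

namespace Pool.Agent.HMW

theorem p_UNI : T_EVEN → T_INTC → T_ODD → T_FOUR → T_UNI := by
  intro hev hint hodd hfour d hd
  rcases Nat.even_or_odd d with he | ho
  · have hd4 : 4 ≤ d := by
      rcases he with ⟨k, hk⟩
      omega
    by_cases h4 : d = 4
    · subst h4
      exact ⟨4, fun c s hs => hfour c s hs⟩
    · have hd6 : 6 ≤ d := by
        rcases he with ⟨k, hk⟩
        omega
      obtain ⟨B, hB⟩ := hev d hd6 he
      refine ⟨max B 5, fun c s hs => ?_⟩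
      by_cases hc : c.den = 1
      · exact (hint d c hd4 he hc s hs).trans (le_max_right _ _)
      · exact (hB c hc s hs).trans (le_max_left _ _)
  · exact ⟨d, fun c s hs => hodd d c hd ho s hs⟩

end Pool.Agent.HMW
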