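import Pool.Agent.HMW.TargetsG

/-!
# VAL: valuations of points with finite orbit
-/

set_option autoImplicit false

open Polynomial NumberField IsDedekindDomain
open scoped WithZero

namespace Pool.Agent.HMW

namespace VAL_

variable {L : Type} [Field L] {w : Valuation L ℤᵐ⁰} {d : ℕ} {c : L}

lemma step (hd : 2 ≤ d) {y : L} (h1 : 1 < w y) (h2 : w c < w y ^ d) :
    1 < w (y ^ d + c) ∧ w c < w (y ^ d + c) ^ d ∧ w y < w (y ^ d + c) := by
  have h3 : w (y ^ d + c) = w y ^ d := by
    rw [Valuation.map_add_eq_of_lt_left, map_pow]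
    rwa [map_pow]
  have h4 : w y < w y ^ d := by
    conv_lhs => rw [← pow_one (w y)]
    exact pow_lt_pow_right₀ h1 (by omega)
  have h5 : w y ^ d < (w y ^ d) ^ d := by
    conv_lhs => rw [← pow_one (w y ^ d)]
    exact pow_lt_pow_right₀ (h1.trans h4) (by omega)
  rw [h3]
  exact ⟨h1.trans h4, h2.trans h5, h4⟩

lemma escape (hd : 2 ≤ d) {y : L} (h1 : 1 < w y) (h2 : w c < w y ^ d) :
    ¬ (Set.range fun k : ℕ => (fun y : L => y ^ d + c)^[k] y).Finite := by
  have h3 : ∀ k : ℕ, 1 < w ((fun y : L => y ^ d + c)^[k] y) ∧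
      w c < w ((fun y : L => y ^ d + c)^[k] y) ^ d := by
    intro k
    induction k with
    | zero => exact ⟨h1, h2⟩
    | succ k ih =>
      rw [Function.iterate_succ_apply']
      have h := step hd ih.1 ih.2
      exact ⟨h.1, h.2.1⟩
  have h4 : StrictMono fun k : ℕ => w ((fun y : L => y ^ d + c)^[k] y) := by
    refine strictMono_nat_of_lt_succ fun k => ?_
    rw [Function.iterate_succ_apply']
    exact (step hd (h3 k).1 (h3 k).2).2.2
  have h5 : Function.Injective fun k : ℕ => (fun y : L => y ^ d + c)^[k] y := by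
    intro a b hab
    exact h4.injective (congrArg w hab)
  exact Set.infinite_range_of_injective h5

end VAL_

/-- VAL: valuations of points with finite orbit. -/
theorem p_VAL : T_VAL := by
  intro L _ w d c x hd hfin
  refine ⟨fun hc => ?_, fun hc => ?_⟩
  · by_contra hx
    push Not at hx
    exact VAL_.escape hd hx (hc.trans_lt (one_lt_pow₀ hx (by omega))) hfin
  · by_contra hx
    rcases lt_or_gt_of_ne hx with h | h
    · have h1 : w (x ^ d + c) = w c := by
        rw [Valuation.map_add_eq_of_lt_right]
        rwa [map_pow]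
      have h2 : w c < w c ^ d := by
        conv_lhs => rw [← pow_one (w c)]
        exact pow_lt_pow_right₀ hc (by omega)
      refine VAL_.escape hd (y := x ^ d + c) (c := c) (by rw [h1]; exact hc)
        (by rw [h1]; exact h2) (hfin.subset ?_)
      rintro _ ⟨k, rfl⟩
      exact ⟨k + 1, by simp only [Function.iterate_succ_apply]⟩
    · refine VAL_.escape hd ?_ h hfin
      by_contra h3
      push Not at h3
      have h4 : w x ^ d ≤ 1 := pow_le_one₀ zero_le h3
      exact absurd (hc.trans h) (not_lt.2 h4)

end Pool.Agent.HMW
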