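import Pool.Agent.HMW.All
import Pool.Agent.HMW.VAL
import Pool.Agent.HMW.PSB
import Pool.Agent.HMW.PSA
import Pool.Agent.HMW.PSC
import Pool.Agent.HMW.PS
import Pool.Agent.HMW.DEN
import Pool.Agent.HMW.GCA
import Pool.Agent.HMW.GCB
import Pool.Agent.HMW.SIZ
import Pool.Agent.HMW.HTX
import Pool.Agent.HMW.HQK
import Pool.Agent.HMW.PTA
import Pool.Agent.HMW.FLD
import Pool.Agent.HMW.CURV
import Pool.Agent.HMW.CNT
import Pool.Agent.HMW.EVEN
import Pool.Agent.HMW.INTC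
import Pool.Agent.HMW.ODD
import Pool.Agent.HMW.FOUR
import Pool.Agent.HMW.UNI

set_option autoImplicit false

/-!
# HMW: assembly of part G (dynamics over the rationals)
-/

namespace Pool.Agent.HMW

theorem all_PSA : T_PSA := p_PSA p_VAL
theorem all_PS : T_PS := p_PS (p_PSB p_VAL) all_PSA (p_PSC p_VAL)
theorem all_DEN : T_DEN := p_DEN p_VAL
theorem all_HTX : T_HTX := p_HTX all_DEN (p_GCA all_PSA p_VAL) p_GCB (p_SIZ all_DEN)
theorem all_CURV : T_CURV := p_CURV (p_PTA all_PS p_SEL) p_FLD p_HQK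
theorem all_CNT : T_CNT := p_CNT all_GAP all_CURV all_HTX
theorem all_UNI : T_UNI := p_UNI (p_EVEN all_CNT all_DEN) (p_INTC all_DEN) p_ODD p_FOUR

end Pool.Agent.HMW
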