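import Pool.Agent.HMW.TargetsK

set_option autoImplicit false
set_option linter.unusedVariables false

/-!
# KAR: bounds at arbitrary places
-/

open Polynomial Height Height.AdmissibleAbsValues NumberField IsDedekindDomain
open scoped Classical WithZero

noncomputable section

namespace Pool.Agent.HMW

namespace KAR_

variable {L : Type} [Field L]

theorem preK_step {d : ℕ} {c x : L} (h : PreK d c x) : PreK d c (fk d c x) := by
  apply h.subset
  rintro _ ⟨k, rfl⟩
  exact ⟨k + 1, by simp only [Function.iterate_succ_apply]⟩

theorem exists_M (v : AbsoluteValue L ℝ) {d : ℕ} (hd : 2 ≤ d) (c : L) :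
    ∃ M : ℝ, 1 ≤ M ∧ M ^ d = max 1 (v c) ∧ Real.log M = Real.log (max 1 (v c)) / d := by
  have h1 : 1 ≤ max 1 (v c) := le_max_left _ _
  have h0 : 0 < max 1 (v c) := lt_of_lt_of_le one_pos h1
  have hd0 : (d : ℝ) ≠ 0 := by
    have : (0 : ℝ) < d := by exact_mod_cast (by omega : 0 < d)
    exact this.ne'
  refine ⟨(max 1 (v c)) ^ (1 / (d : ℝ)), ?_, ?_, ?_⟩
  · exact Real.one_le_rpow h1 (by positivity)
  · rw [← Real.rpow_natCast, ← Real.rpow_mul h0.le, one_div, inv_mul_cancel₀ hd0, Real.rpow_one]
  · rw [Real.log_rpow h0]
    ring

theorem bound (v : AbsoluteValue L ℝ) {d : ℕ} (hd : 2 ≤ d) {c x : L} {M : ℝ} (hM : 1 ≤ M)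
    (hMd : M ^ d = max 1 (v c)) (h : PreK d c x) : v x ≤ 2 * M := by
  by_contra hcon
  push Not at hcon
  have hcM : v c ≤ M ^ d := hMd ▸ le_max_right _ _
  -- one step
  have step : ∀ y : L, 2 * M < v y → 3 / 2 * v y ≤ v (fk d c y) := by
    intro y hy
    have hy0 : 0 < v y := by linarith
    have h1 : v (y ^ d) ≤ v (fk d c y) + v c := by
      have : y ^ d = fk d c y - c := by
        unfold fk
        ring
      rw [this]
      exact v.sub_le_add _ _
    rw [map_pow] at h1
    have h2 : (2 * M) ^ d ≤ v y ^ d := pow_le_pow_left₀ (by linarith) hy.le d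
    have h3 : (4 : ℝ) * M ^ d ≤ (2 * M) ^ d := by
      rw [mul_pow]
      have : (4 : ℝ) ≤ 2 ^ d := by
        calc (4 : ℝ) = 2 ^ 2 := by norm_num
          _ ≤ 2 ^ d := pow_le_pow_right₀ (by norm_num) hd
      exact mul_le_mul_of_nonneg_right this (by positivity)
    have h4 : v y ^ 2 ≤ v y ^ d := pow_le_pow_right₀ (by linarith) hd
    have h5 : 2 * v y ≤ v y ^ 2 := by nlinarith
    linarith
  have hit : ∀ k : ℕ, (3 / 2 : ℝ) ^ k * v x ≤ v ((fk d c)^[k] x) ∧ 2 * M < v ((fk d c)^[k] x) := by
    intro k
    induction k with
    | zero => simpa using hcon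
    | succ k ih =>
      rw [Function.iterate_succ_apply']
      have h1 := step _ ih.2
      refine ⟨?_, ?_⟩
      · calc (3 / 2 : ℝ) ^ (k + 1) * v x = 3 / 2 * ((3 / 2) ^ k * v x) := by ring
          _ ≤ 3 / 2 * v ((fk d c)^[k] x) := by linarith [ih.1]
          _ ≤ _ := h1
      · have := ih.2
        linarith
  obtain ⟨B, hB⟩ := (h.image v).bddAbove
  have hx : 1 ≤ v x := by linarith
  obtain ⟨k, hk⟩ := pow_unbounded_of_one_lt B (by norm_num : (1 : ℝ) < 3 / 2)
  have h1 : v ((fk d c)^[k] x) ≤ B := hB ⟨_, ⟨k, rfl⟩, rfl⟩
  have h2 := (hit k).1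
  have h3 : (3 / 2 : ℝ) ^ k * 1 ≤ (3 / 2 : ℝ) ^ k * v x :=
    mul_le_mul_of_nonneg_left hx (by positivity)
  linarith

end KAR_

open KAR_ in
theorem p_KAR : T_KAR := by
  intro L _ v d c x z hd
  obtain ⟨M, hM, hMd, hlog⟩ := exists_M v hd c
  have hM0 : 0 < M := by linarith
  have hl2 : 0 < Real.log 2 := Real.log_pos (by norm_num)
  have hlM : 0 ≤ Real.log M := Real.log_nonneg hM
  have hd2 : (2 : ℝ) ≤ d := by exact_mod_cast hd
  have hlog2M : Real.log (2 * M) = Real.log (max 1 (v c)) / d + Real.log 2 := by
    rw [Real.log_mul (by norm_num) hM0.ne', hlog, add_comm]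
  refine ⟨?_, ?_⟩
  · intro hx
    have h1 := bound v hd hM hMd hx
    rw [← hlog2M]
    apply Real.log_le_log (lt_of_lt_of_le one_pos (le_max_left _ _))
    exact max_le (by linarith) h1
  · intro hx hz hne
    have h1 := bound v hd hM hMd hx
    have h2 := bound v hd hM hMd hz
    have h3 := bound v hd hM hMd (preK_step hx)
    have h4 := bound v hd hM hMd (preK_step hz)
    have hsub : x ^ d - z ^ d ≠ 0 := sub_ne_zero.2 hne
    have hvs : 0 < v (x ^ d - z ^ d) := v.pos hsub
    have h5 : v (x ^ d - z ^ d) ≤ 4 * M := by
      have : x ^ d - z ^ d = fk d c x - fk d c z := by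
        unfold fk
        ring
      rw [this]
      exact (v.sub_le_add _ _).trans (by linarith)
    have hmax : 0 < max (v x) (v z) := by
      by_contra hcon
      push Not at hcon
      have hx0 : v x = 0 := le_antisymm ((le_max_left _ _).trans hcon) (v.nonneg _)
      have hz0 : v z = 0 := le_antisymm ((le_max_right _ _).trans hcon) (v.nonneg _)
      apply hne
      rw [(v.eq_zero).1 hx0, (v.eq_zero).1 hz0]
    have hlog4 : Real.log 4 = 2 * Real.log 2 := by
      rw [show (4 : ℝ) = 2 ^ 2 by norm_num, Real.log_pow]
      norm_num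
    have hA : Real.log (v (x ^ d - z ^ d)) ≤ Real.log (max 1 (v c)) / d + 2 * Real.log 2 := by
      have := Real.log_le_log hvs h5
      rw [Real.log_mul (by norm_num) hM0.ne', hlog4, hlog] at this
      linarith
    refine ⟨hA, ?_, ?_⟩
    · rw [← hlog2M]
      exact Real.log_le_log hmax (max_le h1 h2)
    · rw [← hlog] at hA ⊢
      set D := Real.log (v (x ^ d - z ^ d)) with hD
      set m := Real.log (max (v x) (v z)) with hm
      by_cases hc : v c < 16
      · -- small `c`
        have h6 : v (x ^ d - z ^ d) ≤ 2 * max (v x) (v z) ^ d := by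
          have e1 : v (x ^ d) ≤ max (v x) (v z) ^ d := by
            rw [map_pow]
            exact pow_le_pow_left₀ (v.nonneg _) (le_max_left _ _) d
          have e2 : v (z ^ d) ≤ max (v x) (v z) ^ d := by
            rw [map_pow]
            exact pow_le_pow_left₀ (v.nonneg _) (le_max_right _ _) d
          exact (v.sub_le_add _ _).trans (by linarith)
        have h7 : D ≤ Real.log 2 + d * m := by
          have := Real.log_le_log hvs h6
          rwa [Real.log_mul (by norm_num) (by positivity), Real.log_pow] at this
        have h8 : d * Real.log M ≤ 4 * Real.log 2 := by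
          have e1 : d * Real.log M = Real.log (max 1 (v c)) := by
            rw [hlog]
            field_simp
          rw [e1]
          have e2 : Real.log 16 = 4 * Real.log 2 := by
            rw [show (16 : ℝ) = 2 ^ 4 by norm_num, Real.log_pow]
            norm_num
          rw [← e2]
          exact Real.log_le_log (lt_of_lt_of_le one_pos (le_max_left _ _))
            (max_le (by norm_num) hc.le)
        have hdpos : (0 : ℝ) < d := by linarith
        -- multiply by `d`
        have h9 : D / d ≤ Real.log 2 / 2 + m := by
          rw [div_le_iff₀ hdpos]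
          nlinarith
        have h10 : Real.log M - Real.log M / d ≤ Real.log 2 := by
          have e1 : Real.log M - Real.log M / d = Real.log M * (d - 1) / d := by
            field_simp
          rw [e1, div_le_iff₀ hdpos]
          have e3 : Real.log M ≤ 4 * Real.log 2 / d := by
            rw [le_div_iff₀ hdpos]
            linarith
          have e4 : Real.log M * (d - 1) ≤ 4 * Real.log 2 / d * (d - 1) :=
            mul_le_mul_of_nonneg_right e3 (by linarith)
          have e5 : 4 * Real.log 2 / d * (d - 1) ≤ Real.log 2 * d := by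
            rw [div_mul_eq_mul_div, div_le_iff₀ hdpos]
            nlinarith [sq_nonneg ((d : ℝ) - 2)]
          linarith
        have e6 : (D - Real.log M) / d = D / d - Real.log M / d := by ring
        rw [e6]
        linarith
      · -- large `c`
        push Not at hc
        have hmc : max 1 (v c) = v c := max_eq_right (by linarith)
        rw [hmc] at hMd
        have h6 : 4 * M ≤ v c := by
          rcases le_total M 4 with h | h
          · linarith
          · have : M ^ 2 ≤ M ^ d := pow_le_pow_right₀ hM hd
            nlinarith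
        have h7 : v c / 2 ≤ v x ^ d := by
          have e1 : v c ≤ v (fk d c x) + v (x ^ d) := by
            have : c = fk d c x - x ^ d := by
              unfold fk
              ring
            conv_lhs => rw [this]
            exact v.sub_le_add _ _
          rw [map_pow] at e1
          linarith
        have hvx : 0 < v x := by
          by_contra hcon
          have hx0 : v x = 0 := le_antisymm (not_lt.1 hcon) (v.nonneg _)
          rw [hx0, zero_pow (by omega)] at h7
          linarith
        have h8 : d * Real.log M - Real.log 2 ≤ d * Real.log (v x) := by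
          have := Real.log_le_log (by linarith : 0 < v c / 2) h7
          rw [Real.log_div (by linarith) (by norm_num), ← hMd, Real.log_pow, Real.log_pow] at this
          exact this
        have h9 : Real.log (v x) ≤ m := Real.log_le_log hvx (le_max_left _ _)
        have hdpos : (0 : ℝ) < d := by linarith
        have h10 : Real.log M ≤ m + Real.log 2 / 2 := by
          have : d * Real.log M ≤ d * (m + Real.log 2 / 2) := by nlinarith
          exact le_of_mul_le_mul_left this hdpos
        have h11 : (D - Real.log M) / d ≤ Real.log 2 := by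
          rw [div_le_iff₀ hdpos]
          nlinarith
        linarith

end Pool.Agent.HMW
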