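import Pool.Agent.HMW.TargetsK

set_option autoImplicit false

/-!
# MP_c076ed_nt: boundedly many points are admissible with a given `z` (number fields)
-/

open Height Height.AdmissibleAbsValues NumberField

namespace Pool.Agent.HMW

namespace KCNT_

variable {L K : Type} [Field L] [Field K] (σ : L →+* K)

theorem fk_map (d : ℕ) (c x : L) : fk d (σ c) (σ x) = σ (fk d c x) := by
  unfold fk
  rw [map_add, map_pow]

theorem it_map (d : ℕ) (c : L) (k : ℕ) (x : L) :
    (fk d (σ c))^[k] (σ x) = σ ((fk d c)^[k] x) := by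
  induction k generalizing x with
  | zero => rfl
  | succ k ih => rw [Function.iterate_succ_apply, Function.iterate_succ_apply, fk_map, ih]

theorem pre_map (d : ℕ) (c x : L) (h : PreK d c x) : PreK d (σ c) (σ x) := by
  unfold PreK at h ⊢
  refine (h.image σ).subset ?_
  rintro _ ⟨k, rfl⟩
  exact ⟨(fk d c)^[k] x, ⟨k, rfl⟩, (it_map σ d c k x).symm⟩

theorem per_map (d : ℕ) (c x : L) : PerK d (σ c) (σ x) ↔ PerK d c x := by
  unfold PerK
  rw [Function.mem_periodicPts, Function.mem_periodicPts]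
  refine exists_congr fun n => and_congr Iff.rfl ?_
  unfold Function.IsPeriodicPt Function.IsFixedPt
  rw [it_map]
  exact σ.injective.eq_iff

theorem admA_map (d : ℕ) (c x z : L) (h : AdmKA d c x z) : AdmKA d (σ c) (σ x) (σ z) := by
  obtain ⟨h1, h2, h3, h4⟩ := h
  refine ⟨(per_map σ d c z).2 h1, pre_map σ d c x h2, fun k hk => ?_, ?_⟩
  · rw [it_map, it_map] at hk
    exact h3 k (σ.injective hk)
  · rw [fk_map, per_map, per_map]
    exact h4

theorem admB_map (d : ℕ) (c x z : L) (h : AdmKB d c x z) : AdmKB d (σ c) (σ x) (σ z) := by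
  obtain ⟨h1, h2, h3, h4, k, h5⟩ := h
  refine ⟨by rw [fk_map, h1], pre_map σ d c x h2, ?_, ?_, k, ?_⟩
  · rw [per_map]
    exact h3
  · rw [fk_map, per_map]
    exact h4
  · rw [it_map, h5]

theorem adm_map (d : ℕ) (c x z : L) (h : AdmK d c x z) : AdmK d (σ c) (σ x) (σ z) := by
  rcases h with h | h
  · exact Or.inl (admA_map σ d c x z h)
  · exact Or.inr (admB_map σ d c x z h)

/-- The arithmetic of the window. -/
theorem win (q n H C1 C2 : ℝ) (hq : 1 ≤ 8 / 5 * q) (hn : 0 ≤ n) (hH : 0 ≤ H) :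
    n * (H + C1) + C2 ≤ 8 / 5 * (n * (q * H - C1) - C2) + 13 / 5 * (n * C1 + C2) := by
  have h1 : 0 ≤ (8 / 5 * q - 1) * (n * H) := mul_nonneg (by linarith) (mul_nonneg hn hH)
  nlinarith [h1]

end KCNT_

open KCNT_

theorem p_KCNT : T_KGU → T_KHT → T_KCV5 → T_KCV6 → T_KCNT := by
  intro hG hX h5 h6 L _ _ d ζ hd hζ
  classical
  have hC : CVP d L := by
    rcases Nat.lt_or_ge d 6 with h | h
    · have hd5 : d = 5 := by omega
      subst hd5
      exact h5 L ζ hζ
    · exact h6 L d ζ h hζ
  obtain ⟨K, i1, i2, i3, N, m, θ, κ, lam, C, G, hN, hlam, hθ, hκ, hGc, hP⟩ := hC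
  obtain ⟨C1, hC1⟩ := hX K d (algebraMap L K ζ) (by omega)
    (hζ.map_of_injective (algebraMap L K).injective)
  choose B hB using fun i : Fin m => hG K N hN (θ i) (κ i) (hθ i) (hκ i)
    (13 / 5 * (lam * C1 + C))
  refine ⟨∑ i, 2 * B i, ?_⟩
  intro c z hz s hs
  choose I P hP1 hP2 hP3 using fun x : s => hP c x z (hs x x.2) hz
  let H : ℝ := logHeight₁ (algebraMap L K c) / (d : ℝ)
  have hH : 0 ≤ H := div_nonneg (zero_le_logHeight₁ _) (Nat.cast_nonneg _)
  let q : ℝ := (1 - 1 / (d : ℝ)) ^ 2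
  have hq : 1 ≤ 8 / 5 * q := by
    have h6 : (5 : ℝ) ≤ (d : ℝ) := by exact_mod_cast hd
    have h7 : 1 / (d : ℝ) ≤ 1 / 5 := one_div_le_one_div_of_le (by norm_num) h6
    have h8 : (4 / 5 : ℝ) ≤ 1 - 1 / (d : ℝ) := by linarith
    have h9 : (4 / 5 : ℝ) ^ 2 ≤ q := pow_le_pow_left₀ (by norm_num) h8 2
    nlinarith [h9]
  have hzK : algebraMap L K z ≠ 0 := by
    rw [Ne, map_eq_zero]
    exact hz
  have hk : ∀ i : Fin m, ((Finset.univ : Finset s).filter fun x : s => I x = i).card
      ≤ 2 * B i := by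
    intro i
    refine (Finset.card_le_mul_card_image (f := P) _ 2 ?_).trans
      (Nat.mul_le_mul le_rfl (hB i (lam * (q * H - C1) - C) _ ?_))
    · intro Q hQ
      refine le_trans ?_ (hGc i Q.1)
      refine Finset.card_le_card_of_injOn
        (fun x : s => algebraMap L K ((x : L) / z)) ?_ ?_
      · intro x hx
        have hx1 := Finset.mem_filter.1 hx
        have hx2 := (Finset.mem_filter.1 hx1.1).2
        have h := hP2 x
        rw [hx2, hx1.2] at h
        exact h
      · intro x _ y _ hxy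
        have h1 : (x : L) / z = (y : L) / z := (algebraMap L K).injective hxy
        apply Subtype.ext
        exact (div_left_inj' hz).1 h1
    · intro Q hQ
      obtain ⟨x, hx, rfl⟩ := Finset.mem_image.1 hQ
      have hx2 := (Finset.mem_filter.1 hx).2
      obtain ⟨hl, hu⟩ := hC1 (algebraMap L K c) (algebraMap L K x) (algebraMap L K z)
        (adm_map (algebraMap L K) d c x z (hs x x.2)) hzK
      have h3 := abs_le.1 (hP3 x)
      rw [map_div₀] at h3
      have h5 : lam * (q * H - C1) ≤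
          lam * logHeight₁ (algebraMap L K x / algebraMap L K z) :=
        mul_le_mul_of_nonneg_left hl hlam.le
      have h6 : lam * logHeight₁ (algebraMap L K x / algebraMap L K z) ≤ lam * (H + C1) :=
        mul_le_mul_of_nonneg_left hu hlam.le
      have h7 := win q lam H C1 C hq hlam.le hH
      refine ⟨?_, by linarith [h3.1], by linarith [h3.2]⟩
      have h8 := hP1 x
      rw [hx2] at h8
      exact h8
  have h9 : s.card = (Finset.univ : Finset s).card := by
    rw [Finset.card_univ, Fintype.card_coe]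
  rw [h9, Finset.card_eq_sum_card_fiberwise (f := I) (t := Finset.univ)
    (fun x _ => Finset.mem_coe.2 (Finset.mem_univ _))]
  exact Finset.sum_le_sum fun i _ => hk i

end Pool.Agent.HMW
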