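import Pool.Agent.HMW.TargetsK

/-!
# HMW, part K: curves for `d = 5` (KCV5)
-/

set_option autoImplicit false

open Polynomial Height Height.AdmissibleAbsValues NumberField

noncomputable section

namespace Pool.Agent.HMW

namespace KCV5_

lemma hadd {K : Type} [Field K] [NumberField K] (x a : K) :
    |logHeight₁ (x + a) - logHeight₁ x| ≤ totalWeight K * Real.log 2 + logHeight₁ a := by
  have h1 := logHeight₁_add_le x a
  have h2 := logHeight₁_sub_le (x + a) a
  rw [add_sub_cancel_right] at h2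
  rw [abs_le]
  constructor <;> linarith

lemma hmul {K : Type} [Field K] [NumberField K] (x a : K) (ha : a ≠ 0) :
    |logHeight₁ (a * x) - logHeight₁ x| ≤ logHeight₁ a := by
  have h1 := logHeight₁_mul_le a x
  have h2 := logHeight₁_mul_le a⁻¹ (a * x)
  rw [inv_mul_cancel_left₀ ha, logHeight₁_inv] at h2
  rw [abs_le]
  constructor <;> linarith

/-- the Moebius map -/
lemma hmoe {K : Type} [Field K] [NumberField K] (r b c : K) (hbc : c - b ≠ 0) (h : r - c ≠ 0) :
    |logHeight₁ ((r - b) / (r - c)) - logHeight₁ r| ≤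
      2 * (totalWeight K * Real.log 2) + logHeight₁ (1 : K) + logHeight₁ (c - b) +
        logHeight₁ (-c) := by
  have e1 : (r - b) / (r - c) = (c - b) * (r + -c)⁻¹ + 1 := by
    rw [← sub_eq_add_neg]
    field_simp
    ring
  have h1 := hadd ((c - b) * (r + -c)⁻¹) (1 : K)
  have h2 := hmul (r + -c)⁻¹ (c - b) hbc
  have h3 := hadd r (-c)
  rw [logHeight₁_inv] at h2
  rw [e1]
  rw [abs_le] at h1 h2 h3 ⊢
  constructor <;> linarith [h1.1, h1.2, h2.1, h2.2, h3.1, h3.2]

/-- the heights of the points -/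
lemma hpt {K : Type} [Field K] [NumberField K] (t a r b c : K) (ha : a ≠ 0) (hbc : c - b ≠ 0)
    (h : r - c ≠ 0) (he : r - b = a * t ^ 4 * (r - c)) :
    |logHeight₁ t - 1 / 4 * logHeight₁ r| ≤ logHeight₁ a +
      (2 * (totalWeight K * Real.log 2) + logHeight₁ (1 : K) + logHeight₁ (c - b) +
        logHeight₁ (-c)) := by
  have h1 := hmoe r b c hbc h
  have e1 : (r - b) / (r - c) = a * t ^ 4 := by
    rw [he, mul_div_assoc, div_self h, mul_one]
  rw [e1] at h1
  have h2 := hmul (t ^ 4) a ha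
  rw [logHeight₁_pow] at h2
  push_cast at h2
  rw [abs_le] at h1 h2 ⊢
  have g0 : (0 : ℝ) ≤ totalWeight K * Real.log 2 :=
    mul_nonneg (Nat.cast_nonneg _) (Real.log_nonneg (by norm_num))
  have g1 := zero_le_logHeight₁ (1 : K)
  have g2 := zero_le_logHeight₁ (c - b)
  have g3 := zero_le_logHeight₁ (-c)
  have g4 := zero_le_logHeight₁ a
  constructor <;> linarith [h1.1, h1.2, h2.1, h2.2]

/-- enumeration of the roots -/
lemma enum {K : Type} [Field K] (p : K[X]) (hm : p.Monic) (hsep : p.Separable)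
    (hs : p.Splits) (n : ℕ) (hn : p.natDegree = n) :
    ∃ θ : Fin n → K, Function.Injective θ ∧ ∀ t : K, p.eval t = ∏ i, (t - θ i) := by
  classical
  have hnd : p.roots.Nodup := nodup_roots hsep
  have hcard : p.roots.card = n := by
    rw [← hs.natDegree_eq_card_roots, hn]
  have hcard' : p.roots.toFinset.card = n := by
    rw [Multiset.toFinset_card_of_nodup hnd, hcard]
  set e := p.roots.toFinset.equivFinOfCardEq hcard' with he
  refine ⟨fun i => (e.symm i : K), ?_, ?_⟩
  · intro i j hij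
    exact e.symm.injective (Subtype.ext hij)
  · intro t
    have h1 := hs.eval_eq_prod_roots_of_monic hm t
    rw [h1]
    have h3 : (p.roots.map fun x => t - x).prod = ∏ x ∈ p.roots.toFinset, (t - x) := by
      rw [Finset.prod, Multiset.toFinset_val, hnd.dedup]
    rw [h3, ← Finset.prod_coe_sort]
    exact (Equiv.prod_comp e.symm (fun x : p.roots.toFinset => t - (x : K))).symm

/-- a number field over which finitely many separable polynomials split -/
lemma field {L : Type} [Field L] [NumberField L] {ι : Type} (S : Finset ι) (f : ι → L[X])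
    (hf : ∀ i ∈ S, (f i).Monic ∧ (f i).Separable) (n : ℕ) (hn : ∀ i ∈ S, (f i).natDegree = n) :
    ∃ (K : Type) (_ : Field K) (_ : NumberField K) (_ : Algebra L K), ∀ i ∈ S,
      ∃ θ : Fin n → K, Function.Injective θ ∧
        ∀ t : K, ((f i).map (algebraMap L K)).eval t = ∏ j, (t - θ j) := by
  set P : L[X] := ∏ i ∈ S, f i with hP
  have hP0 : P ≠ 0 := Finset.prod_ne_zero_iff.2 fun i hi => (hf i hi).1.ne_zero
  have hc : CharZero P.SplittingField :=
    charZero_of_injective_algebraMap (algebraMap L P.SplittingField).injective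
  have ht : IsScalarTower ℚ L P.SplittingField :=
    IsScalarTower.of_algebraMap_eq fun x => by
      rw [eq_ratCast, eq_ratCast, map_ratCast]
  have hfd : FiniteDimensional L P.SplittingField := inferInstance
  have hfq : FiniteDimensional ℚ P.SplittingField := FiniteDimensional.trans ℚ L P.SplittingField
  have hN : NumberField P.SplittingField := ⟨⟩
  refine ⟨P.SplittingField, inferInstance, hN, inferInstance, fun i hi => ?_⟩
  refine enum _ ((hf i hi).1.map _) ((hf i hi).2.map) ?_ n ?_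
  · have h1 : Splits (P.map (algebraMap L P.SplittingField)) := SplittingField.splits P
    refine h1.of_dvd ?_ ?_
    · exact (Polynomial.map_ne_zero_iff (algebraMap L P.SplittingField).injective).2 hP0
    · exact Polynomial.map_dvd _ (Finset.dvd_prod_of_mem _ hi)
  · rw [(hf i hi).1.natDegree_map, hn i hi]

/-- the product of two quartics -/
def pp {L : Type} [Field L] (α β : L) : L[X] := (X ^ 4 - C α) * (X ^ 4 - C β)

lemma pp_monic {L : Type} [Field L] (α β : L) : (pp α β).Monic :=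
  (monic_X_pow_sub_C _ (by norm_num)).mul (monic_X_pow_sub_C _ (by norm_num))

lemma pp_natDegree {L : Type} [Field L] (α β : L) : (pp α β).natDegree = 8 := by
  unfold pp
  rw [(monic_X_pow_sub_C α (by norm_num)).natDegree_mul (monic_X_pow_sub_C β (by norm_num)),
    natDegree_X_pow_sub_C, natDegree_X_pow_sub_C]

lemma pp_sep {L : Type} [Field L] [CharZero L] (α β : L) (h1 : α ≠ 0) (h2 : β ≠ 0)
    (h3 : α ≠ β) : (pp α β).Separable := by
  unfold pp
  refine Separable.mul (separable_X_pow_sub_C _ (by norm_num) h1)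
    (separable_X_pow_sub_C _ (by norm_num) h2) ?_
  refine ⟨C (β - α)⁻¹, -C (β - α)⁻¹, ?_⟩
  have h4 : β - α ≠ 0 := sub_ne_zero.2 h3.symm
  have h5 : (C (β - α)⁻¹ : L[X]) * (C β - C α) = 1 := by
    rw [← C_sub, ← C_mul, inv_mul_cancel₀ h4, C_1]
  linear_combination h5

lemma pp_eval {L : Type} [Field L] (α β t : L) :
    (pp α β).eval t = (t ^ 4 - α) * (t ^ 4 - β) := by
  simp [pp]

end KCV5_

open KCV5_

/-- curves for `d = 5` -/
theorem p_KCV5 (h : T_KPT) : T_KCV5 := by
  classical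
  intro L _ _ ζ hζ
  obtain ⟨A, hA, hP⟩ := h L 5 ζ (by norm_num) hζ
  have hz0 : ζ ≠ 0 := hζ.ne_zero (by norm_num)
  have hz1 : (1 : L) + ζ ≠ 0 := by
    intro h0
    have h4 : ζ = -1 := by
      rw [add_comm] at h0
      exact eq_neg_of_add_eq_zero_left h0
    have h5 : ζ ^ 2 = 1 := by
      rw [h4]
      norm_num
    have h6 := hζ.dvd_of_pow_eq_one 2 h5
    omega
  have hz2 : (1 : L) + ζ + ζ ^ 2 ≠ 0 := by
    intro h0
    have h5 : ζ ^ 3 = 1 := by linear_combination (ζ - 1) * h0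
    have h6 := hζ.dvd_of_pow_eq_one 3 h5
    omega
  have hz3 : ζ ^ 2 - ζ ≠ 0 := by
    intro h0
    have h1 : ζ * (ζ - 1) = 0 := by linear_combination h0
    rcases mul_eq_zero.1 h1 with h2 | h2
    · exact hz0 h2
    · exact hζ.ne_one (by norm_num) (sub_eq_zero.1 h2)
  obtain ⟨al, hal⟩ : ∃ al : L → L, al = fun a => (1 + ζ) / (ζ * a) := ⟨_, rfl⟩
  obtain ⟨be, hbe⟩ : ∃ be : L → L, be = fun a => (1 + ζ + ζ ^ 2) / (ζ * (1 + ζ) * a) := ⟨_, rfl⟩
  obtain ⟨K, iK, iNK, iA, hK⟩ := field A (fun a => pp (al a) (be a)) (by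
    intro a ha
    have ha0 := hA a ha
    refine ⟨pp_monic _ _, pp_sep _ _ ?_ ?_ ?_⟩
    · rw [hal]
      exact div_ne_zero hz1 (mul_ne_zero hz0 ha0)
    · rw [hbe]
      exact div_ne_zero hz2 (mul_ne_zero (mul_ne_zero hz0 hz1) ha0)
    · rw [hal, hbe]
      intro h0
      dsimp only at h0
      rw [div_eq_div_iff (mul_ne_zero hz0 ha0) (mul_ne_zero (mul_ne_zero hz0 hz1) ha0)] at h0
      have h1 : ζ * (ζ * a) = 0 := by linear_combination h0
      rcases mul_eq_zero.1 h1 with h2 | h2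
      · exact hz0 h2
      · rcases mul_eq_zero.1 h2 with h3 | h3
        · exact hz0 h3
        · exact ha0 h3) 8 (fun a _ => pp_natDegree _ _)
  choose θ₀ hθ using fun a : {a // a ∈ A} => hK a.1 a.2
  obtain ⟨m, e, -⟩ : ∃ (m : ℕ) (e : ({a // a ∈ A} × {a // a ∈ A} × {a // a ∈ A}) ≃ Fin m),
      True := ⟨_, Fintype.equivFin _, trivial⟩
  obtain ⟨B, hB⟩ : ∃ B : {a // a ∈ A} → ℝ, B = fun a => logHeight₁ (algebraMap L K a.1) +
      (2 * (totalWeight K * Real.log 2) + logHeight₁ (1 : K) +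
        logHeight₁ ((algebraMap L K ζ) ^ 2 - algebraMap L K ζ) +
        logHeight₁ (-(algebraMap L K ζ) ^ 2)) := ⟨_, rfl⟩
  have hB0 : ∀ a, 0 ≤ B a := by
    intro a
    rw [hB]
    have g0 : (0 : ℝ) ≤ totalWeight K * Real.log 2 :=
      mul_nonneg (Nat.cast_nonneg _) (Real.log_nonneg (by norm_num))
    have g1 := zero_le_logHeight₁ (1 : K)
    have g2 := zero_le_logHeight₁ ((algebraMap L K ζ) ^ 2 - algebraMap L K ζ)
    have g3 := zero_le_logHeight₁ (-(algebraMap L K ζ) ^ 2)
    have g4 := zero_le_logHeight₁ (algebraMap L K a.1)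
    dsimp only
    linarith
  have hinj : Function.Injective (algebraMap L K) := (algebraMap L K).injective
  refine ⟨K, iK, iNK, iA, 8, m, fun i => θ₀ (e.symm i).1, fun i => algebraMap L K
    (((e.symm i).2.1.1 * (e.symm i).2.2.1) / (ζ ^ 2 * (1 + ζ) * (e.symm i).1.1 ^ 2)),
    1 / 4, ∑ a, B a, fun i t => {(algebraMap L K ζ - algebraMap L K (e.symm i).1.1 * t ^ 4 *
      (algebraMap L K ζ) ^ 2) / (1 - algebraMap L K (e.symm i).1.1 * t ^ 4)}, by norm_num,
    by norm_num, fun i => (hθ _).1, ?_, ?_, ?_⟩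
  · intro i
    rw [Ne, _root_.map_eq_zero]
    exact div_ne_zero (mul_ne_zero (hA _ (e.symm i).2.1.2) (hA _ (e.symm i).2.2.2))
      (mul_ne_zero (mul_ne_zero (pow_ne_zero _ hz0) hz1) (pow_ne_zero _ (hA _ (e.symm i).1.2)))
  · intro i t
    rw [Finset.card_singleton]
    norm_num
  intro c x z hadm hz
  obtain ⟨hu1, a1, ha1, X1, hX1, E1⟩ := hP c x z hadm hz 1 2 (by norm_num) (by norm_num)
  obtain ⟨hu2, -⟩ := hP c x z hadm hz 2 2 (by norm_num) (by norm_num)
  obtain ⟨hu3, a2, ha2, X2, hX2, E3⟩ := hP c x z hadm hz 3 2 (by norm_num) (by norm_num)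
  obtain ⟨hu4, a3, ha3, X3, hX3, E4⟩ := hP c x z hadm hz 4 2 (by norm_num) (by norm_num)
  norm_num at E1 E3 E4
  have F3 : a2 * X2 ^ 4 = 1 + ζ - ζ * (a1 * X1 ^ 4) := by
    apply mul_right_cancel₀ hu2
    rw [← E3]
    linear_combination (-ζ) * E1
  have F4 : a3 * X3 ^ 4 = 1 + ζ + ζ ^ 2 - ζ * (1 + ζ) * (a1 * X1 ^ 4) := by
    apply mul_right_cancel₀ hu2
    rw [← E4]
    linear_combination (-(ζ * (1 + ζ))) * E1
  have ha10 := hA a1 ha1
  have hcurve : (a2 * a3) / (ζ ^ 2 * (1 + ζ) * a1 ^ 2) * ((X2 * X3) ^ 2) ^ 2 =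
      (X1 ^ 4 - al a1) * (X1 ^ 4 - be a1) := by
    have e1 : a2 * a3 * ((X2 * X3) ^ 2) ^ 2 = (a2 * X2 ^ 4) * (a3 * X3 ^ 4) := by ring
    rw [div_mul_eq_mul_div, e1, F3, F4, hal, hbe]
    field_simp
    ring
  obtain ⟨i, hi⟩ : ∃ i, e.symm i = (⟨a1, ha1⟩, ⟨a2, ha2⟩, ⟨a3, ha3⟩) :=
    ⟨e _, e.symm_apply_apply _⟩
  have er : x / z - ζ = a1 * X1 ^ 4 * (x / z - ζ ^ 2) := by
    field_simp
    linear_combination E1
  have er' : algebraMap L K (x / z) - algebraMap L K ζ = algebraMap L K a1 *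
      (algebraMap L K X1) ^ 4 * (algebraMap L K (x / z) - (algebraMap L K ζ) ^ 2) := by
    have h4 := congrArg (algebraMap L K) er
    rw [map_sub, map_mul, map_mul, map_pow, map_sub, map_pow] at h4
    exact h4
  have hz3' : (algebraMap L K ζ) ^ 2 - algebraMap L K ζ ≠ 0 := by
    rw [← map_pow, ← map_sub, Ne, _root_.map_eq_zero]
    exact hz3
  refine ⟨i, (algebraMap L K X1, algebraMap L K ((X2 * X3) ^ 2)), ?_, ?_, ?_⟩
  · dsimp only
    rw [hi]
    dsimp only
    rw [← (hθ ⟨a1, ha1⟩).2 (algebraMap L K X1), eval_map, eval₂_hom, pp_eval, ← hcurve,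
      map_mul _ (a2 * a3 / (ζ ^ 2 * (1 + ζ) * a1 ^ 2)), map_pow _ ((X2 * X3) ^ 2)]
  · rw [Finset.mem_singleton]
    rw [hi]
    dsimp only
    have h5 : (1 : K) - algebraMap L K a1 * (algebraMap L K X1) ^ 4 ≠ 0 := by
      intro h0
      apply hz3'
      linear_combination er' + (algebraMap L K (x / z) - (algebraMap L K ζ) ^ 2) * (-1) * h0
    rw [eq_div_iff h5]
    linear_combination er'
  · dsimp only
    have h6 : algebraMap L K (x / z) - (algebraMap L K ζ) ^ 2 ≠ 0 := by
      intro h0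
      have h7 := er'
      rw [h0, mul_zero] at h7
      apply hz3'
      linear_combination h7 - h0
    refine (hpt (algebraMap L K X1) (algebraMap L K a1) (algebraMap L K (x / z))
      (algebraMap L K ζ) ((algebraMap L K ζ) ^ 2) ?_ hz3' h6 er').trans ?_
    · rw [Ne, _root_.map_eq_zero]
      exact ha10
    · have h5 : B ⟨a1, ha1⟩ ≤ ∑ a, B a :=
        Finset.single_le_sum (fun i _ => hB0 i) (Finset.mem_univ _)
      refine le_trans (le_of_eq ?_) h5
      rw [hB]

end Pool.Agent.HMW
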