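import Pool.Agent.HMW.Targets

set_option autoImplicit false
set_option linter.unusedVariables false

/-!
# MP_c076ed_nt: uniform boundedness for `x^d + c` over number fields: targets, part K
-/

open Polynomial Height Height.AdmissibleAbsValues NumberField IsDedekindDomain
open scoped Classical WithZero

noncomputable section

namespace Pool.Agent.HMW

/-- the map `x ↦ x^d + c` -/
def fk {L : Type} [Field L] (d : ℕ) (c : L) (x : L) : L := x ^ d + c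

/-- `x` is preperiodic (its orbit is finite) -/
def PreK {L : Type} [Field L] (d : ℕ) (c x : L) : Prop :=
  (Set.range fun k : ℕ => (fk d c)^[k] x).Finite

/-- `x` is periodic -/
def PerK {L : Type} [Field L] (d : ℕ) (c x : L) : Prop := x ∈ Function.periodicPts (fk d c)

/-- admissible pairs, first kind -/
def AdmKA {L : Type} [Field L] (d : ℕ) (c x z : L) : Prop :=
  PerK d c z ∧ PreK d c x ∧ (∀ k : ℕ, (fk d c)^[k] x ≠ (fk d c)^[k] z) ∧
    (PerK d c x ∨ ¬ PerK d c (fk d c x))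

/-- admissible pairs, second kind -/
def AdmKB {L : Type} [Field L] (d : ℕ) (c x z : L) : Prop :=
  fk d c z = z ∧ PreK d c x ∧ ¬ PerK d c x ∧ ¬ PerK d c (fk d c x) ∧ ∃ k : ℕ, (fk d c)^[k] x = z

/-- admissible pairs -/
def AdmK {L : Type} [Field L] (d : ℕ) (c x z : L) : Prop := AdmKA d c x z ∨ AdmKB d c x z

/-- KVAL: valuations of preperiodic points. -/
def T_KVAL : Prop := ∀ (L Γ : Type) [Field L] [LinearOrderedCommGroupWithZero Γ]
  (w : Valuation L Γ) (d : ℕ) (c x : L), 2 ≤ d → PreK d c x →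
  (w c ≤ 1 → w x ≤ 1) ∧ (1 < w c → w x ^ d = w c)

/-- KTAIL: the last nonperiodic point of an orbit. -/
def T_KTAIL : Prop := ∀ (L : Type) [Field L] (d : ℕ) (ζ c x : L), 2 ≤ d → IsPrimitiveRoot ζ d →
  PreK d c x → ¬ PerK d c x → ∃ (i a : ℕ) (z : L), ¬ d ∣ a ∧ PerK d c z ∧
    (fk d c)^[i] x = ζ ^ a * z ∧ (fk d c)^[i + 1] x = fk d c z ∧
    (∀ j ≤ i, ¬ PerK d c ((fk d c)^[j] x)) ∧ (¬ PerK d c (fk d c x) → 1 ≤ i)

/-- KSB: the power structure at a place where `c` is large. -/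
def T_KSB : Prop := ∀ (L : Type) [Field L] [CharZero L] (w : Valuation L ℤᵐ⁰) (d : ℕ)
  (ζ c x y : L), 2 ≤ d → IsPrimitiveRoot ζ d → w (d : L) = 1 → 1 < w c →
  PreK d c x → PreK d c y → x ^ d ≠ y ^ d →
  ∀ j : ℕ, ((d : ℤ) - 1) ∣ WithZero.log (w (x - ζ ^ j * y)) - WithZero.log (w x)

/-- KSA: the factors are units at a place where `c` is integral (first kind). -/
def T_KSA : Prop := ∀ (L Γ : Type) [Field L] [LinearOrderedCommGroupWithZero Γ]
  (w : Valuation L Γ) (d : ℕ) (ζ c x z : L), 2 ≤ d → IsPrimitiveRoot ζ d → w c ≤ 1 →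
  AdmKA d c x z → ∀ j : ℕ, ¬ d ∣ j → w (x - ζ ^ j * z) = 1

/-- KSC: the factors have equal valuations at a place where `c` is integral (second kind). -/
def T_KSC : Prop := ∀ (L Γ : Type) [Field L] [LinearOrderedCommGroupWithZero Γ]
  (w : Valuation L Γ) (d : ℕ) (ζ c x z : L), 2 ≤ d → IsPrimitiveRoot ζ d → w (d : L) = 1 →
  w c ≤ 1 → AdmKB d c x z → z ≠ 0 → ∀ i j : ℕ, ¬ d ∣ i → ¬ d ∣ j →
    w (x - ζ ^ i * z) = w (x - ζ ^ j * z)

/-- KS: the power structure. -/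
def T_KS : Prop := ∀ (L : Type) [Field L] [CharZero L] (w : Valuation L ℤᵐ⁰) (d : ℕ)
  (ζ c x z : L), 2 ≤ d → IsPrimitiveRoot ζ d → w (d : L) = 1 → AdmK d c x z → z ≠ 0 →
  ∀ i j : ℕ, ¬ d ∣ i → ¬ d ∣ j → x - ζ ^ i * z ≠ 0 ∧ ((d : ℤ) - 1) ∣
    WithZero.log (w (x - ζ ^ i * z)) - WithZero.log (w (x - ζ ^ j * z))

/-- KNB: bounds at nonarchimedean places. -/
def T_KNB : Prop := ∀ (L : Type) [Field L] (v : AbsoluteValue L ℝ),
  (∀ x y, v (x + y) ≤ max (v x) (v y)) → ∀ (d : ℕ) (ζ c x z : L), 2 ≤ d →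
  IsPrimitiveRoot ζ d →
  (PreK d c x → Real.log (max 1 (v x)) ≤ Real.log (max 1 (v c)) / d) ∧
  (PreK d c x → PreK d c z → x ^ d ≠ z ^ d →
    Real.log (v (x ^ d - z ^ d)) ≤ Real.log (max 1 (v c)) / d) ∧
  (PreK d c x → PreK d c z → x ^ d ≠ z ^ d →
    Real.log (max (v x) (v z)) ≤ Real.log (max 1 (v c)) / d) ∧
  (AdmKA d c x z → Real.log (max 1 (v c)) / d ≤ Real.log (max (v x) (v z))) ∧
  (AdmKB d c x z → z ≠ 0 → (d : L) ≠ 0 →
    (1 - 1 / (d : ℝ)) * (Real.log (max 1 (v c)) / d) + Real.log (v z) / d +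
      Real.log (v (d : L)) / d ≤ Real.log (max (v x) (v z)))

/-- KAR: bounds at arbitrary places. -/
def T_KAR : Prop := ∀ (L : Type) [Field L] (v : AbsoluteValue L ℝ) (d : ℕ) (c x z : L), 2 ≤ d →
  (PreK d c x → Real.log (max 1 (v x)) ≤ Real.log (max 1 (v c)) / d + Real.log 2) ∧
  (PreK d c x → PreK d c z → x ^ d ≠ z ^ d →
    Real.log (v (x ^ d - z ^ d)) ≤ Real.log (max 1 (v c)) / d + 2 * Real.log 2 ∧
    Real.log (max (v x) (v z)) ≤ Real.log (max 1 (v c)) / d + Real.log 2 ∧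
    Real.log (max 1 (v c)) / d + (Real.log (v (x ^ d - z ^ d)) -
      Real.log (max 1 (v c)) / d) / d - 3 * Real.log 2 ≤ Real.log (max (v x) (v z)))

/-- KHP: heights of preperiodic points. -/
def T_KHP : Prop := ∀ (L : Type) [Field L] [NumberField L] (d : ℕ) (ζ : L), 2 ≤ d →
  IsPrimitiveRoot ζ d → ∃ C : ℝ, ∀ c x : L, PreK d c x → logHeight₁ x ≤ logHeight₁ c / d + C

/-- KHT: heights of ratios. -/
def T_KHT : Prop := ∀ (L : Type) [Field L] [NumberField L] (d : ℕ) (ζ : L), 2 ≤ d →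
  IsPrimitiveRoot ζ d → ∃ C : ℝ, ∀ c x z : L, AdmK d c x z → z ≠ 0 →
  (1 - 1 / (d : ℝ)) ^ 2 * (logHeight₁ c / d) - C ≤ logHeight₁ (x / z) ∧
  logHeight₁ (x / z) ≤ logHeight₁ c / d + C

/-- KPT: the factors agree up to `(d-1)`-th powers and finitely many constants. -/
def T_KPT : Prop := ∀ (L : Type) [Field L] [NumberField L] (d : ℕ) (ζ : L), 2 ≤ d →
  IsPrimitiveRoot ζ d → ∃ A : Finset L, (∀ a ∈ A, a ≠ 0) ∧ ∀ c x z : L, AdmK d c x z →
  z ≠ 0 → ∀ i j : ℕ, ¬ d ∣ i → ¬ d ∣ j → x - ζ ^ i * z ≠ 0 ∧ ∃ a ∈ A, ∃ X : L,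
    X ≠ 0 ∧ x - ζ ^ i * z = a * X ^ (d - 1) * (x - ζ ^ j * z)

/-- KGU: the gap principle for all hyperelliptic curves with rational Weierstrass points. -/
def T_KGU : Prop := ∀ (K : Type) [Field K] [NumberField K] (N : ℕ), 5 ≤ N →
  ∀ (θ : Fin N → K) (κ : K), Function.Injective θ → κ ≠ 0 → ∀ C₀ : ℝ, ∃ B : ℕ, ∀ (T : ℝ)
  (s : Finset (K × K)), (∀ P ∈ s, κ * P.2 ^ 2 = ∏ i, (P.1 - θ i) ∧ T ≤ logHeight₁ P.1 ∧
    logHeight₁ P.1 ≤ 8 / 5 * T + C₀) → s.card ≤ B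

/-- admissible pairs over `L` give points on finitely many hyperelliptic curves over a finite
extension `K`, with controlled heights -/
def CVP (d : ℕ) (L : Type) [Field L] : Prop :=
  ∃ (K : Type) (_ : Field K) (_ : NumberField K) (_ : Algebra L K) (N m : ℕ)
    (θ : Fin m → Fin N → K) (κ : Fin m → K) (lam C : ℝ) (G : Fin m → K → Finset K),
  5 ≤ N ∧ 0 < lam ∧ (∀ i, Function.Injective (θ i)) ∧ (∀ i, κ i ≠ 0) ∧
  (∀ i t, (G i t).card ≤ 2) ∧ ∀ c x z : L, AdmK d c x z → z ≠ 0 →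
  ∃ (i : Fin m) (P : K × K), κ i * P.2 ^ 2 = ∏ j, (P.1 - θ i j) ∧
    algebraMap L K (x / z) ∈ G i P.1 ∧
    |logHeight₁ P.1 - lam * logHeight₁ (algebraMap L K (x / z))| ≤ C

/-- KCV6: curves for `d ≥ 6`. -/
def T_KCV6 : Prop := ∀ (L : Type) [Field L] [NumberField L] (d : ℕ) (ζ : L), 6 ≤ d →
  IsPrimitiveRoot ζ d → CVP d L

/-- KCV5: curves for `d = 5`. -/
def T_KCV5 : Prop := ∀ (L : Type) [Field L] [NumberField L] (ζ : L),
  IsPrimitiveRoot ζ 5 → CVP 5 L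

/-- KCNT: boundedly many points are admissible with a given `z`. -/
def T_KCNT : Prop := ∀ (L : Type) [Field L] [NumberField L] (d : ℕ) (ζ : L), 5 ≤ d →
  IsPrimitiveRoot ζ d → ∃ N : ℕ, ∀ (c z : L), z ≠ 0 →
  ∀ s : Finset L, (∀ x ∈ s, AdmK d c x z) → s.card ≤ N

/-- KEV: the theorem for fields containing the `d`-th roots of unity. -/
def T_KEV : Prop := ∀ (L : Type) [Field L] [NumberField L] (d : ℕ) (ζ : L), 5 ≤ d →
  IsPrimitiveRoot ζ d → ∃ B : ℕ, ∀ c : L, ∀ s : Finset L, (∀ x ∈ s, PreK d c x) → s.card ≤ B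

/-- KUNI: the theorem over number fields, for `a x^d + c`, `a` fixed. -/
def T_KUNI : Prop := ∀ (K : Type) [Field K] [NumberField K] (d : ℕ) (a : K), 5 ≤ d → a ≠ 0 →
  ∃ B : ℕ, ∀ c : K, ∀ s : Finset K,
    (∀ x ∈ s, (Set.range fun k : ℕ => (fun y : K => a * y ^ d + c)^[k] x).Finite) → s.card ≤ B

end Pool.Agent.HMW
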