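import Pool.Agent.HMW.CURV
import Pool.Agent.HMW.TargetsK

/-!
# HMW: points on hyperelliptic curves for `d ≥ 6` (KCV6)
-/

set_option autoImplicit false

open Polynomial Height Height.AdmissibleAbsValues NumberField

noncomputable section

namespace Pool.Agent.HMW

namespace KCV6_

/-- enumeration of the roots of `X^n - b` -/
lemma enum {K : Type} [Field K] [CharZero K] (n : ℕ) (hn : 1 ≤ n) (b : K) (hb : b ≠ 0)
    (hs : (X ^ n - C b : K[X]).Splits) :
    ∃ θ : Fin n → K, Function.Injective θ ∧ ∀ t : K, t ^ n - b = ∏ i, (t - θ i) := by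
  classical
  have hmon : (X ^ n - C b : K[X]).Monic := monic_X_pow_sub_C _ (by omega)
  have hsep : (X ^ n - C b : K[X]).Separable :=
    separable_X_pow_sub_C _ (by exact_mod_cast (by omega : n ≠ 0)) hb
  have hnd : (X ^ n - C b : K[X]).roots.Nodup := nodup_roots hsep
  have hcard : (X ^ n - C b : K[X]).roots.card = n := by
    rw [← hs.natDegree_eq_card_roots, natDegree_X_pow_sub_C]
  have hcard' : (X ^ n - C b : K[X]).roots.toFinset.card = n := by
    rw [Multiset.toFinset_card_of_nodup hnd, hcard]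
  obtain ⟨e⟩ : Nonempty ((X ^ n - C b : K[X]).roots.toFinset ≃ Fin n) :=
    ⟨(X ^ n - C b : K[X]).roots.toFinset.equivFinOfCardEq hcard'⟩
  refine ⟨fun i => (e.symm i : K), ?_, ?_⟩
  · intro i j hij
    exact e.symm.injective (Subtype.ext hij)
  · intro t
    have h1 := hs.eval_eq_prod_roots_of_monic hmon t
    have h2 : (X ^ n - C b : K[X]).eval t = t ^ n - b := by
      rw [eval_sub, eval_pow, eval_X, eval_C]
    rw [← h2, h1]
    have h3 : ((X ^ n - C b : K[X]).roots.map fun x => t - x).prod =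
        ∏ x ∈ (X ^ n - C b : K[X]).roots.toFinset, (t - x) := by
      rw [Finset.prod, Multiset.toFinset_val, hnd.dedup]
    rw [h3, ← Finset.prod_coe_sort]
    exact (Equiv.prod_comp e.symm
      (fun x : (X ^ n - C b : K[X]).roots.toFinset => t - (x : K))).symm

/-- a number field over which finitely many polynomials `X^n - b` split -/
lemma fld (L : Type) [Field L] [NumberField L] (n : ℕ) (hn : 1 ≤ n) (S : Finset L) :
    ∃ (K : Type) (_ : Field K) (_ : NumberField K) (_ : Algebra L K), ∀ b ∈ S, b ≠ 0 →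
      ∃ θ : Fin n → K, Function.Injective θ ∧ ∀ t : K,
        t ^ n - algebraMap L K b = ∏ i, (t - θ i) := by
  obtain ⟨P, hP⟩ : ∃ P : L[X], P = ∏ b ∈ S, (X ^ n - C b : L[X]) := ⟨_, rfl⟩
  have hP0 : P ≠ 0 := by
    rw [hP]
    exact Finset.prod_ne_zero_iff.2 fun b _ => (monic_X_pow_sub_C b (by omega)).ne_zero
  have hc : CharZero P.SplittingField :=
    charZero_of_injective_algebraMap (algebraMap L P.SplittingField).injective
  have ht : IsScalarTower ℚ L P.SplittingField :=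
    IsScalarTower.of_algebraMap_eq fun x => by
      rw [eq_ratCast, eq_ratCast, map_ratCast]
  have hfd : FiniteDimensional L P.SplittingField := inferInstance
  have hfq : FiniteDimensional ℚ P.SplittingField := FiniteDimensional.trans ℚ L P.SplittingField
  have hN : NumberField P.SplittingField := ⟨⟩
  refine ⟨P.SplittingField, inferInstance, hN, inferInstance, fun b hb hb0 => ?_⟩
  refine enum n hn (algebraMap L P.SplittingField b) ((_root_.map_ne_zero _).2 hb0) ?_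
  have hmap : (X ^ n - C b : L[X]).map (algebraMap L P.SplittingField) =
      X ^ n - C (algebraMap L P.SplittingField b) := by
    rw [Polynomial.map_sub, Polynomial.map_pow, map_X, map_C]
  rw [← hmap]
  have h1 : Splits (P.map (algebraMap L P.SplittingField)) := SplittingField.splits P
  refine h1.of_dvd ?_ ?_
  · exact (Polynomial.map_ne_zero_iff (algebraMap L P.SplittingField).injective).2 hP0
  · apply Polynomial.map_dvd
    rw [hP]
    exact Finset.dvd_prod_of_mem _ hb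

/-- the polynomial whose roots are the ratios over a given point -/
def gp {K : Type} [Field K] (z q : K) : K[X] :=
  C z * (X - C z) * (X - C (z ^ 3)) - C q * (X - C (z ^ 2)) ^ 2

lemma gp_ne {K : Type} [Field K] (z q : K) (h0 : z ≠ 0) (h1 : z ≠ 1) : gp z q ≠ 0 := by
  intro h
  have h2 : (gp z q).eval (z ^ 2) = 0 := by rw [h, eval_zero]
  have h3 : (gp z q).eval (z ^ 2) = -(z ^ 4 * (z - 1) ^ 2) := by
    unfold gp
    simp only [eval_sub, eval_mul, eval_pow, eval_X, eval_C]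
    ring
  rw [h3, neg_eq_zero] at h2
  exact mul_ne_zero (pow_ne_zero _ h0) (pow_ne_zero _ (sub_ne_zero.2 h1)) h2

lemma gp_deg {K : Type} [Field K] (z q : K) : (gp z q).natDegree ≤ 2 := by
  unfold gp
  compute_degree

/-- the finite set of ratios over a given point -/
def gs {K : Type} [Field K] (z q : K) : Finset K := by
  classical exact (gp z q).roots.toFinset

lemma gs_card {K : Type} [Field K] (z q : K) : (gs z q).card ≤ 2 := by
  classical
  unfold gs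
  exact (Multiset.toFinset_card_le _).trans ((card_roots' _).trans (gp_deg z q))

lemma mem_gs {K : Type} [Field K] (z q r : K) (h0 : z ≠ 0) (h1 : z ≠ 1)
    (h : z * (r - z) * (r - z ^ 3) = q * (r - z ^ 2) ^ 2) : r ∈ gs z q := by
  classical
  unfold gs
  rw [Multiset.mem_toFinset, mem_roots (gp_ne z q h0 h1), IsRoot.def]
  unfold gp
  simp only [eval_sub, eval_mul, eval_pow, eval_X, eval_C]
  rw [h, sub_self]

/-- the Moebius map -/
lemma hmoe {K : Type} [Field K] [NumberField K] (r α β γ : K) (hα : α ≠ 0) :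
    |logHeight₁ (α * (r + β)⁻¹ + γ) - logHeight₁ r| ≤
      2 * (totalWeight K * Real.log 2) + logHeight₁ α + logHeight₁ β + logHeight₁ γ := by
  have h1 := CURV_.hadd (α * (r + β)⁻¹) γ
  have h2 := CURV_.hmul (r + β)⁻¹ α hα
  have h3 := CURV_.hadd r β
  rw [logHeight₁_inv] at h2
  rw [abs_le] at h1 h2 h3 ⊢
  constructor <;> linarith [h1.1, h1.2, h2.1, h2.2, h3.1, h3.2]

/-- the heights of the points -/
lemma hpt {K : Type} [Field K] [NumberField K] (n : ℕ) (hn : 1 ≤ n) (t κ b r α β γ : K)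
    (hκ : κ ≠ 0) (hα : α ≠ 0) (h : t ^ n = κ * (α * (r + β)⁻¹ + γ) ^ 2 + b) :
    |logHeight₁ t - 2 / (n : ℝ) * logHeight₁ r| ≤ totalWeight K * Real.log 2 + logHeight₁ b +
      logHeight₁ κ + 2 * (2 * (totalWeight K * Real.log 2) + logHeight₁ α + logHeight₁ β +
        logHeight₁ γ) := by
  have h1 := CURV_.hadd (κ * (α * (r + β)⁻¹ + γ) ^ 2) b
  rw [← h, logHeight₁_pow] at h1
  have h2 := CURV_.hmul ((α * (r + β)⁻¹ + γ) ^ 2) κ hκ
  rw [logHeight₁_pow] at h2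
  have h3 := hmoe r α β γ hα
  have hn' : (1 : ℝ) ≤ n := by exact_mod_cast hn
  have h4 : |n * logHeight₁ t - 2 * logHeight₁ r| ≤ totalWeight K * Real.log 2 + logHeight₁ b +
      logHeight₁ κ + 2 * (2 * (totalWeight K * Real.log 2) + logHeight₁ α + logHeight₁ β +
        logHeight₁ γ) := by
    push_cast at h2
    rw [abs_le] at h1 h2 h3 ⊢
    constructor <;> linarith [h1.1, h1.2, h2.1, h2.2, h3.1, h3.2]
  have h5 : logHeight₁ t - 2 / (n : ℝ) * logHeight₁ r =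
      (n * logHeight₁ t - 2 * logHeight₁ r) / n := by
    field_simp
  rw [h5, abs_div, Nat.abs_cast, div_le_iff₀ (by linarith)]
  refine h4.trans ?_
  exact le_mul_of_one_le_right ((abs_nonneg _).trans h4) hn'

/-- the algebra over `L`: the equation of the curve -/
lemma alg {L : Type} [Field L] [CharZero L] (n : ℕ) (ζ x z a₁ a₂ X₁ X₂ : L) (hz : z ≠ 0)
    (h1 : (1 : L) + ζ ≠ 0) (h0 : ζ ≠ 0) (ha₁ : a₁ ≠ 0) (ha₂ : a₂ ≠ 0)
    (hu : x - ζ ^ 2 * z ≠ 0) (e₁ : x - ζ ^ 1 * z = a₁ * X₁ ^ n * (x - ζ ^ 2 * z))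
    (e₃ : x - ζ ^ 3 * z = a₂ * X₂ ^ n * (x - ζ ^ 2 * z)) :
    (X₁ * X₂) ^ n = -(4 * (ζ * a₁ * a₂ / (1 + ζ) ^ 2))⁻¹ *
      (2 * (ζ * (ζ ^ 2 - ζ) / (1 + ζ)) * (x / z + -(ζ ^ 2))⁻¹ + (2 * (ζ / (1 + ζ)) - 1)) ^ 2 +
      (4 * (ζ * a₁ * a₂ / (1 + ζ) ^ 2))⁻¹ ∧
    ζ * (x / z - ζ) * (x / z - ζ ^ 3) =
      ζ * a₁ * a₂ / (1 + ζ) ^ 2 * (1 + ζ) ^ 2 * (X₁ * X₂) ^ n * (x / z - ζ ^ 2) ^ 2 := by
  have hr : x / z + -(ζ ^ 2) = (x - ζ ^ 2 * z) / z := by
    field_simp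
    ring
  have hr' : x / z - ζ ^ 2 = (x - ζ ^ 2 * z) / z := by
    field_simp
  have hA : a₁ * X₁ ^ n = (x - ζ ^ 1 * z) / (x - ζ ^ 2 * z) := by
    rw [e₁]
    field_simp
  have hB : a₂ * X₂ ^ n = (x - ζ ^ 3 * z) / (x - ζ ^ 2 * z) := by
    rw [e₃]
    field_simp
  have hX : (X₁ * X₂) ^ n = (a₁ * X₁ ^ n) * (a₂ * X₂ ^ n) / (a₁ * a₂) := by
    rw [mul_pow]
    field_simp
  constructor
  · rw [hr, inv_div, hX, hA, hB]
    field_simp
    ring
  · rw [hr', hX, hA, hB]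
    field_simp

end KCV6_

open KCV6_ in
/-- curves for `d ≥ 6` -/
theorem p_KCV6 : T_KPT → T_KCV6 := by
  intro h1 L _ _ d ζ hd hζ
  obtain ⟨A, hA, hP⟩ := h1 L d ζ (by omega) hζ
  have hζ0 : ζ ≠ 0 := hζ.ne_zero (by omega)
  have hζ1 : ζ ≠ 1 := hζ.ne_one (by omega)
  have hz2 : (1 : L) + ζ ≠ 0 := by
    intro h0
    have h4 : ζ = -1 := by
      rw [add_comm] at h0
      exact eq_neg_of_add_eq_zero_left h0
    have h5 : ζ ^ 2 = 1 := by
      rw [h4]
      norm_num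
    have h6 := hζ.dvd_of_pow_eq_one 2 h5
    have h7 := Nat.le_of_dvd (by norm_num) h6
    omega
  obtain ⟨al, hal⟩ : ∃ al : L × L → L, al = fun p => ζ * p.1 * p.2 / (1 + ζ) ^ 2 := ⟨_, rfl⟩
  have hal0 : ∀ p ∈ A ×ˢ A, al p ≠ 0 := by
    intro p hp
    rw [Finset.mem_product] at hp
    rw [hal]
    exact div_ne_zero (mul_ne_zero (mul_ne_zero hζ0 (hA _ hp.1)) (hA _ hp.2)) (pow_ne_zero _ hz2)
  have hb0 : ∀ p ∈ A ×ˢ A, (4 * al p)⁻¹ ≠ 0 := by
    intro p hp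
    exact inv_ne_zero (mul_ne_zero (by norm_num) (hal0 p hp))
  classical
  obtain ⟨K, iK, iNK, iA, hK⟩ := fld L (d - 1) (by omega)
    ((A ×ˢ A).image fun p => (4 * al p)⁻¹)
  choose θ₀ hθ using fun p : {p // p ∈ A ×ˢ A} => hK ((4 * al p.1)⁻¹)
    (Finset.mem_image_of_mem (fun p => (4 * al p)⁻¹) p.2) (hb0 p.1 p.2)
  obtain ⟨e⟩ : Nonempty ({p // p ∈ A ×ˢ A} ≃ Fin (A ×ˢ A).card) := ⟨(A ×ˢ A).equivFin⟩
  obtain ⟨α, hα⟩ : ∃ α : K, α = algebraMap L K (2 * (ζ * (ζ ^ 2 - ζ) / (1 + ζ))) := ⟨_, rfl⟩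
  obtain ⟨β, hβ⟩ : ∃ β : K, β = algebraMap L K (-(ζ ^ 2)) := ⟨_, rfl⟩
  obtain ⟨γ, hγ⟩ : ∃ γ : K, γ = algebraMap L K (2 * (ζ / (1 + ζ)) - 1) := ⟨_, rfl⟩
  have hα0 : α ≠ 0 := by
    have h9 : ζ ^ 2 - ζ ≠ 0 := by
      have : ζ ^ 2 - ζ = ζ * (ζ - 1) := by ring
      rw [this]
      exact mul_ne_zero hζ0 (sub_ne_zero.2 hζ1)
    rw [hα]
    exact (_root_.map_ne_zero _).2 (mul_ne_zero (by norm_num) (div_ne_zero
      (mul_ne_zero hζ0 h9) hz2))
  obtain ⟨B, hB⟩ : ∃ B : Fin (A ×ˢ A).card → ℝ, B = fun i => totalWeight K * Real.log 2 +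
      logHeight₁ (algebraMap L K (4 * al (e.symm i).1)⁻¹) +
      logHeight₁ (algebraMap L K (-(4 * al (e.symm i).1)⁻¹)) +
      2 * (2 * (totalWeight K * Real.log 2) + logHeight₁ α + logHeight₁ β + logHeight₁ γ) :=
    ⟨_, rfl⟩
  have hB0 : ∀ i, 0 ≤ B i := by
    intro i
    rw [hB]
    have g1 : (0 : ℝ) ≤ totalWeight K * Real.log 2 :=
      mul_nonneg (Nat.cast_nonneg _) (Real.log_nonneg (by norm_num))
    have g2 := zero_le_logHeight₁ (algebraMap L K (4 * al (e.symm i).1)⁻¹)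
    have g3 := zero_le_logHeight₁ (algebraMap L K (-(4 * al (e.symm i).1)⁻¹))
    have g4 := zero_le_logHeight₁ α
    have g5 := zero_le_logHeight₁ β
    have g6 := zero_le_logHeight₁ γ
    dsimp only
    linarith
  have hd1 : (1 : ℝ) ≤ ((d - 1 : ℕ) : ℝ) := by exact_mod_cast (by omega : 1 ≤ d - 1)
  refine ⟨K, iK, iNK, iA, d - 1, (A ×ˢ A).card, fun i => θ₀ (e.symm i), fun i =>
    algebraMap L K (-(4 * al (e.symm i).1)⁻¹), 2 / ((d - 1 : ℕ) : ℝ), ∑ i, B i,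
    fun i t => gs (algebraMap L K ζ) (algebraMap L K (al (e.symm i).1 * (1 + ζ) ^ 2) *
      t ^ (d - 1)), by omega, by positivity, fun i => (hθ _).1, fun i => ?_, fun i t => gs_card _ _,
    ?_⟩
  · exact (_root_.map_ne_zero _).2 (neg_ne_zero.2 (hb0 _ (e.symm i).2))
  intro c x z hadm hz
  have hn1 : ¬ d ∣ 1 := fun h => by have := Nat.le_of_dvd (by norm_num) h; omega
  have hn2 : ¬ d ∣ 2 := fun h => by have := Nat.le_of_dvd (by norm_num) h; omega
  have hn3 : ¬ d ∣ 3 := fun h => by have := Nat.le_of_dvd (by norm_num) h; omega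
  obtain ⟨-, a₁, ha₁, X₁, hX₁, e₁⟩ := hP c x z hadm hz 1 2 hn1 hn2
  obtain ⟨-, a₂, ha₂, X₂, hX₂, e₃⟩ := hP c x z hadm hz 3 2 hn3 hn2
  obtain ⟨hu, -⟩ := hP c x z hadm hz 2 1 hn2 hn1
  obtain ⟨f1, f2⟩ := alg (d - 1) ζ x z a₁ a₂ X₁ X₂ hz hz2 hζ0 (hA _ ha₁) (hA _ ha₂) hu e₁ e₃
  obtain ⟨i, hi⟩ : ∃ i, e.symm i = ⟨(a₁, a₂), Finset.mk_mem_product ha₁ ha₂⟩ :=
    ⟨e ⟨(a₁, a₂), Finset.mk_mem_product ha₁ ha₂⟩, e.symm_apply_apply _⟩
  have hi1 : al (e.symm i).1 = ζ * a₁ * a₂ / (1 + ζ) ^ 2 := by rw [hi, hal]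
  rw [← hi1] at f1 f2
  have g1 := congrArg (algebraMap L K) f1
  rw [map_pow, map_add _ (-(4 * al (e.symm i).1)⁻¹ * _), map_mul _ (-(4 * al (e.symm i).1)⁻¹),
    map_pow, map_add _ (_ * (x / z + -(ζ ^ 2))⁻¹), map_mul _ _ ((x / z + -(ζ ^ 2))⁻¹), map_inv₀ _
    (x / z + -(ζ ^ 2)), map_add _ (x / z), ← hα, ← hβ, ← hγ] at g1
  refine ⟨i, (algebraMap L K (X₁ * X₂), α * (algebraMap L K (x / z) + β)⁻¹ + γ), ?_, ?_, ?_⟩
  · rw [← (hθ (e.symm i)).2]
    dsimp only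
    rw [g1]
    ring
  · apply mem_gs
    · exact (_root_.map_ne_zero _).2 hζ0
    · intro h
      exact hζ1 ((algebraMap L K).injective (h.trans (map_one _).symm))
    · have g2 := congrArg (algebraMap L K) f2
      simp only [map_mul, map_sub, map_pow] at g2 ⊢
      rw [g2]
  · refine (hpt (d - 1) (by omega) _ _ _ _ α β γ ((_root_.map_ne_zero _).2 (neg_ne_zero.2
      (hb0 _ (e.symm i).2))) hα0 g1).trans ?_
    have h5 : B i ≤ ∑ i, B i := Finset.single_le_sum (fun i _ => hB0 i) (Finset.mem_univ i)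
    refine le_trans (le_of_eq ?_) h5
    rw [hB]

end Pool.Agent.HMW
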