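import Pool.Agent.HMW.TargetsK

set_option autoImplicit false
set_option linter.unusedSectionVars false

/-!
# The theorem for fields containing the `d`-th roots of unity, from the count for one `z`
-/

open Polynomial Height Height.AdmissibleAbsValues NumberField IsDedekindDomain
open scoped Classical WithZero

noncomputable section

namespace Pool.Agent.HMW

namespace KEV_

variable {L : Type} [Field L] {d : ℕ} {c : L}

/-- some iterate of a preperiodic point is periodic -/
theorem exists_per {x : L} (hx : PreK d c x) : ∃ k : ℕ, PerK d c ((fk d c)^[k] x) := by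
  have hni : ¬ Function.Injective (fun k : ℕ => (fk d c)^[k] x) := fun h =>
    Set.infinite_range_of_injective h hx
  unfold Function.Injective at hni
  simp only [not_forall] at hni
  obtain ⟨a, b, hab, hne⟩ := hni
  have key : ∀ a b : ℕ, a < b → (fk d c)^[a] x = (fk d c)^[b] x → PerK d c ((fk d c)^[a] x) := by
    intro a b hlt h
    refine ⟨b - a, by omega, ?_⟩
    show (fk d c)^[b - a] ((fk d c)^[a] x) = (fk d c)^[a] x
    rw [← Function.iterate_add_apply, Nat.sub_add_cancel hlt.le, h]
  rcases lt_or_gt_of_ne hne with h | h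
  · exact ⟨a, key a b h hab⟩
  · exact ⟨b, key b a h hab.symm⟩

/-- periodic points are preperiodic -/
theorem pre_of_per {z : L} (hz : PerK d c z) : PreK d c z := by
  obtain ⟨n, hn, h⟩ := hz
  apply (Set.finite_range (fun k : Fin n => (fk d c)^[(k : ℕ)] z)).subset
  rintro _ ⟨k, rfl⟩
  refine ⟨⟨k % n, Nat.mod_lt _ hn⟩, ?_⟩
  show (fk d c)^[k % n] z = (fk d c)^[k] z
  exact h.iterate_mod_apply k

/-- the image of a periodic point is periodic -/
theorem per_fk {z : L} (hz : PerK d c z) : PerK d c (fk d c z) := by
  obtain ⟨n, hn, h⟩ := hz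
  exact ⟨n, hn, h.map (g := fk d c) (Function.Commute.refl _ : Function.Semiconj _ _ _)⟩

/-- iterates are injective on periodic points -/
theorem per_inj {z z' : L} (hz : PerK d c z) (hz' : PerK d c z') (m : ℕ)
    (h : (fk d c)^[m] z = (fk d c)^[m] z') : z = z' := by
  obtain ⟨n, hn, h1⟩ := hz
  obtain ⟨n', hn', h2⟩ := hz'
  set N : ℕ := n * n' * (m + 1) with hN
  have hp : Function.IsPeriodicPt (fk d c) N z := by
    rw [hN, mul_assoc]
    exact h1.mul_const _
  have hp' : Function.IsPeriodicPt (fk d c) N z' := by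
    rw [hN, mul_comm n n', mul_assoc]
    exact h2.mul_const _
  have hmN : m ≤ N := by
    have : 1 ≤ n * n' := Nat.mul_pos hn hn'
    nlinarith
  have e1 : (fk d c)^[N] z = (fk d c)^[N - m] ((fk d c)^[m] z) := by
    rw [← Function.iterate_add_apply, Nat.sub_add_cancel hmN]
  have e2 : (fk d c)^[N] z' = (fk d c)^[N - m] ((fk d c)^[m] z') := by
    rw [← Function.iterate_add_apply, Nat.sub_add_cancel hmN]
  rw [← hp.eq, ← hp'.eq, e1, e2, h]

/-- a nonperiodic point whose image is periodic is a root of unity times a periodic point -/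
theorem zeta_per (hT : T_KTAIL) (hd : 2 ≤ d) {ζ : L} (hζ : IsPrimitiveRoot ζ d) {x : L}
    (hx : PreK d c x) (h1 : PerK d c (fk d c x)) (h2 : ¬ PerK d c x) :
    ∃ a z, a < d ∧ PerK d c z ∧ x = ζ ^ a * z := by
  obtain ⟨i, a, z, ha, hz, h3, h4, h5, h6⟩ := hT L d ζ c x hd hζ hx h2
  have hi : i = 0 := by
    by_contra hi
    exact h5 1 (by omega) h1
  subst hi
  refine ⟨a % d, z, Nat.mod_lt _ (by omega), hz, ?_⟩
  have h7 : ζ ^ (a % d) = ζ ^ a := by
    conv_rhs => rw [← Nat.mod_add_div a d, pow_add, pow_mul, hζ.pow_eq_one, one_pow, mul_one]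
  rw [h7]
  exact h3

/-- there are finitely many exceptional values -/
theorem exc_finite (hd : 2 ≤ d) : {c : L | c = 0 ∨ c ^ (d - 1) = -1}.Finite := by
  have h1 : {c : L | c ^ (d - 1) = -1}.Finite := by
    have h2 : (X ^ (d - 1) + C (1 : L) : L[X]) ≠ 0 :=
      (monic_X_pow_add_C (1 : L) (by omega)).ne_zero
    apply ((X ^ (d - 1) + C (1 : L) : L[X]).roots.toFinset.finite_toSet).subset
    intro c hc
    rw [Finset.mem_coe, Multiset.mem_toFinset, mem_roots h2, IsRoot.def, eval_add, eval_pow,
      eval_X, eval_C]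
    rw [Set.mem_ofPred_eq] at hc
    rw [hc, neg_add_cancel]
  apply (h1.union (Set.finite_singleton (0 : L))).subset
  rintro c (hc | hc)
  · exact Or.inr hc
  · exact Or.inl hc

end KEV_

open KEV_

theorem p_KEV : T_KCNT → T_KHP → T_KTAIL → T_KEV := by
  intro hCNT hHP hT L _ _ d ζ hd hζ
  obtain ⟨N, hN⟩ := hCNT L d ζ hd hζ
  obtain ⟨C₀, hC⟩ := hHP L d ζ (by omega) hζ
  have hd2 : 2 ≤ d := by omega
  -- the exceptional values
  have hfin : ∀ c : L, {x : L | PreK d c x}.Finite := by
    intro c
    apply (NumberField.finite_setOfPred_logHeight₁_le (K := L) (logHeight₁ c / d + C₀)).subset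
    intro x hx
    exact hC c x hx
  have hE : {c : L | c = 0 ∨ c ^ (d - 1) = -1}.Finite := exc_finite (by omega)
  refine ⟨(hE.toFinset.sup fun c => {x : L | PreK d c x}.ncard) + (2 * N + d * (2 * N)) +
    (N + d + 1), ?_⟩
  intro c s hs
  by_cases hcE : c = 0 ∨ c ^ (d - 1) = -1
  · have h1 : s.card ≤ {x : L | PreK d c x}.ncard := by
      rw [← Set.ncard_coe_finset]
      exact Set.ncard_le_ncard (fun x hx => hs x hx) (hfin c)
    have h2 := Finset.le_sup (f := fun c => {x : L | PreK d c x}.ncard)
      (hE.mem_toFinset.2 hcE)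
    omega
  have hc0 : c ≠ 0 := fun h => hcE (Or.inl h)
  have hc1 : c ^ (d - 1) ≠ -1 := fun h => hcE (Or.inr h)
  by_cases hper : ∃ z, PerK d c z
  swap
  · have hse : s = ∅ := by
      apply Finset.eq_empty_of_forall_notMem
      intro x hx
      obtain ⟨k, hk⟩ := exists_per (hs x hx)
      exact hper ⟨_, hk⟩
    rw [hse]
    simp
  by_cases htwo : ∃ z z', PerK d c z ∧ PerK d c z' ∧ z ≠ 0 ∧ z' ≠ 0 ∧ z ≠ z'
  · obtain ⟨z, z', hz, hz', hz0, hz'0, hzz⟩ := htwo
    -- good points
    have hgood : ∀ t : Finset L, (∀ x ∈ t, PreK d c x ∧ (PerK d c x ∨ ¬ PerK d c (fk d c x))) →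
        t.card ≤ 2 * N := by
      intro t ht
      have h1 : ∀ x ∈ t, AdmK d c x z ∨ AdmK d c x z' := by
        intro x hx
        obtain ⟨hx1, hx2⟩ := ht x hx
        by_cases ha : ∀ k : ℕ, (fk d c)^[k] x ≠ (fk d c)^[k] z
        · exact Or.inl (Or.inl ⟨hz, hx1, ha, hx2⟩)
        · right
          refine Or.inl ⟨hz', hx1, ?_, hx2⟩
          intro l hl
          simp only [ne_eq, not_forall, not_not] at ha
          obtain ⟨k, hk⟩ := ha
          apply hzz
          apply per_inj hz hz' (k + l)
          calc (fk d c)^[k + l] z = (fk d c)^[l] ((fk d c)^[k] z) := by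
                rw [← Function.iterate_add_apply, add_comm l k]
            _ = (fk d c)^[l] ((fk d c)^[k] x) := by rw [hk]
            _ = (fk d c)^[k] ((fk d c)^[l] x) := by
                rw [← Function.iterate_add_apply, ← Function.iterate_add_apply, add_comm l k]
            _ = (fk d c)^[k] ((fk d c)^[l] z') := by rw [hl]
            _ = (fk d c)^[k + l] z' := by rw [← Function.iterate_add_apply]
      have h2 : t ⊆ t.filter (fun x => AdmK d c x z) ∪ t.filter (fun x => AdmK d c x z') := by
        intro x hx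
        rw [Finset.mem_union, Finset.mem_filter, Finset.mem_filter]
        rcases h1 x hx with h | h
        · exact Or.inl ⟨hx, h⟩
        · exact Or.inr ⟨hx, h⟩
      have h3 := hN c z hz0 (t.filter (fun x => AdmK d c x z))
        (fun x hx => (Finset.mem_filter.1 hx).2)
      have h4 := hN c z' hz'0 (t.filter (fun x => AdmK d c x z'))
        (fun x hx => (Finset.mem_filter.1 hx).2)
      have h5 := (Finset.card_le_card h2).trans (Finset.card_union_le _ _)
      omega
    have h1 := hgood (s.filter (fun x => PerK d c x ∨ ¬ PerK d c (fk d c x)))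
      (fun x hx => ⟨hs x (Finset.mem_filter.1 hx).1, (Finset.mem_filter.1 hx).2⟩)
    have h2 : (s.filter (fun x => ¬ (PerK d c x ∨ ¬ PerK d c (fk d c x)))).card ≤
        d * (2 * N) := by
      set s' := s.filter (fun x => ¬ (PerK d c x ∨ ¬ PerK d c (fk d c x))) with hs'
      have h3 : ∀ x ∈ s', ∃ a z, a < d ∧ PerK d c z ∧ x = ζ ^ a * z := by
        intro x hx
        obtain ⟨hx1, hx2⟩ := Finset.mem_filter.1 hx
        simp only [not_or, not_not] at hx2
        exact zeta_per hT hd2 hζ (hs x hx1) hx2.2 hx2.1
      choose! α w hα hw hxw using h3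
      have h4 : (s'.image w).card ≤ 2 * N := by
        apply hgood
        intro y hy
        obtain ⟨x, hx, rfl⟩ := Finset.mem_image.1 hy
        exact ⟨pre_of_per (hw x hx), Or.inl (hw x hx)⟩
      have h5 : s' ⊆ Finset.image₂ (fun (a : ℕ) (z : L) => ζ ^ a * z) (Finset.range d)
          (s'.image w) := by
        intro x hx
        rw [Finset.mem_image₂]
        exact ⟨α x, Finset.mem_range.2 (hα x hx), w x, Finset.mem_image_of_mem _ hx,
          (hxw x hx).symm⟩
      have h6 := (Finset.card_le_card h5).trans (Finset.card_image₂_le _ _ _)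
      rw [Finset.card_range] at h6
      exact h6.trans (Nat.mul_le_mul_left d h4)
    have h3 := Finset.card_filter_add_card_filter_not (s := s)
      (fun x => PerK d c x ∨ ¬ PerK d c (fk d c x))
    omega
  · -- at most one nonzero periodic point
    have huni0 : ∀ y y', PerK d c y → PerK d c y' → y ≠ 0 → y' ≠ 0 → y = y' := by
      intro y y' hy hy' h0 h0'
      by_contra h
      exact htwo ⟨y, y', hy, hy', h0, h0', h⟩
    -- zero is not periodic
    have h0 : ¬ PerK d c (0 : L) := by
      intro h
      have hf0 : fk d c (0 : L) = c := by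
        unfold fk
        rw [zero_pow (by omega), zero_add]
      have hc : PerK d c c := by
        have := per_fk h
        rwa [hf0] at this
      have hfc : PerK d c (fk d c c) := per_fk hc
      by_cases h2 : fk d c c = 0
      · unfold fk at h2
        apply hc1
        have h3 : c * (c ^ (d - 1) + 1) = 0 := by
          rw [mul_add, mul_one, ← pow_succ', Nat.sub_add_cancel (by omega)]
          exact h2
        rcases mul_eq_zero.1 h3 with h4 | h4
        · exact absurd h4 hc0
        · exact eq_neg_of_add_eq_zero_left h4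
      · have h3 := huni0 _ _ hfc hc h2 hc0
        have h4 : (0 : L) = c := by
          apply per_inj h hc 1
          rw [Function.iterate_one, hf0, h3]
        exact hc0 h4.symm
    obtain ⟨z, hz⟩ := hper
    have hz0 : z ≠ 0 := by
      rintro rfl
      exact h0 hz
    have huni : ∀ y, PerK d c y → y = z := by
      intro y hy
      refine huni0 _ _ hy hz ?_ hz0
      rintro rfl
      exact h0 hy
    have hfz : fk d c z = z := huni _ (per_fk hz)
    have h2 : s ⊆ (insert z ((Finset.range d).image fun a => ζ ^ a * z)) ∪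
        s.filter (fun x => AdmK d c x z) := by
      intro x hx
      rw [Finset.mem_union, Finset.mem_filter, Finset.mem_insert, Finset.mem_image]
      by_cases h1 : PerK d c x
      · exact Or.inl (Or.inl (huni x h1))
      by_cases h2 : PerK d c (fk d c x)
      · left
        right
        obtain ⟨a, y, ha, hy, hxy⟩ := zeta_per hT hd2 hζ (hs x hx) h2 h1
        exact ⟨a, Finset.mem_range.2 ha, by rw [hxy, huni y hy]⟩
      · right
        refine ⟨hx, Or.inr ⟨hfz, hs x hx, h1, h2, ?_⟩⟩
        obtain ⟨k, hk⟩ := exists_per (hs x hx)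
        exact ⟨k, huni _ hk⟩
    have h3 := hN c z hz0 (s.filter (fun x => AdmK d c x z))
      (fun x hx => (Finset.mem_filter.1 hx).2)
    have h4 := (Finset.card_le_card h2).trans (Finset.card_union_le _ _)
    have h5 : (insert z ((Finset.range d).image fun a => ζ ^ a * z)).card ≤ d + 1 := by
      refine (Finset.card_insert_le _ _).trans ?_
      have := Finset.card_image_le (s := Finset.range d) (f := fun a => ζ ^ a * z)
      rw [Finset.card_range] at this
      omega
    omega

end Pool.Agent.HMW
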