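import Pool.Agent.HMW.TargetsK

/-!
# HMW, part K: the gap principle for all hyperelliptic curves with rational Weierstrass points
(KGU)
-/

set_option autoImplicit false

open Polynomial Height Height.AdmissibleAbsValues NumberField

noncomputable section

namespace Pool.Agent.HMW

namespace KGU_

lemma hadd {K : Type} [Field K] [NumberField K] (x a : K) :
    |logHeight₁ (x + a) - logHeight₁ x| ≤ totalWeight K * Real.log 2 + logHeight₁ a := by
  have h1 := logHeight₁_add_le x a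
  have h2 := logHeight₁_sub_le (x + a) a
  rw [add_sub_cancel_right] at h2
  rw [abs_le]
  constructor <;> linarith

lemma hsub {K : Type} [Field K] [NumberField K] (x a : K) :
    |logHeight₁ (x - a) - logHeight₁ x| ≤ totalWeight K * Real.log 2 + logHeight₁ a := by
  have h1 := logHeight₁_sub_le x a
  have h2 := logHeight₁_add_le (x - a) a
  rw [sub_add_cancel] at h2
  rw [abs_le]
  constructor <;> linarith

lemma hmul {K : Type} [Field K] [NumberField K] (x a : K) (ha : a ≠ 0) :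
    |logHeight₁ (a * x) - logHeight₁ x| ≤ logHeight₁ a := by
  have h1 := logHeight₁_mul_le a x
  have h2 := logHeight₁_mul_le a⁻¹ (a * x)
  rw [inv_mul_cancel_left₀ ha, logHeight₁_inv] at h2
  rw [abs_le]
  constructor <;> linarith

/-- boundedly many points of `E` in every window with ratio `lam` -/
def WW {K : Type} [Field K] [NumberField K] (lam : ℝ) (E : K × K → Prop) : Prop :=
  ∀ C₀ : ℝ, ∃ B : ℕ, ∀ (T : ℝ) (s : Finset (K × K)),
    (∀ P ∈ s, E P ∧ T ≤ logHeight₁ P.1 ∧ logHeight₁ P.1 ≤ lam * T + C₀) → s.card ≤ B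

/-- two windows -/
lemma win {K : Type} [Field K] [NumberField K] (E : K × K → Prop) (h : WW (3 / 2) E) :
    WW (8 / 5) E := by
  classical
  intro C₀
  obtain ⟨N, hN⟩ := h (max C₀ 0)
  refine ⟨2 * N, ?_⟩
  intro T s hs
  have hC1 := le_max_left C₀ 0
  have hC2 := le_max_right C₀ 0
  rcases le_or_gt 0 T with hT | hT
  · have h1 : (s.filter fun P => logHeight₁ P.1 ≤ 3 / 2 * T + max C₀ 0).card ≤ N := by
      apply hN T
      intro P hP
      obtain ⟨hP1, hP2⟩ := Finset.mem_filter.1 hP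
      obtain ⟨g1, g2, g3⟩ := hs P hP1
      exact ⟨g1, g2, hP2⟩
    have h2 : (s.filter fun P => ¬ logHeight₁ P.1 ≤ 3 / 2 * T + max C₀ 0).card ≤ N := by
      apply hN (3 / 2 * T)
      intro P hP
      obtain ⟨hP1, hP2⟩ := Finset.mem_filter.1 hP
      obtain ⟨g1, g2, g3⟩ := hs P hP1
      rw [not_le] at hP2
      exact ⟨g1, by linarith, by linarith⟩
    have h3 := Finset.card_filter_add_card_filter_not (s := s)
      (fun P : K × K => logHeight₁ P.1 ≤ 3 / 2 * T + max C₀ 0)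
    omega
  · have h1 : s.card ≤ N := by
      apply hN 0
      intro P hP
      obtain ⟨g1, g2, g3⟩ := hs P hP
      exact ⟨g1, zero_le_logHeight₁ _, by linarith⟩
    omega

/-- transfer along an injective map changing heights by a bounded amount -/
lemma trans {K : Type} [Field K] [NumberField K] (E E' : K × K → Prop) (Φ : K × K → K × K)
    (C : ℝ) (hinj : ∀ P Q, E P → E Q → Φ P = Φ Q → P = Q) (hE : ∀ P, E P → E' (Φ P))
    (hh : ∀ P, E P → |logHeight₁ (Φ P).1 - logHeight₁ P.1| ≤ C) (h : WW (8 / 5) E') :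
    WW (8 / 5) E := by
  classical
  intro C₀
  obtain ⟨B, hB⟩ := h (C₀ + 13 / 5 * C)
  refine ⟨B, ?_⟩
  intro T s hs
  have h1 : (s.image Φ).card = s.card := by
    apply Finset.card_image_of_injOn
    intro P hP Q hQ hPQ
    exact hinj P Q (hs P (Finset.mem_coe.1 hP)).1 (hs Q (Finset.mem_coe.1 hQ)).1 hPQ
  rw [← h1]
  apply hB (T - C)
  intro Q hQ
  obtain ⟨P, hP, rfl⟩ := Finset.mem_image.1 hQ
  obtain ⟨g1, g2, g3⟩ := hs P hP
  have g4 := abs_le.1 (hh P g1)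
  refine ⟨hE P g1, ?_, ?_⟩
  · linarith [g4.1]
  · linarith [g4.2]

/-- removing the points with a given first coordinate -/
lemma remove {K : Type} [Field K] [NumberField K] (E : K × K → Prop) (a b : K)
    (h0 : ∀ P, E P → P.1 = a → P.2 = b) (h : WW (8 / 5) fun P => E P ∧ P.1 ≠ a) :
    WW (8 / 5) E := by
  classical
  intro C₀
  obtain ⟨B, hB⟩ := h C₀
  refine ⟨B + 1, ?_⟩
  intro T s hs
  have h1 : (s.filter fun P => P.1 ≠ a).card ≤ B := by
    apply hB T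
    intro P hP
    obtain ⟨hP1, hP2⟩ := Finset.mem_filter.1 hP
    obtain ⟨g1, g2, g3⟩ := hs P hP1
    exact ⟨⟨g1, hP2⟩, g2, g3⟩
  have h2 : (s.filter fun P => ¬ P.1 ≠ a).card ≤ 1 := by
    rw [Finset.card_le_one]
    intro P hP Q hQ
    obtain ⟨hP1, hP2⟩ := Finset.mem_filter.1 hP
    obtain ⟨hQ1, hQ2⟩ := Finset.mem_filter.1 hQ
    rw [not_not] at hP2 hQ2
    exact Prod.ext (hP2.trans hQ2.symm)
      ((h0 P (hs P hP1).1 hP2).trans (h0 Q (hs Q hQ1).1 hQ2).symm)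
  have h3 := Finset.card_filter_add_card_filter_not (s := s) (fun P : K × K => P.1 ≠ a)
  omega

/-- the curves with integral Weierstrass points -/
lemma base (hG : T_GAP) (K : Type) [Field K] [NumberField K] (g : ℕ) (hg : 2 ≤ g)
    (θ : Fin (2 * g + 1) → 𝓞 K) (hθ : Function.Injective θ) :
    WW (8 / 5) fun P : K × K => P.2 ^ 2 = ∏ i, (P.1 - (θ i : K)) := by
  apply win
  intro C₀
  obtain ⟨N, hN⟩ := hG K g hg θ hθ C₀
  exact ⟨N, fun T s hs => hN T s hs⟩

/-- odd degree -/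
lemma odd (hG : T_GAP) (K : Type) [Field K] [NumberField K] (g : ℕ) (hg : 2 ≤ g)
    (θ : Fin (2 * g + 1) → K) (hθ : Function.Injective θ) (κ : K) (hκ : κ ≠ 0) :
    WW (8 / 5) fun P : K × K => κ * P.2 ^ 2 = ∏ i, (P.1 - θ i) := by
  obtain ⟨D, hD⟩ := IsLocalization.exist_integer_multiples (nonZeroDivisors (𝓞 K))
    (Finset.univ : Finset (Fin (2 * g + 1))) (fun i => κ * θ i)
  have hD0 : (D : 𝓞 K) ≠ 0 := nonZeroDivisors.coe_ne_zero D
  have hD1 : algebraMap (𝓞 K) K (D : 𝓞 K) ≠ 0 := by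
    intro h0
    simp at h0
  choose t ht using fun i => hD i (Finset.mem_univ i)
  obtain ⟨δ, hδ⟩ : ∃ δ : K, δ = algebraMap (𝓞 K) K (D : 𝓞 K) := ⟨_, rfl⟩
  rw [← hδ] at hD1
  have ht' : ∀ i, algebraMap (𝓞 K) K (t i) = δ * (κ * θ i) := by
    intro i
    rw [ht i, hδ]
    rfl
  obtain ⟨θ', hθ'⟩ : ∃ θ' : Fin (2 * g + 1) → 𝓞 K, θ' = fun i => (D : 𝓞 K) * t i := ⟨_, rfl⟩
  have hθ1 : ∀ i, (θ' i : K) = δ ^ 2 * κ * θ i := by
    intro i
    rw [hθ']
    have e1 : algebraMap (𝓞 K) K ((D : 𝓞 K) * t i) = δ ^ 2 * κ * θ i := by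
      rw [map_mul, ht' i, ← hδ]
      ring
    exact e1
  have hc : δ ^ 2 * κ ≠ 0 := mul_ne_zero (pow_ne_zero _ hD1) hκ
  have hinj : Function.Injective θ' := by
    intro i j hij
    apply hθ
    have e1 : (θ' i : K) = (θ' j : K) := by rw [hij]
    rw [hθ1, hθ1] at e1
    exact mul_left_cancel₀ hc e1
  have hc2 : δ ^ (2 * g + 1) * κ ^ (g + 1) ≠ 0 :=
    mul_ne_zero (pow_ne_zero _ hD1) (pow_ne_zero _ hκ)
  refine trans _ _ (fun P => (δ ^ 2 * κ * P.1, δ ^ (2 * g + 1) * κ ^ (g + 1) * P.2))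
    (logHeight₁ (δ ^ 2 * κ)) ?_ ?_ ?_ (base hG K g hg θ' hinj)
  · intro P Q _ _ hPQ
    have e1 := congrArg Prod.fst hPQ
    have e2 := congrArg Prod.snd hPQ
    exact Prod.ext (mul_left_cancel₀ hc e1) (mul_left_cancel₀ hc2 e2)
  · intro P hP
    have hP' : κ * P.2 ^ 2 = ∏ i, (P.1 - θ i) := hP
    show (δ ^ (2 * g + 1) * κ ^ (g + 1) * P.2) ^ 2 = ∏ i, (δ ^ 2 * κ * P.1 - (θ' i : K))
    have e1 : ∏ i, (δ ^ 2 * κ * P.1 - (θ' i : K)) =
        ∏ i : Fin (2 * g + 1), (δ ^ 2 * κ) * (P.1 - θ i) := by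
      refine Finset.prod_congr rfl fun i _ => ?_
      rw [hθ1]
      ring
    rw [e1, Finset.prod_mul_distrib, Finset.prod_const, Finset.card_univ, Fintype.card_fin, ← hP']
    ring
  · intro P _
    exact hmul P.1 _ hc

/-- even degree -/
lemma even (hG : T_GAP) (K : Type) [Field K] [NumberField K] (g : ℕ) (hg : 2 ≤ g)
    (θ : Fin (2 * g + 1 + 1) → K) (hθ : Function.Injective θ) (κ : K) (hκ : κ ≠ 0) :
    WW (8 / 5) fun P : K × K => κ * P.2 ^ 2 = ∏ i, (P.1 - θ i) := by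
  have hne : ∀ i : Fin (2 * g + 1), θ 0 - θ i.succ ≠ 0 := by
    intro i h0
    have h1 := hθ (sub_eq_zero.1 h0)
    exact absurd h1.symm (Fin.succ_ne_zero i)
  have hne' : ∀ i : Fin (2 * g + 1), θ i.succ - θ 0 ≠ 0 := by
    intro i h0
    apply hne i
    rw [← neg_sub, h0, neg_zero]
  have hp : ∏ i : Fin (2 * g + 1), (θ 0 - θ i.succ) ≠ 0 :=
    Finset.prod_ne_zero_iff.2 fun i _ => hne i
  have hinj : Function.Injective fun i : Fin (2 * g + 1) => (θ i.succ - θ 0)⁻¹ := by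
    intro i j hij
    have e1 : θ i.succ - θ 0 = θ j.succ - θ 0 := inv_injective hij
    have e2 : θ i.succ = θ j.succ := by linear_combination e1
    exact Fin.succ_injective _ (hθ e2)
  have hodd := odd hG K g hg (fun i => (θ i.succ - θ 0)⁻¹) hinj
    (κ / ∏ i : Fin (2 * g + 1), (θ 0 - θ i.succ)) (div_ne_zero hκ hp)
  apply remove _ (θ 0) 0
  · intro P hP h1
    have hP' : κ * P.2 ^ 2 = ∏ i, (P.1 - θ i) := hP
    rw [Fin.prod_univ_succ, h1, sub_self, zero_mul] at hP'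
    have h2 := (mul_eq_zero.1 hP').resolve_left hκ
    exact pow_eq_zero_iff (two_ne_zero) |>.1 h2
  · refine trans _ _ (fun P => ((P.1 - θ 0)⁻¹, P.2 * (P.1 - θ 0)⁻¹ ^ (g + 1)))
      (totalWeight K * Real.log 2 + logHeight₁ (θ 0)) ?_ ?_ ?_ hodd
    · intro P Q hP hQ hPQ
      have e1 : (P.1 - θ 0)⁻¹ = (Q.1 - θ 0)⁻¹ := congrArg Prod.fst hPQ
      have e2 : P.2 * (P.1 - θ 0)⁻¹ ^ (g + 1) = Q.2 * (Q.1 - θ 0)⁻¹ ^ (g + 1) :=
        congrArg Prod.snd hPQ
      have e3 : P.1 - θ 0 = Q.1 - θ 0 := inv_injective e1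
      have e4 : P.1 = Q.1 := by linear_combination e3
      rw [← e1] at e2
      have e5 : (P.1 - θ 0)⁻¹ ^ (g + 1) ≠ 0 :=
        pow_ne_zero _ (inv_ne_zero (sub_ne_zero.2 hP.2))
      exact Prod.ext e4 (mul_right_cancel₀ e5 e2)
    · intro P hP
      obtain ⟨hP1, hP2⟩ := hP
      have hu : P.1 - θ 0 ≠ 0 := sub_ne_zero.2 hP2
      obtain ⟨u, hu1⟩ : ∃ u : K, u = (P.1 - θ 0)⁻¹ := ⟨_, rfl⟩
      have huu : (P.1 - θ 0) * u = 1 := by rw [hu1]; exact mul_inv_cancel₀ hu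
      show κ / (∏ i : Fin (2 * g + 1), (θ 0 - θ i.succ)) * (P.2 * (P.1 - θ 0)⁻¹ ^ (g + 1)) ^ 2 =
        ∏ i : Fin (2 * g + 1), ((P.1 - θ 0)⁻¹ - (θ i.succ - θ 0)⁻¹)
      rw [← hu1]
      have e1 : ∏ i : Fin (2 * g + 1), (u - (θ i.succ - θ 0)⁻¹) =
          ∏ i : Fin (2 * g + 1), ((P.1 - θ i.succ) * u / (θ 0 - θ i.succ)) := by
        refine Finset.prod_congr rfl fun i _ => ?_
        rw [eq_div_iff (hne i)]
        have e2 : (θ i.succ - θ 0)⁻¹ * (θ 0 - θ i.succ) = -1 := by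
          rw [← neg_sub (θ i.succ) (θ 0), mul_neg, inv_mul_cancel₀ (hne' i)]
        rw [sub_mul, e2]
        linear_combination (-1 : K) * huu
      rw [e1, Finset.prod_div_distrib, Finset.prod_mul_distrib, Finset.prod_const,
        Finset.card_univ, Fintype.card_fin]
      have hP3 : κ * P.2 ^ 2 = (P.1 - θ 0) * ∏ i : Fin (2 * g + 1), (P.1 - θ i.succ) := by
        rw [← Fin.prod_univ_succ (fun i => P.1 - θ i)]
        exact hP1
      rw [div_mul_eq_mul_div]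
      congr 1
      have e3 : κ * (P.2 * u ^ (g + 1)) ^ 2 = (κ * P.2 ^ 2) * (u * u ^ (2 * g + 1)) := by ring
      rw [e3, hP3]
      have e4 : (P.1 - θ 0) * (∏ i : Fin (2 * g + 1), (P.1 - θ i.succ)) * (u * u ^ (2 * g + 1)) =
        ((P.1 - θ 0) * u) * ((∏ i : Fin (2 * g + 1), (P.1 - θ i.succ)) * u ^ (2 * g + 1)) := by
        ring
      rw [e4, huu, one_mul]
    · intro P _
      show |logHeight₁ (P.1 - θ 0)⁻¹ - logHeight₁ P.1| ≤ _
      rw [logHeight₁_inv]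
      exact hsub P.1 (θ 0)

end KGU_

/-- the gap principle for all hyperelliptic curves with rational Weierstrass points -/
theorem p_KGU (hG : T_GAP) : T_KGU := by
  intro K _ _ N hN θ κ hθ hκ C₀
  rcases Nat.even_or_odd N with he | ho
  · obtain ⟨g, hg⟩ : ∃ g, N = 2 * g + 1 + 1 := by
      obtain ⟨r, hr⟩ := he
      exact ⟨r - 1, by omega⟩
    subst hg
    exact KGU_.even hG K g (by omega) θ hθ κ hκ C₀
  · obtain ⟨g, hg⟩ : ∃ g, N = 2 * g + 1 := by
      obtain ⟨r, hr⟩ := ho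
      exact ⟨r, by omega⟩
    subst hg
    exact KGU_.odd hG K g (by omega) θ hθ κ hκ C₀

end Pool.Agent.HMW
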