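import Pool.Agent.HMW.TargetsK

set_option autoImplicit false

/-!
# HMW-KHP: heights of preperiodic points
-/

open Polynomial Height Height.AdmissibleAbsValues NumberField IsDedekindDomain
open scoped Classical WithZero

noncomputable section

namespace Pool.Agent.HMW

namespace KHP_

theorem hsum {K : Type} [Field K] [AdmissibleAbsValues K] (x : K) :
    logHeight₁ x = Vs K (fun v => Real.log (max 1 (v x))) := by
  rw [Height.logHeight₁_eq]
  have h1 : ∀ v, Pl K v → Real.posLog (v x) = Real.log (max 1 (v x)) := by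
    intro v hv
    rw [Real.posLog_eq_log_max_one (v.nonneg x)]
  exact Vs_congr h1

theorem hfs {K : Type} [Field K] [AdmissibleAbsValues K] (x : K) :
    FS K (fun v => Real.log (max 1 (v x))) := by
  by_cases hx : x = 0
  · subst hx
    have : (fun v : AbsoluteValue K ℝ => Real.log (max 1 (v (0 : K)))) = fun _ => 0 := by
      funext v
      simp
    rw [this]
    exact FS_zero
  · apply (Vs_log hx).1.subset
    intro v hv
    rw [Function.mem_support] at hv ⊢
    intro h
    apply hv
    have hpos : 0 < v.val x := v.val.pos hx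
    have h0 : v.val x = 1 := by
      rw [← Real.exp_log hpos]
      have : Real.log (v.val x) = 0 := h
      rw [this, Real.exp_zero]
    change Real.log (max 1 (v.val x)) = 0
    rw [h0, max_self, Real.log_one]

end KHP_

theorem p_KHP : T_KNB → T_KAR → T_KHP := by
  intro hNB hAR L _ _ d ζ hd hζ
  refine ⟨((archAbsVal (K := L)).map fun _ => Real.log 2).sum, ?_⟩
  intro c x hx
  rw [KHP_.hsum x, KHP_.hsum c]
  have hdiv : Vs L (fun v => Real.log (max 1 (v c))) / d
      = Vs L (fun v => (1 / (d : ℝ)) * Real.log (max 1 (v c))) := by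
    rw [Vs_const_mul _ (KHP_.hfs c)]
    ring
  rw [hdiv]
  unfold Vs
  have h1 : ((archAbsVal (K := L)).map fun v => Real.log (max 1 (v x))).sum
      ≤ ((archAbsVal (K := L)).map fun v => (1 / (d : ℝ)) * Real.log (max 1 (v c))).sum
        + ((archAbsVal (K := L)).map fun _ => Real.log 2).sum := by
    rw [← Multiset.sum_map_add]
    refine Multiset.sum_map_le_sum_map _ _ fun v _ => ?_
    have := (hAR L v d c x 0 hd).1 hx
    have h2 : (1 / (d : ℝ)) * Real.log (max 1 (v c)) = Real.log (max 1 (v c)) / d := by ring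
    rw [h2]
    exact this
  have h3 : ∑ᶠ v : nonarchAbsVal (K := L), Real.log (max 1 (v.val x))
      ≤ ∑ᶠ v : nonarchAbsVal (K := L), (1 / (d : ℝ)) * Real.log (max 1 (v.val c)) := by
    apply finsum_le_finsum' (KHP_.hfs x) ((KHP_.hfs c).const_mul (1 / (d : ℝ)))
    intro v
    have := (hNB L v.val (isNonarchimedean v.val v.2) d ζ c x 0 hd hζ).1 hx
    have h2 : (1 / (d : ℝ)) * Real.log (max 1 (v.val c)) = Real.log (max 1 (v.val c)) / d := by
      ring
    change Real.log (max 1 (v.val x)) ≤ (1 / (d : ℝ)) * Real.log (max 1 (v.val c))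
    rw [h2]
    exact this
  linarith

end Pool.Agent.HMW
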