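import Pool.Agent.HMW.TargetsK

set_option autoImplicit false

/-!
# HMW-KHT: heights of ratios of admissible pairs
-/

open Polynomial Height Height.AdmissibleAbsValues NumberField IsDedekindDomain
open scoped Classical WithZero

noncomputable section

namespace Pool.Agent.HMW

namespace KHT_

lemma per_pre {L : Type} [Field L] {d : ℕ} {c x : L} (h : PerK d c x) : PreK d c x := by
  obtain ⟨n, hn, hx⟩ := h
  refine (((Finset.range n).image fun k => (fk d c)^[k] x).finite_toSet).subset ?_
  rintro _ ⟨k, rfl⟩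
  rw [Finset.mem_coe, Finset.mem_image]
  refine ⟨k % n, Finset.mem_range.2 (Nat.mod_lt _ hn), ?_⟩
  exact hx.iterate_mod_apply k

lemma adm_pre {L : Type} [Field L] {d : ℕ} {c x z : L} (h : AdmK d c x z) :
    PreK d c x ∧ PreK d c z ∧ x ^ d ≠ z ^ d := by
  rcases h with ⟨hz, hx, hne, -⟩ | ⟨hz, hx, -, hnp, -⟩
  · refine ⟨hx, per_pre hz, fun he => hne 1 ?_⟩
    rw [Function.iterate_one, fk, fk, he]
  · have hper : PerK d c z := ⟨1, one_pos, by
      rw [Function.IsPeriodicPt, Function.iterate_one]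
      exact hz⟩
    refine ⟨hx, per_pre hper, fun he => hnp ?_⟩
    have : fk d c x = fk d c z := by rw [fk, fk, he]
    rw [this, hz]
    exact hper

variable {K : Type} [Field K] [AdmissibleAbsValues K]

lemma FS_h (x : K) : FS K (fun v => Real.log (max 1 (v x))) := by
  by_cases hx : x = 0
  · refine FS_congr (φ := fun _ => (0 : ℝ)) (fun v _ => ?_) FS_zero
    rw [hx, map_zero, max_eq_left zero_le_one, Real.log_one]
  · refine (Vs_log hx).1.subset fun v hv => ?_
    rw [Function.mem_support] at hv ⊢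
    intro h0
    apply hv
    have hpos : 0 < v.val x := v.val.pos hx
    rcases Real.log_eq_zero.1 h0 with h | h | h
    · exact absurd h hpos.ne'
    · change Real.log (max 1 (v.val x)) = 0
      rw [h, max_self, Real.log_one]
    · linarith

lemma h_eq (x : K) : logHeight₁ x = Vs K (fun v => Real.log (max 1 (v x))) := by
  rw [Height.logHeight₁_eq]
  unfold Vs
  simp only [Real.posLog_eq_log_max_one (AbsoluteValue.nonneg _ _)]

/-- the logarithm of the maximum -/
lemma h_ratio {x z : K} (hz : z ≠ 0) :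
    FS K (fun v => Real.log (max (v x) (v z))) ∧
      logHeight₁ (x / z) = Vs K (fun v => Real.log (max (v x) (v z))) := by
  have h1 : ∀ v : AbsoluteValue K ℝ, Real.log (max (v x) (v z)) =
      Real.log (max 1 (v (x / z))) + Real.log (v z) := by
    intro v
    have hpos : 0 < v z := v.pos hz
    rw [← Real.log_mul (by positivity) hpos.ne', max_mul_of_nonneg _ _ hpos.le, one_mul,
      map_div₀, div_mul_cancel₀ _ hpos.ne', max_comm]
  have h2 := (FS_h (x / z)).add (Vs_log hz).1
  have h3 : (fun v : AbsoluteValue K ℝ => Real.log (max (v x) (v z))) =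
      fun v => Real.log (max 1 (v (x / z))) + Real.log (v z) := funext h1
  rw [h3]
  refine ⟨h2, ?_⟩
  rw [Vs_add (FS_h (x / z)) (Vs_log hz).1, (Vs_log hz).2, add_zero, h_eq]

/-- the error term -/
def er (K : Type) [Field K] [AdmissibleAbsValues K] (d : ℕ) (v : AbsoluteValue K ℝ) : ℝ :=
  if v ∈ nonarchAbsVal (K := K) then 0 else 3 * Real.log 2 + |Real.log (v (d : K))|

lemma FS_er (d : ℕ) : FS K (er K d) := by
  unfold FS
  convert Set.finite_empty
  refine Set.eq_empty_of_forall_notMem fun v hv => ?_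
  rw [Function.mem_support] at hv
  exact hv (if_pos v.2)

lemma er_arch {d : ℕ} {v : AbsoluteValue K ℝ} (h : v ∉ nonarchAbsVal (K := K)) :
    er K d v = 3 * Real.log 2 + |Real.log (v (d : K))| := if_neg h

lemma er_non {d : ℕ} {v : AbsoluteValue K ℝ} (h : v ∈ nonarchAbsVal (K := K)) :
    er K d v = 0 := if_pos h

end KHT_

open KHT_ in
theorem p_KHT : T_KNB → T_KAR → T_KHT := by
  intro hNB hAR L _ _ d ζ hd hζ
  refine ⟨Vs L (er L d), fun c x z hadm hz => ?_⟩
  obtain ⟨hx, hzp, hne⟩ := adm_pre hadm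
  have hd0 : (0 : ℝ) < d := by
    have : 0 < d := by omega
    exact_mod_cast this
  have hd1 : (1 : ℝ) ≤ d := by
    have : 1 ≤ d := by omega
    exact_mod_cast this
  have hdinv : 0 ≤ 1 / (d : ℝ) ∧ 1 / (d : ℝ) ≤ 1 := ⟨by positivity, (div_le_one hd0).2 hd1⟩
  have hdL : (d : L) ≠ 0 := by
    have : d ≠ 0 := by omega
    exact_mod_cast this
  have hl2 : 0 < Real.log 2 := Real.log_pos one_lt_two
  set l : AbsoluteValue L ℝ → ℝ := fun v => Real.log (max 1 (v c)) with hl
  set m : AbsoluteValue L ℝ → ℝ := fun v => Real.log (max (v x) (v z)) with hm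
  set D : AbsoluteValue L ℝ → ℝ := fun v => Real.log (v (x ^ d - z ^ d)) with hD
  obtain ⟨hmF, hmV⟩ := h_ratio (x := x) hz
  change FS L m at hmF
  change _ = Vs L m at hmV
  have hlF : FS L l := FS_h c
  have hlV : logHeight₁ c = Vs L l := h_eq c
  obtain ⟨hDF, hDV⟩ := Vs_log (K := L) (sub_ne_zero.2 hne)
  change FS L D at hDF
  change Vs L D = 0 at hDV
  obtain ⟨hzF, hzV⟩ := Vs_log (K := L) hz
  obtain ⟨hdF, hdV⟩ := Vs_log (K := L) hdL
  have heF : FS L (er L d) := FS_er d
  have hna : ∀ v ∈ nonarchAbsVal (K := L), ∀ a b : L, v (a + b) ≤ max (v a) (v b) :=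
    fun v hv a b => isNonarchimedean v hv a b
  rw [hmV, hlV]
  have hl0 : 0 ≤ Vs L l := by
    rw [← hlV]
    exact zero_le_logHeight₁ c
  constructor
  · -- the lower bound
    rcases hadm with hA | hB
    · have hloc : ∀ v, Pl L v → 1 / (d : ℝ) * l v + 1 / (d : ℝ) * (D v - 1 / (d : ℝ) * l v) ≤
          m v + er L d v := by
        intro v hv
        by_cases hvn : v ∈ nonarchAbsVal (K := L)
        · obtain ⟨-, b2, -, b4, -⟩ := hNB L v (hna v hvn) d ζ c x z hd hζ
          have b2' := b2 hx hzp hne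
          have b4' := b4 hA
          rw [er_non hvn]
          change D v ≤ l v / d at b2'
          change l v / d ≤ m v at b4'
          have e1 : 1 / (d : ℝ) * l v = l v / d := by ring
          rw [e1]
          have e2 : 1 / (d : ℝ) * (D v - l v / d) ≤ 0 :=
            mul_nonpos_of_nonneg_of_nonpos hdinv.1 (by linarith)
          linarith
        · obtain ⟨-, b2⟩ := hAR L v d c x z hd
          obtain ⟨-, -, b3⟩ := b2 hx hzp hne
          change l v / d + (D v - l v / d) / d - 3 * Real.log 2 ≤ m v at b3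
          rw [er_arch hvn]
          have e1 : 1 / (d : ℝ) * l v + 1 / (d : ℝ) * (D v - 1 / (d : ℝ) * l v) =
            l v / d + (D v - l v / d) / d := by ring
          rw [e1]
          have := abs_nonneg (Real.log (v (d : L)))
          linarith
      have hF1 : FS L (fun v => D v - 1 / (d : ℝ) * l v) := hDF.sub (hlF.const_mul _)
      have hsum := Vs_mono ((hlF.const_mul (1 / (d : ℝ))).add (hF1.const_mul (1 / (d : ℝ))))
        (hmF.add heF) hloc
      rw [Vs_add (hlF.const_mul _) (hF1.const_mul _), Vs_const_mul _ hlF, Vs_const_mul _ hF1,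
        Vs_sub hDF (hlF.const_mul _), Vs_const_mul _ hlF, hDV, Vs_add hmF heF] at hsum
      have e3 : (1 - 1 / (d : ℝ)) ^ 2 * (Vs L l / d) ≤
          1 / (d : ℝ) * Vs L l + 1 / (d : ℝ) * (0 - 1 / (d : ℝ) * Vs L l) := by
        have e4 : 1 / (d : ℝ) * Vs L l + 1 / (d : ℝ) * (0 - 1 / (d : ℝ) * Vs L l) =
          (1 - 1 / (d : ℝ)) * (Vs L l / d) := by ring
        rw [e4]
        refine mul_le_mul_of_nonneg_right ?_ (by positivity)
        nlinarith [hdinv.1, hdinv.2]
      linarith
    · have hloc : ∀ v, Pl L v → (1 - 1 / (d : ℝ)) * (1 / (d : ℝ) * l v +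
          1 / (d : ℝ) * (D v - 1 / (d : ℝ) * l v)) + (1 / (d : ℝ) * Real.log (v z) +
          1 / (d : ℝ) * Real.log (v (d : L))) ≤ m v + er L d v := by
        intro v hv
        have hzm : Real.log (v z) ≤ m v := Real.log_le_log (v.pos hz) (le_max_right _ _)
        by_cases hvn : v ∈ nonarchAbsVal (K := L)
        · obtain ⟨-, b2, -, -, b5⟩ := hNB L v (hna v hvn) d ζ c x z hd hζ
          have b2' := b2 hx hzp hne
          have b5' := b5 hB hz hdL
          rw [er_non hvn]
          change D v ≤ l v / d at b2'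
          change (1 - 1 / (d : ℝ)) * (l v / d) + Real.log (v z) / d +
            Real.log (v (d : L)) / d ≤ m v at b5'
          have e2 : (1 - 1 / (d : ℝ)) * (1 / (d : ℝ) * (D v - l v / d)) ≤ 0 :=
            mul_nonpos_of_nonneg_of_nonpos (by linarith [hdinv.2])
              (mul_nonpos_of_nonneg_of_nonpos hdinv.1 (by linarith))
          have e3 : (1 - 1 / (d : ℝ)) * (1 / (d : ℝ) * l v +
            1 / (d : ℝ) * (D v - 1 / (d : ℝ) * l v)) + (1 / (d : ℝ) * Real.log (v z) +
            1 / (d : ℝ) * Real.log (v (d : L))) =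
            ((1 - 1 / (d : ℝ)) * (l v / d) + Real.log (v z) / d + Real.log (v (d : L)) / d) +
              (1 - 1 / (d : ℝ)) * (1 / (d : ℝ) * (D v - l v / d)) := by ring
          rw [e3]
          linarith
        · obtain ⟨-, b2⟩ := hAR L v d c x z hd
          obtain ⟨-, -, b3⟩ := b2 hx hzp hne
          change l v / d + (D v - l v / d) / d - 3 * Real.log 2 ≤ m v at b3
          rw [er_arch hvn]
          have e1 : 1 / (d : ℝ) * l v + 1 / (d : ℝ) * (D v - 1 / (d : ℝ) * l v) =
            l v / d + (D v - l v / d) / d := by ring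
          rw [e1]
          have e2 : (1 - 1 / (d : ℝ)) * (l v / d + (D v - l v / d) / d) ≤
              (1 - 1 / (d : ℝ)) * (m v + 3 * Real.log 2) :=
            mul_le_mul_of_nonneg_left (by linarith) (by linarith [hdinv.2])
          have e3 : 1 / (d : ℝ) * Real.log (v z) ≤ 1 / (d : ℝ) * m v :=
            mul_le_mul_of_nonneg_left hzm hdinv.1
          have e4 : 1 / (d : ℝ) * Real.log (v (d : L)) ≤ |Real.log (v (d : L))| := by
            have e5 : 1 / (d : ℝ) * Real.log (v (d : L)) ≤
                1 / (d : ℝ) * |Real.log (v (d : L))| :=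
              mul_le_mul_of_nonneg_left (le_abs_self _) hdinv.1
            have e6 : 1 / (d : ℝ) * |Real.log (v (d : L))| ≤ 1 * |Real.log (v (d : L))| :=
              mul_le_mul_of_nonneg_right hdinv.2 (abs_nonneg _)
            linarith
          have e7 : (1 - 1 / (d : ℝ)) * (m v + 3 * Real.log 2) + 1 / (d : ℝ) * m v =
              m v + 3 * Real.log 2 - 1 / (d : ℝ) * (3 * Real.log 2) := by ring
          have e8 : 0 ≤ 1 / (d : ℝ) * (3 * Real.log 2) := mul_nonneg hdinv.1 (by linarith)
          linarith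
      have hF1 : FS L (fun v => D v - 1 / (d : ℝ) * l v) := hDF.sub (hlF.const_mul _)
      have hF2 : FS L (fun v => 1 / (d : ℝ) * l v + 1 / (d : ℝ) * (D v - 1 / (d : ℝ) * l v)) :=
        (hlF.const_mul _).add (hF1.const_mul _)
      have hF3 : FS L (fun v => 1 / (d : ℝ) * Real.log (v z) +
          1 / (d : ℝ) * Real.log (v (d : L))) := (hzF.const_mul _).add (hdF.const_mul _)
      have hsum := Vs_mono ((hF2.const_mul (1 - 1 / (d : ℝ))).add hF3) (hmF.add heF) hloc
      rw [Vs_add (hF2.const_mul _) hF3, Vs_const_mul _ hF2,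
        Vs_add (hlF.const_mul _) (hF1.const_mul _), Vs_const_mul _ hlF, Vs_const_mul _ hF1,
        Vs_sub hDF (hlF.const_mul _), Vs_const_mul _ hlF, hDV,
        Vs_add (hzF.const_mul _) (hdF.const_mul _), Vs_const_mul _ hzF, Vs_const_mul _ hdF,
        hzV, hdV, Vs_add hmF heF] at hsum
      have e3 : (1 - 1 / (d : ℝ)) ^ 2 * (Vs L l / d) =
          (1 - 1 / (d : ℝ)) * (1 / (d : ℝ) * Vs L l +
            1 / (d : ℝ) * (0 - 1 / (d : ℝ) * Vs L l)) + (1 / (d : ℝ) * 0 + 1 / (d : ℝ) * 0) := by
        ring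
      linarith
  · -- the upper bound
    have hloc : ∀ v, Pl L v → m v ≤ 1 / (d : ℝ) * l v + er L d v := by
      intro v hv
      have e1 : 1 / (d : ℝ) * l v = l v / d := by ring
      rw [e1]
      by_cases hvn : v ∈ nonarchAbsVal (K := L)
      · obtain ⟨-, -, b3, -⟩ := hNB L v (hna v hvn) d ζ c x z hd hζ
        have b3' := b3 hx hzp hne
        rw [er_non hvn, add_zero]
        exact b3'
      · obtain ⟨-, b2⟩ := hAR L v d c x z hd
        obtain ⟨-, b3, -⟩ := b2 hx hzp hne
        change m v ≤ l v / d + Real.log 2 at b3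
        rw [er_arch hvn]
        have := abs_nonneg (Real.log (v (d : L)))
        linarith
    have hsum := Vs_mono hmF ((hlF.const_mul (1 / (d : ℝ))).add heF) hloc
    rw [Vs_add (hlF.const_mul _) heF, Vs_const_mul _ hlF] at hsum
    have e1 : 1 / (d : ℝ) * Vs L l = Vs L l / d := by ring
    rw [e1] at hsum
    exact hsum

end Pool.Agent.HMW
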