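import Pool.Agent.HMW.TargetsK

set_option autoImplicit false
set_option linter.unusedVariables false

/-! KNB: bounds at nonarchimedean places. -/

open Polynomial Height Height.AdmissibleAbsValues NumberField IsDedekindDomain
open scoped Classical WithZero

noncomputable section

namespace Pool.Agent.HMW

namespace KNB_

variable {L : Type} [Field L]

/-- the valuation of a nonarchimedean absolute value -/
def nv (v : AbsoluteValue L ℝ) (hv : ∀ x y, v (x + y) ≤ max (v x) (v y)) : Valuation L NNReal where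
  toFun x := ⟨v x, v.nonneg x⟩
  map_zero' := Subtype.ext (map_zero v)
  map_one' := Subtype.ext (map_one v)
  map_mul' x y := Subtype.ext (map_mul v x y)
  map_add_le_max' x y := by
    rcases le_max_iff.1 (hv x y) with h | h
    · exact le_max_of_le_left (show (⟨v (x + y), v.nonneg _⟩ : NNReal) ≤ ⟨v x, v.nonneg x⟩ from h)
    · exact le_max_of_le_right (show (⟨v (x + y), v.nonneg _⟩ : NNReal) ≤ ⟨v y, v.nonneg y⟩ from h)

theorem nv_coe (v : AbsoluteValue L ℝ) (hv : ∀ x y, v (x + y) ≤ max (v x) (v y)) (x : L) :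
    ((nv v hv x : NNReal) : ℝ) = v x := rfl

theorem val (hK : T_KVAL) (v : AbsoluteValue L ℝ) (hv : ∀ x y, v (x + y) ≤ max (v x) (v y))
    {d : ℕ} (hd : 2 ≤ d) {c x : L} (hx : PreK d c x) :
    (v c ≤ 1 → v x ≤ 1) ∧ (1 < v c → v x ^ d = v c) := by
  obtain ⟨h1, h2⟩ := hK L NNReal (nv v hv) d c x hd hx
  constructor
  · intro h
    have := h1 (by rw [← NNReal.coe_le_coe]; exact h)
    rw [← NNReal.coe_le_coe] at this
    exact this
  · intro h
    have := h2 (by rw [← NNReal.coe_lt_coe]; exact h)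
    have h3 := congrArg (fun y : NNReal => (y : ℝ)) this
    simpa [nv_coe] using h3

theorem lmax_of_le {a : ℝ} (h : a ≤ 1) : Real.log (max 1 a) = 0 := by
  rw [max_eq_left h, Real.log_one]

theorem lmax_of_gt {a : ℝ} (h : 1 < a) : Real.log (max 1 a) = Real.log a := by
  rw [max_eq_right h.le]

theorem lmax_nonneg (a : ℝ) : 0 ≤ Real.log (max 1 a) := Real.log_nonneg (le_max_left _ _)

/-- the value for large `c` -/
theorem logv (hK : T_KVAL) (v : AbsoluteValue L ℝ) (hv : ∀ x y, v (x + y) ≤ max (v x) (v y))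
    {d : ℕ} (hd : 2 ≤ d) {c x : L} (hx : PreK d c x) (hc : 1 < v c) :
    1 < v x ∧ Real.log (v x) = Real.log (max 1 (v c)) / d := by
  have h1 := (val hK v hv hd hx).2 hc
  have hd0 : (d : ℝ) ≠ 0 := by positivity
  constructor
  · by_contra hcon
    push Not at hcon
    have := pow_le_one₀ (n := d) (v.nonneg x) hcon
    linarith
  · rw [lmax_of_gt hc, ← h1, Real.log_pow]
    field_simp

theorem one (hK : T_KVAL) (v : AbsoluteValue L ℝ) (hv : ∀ x y, v (x + y) ≤ max (v x) (v y))
    {d : ℕ} (hd : 2 ≤ d) {c x : L} (hx : PreK d c x) :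
    Real.log (max 1 (v x)) ≤ Real.log (max 1 (v c)) / d := by
  rcases le_or_gt (v c) 1 with hc | hc
  · rw [lmax_of_le hc, lmax_of_le ((val hK v hv hd hx).1 hc), zero_div]
  · obtain ⟨h1, h2⟩ := logv hK v hv hd hx hc
    rw [lmax_of_gt h1, h2]

theorem log_le {a b : ℝ} (ha : 0 < a) (h : a ≤ max 1 b) : Real.log a ≤ Real.log (max 1 b) :=
  Real.log_le_log ha h

theorem PreK.next {d : ℕ} {c x : L} (h : PreK d c x) : PreK d c (fk d c x) := by
  refine h.subset ?_
  rintro _ ⟨k, rfl⟩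
  exact ⟨k + 1, by simp [Function.iterate_succ_apply]⟩

theorem fix_iter {d : ℕ} {c z : L} (h : fk d c z = z) (k : ℕ) : (fk d c)^[k] z = z :=
  Function.iterate_fixed h k

theorem PreK.of_fix {d : ℕ} {c z : L} (h : fk d c z = z) : PreK d c z := by
  refine (Set.finite_singleton z).subset ?_
  rintro _ ⟨k, rfl⟩
  exact fix_iter h k

theorem v_zeta (v : AbsoluteValue L ℝ) {d : ℕ} (hd : 2 ≤ d) {ζ : L} (hζ : IsPrimitiveRoot ζ d) :
    v ζ = 1 := by
  have h1 : v ζ ^ d = 1 := by rw [← map_pow, hζ.pow_eq_one, map_one]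
  exact (pow_eq_one_iff_of_nonneg (v.nonneg ζ) (by omega)).1 h1

theorem sub_le (v : AbsoluteValue L ℝ) (hv : ∀ x y, v (x + y) ≤ max (v x) (v y)) (x y : L) :
    v (x - y) ≤ max (v x) (v y) := by
  rw [sub_eq_add_neg]
  refine (hv _ _).trans ?_
  rw [v.map_neg]

theorem nat_le_one (v : AbsoluteValue L ℝ) (hv : ∀ x y, v (x + y) ≤ max (v x) (v y)) (n : ℕ) :
    v (n : L) ≤ 1 := by
  induction n with
  | zero => simp
  | succ n ih =>
    rw [Nat.cast_succ]
    exact (hv _ _).trans (max_le ih (by rw [map_one]))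

/-- `v (ζ ^ a - 1)` is at least `v d` -/
theorem v_root (v : AbsoluteValue L ℝ) (hv : ∀ x y, v (x + y) ≤ max (v x) (v y)) {d : ℕ}
    (hd : 2 ≤ d) {ζ : L} (hζ : IsPrimitiveRoot ζ d) {a : ℕ} (ha : ¬ d ∣ a) :
    v (d : L) ≤ v (ζ ^ a - 1) := by
  obtain ⟨n, rfl⟩ : ∃ n, d = n + 1 := ⟨d - 1, by omega⟩
  have hr : a % (n + 1) ≠ 0 := fun h => ha (Nat.dvd_of_mod_eq_zero h)
  have hlt : a % (n + 1) < n + 1 := Nat.mod_lt _ (by omega)
  have h1 : ζ ^ a = ζ ^ (a % (n + 1)) := (pow_mod_orderOf' hζ a).symm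
  have h2 := hζ.prod_one_sub_pow_eq_order
  have h3 : a % (n + 1) - 1 ∈ Finset.range n := Finset.mem_range.2 (by omega)
  have h4 : ∀ k, v (1 - ζ ^ k) ≤ 1 := fun k => by
    refine (sub_le v hv _ _).trans ?_
    rw [map_one, map_pow, v_zeta v hd hζ, one_pow, max_self]
  have h5 : v (((n + 1 : ℕ)) : L) = v (1 - ζ ^ (a % (n + 1))) *
      ∏ k ∈ (Finset.range n).erase (a % (n + 1) - 1), v (1 - ζ ^ (k + 1)) := by
    push_cast
    rw [← h2, map_prod, ← Finset.mul_prod_erase _ _ h3]
    congr 3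
    rw [Nat.sub_add_cancel (by omega)]
  rw [h5, h1, v.map_sub (ζ ^ (a % (n + 1))) 1]
  have h6 : ∏ k ∈ (Finset.range n).erase (a % (n + 1) - 1), v (1 - ζ ^ (k + 1)) ≤ 1 :=
    Finset.prod_le_one (fun _ _ => v.nonneg _) (fun k _ => h4 (k + 1))
  calc v (1 - ζ ^ (a % (n + 1))) * _ ≤ v (1 - ζ ^ (a % (n + 1))) * 1 :=
        mul_le_mul_of_nonneg_left h6 (v.nonneg _)
    _ = v (1 - ζ ^ (a % (n + 1))) := mul_one _
where
  pow_mod_orderOf' {ζ : L} {m : ℕ} (hζ : IsPrimitiveRoot ζ m) (a : ℕ) : ζ ^ (a % m) = ζ ^ a := by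
    conv_rhs => rw [← Nat.mod_add_div a m, pow_add, pow_mul, hζ.pow_eq_one, one_pow, mul_one]

/-- the tail of an orbit which ends in a fixed point -/
theorem tail (hT : T_KTAIL) {d : ℕ} (hd : 2 ≤ d) {ζ c x z : L} (hζ : IsPrimitiveRoot ζ d)
    (h : AdmKB d c x z) : ∃ (i a : ℕ), 1 ≤ i ∧ ¬ d ∣ a ∧ (fk d c)^[i] x = ζ ^ a * z := by
  obtain ⟨hz, hx, hnp, hnp1, k, hk⟩ := h
  obtain ⟨i, a, z', ha, hz', h1, h2, -, h3⟩ := hT L d ζ c x hd hζ hx hnp
  refine ⟨i, a, h3 hnp1, ha, ?_⟩
  have hz'z : z' = z := by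
    obtain ⟨n, hn, hn'⟩ := hz'
    -- `f z'` lies in the orbit of `x`
    have h4 : (fk d c)^[k + 1] z' = z := by
      have h5 : (fk d c)^[k + 1] z' = (fk d c)^[k] (fk d c z') := by
        rw [Function.iterate_succ_apply]
      rw [h5, ← h2, ← Function.iterate_add_apply, Nat.add_comm, Function.iterate_add_apply, hk]
      exact fix_iter hz _
    have h6 : (fk d c)^[n * (k + 1)] z' = z' := (hn'.mul_const (k + 1)).eq
    have h7 : n * (k + 1) = (n - 1) * (k + 1) + (k + 1) := by
      obtain ⟨n', rfl⟩ : ∃ n', n = n' + 1 := ⟨n - 1, by omega⟩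
      simp
      ring
    rw [h7, Function.iterate_add_apply, h4, fix_iter hz] at h6
    exact h6.symm
  rw [h1, hz'z]

/-- the main estimate for integral `c` -/
theorem main (hT : T_KTAIL) (v : AbsoluteValue L ℝ)
    (hv : ∀ x y, v (x + y) ≤ max (v x) (v y)) {d : ℕ}
    (hd : 2 ≤ d) {ζ c x z : L} (hζ : IsPrimitiveRoot ζ d) (h : AdmKB d c x z) (hz1 : v z ≤ 1)
    (hz0 : z ≠ 0) (hd0 : (d : L) ≠ 0) :
    v (d : L) * v z ≤ max (v x) (v z) ^ d := by
  have hvd := nat_le_one v hv d
  by_cases h1 : v z = 1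
  · rw [h1, mul_one]
    exact hvd.trans (one_le_pow₀ (le_max_right _ _))
  have hzlt : v z < 1 := lt_of_le_of_ne hz1 h1
  by_contra hcon
  push Not at hcon
  have hx1 : v x ^ d < v (d : L) * v z :=
    lt_of_le_of_lt (pow_le_pow_left₀ (v.nonneg x) (le_max_left _ _) d) hcon
  have hz2 : v z ^ d < v (d : L) * v z :=
    lt_of_le_of_lt (pow_le_pow_left₀ (v.nonneg z) (le_max_right _ _) d) hcon
  have hle : v (d : L) * v z ≤ v z := by
    calc v (d : L) * v z ≤ 1 * v z := mul_le_mul_of_nonneg_right hvd (v.nonneg z)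
      _ = v z := one_mul _
  have hfz : z ^ d + c = z := h.1
  have hind : ∀ k, v ((fk d c)^[k + 1] x - z) < v (d : L) * v z := by
    intro k
    induction k with
    | zero =>
      have h2 : (fk d c)^[0 + 1] x - z = x ^ d - z ^ d := by
        simp only [zero_add, Function.iterate_one, fk]
        linear_combination hfz
      rw [h2]
      refine lt_of_le_of_lt (sub_le v hv _ _) (max_lt ?_ ?_)
      · rw [map_pow]; exact hx1
      · rw [map_pow]; exact hz2
    | succ k ih =>
      have h2 : (fk d c)^[k + 1 + 1] x - z = ((fk d c)^[k + 1] x) ^ d - z ^ d := by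
        rw [Function.iterate_succ_apply' (fk d c) (k + 1)]
        simp only [fk]
        linear_combination hfz
      have h3 : v ((fk d c)^[k + 1] x) ≤ v z := by
        have h4 : (fk d c)^[k + 1] x = ((fk d c)^[k + 1] x - z) + z := by ring
        rw [h4]
        exact (hv _ _).trans (max_le (ih.le.trans hle) le_rfl)
      rw [h2]
      refine lt_of_le_of_lt (sub_le v hv _ _) (max_lt ?_ ?_)
      · rw [map_pow]
        exact lt_of_le_of_lt (pow_le_pow_left₀ (v.nonneg _) h3 d) hz2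
      · rw [map_pow]; exact hz2
  obtain ⟨i, a, hi, ha, hia⟩ := tail hT hd hζ h
  have h5 := hind (i - 1)
  rw [Nat.sub_add_cancel hi, hia] at h5
  have h6 : ζ ^ a * z - z = (ζ ^ a - 1) * z := by ring
  rw [h6, v.map_mul] at h5
  have h7 := v_root v hv hd hζ ha
  have h8 := mul_le_mul_of_nonneg_right h7 (v.nonneg z)
  linarith

end KNB_

open KNB_

theorem p_KNB (hKVAL : T_KVAL) (hKSA : T_KSA) (hKTAIL : T_KTAIL) : T_KNB := by
  intro L _ v hv d ζ c x z hd hζ
  have hdR : (0 : ℝ) < d := by positivity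
  refine ⟨fun hx => one hKVAL v hv hd hx, fun hx hz hxz => ?_, fun hx hz hxz => ?_, fun h => ?_,
    fun h hz0 hd0 => ?_⟩
  · have h1 := one hKVAL v hv hd (PreK.next hx)
    have h2 := one hKVAL v hv hd (PreK.next hz)
    have h3 : x ^ d - z ^ d = fk d c x - fk d c z := by simp [fk]
    have h4 : 0 < v (x ^ d - z ^ d) := v.pos (sub_ne_zero.2 hxz)
    rcases le_max_iff.1 (h3 ▸ sub_le v hv (fk d c x) (fk d c z)) with h5 | h5
    · exact (log_le h4 (h5.trans (le_max_right _ _))).trans h1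
    · exact (log_le h4 (h5.trans (le_max_right _ _))).trans h2
  · have h1 := one hKVAL v hv hd hx
    have h2 := one hKVAL v hv hd hz
    have h4 : 0 < max (v x) (v z) := by
      by_contra hcon
      push Not at hcon
      have hx0 : v x = 0 := le_antisymm ((le_max_left _ _).trans hcon) (v.nonneg x)
      have hz0 : v z = 0 := le_antisymm ((le_max_right _ _).trans hcon) (v.nonneg z)
      rw [v.eq_zero] at hx0 hz0
      exact hxz (by rw [hx0, hz0])
    rcases max_choice (v x) (v z) with h5 | h5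
    · rw [h5] at h4 ⊢
      exact (log_le h4 (le_max_right _ _)).trans h1
    · rw [h5] at h4 ⊢
      exact (log_le h4 (le_max_right _ _)).trans h2
  · rcases le_or_gt (v c) 1 with hc | hc
    · rw [lmax_of_le hc, zero_div]
      have h1 := hKSA L NNReal (nv v hv) d ζ c x z hd hζ
        (by rw [← NNReal.coe_le_coe]; exact hc) h 1 (by
          intro hdvd
          have := Nat.le_of_dvd one_pos hdvd
          omega)
      have h2 : v (x - ζ ^ 1 * z) = 1 := by
        have h3 := congrArg (fun y : NNReal => (y : ℝ)) h1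
        simpa [nv_coe] using h3
      have h3 := sub_le v hv x (ζ ^ 1 * z)
      rw [h2, v.map_mul, map_pow, v_zeta v hd hζ, one_pow, one_mul] at h3
      exact Real.log_nonneg h3
    · obtain ⟨h1, h2⟩ := logv hKVAL v hv hd h.2.1 hc
      rw [← h2]
      exact Real.log_le_log (by linarith) (le_max_left _ _)
  · have hzp : PreK d c z := PreK.of_fix h.1
    have hvd : Real.log (v (d : L)) ≤ 0 := Real.log_nonpos (v.nonneg _) (nat_le_one v hv d)
    rcases le_or_gt (v c) 1 with hc | hc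
    · rw [lmax_of_le hc, zero_div, mul_zero, zero_add]
      have hz1 := (val hKVAL v hv hd hzp).1 hc
      have h1 := main hKTAIL v hv hd hζ h hz1 hz0 hd0
      have h2 : 0 < v (d : L) := v.pos hd0
      have h3 : 0 < v z := v.pos hz0
      have h4 := Real.log_le_log (mul_pos h2 h3) h1
      rw [Real.log_mul h2.ne' h3.ne', Real.log_pow] at h4
      rw [← add_div, div_le_iff₀ hdR]
      linarith
    · obtain ⟨h1, h2⟩ := logv hKVAL v hv hd h.2.1 hc
      obtain ⟨h3, h4⟩ := logv hKVAL v hv hd hzp hc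
      have h5 : Real.log (max 1 (v c)) / d ≤ Real.log (max (v x) (v z)) := by
        rw [← h2]
        exact Real.log_le_log (by linarith) (le_max_left _ _)
      refine le_trans ?_ h5
      rw [h4]
      have h6 : Real.log (v (d : L)) / d ≤ 0 := div_nonpos_of_nonpos_of_nonneg hvd hdR.le
      have h7 : (1 - 1 / (d : ℝ)) * (Real.log (max 1 (v c)) / d) +
          Real.log (max 1 (v c)) / d / d = Real.log (max 1 (v c)) / d := by
        field_simp
        ring
      linarith

end Pool.Agent.HMW
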