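import Pool.Agent.HMW.TargetsK

set_option autoImplicit false
set_option linter.unusedVariables false

/-!
# KPT: the factors agree up to `(d-1)`-th powers and finitely many constants
-/

open Polynomial Height Height.AdmissibleAbsValues NumberField IsDedekindDomain
open scoped Classical WithZero

noncomputable section

namespace Pool.Agent.HMW

namespace KPT_

/-- nonvanishing -/
theorem ne_zero (hKS : T_KS) {L : Type} [Field L] [CharZero L] {d : ℕ}
    {ζ c x z : L} (hd : 2 ≤ d) (hζ : IsPrimitiveRoot ζ d)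
    (hA : AdmK d c x z) (hz : z ≠ 0) (i : ℕ) (hi : ¬ d ∣ i) : x - ζ ^ i * z ≠ 0 := by
  have hd0 : (d : L) ≠ 0 := by
    have : d ≠ 0 := by omega
    exact_mod_cast this
  have hw : (1 : Valuation L ℤᵐ⁰) (d : L) = 1 := Valuation.one_apply_of_ne_zero hd0
  exact (hKS L 1 d ζ c x z hd hζ hw hA hz i i hi hi).1

/-- a prime which does not contain `d` -/
theorem val_one {L : Type} [Field L] [NumberField L] (v : HeightOneSpectrum (𝓞 L)) (d : ℕ)
    (hv : (d : 𝓞 L) ∉ v.asIdeal) : v.valuation L (d : L) = 1 := by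
  have h5 : v.valuation L (algebraMap (𝓞 L) L (d : 𝓞 L)) ≤ 1 := v.valuation_le_one _
  have h6 : ¬ v.valuation L (algebraMap (𝓞 L) L (d : 𝓞 L)) < 1 := fun h =>
    hv ((v.valuation_lt_one_iff_mem _).mp h)
  have h7 : algebraMap (𝓞 L) L (d : 𝓞 L) = (d : L) := map_natCast _ _
  rw [h7] at h5 h6
  exact le_antisymm h5 (not_lt.mp h6)

end KPT_

open KPT_ in
theorem p_KPT : T_KS → T_SEL → T_KPT := by
  intro hKS hSEL L _ _ d ζ hd hζ
  have hN : ((d : ℕ) : 𝓞 L) ≠ 0 := by
    have : d ≠ 0 := by omega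
    exact_mod_cast this
  obtain ⟨A, hA0, hA⟩ := hSEL L (d - 1) (d : 𝓞 L) (by omega) hN
  refine ⟨A, hA0, fun c x z hadm hz i j hi hj => ?_⟩
  have ni := ne_zero hKS hd hζ hadm hz i hi
  have nj := ne_zero hKS hd hζ hadm hz j hj
  refine ⟨ni, ?_⟩
  obtain ⟨a, ha, X, hX0, hX⟩ := hA ((x - ζ ^ i * z) / (x - ζ ^ j * z)) (div_ne_zero ni nj)
    fun v hv => by
      have hw := val_one v d hv
      have h := (hKS L (v.valuation L) d ζ c x z hd hζ hw hadm hz i j hi hj).2
      have e1 : v.valuation L (x - ζ ^ i * z) ≠ 0 := ((v.valuation L).ne_zero_iff).mpr ni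
      have e2 : v.valuation L (x - ζ ^ j * z) ≠ 0 := ((v.valuation L).ne_zero_iff).mpr nj
      rw [map_div₀, WithZero.log_div e1 e2, Nat.cast_sub (by omega : 1 ≤ d)]
      exact_mod_cast h
  refine ⟨a, ha, X, hX0, ?_⟩
  rw [← hX, div_mul_cancel₀ _ nj]

end Pool.Agent.HMW
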