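import Pool.Agent.HMW.TargetsK

set_option autoImplicit false

/-!
# MP_c076ed_nt, part K: the power structure
-/

open scoped Classical WithZero

noncomputable section

namespace Pool.Agent.HMW

namespace KS_

theorem preK_of_perK {L : Type} [Field L] {d : ℕ} {c z : L} (h : PerK d c z) : PreK d c z := by
  obtain ⟨n, hn, hp⟩ := h
  unfold PreK
  refine ((Finset.range n).finite_toSet.image fun k => (fk d c)^[k] z).subset ?_
  rintro _ ⟨k, rfl⟩
  refine ⟨k % n, ?_, ?_⟩
  · rw [Finset.mem_coe, Finset.mem_range]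
    exact Nat.mod_lt _ hn
  · exact hp.iterate_mod_apply k

theorem perK_of_fixed {L : Type} [Field L] {d : ℕ} {c z : L} (h : fk d c z = z) : PerK d c z :=
  ⟨1, Nat.one_pos, by
    show Function.IsFixedPt _ _
    rw [Function.iterate_one]
    exact h⟩

theorem facts {L : Type} [Field L] {d : ℕ} {c x z : L} (h : AdmK d c x z) :
    PreK d c x ∧ PreK d c z ∧ x ^ d ≠ z ^ d := by
  rcases h with ⟨h1, h2, h3, -⟩ | ⟨h1, h2, h3, h4, -⟩
  · refine ⟨h2, preK_of_perK h1, fun h => h3 1 ?_⟩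
    rw [Function.iterate_one]
    unfold fk
    rw [h]
  · refine ⟨h2, preK_of_perK (perK_of_fixed h1), fun h => h4 ?_⟩
    have h5 : fk d c x = z := by
      rw [← h1]
      unfold fk
      rw [h]
    rw [h5]
    exact perK_of_fixed h1

end KS_

open KS_

theorem p_KS : T_KSB → T_KSA → T_KSC → T_KS := by
  intro hB hA hC L _ _ w d ζ c x z hd hζ hw h hz i j hi hj
  obtain ⟨h1, h2, h3⟩ := facts h
  have h4 : x - ζ ^ i * z ≠ 0 := by
    intro h5
    apply h3
    rw [sub_eq_zero.1 h5, mul_pow, ← pow_mul, mul_comm i d, pow_mul, hζ.pow_eq_one, one_pow,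
      one_mul]
  refine ⟨h4, ?_⟩
  rcases lt_or_ge 1 (w c) with hc | hc
  · have e1 := hB L w d ζ c x z hd hζ hw hc h1 h2 h3 i
    have e2 := hB L w d ζ c x z hd hζ hw hc h1 h2 h3 j
    have e3 := dvd_sub e1 e2
    rwa [sub_sub_sub_cancel_right] at e3
  · rcases h with h | h
    · rw [hA L ℤᵐ⁰ w d ζ c x z hd hζ hc h i hi, hA L ℤᵐ⁰ w d ζ c x z hd hζ hc h j hj, sub_self]
      exact dvd_zero _
    · rw [hC L ℤᵐ⁰ w d ζ c x z hd hζ hw hc h hz i j hi hj, sub_self]
      exact dvd_zero _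

end Pool.Agent.HMW
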