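import Pool.Agent.HMW.TargetsK

set_option autoImplicit false

/-!
# KSA: the factors are units at a place where `c` is integral (first kind)
-/

open scoped Classical WithZero

noncomputable section

namespace Pool.Agent.HMW

namespace KSA_

section iter

variable {L : Type} [Field L]

theorem pre_iter {d : ℕ} {c x : L} (h : PreK d c x) (k : ℕ) : PreK d c ((fk d c)^[k] x) := by
  refine Set.Finite.subset h ?_
  rintro y ⟨m, rfl⟩
  exact ⟨m + k, by simp [Function.iterate_add_apply]⟩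

theorem pre_of_per {d : ℕ} {c x : L} (h : PerK d c x) : PreK d c x := by
  obtain ⟨m, hm, hx⟩ := h
  refine ((Finset.range m).finite_toSet.image fun k => (fk d c)^[k] x).subset ?_
  rintro y ⟨k, rfl⟩
  exact ⟨k % m, by simpa using Nat.mod_lt k hm, hx.iterate_mod_apply k⟩

theorem per_iter {d : ℕ} {c x : L} (h : PerK d c x) (k : ℕ) : PerK d c ((fk d c)^[k] x) := by
  obtain ⟨m, hm, hx⟩ := h
  exact ⟨m, hm, hx.apply_iterate k⟩

theorem diff_succ (d : ℕ) (c x z : L) (k : ℕ) :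
    (fk d c)^[k + 1] x - (fk d c)^[k + 1] z =
      ((fk d c)^[k] x) ^ d - ((fk d c)^[k] z) ^ d := by
  rw [Function.iterate_succ_apply', Function.iterate_succ_apply']
  simp [fk]

end iter

variable {L Γ : Type} [Field L] [LinearOrderedCommGroupWithZero Γ] {w : Valuation L Γ}

theorem w_le (hV : T_KVAL) {d : ℕ} (hd : 2 ≤ d) {c x : L} (hc : w c ≤ 1) (h : PreK d c x) :
    w x ≤ 1 := (hV L Γ w d c x hd h).1 hc

theorem w_root {d : ℕ} {ζ : L} (hd : d ≠ 0) (hζ : ζ ^ d = 1) : w ζ = 1 := by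
  have h1 : w ζ ^ d = 1 := by rw [← map_pow, hζ, map_one]
  rcases lt_trichotomy (w ζ) 1 with h | h | h
  · exact absurd h1 (ne_of_lt (pow_lt_one₀ zero_le h hd))
  · exact h
  · exact absurd h1 (ne_of_gt (one_lt_pow₀ h hd))

theorem w_fac {d : ℕ} {ξ X Z : L} (hd : d ≠ 0) (hξ : ξ ^ d = 1) (hX : w X ≤ 1) (hZ : w Z ≤ 1) :
    w (X - ξ * Z) ≤ 1 := by
  refine (w.map_sub _ _).trans (max_le hX ?_)
  rw [map_mul, w_root hd hξ, one_mul]; exact hZ

theorem prod_le (s : Finset L) (F : L → L) (h : ∀ ξ ∈ s, w (F ξ) ≤ 1) :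
    w (∏ ξ ∈ s, F ξ) ≤ 1 := by
  rw [map_prod]
  exact Finset.prod_le_one' h

theorem step {d : ℕ} {ζ : L} (hd : 0 < d) (hζ : IsPrimitiveRoot ζ d) {X Z : L} (hX : w X ≤ 1)
    (hZ : w Z ≤ 1) {j : ℕ} (hj : ¬ d ∣ j) :
    w (X ^ d - Z ^ d) ≤ w (X - Z) * w (X - ζ ^ j * Z) := by
  have h1 := hζ.pow_sub_pow_eq_prod_sub_mul X Z hd
  have hm1 : (1 : L) ∈ Polynomial.nthRootsFinset d (1 : L) := by
    rw [Polynomial.mem_nthRootsFinset hd]; simp
  have hmj : ζ ^ j ∈ (Polynomial.nthRootsFinset d (1 : L)).erase 1 := by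
    rw [Finset.mem_erase, Polynomial.mem_nthRootsFinset hd]
    refine ⟨fun h => hj ((hζ.pow_eq_one_iff_dvd j).1 h), ?_⟩
    rw [← pow_mul, mul_comm, pow_mul, hζ.pow_eq_one, one_pow]
  rw [h1, ← Finset.mul_prod_erase _ _ hm1, ← Finset.mul_prod_erase _ _ hmj, one_mul, map_mul,
    map_mul]
  refine mul_le_mul_right ?_ _
  refine mul_le_of_le_one_right' ?_
  refine prod_le _ _ fun ξ hξ => ?_
  have h2 := (Polynomial.mem_nthRootsFinset hd _).1
    (Finset.mem_of_mem_erase (Finset.mem_of_mem_erase hξ))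
  exact w_fac hd.ne' h2 hX hZ

theorem step0 {d : ℕ} {ζ : L} (hd : 0 < d) (hζ : IsPrimitiveRoot ζ d) {X Z : L} (hX : w X ≤ 1)
    (hZ : w Z ≤ 1) (j : ℕ) : w (X ^ d - Z ^ d) ≤ w (X - ζ ^ j * Z) := by
  have h1 := hζ.pow_sub_pow_eq_prod_sub_mul X Z hd
  have hmj : ζ ^ j ∈ Polynomial.nthRootsFinset d (1 : L) := by
    rw [Polynomial.mem_nthRootsFinset hd]
    rw [← pow_mul, mul_comm, pow_mul, hζ.pow_eq_one, one_pow]
  rw [h1, ← Finset.mul_prod_erase _ _ hmj, map_mul]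
  refine mul_le_of_le_one_right' ?_
  refine prod_le _ _ fun ξ hξ => ?_
  have h2 := (Polynomial.mem_nthRootsFinset hd _).1 (Finset.mem_of_mem_erase hξ)
  exact w_fac hd.ne' h2 hX hZ

/-- the periodic case -/
theorem periodic (hV : T_KVAL) {d : ℕ} (hd : 2 ≤ d) {ζ : L} (hζ : IsPrimitiveRoot ζ d)
    {c x z : L} (hc : w c ≤ 1) (hx : PerK d c x) (hz : PerK d c z) (hne : x ≠ z) {j : ℕ}
    (hj : ¬ d ∣ j) : w (x - ζ ^ j * z) = 1 := by
  have hd0 : 0 < d := by omega
  have hxw : ∀ k, w ((fk d c)^[k] x) ≤ 1 := fun k =>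
    w_le hV (by omega) hc (pre_iter (pre_of_per hx) k)
  have hzw : ∀ k, w ((fk d c)^[k] z) ≤ 1 := fun k =>
    w_le hV (by omega) hc (pre_iter (pre_of_per hz) k)
  set a : ℕ → Γ := fun k => w ((fk d c)^[k] x - (fk d c)^[k] z) with ha
  have hdec : ∀ k, a (k + 1) ≤ a k := by
    intro k
    rw [ha]
    simp only []
    rw [diff_succ]
    simpa using step0 hd0 hζ (hxw k) (hzw k) 0
  have hanti : Antitone a := antitone_nat_of_succ_le hdec
  obtain ⟨m, hm, hmx⟩ := hx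
  obtain ⟨m', hm', hmz⟩ := hz
  have hper : a (m * m') = a 0 := by
    rw [ha]
    simp only [Function.iterate_zero, id]
    have h1 : (fk d c)^[m * m'] x = x := hmx.mul_const m'
    have h2 : (fk d c)^[m * m'] z = z := hmz.const_mul m
    rw [h1, h2]
  have h10 : a 1 = a 0 := by
    refine le_antisymm (hdec 0) ?_
    rw [← hper]
    exact hanti (Nat.succ_le_of_lt (Nat.mul_pos hm hm'))
  have ha0 : a 0 ≠ 0 := by
    rw [ha]
    simp only [Function.iterate_zero, id]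
    rw [Valuation.ne_zero_iff, sub_ne_zero]
    exact hne
  have h2 : a 1 ≤ a 0 * w (x - ζ ^ j * z) := by
    rw [ha]
    simp only []
    rw [diff_succ]
    exact step hd0 hζ (hxw 0) (hzw 0) hj
  have h3 : w (x - ζ ^ j * z) ≤ 1 := by
    refine w_fac hd0.ne' ?_ (hxw 0) (hzw 0)
    rw [← pow_mul, mul_comm, pow_mul, hζ.pow_eq_one, one_pow]
  refine le_antisymm h3 ?_
  rw [h10] at h2
  by_contra hlt
  push Not at hlt
  have h4 : a 0 * w (x - ζ ^ j * z) < a 0 * 1 :=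
    mul_lt_mul_of_pos_left hlt (zero_lt_iff.2 ha0)
  rw [mul_one] at h4
  exact absurd h2 (not_le.2 h4)

end KSA_

open KSA_ in
/-- KSA: the factors are units at a place where `c` is integral (first kind). -/
theorem p_KSA (hV : T_KVAL) (hT : T_KTAIL) : T_KSA := by
  intro L Γ _ _ w d ζ c x z hd hζ hc hadm j hj
  obtain ⟨hz, hx, hne, hcase⟩ := hadm
  have hd0 : 0 < d := by omega
  by_cases hxp : PerK d c x
  · exact periodic hV hd hζ hc hxp hz (hne 0) hj
  have hfx : ¬ PerK d c (fk d c x) := hcase.resolve_left hxp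
  have hxw : ∀ k, w ((fk d c)^[k] x) ≤ 1 := fun k =>
    w_le hV (by omega) hc (pre_iter hx k)
  have hzw : ∀ k, w ((fk d c)^[k] z) ≤ 1 := fun k =>
    w_le hV (by omega) hc (pre_iter (pre_of_per hz) k)
  obtain ⟨i, e, z', he, hz', hiz, hfz', -, hi⟩ := hT L d ζ c x hd hζ hx hxp
  have hi1 : 1 ≤ i := hi hfx
  set y := (fk d c)^[i] z with hy
  have hyp : PerK d c y := per_iter hz i
  have hzy : z' ≠ y := by
    intro h
    apply hne (i + 1)
    rw [hfz', h, hy, Function.iterate_succ_apply']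
  have he' : ¬ d ∣ e * (d - 1) := by
    intro h
    have hcop : Nat.Coprime d (d - 1) := by
      obtain ⟨d', rfl⟩ : ∃ d', d = d' + 1 := ⟨d - 1, by omega⟩
      simp
    exact he (hcop.dvd_of_dvd_mul_right h)
  have hroot : ζ ^ e * ζ ^ (e * (d - 1)) = 1 := by
    rw [← pow_add]
    have : e + e * (d - 1) = d * e := by
      obtain ⟨d', rfl⟩ : ∃ d', d = d' + 1 := ⟨d - 1, by omega⟩
      simp only [Nat.add_sub_cancel]
      ring
    rw [this, pow_mul, hζ.pow_eq_one, one_pow]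
  have h1 : w (z' - ζ ^ (e * (d - 1)) * y) = 1 := periodic hV hd hζ hc hz' hyp hzy he'
  have h2 : w ((fk d c)^[i] x - (fk d c)^[i] z) = 1 := by
    have h3 : (fk d c)^[i] x - (fk d c)^[i] z = ζ ^ e * (z' - ζ ^ (e * (d - 1)) * y) := by
      rw [hiz, ← hy]
      linear_combination y * hroot
    have h4 : w (ζ ^ e) = 1 := w_root hd0.ne' (by
      rw [← pow_mul, mul_comm, pow_mul, hζ.pow_eq_one, one_pow])
    rw [h3, map_mul, h4, h1, one_mul]
  set a : ℕ → Γ := fun k => w ((fk d c)^[k] x - (fk d c)^[k] z) with ha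
  have hdec : ∀ k, a (k + 1) ≤ a k := by
    intro k
    rw [ha]
    simp only []
    rw [diff_succ]
    simpa using step0 hd0 hζ (hxw k) (hzw k) 0
  have hanti : Antitone a := antitone_nat_of_succ_le hdec
  have h3 : 1 ≤ a 1 := by
    rw [← h2]
    exact hanti hi1
  have h4 : a 1 ≤ w (x - ζ ^ j * z) := by
    rw [ha]
    simp only []
    rw [diff_succ]
    exact step0 hd0 hζ (hxw 0) (hzw 0) j
  refine le_antisymm ?_ (h3.trans h4)
  refine w_fac hd0.ne' ?_ (hxw 0) (hzw 0)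
  rw [← pow_mul, mul_comm, pow_mul, hζ.pow_eq_one, one_pow]

end Pool.Agent.HMW
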