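import Pool.Agent.HMW.TargetsK
import Pool.Agent.HMW.PSB

set_option autoImplicit false
set_option linter.unusedVariables false

/-!
# HMW-KSB: the power structure at a place where `c` is large, over any field
-/

open Polynomial WithZero
open scoped Classical WithZero

noncomputable section

namespace Pool.Agent.HMW

namespace KSB_

theorem pre_fk {L : Type} [Field L] {d : ℕ} {c x : L} (h : PreK d c x) :
    PreK d c (fk d c x) := by
  refine h.subset ?_
  rintro _ ⟨k, rfl⟩
  exact ⟨k + 1, by simp [Function.iterate_succ_apply]⟩

end KSB_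

open PSB_ KSB_ in
theorem p_KSB : T_KVAL → T_KSB := by
  intro hVAL L _ _ w d ζ c x y hd4 hζ hwd hc hx hy hxy j
  have hd : 0 < d := by omega
  -- the common valuation
  have hval : ∀ u : L, PreK d c u → w u ^ d = w c := fun u hu =>
    (hVAL L ℤᵐ⁰ w d c u hd4 hu).2 hc
  have hV0 : w x ≠ 0 := by
    intro h0
    have := hval x hx
    rw [h0, zero_pow (by omega)] at this
    rw [← this] at hc
    exact absurd hc (by simp)
  have hVeq : ∀ u : L, PreK d c u → w u = w x := by
    intro u hu
    have h1 : w u ^ d = w x ^ d := (hval u hu).trans (hval x hx).symm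
    exact pow_inj (by omega) h1
  have hlogV : 1 ≤ log (w x) := by
    have h1 : 1 < w x := by
      by_contra hle
      push Not at hle
      have := hval x hx
      have h2 : w x ^ d ≤ 1 := pow_le_one' hle d
      rw [this] at h2
      exact absurd hc (not_lt.2 h2)
    have h2 : log (1 : ℤᵐ⁰) < log (w x) := (log_lt_log one_ne_zero hV0).2 h1
    rw [log_one] at h2
    omega
  have hfc : ∀ u v : L, ((fk d c u) - (fk d c v)) = u ^ d - v ^ d := by
    intro u v
    simp only [fk]
    ring
  -- the claim
  have claim : ∀ n : ℕ, ∀ u v : L, PreK d c u → PreK d c v → u ≠ v →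
      log (w x) - log (w (u - v)) = n →
      ((d : ℤ) - 1) ∣ log (w x) - log (w (u - v)) := by
    intro n
    induction n using Nat.strong_induction_on with
    | _ n ih =>
      intro u v hu hv huv hn
      have hne : u - v ≠ 0 := sub_ne_zero.2 huv
      have hw0 : w (u - v) ≠ 0 := (Valuation.ne_zero_iff w).2 hne
      have hle : w (u - v) ≤ w x := by
        have := w_le w hd hζ u v (w x) (hVeq u hu) (hVeq v hv) 0
        simpa using this
      rcases hle.lt_or_eq with hlt | heq
      · have hpr := w_prod w hd hζ hwd u v (w x) (hVeq u hu) (hVeq v hv) 0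
          (by simpa using hlt)
        rw [pow_zero, one_mul, ← hfc] at hpr
        have hne2 : fk d c u ≠ fk d c v := by
          intro h
          rw [h, sub_self, map_zero] at hpr
          exact (mul_ne_zero hw0 (pow_ne_zero _ hV0)) hpr.symm
        have hlog : log (w ((fk d c u) - (fk d c v))) =
            log (w (u - v)) + ((d : ℤ) - 1) * log (w x) := by
          rw [hpr, log_mul hw0 (pow_ne_zero _ hV0), log_pow]
          have : ((d - 1 : ℕ) : ℤ) = (d : ℤ) - 1 := by push_cast [Nat.cast_sub (by omega : 1 ≤ d)]; rfl
          rw [nsmul_eq_mul, this]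
        have hr0 : 0 ≤ log (w x) - log (w ((fk d c u) - (fk d c v))) := by
          have hle2 : w ((fk d c u) - (fk d c v)) ≤ w x := by
            have := w_le w hd hζ (fk d c u) (fk d c v) (w x)
              (hVeq _ (pre_fk hu)) (hVeq _ (pre_fk hv)) 0
            simpa using this
          have hw1 : w ((fk d c u) - (fk d c v)) ≠ 0 := by
            rw [hpr]; exact mul_ne_zero hw0 (pow_ne_zero _ hV0)
          have := (log_le_log hw1 hV0).2 hle2
          omega
        have hsmall : log (w x) - log (w ((fk d c u) - (fk d c v)))
            < n := by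
          rw [hlog, ← hn]
          have : 0 < ((d : ℤ) - 1) * log (w x) := by
            apply mul_pos
            · have : (2 : ℤ) ≤ d := by exact_mod_cast hd4
              omega
            · omega
          linarith
        have h3 := ih (log (w x) - log (w ((fk d c u) -
          (fk d c v)))).toNat (by omega) _ _ (pre_fk hu) (pre_fk hv) hne2
          (by rw [Int.toNat_of_nonneg hr0])
        rw [hlog] at h3
        have h4 : log (w x) - log (w (u - v)) =
            (log (w x) - (log (w (u - v)) + ((d : ℤ) - 1) * log (w x))) +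
            ((d : ℤ) - 1) * log (w x) := by ring
        rw [h4]
        exact dvd_add h3 (dvd_mul_right _ _)
      · rw [heq, sub_self]
        exact dvd_zero _
  have claim' : ∀ u v : L, PreK d c u → PreK d c v → u ≠ v →
      ((d : ℤ) - 1) ∣ log (w x) - log (w (u - v)) := by
    intro u v hu hv huv
    have hne : u - v ≠ 0 := sub_ne_zero.2 huv
    have hw0 : w (u - v) ≠ 0 := (Valuation.ne_zero_iff w).2 hne
    have hle : w (u - v) ≤ w x := by
      have := w_le w hd hζ u v (w x) (hVeq u hu) (hVeq v hv) 0
      simpa using this
    have h1 := (log_le_log hw0 hV0).2 hle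
    exact claim (log (w x) - log (w (u - v))).toNat u v hu hv huv
      (by rw [Int.toNat_of_nonneg (by omega)])
  have hle := w_le w hd hζ x y (w x) rfl (hVeq y hy) j
  rcases hle.lt_or_eq with hlt | heq
  · have hpr := w_prod w hd hζ hwd x y (w x) rfl (hVeq y hy) j hlt
    have hne : fk d c x ≠ fk d c y := by
      intro h
      apply hxy
      have : x ^ d + c = y ^ d + c := h
      exact add_right_cancel this
    have hne0 : w (x ^ d - y ^ d) ≠ 0 := by
      rw [← hfc]
      exact (Valuation.ne_zero_iff w).2 (sub_ne_zero.2 hne)
    have hw0 : w (x - ζ ^ j * y) ≠ 0 := by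
      intro h
      rw [hpr, h, zero_mul] at hne0
      exact hne0 rfl
    have h3 := claim' _ _ (pre_fk hx) (pre_fk hy) hne
    rw [hfc, hpr, log_mul hw0 (pow_ne_zero _ hV0), log_pow] at h3
    have hcast : ((d - 1 : ℕ) : ℤ) = (d : ℤ) - 1 := by
      push_cast [Nat.cast_sub (by omega : 1 ≤ d)]; rfl
    rw [nsmul_eq_mul, hcast] at h3
    have h4 : log (w (x - ζ ^ j * y)) - log (w x) =
        -((log (w x) - (log (w (x - ζ ^ j * y)) + ((d : ℤ) - 1) * log (w x)))
          + ((d : ℤ) - 1) * log (w x)) := by ring
    rw [h4]
    exact (dvd_add h3 (dvd_mul_right _ _)).neg_right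
  · rw [heq, sub_self]
    exact dvd_zero _

end Pool.Agent.HMW
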