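import Pool.Agent.HMW.TargetsK

set_option autoImplicit false

/-!
# MP_c076ed_nt: KSC, the factors have equal valuations at a place where `c` is integral
(second kind), over number fields
-/

open scoped WithZero

namespace Pool.Agent.HMW

namespace KSC_

variable {L Γ : Type} [Field L] [LinearOrderedCommGroupWithZero Γ] (w : Valuation L Γ)

/-- orbits of preperiodic points -/
lemma pre_iter {d : ℕ} {c x : L} (h : PreK d c x) (k : ℕ) : PreK d c ((fk d c)^[k] x) := by
  refine h.subset ?_
  rintro _ ⟨j, rfl⟩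
  refine ⟨j + k, ?_⟩
  exact Function.iterate_add_apply (fk d c) j k x

/-- The difference of the values is divisible by every factor. -/
lemma pow_sub_le (d : ℕ) (a b : L) (ha : w a ≤ 1) (hb : w b ≤ 1) :
    w (a ^ d - b ^ d) ≤ w (a - b) := by
  rw [← geom_sum₂_mul, map_mul]
  refine mul_le_of_le_one_left' ?_
  refine w.map_sum_le fun i _ => ?_
  rw [map_mul, map_pow, map_pow]
  exact mul_le_one' (pow_le_one' ha _) (pow_le_one' hb _)

/-- Powers of small elements. -/
lemma pow_lt_self (a : Γ) (d : ℕ) (hd : 2 ≤ d) (h0 : a ≠ 0) (h1 : a < 1) : a ^ d < a := by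
  have ha : 0 < a := zero_lt_iff.2 h0
  calc a ^ d = a ^ (d - 1) * a := by
        rw [← pow_succ]
        congr 1
        omega
    _ < 1 * a := by
        refine mul_lt_mul_of_pos_right ?_ ha
        exact pow_lt_one₀ zero_le h1 (by omega)
    _ = a := one_mul a

lemma w_root {d : ℕ} {ζ : L} (hd : d ≠ 0) (hζ : ζ ^ d = 1) : w ζ = 1 := by
  have h : w ζ ^ d = 1 := by rw [← map_pow, hζ, map_one]
  exact (pow_eq_one_iff_of_nonneg zero_le hd).1 h

/-- the product of elements at most one -/
lemma prod_le (s : Finset ℕ) (F : ℕ → L) (h : ∀ k ∈ s, w (F k) ≤ 1) : w (∏ k ∈ s, F k) ≤ 1 := by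
  rw [map_prod]
  exact Finset.prod_le_one' h

/-- `1 - ζ^a` is a unit -/
lemma w_one_sub {d : ℕ} {ζ : L} (hd : 2 ≤ d) (hζ : IsPrimitiveRoot ζ d) (hwd : w (d : L) = 1)
    {a : ℕ} (ha : ¬ d ∣ a) : w (1 - ζ ^ a) = 1 := by
  have hwζ : w ζ = 1 := w_root w (by omega) hζ.pow_eq_one
  have hle : ∀ k : ℕ, w (1 - ζ ^ k) ≤ 1 := by
    intro k
    refine (w.map_sub _ _).trans (max_le (by simp) ?_)
    rw [map_pow, hwζ, one_pow]
  obtain ⟨n, rfl⟩ : ∃ n, d = n + 1 := ⟨d - 1, by omega⟩
  have hprod := hζ.prod_one_sub_pow_eq_order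
  have hmod : ζ ^ a = ζ ^ (a % (n + 1)) := by
    conv_lhs => rw [← Nat.div_add_mod a (n + 1)]
    rw [pow_add, pow_mul, hζ.pow_eq_one, one_pow, one_mul]
  have h0 : a % (n + 1) ≠ 0 := fun h => ha (Nat.dvd_of_mod_eq_zero h)
  have h1 : a % (n + 1) < n + 1 := Nat.mod_lt _ (Nat.succ_pos n)
  have hmem : a % (n + 1) - 1 ∈ Finset.range n := by
    rw [Finset.mem_range]
    omega
  rw [← Finset.mul_prod_erase _ _ hmem] at hprod
  have h2 : a % (n + 1) - 1 + 1 = a % (n + 1) := by omega
  rw [h2, ← hmod] at hprod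
  have h3 : w (1 - ζ ^ a) * w (∏ k ∈ (Finset.range n).erase (a % (n + 1) - 1),
      (1 - ζ ^ (k + 1))) = 1 := by
    rw [← map_mul, hprod]
    push_cast at hwd
    exact hwd
  refine le_antisymm (hle a) ?_
  calc (1 : Γ) = w (1 - ζ ^ a) * w (∏ k ∈ (Finset.range n).erase (a % (n + 1) - 1),
      (1 - ζ ^ (k + 1))) := h3.symm
    _ ≤ w (1 - ζ ^ a) * 1 := mul_le_mul_right (prod_le w _ _ fun k _ => hle (k + 1)) _
    _ = w (1 - ζ ^ a) := mul_one _

/-- a periodic point whose orbit contains a fixed point is this fixed point -/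
lemma per_fix {α : Type} (f : α → α) (z z' : α) (hz : f z = z) (hz' : z' ∈ Function.periodicPts f)
    (m : ℕ) (hm : f^[m] z' = z) : z' = z := by
  obtain ⟨p, hp, hpz⟩ := hz'
  have h1 : f^[p * m] z' = z' := by
    have := hpz.mul_const m
    exact this
  have h2 : p * m = (p * m - m) + m := by
    have : m ≤ p * m := Nat.le_mul_of_pos_left m hp
    omega
  rw [h2, Function.iterate_add_apply, hm] at h1
  rw [← h1]
  exact Function.iterate_fixed hz _

end KSC_

open KSC_

theorem p_KSC : T_KVAL → T_KTAIL → T_KSC := by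
  intro hV hT L Γ _ _ w d ζ c x z hd hζ hwd hwc hB hz
  obtain ⟨hfz, hpre, hx0, hx1, k, hk⟩ := hB
  have hd0 : d ≠ 0 := by omega
  have hwζ : w ζ = 1 := w_root w hd0 hζ.pow_eq_one
  have hval : ∀ n : ℕ, w ((fk d c)^[n] x) ≤ 1 := fun n =>
    (hV L Γ w d c _ hd (pre_iter hpre n)).1 hwc
  have hper : PerK d c z := ⟨1, one_pos, hfz⟩
  obtain ⟨i, a, z', ha, hz'per, hneg', hfi, hnper, hi1⟩ := hT L d ζ c x hd hζ hpre hx0
  have hi := hi1 hx1
  have hki : i < k := by
    by_contra hcon
    exact hnper k (not_lt.1 hcon) (by rw [hk]; exact hper)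
  have hzz : z' = z := by
    refine per_fix (fk d c) z z' hfz hz'per (k - (i + 1) + 1) ?_
    rw [Function.iterate_succ_apply, ← hfi, ← Function.iterate_add_apply]
    have h1 : k - (i + 1) + (i + 1) = k := by omega
    rw [h1, hk]
  obtain ⟨n, rfl⟩ : ∃ n, i = n + 1 := ⟨i - 1, by omega⟩
  have hneg : (fk d c)^[n + 1] x = ζ ^ a * z := by rw [hneg', hzz]
  have hwa : w (1 - ζ ^ a) = 1 := w_one_sub w hd hζ hwd ha
  have hwa' : w (ζ ^ a - 1) = 1 := by rw [Valuation.map_sub_swap, hwa]
  have hwz : w z ≤ 1 := by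
    have := hval k
    rwa [hk] at this
  have hwz0 : w z ≠ 0 := (Valuation.ne_zero_iff w).2 hz
  have hζz : ∀ j : ℕ, w (ζ ^ j * z) = w z := fun j => by
    rw [map_mul, map_pow, hwζ, one_pow, one_mul]
  have hcz : c = z - z ^ d := by
    have h1 : z ^ d + c = z := hfz
    linear_combination h1
  have hfsucc : ∀ (m : ℕ), (fk d c)^[m + 1] x = ((fk d c)^[m] x) ^ d + c := fun m =>
    Function.iterate_succ_apply' (fk d c) m x
  intro i' j' _ _
  rcases hwz.lt_or_eq with hlt | heq
  · -- the valuation of `z` is smaller than one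
    have hpow : w (z ^ d) < w z := by
      rw [map_pow]
      exact pow_lt_self _ d hd hwz0 hlt
    have hwcz : w c = w z := by
      rw [hcz]
      exact Valuation.map_sub_eq_of_lt_left w hpow
    have hback : ∀ y : L, w z < w (y ^ d + c) → w z < w y := by
      intro y hy
      by_contra hcon
      have h1 : w y ≤ w z := not_lt.1 hcon
      refine absurd hy (not_lt.2 ((w.map_add _ _).trans (max_le ?_ hwcz.le)))
      rw [map_pow]
      calc w y ^ d ≤ w z ^ d := pow_le_pow_left' h1 d
        _ = w (z ^ d) := (map_pow _ _ _).symm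
        _ ≤ w z := hpow.le
    have hu : w z < w ((fk d c)^[n] x) := by
      have h1 : ((fk d c)^[n] x) ^ d = (ζ ^ a - 1) * z + z ^ d := by
        have h2 := hfsucc n
        rw [hneg] at h2
        linear_combination -h2 - hcz
      have h3 : w ((fk d c)^[n] x) ^ d = w z := by
        rw [← map_pow, h1]
        have h4 : w ((ζ ^ a - 1) * z) = w z := by rw [map_mul, hwa', one_mul]
        rw [Valuation.map_add_eq_of_lt_left w (by rw [h4]; exact hpow), h4]
      by_contra hcon
      have h5 : w ((fk d c)^[n] x) ≤ w z := not_lt.1 hcon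
      have h6 : w ((fk d c)^[n] x) ^ d ≤ w z ^ d := pow_le_pow_left' h5 d
      rw [h3, ← map_pow] at h6
      exact absurd hpow (not_lt.2 h6)
    have hall : ∀ m : ℕ, m ≤ n → w z < w ((fk d c)^[n - m] x) := by
      intro m
      induction m with
      | zero => intro _; exact hu
      | succ m ih =>
        intro hm
        have h1 := ih (by omega)
        refine hback _ ?_
        rw [← hfsucc]
        have h2 : n - (m + 1) + 1 = n - m := by omega
        rw [h2]
        exact h1
    have hxz : w z < w x := by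
      have := hall n le_rfl
      simpa using this
    have hfin : ∀ j : ℕ, w (x - ζ ^ j * z) = w x := fun j =>
      Valuation.map_sub_eq_of_lt_left w (by rw [hζz]; exact hxz)
    rw [hfin, hfin]
  · -- the valuation of `z` is one
    have hfac : ∀ (k j : ℕ), w ((fk d c)^[k + 1] x - z) ≤
        w ((fk d c)^[k] x - ζ ^ j * z) := by
      intro k j
      have h1 : (fk d c)^[k + 1] x - z =
          ((fk d c)^[k] x) ^ d - (ζ ^ j * z) ^ d := by
        rw [hfsucc, mul_pow, ← pow_mul, mul_comm j d, pow_mul,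
          hζ.pow_eq_one, one_pow, one_mul, hcz]
        ring
      rw [h1]
      exact pow_sub_le w d _ _ (hval k) (by rw [hζz]; exact hwz)
    have hone : ∀ m : ℕ, m ≤ n → 1 ≤ w ((fk d c)^[n + 1 - m] x - z) := by
      intro m
      induction m with
      | zero =>
        intro _
        rw [Nat.sub_zero, hneg]
        have h1 : ζ ^ a * z - z = (ζ ^ a - 1) * z := by ring
        rw [h1, map_mul, hwa', heq, one_mul]
      | succ m ih =>
        intro hm
        refine (ih (by omega)).trans ?_
        have h1 := hfac (n + 1 - (m + 1)) 0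
        have h2 : n + 1 - (m + 1) + 1 = n + 1 - m := by omega
        rw [h2, pow_zero, one_mul] at h1
        exact h1
    have h1 : 1 ≤ w ((fk d c)^[0 + 1] x - z) := by
      have := hone n le_rfl
      have h2 : n + 1 - n = 0 + 1 := by omega
      rwa [h2] at this
    have hfin : ∀ j : ℕ, w (x - ζ ^ j * z) = 1 := by
      intro j
      refine le_antisymm ?_ (h1.trans (hfac 0 j))
      refine (w.map_sub _ _).trans (max_le ?_ (by rw [hζz]; exact hwz))
      exact hval 0
    rw [hfin, hfin]

end Pool.Agent.HMW
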