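import Pool.Agent.HMW.TargetsK

set_option autoImplicit false

/-!
# HMW-KTAIL: the last nonperiodic point of an orbit
-/

open Polynomial
open scoped Classical

noncomputable section

namespace Pool.Agent.HMW

namespace KTAIL_

variable {X : Type} (f : X → X)

/-- A point with finite orbit has a periodic iterate. -/
lemma exists_per (x : X) (h : (Set.range fun k : ℕ => f^[k] x).Finite) :
    ∃ n : ℕ, f^[n] x ∈ Function.periodicPts f := by
  have h1 : ¬ Function.Injective (fun k : ℕ => f^[k] x) := fun hi =>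
    Set.infinite_range_of_injective hi h
  rw [Function.not_injective_iff] at h1
  obtain ⟨m, n, hmn, hne⟩ := h1
  have key : ∀ m n : ℕ, m < n → f^[m] x = f^[n] x → f^[m] x ∈ Function.periodicPts f := by
    intro m n hlt heq
    refine ⟨n - m, by omega, ?_⟩
    show f^[n - m] (f^[m] x) = f^[m] x
    rw [← Function.iterate_add_apply, Nat.sub_add_cancel hlt.le]
    exact heq.symm
  rcases lt_or_gt_of_ne hne with hlt | hlt
  · exact ⟨m, key m n hlt hmn⟩
  · exact ⟨n, key n m hlt hmn.symm⟩

/-- A periodic point has a periodic preimage. -/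
lemma exists_pre (w : X) (h : w ∈ Function.periodicPts f) :
    ∃ z ∈ Function.periodicPts f, f z = w := by
  obtain ⟨p, hp, hw⟩ := h
  refine ⟨f^[p - 1] w, ?_, ?_⟩
  · refine ⟨p, hp, ?_⟩
    exact hw.apply_iterate (p - 1)
  · rw [← Function.iterate_succ_apply' f (p - 1) w]
    have : (p - 1).succ = p := by omega
    rw [this]
    exact hw

end KTAIL_

open KTAIL_ in
theorem p_KTAIL : T_KTAIL := by
  intro L _ d ζ c x hd hζ hpre hx
  have hex := exists_per (fk d c) x hpre
  set n := Nat.find hex with hn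
  have hn1 : (fk d c)^[n] x ∈ Function.periodicPts (fk d c) := Nat.find_spec hex
  have hmin : ∀ j < n, ¬ PerK d c ((fk d c)^[j] x) := fun j hj => Nat.find_min hex hj
  have hn0 : n ≠ 0 := by
    intro h0
    rw [h0] at hn1
    exact hx hn1
  obtain ⟨i, hi⟩ := Nat.exists_eq_succ_of_ne_zero hn0
  rw [hi] at hn1 hmin
  obtain ⟨z, hz, hfz⟩ := exists_pre (fk d c) _ hn1
  have hy : ¬ PerK d c ((fk d c)^[i] x) := hmin i (Nat.lt_succ_self i)
  have h1 : ((fk d c)^[i] x) ^ d = z ^ d := by
    rw [Nat.succ_eq_add_one, Function.iterate_succ_apply'] at hfz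
    unfold fk at hfz
    exact (add_right_cancel hfz).symm
  have hd0 : d ≠ 0 := by omega
  have hz0 : z ≠ 0 := by
    intro h0
    rw [h0, zero_pow hd0] at h1
    have h2 : (fk d c)^[i] x = 0 := eq_zero_of_pow_eq_zero h1
    apply hy
    rw [h2, ← h0]
    exact hz
  have h3 : ((fk d c)^[i] x / z) ^ d = 1 := by
    rw [div_pow, h1, div_self (pow_ne_zero d hz0)]
  have : NeZero d := ⟨hd0⟩
  obtain ⟨a, ha, hza⟩ := hζ.eq_pow_of_pow_eq_one h3
  have h4 : (fk d c)^[i] x = ζ ^ a * z := by
    rw [hza, div_mul_cancel₀ _ hz0]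
  refine ⟨i, a, z, ?_, hz, h4, hfz.symm, fun j hj => hmin j (Nat.lt_succ_of_le hj), ?_⟩
  · intro hda
    apply hy
    rw [h4, (hζ.pow_eq_one_iff_dvd a).2 hda, one_mul]
    exact hz
  · intro hnp
    by_contra hcon
    have hi0 : i = 0 := by omega
    apply hnp
    rw [hi0] at hn1
    exact hn1

end Pool.Agent.HMW
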