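import Pool.Agent.HMW.TargetsK

/-!
# KVAL: valuations of preperiodic points
-/

set_option autoImplicit false

open Polynomial NumberField IsDedekindDomain
open scoped WithZero

namespace Pool.Agent.HMW

namespace KVAL_

variable {L Γ : Type} [Field L] [LinearOrderedCommGroupWithZero Γ] {w : Valuation L Γ} {d : ℕ}
  {c : L}

lemma step (hd : 2 ≤ d) {y : L} (h1 : 1 < w y) (h2 : w c < w y ^ d) :
    1 < w (fk d c y) ∧ w c < w (fk d c y) ^ d ∧ w y < w (fk d c y) := by
  have h3 : w (fk d c y) = w y ^ d := by
    unfold fk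
    rw [Valuation.map_add_eq_of_lt_left, map_pow]
    rwa [map_pow]
  have h4 : w y < w y ^ d := by
    conv_lhs => rw [← pow_one (w y)]
    exact pow_lt_pow_right₀ h1 (by omega)
  have h5 : w y ^ d < (w y ^ d) ^ d := by
    conv_lhs => rw [← pow_one (w y ^ d)]
    exact pow_lt_pow_right₀ (h1.trans h4) (by omega)
  rw [h3]
  exact ⟨h1.trans h4, h2.trans h5, h4⟩

lemma escape (hd : 2 ≤ d) {y : L} (h1 : 1 < w y) (h2 : w c < w y ^ d) : ¬ PreK d c y := by
  have h3 : ∀ k : ℕ, 1 < w ((fk d c)^[k] y) ∧ w c < w ((fk d c)^[k] y) ^ d := by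
    intro k
    induction k with
    | zero => exact ⟨h1, h2⟩
    | succ k ih =>
      rw [Function.iterate_succ_apply']
      have h := step hd ih.1 ih.2
      exact ⟨h.1, h.2.1⟩
  have h4 : StrictMono fun k : ℕ => w ((fk d c)^[k] y) := by
    refine strictMono_nat_of_lt_succ fun k => ?_
    rw [Function.iterate_succ_apply']
    exact (step hd (h3 k).1 (h3 k).2).2.2
  have h5 : Function.Injective fun k : ℕ => (fk d c)^[k] y := by
    intro a b hab
    exact h4.injective (congrArg w hab)
  exact Set.infinite_range_of_injective h5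

end KVAL_

/-- KVAL: valuations of preperiodic points. -/
theorem p_KVAL : T_KVAL := by
  intro L Γ _ _ w d c x hd hfin
  refine ⟨fun hc => ?_, fun hc => ?_⟩
  · by_contra hx
    push Not at hx
    exact KVAL_.escape hd hx (hc.trans_lt (one_lt_pow₀ hx (by omega))) hfin
  · by_contra hx
    rcases lt_or_gt_of_ne hx with h | h
    · have h1 : w (fk d c x) = w c := by
        unfold fk
        rw [Valuation.map_add_eq_of_lt_right]
        rwa [map_pow]
      have h2 : w c < w c ^ d := by
        conv_lhs => rw [← pow_one (w c)]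
        exact pow_lt_pow_right₀ hc (by omega)
      refine KVAL_.escape hd (y := fk d c x) (c := c) (by rw [h1]; exact hc)
        (by rw [h1]; exact h2) (hfin.subset ?_)
      rintro _ ⟨k, rfl⟩
      exact ⟨k + 1, by simp only [Function.iterate_succ_apply]⟩
    · refine KVAL_.escape hd ?_ h hfin
      by_contra h3
      push Not at h3
      have h4 : w x ^ d ≤ 1 := pow_le_one₀ zero_le h3
      exact absurd (hc.trans h) (not_lt.2 h4)

end Pool.Agent.HMW
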