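import Pool.Agent.HMW.All
import Pool.Agent.HMW.KVAL
import Pool.Agent.HMW.KTAIL
import Pool.Agent.HMW.KSB
import Pool.Agent.HMW.KSA
import Pool.Agent.HMW.KSC
import Pool.Agent.HMW.KS
import Pool.Agent.HMW.KNB
import Pool.Agent.HMW.KAR
import Pool.Agent.HMW.KHP
import Pool.Agent.HMW.KHT
import Pool.Agent.HMW.KPT
import Pool.Agent.HMW.KGU
import Pool.Agent.HMW.KCV6
import Pool.Agent.HMW.KCV5
import Pool.Agent.HMW.KCNT
import Pool.Agent.HMW.KEV
import Pool.Agent.HMW.KUNI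

set_option autoImplicit false

/-!
# HMW: assembly of part K (dynamics over number fields)
-/

namespace Pool.Agent.HMW

theorem all_KSA : T_KSA := p_KSA p_KVAL p_KTAIL
theorem all_KS : T_KS := p_KS (p_KSB p_KVAL) all_KSA (p_KSC p_KVAL p_KTAIL)
theorem all_KNB : T_KNB := p_KNB p_KVAL all_KSA p_KTAIL
theorem all_KHP : T_KHP := p_KHP all_KNB p_KAR
theorem all_KHT : T_KHT := p_KHT all_KNB p_KAR
theorem all_KPT : T_KPT := p_KPT all_KS p_SEL
theorem all_KGU : T_KGU := p_KGU all_GAP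
theorem all_KCNT : T_KCNT := p_KCNT all_KGU all_KHT (p_KCV5 all_KPT) (p_KCV6 all_KPT)
theorem all_KUNI : T_KUNI := p_KUNI (p_KEV all_KCNT all_KHP p_KTAIL)

end Pool.Agent.HMW
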