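import Pool.Agent.HMW.Defs

set_option autoImplicit false

/-!
# Mordell-Weil for hyperelliptic Jacobians: basic facts on the coordinate ring
-/

open Polynomial

noncomputable section

namespace Pool.Agent.HMW

variable {E : Type} [Field E] {f : E[X]} {g : ℕ}

@[simp] theorem io_io (P : E × E) : io (io P) = P := by simp [io]

@[simp] theorem io_fst (P : E × E) : (io P).1 = P.1 := rfl

@[simp] theorem io_snd (P : E × E) : (io P).2 = -P.2 := rfl

theorem On.io {P : E × E} (h : On f P) : On f (io P) := by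
  unfold On at *
  simpa using h

theorem OnM.io {S : Multiset (E × E)} (h : OnM f S) : OnM f (S.map io) := by
  intro P hP
  obtain ⟨Q, hQ, rfl⟩ := Multiset.mem_map.1 hP
  exact (h Q hQ).io

theorem OnM.add {S T : Multiset (E × E)} (h : OnM f S) (h' : OnM f T) : OnM f (S + T) := by
  intro P hP
  rcases Multiset.mem_add.1 hP with h1 | h1
  · exact h P h1
  · exact h' P h1

theorem OnM.of_le {S T : Multiset (E × E)} (h : OnM f T) (h' : S ≤ T) : OnM f S :=
  fun P hP => h P (Multiset.mem_of_le h' hP)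

theorem OnM.cons {S : Multiset (E × E)} {P : E × E} (h : OnM f S) (h' : On f P) :
    OnM f (P ::ₘ S) := by
  intro Q hQ
  rcases Multiset.mem_cons.1 hQ with rfl | h1
  · exact h'
  · exact h Q h1

/-! ### conjugation and norm -/

theorem re_mul' (F G : RR f) : (F * G).re = F.re * G.re + f * (F.im * G.im) := by
  simp; ring

theorem im_mul' (F G : RR f) : (F * G).im = F.re * G.im + F.im * G.re := by
  simp

theorem cj_mul (F G : RR f) : cj (F * G) = cj F * cj G := by
  ext1
  · simp only [cj, re_mul']; ring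
  · simp only [cj, im_mul']; ring

@[simp] theorem cj_cj (F : RR f) : cj (cj F) = F := by
  ext1 <;> simp [cj]

/-- conjugation as a ring automorphism -/
def cjH (f : E[X]) : RR f ≃+* RR f where
  toFun := cj
  invFun := cj
  left_inv := cj_cj
  right_inv := cj_cj
  map_mul' := cj_mul
  map_add' F G := by
    ext1
    · simp [cj]
    · simp [cj]; ring

@[simp] theorem cjH_apply (F : RR f) : cjH f F = cj F := rfl

theorem nr_mul (F G : RR f) : nr (F * G) = nr F * nr G := by
  simp only [nr, re_mul', im_mul']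
  ring

theorem mul_cj (F : RR f) : F * cj F = ⟨nr F, 0⟩ := by
  ext1
  · simp only [cj, nr, re_mul']; ring
  · simp only [cj, im_mul']; ring

@[simp] theorem nr_cj (F : RR f) : nr (cj F) = nr F := by
  simp [nr, cj]

theorem nr_C (p : E[X]) : nr (⟨p, 0⟩ : RR f) = p ^ 2 := by simp [nr]

open Classical in
/-- degree of the norm -/
theorem nr_degree (hf : Cv g f) (F : RR f) (hF : F ≠ 0) :
    nr F ≠ 0 ∧ (nr F).natDegree =
      max (2 * F.re.natDegree) (if F.im = 0 then 0 else 2 * F.im.natDegree + (2 * g + 1)) := by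
  have hf0 : f ≠ 0 := hf.monic.ne_zero
  have h1 : (F.re ^ 2).natDegree = 2 * F.re.natDegree := natDegree_pow _ _
  by_cases h0 : F.im = 0
  · have hre : F.re ≠ 0 := by
      intro h
      apply hF
      ext1
      · exact h
      · exact h0
    simp only [nr, h0]
    have : F.re ^ 2 - f * 0 ^ 2 = F.re ^ 2 := by ring
    rw [this, h1]
    exact ⟨pow_ne_zero 2 hre, by simp⟩
  · have h2 : (f * F.im ^ 2).natDegree = 2 * F.im.natDegree + (2 * g + 1) := by
      rw [natDegree_mul hf0 (pow_ne_zero 2 h0), natDegree_pow, hf.deg]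
      ring
    simp only [h0, if_false]
    have hne : (F.re ^ 2).natDegree ≠ (f * F.im ^ 2).natDegree := by
      rw [h1, h2]; omega
    have h3 : (nr F).natDegree = max (2 * F.re.natDegree) (2 * F.im.natDegree + (2 * g + 1)) := by
      unfold nr
      rcases Nat.lt_or_gt_of_ne hne with h | h
      · rw [natDegree_sub_eq_right_of_natDegree_lt h]
        rw [h1, h2] at h
        rw [h2, max_eq_right h.le]
      · rw [natDegree_sub_eq_left_of_natDegree_lt h]
        rw [h1, h2] at h
        rw [h1, max_eq_left h.le]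
    refine ⟨?_, h3⟩
    intro h
    rw [h, natDegree_zero] at h3
    have := le_max_right (2 * F.re.natDegree) (2 * F.im.natDegree + (2 * g + 1))
    omega

theorem nr_ne_zero (hf : Cv g f) {F : RR f} (hF : F ≠ 0) : nr F ≠ 0 := (nr_degree hf F hF).1

theorem WD_iff (hf : Cv g f) {F : RR f} (hF : F ≠ 0) (D : ℕ) :
    WD g F D ↔ (nr F).natDegree ≤ D := by
  rw [(nr_degree hf F hF).2]
  unfold WD
  by_cases h : F.im = 0
  · simp [h]
  · simp [h]

/-- the coordinate ring is a domain -/
theorem isDomain (hf : Cv g f) : IsDomain (RR f) := by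
  have : NoZeroDivisors (RR f) := by
    constructor
    intro F G h
    by_contra hcon
    push Not at hcon
    have h1 : nr (F * G) = nr F * nr G := nr_mul F G
    rw [h] at h1
    have h2 : nr (0 : RR f) = 0 := by simp [nr]
    rw [h2] at h1
    rcases mul_eq_zero.1 h1.symm with h3 | h3
    · exact nr_ne_zero hf hcon.1 h3
    · exact nr_ne_zero hf hcon.2 h3
  exact NoZeroDivisors.to_isDomain _

/-! ### evaluation -/

/-- evaluation at a point of the curve as a ring homomorphism -/
def evH (f : E[X]) (P : E × E) (h : On f P) : RR f →+* E where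
  toFun F := ev F P
  map_zero' := by simp [ev]
  map_one' := by simp [ev, QuadraticAlgebra.re_one, QuadraticAlgebra.im_one]
  map_add' F G := by simp [ev]; ring
  map_mul' F G := by
    simp only [ev, re_mul', im_mul', eval_add, eval_mul]
    have h1 : f.eval P.1 = P.2 ^ 2 := h.symm
    rw [h1]
    ring

@[simp] theorem evH_apply (P : E × E) (h : On f P) (F : RR f) : evH f P h F = ev F P := rfl

theorem ev_mul (F G : RR f) {P : E × E} (h : On f P) : ev (F * G) P = ev F P * ev G P :=
  map_mul (evH f P h) F G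

theorem ev_cj (F : RR f) (P : E × E) : ev (cj F) P = ev F (io P) := by
  simp [ev, cj]

theorem ev_mul_ev_io (F : RR f) {P : E × E} (h : On f P) :
    ev F P * ev F (io P) = (nr F).eval P.1 := by
  simp only [ev, nr, io_fst, io_snd, eval_sub, eval_mul, eval_pow]
  have h1 : f.eval P.1 = P.2 ^ 2 := h.symm
  rw [h1]
  ring

theorem mem_mP_iff {P : E × E} (h : On f P) (F : RR f) : F ∈ mP f P ↔ ev F P = 0 := by
  constructor
  · intro hF
    have h1 : mP f P ≤ RingHom.ker (evH f P h) := by
      unfold mP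
      rw [Ideal.span_le]
      intro G hG
      rcases hG with rfl | rfl
      · simp [RingHom.mem_ker, ev]
      · simp [RingHom.mem_ker, ev]
    exact h1 hF
  · intro hF
    -- F = A + B y = (A - A(t)) + (B - B(t)) y + B(t) (y - y_P) + ev F P
    have hA : (X - C P.1) ∣ (F.re - C (F.re.eval P.1)) := X_sub_C_dvd_sub_C_eval
    have hB : (X - C P.1) ∣ (F.im - C (F.im.eval P.1)) := X_sub_C_dvd_sub_C_eval
    obtain ⟨a, ha⟩ := hA
    obtain ⟨b, hb⟩ := hB
    have hdec : F = ⟨X - C P.1, 0⟩ * ⟨a, b⟩ + ⟨C (F.im.eval P.1), 0⟩ * ⟨-C P.2, 1⟩ := by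
      have e1 : F.re = C (F.re.eval P.1) + (X - C P.1) * a := by rw [← ha]; ring
      have e2 : F.im = C (F.im.eval P.1) + (X - C P.1) * b := by rw [← hb]; ring
      have e3 : C (F.re.eval P.1) = - (C (F.im.eval P.1) * C P.2) := by
        rw [← C_mul, ← C_neg]
        congr 1
        unfold ev at hF
        linear_combination hF
      ext1
      · rw [QuadraticAlgebra.re_add, re_mul', re_mul']
        simp only
        rw [e1, e3]
        simp
        ring
      · rw [QuadraticAlgebra.im_add, im_mul', im_mul']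
        simp only
        rw [e2]
        simp
        ring
    rw [hdec]
    apply Ideal.add_mem
    · exact Ideal.mul_mem_right _ _ (Ideal.subset_span (by simp))
    · exact Ideal.mul_mem_left _ _ (Ideal.subset_span (by simp))

theorem mP_eq_ker {P : E × E} (h : On f P) : mP f P = RingHom.ker (evH f P h) := by
  ext F
  rw [mem_mP_iff h, RingHom.mem_ker, evH_apply]

theorem evH_surjective (P : E × E) (h : On f P) : Function.Surjective (evH f P h) := by
  intro x
  exact ⟨⟨C x, 0⟩, by simp [ev]⟩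

theorem mP_isMaximal {P : E × E} (h : On f P) : (mP f P).IsMaximal := by
  rw [mP_eq_ker h]
  exact RingHom.ker_isMaximal_of_surjective _ (evH_surjective P h)

theorem mP_injective {P Q : E × E} (h' : On f Q) (hle : mP f P ≤ mP f Q) :
    P = Q := by
  have h1 : (⟨X - C P.1, 0⟩ : RR f) ∈ mP f Q := hle (Ideal.subset_span (by simp))
  have h2 : (⟨-C P.2, 1⟩ : RR f) ∈ mP f Q := hle (Ideal.subset_span (by simp))
  rw [mem_mP_iff h'] at h1 h2
  simp only [ev, eval_sub, eval_X, eval_C, eval_zero, zero_mul, add_zero] at h1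
  simp only [ev, eval_neg, eval_C, eval_one, one_mul] at h2
  ext1
  · exact (sub_eq_zero.1 h1).symm
  · linear_combination -h2

theorem cj_mem_mP {P : E × E} (h : On f P) (F : RR f) : cj F ∈ mP f (io P) ↔ F ∈ mP f P := by
  rw [mem_mP_iff h, mem_mP_iff h.io, ev_cj, io_io]

theorem map_cj_mP {P : E × E} (h : On f P) :
    (mP f P).map (cjH f : RR f →+* RR f) = mP f (io P) := by
  apply le_antisymm
  · rw [Ideal.map_le_iff_le_comap]
    intro F hF
    rw [Ideal.mem_comap]
    exact (cj_mem_mP h F).2 hF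
  · intro F hF
    have h1 : cj F ∈ mP f P := by
      have := (cj_mem_mP h.io F).2 hF
      rwa [io_io] at this
    have h2 := Ideal.mem_map_of_mem (cjH f : RR f →+* RR f) h1
    simpa using h2

/-! ### the ideals of divisors -/

@[simp] theorem IS_zero : IS f (0 : Multiset (E × E)) = ⊤ := by simp [IS, Ideal.one_eq_top]

@[simp] theorem IS_cons (P : E × E) (S : Multiset (E × E)) :
    IS f (P ::ₘ S) = mP f P * IS f S := by simp [IS]

theorem IS_add (S T : Multiset (E × E)) : IS f (S + T) = IS f S * IS f T := by simp [IS]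

theorem IS_le_of_le {S T : Multiset (E × E)} (h : S ≤ T) : IS f T ≤ IS f S := by
  obtain ⟨U, rfl⟩ := Multiset.le_iff_exists_add.1 h
  rw [IS_add]
  exact Ideal.mul_le_left (I := IS f S) (J := IS f U)

theorem IS_le_mP {S : Multiset (E × E)} {P : E × E} (h : P ∈ S) : IS f S ≤ mP f P := by
  obtain ⟨T, rfl⟩ := Multiset.exists_cons_of_mem h
  rw [IS_cons]
  exact Ideal.mul_le_left (I := mP f P) (J := IS f T)

theorem map_cj_IS {S : Multiset (E × E)} (h : OnM f S) :
    (IS f S).map (cjH f : RR f →+* RR f) = IS f (S.map io) := by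
  induction S using Multiset.induction_on with
  | empty => simp [Ideal.map_top]
  | cons P S ih =>
    rw [IS_cons, Ideal.map_mul, map_cj_mP (h P (Multiset.mem_cons_self P S)),
      ih (h.of_le (Multiset.le_cons_self S P)), Multiset.map_cons, IS_cons]

theorem cj_mem_IS {S : Multiset (E × E)} (h : OnM f S) {F : RR f} (hF : F ∈ IS f S) :
    cj F ∈ IS f (S.map io) := by
  rw [← map_cj_IS h]
  exact Ideal.mem_map_of_mem (cjH f : RR f →+* RR f) hF

@[simp] theorem NS_zero : NS (0 : Multiset (E × E)) = 1 := by simp [NS]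

@[simp] theorem NS_cons (P : E × E) (S : Multiset (E × E)) :
    NS (P ::ₘ S) = (X - C P.1) * NS S := by simp [NS]

theorem NS_add (S T : Multiset (E × E)) : NS (S + T) = NS S * NS T := by simp [NS]

@[simp] theorem NS_map_io (S : Multiset (E × E)) : NS (S.map io) = NS S := by
  simp [NS, Multiset.map_map, Function.comp_def]

theorem NS_monic (S : Multiset (E × E)) : (NS S).Monic :=
  monic_multiset_prod_of_monic _ _ (fun P _ => monic_X_sub_C P.1)

theorem NS_natDegree (S : Multiset (E × E)) : (NS S).natDegree = Multiset.card S := by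
  induction S using Multiset.induction_on with
  | empty => simp
  | cons P S ih =>
    rw [NS_cons, natDegree_mul (X_sub_C_ne_zero _) (NS_monic S).ne_zero, natDegree_X_sub_C, ih,
      Multiset.card_cons, add_comm]

/-- `mP P * mP (io P) = (X - t_P)` -/
theorem mP_mul_mP_io [CharZero E] (hf : Cv g f) {P : E × E} (h : On f P) :
    mP f P * mP f (io P) = Ideal.span {⟨X - C P.1, 0⟩} := by
  obtain ⟨q, hq⟩ : (X - C P.1) ∣ (f - C (f.eval P.1)) := X_sub_C_dvd_sub_C_eval
  apply le_antisymm
  · unfold mP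
    rw [Ideal.span_mul_span', Ideal.span_le]
    rintro F ⟨a, ha, b, hb, rfl⟩
    simp only [SetLike.mem_coe, Ideal.mem_span_singleton]
    rcases ha with rfl | rfl
    · exact Dvd.intro _ rfl
    · rcases hb with rfl | rfl
      · exact Dvd.intro_left _ rfl
      · refine ⟨⟨q, 0⟩, ?_⟩
        have hy : f.eval P.1 = P.2 ^ 2 := h.symm
        rw [hy] at hq
        ext1
        · simp only [re_mul', io_snd]
          simp only [map_neg, C_pow] at hq ⊢
          linear_combination hq
        · simp only [im_mul', io_snd]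
          simp
  · rw [Ideal.span_singleton_le_iff_mem]
    -- the unit ideal argument
    have hm1 : (⟨X - C P.1, 0⟩ : RR f) * ⟨X - C P.1, 0⟩ ∈ mP f P * mP f (io P) :=
      Ideal.mul_mem_mul (Ideal.subset_span (by simp)) (Ideal.subset_span (by simp))
    have hm2 : (⟨X - C P.1, 0⟩ : RR f) * ⟨-C (io P).2, 1⟩ ∈ mP f P * mP f (io P) :=
      Ideal.mul_mem_mul (Ideal.subset_span (by simp)) (Ideal.subset_span (by simp))
    have hm3 : (⟨-C P.2, 1⟩ : RR f) * ⟨X - C (io P).1, 0⟩ ∈ mP f P * mP f (io P) :=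
      Ideal.mul_mem_mul (Ideal.subset_span (by simp)) (Ideal.subset_span (by simp))
    have hm4 : (⟨-C P.2, 1⟩ : RR f) * ⟨-C (io P).2, 1⟩ ∈ mP f P * mP f (io P) :=
      Ideal.mul_mem_mul (Ideal.subset_span (by simp)) (Ideal.subset_span (by simp))
    have hy : f.eval P.1 = P.2 ^ 2 := h.symm
    by_cases h0 : P.2 = 0
    · -- Weierstrass point: q(t_P) ≠ 0
      have hq0 : q.eval P.1 ≠ 0 := by
        intro hq0
        have hd : (derivative f).eval P.1 = 0 := by
          have h1 : f = (X - C P.1) * q + C (f.eval P.1) := by rw [← hq]; ring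
          have h2 : derivative f = q + (X - C P.1) * derivative q := by
            conv_lhs => rw [h1]
            simp [derivative_mul]
          rw [h2]
          simp [hq0]
        obtain ⟨a, b, hab⟩ := hf.sep
        have h3 := congrArg (eval P.1) hab
        simp [hd, hy, h0] at h3
      obtain ⟨q', hq'⟩ : (X - C P.1) ∣ (q - C (q.eval P.1)) := X_sub_C_dvd_sub_C_eval
      have e1 : (⟨X - C P.1, 0⟩ : RR f) = ⟨C (q.eval P.1)⁻¹, 0⟩ *
          ((⟨-C P.2, 1⟩ : RR f) * ⟨-C (io P).2, 1⟩ -
            ⟨q', 0⟩ * ((⟨X - C P.1, 0⟩ : RR f) * ⟨X - C P.1, 0⟩)) := by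
        have hc : C (q.eval P.1)⁻¹ * C (q.eval P.1) = 1 := by
          rw [← C_mul, inv_mul_cancel₀ hq0, C_1]
        rw [hy, h0] at hq
        have hf' : f = (X - C P.1) * q := by
          rw [← hq]; simp
        have hq'' : q = C (q.eval P.1) + (X - C P.1) * q' := by rw [← hq']; ring
        ext1
        · simp only [re_mul', im_mul', QuadraticAlgebra.re_sub, QuadraticAlgebra.im_sub, io_snd, h0]
          simp only [neg_zero, map_zero, mul_zero, zero_mul, add_zero, mul_one, zero_add]
          have e3 : f - q' * ((X - C P.1) * (X - C P.1)) = (X - C P.1) * C (q.eval P.1) := by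
            conv_lhs => rw [hf', hq'']
            ring
          rw [e3]
          linear_combination (-(X - C P.1)) * hc
        · simp only [re_mul', im_mul', QuadraticAlgebra.re_sub, QuadraticAlgebra.im_sub, io_snd, h0]
          simp
      rw [e1]
      exact Ideal.mul_mem_left _ _ (Ideal.sub_mem _ hm4 (Ideal.mul_mem_left _ _ hm1))
    · -- otherwise 2 y_P is invertible
      have h2 : (2 * P.2) ≠ 0 := mul_ne_zero two_ne_zero h0
      have e1 : (⟨X - C P.1, 0⟩ : RR f) = ⟨C (2 * P.2)⁻¹, 0⟩ *
          ((⟨X - C P.1, 0⟩ : RR f) * ⟨-C (io P).2, 1⟩ -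
            (⟨-C P.2, 1⟩ : RR f) * ⟨X - C (io P).1, 0⟩) := by
        have hc : C (2 * P.2)⁻¹ * C (2 * P.2) = 1 := by
          rw [← C_mul, inv_mul_cancel₀ h2, C_1]
        ext1
        · simp only [re_mul', im_mul', QuadraticAlgebra.re_sub, QuadraticAlgebra.im_sub, io_snd,
            io_fst]
          simp only [map_neg, C_mul, map_ofNat] at hc ⊢
          linear_combination (-(X - C P.1)) * hc
        · simp only [re_mul', im_mul', QuadraticAlgebra.re_sub, QuadraticAlgebra.im_sub, io_snd,
            io_fst]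
          simp
      rw [e1]
      exact Ideal.mul_mem_left _ _ (Ideal.sub_mem _ hm2 hm3)

theorem IS_mul_IS_io [CharZero E] (hf : Cv g f) {S : Multiset (E × E)} (h : OnM f S) :
    IS f S * IS f (S.map io) = Ideal.span {⟨NS S, 0⟩} := by
  induction S using Multiset.induction_on with
  | empty =>
    simp only [Multiset.map_zero, IS_zero, NS_zero]
    have : (⟨1, 0⟩ : RR f) = 1 := rfl
    rw [this, Ideal.span_singleton_one, Ideal.top_mul]
  | cons P S ih =>
    rw [Multiset.map_cons, IS_cons, IS_cons, NS_cons]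
    have h1 := mP_mul_mP_io hf (h P (Multiset.mem_cons_self P S))
    have h2 := ih (h.of_le (Multiset.le_cons_self S P))
    calc mP f P * IS f S * (mP f (io P) * IS f (S.map io))
        = (mP f P * mP f (io P)) * (IS f S * IS f (S.map io)) := by ring
      _ = Ideal.span {⟨(X - C P.1) * NS S, 0⟩} := by
        rw [h1, h2, Ideal.span_singleton_mul_span_singleton]
        congr 2
        ext1
        · rw [re_mul']; simp
        · rw [im_mul']; simp

/-- an element of `IS S` has norm divisible by `NS S` -/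
theorem NS_dvd_nr [CharZero E] (hf : Cv g f) {S : Multiset (E × E)} (h : OnM f S) {F : RR f}
    (hF : F ∈ IS f S) : NS S ∣ nr F := by
  have h1 : F * cj F ∈ IS f S * IS f (S.map io) := Ideal.mul_mem_mul hF (cj_mem_IS h hF)
  rw [IS_mul_IS_io hf h, mul_cj, Ideal.mem_span_singleton] at h1
  obtain ⟨G, hG⟩ := h1
  have h2 := congrArg QuadraticAlgebra.re hG
  rw [re_mul'] at h2
  simp only [zero_mul, mul_zero, add_zero] at h2
  exact Dvd.intro _ h2.symm

theorem exists_eq_span_mul {R : Type*} [CommRing R] (a : R) (I : Ideal R)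
    (h : I ≤ Ideal.span {a}) : ∃ J : Ideal R, I = Ideal.span {a} * J := by
  refine ⟨Submodule.comap (LinearMap.mulLeft R a) I, ?_⟩
  ext y
  rw [Ideal.mem_span_singleton_mul]
  constructor
  · intro hy
    obtain ⟨z, hz⟩ := Ideal.mem_span_singleton.1 (h hy)
    refine ⟨z, ?_, hz.symm⟩
    rw [Submodule.mem_comap, LinearMap.mulLeft_apply, ← hz]
    exact hy
  · rintro ⟨z, hz, rfl⟩
    rw [Submodule.mem_comap, LinearMap.mulLeft_apply] at hz
    exact hz

theorem NS_ne_zero' (S : Multiset (E × E)) : (⟨NS S, 0⟩ : RR f) ≠ 0 := by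
  intro h
  exact (NS_monic S).ne_zero (congrArg QuadraticAlgebra.re h)

/-- to contain is to divide -/
theorem IS_dvd [CharZero E] (hf : Cv g f) {S : Multiset (E × E)} (h : OnM f S) (I : Ideal (RR f))
    (hI : I ≤ IS f S) : ∃ J : Ideal (RR f), I = J * IS f S := by
  have := isDomain hf
  have h1 : I * IS f (S.map io) ≤ Ideal.span {(⟨NS S, 0⟩ : RR f)} := by
    rw [← IS_mul_IS_io hf h]
    exact Ideal.mul_mono_left hI
  obtain ⟨J, hJ⟩ := exists_eq_span_mul _ _ h1
  refine ⟨J, ?_⟩
  rw [← Ideal.span_singleton_mul_right_inj (NS_ne_zero' (f := f) S)]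
  calc Ideal.span {(⟨NS S, 0⟩ : RR f)} * I
      = (I * IS f (S.map io)) * IS f S := by rw [← IS_mul_IS_io hf h]; ring
    _ = Ideal.span {(⟨NS S, 0⟩ : RR f)} * (J * IS f S) := by rw [hJ]; ring

/-- cancellation of the ideal of a divisor -/
theorem IS_cancel [CharZero E] (hf : Cv g f) {S : Multiset (E × E)} (h : OnM f S)
    {I J : Ideal (RR f)} (hIJ : I * IS f S = J * IS f S) : I = J := by
  have := isDomain hf
  rw [← Ideal.span_singleton_mul_right_inj (NS_ne_zero' (f := f) S), ← IS_mul_IS_io hf h]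
  calc IS f S * IS f (S.map io) * I = (I * IS f S) * IS f (S.map io) := by ring
    _ = IS f S * IS f (S.map io) * J := by rw [hIJ]; ring

theorem mP_eq_IS (P : E × E) : mP f P = IS f {P} := by simp [IS]

/-- uniqueness of the factorisation -/
theorem IS_injective [CharZero E] (hf : Cv g f) {S T : Multiset (E × E)} (h : OnM f S)
    (h' : OnM f T) (hST : IS f S = IS f T) : S = T := by
  induction S using Multiset.induction_on generalizing T with
  | empty =>
    rw [IS_zero] at hST
    by_contra hcon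
    obtain ⟨P, hP⟩ := Multiset.exists_mem_of_ne_zero (fun h => hcon h.symm)
    have h1 := IS_le_mP (f := f) hP
    rw [← hST, top_le_iff] at h1
    exact (mP_isMaximal (h' P hP)).ne_top h1
  | cons P S ih =>
    have hP := h P (Multiset.mem_cons_self P S)
    have hS := h.of_le (Multiset.le_cons_self S P)
    have h1 : IS f T ≤ mP f P := by
      rw [← hST]
      exact IS_le_mP (Multiset.mem_cons_self P S)
    have hmem : P ∈ T := by
      unfold IS at h1
      have hprime := (mP_isMaximal hP).isPrime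
      rw [Ideal.IsPrime.multiset_prod_map_le _ hprime] at h1
      obtain ⟨Q, hQ, hle⟩ := h1
      have := mP_injective (f := f) hP hle
      rwa [this] at hQ
    obtain ⟨T', rfl⟩ := Multiset.exists_cons_of_mem hmem
    have hT' := h'.of_le (Multiset.le_cons_self T' P)
    rw [IS_cons, IS_cons, mul_comm, mul_comm (mP f P), mP_eq_IS] at hST
    have hP' : OnM f ({P} : Multiset (E × E)) := by
      intro Q hQ
      rw [Multiset.mem_singleton] at hQ
      rwa [hQ]
    rw [ih hS hT' (IS_cancel hf hP' hST)]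

theorem IsDiv.span [CharZero E] (hf : Cv g f) {F : RR f} {S : Multiset (E × E)}
    (h : IsDiv f F S) : Ideal.span {F} = IS f S := by
  have := isDomain hf
  have h1 : Ideal.span {F} ≤ IS f S := (Ideal.span_singleton_le_iff_mem _).2 h.mem
  obtain ⟨J, hJ⟩ := IS_dvd hf h.on _ h1
  have h2 : Ideal.span {cj F} ≤ IS f (S.map io) :=
    (Ideal.span_singleton_le_iff_mem _).2 (cj_mem_IS h.on h.mem)
  obtain ⟨J', hJ'⟩ := IS_dvd hf h.on.io _ h2
  obtain ⟨q, hq⟩ := NS_dvd_nr hf h.on h.mem
  have hn := nr_ne_zero hf h.ne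
  have hq0 : q ≠ 0 := by rintro rfl; rw [mul_zero] at hq; exact hn hq
  have hdeg : q.natDegree = 0 := by
    have h3 := h.deg
    rw [hq, natDegree_mul (NS_monic S).ne_zero hq0, NS_natDegree] at h3
    omega
  obtain ⟨c, rfl⟩ : ∃ c : E, q = C c := ⟨q.coeff 0, eq_C_of_natDegree_eq_zero hdeg⟩
  have hc : c ≠ 0 := by rintro rfl; simp at hq0
  have h4 : Ideal.span {F} * Ideal.span {cj F} = Ideal.span {(⟨NS S, 0⟩ : RR f)} := by
    rw [Ideal.span_singleton_mul_span_singleton, mul_cj, hq]
    apply Ideal.span_singleton_eq_span_singleton.2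
    refine Associated.symm ⟨⟨⟨C c, 0⟩, ⟨C c⁻¹, 0⟩, ?_, ?_⟩, ?_⟩
    · ext1
      · rw [re_mul']
        simp only [mul_zero, add_zero, QuadraticAlgebra.re_one]
        rw [← C_mul, mul_inv_cancel₀ hc, C_1]
      · rw [im_mul']; simp [QuadraticAlgebra.im_one]
    · ext1
      · rw [re_mul']
        simp only [mul_zero, add_zero, QuadraticAlgebra.re_one]
        rw [← C_mul, inv_mul_cancel₀ hc, C_1]
      · rw [im_mul']; simp [QuadraticAlgebra.im_one]
    · ext1
      · simp only [re_mul', mul_zero, add_zero]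
      · simp only [im_mul', mul_zero, zero_mul, add_zero]
  have h5 : J * J' = ⊤ := by
    rw [hJ, hJ'] at h4
    rw [← Ideal.one_eq_top, ← Ideal.span_singleton_mul_right_inj (NS_ne_zero' (f := f) S),
      mul_one]
    calc Ideal.span {(⟨NS S, 0⟩ : RR f)} * (J * J')
        = (IS f S * IS f (S.map io)) * (J * J') := by rw [IS_mul_IS_io hf h.on]
      _ = J * IS f S * (J' * IS f (S.map io)) := by ring
      _ = _ := h4
  have h6 : J = ⊤ := by
    rw [eq_top_iff, ← h5]
    exact Ideal.mul_le_left (I := J) (J := J')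
  rw [hJ, h6, Ideal.top_mul]

/-- uniqueness of the divisor of a function -/
theorem IsDiv.unique [CharZero E] (hf : Cv g f) {F : RR f} {S T : Multiset (E × E)}
    (h : IsDiv f F S) (h' : IsDiv f F T) : S = T :=
  IS_injective hf h.on h'.on ((h.span hf).symm.trans (h'.span hf))

theorem IsDiv.mul (hf : Cv g f) {F G : RR f} {S T : Multiset (E × E)} (h : IsDiv f F S)
    (h' : IsDiv f G T) : IsDiv f (F * G) (S + T) := by
  have := isDomain hf
  refine ⟨mul_ne_zero h.ne h'.ne, ?_, ?_, h.on.add h'.on⟩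
  · rw [IS_add]
    exact Ideal.mul_mem_mul h.mem h'.mem
  · rw [nr_mul, natDegree_mul (nr_ne_zero hf h.ne) (nr_ne_zero hf h'.ne), h.deg, h'.deg,
      Multiset.card_add]

theorem cj_ne_zero {F : RR f} (h : F ≠ 0) : cj F ≠ 0 := by
  intro h0
  apply h
  rw [← cj_cj F, h0]
  ext1 <;> simp [cj]

theorem IsDiv.cj {F : RR f} {S : Multiset (E × E)} (h : IsDiv f F S) :
    IsDiv f (cj F) (S.map io) := by
  refine ⟨cj_ne_zero h.ne, cj_mem_IS h.on h.mem, ?_, h.on.io⟩
  rw [nr_cj, h.deg, Multiset.card_map]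

theorem isDiv_NS [CharZero E] (hf : Cv g f) {S : Multiset (E × E)} (h : OnM f S) :
    IsDiv f ⟨NS S, 0⟩ (S + S.map io) := by
  refine ⟨NS_ne_zero' S, ?_, ?_, h.add h.io⟩
  · rw [IS_add, IS_mul_IS_io hf h]
    exact Ideal.mem_span_singleton_self _
  · rw [nr_C, natDegree_pow, NS_natDegree, Multiset.card_add, Multiset.card_map]
    ring

/-- a function vanishing at a point has this point in its divisor -/
theorem IsDiv.mem_of_ev [CharZero E] (hf : Cv g f) {F : RR f} {S : Multiset (E × E)}
    (h : IsDiv f F S) {Q : E × E} (hQ : On f Q) (h0 : ev F Q = 0) : Q ∈ S := by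
  have h1 : F ∈ mP f Q := (mem_mP_iff hQ F).2 h0
  have h2 : IS f S ≤ mP f Q := by
    rw [← h.span hf]
    exact (Ideal.span_singleton_le_iff_mem _).2 h1
  unfold IS at h2
  rw [Ideal.IsPrime.multiset_prod_map_le _ (mP_isMaximal hQ).isPrime] at h2
  obtain ⟨P, hP, hle⟩ := h2
  have := mP_injective (f := f) hQ hle
  rwa [this] at hP

theorem IsDiv.ev_eq_zero {F : RR f} {S : Multiset (E × E)} (h : IsDiv f F S) {Q : E × E}
    (hQ : Q ∈ S) : ev F Q = 0 :=
  (mem_mP_iff (h.on Q hQ) F).1 (IS_le_mP hQ h.mem)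

/-- Nullstellensatz -/
theorem exists_point [CharZero E] [IsAlgClosed E] (hf : Cv g f) (I : Ideal (RR f)) (hI : I ≠ ⊤)
    {F : RR f} (hF : F ∈ I) (hF0 : F ≠ 0) : ∃ P : E × E, On f P ∧ I ≤ mP f P := by
  obtain ⟨M, hM, hIM⟩ := Ideal.exists_le_maximal I hI
  have hn := nr_ne_zero hf hF0
  have h1 : (⟨nr F, 0⟩ : RR f) ∈ M := by
    rw [← mul_cj]
    exact M.mul_mem_right _ (hIM hF)
  -- a root of the norm lies in `M`
  have h2 : ∀ p : E[X], p ≠ 0 → (⟨p, 0⟩ : RR f) ∈ M → ∃ a : E, (⟨X - C a, 0⟩ : RR f) ∈ M := by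
    intro p
    induction hd : p.natDegree generalizing p with
    | zero =>
      intro hp hpM
      exfalso
      obtain ⟨c, rfl⟩ : ∃ c : E, p = C c := ⟨p.coeff 0, eq_C_of_natDegree_eq_zero hd⟩
      have hc : c ≠ 0 := by rintro rfl; simp at hp
      apply hM.ne_top
      rw [Ideal.eq_top_iff_one]
      have h3 : (1 : RR f) = ⟨C c⁻¹, 0⟩ * ⟨C c, 0⟩ := by
        ext1
        · rw [re_mul']
          simp only [mul_zero, add_zero, QuadraticAlgebra.re_one]
          rw [← C_mul, inv_mul_cancel₀ hc, C_1]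
        · rw [im_mul']; simp [QuadraticAlgebra.im_one]
      rw [h3]
      exact M.mul_mem_left _ hpM
    | succ n ih =>
      intro hp hpM
      have hdeg : p.degree ≠ 0 := by
        rw [degree_eq_natDegree hp, hd]
        exact_mod_cast Nat.succ_ne_zero n
      obtain ⟨a, ha⟩ := IsAlgClosed.exists_root p hdeg
      obtain ⟨q, rfl⟩ := dvd_iff_isRoot.2 ha
      have hq : q ≠ 0 := right_ne_zero_of_mul hp
      have h3 : (⟨(X - C a) * q, 0⟩ : RR f) = ⟨X - C a, 0⟩ * ⟨q, 0⟩ := by
        ext1
        · rw [re_mul']; simp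
        · rw [im_mul']; simp
      rw [h3] at hpM
      rcases hM.isPrime.mem_or_mem hpM with h4 | h4
      · exact ⟨a, h4⟩
      · apply ih q _ hq h4
        rw [natDegree_mul (X_sub_C_ne_zero a) hq, natDegree_X_sub_C] at hd
        omega
  obtain ⟨a, ha⟩ := h2 _ hn h1
  obtain ⟨b, hb⟩ := IsAlgClosed.exists_pow_nat_eq (f.eval a) (n := 2) (by norm_num)
  obtain ⟨q, hq⟩ : (X - C a) ∣ (f - C (f.eval a)) := X_sub_C_dvd_sub_C_eval
  have h3 : (⟨-C b, 1⟩ : RR f) * ⟨-C (-b), 1⟩ ∈ M := by
    have h4 : (⟨-C b, 1⟩ : RR f) * ⟨-C (-b), 1⟩ = ⟨X - C a, 0⟩ * ⟨q, 0⟩ := by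
      rw [← hb] at hq
      ext1
      · simp only [re_mul', map_neg, C_pow] at hq ⊢
        linear_combination hq
      · rw [im_mul', im_mul']; simp
    rw [h4]
    exact M.mul_mem_right _ ha
  have key : ∀ b' : E, b' ^ 2 = f.eval a → (⟨-C b', 1⟩ : RR f) ∈ M →
      ∃ P : E × E, On f P ∧ I ≤ mP f P := by
    intro b' hb' hM'
    have hP : On f (a, b') := hb'
    refine ⟨(a, b'), hP, ?_⟩
    have h5 : mP f (a, b') ≤ M := by
      unfold mP
      rw [Ideal.span_le]
      rintro G (rfl | rfl)
      · exact ha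
      · exact hM'
    have h6 : mP f (a, b') = M := (mP_isMaximal hP).eq_of_le hM.ne_top h5
    rw [h6]
    exact hIM
  rcases hM.isPrime.mem_or_mem h3 with h4 | h4
  · exact key b hb h4
  · exact key (-b) (by rw [neg_sq]; exact hb) h4

/-- existence of the divisor of a function -/
theorem exists_isDiv [CharZero E] [IsAlgClosed E] (hf : Cv g f) {S : Multiset (E × E)}
    (h : OnM f S) {F : RR f} (hF : F ∈ IS f S) (hF0 : F ≠ 0) :
    ∃ T : Multiset (E × E), IsDiv f F (S + T) := by
  have := isDomain hf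
  have hn := nr_ne_zero hf hF0
  induction hk : (nr F).natDegree - Multiset.card S generalizing S with
  | zero =>
    have h1 := natDegree_le_of_dvd (NS_dvd_nr hf h hF) hn
    rw [NS_natDegree] at h1
    exact ⟨0, hF0, by simpa using hF, by rw [add_zero]; omega, by simpa using h⟩
  | succ k ih =>
    obtain ⟨J, hJ⟩ := IS_dvd hf h (Ideal.span {F}) ((Ideal.span_singleton_le_iff_mem _).2 hF)
    have hJtop : J ≠ ⊤ := by
      rintro rfl
      rw [Ideal.top_mul] at hJ
      have h2 : (Ideal.span {F}).map (cjH f : RR f →+* RR f) = IS f (S.map io) := by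
        rw [hJ, map_cj_IS h]
      rw [Ideal.map_span, Set.image_singleton] at h2
      have h3 : Ideal.span {F} * Ideal.span {cj F} = Ideal.span {(⟨NS S, 0⟩ : RR f)} := by
        rw [← IS_mul_IS_io hf h, hJ]
        congr 1
      rw [Ideal.span_singleton_mul_span_singleton, mul_cj] at h3
      have h4 : (⟨NS S, 0⟩ : RR f) ∈ Ideal.span {(⟨nr F, 0⟩ : RR f)} := by
        rw [h3]; exact Ideal.mem_span_singleton_self _
      obtain ⟨G, hG⟩ := Ideal.mem_span_singleton.1 h4
      have h5 := congrArg QuadraticAlgebra.re hG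
      rw [re_mul'] at h5
      simp only [zero_mul, mul_zero, add_zero] at h5
      have h6 := natDegree_le_of_dvd (Dvd.intro _ h5.symm) (NS_monic S).ne_zero
      rw [NS_natDegree] at h6
      omega
    have hJbot : J ≠ ⊥ := by
      rintro rfl
      rw [Ideal.bot_mul, Ideal.span_singleton_eq_bot] at hJ
      exact hF0 hJ
    obtain ⟨G, hG, hG0⟩ := Submodule.exists_mem_ne_zero_of_ne_bot hJbot
    obtain ⟨P, hP, hle⟩ := exists_point hf J hJtop hG hG0
    have h7 : F ∈ IS f (P ::ₘ S) := by
      rw [IS_cons, ← Ideal.span_singleton_le_iff_mem, hJ]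
      exact Ideal.mul_mono_left hle
    obtain ⟨T, hT⟩ := ih (h.cons hP) h7 (by rw [Multiset.card_cons]; omega)
    refine ⟨P ::ₘ T, ?_⟩
    rwa [Multiset.add_cons, ← Multiset.cons_add]

end Pool.Agent.HMW
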