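import Pool.Agent.HMW.Places

set_option autoImplicit false
set_option linter.unusedSectionVars false

/-!
# Mordell-Weil for hyperelliptic Jacobians: the class map
-/

open Polynomial

noncomputable section

namespace Pool.Agent.HMW

/-- `cls` is the class map from rational effective divisors to the group `G = J(K)` -/
structure Cls (K : Type) {E : Type} [Field K] [CharZero K] [Field E] [CharZero E]
    [IsAlgClosed E] [Algebra K E] [Algebra.IsAlgebraic K E] (f : E[X]) (G : Type)
    [AddCommGroup G] (cls : Multiset (E × E) → G) : Prop where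
  add : ∀ S T, MK K f S → MK K f T → cls (S + T) = cls S + cls T
  zero : ∀ S, MK K f S → (cls S = 0 ↔ Prin K f S)
  surj : ∀ c, ∃ S, MK K f S ∧ cls S = c

namespace Cls

variable {K E : Type} [Field K] [CharZero K] [Field E] [CharZero E]
    [IsAlgClosed E] [Algebra K E] [Algebra.IsAlgebraic K E] {f : E[X]} {g : ℕ} {G : Type}
    [AddCommGroup G] {cls : Multiset (E × E) → G}

theorem map_zero (h : Cls K f G cls) (hf : Cv g f) : cls 0 = 0 :=
  (h.zero 0 MK_zero).2 (Prin_zero hf)

theorem map_io (h : Cls K f G cls) (hf : Cv g f) {S : Multiset (E × E)} (hS : MK K f S) :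
    cls (S.map io) = -cls S := by
  have h1 := (h.zero _ (hS.add hS.io)).2 (Prin_NS hf hS)
  rw [h.add _ _ hS hS.io] at h1
  exact (neg_eq_of_add_eq_zero_right h1).symm

theorem eq_iff (h : Cls K f G cls) (hf : Cv g f) {S T : Multiset (E × E)} (hS : MK K f S)
    (hT : MK K f T) : cls S = cls T ↔ Prin K f (S + T.map io) := by
  rw [← h.zero _ (hS.add hT.io), h.add _ _ hS hT.io, h.map_io hf hT, ← sub_eq_add_neg,
    sub_eq_zero]

theorem eq_neg_iff (h : Cls K f G cls) {S T : Multiset (E × E)} (hS : MK K f S)
    (hT : MK K f T) : cls S = -cls T ↔ Prin K f (S + T) := by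
  rw [← h.zero _ (hS.add hT), h.add _ _ hS hT, eq_neg_iff_add_eq_zero]

end Cls

end Pool.Agent.HMW
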