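import Mathlib

set_option autoImplicit false

/-!
# Mordell-Weil for Jacobians of odd degree hyperelliptic curves `y^2 = f(t)`: definitions

`E` is a field (later: algebraically closed), `f` a monic separable polynomial of degree
`2 g + 1`.  The affine coordinate ring of the curve is `RR f = E[X][y]/(y^2 - f)`; its elements
are `A + B y` with `A = re`, `B = im`.  Points are pairs `(t, y)`; effective divisors are
multisets of points.
-/

open Polynomial

noncomputable section

namespace Pool.Agent.HMW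

variable {E : Type} [Field E]

/-- the affine coordinate ring of the curve `y^2 = f(t)` -/
abbrev RR (f : E[X]) : Type := QuadraticAlgebra E[X] f 0

/-- `f` is monic and separable of degree `2 g + 1`, `g ≥ 1` -/
structure Cv (g : ℕ) (f : E[X]) : Prop where
  monic : f.Monic
  deg : f.natDegree = 2 * g + 1
  sep : f.Separable
  pos : 1 ≤ g

/-- `P` lies on the curve -/
def On (f : E[X]) (P : E × E) : Prop := P.2 ^ 2 = f.eval P.1

/-- all points of `S` lie on the curve -/
def OnM (f : E[X]) (S : Multiset (E × E)) : Prop := ∀ P ∈ S, On f P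

/-- the hyperelliptic involution -/
def io (P : E × E) : E × E := (P.1, -P.2)

/-- value of `F = A + B y` at `P` -/
def ev {f : E[X]} (F : RR f) (P : E × E) : E := F.re.eval P.1 + F.im.eval P.1 * P.2

/-- the norm `A^2 - f B^2` -/
def nr {f : E[X]} (F : RR f) : E[X] := F.re ^ 2 - f * F.im ^ 2

/-- the conjugate `A - B y` -/
def cj {f : E[X]} (F : RR f) : RR f := ⟨F.re, -F.im⟩

/-- the ideal of the point `P` -/
def mP (f : E[X]) (P : E × E) : Ideal (RR f) := Ideal.span {⟨X - C P.1, 0⟩, ⟨-C P.2, 1⟩}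

/-- the ideal of the effective divisor `S` -/
def IS (f : E[X]) (S : Multiset (E × E)) : Ideal (RR f) := (S.map (mP f)).prod

/-- `∏ (X - t_P)` -/
def NS (S : Multiset (E × E)) : E[X] := (S.map fun P => X - C P.1).prod

/-- the function `F` has divisor of zeros `S` (in the affine curve) -/
structure IsDiv (f : E[X]) (F : RR f) (S : Multiset (E × E)) : Prop where
  ne : F ≠ 0
  mem : F ∈ IS f S
  deg : (nr F).natDegree = Multiset.card S
  on : OnM f S

/-- the pole order of `F` at infinity is at most `D` -/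
def WD (g : ℕ) {f : E[X]} (F : RR f) (D : ℕ) : Prop :=
  2 * F.re.natDegree ≤ D ∧ (F.im = 0 ∨ 2 * F.im.natDegree + (2 * g + 1) ≤ D)

/-! ## local quantities -/

/-- all coefficients of `p` are at most `M` -/
def PB (v : AbsoluteValue E ℝ) (p : E[X]) (M : ℝ) : Prop := ∀ i, v (p.coeff i) ≤ M

/-- size of a point -/
def nm (v : AbsoluteValue E ℝ) (P : E × E) : ℝ := max 1 (v P.1)

/-- distance of two points (projective normalisation) -/
def dd (v : AbsoluteValue E ℝ) (g : ℕ) (P Q : E × E) : ℝ :=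
  max (v (P.1 - Q.1) / (nm v P * nm v Q))
    (max (v (P.2 - Q.2) / (nm v P * nm v Q) ^ (g + 1))
      (v (P.2 * Q.1 ^ (g + 1) - Q.2 * P.1 ^ (g + 1)) / (nm v P * nm v Q) ^ (g + 1)))

/-- logarithmic local symbol -/
def le (v : AbsoluteValue E ℝ) (g : ℕ) (P Q : E × E) : ℝ :=
  Real.log (dd v g P Q) + (Real.log (nm v P) + Real.log (nm v Q)) / 2

/-- local symbol of two effective divisors -/
def lsum (v : AbsoluteValue E ℝ) (g : ℕ) (S T : Multiset (E × E)) : ℝ :=
  (S.map fun P => (T.map fun Q => le v g P Q).sum).sum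

/-- divided difference `(p(x) - p(y)) / (x - y)` -/
def DD (p : E[X]) (x y : E) : E :=
  p.sum fun k c => c * ∑ i ∈ Finset.range k, x ^ i * y ^ (k - 1 - i)

/-- `(p(x) y^(2g+2) - p(y) x^(2g+2)) / (x - y)` for `deg p ≤ 2 g + 1` -/
def DT (g : ℕ) (p : E[X]) (x y : E) : E :=
  - p.sum fun k c => c * (x * y) ^ k *
      ∑ i ∈ Finset.range (2 * g + 2 - k), x ^ i * y ^ (2 * g + 1 - k - i)

/-- `v` is tame for the curve with constant `Λ` -/
structure Tm (v : AbsoluteValue E ℝ) (g : ℕ) (f : E[X]) (N : ℕ) (Λ : ℝ) : Prop where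
  one : 1 ≤ Λ
  add : ∀ x y, v (x + y) ≤ Λ * max (v x) (v y)
  two : 1 ≤ Λ * v 2
  cf : PB v f Λ
  bez : ∃ a b : E[X], a * f + b * derivative f = 1 ∧ PB v a Λ ∧ PB v b Λ ∧
    a.natDegree ≤ N ∧ b.natDegree ≤ N
  bez' : ∃ a b : E[X], a * (X * f.reverse) + b * derivative (X * f.reverse) = 1 ∧
    PB v a Λ ∧ PB v b Λ ∧ a.natDegree ≤ N ∧ b.natDegree ≤ N

end Pool.Agent.HMW
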