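import Pool.Agent.HMW.Targets

set_option autoImplicit false
set_option linter.unusedSectionVars false

/-!
# The height pairing exists
-/

open Polynomial Height Height.AdmissibleAbsValues NumberField IsDedekindDomain
open scoped Classical

noncomputable section

namespace Pool.Agent.HMW

namespace FRM_

/-- a rational divisor can be moved away from the `t`-coordinates of a given divisor -/
theorem move {K E : Type} [Field K] [CharZero K] [Field E] [CharZero E]
    [IsAlgClosed E] [Algebra K E] [Algebra.IsAlgebraic K E] (hMOV : T_MOV) {g : ℕ} {f : E[X]}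
    (hf : Cv g f) (hK : KP K f) {G : Type} [AddCommGroup G] {cls : Multiset (E × E) → G}
    (hc : Cls K f G cls) (S T : Multiset (E × E)) (hS : MK K f S) (hT : OnM f T) :
    ∃ U : Multiset (E × E), MK K f U ∧ Prin K f (S + U) ∧ cls U = -cls S ∧
      Multiset.card U ≤ 2 * g * Multiset.card S ∧ Tj U T := by
  obtain ⟨U, hU, hP, hcard, hdis⟩ := hMOV K E g f hf hK S ((T + T.map io).toFinset) hS
  refine ⟨U, hU, hP, ?_, hcard, ?_⟩
  · rw [hc.eq_neg_iff hU hS, add_comm]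
    exact hP
  · intro Q hQ P hP h
    apply hdis Q _ hQ
    rw [Multiset.mem_toFinset, Multiset.mem_add]
    have h1 : Q.2 ^ 2 = P.2 ^ 2 := by
      have a1 := hU.1 Q hQ
      have a2 := hT P hP
      unfold On at a1 a2
      rw [a1, a2, h]
    rcases sq_eq_sq_iff_eq_or_eq_neg.1 h1 with h2 | h2
    · left
      rw [show Q = P from Prod.ext h h2]
      exact hP
    · right
      rw [show Q = io P from Prod.ext h h2]
      exact Multiset.mem_map_of_mem io hP

theorem neg_left {G : Type} [AddCommGroup G] {B : G → G → ℝ}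
    (hB : ∀ a b c, B (a + b) c = B a c + B b c) (a c : G) : B (-a) c = -B a c := by
  have h0 : B 0 c = 0 := by
    have := hB 0 0 c
    rw [add_zero] at this
    linarith
  have h1 := hB a (-a) c
  rw [add_neg_cancel, h0] at h1
  linarith

end FRM_

open FRM_

theorem p_FRM : T_CXF → T_QB → T_WD → T_MOV → T_RED → T_PR → T_FSP → T_FRM := by
  intro hCXF hQB hWD hMOV hRED hPR hFSP K E _ _ _ _ _ _ _ g θ f ext hCx G _ cls hc
  obtain ⟨hf, hK, -⟩ := hCXF K E g θ f ext hCx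
  have hFS := (hFSP K E ext hCx.ext).2.2 g
  -- additivity
  have hadd : ∀ S S' T : Multiset (E × E), Dj S T → Dj S' T →
      pr ext g (S + S') T = pr ext g S T + pr ext g S' T := by
    intro S S' T h h'
    unfold pr
    simp only [lsum_add_left]
    exact Vs_add (hFS S T h) (hFS S' T h')
  have hmove := fun S T hS hT => move hMOV hf hK hc S T hS hT
  -- representatives of small degree
  have hrep : ∀ c : G, ∃ S : Multiset (E × E), MK K f S ∧ cls S = c ∧ Multiset.card S ≤ g := by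
    intro c
    obtain ⟨S₀, hS₀, h0⟩ := hc.surj (-c)
    obtain ⟨S', hS', hP, hcard⟩ := hRED K E g f hf hK S₀ hS₀
    refine ⟨S', hS', ?_, hcard⟩
    have h1 := (hc.zero _ (hS₀.add hS')).2 hP
    rw [hc.add _ _ hS₀ hS', h0] at h1
    exact (neg_add_eq_zero.1 h1).symm
  -- representatives of small degree away from a given divisor
  have hrep2 : ∀ (c : G) (T : Multiset (E × E)), OnM f T →
      ∃ S : Multiset (E × E), MK K f S ∧ cls S = c ∧ Multiset.card S ≤ 2 * g * g ∧ Tj S T := by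
    intro c T hT
    obtain ⟨S, hS, h1, h2⟩ := hrep (-c)
    obtain ⟨U, hU, -, h3, h4, h5⟩ := hmove S T hS hT
    refine ⟨U, hU, by rw [h3, h1, neg_neg], h4.trans (Nat.mul_le_mul_left _ h2), h5⟩
  -- the pairing depends only on the classes
  have hWD2 : ∀ k : ℕ, ∃ C : ℝ, ∀ S₁ S₂ T₁ T₂ : Multiset (E × E), MK K f S₁ → MK K f S₂ →
      MK K f T₁ → MK K f T₂ → Multiset.card S₁ ≤ k → Multiset.card S₂ ≤ k →
      Multiset.card T₁ ≤ k → Multiset.card T₂ ≤ k → cls S₁ = cls S₂ → cls T₁ = cls T₂ →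
      Tj S₁ T₁ → Tj S₂ T₂ → |pr ext g S₁ T₁ - pr ext g S₂ T₂| ≤ C := by
    intro k
    obtain ⟨C, hC⟩ := hWD K E g θ f ext hCx (k + 2 * g * g)
    refine ⟨3 * C, ?_⟩
    intro S₁ S₂ T₁ T₂ hS₁ hS₂ hT₁ hT₂ k1 k2 k3 k4 hSS hTT h11 h22
    obtain ⟨U, hU, hUc, hUk, hUT⟩ := hrep2 (cls S₁) (T₁ + T₂) (hT₁.add hT₂).1
    have hU1 : Tj U T₁ := fun P hP Q hQ => hUT P hP Q (Multiset.mem_add.2 (Or.inl hQ))
    have hU2 : Tj U T₂ := fun P hP Q hQ => hUT P hP Q (Multiset.mem_add.2 (Or.inr hQ))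
    have e1 := hC S₁ U T₁ hS₁ hU hT₁ (by omega) (by omega) (by omega)
      ((hc.eq_iff hf hS₁ hU).1 hUc.symm) h11 hU1
    have e2 := hC T₁ T₂ U hT₁ hT₂ hU (by omega) (by omega) (by omega)
      ((hc.eq_iff hf hT₁ hT₂).1 hTT) hU1.symm hU2.symm
    have e3 := hC U S₂ T₂ hU hS₂ hT₂ (by omega) (by omega) (by omega)
      ((hc.eq_iff hf hU hS₂).1 (hUc.trans hSS)) hU2 h22
    rw [pr_comm ext g T₁ U, pr_comm ext g T₂ U] at e2
    rw [abs_le] at e1 e2 e3 ⊢
    constructor <;> linarith [e1.1, e1.2, e2.1, e2.2, e3.1, e3.2]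
  -- the choice of the quasi-bilinear function
  choose Sc hSc1 hSc2 hSc3 using hrep
  have hTc : ∀ a b : G, ∃ T : Multiset (E × E), MK K f T ∧ cls T = b ∧
      Multiset.card T ≤ 2 * g * g ∧ Tj T (Sc a) := fun a b => hrep2 b (Sc a) (hSc1 a).1
  choose Tc hTc1 hTc2 hTc3 hTc4 using hTc
  let q : G → G → ℝ := fun a b => pr ext g (Sc a) (Tc a b)
  have hN : ∀ k : ℕ, ∃ C : ℝ, ∀ S T : Multiset (E × E), MK K f S → MK K f T →
      Multiset.card S ≤ k → Multiset.card T ≤ k → Tj S T →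
      |q (cls S) (cls T) - pr ext g S T| ≤ C := by
    intro k
    obtain ⟨C, hC⟩ := hWD2 (k + g + 2 * g * g)
    refine ⟨C, ?_⟩
    intro S T hS hT k1 k2 h
    have a1 := hSc3 (cls S)
    have a2 := hTc3 (cls S) (cls T)
    exact hC (Sc (cls S)) S (Tc (cls S) (cls T)) T (hSc1 _) hS (hTc1 _ _) hT (by omega) (by omega)
      (by omega) (by omega) (hSc2 _) (hTc2 _ _) (hTc4 _ _).symm h
  obtain ⟨C₀, hC₀⟩ := hN (2 * g + 2 * g * g)
  have hC₀0 : 0 ≤ C₀ := (abs_nonneg _).trans (hC₀ 0 0 MK_zero MK_zero (by simp) (by simp)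
    (fun P hP => absurd hP (Multiset.notMem_zero P)))
  have hq1 : ∀ a b c, |q (a + b) c - q a c - q b c| ≤ 3 * C₀ := by
    intro a b c
    obtain ⟨U, hU, hUc, hUk, hUT⟩ := hrep2 c (Sc a + Sc b) ((hSc1 a).add (hSc1 b)).1
    have ka := hSc3 a
    have kb := hSc3 b
    have hUa : Tj U (Sc a) := fun P hP Q hQ => hUT P hP Q (Multiset.mem_add.2 (Or.inl hQ))
    have hUb : Tj U (Sc b) := fun P hP Q hQ => hUT P hP Q (Multiset.mem_add.2 (Or.inr hQ))
    have e1 := hC₀ (Sc a + Sc b) U ((hSc1 a).add (hSc1 b)) hU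
      (by rw [Multiset.card_add]; omega) (by omega) hUT.symm
    have e2 := hC₀ (Sc a) U (hSc1 a) hU (by omega) (by omega) hUa.symm
    have e3 := hC₀ (Sc b) U (hSc1 b) hU (by omega) (by omega) hUb.symm
    rw [hadd _ _ _ hUa.symm.dj hUb.symm.dj, hc.add _ _ (hSc1 a) (hSc1 b), hSc2, hSc2, hUc] at e1
    rw [hSc2, hUc] at e2 e3
    rw [abs_le] at e1 e2 e3 ⊢
    constructor <;> linarith [e1.1, e1.2, e2.1, e2.2, e3.1, e3.2]
  have hq2 : ∀ a b, |q a b - q b a| ≤ 3 * C₀ := by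
    intro a b
    have e1 := hC₀ (Tc a b) (Sc a) (hTc1 a b) (hSc1 a)
      (by have := hTc3 a b; omega) (by have := hSc3 a; omega) (hTc4 a b)
    rw [hTc2, hSc2, pr_comm] at e1
    rw [abs_sub_comm] at e1
    exact e1.trans (by linarith)
  obtain ⟨B, hB1, hB2, C', hB3⟩ := hQB G q (3 * C₀) hq1 hq2
  refine ⟨B, hc, hB1, hB2, ?_⟩
  have hnear : ∀ k : ℕ, ∃ C : ℝ, ∀ S T : Multiset (E × E), MK K f S → MK K f T →
      Multiset.card S ≤ k → Multiset.card T ≤ k → Tj S T →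
      |B (cls S) (cls T) - pr ext g S T| ≤ C := by
    intro k
    obtain ⟨C, hC⟩ := hN k
    refine ⟨C + C', ?_⟩
    intro S T hS hT k1 k2 h
    have e1 := hC S T hS hT k1 k2 h
    have e2 := hB3 (cls S) (cls T)
    rw [abs_le] at e1 e2 ⊢
    constructor <;> linarith [e1.1, e1.2, e2.1, e2.2]
  intro k
  obtain ⟨C₁, hC₁⟩ := hnear (k + 2 * g * k)
  obtain ⟨C₂, hC₂⟩ := hPR K E g θ f ext hCx (k + 2 * g * k)
  have hC₁0 : 0 ≤ C₁ := (abs_nonneg _).trans (hC₁ 0 0 MK_zero MK_zero (by simp) (by simp)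
    (fun P hP => absurd hP (Multiset.notMem_zero P)))
  refine ⟨C₁ + |C₂|, ?_⟩
  intro S T hS hT k1 k2
  constructor
  · intro h
    exact (hC₁ S T hS hT (by omega) (by omega) h).trans (by linarith [abs_nonneg C₂])
  · intro h
    obtain ⟨U, hU, hP, hUc, hUk, hUT⟩ := hmove S T hS hT.1
    have hUk' : Multiset.card U ≤ 2 * g * k := hUk.trans (Nat.mul_le_mul_left _ k1)
    have e1 := (hC₂ (S + U) T hP hT (by rw [Multiset.card_add]; omega) (by omega)).1
      (h.add_left hUT.dj)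
    rw [hadd _ _ _ h hUT.dj] at e1
    have e2 := hC₁ U T hU hT (by omega) (by omega) hUT
    rw [hUc, neg_left hB1, abs_le] at e2
    linarith [e2.1, e2.2, le_abs_self C₂]

end Pool.Agent.HMW
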