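import Pool.Agent.HMW.Basic

set_option autoImplicit false
set_option linter.unusedSectionVars false

/-!
# Mordell-Weil for hyperelliptic Jacobians: rationality

`K ⊆ E`, `E` an algebraic closure of `K`.  `MK K f S`: the effective divisor `S` on the curve is
stable under `Gal(E/K)`.  `Prin K f S`: `S` is the divisor of a function defined over `K`.
-/

open Polynomial
open scoped Classical

noncomputable section

namespace Pool.Agent.HMW

variable (K : Type) {E : Type} [Field K] [CharZero K] [Field E] [CharZero E] [IsAlgClosed E]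
  [Algebra K E] [Algebra.IsAlgebraic K E] {f : E[X]} {g : ℕ}

/-- the polynomial `p` has coefficients in `K` -/
def KP (p : E[X]) : Prop := ∃ q : K[X], p = q.map (algebraMap K E)

/-- the function `F` is defined over `K` -/
def Kr (F : RR f) : Prop := KP K F.re ∧ KP K F.im

/-- action of the Galois group on points -/
def act {K : Type} [Field K] [Algebra K E] (σ : E ≃ₐ[K] E) (P : E × E) : E × E := (σ P.1, σ P.2)

/-- the effective divisor `S` is rational over `K` -/
def MK (f : E[X]) (S : Multiset (E × E)) : Prop := OnM f S ∧ ∀ σ : E ≃ₐ[K] E, S.map (act σ) = S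

/-- principal effective divisors -/
def Prin (f : E[X]) (S : Multiset (E × E)) : Prop := ∃ F : RR f, Kr K F ∧ IsDiv f F S

variable {K}

theorem mem_range_of_fixed (x : E) (h : ∀ σ : E ≃ₐ[K] E, σ x = x) :
    x ∈ Set.range (algebraMap K E) := by
  have : IsAlgClosure K E := ⟨inferInstance, inferInstance⟩
  have : IsGalois K E := { }
  exact (InfiniteGalois.mem_range_algebraMap_iff_fixed x).2 h

theorem KP_iff (p : E[X]) : KP K p ↔ ∀ σ : E ≃ₐ[K] E, p.map (σ : E →+* E) = p := by
  constructor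
  · rintro ⟨q, rfl⟩ σ
    rw [Polynomial.map_map]
    congr 1
    ext x
    simp
  · intro h
    have h1 : ∀ i, ∃ c : K, algebraMap K E c = p.coeff i := by
      intro i
      apply mem_range_of_fixed
      intro σ
      conv_rhs => rw [← h σ]
      simp
    have h2 : p ∈ Polynomial.lifts (algebraMap K E) := by
      rw [Polynomial.lifts_iff_coeff_lifts]
      exact h1
    obtain ⟨q, hq⟩ := (Polynomial.mem_lifts _).1 h2
    exact ⟨q, hq.symm⟩

theorem KP.add {p q : E[X]} (h : KP K p) (h' : KP K q) : KP K (p + q) := by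
  obtain ⟨a, rfl⟩ := h
  obtain ⟨b, rfl⟩ := h'
  exact ⟨a + b, by simp⟩

theorem KP.sub {p q : E[X]} (h : KP K p) (h' : KP K q) : KP K (p - q) := by
  obtain ⟨a, rfl⟩ := h
  obtain ⟨b, rfl⟩ := h'
  exact ⟨a - b, by simp⟩

theorem KP.neg {p : E[X]} (h : KP K p) : KP K (-p) := by
  obtain ⟨a, rfl⟩ := h
  exact ⟨-a, by simp⟩

theorem KP.mul {p q : E[X]} (h : KP K p) (h' : KP K q) : KP K (p * q) := by
  obtain ⟨a, rfl⟩ := h
  obtain ⟨b, rfl⟩ := h'
  exact ⟨a * b, by simp⟩

theorem KP.pow {p : E[X]} (h : KP K p) (n : ℕ) : KP K (p ^ n) := by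
  obtain ⟨a, rfl⟩ := h
  exact ⟨a ^ n, by simp⟩

theorem KP_zero : KP K (0 : E[X]) := ⟨0, by simp⟩

theorem KP_one : KP K (1 : E[X]) := ⟨1, by simp⟩

/-- exact division by a nonzero polynomial preserves rationality -/
theorem KP_of_mul {p q : E[X]} (hp : KP K p) (hp0 : p ≠ 0) (h : KP K (p * q)) : KP K q := by
  rw [KP_iff] at *
  intro σ
  have h1 := h σ
  rw [Polynomial.map_mul, hp σ] at h1
  exact mul_left_cancel₀ hp0 h1

/-- a monic square root of a rational polynomial is rational -/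
theorem KP_of_sq {p : E[X]} (hp : p.Monic) (h : KP K (p ^ 2)) : KP K p := by
  rw [KP_iff] at *
  intro σ
  have h1 := h σ
  rw [Polynomial.map_pow] at h1
  rcases sq_eq_sq_iff_eq_or_eq_neg.1 h1 with h2 | h2
  · exact h2
  · exfalso
    have h3 : (p.map (σ : E →+* E)).Monic := hp.map _
    rw [h2] at h3
    have h4 := h3.leadingCoeff
    rw [leadingCoeff_neg, hp.leadingCoeff] at h4
    norm_num at h4

theorem Kr.mul (hf : KP K f) {F G : RR f} (h : Kr K F) (h' : Kr K G) : Kr K (F * G) := by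
  refine ⟨?_, ?_⟩
  · rw [re_mul']
    exact (h.1.mul h'.1).add (hf.mul (h.2.mul h'.2))
  · rw [im_mul']
    exact (h.1.mul h'.2).add (h.2.mul h'.1)

theorem Kr.cj {F : RR f} (h : Kr K F) : Kr K (cj F) := ⟨h.1, h.2.neg⟩

/-- the norm of a rational function is rational -/
theorem Kr.nr (hf : KP K f) {F : RR f} (h : Kr K F) : KP K (nr F) :=
  (h.1.pow 2).sub (hf.mul (h.2.pow 2))

theorem eval_KP {p : E[X]} (hp : KP K p) (σ : E ≃ₐ[K] E) (x : E) :
    p.eval (σ x) = σ (p.eval x) := by
  obtain ⟨q, rfl⟩ := hp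
  rw [eval_map_algebraMap, eval_map_algebraMap]
  exact aeval_algHom_apply (σ : E →ₐ[K] E) x q

theorem ev_act {F : RR f} (hF : Kr K F) (σ : E ≃ₐ[K] E) (P : E × E) :
    ev F (act σ P) = σ (ev F P) := by
  simp only [ev, act, map_add, map_mul]
  rw [eval_KP hF.1, eval_KP hF.2]

theorem On.act (hf : KP K f) {P : E × E} (h : On f P) (σ : E ≃ₐ[K] E) : On f (act σ P) := by
  unfold On at *
  change (σ P.2) ^ 2 = f.eval (σ P.1)
  rw [eval_KP hf, ← h, map_pow]

theorem act_io (σ : E ≃ₐ[K] E) (P : E × E) : act σ (io P) = io (act σ P) := by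
  simp [act, io]

theorem act_injective (σ : E ≃ₐ[K] E) : Function.Injective (act σ : E × E → E × E) := by
  intro P Q h
  simp only [act, Prod.mk.injEq, EmbeddingLike.apply_eq_iff_eq] at h
  exact Prod.ext h.1 h.2

theorem OnM.act (hf : KP K f) {S : Multiset (E × E)} (h : OnM f S) (σ : E ≃ₐ[K] E) :
    OnM f (S.map (act σ)) := by
  intro P hP
  obtain ⟨Q, hQ, rfl⟩ := Multiset.mem_map.1 hP
  exact (h Q hQ).act hf σ

/-- Galois conjugation on the coordinate ring -/
def sg (σ : E ≃ₐ[K] E) (F : RR f) : RR f :=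
  ⟨F.re.map (σ : E →+* E), F.im.map (σ : E →+* E)⟩

/-- Galois conjugation as a ring homomorphism -/
def sgH (hf : KP K f) (σ : E ≃ₐ[K] E) : RR f →+* RR f where
  toFun := sg σ
  map_zero' := by ext1 <;> simp [sg]
  map_one' := by ext1 <;> simp [sg, QuadraticAlgebra.re_one, QuadraticAlgebra.im_one]
  map_add' F G := by ext1 <;> simp [sg]
  map_mul' F G := by
    have h := (KP_iff f).1 hf σ
    ext1
    · simp only [sg, re_mul', Polynomial.map_add, Polynomial.map_mul, h]
    · simp only [sg, im_mul', Polynomial.map_add, Polynomial.map_mul]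

@[simp] theorem sgH_apply (hf : KP K f) (σ : E ≃ₐ[K] E) (F : RR f) : sgH hf σ F = sg σ F := rfl

theorem sg_of_Kr {F : RR f} (hF : Kr K F) (σ : E ≃ₐ[K] E) : sg σ F = F := by
  ext1
  · exact (KP_iff _).1 hF.1 σ
  · exact (KP_iff _).1 hF.2 σ

theorem Kr_iff (F : RR f) : Kr K F ↔ ∀ σ : E ≃ₐ[K] E, sg σ F = F := by
  constructor
  · exact fun h σ => sg_of_Kr h σ
  · intro h
    exact ⟨(KP_iff _).2 fun σ => congrArg QuadraticAlgebra.re (h σ),
      (KP_iff _).2 fun σ => congrArg QuadraticAlgebra.im (h σ)⟩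

theorem nr_sg (hf : KP K f) (σ : E ≃ₐ[K] E) (F : RR f) :
    nr (sg σ F) = (nr F).map (σ : E →+* E) := by
  have h := (KP_iff f).1 hf σ
  simp [nr, sg, h]

theorem map_sg_mP (hf : KP K f) (σ : E ≃ₐ[K] E) (P : E × E) :
    (mP f P).map (sgH hf σ) = mP f (act σ P) := by
  unfold mP
  rw [Ideal.map_span]
  congr 1
  rw [Set.image_pair]
  simp [sg, act]

theorem map_sg_IS (hf : KP K f) (σ : E ≃ₐ[K] E) (S : Multiset (E × E)) :
    (IS f S).map (sgH hf σ) = IS f (S.map (act σ)) := by
  induction S using Multiset.induction_on with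
  | empty => simp [Ideal.map_top]
  | cons P S ih => rw [IS_cons, Ideal.map_mul, map_sg_mP, ih, Multiset.map_cons, IS_cons]

theorem sg_mem_IS (hf : KP K f) (σ : E ≃ₐ[K] E) {S : Multiset (E × E)} {F : RR f}
    (hF : F ∈ IS f S) : sg σ F ∈ IS f (S.map (act σ)) := by
  rw [← map_sg_IS hf]
  exact Ideal.mem_map_of_mem (sgH hf σ) hF

theorem sg_ne_zero (σ : E ≃ₐ[K] E) {F : RR f} (hF : F ≠ 0) : sg σ F ≠ 0 := by
  intro h
  apply hF
  have hinj : Function.Injective (σ : E →+* E) := σ.injective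
  ext1
  · have h1 := congrArg QuadraticAlgebra.re h
    exact (Polynomial.map_eq_zero_iff hinj).1 h1
  · have h1 := congrArg QuadraticAlgebra.im h
    exact (Polynomial.map_eq_zero_iff hinj).1 h1

theorem IsDiv.sg (hf : KP K f) (σ : E ≃ₐ[K] E) {F : RR f} {S : Multiset (E × E)}
    (h : IsDiv f F S) : IsDiv f (sg σ F) (S.map (act σ)) := by
  refine ⟨sg_ne_zero σ h.ne, sg_mem_IS hf σ h.mem, ?_, h.on.act hf σ⟩
  rw [nr_sg hf, Polynomial.natDegree_map, h.deg, Multiset.card_map]

/-- the divisor of a rational function is rational -/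
theorem IsDiv.MK (hf : Cv g f) (hK : KP K f) {F : RR f} (hF : Kr K F) {S : Multiset (E × E)}
    (h : IsDiv f F S) : MK K f S := by
  refine ⟨h.on, fun σ => ?_⟩
  have h1 := h.sg hK σ
  rw [sg_of_Kr hF] at h1
  exact h1.unique hf h

theorem NS_map_act (σ : E ≃ₐ[K] E) (S : Multiset (E × E)) :
    NS (S.map (act σ)) = (NS S).map (σ : E →+* E) := by
  induction S using Multiset.induction_on with
  | empty => simp
  | cons P S ih => rw [Multiset.map_cons, NS_cons, NS_cons, ih]; simp [act]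

/-! ### rational divisors -/

theorem MK.NS {S : Multiset (E × E)} (h : MK K f S) : KP K (NS S) := by
  rw [KP_iff]
  intro σ
  rw [← NS_map_act, h.2 σ]

theorem MK_zero : MK K f (0 : Multiset (E × E)) := ⟨by simp [OnM], by simp⟩

theorem MK.add {S T : Multiset (E × E)} (h : MK K f S) (h' : MK K f T) : MK K f (S + T) :=
  ⟨h.1.add h'.1, fun σ => by rw [Multiset.map_add, h.2 σ, h'.2 σ]⟩

theorem MK.io {S : Multiset (E × E)} (h : MK K f S) : MK K f (S.map io) := by
  refine ⟨h.1.io, fun σ => ?_⟩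
  rw [Multiset.map_map]
  conv_rhs => rw [← h.2 σ]
  rw [Multiset.map_map]
  apply Multiset.map_congr rfl
  intro P _
  simp [act_io]

theorem MK.of_add {S T : Multiset (E × E)} (h : MK K f (S + T)) (h' : MK K f T) : MK K f S := by
  refine ⟨h.1.of_le (Multiset.le_add_right S T), fun σ => ?_⟩
  have h1 := h.2 σ
  rw [Multiset.map_add, h'.2 σ] at h1
  exact add_right_cancel h1

theorem MK.count {S : Multiset (E × E)} (h : MK K f S) (σ : E ≃ₐ[K] E) (P : E × E) :
    S.count (act σ P) = S.count P := by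
  conv_lhs => rw [← h.2 σ]
  exact Multiset.count_map_eq_count' _ _ (act_injective σ) P

theorem MK_of_count {S : Multiset (E × E)} (h : OnM f S)
    (hc : ∀ (σ : E ≃ₐ[K] E) (P : E × E), S.count (act σ P) = S.count P) : MK K f S := by
  refine ⟨h, fun σ => ?_⟩
  ext P
  have h1 : act σ (act σ.symm P) = P := by simp [act]
  conv_lhs => rw [← h1]
  rw [Multiset.count_map_eq_count' _ _ (act_injective σ), hc σ.symm]

/-! ### principal divisors -/

theorem Prin.MK (hf : Cv g f) (hK : KP K f) {S : Multiset (E × E)} (h : Prin K f S) :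
    MK K f S := by
  obtain ⟨F, hF, hd⟩ := h
  exact hd.MK hf hK hF

theorem Prin_zero (hf : Cv g f) : Prin K f (0 : Multiset (E × E)) := by
  refine ⟨1, ⟨?_, ?_⟩, ?_⟩
  · rw [QuadraticAlgebra.re_one]; exact KP_one
  · rw [QuadraticAlgebra.im_one]; exact KP_zero
  · have := isDomain hf
    refine ⟨one_ne_zero, by simp, ?_, by simp [OnM]⟩
    simp [nr, QuadraticAlgebra.re_one, QuadraticAlgebra.im_one]

theorem Prin.add (hf : Cv g f) (hK : KP K f) {S T : Multiset (E × E)} (h : Prin K f S)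
    (h' : Prin K f T) : Prin K f (S + T) := by
  obtain ⟨F, hF, hd⟩ := h
  obtain ⟨G, hG, hd'⟩ := h'
  exact ⟨F * G, hF.mul hK hG, hd.mul hf hd'⟩

theorem Prin.io {S : Multiset (E × E)} (h : Prin K f S) : Prin K f (S.map io) := by
  obtain ⟨F, hF, hd⟩ := h
  exact ⟨HMW.cj F, hF.cj, hd.cj⟩

theorem Prin_NS (hf : Cv g f) {S : Multiset (E × E)} (h : MK K f S) :
    Prin K f (S + S.map io) :=
  ⟨⟨NS S, 0⟩, ⟨h.NS, KP_zero⟩, isDiv_NS hf h.1⟩

/-- cancellation of `T + T.map io` -/
theorem Prin.cancel (hf : Cv g f) {S T : Multiset (E × E)}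
    (h : Prin K f (S + (T + T.map HMW.io))) (hT : HMW.MK K f T) : Prin K f S := by
  have := isDomain hf
  obtain ⟨F, hF, hd⟩ := h
  have hm := hd.mem
  have hon : OnM f S := hd.on.of_le (Multiset.le_add_right _ _)
  rw [IS_add, IS_add, IS_mul_IS_io hf hT.1, mul_comm, Ideal.mem_span_singleton_mul] at hm
  obtain ⟨G, hG, rfl⟩ := hm
  have hG0 : G ≠ 0 := by rintro rfl; exact hd.ne (by simp)
  refine ⟨G, ⟨?_, ?_⟩, hG0, hG, ?_, hon⟩
  · have h1 := hF.1
    rw [re_mul'] at h1
    simp only [zero_mul, mul_zero, add_zero] at h1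
    exact KP_of_mul hT.NS (NS_monic T).ne_zero h1
  · have h1 := hF.2
    rw [im_mul'] at h1
    simp only [zero_mul, add_zero] at h1
    exact KP_of_mul hT.NS (NS_monic T).ne_zero h1
  · have h1 := hd.deg
    rw [nr_mul, nr_C, natDegree_mul (pow_ne_zero 2 (NS_monic T).ne_zero) (nr_ne_zero hf hG0),
      natDegree_pow, NS_natDegree] at h1
    simp only [Multiset.card_add, Multiset.card_map] at h1
    omega

end Pool.Agent.HMW
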