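import Pool.Agent.HMW.TargetsG

set_option autoImplicit false

/-!
# INTC: integral `c`
-/

open Polynomial Height
open scoped Classical

noncomputable section

namespace Pool.Agent.HMW

namespace INTC_

theorem pre_fc {d : ℕ} {c x : ℚ} (h : Pre d c x) : Pre d c (fc d c x) := by
  refine Set.Finite.subset h ?_
  rintro _ ⟨k, rfl⟩
  exact ⟨k + 1, Function.iterate_succ_apply _ _ _⟩

theorem pre_iter {d : ℕ} {c x : ℚ} (h : Pre d c x) (k : ℕ) : Pre d c ((fc d c)^[k] x) := by
  induction k with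
  | zero => exact h
  | succ k ih =>
    rw [Function.iterate_succ_apply']
    exact pre_fc ih

theorem arith {d : ℕ} (hd : 4 ≤ d) {a M : ℚ} (ha : 0 ≤ a) (haM : a + 1 ≤ M)
    (h : M ^ d - a ^ d ≤ 2 * M) : M < 2 := by
  by_contra hcon
  push Not at hcon
  obtain ⟨n, rfl⟩ : ∃ n, d = n + 4 := ⟨d - 4, by omega⟩
  have h1 : a ^ 4 ≤ (M - 1) ^ 4 := pow_le_pow_left₀ ha (by linarith) 4
  have h2 : a ^ n ≤ M ^ n := pow_le_pow_left₀ ha (by linarith) n
  have h3 : a ^ (n + 4) ≤ M ^ n * (M - 1) ^ 4 := by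
    rw [pow_add]
    exact mul_le_mul h2 h1 (by positivity) (by positivity)
  have h4 : (1 : ℚ) ≤ M ^ n := one_le_pow₀ (by linarith)
  have h5 : 2 * M < M ^ 4 - (M - 1) ^ 4 := by
    nlinarith [mul_nonneg (sub_nonneg.2 hcon) (sub_nonneg.2 hcon),
      mul_nonneg (mul_nonneg (sub_nonneg.2 hcon) (sub_nonneg.2 hcon)) (sub_nonneg.2 hcon)]
  have h6 : M ^ 4 - (M - 1) ^ 4 ≤ M ^ n * (M ^ 4 - (M - 1) ^ 4) :=
    le_mul_of_one_le_left (by linarith) h4
  have h7 : M ^ (n + 4) = M ^ n * M ^ 4 := pow_add _ _ _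
  rw [h7] at h
  nlinarith

end INTC_

open INTC_ in
theorem p_INTC (hDEN : T_DEN) : T_INTC := by
  intro d c hd hev hc s hs
  have hint : ∀ x, Pre d c x → ∃ n : ℤ, x = n := by
    intro x hx
    obtain ⟨e, he, hce, hden⟩ := hDEN d c x (by omega) hx
    have h1 : e ^ d = 1 := by rw [← hce, hc]
    have h2 : e = 1 := (Nat.pow_eq_one.1 h1).resolve_right (by omega)
    have h3 := hden x hx
    rw [h2] at h3
    exact ⟨x.num, (Rat.coe_int_num_of_den_eq_one h3).symm⟩
  rcases s.eq_empty_or_nonempty with rfl | ⟨x₀, hx₀⟩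
  · simp
  · let U : Set ℚ := ⋃ x ∈ s, Set.range fun k : ℕ => (fc d c)^[k] x
    have hU : U.Finite := Set.Finite.biUnion s.finite_toSet fun x hx => hs x hx
    have hsU : ∀ x ∈ s, x ∈ U := fun x hx => Set.mem_biUnion hx ⟨0, rfl⟩
    have hUf : ∀ x ∈ U, fc d c x ∈ U := by
      intro x hx
      obtain ⟨y, hy, k, rfl⟩ := Set.mem_iUnion₂.1 hx
      exact Set.mem_biUnion hy ⟨k + 1, Function.iterate_succ_apply' _ _ _⟩
    have hUp : ∀ x ∈ U, Pre d c x := by
      intro x hx
      obtain ⟨y, hy, k, rfl⟩ := Set.mem_iUnion₂.1 hx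
      exact pre_iter (hs y hy) k
    obtain ⟨y, hyU, hmax⟩ := Set.exists_max_image U (fun x => |x|) hU ⟨x₀, hsU x₀ hx₀⟩
    by_cases hall : ∀ x ∈ U, |x| = |y|
    · have hsub : s ⊆ {y, -y} := by
        intro x hx
        rw [Finset.mem_insert, Finset.mem_singleton]
        exact abs_eq_abs.1 (hall x (hsU x hx))
      exact (Finset.card_le_card hsub).trans (Finset.card_le_two.trans (by norm_num))
    · push Not at hall
      obtain ⟨x, hxU, hne⟩ := hall
      have hlt : |x| < |y| := lt_of_le_of_ne (hmax x hxU) hne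
      obtain ⟨m, hm⟩ := hint x (hUp x hxU)
      obtain ⟨n, hn⟩ := hint y (hUp y hyU)
      have h1 : |x| + 1 ≤ |y| := by
        rw [hm, hn] at hlt ⊢
        rw [← Int.cast_abs, ← Int.cast_abs] at hlt ⊢
        have : |m| < |n| := by exact_mod_cast hlt
        exact_mod_cast this
      have h2 : |y| ^ d - |x| ^ d = fc d c y - fc d c x := by
        rw [hev.pow_abs, hev.pow_abs]
        unfold fc
        ring
      have h3 : |y| ^ d - |x| ^ d ≤ 2 * |y| := by
        rw [h2]
        have h4 := hmax _ (hUf y hyU)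
        have h5 := hmax _ (hUf x hxU)
        have h6 := le_abs_self (fc d c y)
        have h7 := neg_abs_le (fc d c x)
        linarith
      have h8 := arith hd (abs_nonneg x) h1 h3
      have hsub : s ⊆ (Finset.Icc (-1 : ℤ) 1).image (fun n : ℤ => (n : ℚ)) := by
        intro z hz
        obtain ⟨k, hk⟩ := hint z (hs z hz)
        rw [Finset.mem_image]
        refine ⟨k, ?_, hk.symm⟩
        have h9 : |z| < 2 := lt_of_le_of_lt (hmax z (hsU z hz)) h8
        rw [hk, ← Int.cast_abs] at h9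
        have h10 : |k| < 2 := by exact_mod_cast h9
        rw [Finset.mem_Icc]
        rw [abs_lt] at h10
        omega
      refine (Finset.card_le_card hsub).trans (Finset.card_image_le.trans ?_)
      simp

end Pool.Agent.HMW
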