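import Pool.Agent.HMW.TargetsK

set_option autoImplicit false
set_option linter.unusedVariables false

/-!
# MP_c076ed_nt, part K, KUNI: the theorem over number fields
-/

open Polynomial Height Height.AdmissibleAbsValues NumberField IsDedekindDomain
open scoped Classical WithZero

noncomputable section

namespace Pool.Agent.HMW

namespace KUNI_

/-- a polynomial over `K` whose splitting field contains the `d`-th roots of unity and a
`(d-1)`-th root of `a` -/
def pol {K : Type} [Field K] (d : ℕ) (a : K) : K[X] := (X ^ d - 1) * (X ^ (d - 1) - C a)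

theorem pol_ne {K : Type} [Field K] (d : ℕ) (a : K) (hd : 2 ≤ d) : pol d a ≠ 0 := by
  refine mul_ne_zero ?_ ?_
  · have h := X_pow_sub_C_ne_zero (R := K) (n := d) (by omega) 1
    simpa using h
  · exact X_pow_sub_C_ne_zero (by omega) a

/-- an extension containing the `d`-th roots of unity and a `(d-1)`-th root of `a` -/
theorem exists_ext (K : Type) [Field K] [NumberField K] (d : ℕ) (a : K) (hd : 2 ≤ d) :
    ∃ (L : Type) (_ : Field L) (_ : NumberField L) (_ : Algebra K L) (ζ μ : L),
      IsPrimitiveRoot ζ d ∧ μ ^ (d - 1) = algebraMap K L a := by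
  let L := (pol d a).SplittingField
  have hs : ((pol d a).map (algebraMap K L)).Splits := SplittingField.splits (pol d a)
  have hcz : CharZero L := algebraRat.charZero L
  have hfd : FiniteDimensional K L := inferInstance
  have hnf : NumberField L := NumberField.of_module_finite K L
  have hne : (pol d a).map (algebraMap K L) ≠ 0 :=
    (Polynomial.map_ne_zero_iff (algebraMap K L).injective).2 (pol_ne d a hd)
  have hz : NeZero (d : L) := ⟨by exact_mod_cast (by omega : d ≠ 0)⟩
  have h1 : (cyclotomic d L).Splits := by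
    refine hs.of_dvd hne ?_
    refine dvd_trans (cyclotomic.dvd_X_pow_sub_one d L) ?_
    simp [pol]
  have h2 : (X ^ (d - 1) - C (algebraMap K L a) : L[X]).Splits := by
    refine hs.of_dvd hne ?_
    simp [pol]
  obtain ⟨ζ, hζ⟩ := h1.exists_eval_eq_zero (by
    rw [degree_cyclotomic]
    have := Nat.totient_pos.2 (by omega : 0 < d)
    exact_mod_cast this.ne')
  obtain ⟨μ, hμ⟩ := h2.exists_eval_eq_zero (by
    rw [degree_X_pow_sub_C (by omega)]
    exact_mod_cast (by omega : d - 1 ≠ 0))
  refine ⟨L, inferInstance, hnf, inferInstance, ζ, μ, isRoot_cyclotomic_iff.1 hζ, ?_⟩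
  simpa [sub_eq_zero] using hμ

end KUNI_

open KUNI_ in
/-- KUNI: the theorem over number fields -/
theorem p_KUNI : T_KEV → T_KUNI := by
  intro hKEV K _ _ d a hd ha
  obtain ⟨L, _, _, _, ζ, μ, hζ, hμ⟩ := exists_ext K d a (by omega)
  obtain ⟨B, hB⟩ := hKEV L d ζ hd hζ
  refine ⟨B, fun c s hs => ?_⟩
  have hμ0 : μ ≠ 0 := by
    rintro rfl
    rw [zero_pow (by omega)] at hμ
    exact ha ((map_eq_zero (algebraMap K L)).1 hμ.symm)
  let φ : K → L := fun x => μ * algebraMap K L x
  have hφ : Function.Injective φ := fun x y h =>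
    (algebraMap K L).injective (mul_left_cancel₀ hμ0 h)
  have hsemi : Function.Semiconj φ (fun y : K => a * y ^ d + c)
      (fk d (μ * algebraMap K L c)) := by
    intro y
    obtain ⟨e, rfl⟩ : ∃ e, d = e + 1 := ⟨d - 1, by omega⟩
    simp only [φ, fk, map_add, map_mul, map_pow, Nat.add_sub_cancel] at hμ ⊢
    rw [← hμ]
    ring
  have key : ∀ x ∈ s.image φ, PreK d (μ * algebraMap K L c) x := by
    intro x hx
    obtain ⟨y, hy, rfl⟩ := Finset.mem_image.1 hx
    refine ((hs y hy).image φ).subset ?_
    rintro _ ⟨k, rfl⟩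
    exact ⟨_, ⟨k, rfl⟩, (hsemi.iterate_right k) y⟩
  have := hB (μ * algebraMap K L c) (s.image φ) key
  rwa [Finset.card_image_of_injective s hφ] at this

end Pool.Agent.HMW
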