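import Pool.Agent.HMW.Targets

set_option autoImplicit false

/-!
# L2: product of the distances to `Q` and to its conjugate
-/

open Polynomial

noncomputable section

namespace Pool.Agent.HMW

namespace L2_

variable {E : Type} [Field E] {v : AbsoluteValue E ℝ} {Λ : ℝ}

/-- finite sums for a quasi-ultrametric absolute value -/
theorem vsum (hΛ : 1 ≤ Λ) (hv : ∀ x y, v (x + y) ≤ Λ * max (v x) (v y)) (n : ℕ) (a : ℕ → E)
    (B : ℝ) (hB : 0 ≤ B) (ha : ∀ i, i < n → v (a i) ≤ B) :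
    v (∑ i ∈ Finset.range n, a i) ≤ Λ ^ n * B := by
  induction n with
  | zero => simp [hB]
  | succ n ih =>
    rw [Finset.sum_range_succ]
    refine (hv _ _).trans ?_
    have h1 := ih fun i hi => ha i (by omega)
    have h2 := ha n (by omega)
    have h3 : (1 : ℝ) ≤ Λ ^ n := one_le_pow₀ hΛ
    have h4 : B ≤ Λ ^ n * B := by nlinarith
    have h5 : max (v (∑ i ∈ Finset.range n, a i)) (v (a n)) ≤ Λ ^ n * B :=
      max_le h1 (h2.trans h4)
    calc Λ * max (v (∑ i ∈ Finset.range n, a i)) (v (a n)) ≤ Λ * (Λ ^ n * B) :=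
          mul_le_mul_of_nonneg_left h5 (by linarith)
      _ = Λ ^ (n + 1) * B := by ring

/-- differences of two terms -/
theorem vsub (hv : ∀ x y, v (x + y) ≤ Λ * max (v x) (v y)) (hΛ : 1 ≤ Λ) (x y : E) (B : ℝ)
    (hx : v x ≤ B) (hy : v y ≤ B) : v (x - y) ≤ Λ * B := by
  rw [sub_eq_add_neg]
  refine (hv _ _).trans ?_
  rw [v.map_neg]
  exact mul_le_mul_of_nonneg_left (max_le hx hy) (by linarith)

theorem vadd (hv : ∀ x y, v (x + y) ≤ Λ * max (v x) (v y)) (hΛ : 1 ≤ Λ) (x y : E) (B : ℝ)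
    (hx : v x ≤ B) (hy : v y ≤ B) : v (x + y) ≤ Λ * B :=
  (hv _ _).trans (mul_le_mul_of_nonneg_left (max_le hx hy) (by linarith))

/-- `x ^ n - y ^ n` -/
theorem vpow (hΛ : 1 ≤ Λ) (hv : ∀ x y, v (x + y) ≤ Λ * max (v x) (v y)) (x y : E) (n : ℕ) :
    v (x ^ (n + 1) - y ^ (n + 1)) ≤
      Λ ^ (n + 1) * (v (x - y) * (max 1 (v x) * max 1 (v y)) ^ n) := by
  rw [← (Commute.all x y).geom_sum₂_mul (n + 1), v.map_mul]
  have hp : (1 : ℝ) ≤ max 1 (v x) := le_max_left _ _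
  have hq : (1 : ℝ) ≤ max 1 (v y) := le_max_left _ _
  have h1 : v (∑ i ∈ Finset.range (n + 1), x ^ i * y ^ (n + 1 - 1 - i)) ≤
      Λ ^ (n + 1) * (max 1 (v x) * max 1 (v y)) ^ n := by
    apply vsum hΛ hv _ _ _ (by positivity)
    intro i hi
    rw [v.map_mul, v.map_pow, v.map_pow, mul_pow]
    have e1 : v x ^ i ≤ max 1 (v x) ^ n :=
      (pow_le_pow_left₀ (v.nonneg x) (le_max_right _ _) i).trans
        (pow_le_pow_right₀ hp (by omega))
    have e2 : v y ^ (n + 1 - 1 - i) ≤ max 1 (v y) ^ n :=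
      (pow_le_pow_left₀ (v.nonneg y) (le_max_right _ _) _).trans
        (pow_le_pow_right₀ hq (by omega))
    exact mul_le_mul e1 e2 (pow_nonneg (v.nonneg y) _) (by positivity)
  calc _ ≤ Λ ^ (n + 1) * (max 1 (v x) * max 1 (v y)) ^ n * v (x - y) :=
        mul_le_mul_of_nonneg_right h1 (v.nonneg _)
    _ = _ := by ring

/-- `x ^ k y ^ l - y ^ k x ^ l`, first half -/
theorem vkl' (hΛ : 1 ≤ Λ) (hv : ∀ x y, v (x + y) ≤ Λ * max (v x) (v y)) (x y : E) (M k n : ℕ)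
    (h : k + n ≤ M + 1) :
    v (x ^ k * y ^ (k + n) - y ^ k * x ^ (k + n)) ≤
      Λ ^ (M + 1) * (v (x - y) * (max 1 (v x) * max 1 (v y)) ^ M) := by
  have hp : (1 : ℝ) ≤ max 1 (v x) := le_max_left _ _
  have hq : (1 : ℝ) ≤ max 1 (v y) := le_max_left _ _
  have hN : (1 : ℝ) ≤ max 1 (v x) * max 1 (v y) := by nlinarith
  have h0 : x ^ k * y ^ (k + n) - y ^ k * x ^ (k + n) = (x * y) ^ k * (y ^ n - x ^ n) := by
    rw [mul_pow, pow_add, pow_add]; ring
  rw [h0]
  rcases n with _ | n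
  · simp only [pow_zero, sub_self, mul_zero, map_zero]
    have := v.nonneg (x - y)
    positivity
  · rw [v.map_mul, v.map_pow, v.map_mul]
    have e1 : (v x * v y) ^ k ≤ (max 1 (v x) * max 1 (v y)) ^ k := by
      apply pow_le_pow_left₀ (mul_nonneg (v.nonneg _) (v.nonneg _))
      exact mul_le_mul (le_max_right _ _) (le_max_right _ _) (v.nonneg _) (by positivity)
    have e2 := vpow hΛ hv y x n
    rw [v.map_sub y x, mul_comm (max 1 (v y))] at e2
    have e3 : (0 : ℝ) ≤ v (x - y) := v.nonneg _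
    calc (v x * v y) ^ k * v (y ^ (n + 1) - x ^ (n + 1))
        ≤ (max 1 (v x) * max 1 (v y)) ^ k *
          (Λ ^ (n + 1) * (v (x - y) * (max 1 (v x) * max 1 (v y)) ^ n)) :=
          mul_le_mul e1 e2 (v.nonneg _) (by positivity)
      _ = Λ ^ (n + 1) * (v (x - y) * (max 1 (v x) * max 1 (v y)) ^ (k + n)) := by
          rw [pow_add]; ring
      _ ≤ Λ ^ (M + 1) * (v (x - y) * (max 1 (v x) * max 1 (v y)) ^ M) := by
          apply mul_le_mul (pow_le_pow_right₀ hΛ (by omega)) _ (by positivity) (by positivity)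
          exact mul_le_mul_of_nonneg_left (pow_le_pow_right₀ hN (by omega)) e3

/-- `x ^ k y ^ l - y ^ k x ^ l` -/
theorem vkl (hΛ : 1 ≤ Λ) (hv : ∀ x y, v (x + y) ≤ Λ * max (v x) (v y)) (x y : E) (M k l : ℕ)
    (hk : k ≤ M + 1) (hl : l ≤ M + 1) :
    v (x ^ k * y ^ l - y ^ k * x ^ l) ≤
      Λ ^ (M + 1) * (v (x - y) * (max 1 (v x) * max 1 (v y)) ^ M) := by
  rcases Nat.le_total k l with h | h
  · obtain ⟨n, rfl⟩ := Nat.exists_eq_add_of_le h
    exact vkl' hΛ hv x y M k n hl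
  · obtain ⟨n, rfl⟩ := Nat.exists_eq_add_of_le h
    have e := vkl' hΛ hv x y M l n hk
    rw [← v.map_sub]
    have e0 : y ^ (l + n) * x ^ l - x ^ (l + n) * y ^ l =
        x ^ l * y ^ (l + n) - y ^ l * x ^ (l + n) := by ring
    rw [e0]
    exact e

/-- values of `f` -/
theorem vev (hΛ : 1 ≤ Λ) (hv : ∀ x y, v (x + y) ≤ Λ * max (v x) (v y)) (f : E[X])
    (m : ℕ) (hf : f.natDegree ≤ m) (hc : PB v f Λ) (x : E) :
    v (f.eval x) ≤ Λ ^ (m + 2) * max 1 (v x) ^ m := by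
  have hp : (1 : ℝ) ≤ max 1 (v x) := le_max_left _ _
  rw [eval_eq_sum_range' (Nat.lt_succ_of_le hf) x]
  have := vsum hΛ hv (m + 1) (fun i => f.coeff i * x ^ i) (Λ * max 1 (v x) ^ m)
    (by positivity) (fun i hi => by
      rw [v.map_mul, v.map_pow]
      exact mul_le_mul (hc i) ((pow_le_pow_left₀ (v.nonneg x) (le_max_right _ _) i).trans
        (pow_le_pow_right₀ hp (by omega))) (pow_nonneg (v.nonneg x) _) (by linarith))
  refine this.trans (le_of_eq ?_)
  ring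

/-- `f(x) y ^ l - f(y) x ^ l` -/
theorem vfl (hΛ : 1 ≤ Λ) (hv : ∀ x y, v (x + y) ≤ Λ * max (v x) (v y)) (f : E[X])
    (m : ℕ) (hf : f.natDegree ≤ m) (hc : PB v f Λ) (x y : E) (l : ℕ) (hl : l ≤ m + 1) :
    v (f.eval x * y ^ l - f.eval y * x ^ l) ≤
      Λ ^ (2 * m + 3) * (v (x - y) * (max 1 (v x) * max 1 (v y)) ^ m) := by
  have hp : (1 : ℝ) ≤ max 1 (v x) := le_max_left _ _
  have hq : (1 : ℝ) ≤ max 1 (v y) := le_max_left _ _
  have hs : f.eval x * y ^ l - f.eval y * x ^ l =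
      ∑ i ∈ Finset.range (m + 1), f.coeff i * (x ^ i * y ^ l - y ^ i * x ^ l) := by
    rw [eval_eq_sum_range' (Nat.lt_succ_of_le hf) x, eval_eq_sum_range' (Nat.lt_succ_of_le hf) y,
      Finset.sum_mul, Finset.sum_mul, ← Finset.sum_sub_distrib]
    exact Finset.sum_congr rfl fun i _ => by ring
  rw [hs]
  have h0 : (0 : ℝ) ≤ v (x - y) := v.nonneg _
  have := vsum hΛ hv (m + 1) (fun i => f.coeff i * (x ^ i * y ^ l - y ^ i * x ^ l))
    (Λ * (Λ ^ (m + 1) * (v (x - y) * (max 1 (v x) * max 1 (v y)) ^ m)))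
    (by positivity) (fun i hi => by
      rw [v.map_mul]
      exact mul_le_mul (hc i) (vkl hΛ hv x y m i l (by omega) hl) (v.nonneg _) (by linarith))
  refine this.trans (le_of_eq ?_)
  ring

/-- the second coordinate -/
theorem vy (hΛ : 1 ≤ Λ) (hv : ∀ x y, v (x + y) ≤ Λ * max (v x) (v y)) (f : E[X]) (g : ℕ)
    (hf : f.natDegree ≤ 2 * g + 1) (hc : PB v f Λ) (P : E × E) (hP : On f P) :
    v P.2 ≤ Λ ^ (2 * g + 3) * max 1 (v P.1) ^ (g + 1) := by
  have hp : (1 : ℝ) ≤ max 1 (v P.1) := le_max_left _ _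
  have h1 := vev hΛ hv f (2 * g + 1) hf hc P.1
  have h2 : v P.2 ^ 2 = v (f.eval P.1) := by rw [← v.map_pow, hP]
  have h3 : v P.2 ^ 2 ≤ (Λ ^ (2 * g + 3) * max 1 (v P.1) ^ (g + 1)) ^ 2 := by
    rw [h2]
    refine h1.trans ?_
    rw [mul_pow, ← pow_mul, ← pow_mul]
    exact mul_le_mul (pow_le_pow_right₀ hΛ (by omega)) (pow_le_pow_right₀ hp (by omega))
      (by positivity) (by positivity)
  exact (pow_le_pow_iff_left₀ (v.nonneg _) (by positivity) (by norm_num)).1 h3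

/-- a product of two maxima -/
theorem max3 (a b c b' c' R : ℝ) (h1 : a * a ≤ R) (h2 : a * b' ≤ R) (h3 : a * c' ≤ R)
    (h4 : b * a ≤ R) (h5 : b * b' ≤ R) (h6 : b * c' ≤ R) (h7 : c * a ≤ R) (h8 : c * b' ≤ R)
    (h9 : c * c' ≤ R) : max a (max b c) * max a (max b' c') ≤ R := by
  rcases max_choice a (max b c) with e | e <;> rw [e]
  · rcases max_choice a (max b' c') with e' | e' <;> rw [e']
    · exact h1
    · rcases max_choice b' c' with e'' | e'' <;> rw [e'']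
      · exact h2
      · exact h3
  · rcases max_choice b c with e1 | e1 <;> rw [e1]
    · rcases max_choice a (max b' c') with e' | e' <;> rw [e']
      · exact h4
      · rcases max_choice b' c' with e'' | e'' <;> rw [e'']
        · exact h5
        · exact h6
    · rcases max_choice a (max b' c') with e' | e' <;> rw [e']
      · exact h7
      · rcases max_choice b' c' with e'' | e'' <;> rw [e'']
        · exact h8
        · exact h9

end L2_

open L2_

/-- L2: product of the distances to `Q` and to its conjugate. -/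
theorem p_L2 : T_L2 := by
  intro g
  refine ⟨5 * g + 8, ?_⟩
  intro E _ v f Λ hf hΛ hv hc P Q hP hQ
  obtain ⟨t, y⟩ := P
  obtain ⟨t', y'⟩ := Q
  have hdeg : f.natDegree ≤ 2 * g + 1 := hf.deg.le
  have hy := vy hΛ hv f g hdeg hc _ hP
  have hy' := vy hΛ hv f g hdeg hc _ hQ
  have hP' : y ^ 2 = f.eval t := hP
  have hQ' : y' ^ 2 = f.eval t' := hQ
  simp only at hy hy'
  unfold dd nm io
  simp only
  set p := max 1 (v t) with hpdef
  set q := max 1 (v t') with hqdef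
  have hp : (1 : ℝ) ≤ p := le_max_left _ _
  have hq : (1 : ℝ) ≤ q := le_max_left _ _
  have htp : v t ≤ p := le_max_right _ _
  have htq : v t' ≤ q := le_max_right _ _
  set N := p * q with hN
  have hN1 : (1 : ℝ) ≤ N := by rw [hN]; nlinarith
  have hN0 : 0 < N := by linarith
  have hΛ0 : 0 < Λ := by linarith
  have hpN : p ≤ N := by rw [hN]; nlinarith
  have hqN : q ≤ N := by rw [hN]; nlinarith
  set α := v (t - t') / N with hα
  have hα0 : 0 ≤ α := div_nonneg (v.nonneg _) hN0.le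
  set W := Λ ^ (2 * g + 3) with hW
  have hW1 : 1 ≤ W := one_le_pow₀ hΛ
  -- bounds of the single entries
  have hyN : v y ≤ W * N ^ (g + 1) :=
    hy.trans (mul_le_mul_of_nonneg_left (pow_le_pow_left₀ (by linarith) hpN _) (by linarith))
  have hyN' : v y' ≤ W * N ^ (g + 1) :=
    hy'.trans (mul_le_mul_of_nonneg_left (pow_le_pow_left₀ (by linarith) hqN _) (by linarith))
  have hcr : v (y * t' ^ (g + 1)) ≤ W * N ^ (g + 1) := by
    rw [v.map_mul, v.map_pow, hN, mul_pow]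
    calc v y * v t' ^ (g + 1) ≤ W * p ^ (g + 1) * q ^ (g + 1) :=
          mul_le_mul hy (pow_le_pow_left₀ (v.nonneg _) htq _) (by have := v.nonneg t'; positivity)
            (by positivity)
      _ = W * (p ^ (g + 1) * q ^ (g + 1)) := by ring
  have hcr' : v (y' * t ^ (g + 1)) ≤ W * N ^ (g + 1) := by
    rw [v.map_mul, v.map_pow, hN, mul_pow]
    calc v y' * v t ^ (g + 1) ≤ W * q ^ (g + 1) * p ^ (g + 1) :=
          mul_le_mul hy' (pow_le_pow_left₀ (v.nonneg _) htp _) (by have := v.nonneg t; positivity)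
            (by positivity)
      _ = W * (p ^ (g + 1) * q ^ (g + 1)) := by ring
  have hNp : 0 < N ^ (g + 1) := by positivity
  have key : ∀ z : E, v z ≤ Λ * (W * N ^ (g + 1)) → v z / N ^ (g + 1) ≤ Λ * W := by
    intro z hz
    rw [div_le_iff₀ hNp]
    linarith
  have hb1 : v (y - y') / N ^ (g + 1) ≤ Λ * W := key _ (vsub hv hΛ _ _ _ hyN hyN')
  have hb2 : v (y - -y') / N ^ (g + 1) ≤ Λ * W := by
    rw [sub_neg_eq_add]; exact key _ (vadd hv hΛ _ _ _ hyN hyN')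
  have hc1 : v (y * t' ^ (g + 1) - y' * t ^ (g + 1)) / N ^ (g + 1) ≤ Λ * W :=
    key _ (vsub hv hΛ _ _ _ hcr hcr')
  have hc2 : v (y * t' ^ (g + 1) - -y' * t ^ (g + 1)) / N ^ (g + 1) ≤ Λ * W := by
    rw [neg_mul, sub_neg_eq_add]; exact key _ (vadd hv hΛ _ _ _ hcr hcr')
  have ha1 : α ≤ Λ * W := by
    rw [hα, div_le_iff₀ hN0]
    have := vsub hv hΛ t t' N (htp.trans hpN) (htq.trans hqN)
    have h2 : Λ * N ≤ Λ * W * N := by
      have : Λ * 1 ≤ Λ * W := mul_le_mul_of_nonneg_left hW1 hΛ0.le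
      nlinarith
    linarith
  have hLe : Λ * W ≤ Λ ^ (5 * g + 8) := by
    rw [hW, ← pow_succ']
    exact pow_le_pow_right₀ hΛ (by omega)
  refine ⟨max_le (ha1.trans hLe) (max_le (hb1.trans hLe) (hc1.trans hLe)), ?_⟩
  have hαL : ∀ z : ℝ, z ≤ Λ * W → α * z ≤ Λ ^ (5 * g + 8) * α := by
    intro z hz
    rw [mul_comm α z]
    exact mul_le_mul_of_nonneg_right (hz.trans hLe) hα0
  have hαR : ∀ z : ℝ, z ≤ Λ * W → z * α ≤ Λ ^ (5 * g + 8) * α := by
    intro z hz
    exact mul_le_mul_of_nonneg_right (hz.trans hLe) hα0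
  -- products of two entries
  have hprod : ∀ z w : E, v (z * w) ≤ Λ ^ (5 * g + 8) * (v (t - t') * N ^ (2 * g + 1)) →
      v z / N ^ (g + 1) * (v w / N ^ (g + 1)) ≤ Λ ^ (5 * g + 8) * α := by
    intro z w h
    rw [div_mul_div_comm, ← v.map_mul, div_le_iff₀ (by positivity), hα]
    refine h.trans (le_of_eq ?_)
    have : N ^ (g + 1) * N ^ (g + 1) = N * N ^ (2 * g + 1) := by
      rw [← pow_add, ← pow_succ']; congr 1; ring
    rw [this]
    field_simp
  have hD : 0 ≤ v (t - t') * N ^ (2 * g + 1) := mul_nonneg (v.nonneg _) (by positivity)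
  have hup : ∀ (k : ℕ), k ≤ 5 * g + 8 → Λ ^ k * (v (t - t') * N ^ (2 * g + 1)) ≤
      Λ ^ (5 * g + 8) * (v (t - t') * N ^ (2 * g + 1)) := fun k hk =>
    mul_le_mul_of_nonneg_right (pow_le_pow_right₀ hΛ hk) hD
  have f0 := vfl hΛ hv f (2 * g + 1) hdeg hc t t' 0 (by omega)
  have f1 := vfl hΛ hv f (2 * g + 1) hdeg hc t t' (g + 1) (by omega)
  have f2 := vfl hΛ hv f (2 * g + 1) hdeg hc t t' (2 * g + 2) (by omega)
  rw [← hpdef, ← hqdef, ← hN] at f0 f1 f2
  have g1 : v (y * y' * (t ^ (g + 1) - t' ^ (g + 1))) ≤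
      Λ ^ (5 * g + 7) * (v (t - t') * N ^ (2 * g + 1)) := by
    have e1 := vpow hΛ hv t t' g
    rw [← hpdef, ← hqdef, ← hN] at e1
    have e2 : v (y * y') ≤ W * W * N ^ (g + 1) := by
      rw [v.map_mul]
      calc v y * v y' ≤ W * p ^ (g + 1) * (W * q ^ (g + 1)) :=
            mul_le_mul hy hy' (v.nonneg _) (by positivity)
        _ = W * W * N ^ (g + 1) := by rw [hN, mul_pow]; ring
    rw [v.map_mul]
    calc v (y * y') * v (t ^ (g + 1) - t' ^ (g + 1))
        ≤ W * W * N ^ (g + 1) * (Λ ^ (g + 1) * (v (t - t') * N ^ g)) :=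
          mul_le_mul e2 e1 (v.nonneg _) (by positivity)
      _ = Λ ^ (5 * g + 7) * (v (t - t') * N ^ (2 * g + 1)) := by
          rw [hW]; ring
  have g2 : v (f.eval t * t' ^ (g + 1) - f.eval t' * t ^ (g + 1)) ≤
      Λ ^ (5 * g + 7) * (v (t - t') * N ^ (2 * g + 1)) :=
    f1.trans (mul_le_mul_of_nonneg_right (pow_le_pow_right₀ hΛ (by omega)) hD)
  have q1 : v (y - y') / N ^ (g + 1) * (v (y - -y') / N ^ (g + 1)) ≤ Λ ^ (5 * g + 8) * α := by
    apply hprod
    have e : (y - y') * (y - -y') = f.eval t * t' ^ 0 - f.eval t' * t ^ 0 := by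
      rw [← hP', ← hQ']; ring
    rw [e]
    exact f0.trans (hup _ (by omega))
  have q2 : v (y - y') / N ^ (g + 1) * (v (y * t' ^ (g + 1) - -y' * t ^ (g + 1)) / N ^ (g + 1)) ≤
      Λ ^ (5 * g + 8) * α := by
    apply hprod
    have e : (y - y') * (y * t' ^ (g + 1) - -y' * t ^ (g + 1)) =
        (f.eval t * t' ^ (g + 1) - f.eval t' * t ^ (g + 1)) +
          y * y' * (t ^ (g + 1) - t' ^ (g + 1)) := by
      rw [← hP', ← hQ']; ring
    rw [e]
    refine (vadd hv hΛ _ _ _ g2 g1).trans (le_of_eq ?_)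
    ring
  have q3 : v (y * t' ^ (g + 1) - y' * t ^ (g + 1)) / N ^ (g + 1) * (v (y - -y') / N ^ (g + 1)) ≤
      Λ ^ (5 * g + 8) * α := by
    apply hprod
    have e : (y * t' ^ (g + 1) - y' * t ^ (g + 1)) * (y - -y') =
        (f.eval t * t' ^ (g + 1) - f.eval t' * t ^ (g + 1)) -
          y * y' * (t ^ (g + 1) - t' ^ (g + 1)) := by
      rw [← hP', ← hQ']; ring
    rw [e]
    refine (vsub hv hΛ _ _ _ g2 g1).trans (le_of_eq ?_)
    ring
  have q4 : v (y * t' ^ (g + 1) - y' * t ^ (g + 1)) / N ^ (g + 1) *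
      (v (y * t' ^ (g + 1) - -y' * t ^ (g + 1)) / N ^ (g + 1)) ≤ Λ ^ (5 * g + 8) * α := by
    apply hprod
    have e : (y * t' ^ (g + 1) - y' * t ^ (g + 1)) * (y * t' ^ (g + 1) - -y' * t ^ (g + 1)) =
        f.eval t * t' ^ (2 * g + 2) - f.eval t' * t ^ (2 * g + 2) := by
      rw [← hP', ← hQ']; ring
    rw [e]
    exact f2.trans (hup _ (by omega))
  exact max3 _ _ _ _ _ _ (hαL _ ha1) (hαL _ hb2) (hαL _ hc2) (hαR _ hb1) q1 q2 (hαR _ hc1) q3 q4

end Pool.Agent.HMW
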