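import Pool.Agent.HMW.Targets

set_option autoImplicit false

/-!
# Adding one point to a divisor is one linear condition
-/

open Polynomial

noncomputable section

namespace Pool.Agent.HMW

/-- PHI -/
theorem p_PHI : T_PHI := by
  intro E _ _ g f hf S P hS hP
  have hdom := isDomain hf
  have hmax := mP_isMaximal (f := f) hP
  -- `m_P I(S) ≠ I(S)`
  have hne : mP f P * IS f S ≠ IS f S := by
    intro h
    apply hmax.ne_top
    apply IS_cancel hf hS
    rw [h, Ideal.top_mul]
  have hle : mP f P * IS f S ≤ IS f S := Ideal.mul_le_right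
  obtain ⟨G₀, hG₀, hG₀'⟩ : ∃ G₀ ∈ IS f S, G₀ ∉ mP f P * IS f S := by
    by_contra hcon
    push Not at hcon
    exact hne (le_antisymm hle hcon)
  obtain ⟨J, hJ⟩ := IS_dvd hf hS (Ideal.span {G₀}) ((Ideal.span_singleton_le_iff_mem _).2 hG₀)
  have hJP : ¬ J ≤ mP f P := by
    intro h
    apply hG₀'
    have h1 : Ideal.span {G₀} ≤ mP f P * IS f S := by
      rw [hJ]
      exact Ideal.mul_mono_left h
    exact h1 (Ideal.mem_span_singleton_self _)
  have htop : J ⊔ mP f P = ⊤ := by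
    have h1 : mP f P < J ⊔ mP f P := by
      refine lt_of_le_of_ne le_sup_right ?_
      intro h
      apply hJP
      rw [h]
      exact le_sup_left
    exact hmax.1.2 _ h1
  have hsum : IS f S = Ideal.span {G₀} ⊔ mP f P * IS f S := by
    calc IS f S = (J ⊔ mP f P) * IS f S := by rw [htop, Ideal.top_mul]
      _ = _ := by rw [Ideal.sup_mul, ← hJ]
  -- the linear form
  obtain ⟨φ, hφ0, hφ⟩ := Submodule.exists_le_ker_of_notMem
    (p := (mP f P * IS f S).restrictScalars E) (v := G₀) hG₀'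
  refine ⟨φ, ?_⟩
  intro G hG hφG
  rw [IS_cons]
  have hG' := hG
  rw [hsum, Submodule.mem_sup] at hG'
  obtain ⟨y, hy, z, hz, rfl⟩ := hG'
  obtain ⟨A, rfl⟩ := Ideal.mem_span_singleton'.1 hy
  have hsm : ∀ c : E, c • G₀ = (⟨C c, 0⟩ : RR f) * G₀ := by
    intro c
    ext1
    · rw [re_mul']
      simp [smul_eq_C_mul]
    · rw [im_mul']
      simp [smul_eq_C_mul]
  have hA : A - ⟨C (ev A P), 0⟩ ∈ mP f P := by
    rw [mem_mP_iff hP]
    simp [ev]
  have h1 : A * G₀ - ev A P • G₀ ∈ mP f P * IS f S := by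
    rw [hsm, ← sub_mul]
    exact Ideal.mul_mem_mul hA hG₀
  have h2 : A * G₀ + z - ev A P • G₀ ∈ mP f P * IS f S := by
    have h3 : A * G₀ + z - ev A P • G₀ = (A * G₀ - ev A P • G₀) + z := by ring
    rw [h3]
    exact Ideal.add_mem _ h1 hz
  have h4 : φ (A * G₀ + z - ev A P • G₀) = 0 := hφ h2
  rw [map_sub, hφG, map_smul, zero_sub, neg_eq_zero, smul_eq_mul, mul_eq_zero] at h4
  rcases h4 with h5 | h5
  · rw [h5, zero_smul, sub_zero] at h2
    exact h2
  · exact absurd h5 hφ0

end Pool.Agent.HMW
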