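import Pool.Agent.HMW.Gal

set_option autoImplicit false
set_option linter.unusedSectionVars false

/-!
# Mordell-Weil for hyperelliptic Jacobians: places, global pairing, height

For every place `v` of `K` we fix an extension `ext v` to `E` (an algebraic closure of `K`).
-/

open Polynomial Height Height.AdmissibleAbsValues
open scoped Classical

noncomputable section

namespace Pool.Agent.HMW

variable (K : Type) [Field K] [AdmissibleAbsValues K]

/-- sum over all places -/
def Vs (φ : AbsoluteValue K ℝ → ℝ) : ℝ :=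
  ((archAbsVal (K := K)).map φ).sum + ∑ᶠ v : nonarchAbsVal (K := K), φ v

/-- `v` is a place of `K` -/
def Pl (v : AbsoluteValue K ℝ) : Prop := v ∈ archAbsVal (K := K) ∨ v ∈ nonarchAbsVal (K := K)

/-- finite support on the nonarchimedean places -/
def FS (φ : AbsoluteValue K ℝ → ℝ) : Prop :=
  (Function.support fun v : nonarchAbsVal (K := K) => φ v).Finite

/-- a choice of extensions of all places to `E` -/
structure Ext {E : Type} [Field E] [Algebra K E]
    (ext : AbsoluteValue K ℝ → AbsoluteValue E ℝ) : Prop where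
  ex : ∀ v, Pl K v → ∀ x : K, ext v (algebraMap K E x) = v x
  na : ∀ v ∈ nonarchAbsVal (K := K), ∀ x y, ext v (x + y) ≤ max (ext v x) (ext v y)
  ar : ∀ v ∈ archAbsVal (K := K), ∃ φ : E →+* ℂ, ∀ x, ext v x = ‖φ x‖

variable {K} {E : Type} [Field E]

/-- global pairing of two effective divisors -/
def pr (ext : AbsoluteValue K ℝ → AbsoluteValue E ℝ) (g : ℕ) (S T : Multiset (E × E)) : ℝ :=
  Vs K fun v => lsum (ext v) g S T

/-- height of an effective divisor -/
def HH (ext : AbsoluteValue K ℝ → AbsoluteValue E ℝ) (S : Multiset (E × E)) : ℝ :=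
  Vs K fun v => (S.map fun P => Real.log (nm (ext v) P)).sum

/-- disjoint divisors -/
def Dj (S T : Multiset (E × E)) : Prop := ∀ P ∈ S, P ∉ T

/-- divisors with disjoint `t`-coordinates -/
def Tj (S T : Multiset (E × E)) : Prop := ∀ P ∈ S, ∀ Q ∈ T, P.1 ≠ Q.1

theorem Tj.dj {S T : Multiset (E × E)} (h : Tj S T) : Dj S T := fun P hP hT => h P hP P hT rfl

theorem Tj.symm {S T : Multiset (E × E)} (h : Tj S T) : Tj T S :=
  fun P hP Q hQ => (h Q hQ P hP).symm

theorem Dj.symm {S T : Multiset (E × E)} (h : Dj S T) : Dj T S :=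
  fun P hP hS => h P hS hP

theorem Tj.add_left {S S' T : Multiset (E × E)} (h : Tj S T) (h' : Tj S' T) : Tj (S + S') T := by
  intro P hP
  rcases Multiset.mem_add.1 hP with h1 | h1
  · exact h P h1
  · exact h' P h1

theorem Dj.add_left {S S' T : Multiset (E × E)} (h : Dj S T) (h' : Dj S' T) : Dj (S + S') T := by
  intro P hP
  rcases Multiset.mem_add.1 hP with h1 | h1
  · exact h P h1
  · exact h' P h1

/-! ### sums over places -/

theorem FS.add {φ ψ : AbsoluteValue K ℝ → ℝ} (h : FS K φ) (h' : FS K ψ) :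
    FS K (fun v => φ v + ψ v) := by
  apply (h.union h').subset
  intro v hv
  by_contra hcon
  simp only [Set.mem_union, Function.mem_support, not_or, not_not] at hcon
  apply hv
  simp [hcon.1, hcon.2]

theorem FS.neg {φ : AbsoluteValue K ℝ → ℝ} (h : FS K φ) : FS K (fun v => -φ v) := by
  apply h.subset
  intro v hv
  simpa using hv

theorem FS.const_mul {φ : AbsoluteValue K ℝ → ℝ} (c : ℝ) (h : FS K φ) :
    FS K (fun v => c * φ v) := by
  apply h.subset
  intro v hv
  simp only [Function.mem_support, ne_eq, mul_eq_zero, not_or] at hv ⊢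
  exact hv.2

theorem FS.sub {φ ψ : AbsoluteValue K ℝ → ℝ} (h : FS K φ) (h' : FS K ψ) :
    FS K (fun v => φ v - ψ v) := by
  simpa [sub_eq_add_neg] using h.add h'.neg

theorem FS_zero : FS K (fun _ => (0 : ℝ)) := by
  unfold FS
  simp

theorem Vs_zero : Vs K (fun _ => (0 : ℝ)) = 0 := by
  simp [Vs]

theorem Vs_add {φ ψ : AbsoluteValue K ℝ → ℝ} (h : FS K φ) (h' : FS K ψ) :
    Vs K (fun v => φ v + ψ v) = Vs K φ + Vs K ψ := by
  unfold Vs
  rw [Multiset.sum_map_add, finsum_add_distrib h h']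
  ring

theorem Vs_const_mul {φ : AbsoluteValue K ℝ → ℝ} (c : ℝ) (h : FS K φ) :
    Vs K (fun v => c * φ v) = c * Vs K φ := by
  unfold Vs
  rw [Multiset.sum_map_mul_left, mul_add]
  congr 1
  exact (mul_finsum' (fun v : nonarchAbsVal (K := K) => φ v) c h).symm

theorem Vs_neg {φ : AbsoluteValue K ℝ → ℝ} (h : FS K φ) : Vs K (fun v => -φ v) = -Vs K φ := by
  have := Vs_const_mul (-1) h
  simpa using this

theorem Vs_sub {φ ψ : AbsoluteValue K ℝ → ℝ} (h : FS K φ) (h' : FS K ψ) :
    Vs K (fun v => φ v - ψ v) = Vs K φ - Vs K ψ := by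
  have := Vs_add h h'.neg
  rw [Vs_neg h'] at this
  simpa [sub_eq_add_neg] using this

theorem Vs_mono {φ ψ : AbsoluteValue K ℝ → ℝ} (h : FS K φ) (h' : FS K ψ)
    (hle : ∀ v, Pl K v → φ v ≤ ψ v) : Vs K φ ≤ Vs K ψ := by
  unfold Vs
  apply add_le_add
  · exact Multiset.sum_map_le_sum_map _ _ (fun v hv => hle v (Or.inl hv))
  · exact finsum_le_finsum' h h' (fun v => hle v (Or.inr v.2))

theorem Vs_congr {φ ψ : AbsoluteValue K ℝ → ℝ} (h : ∀ v, Pl K v → φ v = ψ v) :
    Vs K φ = Vs K ψ := by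
  unfold Vs
  congr 1
  · exact congrArg Multiset.sum (Multiset.map_congr rfl (fun v hv => h v (Or.inl hv)))
  · exact finsum_congr (fun v => h v (Or.inr v.2))

theorem FS_congr {φ ψ : AbsoluteValue K ℝ → ℝ} (h : ∀ v, Pl K v → φ v = ψ v) (h' : FS K φ) :
    FS K ψ := by
  apply h'.subset
  intro v hv
  rw [Function.mem_support] at hv ⊢
  rwa [h v (Or.inr v.2)]

theorem Vs_nonneg {φ : AbsoluteValue K ℝ → ℝ} (h : FS K φ) (h0 : ∀ v, Pl K v → 0 ≤ φ v) :
    0 ≤ Vs K φ := by
  have := Vs_mono FS_zero h h0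
  rwa [Vs_zero] at this

theorem FS_multiset_sum {ι : Type} (s : Multiset ι) (φ : ι → AbsoluteValue K ℝ → ℝ)
    (h : ∀ i ∈ s, FS K (φ i)) : FS K (fun v => (s.map fun i => φ i v).sum) := by
  induction s using Multiset.induction_on with
  | empty => simpa using FS_zero
  | cons i s ih =>
    simp only [Multiset.map_cons, Multiset.sum_cons]
    exact (h i (Multiset.mem_cons_self i s)).add
      (ih fun j hj => h j (Multiset.mem_cons_of_mem hj))

theorem Vs_multiset_sum {ι : Type} (s : Multiset ι) (φ : ι → AbsoluteValue K ℝ → ℝ)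
    (h : ∀ i ∈ s, FS K (φ i)) :
    Vs K (fun v => (s.map fun i => φ i v).sum) = (s.map fun i => Vs K (φ i)).sum := by
  induction s using Multiset.induction_on with
  | empty => simpa using Vs_zero
  | cons i s ih =>
    simp only [Multiset.map_cons, Multiset.sum_cons]
    have h1 : ∀ j ∈ s, FS K (φ j) := fun j hj => h j (Multiset.mem_cons_of_mem hj)
    rw [Vs_add (h i (Multiset.mem_cons_self i s)) (FS_multiset_sum s φ h1), ih h1]

/-- the product formula -/
theorem Vs_log {x : K} (hx : x ≠ 0) :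
    FS K (fun v => Real.log (v x)) ∧ Vs K (fun v => Real.log (v x)) = 0 := by
  have hfin : (Function.mulSupport fun v : nonarchAbsVal (K := K) => v.val x).Finite :=
    hasFiniteMulSupport hx
  have hfs : FS K (fun v => Real.log (v x)) := by
    apply hfin.subset
    intro v hv
    rw [Function.mem_support] at hv
    rw [Function.mem_mulSupport]
    intro h
    apply hv
    change Real.log (v.val x) = 0
    rw [h, Real.log_one]
  refine ⟨hfs, ?_⟩
  have h1 := product_formula (K := K) hx
  have h2 : ∀ a ∈ (archAbsVal (K := K)).map (fun v => v x), a ≠ 0 := by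
    intro a ha
    obtain ⟨v, _, rfl⟩ := Multiset.mem_map.1 ha
    exact v.ne_zero hx
  have h3 : ∀ v : nonarchAbsVal (K := K), 0 < v.val x := fun v => v.val.pos hx
  unfold Vs
  have h4 : ((archAbsVal (K := K)).map fun v => Real.log (v x)).sum =
      Real.log ((archAbsVal (K := K)).map fun v => v x).prod := by
    rw [Real.log_multiset_prod h2, Multiset.map_map]
    rfl
  have h5 : (∑ᶠ v : nonarchAbsVal (K := K), Real.log (v.val x)) =
      Real.log (∏ᶠ v : nonarchAbsVal (K := K), v.val x) := (Real.log_finprod h3).symm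
  rw [h4, h5, ← Real.log_mul]
  · rw [h1, Real.log_one]
  · exact Multiset.prod_ne_zero (fun h0 => h2 0 h0 rfl)
  · exact (finprod_induction (fun y : ℝ => 0 < y) one_pos (fun _ _ => mul_pos) h3).ne'

theorem lsum_add_left (v : AbsoluteValue E ℝ) (g : ℕ) (S S' T : Multiset (E × E)) :
    lsum v g (S + S') T = lsum v g S T + lsum v g S' T := by
  simp [lsum]

theorem lsum_add_right (v : AbsoluteValue E ℝ) (g : ℕ) (S T T' : Multiset (E × E)) :
    lsum v g S (T + T') = lsum v g S T + lsum v g S T' := by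
  simp [lsum]

theorem dd_comm (v : AbsoluteValue E ℝ) (g : ℕ) (P Q : E × E) : dd v g P Q = dd v g Q P := by
  unfold dd
  rw [mul_comm (nm v P) (nm v Q), v.map_sub P.1 Q.1, v.map_sub P.2 Q.2,
    v.map_sub (P.2 * Q.1 ^ (g + 1)) (Q.2 * P.1 ^ (g + 1))]

theorem le_comm (v : AbsoluteValue E ℝ) (g : ℕ) (P Q : E × E) : le v g P Q = le v g Q P := by
  unfold le
  rw [dd_comm, add_comm (Real.log (nm v P))]

theorem lsum_comm (v : AbsoluteValue E ℝ) (g : ℕ) (S T : Multiset (E × E)) :
    lsum v g S T = lsum v g T S := by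
  unfold lsum
  rw [Multiset.sum_map_sum_map]
  simp only [le_comm v g]

theorem pr_comm (ext : AbsoluteValue K ℝ → AbsoluteValue E ℝ) (g : ℕ) (S T : Multiset (E × E)) :
    pr ext g S T = pr ext g T S := by
  unfold pr
  simp only [lsum_comm _ g S T]

theorem one_le_nm (v : AbsoluteValue E ℝ) (P : E × E) : 1 ≤ nm v P := le_max_left _ _

theorem nm_pos (v : AbsoluteValue E ℝ) (P : E × E) : 0 < nm v P :=
  lt_of_lt_of_le one_pos (one_le_nm v P)

theorem dd_nonneg (v : AbsoluteValue E ℝ) (g : ℕ) (P Q : E × E) : 0 ≤ dd v g P Q := by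
  unfold dd
  apply le_max_of_le_left
  have := nm_pos v P
  have := nm_pos v Q
  have := v.nonneg (P.1 - Q.1)
  positivity

theorem dd_pos (v : AbsoluteValue E ℝ) (g : ℕ) {P Q : E × E} (h : P ≠ Q) : 0 < dd v g P Q := by
  have h1 := nm_pos v P
  have h2 := nm_pos v Q
  unfold dd
  by_cases h0 : P.1 = Q.1
  · have h3 : P.2 ≠ Q.2 := fun h4 => h (Prod.ext h0 h4)
    have h4 : 0 < v (P.2 - Q.2) := v.pos (sub_ne_zero.2 h3)
    apply lt_max_of_lt_right
    apply lt_max_of_lt_left
    positivity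
  · have h4 : 0 < v (P.1 - Q.1) := v.pos (sub_ne_zero.2 h0)
    apply lt_max_of_lt_left
    positivity

end Pool.Agent.HMW
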