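import Pool.Agent.HMW.Cl

set_option autoImplicit false
set_option linter.unusedVariables false

/-!
# MP_c076ed_nt: uniform boundedness for `x^d + c`: targets (exact statements)

Part A-F: height pairing, Mordell-Weil theorem and Mumford gap principle for the Jacobian of
`y^2 = ∏ (t - θ_i)` (odd degree `2 g + 1`) over a number field.  Part G: dynamics of `x^d + c`.
-/

open Polynomial Height Height.AdmissibleAbsValues NumberField IsDedekindDomain
open scoped Classical WithZero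

noncomputable section

namespace Pool.Agent.HMW

/-! ## A. Divisors -/

/-- PHI: adding one point to a divisor is one linear condition. -/
def T_PHI : Prop := ∀ (E : Type) [Field E] [CharZero E] (g : ℕ) (f : E[X]), Cv g f →
  ∀ (S : Multiset (E × E)) (P : E × E), OnM f S → On f P →
  ∃ φ : RR f →ₗ[E] E, ∀ G ∈ IS f S, φ G = 0 → G ∈ IS f (P ::ₘ S)

/-- PSI: vanishing on a divisor of degree `m` is `m` linear conditions. -/
def T_PSI : Prop := ∀ (E : Type) [Field E] [CharZero E] (g : ℕ) (f : E[X]), Cv g f →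
  ∀ S : Multiset (E × E), OnM f S →
  ∃ Ψ : RR f →ₗ[E] (Fin (Multiset.card S) → E), ∀ G, Ψ G = 0 → G ∈ IS f S

/-- GD: Galois descent for subspaces of `E^ι`. -/
def T_GD : Prop := ∀ (K E : Type) [Field K] [CharZero K] [Field E] [CharZero E] [IsAlgClosed E]
  [Algebra K E] [Algebra.IsAlgebraic K E] (ι : Type) [Fintype ι] (V : Submodule E (ι → E)),
  (∀ (σ : E ≃ₐ[K] E), ∀ x ∈ V, (fun i => σ (x i)) ∈ V) →
  ∀ x ∈ V, x ∈ Submodule.span E {y | y ∈ V ∧ ∀ i, y i ∈ Set.range (algebraMap K E)}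

/-- KR1: a rational function of small pole order vanishing on a rational divisor. -/
def T_KR1 : Prop := ∀ (K E : Type) [Field K] [CharZero K] [Field E] [CharZero E]
  [IsAlgClosed E] [Algebra K E] [Algebra.IsAlgebraic K E] (g : ℕ) (f : E[X]), Cv g f → KP K f →
  ∀ (S : Multiset (E × E)) (D : ℕ), MK K f S → Multiset.card S + g ≤ D → 2 * g ≤ D →
  ∃ F : RR f, F ≠ 0 ∧ Kr K F ∧ F ∈ IS f S ∧ WD g F D

/-- GEN: a function vanishing exactly to the prescribed order at one more point. -/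
def T_GEN : Prop := ∀ (E : Type) [Field E] [CharZero E] (g : ℕ) (f : E[X]), Cv g f →
  ∀ (S : Multiset (E × E)) (Q : E × E), OnM f S → On f Q →
  ∃ F ∈ IS f S, F ∉ IS f (Q ::ₘ S) ∧ WD g F ((2 * g + 1) * Multiset.card S)

/-- KR2: the same over `K` and for finitely many points. -/
def T_KR2 : Prop := ∀ (K E : Type) [Field K] [CharZero K] [Field E] [CharZero E]
  [IsAlgClosed E] [Algebra K E] [Algebra.IsAlgebraic K E] (g : ℕ) (f : E[X]), Cv g f → KP K f →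
  ∀ (S : Multiset (E × E)) (T : Finset (E × E)), MK K f S →
  ∃ F : RR f, F ≠ 0 ∧ Kr K F ∧ F ∈ IS f S ∧ WD g F ((2 * g + 1) * Multiset.card S) ∧
    ∀ Q ∈ T, On f Q → F ∉ IS f (Q ::ₘ S)

/-- MOV: moving lemma. -/
def T_MOV : Prop := ∀ (K E : Type) [Field K] [CharZero K] [Field E] [CharZero E]
  [IsAlgClosed E] [Algebra K E] [Algebra.IsAlgebraic K E] (g : ℕ) (f : E[X]), Cv g f → KP K f →
  ∀ (S : Multiset (E × E)) (T : Finset (E × E)), MK K f S →
  ∃ S' : Multiset (E × E), MK K f S' ∧ Prin K f (S + S') ∧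
    Multiset.card S' ≤ 2 * g * Multiset.card S ∧ ∀ Q ∈ T, Q ∉ S'

/-- RED: reduction to degree at most `g`. -/
def T_RED : Prop := ∀ (K E : Type) [Field K] [CharZero K] [Field E] [CharZero E]
  [IsAlgClosed E] [Algebra K E] [Algebra.IsAlgebraic K E] (g : ℕ) (f : E[X]), Cv g f → KP K f →
  ∀ S : Multiset (E × E), MK K f S →
  ∃ S' : Multiset (E × E), MK K f S' ∧ Prin K f (S + S') ∧ Multiset.card S' ≤ g

/-- VERT: splitting off the part of `S` that comes from the `t`-line. -/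
def T_VERT : Prop := ∀ (K E : Type) [Field K] [CharZero K] [Field E] [CharZero E]
  [IsAlgClosed E] [Algebra K E] [Algebra.IsAlgebraic K E] (g : ℕ) (f : E[X]), Cv g f → KP K f →
  ∀ S : Multiset (E × E), MK K f S →
  ∃ S₁ V : Multiset (E × E), MK K f S₁ ∧ MK K f V ∧ S = S₁ + V ∧ Prin K f V ∧
    ∀ P, S₁.count P = if P.2 = 0 then S.count P % 2 else S.count P - S.count (io P)

/-- CLS: the class group exists. -/
def T_CLS : Prop := ∀ (K E : Type) [Field K] [CharZero K] [Field E] [CharZero E]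
  [IsAlgClosed E] [Algebra K E] [Algebra.IsAlgebraic K E] (g : ℕ) (f : E[X]), Cv g f → KP K f →
  ∃ (G : Type) (_ : AddCommGroup G) (cls : Multiset (E × E) → G), Cls K f G cls

/-! ## B. Local estimates -/

/-- DVN: coefficients of an exact quotient by `X - a`. -/
def T_DVN : Prop := ∀ m : ℕ, ∃ e : ℕ, ∀ (E : Type) [Field E] (v : AbsoluteValue E ℝ) (Λ : ℝ),
  1 ≤ Λ → (∀ x y, v (x + y) ≤ Λ * max (v x) (v y)) → ∀ (a : E) (q : E[X]) (M : ℝ),
  q.natDegree ≤ m → PB v ((X - C a) * q) M → PB v q (Λ ^ e * M / max 1 (v a))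

/-- EVB: values of a polynomial. -/
def T_EVB : Prop := ∀ m : ℕ, ∃ e : ℕ, ∀ (E : Type) [Field E] (v : AbsoluteValue E ℝ) (Λ : ℝ),
  1 ≤ Λ → (∀ x y, v (x + y) ≤ Λ * max (v x) (v y)) → ∀ (p : E[X]) (M : ℝ) (x : E),
  p.natDegree ≤ m → PB v p M → v (p.eval x) ≤ Λ ^ e * M * max 1 (v x) ^ p.natDegree

/-- DDI: the identities of `DD` and `DT`. -/
def T_DDI : Prop := ∀ (E : Type) [Field E],
  (∀ (p : E[X]) (x y : E), (x - y) * DD p x y = p.eval x - p.eval y) ∧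
  (∀ (g : ℕ) (p : E[X]) (x y : E), p.natDegree ≤ 2 * g + 1 →
    (x - y) * DT g p x y = p.eval x * y ^ (2 * g + 2) - p.eval y * x ^ (2 * g + 2)) ∧
  (∀ (g : ℕ) (p : E[X]) (x y : E), p.natDegree = 2 * g + 1 → x ≠ 0 → y ≠ 0 →
    DD (X * p.reverse) x⁻¹ y⁻¹ * (x * y) ^ (2 * g + 1) = - DT g p x y)

/-- DDB: `DD p x y` is near `p'(x)`. -/
def T_DDB : Prop := ∀ m : ℕ, ∃ e : ℕ, ∀ (E : Type) [Field E] (v : AbsoluteValue E ℝ) (Λ : ℝ),
  1 ≤ Λ → (∀ x y, v (x + y) ≤ Λ * max (v x) (v y)) → ∀ (p : E[X]) (x y : E),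
  p.natDegree ≤ m → PB v p Λ → v x ≤ Λ → v y ≤ Λ →
  v (DD p x y - (derivative p).eval x) ≤ Λ ^ e * v (x - y)

/-- KEYC: in a chart, one of the four quantities is large. -/
def T_KEYC : Prop := ∀ m N : ℕ, ∃ e : ℕ, ∀ (E : Type) [Field E] (v : AbsoluteValue E ℝ) (Λ : ℝ),
  1 ≤ Λ → (∀ x y, v (x + y) ≤ Λ * max (v x) (v y)) → 1 ≤ Λ * v 2 →
  ∀ h a b : E[X], h.natDegree ≤ m → a.natDegree ≤ N → b.natDegree ≤ N →
  PB v h Λ → PB v a Λ → PB v b Λ → a * h + b * derivative h = 1 →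
  ∀ w w' z z' : E, v w ≤ Λ → v w' ≤ Λ → z ^ 2 = h.eval w → z' ^ 2 = h.eval w' →
  1 ≤ Λ ^ e * max (v (w - w')) (max (v (z - z')) (max (v (z + z')) (v (DD h w w'))))

/-- KEY: the same on the whole curve. -/
def T_KEY : Prop := ∀ g N : ℕ, ∃ e : ℕ, ∀ (E : Type) [Field E] (v : AbsoluteValue E ℝ)
  (f : E[X]) (Λ : ℝ), Cv g f → Tm v g f N Λ → ∀ P Q : E × E, On f P → On f Q →
  1 ≤ Λ ^ e * max (dd v g P Q)
    (max (max (v (P.2 + Q.2) / (nm v P * nm v Q) ^ (g + 1))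
        (v (P.2 * Q.1 ^ (g + 1) + Q.2 * P.1 ^ (g + 1)) / (nm v P * nm v Q) ^ (g + 1)))
      (max (v (DD f P.1 Q.1) / (nm v P * nm v Q) ^ (2 * g + 1))
        (v (DT g f P.1 Q.1) / (nm v P * nm v Q) ^ (2 * g + 1))))

/-- LU: upper bound for the values of a function vanishing on `S`. -/
def T_LU : Prop := ∀ g N k D : ℕ, ∃ e : ℕ, ∀ (E : Type) [Field E] [CharZero E]
  (v : AbsoluteValue E ℝ) (f : E[X]) (Λ : ℝ), Cv g f → Tm v g f N Λ →
  ∀ (S : Multiset (E × E)), Multiset.card S = k → OnM f S → ∀ F ∈ IS f S, WD g F D →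
  ∀ M : ℝ, PB v F.re M → PB v F.im M → ∀ Q : E × E, On f Q →
  v (ev F Q) ≤ Λ ^ e * M * Real.sqrt (nm v Q) ^ D * (S.map fun P => dd v g P Q).prod

/-- L2: product of the distances to `Q` and to its conjugate. -/
def T_L2 : Prop := ∀ g : ℕ, ∃ e : ℕ, ∀ (E : Type) [Field E] (v : AbsoluteValue E ℝ)
  (f : E[X]) (Λ : ℝ), Cv g f → 1 ≤ Λ → (∀ x y, v (x + y) ≤ Λ * max (v x) (v y)) → PB v f Λ →
  ∀ P Q : E × E, On f P → On f Q →
  dd v g P Q ≤ Λ ^ e ∧
  dd v g P Q * dd v g P (io Q) ≤ Λ ^ e * (v (P.1 - Q.1) / (nm v P * nm v Q))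

/-- N4N: a function is bounded by its norm (nonarchimedean case). -/
def T_N4N : Prop := ∀ (E : Type) [Field E] (v : AbsoluteValue E ℝ),
  (∀ x y, v (x + y) ≤ max (v x) (v y)) → ∀ (g : ℕ) (f : E[X]), Cv g f → PB v f 1 →
  ∀ (F : RR f) (M : ℝ), 0 ≤ M → PB v (nr F) (M ^ 2) → PB v F.re M ∧ PB v F.im M

/-- N4A: a function is bounded by its norm (complex case). -/
def T_N4A : Prop := ∀ (g D : ℕ) (f : ℂ[X]), Cv g f → ∃ C : ℝ, 1 ≤ C ∧
  ∀ (F : RR f) (M : ℝ), WD g F D → 0 ≤ M → (∀ i, ‖(nr F).coeff i‖ ≤ M ^ 2) →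
  ∀ i, ‖F.re.coeff i‖ ≤ C * M ∧ ‖F.im.coeff i‖ ≤ C * M

/-- NSB: coefficients of `∏ (X - t_P)`. -/
def T_NSB : Prop := ∀ k : ℕ, ∃ e : ℕ, ∀ (E : Type) [Field E] (v : AbsoluteValue E ℝ) (Λ : ℝ),
  1 ≤ Λ → (∀ x y, v (x + y) ≤ Λ * max (v x) (v y)) → ∀ S : Multiset (E × E),
  Multiset.card S = k → PB v (NS S) (Λ ^ e * (S.map fun P => nm v P).prod)

/-- the standing assumptions of the global part: `K` a number field, `E` an algebraic closure,
`f = ∏ (X - θ_i)` with distinct integral roots `θ_i ∈ K`, `2 g + 1` of them -/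
structure Cx (K E : Type) [Field K] [NumberField K] [Field E] [Algebra K E] (g : ℕ)
    (θ : Fin (2 * g + 1) → 𝓞 K) (f : E[X]) (ext : AbsoluteValue K ℝ → AbsoluteValue E ℝ) :
    Prop where
  pos : 1 ≤ g
  inj : Function.Injective θ
  eq : f = ∏ i, (X - C (algebraMap K E (θ i : K)))
  ext : Ext K ext

/-- CXF: consequences of the standing assumptions. -/
def T_CXF : Prop := ∀ (K E : Type) [Field K] [NumberField K] [Field E] [CharZero E]
  [IsAlgClosed E] [Algebra K E] [Algebra.IsAlgebraic K E] (g : ℕ) (θ : Fin (2 * g + 1) → 𝓞 K)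
  (f : E[X]) (ext : AbsoluteValue K ℝ → AbsoluteValue E ℝ), Cx K E g θ f ext →
  Cv g f ∧ KP K f ∧ ∀ v ∈ nonarchAbsVal (K := K), PB (ext v) f 1

/-- TAME: tameness constants. -/
def T_TAME : Prop := ∀ (K E : Type) [Field K] [NumberField K] [Field E] [CharZero E]
  [IsAlgClosed E] [Algebra K E] [Algebra.IsAlgebraic K E] (g : ℕ) (θ : Fin (2 * g + 1) → 𝓞 K)
  (f : E[X]) (ext : AbsoluteValue K ℝ → AbsoluteValue E ℝ), Cx K E g θ f ext →
  ∃ (N : ℕ) (Λ : AbsoluteValue K ℝ → ℝ), FS K (fun v => Real.log (Λ v)) ∧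
    ∀ v, Pl K v → Tm (ext v) g f N (Λ v)

/-- LOC: the local estimate for the divisor of a function. -/
def T_LOC : Prop := ∀ (K E : Type) [Field K] [NumberField K] [Field E] [CharZero E]
  [IsAlgClosed E] [Algebra K E] [Algebra.IsAlgebraic K E] (g : ℕ) (θ : Fin (2 * g + 1) → 𝓞 K)
  (f : E[X]) (ext : AbsoluteValue K ℝ → AbsoluteValue E ℝ), Cx K E g θ f ext →
  ∀ k : ℕ, ∃ c : AbsoluteValue K ℝ → ℝ, FS K c ∧ (∀ v, 0 ≤ c v) ∧
  ∀ v, Pl K v → ∀ (F : RR f) (S : Multiset (E × E)), IsDiv f F S → Multiset.card S = k →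
  ∀ Q : E × E, On f Q →
    (Q ∉ S → Real.log (ext v (ev F Q)) ≤ Real.log (ext v (nr F).leadingCoeff) / 2 +
      (S.map fun P => le (ext v) g P Q).sum + c v) ∧
    ((∀ P ∈ S, P.1 ≠ Q.1) → Real.log (ext v (nr F).leadingCoeff) / 2 +
      (S.map fun P => le (ext v) g P Q).sum - c v ≤ Real.log (ext v (ev F Q)))

/-- PUP: upper bound for the local symbol. -/
def T_PUP : Prop := ∀ (K E : Type) [Field K] [NumberField K] [Field E] [CharZero E]
  [IsAlgClosed E] [Algebra K E] [Algebra.IsAlgebraic K E] (g : ℕ) (θ : Fin (2 * g + 1) → 𝓞 K)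
  (f : E[X]) (ext : AbsoluteValue K ℝ → AbsoluteValue E ℝ), Cx K E g θ f ext →
  ∃ c : AbsoluteValue K ℝ → ℝ, FS K c ∧ (∀ v, 0 ≤ c v) ∧
  ∀ v, Pl K v → ∀ P Q : E × E, On f P → On f Q → P ≠ Q →
    le (ext v) g P Q ≤ (Real.log (nm (ext v) P) + Real.log (nm (ext v) Q)) / 2 + c v

/-! ## C. Global pairing -/

/-- EXT: extensions of the places exist. -/
def T_EXT : Prop := ∀ (K E : Type) [Field K] [NumberField K] [Field E] [CharZero E]
  [Algebra K E] [Algebra.IsAlgebraic K E],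
  ∃ ext : AbsoluteValue K ℝ → AbsoluteValue E ℝ, Ext K ext

/-- FSX: finiteness of supports. -/
def T_FSX : Prop := ∀ (K E : Type) [Field K] [NumberField K] [Field E] [CharZero E]
  [Algebra K E] [Algebra.IsAlgebraic K E] (ext : AbsoluteValue K ℝ → AbsoluteValue E ℝ),
  Ext K ext → ∀ x : E, x ≠ 0 → {v : nonarchAbsVal (K := K) | ext v x ≠ 1}.Finite

/-- FSP: finiteness of supports for the local symbols. -/
def T_FSP : Prop := ∀ (K E : Type) [Field K] [NumberField K] [Field E] [CharZero E]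
  [Algebra K E] [Algebra.IsAlgebraic K E] (ext : AbsoluteValue K ℝ → AbsoluteValue E ℝ),
  Ext K ext → (∀ P : E × E, FS K (fun v => Real.log (nm (ext v) P))) ∧
  (∀ (g : ℕ) (P Q : E × E), P ≠ Q → FS K (fun v => le (ext v) g P Q)) ∧
  ∀ (g : ℕ) (S T : Multiset (E × E)), Dj S T → FS K (fun v => lsum (ext v) g S T)

/-- PR: the pairing of a principal divisor with any divisor is bounded. -/
def T_PR : Prop := ∀ (K E : Type) [Field K] [NumberField K] [Field E] [CharZero E]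
  [IsAlgClosed E] [Algebra K E] [Algebra.IsAlgebraic K E] (g : ℕ) (θ : Fin (2 * g + 1) → 𝓞 K)
  (f : E[X]) (ext : AbsoluteValue K ℝ → AbsoluteValue E ℝ), Cx K E g θ f ext →
  ∀ k : ℕ, ∃ C : ℝ, ∀ S T : Multiset (E × E), Prin K f S → MK K f T →
    Multiset.card S ≤ k → Multiset.card T ≤ k →
    (Dj S T → -C ≤ pr ext g S T) ∧ (Tj S T → pr ext g S T ≤ C)

/-- SELF: upper bound for the pairing of `S` with its conjugate. -/
def T_SELF : Prop := ∀ (K E : Type) [Field K] [NumberField K] [Field E] [CharZero E]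
  [IsAlgClosed E] [Algebra K E] [Algebra.IsAlgebraic K E] (g : ℕ) (θ : Fin (2 * g + 1) → 𝓞 K)
  (f : E[X]) (ext : AbsoluteValue K ℝ → AbsoluteValue E ℝ), Cx K E g θ f ext →
  ∀ k : ℕ, ∃ C : ℝ, ∀ S : Multiset (E × E), MK K f S → Multiset.card S ≤ k →
    (∀ P ∈ S, io P ∉ S) →
    pr ext g S (S.map io) ≤ ((Multiset.card S : ℝ) - 1 - g) * HH ext S + C

/-- PRU: upper bound for the pairing of two points. -/
def T_PRU : Prop := ∀ (K E : Type) [Field K] [NumberField K] [Field E] [CharZero E]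
  [IsAlgClosed E] [Algebra K E] [Algebra.IsAlgebraic K E] (g : ℕ) (θ : Fin (2 * g + 1) → 𝓞 K)
  (f : E[X]) (ext : AbsoluteValue K ℝ → AbsoluteValue E ℝ), Cx K E g θ f ext →
  ∃ C : ℝ, ∀ P Q : E × E, On f P → On f Q → P ≠ Q →
    pr ext g {P} {Q} ≤ (HH ext {P} + HH ext {Q}) / 2 + C

/-- HK: height of a rational point, positivity. -/
def T_HK : Prop := ∀ (K E : Type) [Field K] [NumberField K] [Field E] [CharZero E]
  [Algebra K E] [Algebra.IsAlgebraic K E] (ext : AbsoluteValue K ℝ → AbsoluteValue E ℝ),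
  Ext K ext → (∀ (t : K) (y : E), HH ext {(algebraMap K E t, y)} = logHeight₁ t) ∧
    ∀ S : Multiset (E × E), 0 ≤ HH ext S

/-- NOR: Northcott. -/
def T_NOR : Prop := ∀ (K E : Type) [Field K] [NumberField K] [Field E] [CharZero E]
  [IsAlgClosed E] [Algebra K E] [Algebra.IsAlgebraic K E] (g : ℕ) (θ : Fin (2 * g + 1) → 𝓞 K)
  (f : E[X]) (ext : AbsoluteValue K ℝ → AbsoluteValue E ℝ), Cx K E g θ f ext →
  ∀ (k : ℕ) (x : ℝ), {S : Multiset (E × E) | MK K f S ∧ Multiset.card S ≤ k ∧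
    HH ext S ≤ x}.Finite

/-! ## D. The bilinear form -/

/-- QB: a quasi-bilinear function is near a bilinear one. -/
def T_QB : Prop := ∀ (G : Type) [AddCommGroup G] (q : G → G → ℝ) (C : ℝ),
  (∀ a b c, |q (a + b) c - q a c - q b c| ≤ C) → (∀ a b, |q a b - q b a| ≤ C) →
  ∃ B : G → G → ℝ, (∀ a b c, B (a + b) c = B a c + B b c) ∧ (∀ a b, B a b = B b a) ∧
    ∃ C' : ℝ, ∀ a b, |q a b - B a b| ≤ C'

/-- WD: the pairing depends only on the class, up to a constant. -/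
def T_WD : Prop := ∀ (K E : Type) [Field K] [NumberField K] [Field E] [CharZero E]
  [IsAlgClosed E] [Algebra K E] [Algebra.IsAlgebraic K E] (g : ℕ) (θ : Fin (2 * g + 1) → 𝓞 K)
  (f : E[X]) (ext : AbsoluteValue K ℝ → AbsoluteValue E ℝ), Cx K E g θ f ext →
  ∀ k : ℕ, ∃ C : ℝ, ∀ S₁ S₂ T : Multiset (E × E), MK K f S₁ → MK K f S₂ → MK K f T →
    Multiset.card S₁ ≤ k → Multiset.card S₂ ≤ k → Multiset.card T ≤ k →
    Prin K f (S₁ + S₂.map io) → Tj S₁ T → Tj S₂ T → |pr ext g S₁ T - pr ext g S₂ T| ≤ C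

/-- `B` is the bilinear form (height pairing) on the class group -/
structure Frm (K : Type) {E : Type} [Field K] [NumberField K] [Field E] [CharZero E]
    [IsAlgClosed E] [Algebra K E] [Algebra.IsAlgebraic K E] (g : ℕ) (f : E[X])
    (ext : AbsoluteValue K ℝ → AbsoluteValue E ℝ) (G : Type) [AddCommGroup G]
    (cls : Multiset (E × E) → G) (B : G → G → ℝ) : Prop where
  isCls : Cls K f G cls
  add : ∀ a b c, B (a + b) c = B a c + B b c
  symm : ∀ a b, B a b = B b a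
  near : ∀ k : ℕ, ∃ C : ℝ, ∀ S T : Multiset (E × E), MK K f S → MK K f T →
    Multiset.card S ≤ k → Multiset.card T ≤ k →
    (Tj S T → |B (cls S) (cls T) - pr ext g S T| ≤ C) ∧
    (Dj S T → B (cls S) (cls T) ≤ pr ext g S T + C)

/-- FRM: the height pairing exists. -/
def T_FRM : Prop := ∀ (K E : Type) [Field K] [NumberField K] [Field E] [CharZero E]
  [IsAlgClosed E] [Algebra K E] [Algebra.IsAlgebraic K E] (g : ℕ) (θ : Fin (2 * g + 1) → 𝓞 K)
  (f : E[X]) (ext : AbsoluteValue K ℝ → AbsoluteValue E ℝ), Cx K E g θ f ext →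
  ∀ (G : Type) [AddCommGroup G] (cls : Multiset (E × E) → G), Cls K f G cls →
  ∃ B : G → G → ℝ, Frm K g f ext G cls B

/-- POS: lower bound for the quadratic form. -/
def T_POS : Prop := ∀ (K E : Type) [Field K] [NumberField K] [Field E] [CharZero E]
  [IsAlgClosed E] [Algebra K E] [Algebra.IsAlgebraic K E] (g : ℕ) (θ : Fin (2 * g + 1) → 𝓞 K)
  (f : E[X]) (ext : AbsoluteValue K ℝ → AbsoluteValue E ℝ), Cx K E g θ f ext →
  ∀ (G : Type) [AddCommGroup G] (cls : Multiset (E × E) → G) (B : G → G → ℝ),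
  Frm K g f ext G cls B → ∃ (C : ℝ) (W : Set G), W.Finite ∧ ∀ c : G, ∃ S : Multiset (E × E),
    MK K f S ∧ Multiset.card S ≤ g ∧ c - cls S ∈ W ∧ HH ext S ≤ B c c + C

/-- FIN: finitely many classes of bounded height. -/
def T_FIN : Prop := ∀ (K E : Type) [Field K] [NumberField K] [Field E] [CharZero E]
  [IsAlgClosed E] [Algebra K E] [Algebra.IsAlgebraic K E] (g : ℕ) (θ : Fin (2 * g + 1) → 𝓞 K)
  (f : E[X]) (ext : AbsoluteValue K ℝ → AbsoluteValue E ℝ), Cx K E g θ f ext →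
  ∀ (G : Type) [AddCommGroup G] (cls : Multiset (E × E) → G) (B : G → G → ℝ),
  Frm K g f ext G cls B → ∀ x : ℝ, {c : G | B c c ≤ x}.Finite

/-! ## E. Weak Mordell-Weil -/

/-- SEL: elements whose valuations outside `N` are divisible by `m` lie in finitely many classes
modulo `m`-th powers. -/
def T_SEL : Prop := ∀ (K : Type) [Field K] [NumberField K] (m : ℕ) (N : 𝓞 K), 0 < m → N ≠ 0 →
  ∃ A : Finset K, (∀ a ∈ A, a ≠ 0) ∧ ∀ x : K, x ≠ 0 →
    (∀ v : HeightOneSpectrum (𝓞 K), N ∉ v.asIdeal →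
      (m : ℤ) ∣ WithZero.log (v.valuation K x)) →
    ∃ a ∈ A, ∃ z : K, z ≠ 0 ∧ x = a * z ^ m

/-- EVN: norms of `t - θ_i` have even valuation. -/
def T_EVN : Prop := ∀ (K L : Type) [Field K] [NumberField K] [Field L] [NumberField L]
  [Algebra K L] (g : ℕ) (θ : Fin (2 * g + 1) → 𝓞 K) (t y : L), y ≠ 0 →
  y ^ 2 = ∏ i, (t - algebraMap K L (θ i : K)) → ∀ (i : Fin (2 * g + 1))
  (v : HeightOneSpectrum (𝓞 K)), (∏ i, ∏ j ∈ Finset.univ.erase i, (θ i - θ j)) ∉ v.asIdeal →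
  (2 : ℤ) ∣ WithZero.log (v.valuation K (Algebra.norm K (t - algebraMap K L (θ i : K))))

/-- W1: the descent map has even valuations. -/
def T_W1 : Prop := ∀ (K E : Type) [Field K] [NumberField K] [Field E] [CharZero E]
  [IsAlgClosed E] [Algebra K E] [Algebra.IsAlgebraic K E] (g : ℕ) (θ : Fin (2 * g + 1) → 𝓞 K)
  (f : E[X]) (ext : AbsoluteValue K ℝ → AbsoluteValue E ℝ), Cx K E g θ f ext →
  ∀ (i : Fin (2 * g + 1)) (S : Multiset (E × E)), MK K f S → (∀ P ∈ S, P.2 ≠ 0) →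
  ∃ x : K, x ≠ 0 ∧ algebraMap K E x = (S.map fun P => P.1 - algebraMap K E (θ i : K)).prod ∧
    ∀ v : HeightOneSpectrum (𝓞 K), (∏ i, ∏ j ∈ Finset.univ.erase i, (θ i - θ j)) ∉ v.asIdeal →
      (2 : ℤ) ∣ WithZero.log (v.valuation K x)

/-- LEG: Legendre's theorem over `K[t]`. -/
def T_LEG : Prop := ∀ (K E : Type) [Field K] [NumberField K] [Field E] [CharZero E]
  [IsAlgClosed E] [Algebra K E] [Algebra.IsAlgebraic K E] (g : ℕ) (θ : Fin (2 * g + 1) → 𝓞 K)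
  (f : E[X]) (ext : AbsoluteValue K ℝ → AbsoluteValue E ℝ), Cx K E g θ f ext →
  ∀ (S : Multiset (E × E)) (s : Fin (2 * g + 1) → K), MK K f S → (∀ P ∈ S, P.2 ≠ 0) →
  (∀ i, algebraMap K E (s i ^ 2) = (S.map fun P => P.1 - algebraMap K E (θ i : K)).prod) →
  ∃ (F : RR f) (Z : E[X]), F ≠ 0 ∧ Kr K F ∧ F ∈ IS f S ∧
    nr F = C ((-1) ^ (Multiset.card S)) * NS S * Z ^ 2

/-- W2: the kernel of the descent map is `2 J(K)`. -/
def T_W2 : Prop := ∀ (K E : Type) [Field K] [NumberField K] [Field E] [CharZero E]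
  [IsAlgClosed E] [Algebra K E] [Algebra.IsAlgebraic K E] (g : ℕ) (θ : Fin (2 * g + 1) → 𝓞 K)
  (f : E[X]) (ext : AbsoluteValue K ℝ → AbsoluteValue E ℝ), Cx K E g θ f ext →
  ∀ (S : Multiset (E × E)) (s : Fin (2 * g + 1) → K), MK K f S → (∀ P ∈ S, P.2 ≠ 0) →
  (∀ i, algebraMap K E (s i ^ 2) = (S.map fun P => P.1 - algebraMap K E (θ i : K)).prod) →
  ∃ T : Multiset (E × E), MK K f T ∧ Prin K f (S + (T + T))

/-- WMW: weak Mordell-Weil theorem. -/
def T_WMW : Prop := ∀ (K E : Type) [Field K] [NumberField K] [Field E] [CharZero E]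
  [IsAlgClosed E] [Algebra K E] [Algebra.IsAlgebraic K E] (g : ℕ) (θ : Fin (2 * g + 1) → 𝓞 K)
  (f : E[X]) (ext : AbsoluteValue K ℝ → AbsoluteValue E ℝ), Cx K E g θ f ext →
  ∀ (G : Type) [AddCommGroup G] (cls : Multiset (E × E) → G), Cls K f G cls →
  ∃ A : Finset G, ∀ c : G, ∃ a ∈ A, ∃ b : G, c = a + (b + b)

/-! ## F. Mordell-Weil and the gap principle -/

/-- DESC: descent. -/
def T_DESC : Prop := ∀ (G : Type) [AddCommGroup G] (B : G → G → ℝ),
  (∀ a b c, B (a + b) c = B a c + B b c) → (∀ a b, B a b = B b a) →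
  (∀ x : ℝ, {c : G | B c c ≤ x}.Finite) →
  (∃ A : Finset G, ∀ c : G, ∃ a ∈ A, ∃ b : G, c = a + (b + b)) →
  (∀ c, 0 ≤ B c c) ∧ AddGroup.FG G

/-- SPH: vectors with large angles in a finitely generated group with a form. -/
def T_SPH : Prop := ∀ (G : Type) [AddCommGroup G] (B : G → G → ℝ),
  (∀ a b c, B (a + b) c = B a c + B b c) → (∀ a b, B a b = B b a) → (∀ c, 0 ≤ B c c) →
  AddGroup.FG G → ∀ ρ : ℝ, ρ < 1 → ∃ N : ℕ, ∀ s : Finset G, (∀ c ∈ s, 0 < B c c) →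
  (∀ c ∈ s, ∀ c' ∈ s, c ≠ c' → B c c' ≤ ρ * Real.sqrt (B c c * B c' c')) → s.card ≤ N

/-- GAP: Mumford's gap principle. -/
def T_GAP : Prop := ∀ (K : Type) [Field K] [NumberField K] (g : ℕ), 2 ≤ g →
  ∀ θ : Fin (2 * g + 1) → 𝓞 K, Function.Injective θ → ∀ C₀ : ℝ, ∃ N : ℕ, ∀ (T : ℝ)
  (s : Finset (K × K)), (∀ P ∈ s, P.2 ^ 2 = ∏ i, (P.1 - (θ i : K)) ∧ T ≤ logHeight₁ P.1 ∧
    logHeight₁ P.1 ≤ 3 / 2 * T + C₀) → s.card ≤ N

end Pool.Agent.HMW
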