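import Pool.Agent.HMW.Targets

set_option autoImplicit false
set_option linter.unusedVariables false

/-!
# MP_c076ed_nt: uniform boundedness for `x^d + c`: targets, part G (dynamics)
-/

open Polynomial Height Height.AdmissibleAbsValues NumberField IsDedekindDomain
open scoped Classical WithZero

noncomputable section

namespace Pool.Agent.HMW

/-- the map `x ↦ x^d + c` on `ℚ` -/
def fc (d : ℕ) (c : ℚ) (x : ℚ) : ℚ := x ^ d + c

/-- `x` is preperiodic (its orbit is finite) -/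
def Pre (d : ℕ) (c x : ℚ) : Prop := (Set.range fun k : ℕ => (fc d c)^[k] x).Finite

/-- `x` is periodic -/
def Per (d : ℕ) (c x : ℚ) : Prop := x ∈ Function.periodicPts (fc d c)

/-- admissible pairs, first kind: `z` periodic, `x` in a different phase, `x` not of the form
`-` (periodic) -/
def AdmA (d : ℕ) (c x z : ℚ) : Prop :=
  Per d c z ∧ Pre d c x ∧ (∀ k : ℕ, (fc d c)^[k] x ≠ (fc d c)^[k] z) ∧
    (Per d c x ∨ ¬ Per d c (fc d c x))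

/-- admissible pairs, second kind: `z` is a fixed point on the orbit of `x` -/
def AdmB (d : ℕ) (c x z : ℚ) : Prop :=
  fc d c z = z ∧ Pre d c x ∧ ¬ Per d c x ∧ ¬ Per d c (fc d c x) ∧ ∃ k : ℕ, (fc d c)^[k] x = z

/-- admissible pairs -/
def Adm (d : ℕ) (c x z : ℚ) : Prop := AdmA d c x z ∨ AdmB d c x z

/-! ## G. Dynamics -/

/-- VAL: valuations of points with finite orbit. -/
def T_VAL : Prop := ∀ (L : Type) [Field L] (w : Valuation L ℤᵐ⁰) (d : ℕ) (c x : L), 2 ≤ d →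
  (Set.range fun k : ℕ => (fun y : L => y ^ d + c)^[k] x).Finite →
  (w c ≤ 1 → w x ≤ 1) ∧ (1 < w c → w x ^ d = w c)

/-- PSB: the power structure at a place where `c` is large. -/
def T_PSB : Prop := ∀ (L : Type) [Field L] [CharZero L] (w : Valuation L ℤᵐ⁰) (d : ℕ) (ζ : L)
  (c x y : ℚ), 4 ≤ d → Even d → IsPrimitiveRoot ζ d → w (d : L) = 1 → 1 < w (c : L) →
  Pre d c x → Pre d c y → x ^ d ≠ y ^ d →
  ∀ j : ℕ, ((d : ℤ) - 1) ∣ WithZero.log (w ((x : L) - ζ ^ j * y)) - WithZero.log (w (x : L))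

/-- PSA: the factors are units at a place where `c` is integral (first kind). -/
def T_PSA : Prop := ∀ (L : Type) [Field L] [CharZero L] (w : Valuation L ℤᵐ⁰) (d : ℕ) (ζ : L)
  (c x z : ℚ), 4 ≤ d → Even d → IsPrimitiveRoot ζ d → w (c : L) ≤ 1 → AdmA d c x z →
  ∀ j : ℕ, ¬ d ∣ j → w ((x : L) - ζ ^ j * z) = 1

/-- PSC: the factors have equal valuations at a place where `c` is integral (second kind). -/
def T_PSC : Prop := ∀ (L : Type) [Field L] [CharZero L] (w : Valuation L ℤᵐ⁰) (d : ℕ) (ζ : L)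
  (c x z : ℚ), 4 ≤ d → Even d → IsPrimitiveRoot ζ d → w (d : L) = 1 → w (c : L) ≤ 1 →
  AdmB d c x z → z ≠ 0 → ∀ i j : ℕ, w ((x : L) - ζ ^ i * z) = w ((x : L) - ζ ^ j * z) ∨
    (d ∣ i ∨ d ∣ j)

/-- PS: the power structure. -/
def T_PS : Prop := ∀ (L : Type) [Field L] [CharZero L] (w : Valuation L ℤᵐ⁰) (d : ℕ) (ζ : L)
  (c x z : ℚ), 4 ≤ d → Even d → IsPrimitiveRoot ζ d → w (d : L) = 1 → Adm d c x z → z ≠ 0 →
  ∀ i j : ℕ, ¬ d ∣ i → ¬ d ∣ j → (x : L) - ζ ^ i * z ≠ 0 ∧ ((d : ℤ) - 1) ∣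
    WithZero.log (w ((x : L) - ζ ^ i * z)) - WithZero.log (w ((x : L) - ζ ^ j * z))

/-- DEN: all preperiodic points have the same denominator. -/
def T_DEN : Prop := ∀ (d : ℕ) (c x₀ : ℚ), 2 ≤ d → Pre d c x₀ →
  ∃ e : ℕ, 0 < e ∧ c.den = e ^ d ∧ ∀ x, Pre d c x → x.den = e

/-- GCA: numerators are coprime (first kind). -/
def T_GCA : Prop := ∀ (d : ℕ) (c x z : ℚ), 4 ≤ d → Even d → AdmA d c x z →
  IsCoprime x.num z.num

/-- GCB: small common divisor of the numerators (second kind). -/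
def T_GCB : Prop := ∀ (d : ℕ) (c x z : ℚ), 4 ≤ d → Even d → AdmB d c x z → z ≠ 0 →
  Int.gcd x.num z.num ^ d ∣ (2 * z.num).natAbs

/-- SIZ: sizes of the numerators of preperiodic points. -/
def T_SIZ : Prop := ∀ d : ℕ, 4 ≤ d → ∃ C : ℝ, ∀ c x y : ℚ, Pre d c x → Pre d c y →
  (x ≠ 0 → Real.log |(x.num : ℝ)| ≤ logHeight₁ c / d + C) ∧
  (|x| < |y| → (1 - 1 / (d : ℝ)) * (logHeight₁ c / d) - C ≤ Real.log |(y.num : ℝ)|)

/-- HTX: heights of the ratios. -/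
def T_HTX : Prop := ∀ d : ℕ, 4 ≤ d → Even d → ∃ C : ℝ, ∀ c x z w : ℚ, Adm d c x z → z ≠ 0 →
  Pre d c w → |w| < |x| →
  (1 - 1 / (d : ℝ)) ^ 2 * (logHeight₁ c / d) - C ≤ logHeight₁ (x / z) ∧
  logHeight₁ (x / z) ≤ logHeight₁ c / d + C

/-- HQK: heights of rational numbers in a number field. -/
def T_HQK : Prop := ∀ (K : Type) [Field K] [NumberField K] (r : ℚ),
  logHeight₁ (r : K) = (Module.finrank ℚ K : ℝ) * logHeight₁ r

/-- PTA: admissible pairs give points on finitely many curves. -/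
def T_PTA : Prop := ∀ d : ℕ, 6 ≤ d → Even d → ∃ (L : Type) (_ : Field L) (_ : NumberField L)
  (ζ : L), IsPrimitiveRoot ζ d ∧ ∃ A : Finset (𝓞 L), (∀ α ∈ A, α ≠ 0) ∧ ∀ c x z : ℚ,
  Adm d c x z → z ≠ 0 → ∃ α ∈ A, ∃ X : L,
    ((1 + ζ) / (1 - ζ) * (((x : L) - z) / ((x : L) + z))) ^ 2 = 1 + (α : L) * X ^ (d - 1)

/-- FLD: a field over which the curves split. -/
def T_FLD : Prop := ∀ (L : Type) [Field L] [NumberField L] (A : Finset (𝓞 L)) (g : ℕ),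
  ∃ (K : Type) (_ : Field K) (_ : NumberField K) (_ : Algebra L K), ∀ α ∈ A, α ≠ 0 →
    ∃ θ : Fin (2 * g + 1) → 𝓞 K, Function.Injective θ ∧ ∀ t : K,
      t ^ (2 * g + 1) + algebraMap L K (α : L) ^ (2 * g) = ∏ i, (t - (θ i : K))

/-- CURV: points on the split curves, with heights. -/
def T_CURV : Prop := ∀ g : ℕ, 2 ≤ g → ∃ (K : Type) (_ : Field K) (_ : NumberField K) (m : ℕ)
  (θ : Fin m → Fin (2 * g + 1) → 𝓞 K) (κ : Fin m → K) (C : ℝ),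
  (∀ i, Function.Injective (θ i)) ∧ (∀ i, κ i ≠ 0) ∧ ∀ c x z : ℚ, Adm (2 * g + 2) c x z →
  z ≠ 0 → x + z ≠ 0 ∧ ∃ (i : Fin m) (P : K × K), P.2 ^ 2 = ∏ j, (P.1 - (θ i j : K)) ∧
    P.2 = κ i * (((x : K) - z) / ((x : K) + z)) ∧
    |logHeight₁ P.1 - 2 / (2 * (g : ℝ) + 1) * ((Module.finrank ℚ K : ℝ) * logHeight₁ (x / z))|
      ≤ C

/-- CNT: boundedly many points are admissible with a given `z`. -/
def T_CNT : Prop := ∀ d : ℕ, 6 ≤ d → Even d → ∃ N : ℕ, ∀ (c z : ℚ), z ≠ 0 →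
  ∀ s : Finset ℚ, (∀ x ∈ s, Adm d c x z) → s.card ≤ N

/-- EVEN: the theorem for even `d ≥ 6` and nonintegral `c`. -/
def T_EVEN : Prop := ∀ d : ℕ, 6 ≤ d → Even d → ∃ B : ℕ, ∀ c : ℚ, c.den ≠ 1 →
  ∀ s : Finset ℚ, (∀ x ∈ s, Pre d c x) → s.card ≤ B

/-- INTC: integral `c`. -/
def T_INTC : Prop := ∀ (d : ℕ) (c : ℚ), 4 ≤ d → Even d → c.den = 1 →
  ∀ s : Finset ℚ, (∀ x ∈ s, Pre d c x) → s.card ≤ 5

/-- ODD: odd `d`. -/
def T_ODD : Prop := ∀ (d : ℕ) (c : ℚ), 3 ≤ d → Odd d →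
  ∀ s : Finset ℚ, (∀ x ∈ s, Pre d c x) → s.card ≤ d

/-- FOUR: `d = 4` (from `UnicriticalUniform`). -/
def T_FOUR : Prop := ∀ c : ℚ, ∀ s : Finset ℚ, (∀ x ∈ s, Pre 4 c x) → s.card ≤ 4

/-- UNI: the theorem. -/
def T_UNI : Prop := ∀ d : ℕ, 3 ≤ d → ∃ B : ℕ, ∀ c : ℚ,
  ∀ s : Finset ℚ, (∀ x ∈ s, Pre d c x) → s.card ≤ B

end Pool.Agent.HMW
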